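import Mathlib

/-!
# Groups with a system of open subgroups, ranks: definitions
-/

set_option autoImplicit false

namespace Pool.Agent.Helper596_Q

/-- The conjugate `g V g⁻¹`. -/
def cj {A : Type*} [Group A] (g : A) (V : Subgroup A) : Subgroup A :=
  V.map (MulAut.conj g).toMonoidHom

theorem mem_cj {A : Type*} [Group A] {g x : A} {V : Subgroup A} :
    x ∈ cj g V ↔ g⁻¹ * x * g ∈ V := by
  unfold cj
  rw [Subgroup.mem_map]
  constructor
  · rintro ⟨y, hy, rfl⟩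
    have : g⁻¹ * (MulAut.conj g).toMonoidHom y * g = y := by
      simp [MulAut.conj_apply, mul_assoc]
    rw [this]
    exact hy
  · intro h
    refine ⟨g⁻¹ * x * g, h, ?_⟩
    simp [MulAut.conj_apply, mul_assoc]

/-- A system of open subgroups of a group, with finitely many double cosets. -/
structure OSys (A : Type*) [Group A] where
  Opn : Subgroup A → Prop
  opn_top : Opn ⊤
  opn_inf : ∀ {V W : Subgroup A}, Opn V → Opn W → Opn (V ⊓ W)
  opn_mono : ∀ {V W : Subgroup A}, Opn V → V ≤ W → Opn W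
  opn_cj : ∀ {V : Subgroup A} (g : A), Opn V → Opn (cj g V)
  dc : ∀ {V W : Subgroup A}, Opn V → Opn W →
    ∃ T : Finset A, ∀ g : A, ∃ t ∈ T, ∃ v ∈ V, ∃ w ∈ W, g = v * t * w

section
variable {A : Type*} [Group A]

/-- `S` is a definable set of left cosets of `U`. -/
def Dfn (O : OSys A) (U : Subgroup A) (S : Set A) : Prop :=
  (∀ s ∈ S, ∀ u ∈ U, s * u ∈ S) ∧ ∃ W : Subgroup A, O.Opn W ∧ ∀ w ∈ W, ∀ s ∈ S, w * s ∈ S

/-- `S`, as a set of left cosets of `U`, has rank at least `n`. -/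
def Rk (O : OSys A) (U : Subgroup A) : ℕ → Set A → Prop
  | 0, S => S.Nonempty
  | n + 1, S => ∃ f : ℕ → Set A, (∀ i, Dfn O U (f i)) ∧ (∀ i j, i ≠ j → Disjoint (f i) (f j)) ∧
      ∀ i, f i ⊆ S ∧ Rk O U n (f i)

/-- Independence of `P` and `Q` over `B`, for a rank function `r`. -/
def Ind (r : Subgroup A → ℕ) (P Q B : Subgroup A) : Prop :=
  r (P ⊓ Q ⊓ B) + r B = r (P ⊓ B) + r (Q ⊓ B)

/-- The orbit of `V` over `W` is stationary. -/
def St (O : OSys A) (r : Subgroup A → ℕ) (W V : Subgroup A) : Prop :=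
  ∀ Q : Subgroup A, O.Opn Q → Q ≤ W → ∀ g ∈ W, ∀ g' ∈ W, Ind r (cj g V) Q W →
    Ind r (cj g' V) Q W → ∃ q ∈ Q, g⁻¹ * q⁻¹ * g' ∈ V

end

/-- A system of open subgroups with a rank function. -/
structure RSys (A : Type*) [Group A] extends OSys A where
  r : Subgroup A → ℕ
  r_cj : ∀ (g : A) (V : Subgroup A), Opn V → r (cj g V) = r V
  r_mono : ∀ {V W : Subgroup A}, Opn V → Opn W → V ≤ W → r W ≤ r V
  r_fin : ∀ {V W : Subgroup A}, Opn V → Opn W → V ≤ W → r V = r W →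
    ∃ T : Finset A, ∀ w ∈ W, ∃ t ∈ T, t⁻¹ * w ∈ V
  r_sub : ∀ {V W B : Subgroup A}, Opn V → Opn W → Opn B →
    r (V ⊓ W ⊓ B) + r B ≤ r (V ⊓ B) + r (W ⊓ B)
  r_ext : ∀ {V W B : Subgroup A}, Opn V → Opn W → Opn B →
    ∃ g ∈ B, Ind r (cj g V) W B
  r_stat : ∀ {V B : Subgroup A}, Opn V → Opn B →
    ∃ W ≤ B, Opn W ∧ r W = r B ∧ St toOSys r W V
  r_cb : ∀ {P Q₁ Q₂ : Subgroup A}, Opn P → Opn Q₁ → Opn Q₂ → Ind r P Q₂ Q₁ → Ind r P Q₁ Q₂ →
    ∃ E, Opn E ∧ r (E ⊓ Q₁) = r Q₁ ∧ r (E ⊓ Q₂) = r Q₂ ∧ r (P ⊓ E) + r Q₁ = r (P ⊓ Q₁) + r E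
  r_drop : ∀ {V B : Subgroup A}, Opn V → Opn B → r B < r (V ⊓ B) →
    ∃ C ≤ B, Opn C ∧ r (V ⊓ C) + 1 + r B = r (V ⊓ B) + r C

section
variable (A : Type*) [Group A] {M : Type*} [MulAction A M]

/-- The pointwise stabiliser of a finite set. -/
def stb (F : Finset M) : Subgroup A where
  carrier := {a | ∀ x ∈ F, a • x = x}
  one_mem' := fun x _ => one_smul A x
  mul_mem' := by
    intro a b ha hb x hx
    rw [mul_smul, hb x hx, ha x hx]
  inv_mem' := by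
    intro a ha x hx
    rw [inv_smul_eq_iff, ha x hx]

theorem mem_stb {F : Finset M} {a : A} : a ∈ stb A F ↔ ∀ x ∈ F, a • x = x := Iff.rfl

end

/-- A weak system of supports. -/
structure WSys (A M : Type*) [Group A] [MulAction A M] where
  supp : M → Finset ℚ
  fin : ∀ W : Finset ℚ, {x | supp x ⊆ W}.Finite
  bdd : ∃ k : ℕ, ∀ x, (supp x).card ≤ k
  lift : ∀ (W : Finset ℚ) (σ : ℚ → ℚ), StrictMonoOn σ (W : Set ℚ) → ∃ a : A,
    (∀ x, supp x ⊆ W → supp (a • x) = (supp x).image σ) ∧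
    (∀ y, supp y ⊆ W.image σ → ∃ x, supp x ⊆ W ∧ a • x = y)

end Pool.Agent.Helper596_Q
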