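import Mathlib
import Pool.Agent.Helper596_Q.Op

/-!
# Basic facts on ranks
-/

set_option autoImplicit false

namespace Pool.Agent.Helper596_Q

section
variable {A : Type} [Group A] (O : OSys A)

theorem rk_mono {U : Subgroup A} {n : ℕ} {S T : Set A} (h : S ⊆ T) (hS : Rk O U n S) :
    Rk O U n T := by
  cases n with
  | zero => exact Set.Nonempty.mono h hS
  | succ n =>
    obtain ⟨f, h1, h2, h3⟩ := hS
    exact ⟨f, h1, h2, fun i => ⟨(h3 i).1.trans h, (h3 i).2⟩⟩

theorem rk_pred {U : Subgroup A} {n : ℕ} {S : Set A} (hS : Rk O U (n + 1) S) : Rk O U n S := by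
  obtain ⟨f, _, _, h3⟩ := hS
  exact rk_mono O (h3 0).1 (h3 0).2

theorem rk_le {U : Subgroup A} {m n : ℕ} {S : Set A} (h : m ≤ n) (hS : Rk O U n S) :
    Rk O U m S := by
  induction n with
  | zero =>
    obtain rfl : m = 0 := by omega
    exact hS
  | succ n ih =>
    rcases Nat.lt_or_ge n m with h' | h'
    · obtain rfl : m = n + 1 := by omega
      exact hS
    · exact ih h' (rk_pred O hS)

theorem rk_nonempty {U : Subgroup A} {n : ℕ} {S : Set A} (hS : Rk O U n S) : S.Nonempty :=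
  rk_le O (Nat.zero_le n) hS

theorem dfn_univ (U : Subgroup A) : Dfn O U Set.univ :=
  ⟨fun _ _ _ _ => Set.mem_univ _, ⊤, O.opn_top, fun _ _ _ _ => Set.mem_univ _⟩

theorem dfn_inter {U : Subgroup A} {S T : Set A} (hS : Dfn O U S) (hT : Dfn O U T) :
    Dfn O U (S ∩ T) := by
  obtain ⟨h1, W, hW, h2⟩ := hS
  obtain ⟨h3, W', hW', h4⟩ := hT
  exact ⟨fun s hs u hu => ⟨h1 s hs.1 u hu, h3 s hs.2 u hu⟩, W ⊓ W', O.opn_inf hW hW',
    fun w hw s hs => ⟨h2 w hw.1 s hs.1, h4 w hw.2 s hs.2⟩⟩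

theorem dfn_union {U : Subgroup A} {S T : Set A} (hS : Dfn O U S) (hT : Dfn O U T) :
    Dfn O U (S ∪ T) := by
  obtain ⟨h1, W, hW, h2⟩ := hS
  obtain ⟨h3, W', hW', h4⟩ := hT
  exact ⟨fun s hs u hu => hs.elim (fun h => Or.inl (h1 s h u hu)) (fun h => Or.inr (h3 s h u hu)),
    W ⊓ W', O.opn_inf hW hW', fun w hw s hs =>
      hs.elim (fun h => Or.inl (h2 w hw.1 s h)) (fun h => Or.inr (h4 w hw.2 s h))⟩

theorem dfn_compl {U : Subgroup A} {S : Set A} (hS : Dfn O U S) : Dfn O U Sᶜ := by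
  obtain ⟨h1, W, hW, h2⟩ := hS
  refine ⟨fun s hs u hu h => hs ?_, W, hW, fun w hw s hs h => hs ?_⟩
  · have := h1 _ h _ (U.inv_mem hu)
    rwa [mul_inv_cancel_right] at this
  · have := h2 _ (W.inv_mem hw) _ h
    rwa [inv_mul_cancel_left] at this

theorem dfn_diff {U : Subgroup A} {S T : Set A} (hS : Dfn O U S) (hT : Dfn O U T) :
    Dfn O U (S \ T) :=
  dfn_inter O hS (dfn_compl O hT)

/-- the double coset `W g U` -/
theorem dfn_dc {U W : Subgroup A} (hW : O.Opn W) (g : A) :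
    Dfn O U {x | ∃ w ∈ W, ∃ u ∈ U, x = w * g * u} := by
  refine ⟨?_, W, hW, ?_⟩
  · rintro _ ⟨w, hw, u, hu, rfl⟩ u' hu'
    exact ⟨w, hw, u * u', U.mul_mem hu hu', by rw [mul_assoc]⟩
  · rintro w' hw' _ ⟨w, hw, u, hu, rfl⟩
    exact ⟨w' * w, W.mul_mem hw' hw, u, hu, by simp only [mul_assoc]⟩

theorem dfn_left {U : Subgroup A} {S : Set A} (hS : Dfn O U S) (g : A) :
    Dfn O U {x | g⁻¹ * x ∈ S} := by
  obtain ⟨h1, W, hW, h2⟩ := hS
  refine ⟨fun s hs u hu => ?_, cj g W, O.opn_cj g hW, fun w hw s hs => ?_⟩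
  · have := h1 _ hs u hu
    rwa [mul_assoc] at this
  · have := h2 _ (mem_cj.1 hw) _ hs
    have e : g⁻¹ * w * g * (g⁻¹ * s) = g⁻¹ * (w * s) := by group
    rwa [e] at this

theorem dfn_right {U : Subgroup A} {S : Set A} (hS : Dfn O U S) (g : A) :
    Dfn O (cj g U) {x | x * g ∈ S} := by
  obtain ⟨h1, W, hW, h2⟩ := hS
  refine ⟨fun s hs u hu => ?_, W, hW, fun w hw s hs => ?_⟩
  · have := h1 _ hs _ (mem_cj.1 hu)
    have e : s * g * (g⁻¹ * u * g) = s * u * g := by group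
    rwa [e] at this
  · have := h2 _ hw _ hs
    rwa [← mul_assoc] at this

theorem dfn_level {U V : Subgroup A} {S : Set A} (hUV : U ≤ V) (hS : Dfn O V S) :
    Dfn O U S :=
  ⟨fun s hs u hu => hS.1 s hs u (hUV hu), hS.2⟩

theorem rk_union {U : Subgroup A} {n : ℕ} {S T : Set A} (hS : Dfn O U S) (hT : Dfn O U T)
    (h : Rk O U n (S ∪ T)) : Rk O U n S ∨ Rk O U n T := by
  induction n generalizing S T with
  | zero =>
    obtain ⟨x, hx | hx⟩ := h
    · exact Or.inl ⟨x, hx⟩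
    · exact Or.inr ⟨x, hx⟩
  | succ n ih =>
    obtain ⟨f, h1, h2, h3⟩ := h
    have key : ∀ i, Rk O U n (f i ∩ S) ∨ Rk O U n (f i ∩ T) := by
      intro i
      refine ih (dfn_inter O (h1 i) hS) (dfn_inter O (h1 i) hT) ?_
      rw [← Set.inter_union_distrib_left, Set.inter_eq_left.2 (h3 i).1]
      exact (h3 i).2
    have aux : ∀ S' : Set A, Dfn O U S' → {i | Rk O U n (f i ∩ S')}.Infinite →
        Rk O U (n + 1) S' := by
      intro S' hS' hinf
      classical
      have := hinf.to_subtype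
      let e := Nat.orderEmbeddingOfSet {i | Rk O U n (f i ∩ S')}
      have he : ∀ i, Rk O U n (f (e i) ∩ S') := fun i => by
        have := Nat.orderEmbeddingOfSet_range {i | Rk O U n (f i ∩ S')}
        have h4 : e i ∈ {i | Rk O U n (f i ∩ S')} := by
          rw [← this]
          exact Set.mem_range_self i
        exact h4
      refine ⟨fun i => f (e i) ∩ S', fun i => dfn_inter O (h1 _) hS', fun i j hij => ?_,
        fun i => ⟨Set.inter_subset_right, he i⟩⟩
      exact (h2 (e i) (e j) (fun h => hij (e.injective h))).mono Set.inter_subset_left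
        Set.inter_subset_left
    by_cases hfin : {i | Rk O U n (f i ∩ S)}.Infinite
    · exact Or.inl (aux S hS hfin)
    · right
      refine aux T hT ?_
      rw [Set.not_infinite] at hfin
      refine Set.Infinite.mono ?_ hfin.infinite_compl
      intro i hi
      exact (key i).resolve_left hi

theorem rk_biUnion {U : Subgroup A} {n : ℕ} {ι : Type} (s : Finset ι) (S : ι → Set A)
    (hS : ∀ i ∈ s, Dfn O U (S i)) (h : Rk O U n (⋃ i ∈ s, S i)) : ∃ i ∈ s, Rk O U n (S i) := by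
  classical
  induction s using Finset.induction_on with
  | empty =>
    obtain ⟨x, hx⟩ := rk_nonempty O h
    simp at hx
  | insert a s ha ih =>
    rw [Finset.set_biUnion_insert] at h
    have hd : ∀ t : Finset ι, (∀ i ∈ t, Dfn O U (S i)) → Dfn O U (⋃ i ∈ t, S i) := by
      intro t
      induction t using Finset.induction_on with
      | empty =>
        intro _
        have e : (⋃ i ∈ (∅ : Finset ι), S i) = (Set.univ : Set A)ᶜ := by simp
        rw [e]
        exact dfn_compl O (dfn_univ O U)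
      | insert b t _ ih' =>
        intro ht
        rw [Finset.set_biUnion_insert]
        exact dfn_union O (ht b (Finset.mem_insert_self _ _))
          (ih' fun i hi => ht i (Finset.mem_insert_of_mem hi))
    rcases rk_union O (hS a (Finset.mem_insert_self _ _))
      (hd s fun i hi => hS i (Finset.mem_insert_of_mem hi)) h with h1 | h1
    · exact ⟨a, Finset.mem_insert_self _ _, h1⟩
    · obtain ⟨i, hi, h2⟩ := ih (fun i hi => hS i (Finset.mem_insert_of_mem hi)) h1
      exact ⟨i, Finset.mem_insert_of_mem hi, h2⟩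

theorem rk_left_aux {U : Subgroup A} {n : ℕ} {S : Set A} (g : A) (h : Rk O U n S) :
    Rk O U n {x | g⁻¹ * x ∈ S} := by
  induction n generalizing S with
  | zero =>
    obtain ⟨x, hx⟩ := h
    exact ⟨g * x, by simpa using hx⟩
  | succ n ih =>
    obtain ⟨f, h1, h2, h3⟩ := h
    refine ⟨fun i => {x | g⁻¹ * x ∈ f i}, fun i => dfn_left O (h1 i) g, fun i j hij => ?_,
      fun i => ⟨fun x hx => (h3 i).1 hx, ih (h3 i).2⟩⟩
    rw [Set.disjoint_left]
    intro x hx hx'
    exact Set.disjoint_left.1 (h2 i j hij) hx hx'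

theorem rk_left {U : Subgroup A} {n : ℕ} {S : Set A} (g : A) :
    Rk O U n {x | g⁻¹ * x ∈ S} ↔ Rk O U n S := by
  refine ⟨fun h => ?_, rk_left_aux O g⟩
  have := rk_left_aux O g⁻¹ h
  have e : {x | g⁻¹⁻¹ * x ∈ {x | g⁻¹ * x ∈ S}} = S := by
    ext x
    simp only [Set.mem_ofPred_eq, inv_inv, inv_mul_cancel_left]
  rwa [e] at this

theorem rk_right_aux {U : Subgroup A} {n : ℕ} {S : Set A} (g : A) (h : Rk O U n S) :
    Rk O (cj g U) n {x | x * g ∈ S} := by
  induction n generalizing S with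
  | zero =>
    obtain ⟨x, hx⟩ := h
    exact ⟨x * g⁻¹, by simpa using hx⟩
  | succ n ih =>
    obtain ⟨f, h1, h2, h3⟩ := h
    refine ⟨fun i => {x | x * g ∈ f i}, fun i => dfn_right O (h1 i) g, fun i j hij => ?_,
      fun i => ⟨fun x hx => (h3 i).1 hx, ih (h3 i).2⟩⟩
    rw [Set.disjoint_left]
    intro x hx hx'
    exact Set.disjoint_left.1 (h2 i j hij) hx hx'

theorem cj_inv_cj (g : A) (U : Subgroup A) : cj g⁻¹ (cj g U) = U := by
  ext x
  rw [mem_cj, mem_cj]
  have e : g⁻¹ * (g⁻¹⁻¹ * x * g⁻¹) * g = x := by group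
  rw [e]

theorem rk_right {U : Subgroup A} {n : ℕ} {S : Set A} (g : A) :
    Rk O (cj g U) n {x | x * g ∈ S} ↔ Rk O U n S := by
  refine ⟨fun h => ?_, rk_right_aux O g⟩
  have := rk_right_aux O g⁻¹ h
  have e : {x | x * g⁻¹ ∈ {x | x * g ∈ S}} = S := by
    ext x
    simp only [Set.mem_ofPred_eq, inv_mul_cancel_right]
  rwa [e, cj_inv_cj] at this

theorem rk_level {U V : Subgroup A} {n : ℕ} {S : Set A} (hUV : U ≤ V) (h : Rk O V n S) :
    Rk O U n S := by
  induction n generalizing S with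
  | zero => exact h
  | succ n ih =>
    obtain ⟨f, h1, h2, h3⟩ := h
    exact ⟨f, fun i => dfn_level O hUV (h1 i), h2, fun i => ⟨(h3 i).1, ih (h3 i).2⟩⟩

theorem orb_level_aux {U W : Subgroup A} (hW : O.Opn W) (n : ℕ) (S : Set A)
    (hS : Dfn O U S) (hSW : ∀ x ∈ S, ∃ w ∈ W, ∃ u ∈ U, x = w * u) :
    Rk O U n S ↔ Rk O (W ⊓ U) n (S ∩ (W : Set A)) := by
  induction n generalizing S with
  | zero =>
    constructor
    · rintro ⟨x, hx⟩
      obtain ⟨w, hw, u, hu, rfl⟩ := hSW x hx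
      have := hS.1 _ hx _ (U.inv_mem hu)
      rw [mul_inv_cancel_right] at this
      exact ⟨w, this, hw⟩
    · rintro ⟨x, hx⟩
      exact ⟨x, hx.1⟩
  | succ n ih =>
    constructor
    · rintro ⟨f, h1, h2, h3⟩
      refine ⟨fun i => f i ∩ (W : Set A), fun i => ?_, fun i j hij => ?_, fun i => ⟨?_, ?_⟩⟩
      · obtain ⟨h4, W', hW', h5⟩ := h1 i
        refine ⟨fun s hs u hu => ⟨h4 s hs.1 u hu.2, W.mul_mem hs.2 hu.1⟩, W' ⊓ W,
          O.opn_inf hW' hW, fun w hw s hs => ⟨h5 w hw.1 s hs.1, W.mul_mem hw.2 hs.2⟩⟩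
      · exact (h2 i j hij).mono Set.inter_subset_left Set.inter_subset_left
      · exact Set.inter_subset_inter_left _ (h3 i).1
      · exact (ih (f i) (h1 i) fun x hx => hSW x ((h3 i).1 hx)).1 (h3 i).2
    · rintro ⟨f, h1, h2, h3⟩
      have hd : ∀ i, Dfn O U {x | ∃ t ∈ f i, ∃ u ∈ U, x = t * u} := by
        intro i
        obtain ⟨h4, W', hW', h5⟩ := h1 i
        refine ⟨?_, W', hW', ?_⟩
        · rintro _ ⟨t, ht, u, hu, rfl⟩ u' hu'
          exact ⟨t, ht, u * u', U.mul_mem hu hu', by rw [mul_assoc]⟩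
        · rintro w hw _ ⟨t, ht, u, hu, rfl⟩
          exact ⟨w * t, h5 w hw t ht, u, hu, by rw [mul_assoc]⟩
      refine ⟨fun i => {x | ∃ t ∈ f i, ∃ u ∈ U, x = t * u}, hd, fun i j hij => ?_,
        fun i => ⟨?_, ?_⟩⟩
      · rw [Set.disjoint_left]
        rintro _ ⟨t, ht, u, hu, rfl⟩ ⟨t', ht', u', hu', h6⟩
        have h7 : t⁻¹ * t' ∈ W ⊓ U := by
          refine ⟨W.mul_mem (W.inv_mem ((h3 i).1 ht).2) ((h3 j).1 ht').2, ?_⟩
          have h8 : t⁻¹ * t' = u * u'⁻¹ := by
            rw [inv_mul_eq_iff_eq_mul, ← mul_assoc, h6, mul_inv_cancel_right]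
          rw [h8]
          exact U.mul_mem hu (U.inv_mem hu')
        have h8 := (h1 i).1 t ht _ h7
        rw [mul_inv_cancel_left] at h8
        exact Set.disjoint_left.1 (h2 i j hij) h8 ht'
      · rintro _ ⟨t, ht, u, hu, rfl⟩
        exact hS.1 t ((h3 i).1 ht).1 u hu
      · refine (ih _ (hd i) ?_).2 ?_
        · rintro _ ⟨t, ht, u, hu, rfl⟩
          exact ⟨t, ((h3 i).1 ht).2, u, hu, rfl⟩
        · have e : {x | ∃ t ∈ f i, ∃ u ∈ U, x = t * u} ∩ (W : Set A) = f i := by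
            ext x
            constructor
            · rintro ⟨⟨t, ht, u, hu, rfl⟩, hx⟩
              refine (h1 i).1 t ht u ⟨?_, hu⟩
              have h7 := W.mul_mem (W.inv_mem ((h3 i).1 ht).2) hx
              rwa [inv_mul_cancel_left] at h7
            · intro hx
              exact ⟨⟨x, hx, 1, U.one_mem, by rw [mul_one]⟩, ((h3 i).1 hx).2⟩
          rw [e]
          exact (h3 i).2

theorem orb_level {U W : Subgroup A} (hU : O.Opn U) (hW : O.Opn W) (n : ℕ) :
    Rk O U n {x | ∃ w ∈ W, ∃ u ∈ U, x = w * u} ↔ Rk O (W ⊓ U) n (W : Set A) := by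
  have hd : Dfn O U {x | ∃ w ∈ W, ∃ u ∈ U, x = w * u} := by
    have := dfn_dc O (U := U) hW 1
    simpa only [mul_one] using this
  have e : {x | ∃ w ∈ W, ∃ u ∈ U, x = w * u} ∩ (W : Set A) = (W : Set A) := by
    ext x
    constructor
    · exact fun h => h.2
    · exact fun h => ⟨⟨x, h, 1, U.one_mem, by rw [mul_one]⟩, h⟩
  have := orb_level_aux O hW n _ hd (fun x hx => hx)
  rwa [e] at this

end

end Pool.Agent.Helper596_Q
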