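import Mathlib
import Pool.Agent.Helper596_Q.Op
import Pool.Agent.Helper596_Q.A1a

/-!
# Finite degree
-/

set_option autoImplicit false

namespace Pool.Agent.Helper596_Q

section
variable {A : Type} [Group A] (O : OSys A)


/-- No two disjoint definable subsets of rank at least `n`. -/
def Deg1 (U : Subgroup A) (n : ℕ) (X : Set A) : Prop :=
  ∀ Y Z : Set A, Dfn O U Y → Dfn O U Z → Y ⊆ X → Z ⊆ X → Disjoint Y Z → Rk O U n Y →
    ¬ Rk O U n Z

/-- `S` has `d` pairwise disjoint definable subsets of rank at least `n`. -/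
def Fam (U : Subgroup A) (n d : ℕ) (S : Set A) : Prop :=
  ∃ f : Fin d → Set A, (∀ i, Dfn O U (f i)) ∧ (∀ i j, i ≠ j → Disjoint (f i) (f j)) ∧
    ∀ i, f i ⊆ S ∧ Rk O U n (f i)

variable {O}

theorem rk_split {U : Subgroup A} {n : ℕ} {S X : Set A} (hS : Dfn O U S) (hX : Dfn O U X)
    (h : Rk O U n S) : Rk O U n (S ∩ X) ∨ Rk O U n (S \ X) := by
  apply rk_union O (dfn_inter O hS hX) (dfn_diff O hS hX)
  rwa [Set.inter_union_sdiff]

theorem fam_split {U : Subgroup A} {n d₁ d₂ : ℕ} {S X : Set A} (hX : Dfn O U X)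
    (h : Fam O U n (d₁ + d₂) S) : Fam O U n d₁ (S ∩ X) ∨ Fam O U n d₂ (S \ X) := by
  classical
  obtain ⟨f, hf1, hf2, hf3⟩ := h
  let I : Finset (Fin (d₁ + d₂)) := Finset.univ.filter fun i => Rk O U n (f i ∩ X)
  by_cases hc : d₁ ≤ I.card
  · left
    obtain ⟨t, ht, htc⟩ := Finset.exists_subset_card_eq hc
    have hmem : ∀ i, Rk O U n (f (t.orderEmbOfFin htc i) ∩ X) := by
      intro i
      have h1 := ht (t.orderEmbOfFin_mem htc i)
      exact (Finset.mem_filter.1 h1).2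
    refine ⟨fun i => f (t.orderEmbOfFin htc i) ∩ X, fun i => dfn_inter O (hf1 _) hX,
      fun i j hij => ?_, fun i => ⟨?_, hmem i⟩⟩
    · have hne : t.orderEmbOfFin htc i ≠ t.orderEmbOfFin htc j :=
        fun he => hij ((t.orderEmbOfFin htc).injective he)
      exact (hf2 _ _ hne).mono Set.inter_subset_left Set.inter_subset_left
    · exact Set.inter_subset_inter_left _ (hf3 _).1
  · right
    have hcc : d₂ ≤ Iᶜ.card := by
      rw [Finset.card_compl, Fintype.card_fin]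
      omega
    obtain ⟨t, ht, htc⟩ := Finset.exists_subset_card_eq hcc
    have hmem : ∀ i, Rk O U n (f (t.orderEmbOfFin htc i) \ X) := by
      intro i
      have h1 := ht (t.orderEmbOfFin_mem htc i)
      rw [Finset.mem_compl] at h1
      have h2 : ¬ Rk O U n (f (t.orderEmbOfFin htc i) ∩ X) := by
        intro h3
        exact h1 (Finset.mem_filter.2 ⟨Finset.mem_univ _, h3⟩)
      exact (rk_split (hf1 _) hX (hf3 _).2).resolve_left h2
    refine ⟨fun i => f (t.orderEmbOfFin htc i) \ X, fun i => dfn_diff O (hf1 _) hX,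
      fun i j hij => ?_, fun i => ⟨?_, hmem i⟩⟩
    · have hne : t.orderEmbOfFin htc i ≠ t.orderEmbOfFin htc j :=
        fun he => hij ((t.orderEmbOfFin htc).injective he)
      exact (hf2 _ _ hne).mono Set.sdiff_subset Set.sdiff_subset
    · exact Set.sdiff_subset_sdiff_left (hf3 _).1

theorem bad_step {U : Subgroup A} {n : ℕ} {S : Set A} (hS : Dfn O U S)
    (h : ∀ d, Fam O U n d S) :
    ∃ S' ⊆ S, (Dfn O U S' ∧ ∀ d, Fam O U n d S') ∧ Rk O U n (S \ S') := by
  obtain ⟨f, hf1, hf2, hf3⟩ := h 2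
  have h01 : Disjoint (f 0) (f 1) := hf2 0 1 (by decide)
  by_cases hb : ∀ d, Fam O U n d (S ∩ f 0)
  · refine ⟨S ∩ f 0, Set.inter_subset_left, ⟨dfn_inter O hS (hf1 0), hb⟩, ?_⟩
    refine rk_mono O ?_ (hf3 1).2
    intro x hx
    refine ⟨(hf3 1).1 hx, fun hx2 => ?_⟩
    exact Set.disjoint_left.1 h01 hx2.2 hx
  · rw [not_forall] at hb
    obtain ⟨d₁, hd₁⟩ := hb
    refine ⟨S \ f 0, Set.sdiff_subset, ⟨dfn_diff O hS (hf1 0), fun d => ?_⟩, ?_⟩
    · exact (fam_split (hf1 0) (h (d₁ + d))).resolve_left hd₁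
    · refine rk_mono O ?_ (hf3 0).2
      intro x hx
      refine ⟨(hf3 0).1 hx, fun hx2 => hx2.2 hx⟩

theorem not_fam {U : Subgroup A} {n : ℕ} {S : Set A} (hS : Dfn O U S)
    (h : ¬ Rk O U (n + 1) S) : ∃ d : ℕ, ¬ Fam O U n d S := by
  by_contra hcon
  rw [not_exists] at hcon
  have hbad : ∀ d, Fam O U n d S := fun d => not_not.1 (hcon d)
  choose! nxt hn1 hn2 hn3 using fun (S' : Set A) (hS' : Dfn O U S' ∧ ∀ d, Fam O U n d S') =>
    bad_step hS'.1 hS'.2
  let s : ℕ → Set A := fun k => Nat.rec S (fun _ X => nxt X) k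
  have hs0 : s 0 = S := rfl
  have hs1 : ∀ k, s (k + 1) = nxt (s k) := fun k => rfl
  have hgood : ∀ k, Dfn O U (s k) ∧ ∀ d, Fam O U n d (s k) := by
    intro k
    induction k with
    | zero => exact ⟨hS, hbad⟩
    | succ k ih => rw [hs1]; exact hn2 _ ih
  have hanti : Antitone s := by
    apply antitone_nat_of_succ_le
    intro k
    rw [hs1]
    exact hn1 _ (hgood k)
  apply h
  refine ⟨fun k => s k \ s (k + 1), fun k => dfn_diff O (hgood k).1 (hgood (k + 1)).1, ?_,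
    fun k => ⟨?_, ?_⟩⟩
  · have key : ∀ i j, i < j → Disjoint (s i \ s (i + 1)) (s j \ s (j + 1)) := by
      intro i j hij
      rw [Set.disjoint_left]
      intro x hx hx2
      exact hx.2 (hanti hij hx2.1)
    intro i j hij
    rcases lt_or_gt_of_ne hij with h1 | h1
    · exact key i j h1
    · exact (key j i h1).symm
  · exact Set.sdiff_subset.trans (hanti (Nat.zero_le k))
  · change Rk O U n (s k \ s (k + 1))
    rw [hs1]
    exact hn3 _ (hgood k)

theorem fam_max {U : Subgroup A} {n : ℕ} {S : Set A} (hS : Dfn O U S)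
    (h : ¬ Rk O U (n + 1) S) : ∃ (e : ℕ) (f : Fin e → Set A), (∀ i, Dfn O U (f i)) ∧
      (∀ i j, i ≠ j → Disjoint (f i) (f j)) ∧ (∀ i, f i ⊆ S ∧ Rk O U n (f i)) ∧
      ¬ Fam O U n (e + 1) S := by
  classical
  have hex := not_fam hS h
  have h1 := Nat.find_spec hex
  have h2 : Nat.find hex ≠ 0 := by
    intro h0
    rw [h0] at h1
    exact h1 ⟨fun i => i.elim0, fun i => i.elim0, fun i => i.elim0, fun i => i.elim0⟩
  obtain ⟨e, he⟩ := Nat.exists_eq_succ_of_ne_zero h2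
  have h3 : Fam O U n e S := by
    by_contra h4
    have := Nat.find_min' hex h4
    omega
  obtain ⟨f, hf1, hf2, hf3⟩ := h3
  refine ⟨e, f, hf1, hf2, hf3, ?_⟩
  rw [he] at h1
  exact h1

theorem fam_cons {U : Subgroup A} {n e : ℕ} {S : Set A} {f : Fin e → Set A}
    (hf1 : ∀ i, Dfn O U (f i)) (hf2 : ∀ i j, i ≠ j → Disjoint (f i) (f j))
    (hf3 : ∀ i, f i ⊆ S ∧ Rk O U n (f i)) {Z : Set A} (hZ : Dfn O U Z) (hZS : Z ⊆ S)
    (hZr : Rk O U n Z) (hZd : ∀ i, Disjoint Z (f i)) : Fam O U n (e + 1) S := by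
  refine ⟨Fin.cons Z f, ?_, ?_, ?_⟩
  · intro i
    refine Fin.cases ?_ (fun i => ?_) i
    · simpa using hZ
    · simpa using hf1 i
  · intro i j
    refine Fin.cases ?_ (fun i => ?_) i <;> refine Fin.cases ?_ (fun j => ?_) j
    · intro h; exact absurd rfl h
    · intro _; simpa using hZd j
    · intro _; simpa using (hZd i).symm
    · intro h
      have : i ≠ j := fun he => h (by rw [he])
      simpa using hf2 i j this
  · intro i
    refine Fin.cases ?_ (fun i => ?_) i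
    · simpa using ⟨hZS, hZr⟩
    · simpa using hf3 i

theorem deg1_of_max {U : Subgroup A} {n e : ℕ} {S : Set A} {f : Fin e → Set A}
    (hf1 : ∀ i, Dfn O U (f i)) (hf2 : ∀ i j, i ≠ j → Disjoint (f i) (f j))
    (hf3 : ∀ i, f i ⊆ S ∧ Rk O U n (f i)) (hm : ¬ Fam O U n (e + 1) S) (l : Fin e) :
    Deg1 O U n (f l) := by
  classical
  intro Y Z hY hZ hYl hZl hYZ hYr hZr
  apply hm
  have hsub : ∀ i, Function.update f l Y i ⊆ f i := by
    intro i
    by_cases hi : i = l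
    · subst hi; simpa using hYl
    · simp [hi]
  refine fam_cons (f := Function.update f l Y) ?_ ?_ ?_ hZ (hZl.trans (hf3 l).1) hZr ?_
  · intro i
    by_cases hi : i = l
    · subst hi; simpa using hY
    · simpa [hi] using hf1 i
  · intro i j hij
    exact (hf2 i j hij).mono (hsub i) (hsub j)
  · intro i
    refine ⟨(hsub i).trans (hf3 i).1, ?_⟩
    by_cases hi : i = l
    · subst hi; simpa using hYr
    · simpa [hi] using (hf3 i).2
  · intro i
    by_cases hi : i = l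
    · subst hi; simpa using hYZ.symm
    · exact (hf2 l i (Ne.symm hi)).mono hZl (hsub i)

variable (O)

theorem degree {U : Subgroup A} {n : ℕ} {S : Set A} (hS : Dfn O U S) (h : ¬ Rk O U (n + 1) S) :
    ∃ d : ℕ, ∀ f : Fin d → Set A, (∀ i, Dfn O U (f i)) → (∀ i j, i ≠ j → Disjoint (f i) (f j)) →
      (∀ i, f i ⊆ S ∧ Rk O U n (f i)) → False := by
  obtain ⟨d, hd⟩ := not_fam hS h
  exact ⟨d, fun f h1 h2 h3 => hd ⟨f, h1, h2, h3⟩⟩

theorem exists_deg_one {U : Subgroup A} {n : ℕ} {S : Set A} (hS : Dfn O U S) (h1 : Rk O U n S)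
    (h : ¬ Rk O U (n + 1) S) : ∃ X ⊆ S, Dfn O U X ∧ Rk O U n X ∧ Deg1 O U n X := by
  obtain ⟨e, f, hf1, hf2, hf3, hm⟩ := fam_max hS h
  rcases Nat.eq_zero_or_pos e with rfl | he
  · exfalso
    exact hm ⟨fun _ => S, fun _ => hS, fun i j hij => absurd (Fin.ext (by omega)) hij,
      fun _ => ⟨subset_rfl, h1⟩⟩
  · exact ⟨f ⟨0, he⟩, (hf3 _).1, hf1 _, (hf3 _).2, deg1_of_max hf1 hf2 hf3 hm _⟩

theorem deg_one_inter {U : Subgroup A} {n : ℕ} {X Y Z : Set A} (hX : Dfn O U X)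
    (h : Deg1 O U n X) (hX' : Rk O U n X) (hY : Dfn O U Y) (hZ : Dfn O U Z) (hYX : Y ⊆ X)
    (hZX : Z ⊆ X) (h1 : Rk O U n Y) (h2 : Rk O U n Z) : Rk O U n (Y ∩ Z) := by
  by_contra hcon
  have h3 : Rk O U n (Y \ Z) := (rk_split hY hZ h1).resolve_left hcon
  exact h (Y \ Z) Z (dfn_diff O hY hZ) hZ (Set.sdiff_subset.trans hYX) hZX Set.disjoint_sdiff_left
    h3 h2

theorem generic_many {U : Subgroup A} {n : ℕ} {S : Set A} (hS : Dfn O U S)
    (h : ¬ Rk O U (n + 1) S) (T : ℕ → Set A) (hT : ∀ i, Dfn O U (T i))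
    (hTS : ∀ i, T i ⊆ S ∧ Rk O U n (T i)) :
    ∃ I : Set ℕ, I.Infinite ∧ ∀ J : Finset ℕ, (J : Set ℕ) ⊆ I → Rk O U n (S ∩ ⋂ i ∈ J, T i) := by
  classical
  obtain ⟨e, f, hf1, hf2, hf3, hm⟩ := fam_max hS h
  have hex : ∀ i, ∃ l, Rk O U n (T i ∩ f l) := by
    intro i
    by_contra hcon
    rw [not_exists] at hcon
    have hD : ∀ s : Finset (Fin e), ∃ R : Set A, Dfn O U R ∧ R ⊆ T i ∧ Rk O U n R ∧
        ∀ l ∈ s, Disjoint R (f l) := by
      intro s
      induction s using Finset.induction_on with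
      | empty => exact ⟨T i, hT i, subset_rfl, (hTS i).2, fun l hl => absurd hl (Finset.notMem_empty l)⟩
      | insert l s _ ih =>
        obtain ⟨R, hR1, hR2, hR3, hR4⟩ := ih
        have h1 : Rk O U n (R \ f l) := by
          refine (rk_split hR1 (hf1 l) hR3).resolve_left fun h2 => hcon l ?_
          exact rk_mono O (Set.inter_subset_inter_left _ hR2) h2
        refine ⟨R \ f l, dfn_diff O hR1 (hf1 l), Set.sdiff_subset.trans hR2, h1, fun l' hl' => ?_⟩
        rcases Finset.mem_insert.1 hl' with rfl | hl'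
        · exact Set.disjoint_sdiff_left
        · exact (hR4 l' hl').mono_left Set.sdiff_subset
    obtain ⟨R, hR1, hR2, hR3, hR4⟩ := hD Finset.univ
    exact hm (fam_cons hf1 hf2 hf3 hR1 (hR2.trans (hTS i).1) hR3 fun l => hR4 l (Finset.mem_univ l))
  choose g hg using hex
  obtain ⟨l, hl⟩ := Finite.exists_infinite_fiber g
  refine ⟨g ⁻¹' {l}, Set.infinite_coe_iff.1 hl, ?_⟩
  intro J hJ
  have key : ∀ J : Finset ℕ, (J : Set ℕ) ⊆ g ⁻¹' {l} →
      Dfn O U (f l ∩ ⋂ i ∈ J, T i) ∧ Rk O U n (f l ∩ ⋂ i ∈ J, T i) := by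
    intro J
    induction J using Finset.induction_on with
    | empty =>
      intro _
      simpa using ⟨hf1 l, (hf3 l).2⟩
    | insert j J _ ih =>
      intro hJ
      rw [Finset.coe_insert, Set.insert_subset_iff] at hJ
      obtain ⟨h1, h2⟩ := ih hJ.2
      have h3 : Rk O U n (T j ∩ f l) := by
        have := hg j
        rw [show g j = l from hJ.1] at this
        exact this
      have h4 : f l ∩ ⋂ i ∈ insert j J, T i = (f l ∩ ⋂ i ∈ J, T i) ∩ (T j ∩ f l) := by
        ext x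
        simp only [Set.mem_inter_iff, Set.mem_iInter, Finset.mem_insert, forall_eq_or_imp]
        tauto
      rw [h4]
      refine ⟨dfn_inter O h1 (dfn_inter O (hT j) (hf1 l)), ?_⟩
      exact deg_one_inter O (hf1 l) (deg1_of_max hf1 hf2 hf3 hm l) (hf3 l).2 h1
        (dfn_inter O (hT j) (hf1 l)) Set.inter_subset_left Set.inter_subset_right h2 h3
  exact rk_mono O (Set.inter_subset_inter_left _ (hf3 l).1) (key J hJ).2

end

end Pool.Agent.Helper596_Q
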