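import Mathlib
import Pool.Agent.Helper596_Q.Op
import Pool.Agent.Helper596_Q.A1b

/-!
# Additivity of the rank
-/

set_option autoImplicit false

namespace Pool.Agent.Helper596_Q

section
variable {A : Type} [Group A] (O : OSys A)


theorem dfn_coset {U V : Subgroup A} (hV : O.Opn V) (hUV : U ≤ V) (g : A) :
    Dfn O U {x | g⁻¹ * x ∈ V} := by
  refine dfn_left O (S := (V : Set A)) ⟨fun s hs u hu => V.mul_mem hs (hUV hu), V, hV,
    fun w hw s hs => V.mul_mem hw hs⟩ g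

theorem fibre_transl {V : Subgroup A} {T : Set A} {w : A} (h1 : ∀ s ∈ T, w * s ∈ T)
    (h2 : ∀ s ∈ T, w⁻¹ * s ∈ T) (g : A) :
    T ∩ {x | (w * g)⁻¹ * x ∈ V} = {x | w⁻¹ * x ∈ T ∩ {y | g⁻¹ * y ∈ V}} := by
  ext x
  constructor
  · rintro ⟨h3, h4⟩
    refine ⟨h2 x h3, ?_⟩
    have h5 : (w * g)⁻¹ * x ∈ V := h4
    have e : (w * g)⁻¹ * x = g⁻¹ * (w⁻¹ * x) := by group
    rw [e] at h5
    exact h5
  · rintro ⟨h3, h4⟩
    refine ⟨?_, ?_⟩
    · have := h1 _ h3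
      rwa [mul_inv_cancel_left] at this
    · have h5 : g⁻¹ * (w⁻¹ * x) ∈ V := h4
      have e : (w * g)⁻¹ * x = g⁻¹ * (w⁻¹ * x) := by group
      rw [← e] at h5
      exact h5

theorem coset_right {V : Subgroup A} {v : A} (hv : v ∈ V) (g : A) :
    {x | (g * v)⁻¹ * x ∈ V} = {x | g⁻¹ * x ∈ V} := by
  ext x
  have e : (g * v)⁻¹ * x = v⁻¹ * (g⁻¹ * x) := by group
  constructor
  · intro h
    have h' : (g * v)⁻¹ * x ∈ V := h
    rw [e] at h'
    exact (V.mul_mem_cancel_left (V.inv_mem hv)).1 h'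
  · intro h
    have h' : g⁻¹ * x ∈ V := h
    have : (g * v)⁻¹ * x ∈ V := by
      rw [e]
      exact V.mul_mem (V.inv_mem hv) h'
    exact this

theorem fibre_dfn {U V : Subgroup A} (hUV : U ≤ V) (j : ℕ) {T : Set A} (hT : Dfn O U T) :
    Dfn O V {g | Rk O U j (T ∩ {x | g⁻¹ * x ∈ V})} := by
  obtain ⟨_, W, hW, h2⟩ := hT
  refine ⟨fun g hg v hv => ?_, W, hW, fun w hw g hg => ?_⟩
  · have : Rk O U j (T ∩ {x | (g * v)⁻¹ * x ∈ V}) := by
      rw [coset_right hv g]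
      exact hg
    exact this
  · have : Rk O U j (T ∩ {x | (w * g)⁻¹ * x ∈ V}) := by
      rw [fibre_transl (h2 w hw) (h2 w⁻¹ (W.inv_mem hw)) g, rk_left]
      exact hg
    exact this

theorem fibre_deg {U V : Subgroup A} (hV : O.Opn V) (hUV : U ≤ V) {T : Set A}
    (hT : Dfn O U T) (j : ℕ) : ∃ d : ℕ, ∀ g : A, ¬ Rk O U (j + 1) (T ∩ {x | g⁻¹ * x ∈ V}) →
      ∀ f : Fin d → Set A, (∀ i, Dfn O U (f i)) → (∀ i j, i ≠ j → Disjoint (f i) (f j)) →
      (∀ i, f i ⊆ T ∩ {x | g⁻¹ * x ∈ V} ∧ Rk O U j (f i)) → False := by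
  classical
  have hT' := hT
  obtain ⟨_, W, hW, h2⟩ := hT
  obtain ⟨X, hX⟩ := O.dc hW hV
  have h1 : ∀ t : A, ∃ d : ℕ, ¬ Rk O U (j + 1) (T ∩ {x | t⁻¹ * x ∈ V}) →
      ∀ f : Fin d → Set A, (∀ i, Dfn O U (f i)) → (∀ i j, i ≠ j → Disjoint (f i) (f j)) →
      (∀ i, f i ⊆ T ∩ {x | t⁻¹ * x ∈ V} ∧ Rk O U j (f i)) → False := by
    intro t
    by_cases h : Rk O U (j + 1) (T ∩ {x | t⁻¹ * x ∈ V})
    · exact ⟨0, fun h' => absurd h h'⟩
    · obtain ⟨d, hd⟩ := degree O (dfn_inter O hT' (dfn_coset O hV hUV t)) h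
      exact ⟨d, fun _ => hd⟩
  choose dd hdd using h1
  refine ⟨X.sup dd, fun g hg f hf1 hf2 hf3 => ?_⟩
  obtain ⟨t, ht, w, hw, v, hv, rfl⟩ := hX g
  have hle : dd t ≤ X.sup dd := Finset.le_sup ht
  rw [coset_right hv (w * t), fibre_transl (h2 w hw) (h2 w⁻¹ (W.inv_mem hw)) t, rk_left] at hg
  refine hdd t hg (fun i => {x | (w⁻¹)⁻¹ * x ∈ f (Fin.castLE hle i)}) (fun i => dfn_left O (hf1 _) _)
    (fun i k hik => ?_) (fun i => ⟨?_, ?_⟩)
  · rw [Set.disjoint_left]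
    intro x hx hx'
    exact Set.disjoint_left.1 (hf2 _ _ (fun h => hik (Fin.castLE_injective hle h))) hx hx'
  · intro x hx
    have h3 := (hf3 (Fin.castLE hle i)).1 hx
    rw [coset_right hv (w * t), fibre_transl (h2 w hw) (h2 w⁻¹ (W.inv_mem hw)) t] at h3
    have h4 : w⁻¹ * (w⁻¹⁻¹ * x) ∈ T ∩ {y | t⁻¹ * y ∈ V} := h3
    rwa [mul_inv_cancel_left] at h4
  · rw [rk_left]
    exact (hf3 _).2

theorem fibre_rank {U V : Subgroup A} (hU : O.Opn U) (hV : O.Opn V) (hUV : U ≤ V) {T : Set A}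
    (hT : Dfn O U T) (N : ℕ) (h : Rk O U N T) :
    ∃ j ≤ N, Rk O V (N - j) {g | Rk O U j (T ∩ {x | g⁻¹ * x ∈ V})} := by
  classical
  induction N generalizing T with
  | zero =>
    obtain ⟨x, hx⟩ := h
    refine ⟨0, le_rfl, ⟨x, ?_⟩⟩
    have : (T ∩ {y | x⁻¹ * y ∈ V}).Nonempty := by
      refine ⟨x, hx, ?_⟩
      have : x⁻¹ * x ∈ V := by
        rw [inv_mul_cancel]
        exact V.one_mem
      exact this
    exact this
  | succ N ih =>
    obtain ⟨f, hf1, hf2, hf3⟩ := h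
    have h1 := fun i => ih (hf1 i) (hf3 i).2
    choose jj hjj hrk using h1
    obtain ⟨j, hj⟩ := Finite.exists_infinite_fiber (fun i : ℕ => (⟨jj i, Nat.lt_succ_of_le (hjj i)⟩ : Fin (N + 1)))
    let e := Nat.orderEmbeddingOfSet
      ((fun i : ℕ => (⟨jj i, Nat.lt_succ_of_le (hjj i)⟩ : Fin (N + 1))) ⁻¹' {j})
    have he : ∀ i, jj (e i) = j := fun i => by
      have h4 : e i ∈ ((fun i : ℕ => (⟨jj i, Nat.lt_succ_of_le (hjj i)⟩ : Fin (N + 1))) ⁻¹' {j}) := by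
        rw [← Nat.orderEmbeddingOfSet_range
          ((fun i : ℕ => (⟨jj i, Nat.lt_succ_of_le (hjj i)⟩ : Fin (N + 1))) ⁻¹' {j})]
        exact Set.mem_range_self i
      have h5 : (⟨jj (e i), Nat.lt_succ_of_le (hjj (e i))⟩ : Fin (N + 1)) = j := h4
      rw [← h5]
    have hjN : (j : ℕ) ≤ N := Nat.le_of_lt_succ j.2
    have hrk' : ∀ i, Rk O V (N - j) {g | Rk O U j (f (e i) ∩ {x | g⁻¹ * x ∈ V})} := fun i => by
      have := hrk (e i)
      rwa [he i] at this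
    by_cases hcase : Rk O V (N - j + 1) {g | Rk O U j (T ∩ {x | g⁻¹ * x ∈ V})}
    · refine ⟨j, by omega, ?_⟩
      have e1 : N + 1 - (j : ℕ) = N - j + 1 := by omega
      rw [e1]
      exact hcase
    · obtain ⟨I, hI, hgen⟩ := generic_many O (fibre_dfn O hUV j hT) hcase
        (fun i => {g | Rk O U j (f (e i) ∩ {x | g⁻¹ * x ∈ V})}) (fun i => fibre_dfn O hUV j (hf1 _))
        (fun i => ⟨fun g hg => rk_mono O (Set.inter_subset_inter_left _ (hf3 (e i)).1) hg, hrk' i⟩)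
      obtain ⟨d, hd⟩ := fibre_deg O hV hUV hT j
      obtain ⟨J, hJI, hJd⟩ := hI.exists_subset_card_eq d
      refine ⟨j + 1, by omega, ?_⟩
      have e1 : N + 1 - ((j : ℕ) + 1) = N - j := by omega
      rw [e1]
      refine rk_mono O ?_ (hgen J hJI)
      rintro g ⟨_, hg⟩
      by_contra hng
      have hng' : ¬ Rk O U (j + 1) (T ∩ {x | g⁻¹ * x ∈ V}) := hng
      refine hd g hng' (fun k => f (e (J.orderEmbOfFin hJd k)) ∩ {x | g⁻¹ * x ∈ V})
        (fun k => dfn_inter O (hf1 _) (dfn_coset O hV hUV g)) (fun k l hkl => ?_)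
        (fun k => ⟨Set.inter_subset_inter_left _ (hf3 _).1, ?_⟩)
      · refine (hf2 _ _ fun h => hkl ?_).mono Set.inter_subset_left Set.inter_subset_left
        exact (J.orderEmbOfFin hJd).injective (e.injective h)
      · have := Set.mem_iInter₂.1 hg (J.orderEmbOfFin hJd k) (J.orderEmbOfFin_mem hJd k)
        exact this

theorem rk_add {U V : Subgroup A} (hU : O.Opn U) (hV : O.Opn V) (hUV : U ≤ V) {S : Set A}
    (hS : Dfn O V S) (N : ℕ) :
    Rk O U N S ↔ ∃ n m, n + m = N ∧ Rk O V n S ∧ Rk O U m (V : Set A) := by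
  constructor
  · intro h
    obtain ⟨j, hj, h1⟩ := fibre_rank O hU hV hUV (dfn_level O hUV hS) N h
    refine ⟨N - j, j, by omega, rk_mono O ?_ h1, ?_⟩
    · intro g hg
      have hg' : Rk O U j (S ∩ {x | g⁻¹ * x ∈ V}) := hg
      obtain ⟨x, hx, hx'⟩ := rk_le O (Nat.zero_le j) hg'
      have hx'' : g⁻¹ * x ∈ V := hx'
      have h3 := hS.1 x hx _ (V.inv_mem hx'')
      have e1 : x * (g⁻¹ * x)⁻¹ = g := by group
      rwa [e1] at h3
    · obtain ⟨g, hg⟩ := rk_le O (Nat.zero_le _) h1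
      have hg' : Rk O U j (S ∩ {x | g⁻¹ * x ∈ V}) := hg
      have h3 : Rk O U j {x | g⁻¹ * x ∈ (V : Set A)} := rk_mono O Set.inter_subset_right hg'
      rwa [rk_left] at h3
  · rintro ⟨n, m, rfl, h1, h2⟩
    induction n generalizing S with
    | zero =>
      obtain ⟨g, hg⟩ := h1
      rw [Nat.zero_add]
      refine rk_mono O ?_ ((rk_left O (S := (V : Set A)) g).2 h2)
      intro x hx
      have h3 := hS.1 g hg _ hx
      rwa [mul_inv_cancel_left] at h3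
    | succ n ih =>
      obtain ⟨f, hf1, hf2, hf3⟩ := h1
      have e1 : n + 1 + m = (n + m) + 1 := by omega
      rw [e1]
      exact ⟨f, fun i => dfn_level O hUV (hf1 i), hf2, fun i => ⟨(hf3 i).1, ih (hf1 i) (hf3 i).2⟩⟩

end

end Pool.Agent.Helper596_Q
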