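import Mathlib
import Pool.Agent.Helper596_Q.Op
import Pool.Agent.Helper596_Q.A2

/-!
# The rank function on open subgroups
-/

set_option autoImplicit false

namespace Pool.Agent.Helper596_Q

section
variable {A : Type} [Group A] (O : OSys A)


/-- All ranks are finite. -/
def FR : Prop := ∀ U : Subgroup A, O.Opn U → ∃ n, ¬ Rk O U n (Set.univ : Set A)

/-- The rank of the group at level `U`. -/
noncomputable def rr (U : Subgroup A) : ℕ := sSup {n | Rk O U n (Set.univ : Set A)}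

theorem rk_iff_le (hF : FR O) {U : Subgroup A} (hU : O.Opn U) (n : ℕ) :
    Rk O U n (Set.univ : Set A) ↔ n ≤ rr O U := by
  obtain ⟨n₀, hn₀⟩ := hF U hU
  have hb : BddAbove {n | Rk O U n (Set.univ : Set A)} := by
    refine ⟨n₀, fun m hm => ?_⟩
    by_contra hc
    exact hn₀ (rk_le O (by omega) hm)
  have hne : {n | Rk O U n (Set.univ : Set A)}.Nonempty :=
    ⟨0, (⟨1, trivial⟩ : (Set.univ : Set A).Nonempty)⟩
  constructor
  · intro h
    exact le_csSup hb h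
  · intro h
    exact rk_le O h (Nat.sSup_mem hne hb)

theorem rr_cj (g : A) (V : Subgroup A) : rr O (cj g V) = rr O V := by
  unfold rr
  congr 1
  ext n
  have := rk_right O (U := V) (n := n) (S := Set.univ) g
  simpa using this

theorem rr_mono (hF : FR O) {V W : Subgroup A} (hV : O.Opn V) (hW : O.Opn W) (h : V ≤ W) :
    rr O W ≤ rr O V :=
  (rk_iff_le O hF hV _).1 (rk_level O h ((rk_iff_le O hF hW _).2 le_rfl))

theorem orbit_rank (hF : FR O) {U W : Subgroup A} (hU : O.Opn U) (hW : O.Opn W) (n : ℕ) :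
    Rk O U n {x | ∃ w ∈ W, ∃ u ∈ U, x = w * u} ↔ n + rr O W ≤ rr O (U ⊓ W) := by
  have hWU : O.Opn (W ⊓ U) := O.opn_inf hW hU
  rw [orb_level O hU hW, inf_comm U W]
  have key := rk_add O hWU hW (inf_le_left : W ⊓ U ≤ W) (dfn_univ O W)
  constructor
  · intro h
    have h1 : Rk O (W ⊓ U) (rr O W + n) (Set.univ : Set A) :=
      (key _).2 ⟨rr O W, n, rfl, (rk_iff_le O hF hW _).2 le_rfl, h⟩
    have h2 := (rk_iff_le O hF hWU _).1 h1
    omega
  · intro h
    obtain ⟨a, b, hab, ha, hb⟩ := (key _).1 ((rk_iff_le O hF hWU _).2 h)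
    have h1 := (rk_iff_le O hF hW _).1 ha
    exact rk_le O (by omega) hb

theorem orbit_rank' (hF : FR O) {U W : Subgroup A} (hU : O.Opn U) (hW : O.Opn W) (g : A)
    (n : ℕ) : Rk O U n {x | ∃ w ∈ W, ∃ u ∈ U, x = w * g * u} ↔
      n + rr O W ≤ rr O (cj g U ⊓ W) := by
  rw [← orbit_rank O hF (O.opn_cj g hU) hW n]
  have h1 : cj g⁻¹ (cj g U) = U := by
    ext x
    rw [mem_cj, mem_cj]
    have : g⁻¹ * (g⁻¹⁻¹ * x * g⁻¹) * g = x := by group
    rw [this]
  have h2 := rk_right O (U := cj g U) (n := n)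
    (S := {x | ∃ w ∈ W, ∃ u ∈ cj g U, x = w * u}) g⁻¹
  rw [h1] at h2
  rw [← h2]
  have h3 : {x | ∃ w ∈ W, ∃ u ∈ U, x = w * g * u} =
      {x | x * g⁻¹ ∈ {x | ∃ w ∈ W, ∃ u ∈ cj g U, x = w * u}} := by
    ext x
    constructor
    · rintro ⟨w, hw, u, hu, rfl⟩
      refine ⟨w, hw, g * u * g⁻¹, ?_, by group⟩
      rw [mem_cj]
      have : g⁻¹ * (g * u * g⁻¹) * g = u := by group
      rw [this]; exact hu
    · rintro ⟨w, hw, u, hu, hx⟩
      rw [mem_cj] at hu
      refine ⟨w, hw, g⁻¹ * u * g, hu, ?_⟩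
      have : x = x * g⁻¹ * g := by group
      rw [this, hx]; group
  rw [h3]

theorem orbit_one_aux (hF : FR O) {V W : Subgroup A} (hV : O.Opn V) (hW : O.Opn W) (h : V ≤ W) :
    Rk O V 1 (W : Set A) ↔ 1 + rr O W ≤ rr O V := by
  have h1 := orbit_rank O hF hV hW 1
  rw [inf_eq_left.2 h] at h1
  rw [← h1]
  have h2 : {x | ∃ w ∈ W, ∃ u ∈ V, x = w * u} = (W : Set A) := by
    ext x
    constructor
    · rintro ⟨w, hw, u, hu, rfl⟩
      exact W.mul_mem hw (h hu)
    · intro hx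
      exact ⟨x, hx, 1, V.one_mem, by simp⟩
  rw [h2]

theorem rr_fin (hF : FR O) {V W : Subgroup A} (hV : O.Opn V) (hW : O.Opn W) (h : V ≤ W)
    (hr : rr O V = rr O W) : ∃ T : Finset A, ∀ w ∈ W, ∃ t ∈ T, t⁻¹ * w ∈ V := by
  by_contra hc
  push Not at hc
  have h1 : ¬ Rk O V 1 (W : Set A) := by
    rw [orbit_one_aux O hF hV hW h]; omega
  apply h1
  obtain ⟨f, hf1, hf2⟩ := exists_seq_of_forall_finset_exists (fun w : A => w ∈ W)
    (fun x y => x⁻¹ * y ∉ V) (fun s _ => by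
      obtain ⟨w, hw, hw'⟩ := hc s
      exact ⟨w, hw, hw'⟩)
  have hVd : Dfn O V (V : Set A) :=
    ⟨fun s hs u hu => V.mul_mem hs hu, V, hV, fun w hw s hs => V.mul_mem hw hs⟩
  have hlt : ∀ i j, i < j → Disjoint {x | (f i)⁻¹ * x ∈ (V : Set A)} {x | (f j)⁻¹ * x ∈ (V : Set A)} := by
    intro i j hij
    rw [Set.disjoint_left]
    intro x hx hy
    apply hf2 i j hij
    have e : (f i)⁻¹ * f j = ((f i)⁻¹ * x) * ((f j)⁻¹ * x)⁻¹ := by group
    rw [e]
    exact V.mul_mem hx (V.inv_mem hy)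
  refine ⟨fun i => {x | (f i)⁻¹ * x ∈ (V : Set A)}, fun i => dfn_left O hVd (f i), ?_, ?_⟩
  · intro i j hij
    rcases lt_or_gt_of_ne hij with h2 | h2
    · exact hlt i j h2
    · exact (hlt j i h2).symm
  · intro i
    refine ⟨?_, ⟨f i, ?_⟩⟩
    · intro x hx
      have e : x = f i * ((f i)⁻¹ * x) := by group
      rw [e]
      exact W.mul_mem (hf1 i) (h hx)
    · show (f i)⁻¹ * f i ∈ (V : Set A)
      rw [inv_mul_cancel]
      exact V.one_mem

theorem rr_of_fin (hF : FR O) {V W : Subgroup A} (hV : O.Opn V) (hW : O.Opn W) (h : V ≤ W)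
    (T : Finset A) (hT : ∀ w ∈ W, ∃ t ∈ T, t⁻¹ * w ∈ V) : rr O V = rr O W := by
  apply le_antisymm _ (rr_mono O hF hV hW h)
  by_contra hc
  have h1 : Rk O V 1 (W : Set A) := by
    rw [orbit_one_aux O hF hV hW h]; omega
  obtain ⟨f, hf1, hf2, hf3⟩ := h1
  have hne : ∀ i, ∃ x, x ∈ f i := fun i => (hf3 i).2
  choose x hx using hne
  have hxt : ∀ i, ∃ t ∈ T, t⁻¹ * x i ∈ V := fun i => hT _ ((hf3 i).1 (hx i))
  choose t ht ht' using hxt
  have hni : ¬ Function.Injective (fun i : ℕ => (⟨t i, ht i⟩ : T)) := by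
    intro hinj
    exact not_injective_infinite_finite _ hinj
  rw [Function.not_injective_iff] at hni
  obtain ⟨i, j, hij, hne⟩ := hni
  have hij' : t i = t j := congrArg Subtype.val hij
  have h2 : (x i)⁻¹ * x j ∈ V := by
    have e : (x i)⁻¹ * x j = ((t i)⁻¹ * x i)⁻¹ * ((t j)⁻¹ * x j) := by
      rw [hij']; group
    rw [e]
    exact V.mul_mem (V.inv_mem (ht' i)) (ht' j)
  have h3 : x j ∈ f i := by
    have := (hf1 i).1 (x i) (hx i) _ h2
    rwa [mul_inv_cancel_left] at this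
  exact Set.disjoint_left.1 (hf2 i j hne) h3 (hx j)

end

end Pool.Agent.Helper596_Q
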