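import Mathlib
import Pool.Agent.Helper596_Q.Op

/-!
# Independence calculus: definitions and first facts
-/

set_option autoImplicit false

namespace Pool.Agent.Helper596_Q

section
variable {A : Type*} [Group A]

/-- `E` is algebraic over `X`. -/
def Ac (R : RSys A) (E X : Subgroup A) : Prop := R.r (X ⊓ E) = R.r X

/-- Triviality: pairwise independence implies independence. -/
def Triv (R : RSys A) : Prop := ∀ B P Q S : Subgroup A, R.Opn B → R.Opn P → R.Opn Q → R.Opn S →
  Ind R.r P Q B → Ind R.r P S B → Ind R.r Q S B → Ind R.r P (Q ⊓ S) B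

theorem cj_inf (g : A) (V W : Subgroup A) : cj g (V ⊓ W) = cj g V ⊓ cj g W := by
  ext x
  rw [Subgroup.mem_inf, mem_cj, mem_cj, mem_cj, Subgroup.mem_inf]

theorem cj_mul (g h : A) (V : Subgroup A) : cj (g * h) V = cj g (cj h V) := by
  ext x
  rw [mem_cj, mem_cj, mem_cj]
  have : (g * h)⁻¹ * x * (g * h) = h⁻¹ * (g⁻¹ * x * g) * h := by group
  rw [this]

theorem cj_one (V : Subgroup A) : cj 1 V = V := by
  ext x
  rw [mem_cj]
  simp

theorem cj_of_mem {g : A} {V : Subgroup A} (hg : g ∈ V) : cj g V = V := by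
  ext x
  rw [mem_cj]
  constructor
  · intro h
    have := V.mul_mem (V.mul_mem hg h) (V.inv_mem hg)
    have e : g * (g⁻¹ * x * g) * g⁻¹ = x := by group
    rwa [e] at this
  · intro h
    exact V.mul_mem (V.mul_mem (V.inv_mem hg) h) hg

theorem cj_mono {g : A} {V W : Subgroup A} (h : V ≤ W) : cj g V ≤ cj g W := by
  intro x hx
  rw [mem_cj] at hx ⊢
  exact h hx

theorem cj_congr {g g' : A} {V : Subgroup A} (h : g⁻¹ * g' ∈ V) : cj g V = cj g' V := by
  have : g' = g * (g⁻¹ * g') := by group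
  rw [this, cj_mul, cj_of_mem h]

/-- Independence is invariant under conjugation. -/
theorem Ind.cj {R : RSys A} {P Q B : Subgroup A} (hP : R.Opn P) (hQ : R.Opn Q) (hB : R.Opn B)
    (g : A) : Ind R.r (cj g P) (cj g Q) (cj g B) ↔ Ind R.r P Q B := by
  unfold Ind
  rw [← cj_inf, ← cj_inf, ← cj_inf, ← cj_inf,
    R.r_cj g _ (R.opn_inf (R.opn_inf hP hQ) hB), R.r_cj g _ hB,
    R.r_cj g _ (R.opn_inf hP hB), R.r_cj g _ (R.opn_inf hQ hB)]

theorem OSys.opn_biInf (O : OSys A) {ι : Type*} (J : Finset ι) (V : ι → Subgroup A)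
    (h : ∀ j ∈ J, O.Opn (V j)) : O.Opn (⨅ j ∈ J, V j) := by
  classical
  induction J using Finset.induction_on with
  | empty =>
    simp only [Finset.notMem_empty, iInf_false, iInf_top]
    exact O.opn_top
  | insert a J _ ih =>
    rw [Finset.iInf_insert]
    exact O.opn_inf (h a (Finset.mem_insert_self _ _))
      (ih (fun j hj => h j (Finset.mem_insert_of_mem hj)))

/-- The subfamily `J` of the family `V` is independent over `B`. -/
def IndS (R : RSys A) (B : Subgroup A) {ι : Type} (V : ι → Subgroup A) (J : Finset ι) : Prop :=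
  (R.r (B ⊓ ⨅ j ∈ J, V j) : ℤ) - R.r B = ∑ j ∈ J, ((R.r (B ⊓ V j) : ℤ) - R.r B)

variable (A) in
/-- Pointwise stabilisers of finite subsets of `M`. -/
def Real (M : Type*) [MulAction A M] (V : Subgroup A) : Prop := ∃ F : Finset M, V = stb A F

/-- There is a minimal dependent family of `m` pointwise stabilisers of finite sets. -/
def Circ (R : RSys A) (M : Type*) [MulAction A M] (m : ℕ) : Prop :=
  ∃ (B : Subgroup A) (V : Fin m → Subgroup A), Real A M B ∧ (∀ j, Real A M (V j)) ∧
    (∀ J : Finset (Fin m), J ≠ Finset.univ → IndS R B V J) ∧ ¬ IndS R B V Finset.univ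

theorem Real.inf {M : Type*} [MulAction A M] {V W : Subgroup A} (hV : Real A M V)
    (hW : Real A M W) : Real A M (V ⊓ W) := by
  classical
  obtain ⟨F, rfl⟩ := hV
  obtain ⟨G, rfl⟩ := hW
  refine ⟨F ∪ G, ?_⟩
  ext a
  rw [Subgroup.mem_inf, mem_stb, mem_stb, mem_stb]
  constructor
  · rintro ⟨h1, h2⟩ x hx
    rcases Finset.mem_union.1 hx with h | h
    · exact h1 x h
    · exact h2 x h
  · intro h
    exact ⟨fun x hx => h x (Finset.mem_union_left _ hx), fun x hx => h x (Finset.mem_union_right _ hx)⟩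

theorem Real.cj {M : Type*} [MulAction A M] {V : Subgroup A} (hV : Real A M V) (g : A) :
    Real A M (cj g V) := by
  classical
  obtain ⟨F, rfl⟩ := hV
  refine ⟨F.image (fun x => g • x), ?_⟩
  ext a
  rw [mem_cj, mem_stb, mem_stb]
  constructor
  · intro h x hx
    obtain ⟨y, hy, rfl⟩ := Finset.mem_image.1 hx
    have := h y hy
    rw [mul_smul, mul_smul, inv_smul_eq_iff] at this
    exact this
  · intro h x hx
    have := h (g • x) (Finset.mem_image_of_mem _ hx)
    rw [mul_smul, mul_smul, this, inv_smul_smul]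

theorem Real.top (M : Type*) [MulAction A M] : Real A M (⊤ : Subgroup A) :=
  ⟨∅, by ext a; simp [mem_stb]⟩

end

end Pool.Agent.Helper596_Q
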