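import Mathlib
import Pool.Agent.Helper596_Q.Base
import Pool.Agent.Helper596_Q.A3

/-!
# Rank inequalities and extensions
-/

set_option autoImplicit false

namespace Pool.Agent.Helper596_Q

section
variable {A : Type} [Group A] (O : OSys A)


theorem rr_sub (hF : FR O) {V W B : Subgroup A} (hV : O.Opn V) (hW : O.Opn W) (hB : O.Opn B) :
    rr O (V ⊓ W ⊓ B) + rr O B ≤ rr O (V ⊓ B) + rr O (W ⊓ B) := by
  have hWB := O.opn_inf hW hB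
  have h1 : rr O (W ⊓ B) ≤ rr O (V ⊓ W ⊓ B) :=
    rr_mono O hF (O.opn_inf (O.opn_inf hV hW) hB) hWB (inf_le_inf_right _ inf_le_right)
  obtain ⟨n, hn⟩ := Nat.exists_eq_add_of_le h1
  have h2 := (orbit_rank O hF hV hWB n).2 (by rw [← inf_assoc, hn, add_comm])
  have h3 : Rk O V n {x | ∃ w ∈ B, ∃ u ∈ V, x = w * u} := by
    refine rk_mono O ?_ h2
    rintro x ⟨w, hw, u, hu, rfl⟩
    exact ⟨w, hw.2, u, hu, rfl⟩
  have h4 := (orbit_rank O hF hV hB n).1 h3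
  omega

theorem rr_ext (hF : FR O) {V W B : Subgroup A} (hV : O.Opn V) (hW : O.Opn W) (hB : O.Opn B) :
    ∃ g ∈ B, Ind (rr O) (cj g V) W B := by
  classical
  have hWB := O.opn_inf hW hB
  have h1 : rr O B ≤ rr O (V ⊓ B) := rr_mono O hF (O.opn_inf hV hB) hB inf_le_right
  obtain ⟨n, hn⟩ := Nat.exists_eq_add_of_le h1
  have h2 := (orbit_rank O hF hV hB n).2 (by rw [hn, add_comm])
  obtain ⟨T, hT⟩ := O.dc hWB hV
  have h3 : Rk O V n (⋃ t ∈ T.filter (fun t => ∃ w ∈ B, ∃ u ∈ V, t = w * u),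
      {x | ∃ w ∈ W ⊓ B, ∃ u ∈ V, x = w * t * u}) := by
    refine rk_mono O ?_ h2
    rintro x ⟨b, hb, u, hu, rfl⟩
    obtain ⟨t, ht, v, hv, w, hw, e⟩ := hT (b * u)
    refine Set.mem_iUnion₂.2 ⟨t, Finset.mem_filter.2 ⟨ht, v⁻¹ * b, B.mul_mem (B.inv_mem hv.2) hb,
      u * w⁻¹, V.mul_mem hu (V.inv_mem hw), ?_⟩, v, hv, w, hw, e⟩
    have : t = v⁻¹ * (v * t * w) * w⁻¹ := by group
    rw [this, ← e]
    group
  obtain ⟨t, ht, h4⟩ := rk_biUnion O _ _ (fun t _ => dfn_dc O hWB t) h3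
  obtain ⟨-, g, hg, v, hv, rfl⟩ := Finset.mem_filter.1 ht
  have h5 := (orbit_rank' O hF hV hWB (g * v) n).1 h4
  have e1 : cj (g * v) V = cj g V := by
    rw [cj_mul, cj_of_mem hv]
  rw [e1] at h5
  refine ⟨g, hg, ?_⟩
  have h6 := rr_sub O hF (O.opn_cj g hV) hW hB
  have h7 : rr O (cj g V ⊓ B) = rr O (V ⊓ B) := by
    have e2 : cj g V ⊓ B = cj g (V ⊓ B) := by
      rw [cj_inf, cj_of_mem hg]
    rw [e2, rr_cj]
  unfold Ind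
  rw [← inf_assoc] at h5
  omega

theorem rr_drop (hF : FR O) {V B : Subgroup A} (hV : O.Opn V) (hB : O.Opn B)
    (h : rr O B < rr O (V ⊓ B)) :
    ∃ C ≤ B, O.Opn C ∧ rr O (V ⊓ C) + 1 + rr O B = rr O (V ⊓ B) + rr O C := by
  classical
  obtain ⟨m, hm⟩ := Nat.exists_eq_add_of_lt h
  have h1 := (orbit_rank O hF hV hB (m + 1)).2 (by omega)
  have h2 : ¬ Rk O V (m + 2) {x | ∃ w ∈ B, ∃ u ∈ V, x = w * u} := by
    rw [orbit_rank O hF hV hB (m + 2)]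
    omega
  obtain ⟨f, hf1, hf2, hf3⟩ := h1
  obtain ⟨i, hi⟩ : ∃ i, ¬ Rk O V (m + 1) (f i) := by
    by_contra! hcon
    exact h2 ⟨f, hf1, hf2, fun i => ⟨(hf3 i).1, hcon i⟩⟩
  obtain ⟨hS1, W, hW, hS2⟩ := hf1 i
  have hC0 := O.opn_inf hW hB
  obtain ⟨T, hT⟩ := O.dc hC0 hV
  have h3 : Rk O V m (⋃ t ∈ T.filter (fun t => t ∈ f i),
      {x | ∃ w ∈ W ⊓ B, ∃ u ∈ V, x = w * t * u}) := by
    refine rk_mono O ?_ (hf3 i).2
    intro x hx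
    obtain ⟨t, ht, v, hv, w, hw, e⟩ := hT x
    refine Set.mem_iUnion₂.2 ⟨t, Finset.mem_filter.2 ⟨ht, ?_⟩, v, hv, w, hw, e⟩
    have h4 := hS1 _ (hS2 v⁻¹ (W.inv_mem hv.1) x hx) w⁻¹ (V.inv_mem hw)
    have h5 : v⁻¹ * x * w⁻¹ = t := by
      rw [e]
      group
    rwa [h5] at h4
  obtain ⟨t, ht, h4⟩ := rk_biUnion O _ _ (fun t _ => dfn_dc O hC0 t) h3
  have htS := (Finset.mem_filter.1 ht).2
  have h5 : ¬ Rk O V (m + 1) {x | ∃ w ∈ W ⊓ B, ∃ u ∈ V, x = w * t * u} := by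
    intro h6
    apply hi
    refine rk_mono O ?_ h6
    rintro x ⟨w, hw, u, hu, rfl⟩
    exact hS1 _ (hS2 w hw.1 t htS) u hu
  obtain ⟨b, hb, v, hv, rfl⟩ := (hf3 i).1 htS
  rw [orbit_rank' O hF hV hC0] at h4 h5
  have e1 : cj (b * v) V = cj b V := by
    rw [cj_mul, cj_of_mem hv]
  rw [e1] at h4 h5
  refine ⟨cj b⁻¹ (W ⊓ B), ?_, O.opn_cj _ hC0, ?_⟩
  · refine (cj_mono inf_le_right).trans ?_
    rw [cj_of_mem (B.inv_mem hb)]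
  · have e2 : V ⊓ cj b⁻¹ (W ⊓ B) = cj b⁻¹ (cj b V ⊓ (W ⊓ B)) := by
      rw [cj_inf b⁻¹ (cj b V), ← cj_mul, inv_mul_cancel, cj_one]
    rw [e2, rr_cj, rr_cj]
    omega

end

end Pool.Agent.Helper596_Q
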