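import Mathlib
import Pool.Agent.Helper596_Q.Base
import Pool.Agent.Helper596_Q.A4a

/-!
# Stationary subgroups
-/

set_option autoImplicit false

namespace Pool.Agent.Helper596_Q

section
variable {A : Type} [Group A] (O : OSys A)


/-! ### Proofs of the targets -/

theorem dfn_empty (U : Subgroup A) : Dfn O U (∅ : Set A) :=
  ⟨fun s hs => absurd hs (Set.notMem_empty s), ⊤, O.opn_top,
    fun _ _ s hs => absurd hs (Set.notMem_empty s)⟩

theorem dfn_biUnion {U : Subgroup A} {ι : Type} (s : Finset ι) (S : ι → Set A)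
    (h : ∀ i ∈ s, Dfn O U (S i)) : Dfn O U (⋃ i ∈ s, S i) := by
  classical
  induction s using Finset.induction_on with
  | empty =>
    simp only [Finset.notMem_empty, Set.iUnion_false, Set.iUnion_empty]
    exact dfn_empty O U
  | insert a s _ ih =>
    rw [Finset.set_biUnion_insert]
    exact dfn_union O (h a (Finset.mem_insert_self _ _))
      (ih fun i hi => h i (Finset.mem_insert_of_mem hi))

/-- the product of two subgroups -/
theorem dfn_pr {U W : Subgroup A} (hW : O.Opn W) :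
    Dfn O U {x | ∃ w ∈ W, ∃ u ∈ U, x = w * u} := by
  have h := dfn_dc O (U := U) hW 1
  simpa only [mul_one] using h

/-- a double coset of full rank in a definable set -/
theorem exists_piece {V F : Subgroup A} (hV : O.Opn V) (hF : O.Opn F) {X : Set A}
    (hX : Dfn O V X) (hinv : ∀ w ∈ F, ∀ s ∈ X, w * s ∈ X) {n : ℕ} (h : Rk O V n X) :
    ∃ t ∈ X, {x | ∃ w ∈ F, ∃ u ∈ V, x = w * t * u} ⊆ X ∧
      Rk O V n {x | ∃ w ∈ F, ∃ u ∈ V, x = w * t * u} := by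
  classical
  obtain ⟨T, hT⟩ := O.dc hF hV
  have hsub : X ⊆ ⋃ t ∈ T.filter (fun t => t ∈ X), {x | ∃ w ∈ F, ∃ u ∈ V, x = w * t * u} := by
    intro x hx
    obtain ⟨t, ht, v, hv, w, hw, hxe⟩ := hT x
    rw [Set.mem_iUnion₂]
    refine ⟨t, ?_, v, hv, w, hw, hxe⟩
    rw [Finset.mem_filter]
    refine ⟨ht, ?_⟩
    have e : t = v⁻¹ * (x * w⁻¹) := by rw [hxe]; group
    rw [e]
    exact hinv _ (F.inv_mem hv) _ (hX.1 x hx _ (V.inv_mem hw))
  obtain ⟨t, ht, h1⟩ := rk_biUnion O (T.filter (fun t => t ∈ X))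
    (fun t => {x | ∃ w ∈ F, ∃ u ∈ V, x = w * t * u}) (fun t _ => dfn_dc O hF t)
    (rk_mono O hsub h)
  refine ⟨t, (Finset.mem_filter.1 ht).2, ?_, h1⟩
  rintro x ⟨w, hw, u, hu, rfl⟩
  exact hX.1 _ (hinv w hw t (Finset.mem_filter.1 ht).2) u hu

theorem pg_congr (F V : Subgroup A) (b v : A) (hv : v ∈ V) :
    {x | ∃ w ∈ F, ∃ u ∈ V, x = w * (b * v) * u} = {x | ∃ w ∈ F, ∃ u ∈ V, x = w * b * u} := by
  ext x
  constructor
  · rintro ⟨w, hw, u, hu, rfl⟩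
    exact ⟨w, hw, v * u, V.mul_mem hv hu, by group⟩
  · rintro ⟨w, hw, u, hu, rfl⟩
    exact ⟨w, hw, v⁻¹ * u, V.mul_mem (V.inv_mem hv) hu, by group⟩

theorem translate_pr (F V : Subgroup A) (b : A) :
    {x | b⁻¹ * x ∈ {x | ∃ w ∈ cj b⁻¹ F, ∃ u ∈ V, x = w * u}} =
      {x | ∃ w ∈ F, ∃ u ∈ V, x = w * b * u} := by
  ext x
  constructor
  · rintro ⟨w, hw, u, hu, hx⟩
    rw [mem_cj, inv_inv] at hw
    refine ⟨b * w * b⁻¹, hw, u, hu, ?_⟩
    have : x = b * (b⁻¹ * x) := by group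
    rw [this, hx]; group
  · rintro ⟨w, hw, u, hu, rfl⟩
    refine ⟨b⁻¹ * w * b, ?_, u, hu, by group⟩
    rw [mem_cj, inv_inv]
    have : b * (b⁻¹ * w * b) * b⁻¹ = w := by group
    rw [this]; exact hw

theorem cj_le_of_mem {F B : Subgroup A} (h : F ≤ B) {b : A} (hb : b ∈ B) : cj b F ≤ B := by
  intro x hx
  rw [mem_cj] at hx
  have h1 := B.mul_mem (B.mul_mem hb (h hx)) (B.inv_mem hb)
  have e : b * (b⁻¹ * x * b) * b⁻¹ = x := by group
  rwa [e] at h1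

theorem exists_deg_orbit (hF : FR O) {V B : Subgroup A} (hV : O.Opn V) (hB : O.Opn B) (n : ℕ)
    (hn : n + rr O B = rr O (V ⊓ B)) :
    ∃ F ≤ B, O.Opn F ∧ n + rr O F = rr O (V ⊓ F) ∧
      Deg1 O V n {x | ∃ w ∈ F, ∃ u ∈ V, x = w * u} := by
  have hr1 : Rk O V n {x | ∃ w ∈ B, ∃ u ∈ V, x = w * u} :=
    (orbit_rank O hF hV hB n).2 (by omega)
  have hr2 : ¬ Rk O V (n + 1) {x | ∃ w ∈ B, ∃ u ∈ V, x = w * u} := by
    intro h
    have := (orbit_rank O hF hV hB (n + 1)).1 h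
    omega
  obtain ⟨X, hXB, hXd, hXr, hX1⟩ := exists_deg_one O (dfn_pr O hB) hr1 hr2
  obtain ⟨W', hW', hinv⟩ := hXd.2
  have hF' : O.Opn (W' ⊓ B) := O.opn_inf hW' hB
  obtain ⟨t, htX, hsub, hrk⟩ := exists_piece O hV hF' hXd
    (fun w hw s hs => hinv w hw.1 s hs) hXr
  obtain ⟨b, hb, v, hv, rfl⟩ := hXB htX
  rw [pg_congr _ V b v hv] at hsub hrk
  have hFB : cj b⁻¹ (W' ⊓ B) ≤ B := cj_le_of_mem inf_le_right (B.inv_mem hb)
  have hFo : O.Opn (cj b⁻¹ (W' ⊓ B)) := O.opn_cj _ hF'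
  have hrF : Rk O V n {x | ∃ w ∈ cj b⁻¹ (W' ⊓ B), ∃ u ∈ V, x = w * u} := by
    rw [← rk_left O b, translate_pr]
    exact hrk
  refine ⟨cj b⁻¹ (W' ⊓ B), hFB, hFo, ?_, ?_⟩
  · have h1 := (orbit_rank O hF hV hFo n).1 hrF
    have h2 := rr_sub O hF hV hFo hB
    rw [inf_assoc, inf_eq_left.2 hFB] at h2
    omega
  · intro Y Z hY hZ hYs hZs hd hYr hZr
    apply hX1 {x | b⁻¹ * x ∈ Y} {x | b⁻¹ * x ∈ Z} (dfn_left O hY b) (dfn_left O hZ b)
    · refine Set.Subset.trans ?_ hsub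
      rw [← translate_pr]
      intro x hx
      exact hYs hx
    · refine Set.Subset.trans ?_ hsub
      rw [← translate_pr]
      intro x hx
      exact hZs hx
    · rw [Set.disjoint_left] at hd ⊢
      intro x hx hx'
      exact hd hx hx'
    · exact (rk_left O b).2 hYr
    · exact (rk_left O b).2 hZr

theorem deg_shift {V : Subgroup A} {n : ℕ} {X : Set A} (hX : Dfn O V X) (h1 : Rk O V n X)
    (h : Deg1 O V n X) : ∃ N : Subgroup A, ∀ g, g ∈ N ↔ Rk O V n (X ∩ {x | g⁻¹ * x ∈ X}) := by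
  have hinv : ∀ g : A, Rk O V n (X ∩ {x | g⁻¹ * x ∈ X}) → Rk O V n (X ∩ {x | g⁻¹⁻¹ * x ∈ X}) := by
    intro g hg
    have h2 := (rk_left O (S := X ∩ {x | g⁻¹ * x ∈ X}) g⁻¹).2 hg
    refine rk_mono O ?_ h2
    rintro x ⟨hx1, hx2⟩
    refine ⟨?_, hx1⟩
    have hx3 : g⁻¹ * (g⁻¹⁻¹ * x) ∈ X := hx2
    have e : g⁻¹ * (g⁻¹⁻¹ * x) = x := by group
    rwa [e] at hx3
  refine ⟨{ carrier := {g | Rk O V n (X ∩ {x | g⁻¹ * x ∈ X})}
            one_mem' := ?_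
            mul_mem' := ?_
            inv_mem' := fun {g} hg => hinv g hg }, fun g => Iff.rfl⟩
  · intro g k hg hk
    have hg' := hinv g hg
    have h2 := deg_one_inter O hX h h1 (Y := X ∩ {x | k⁻¹ * x ∈ X})
      (Z := X ∩ {x | g⁻¹⁻¹ * x ∈ X}) (dfn_inter O hX (dfn_left O hX k))
      (dfn_inter O hX (dfn_left O hX g⁻¹)) Set.inter_subset_left Set.inter_subset_left hk hg'
    have h3 := (rk_left O g).2 h2
    show Rk O V n (X ∩ {x | (g * k)⁻¹ * x ∈ X})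
    refine rk_mono O ?_ h3
    rintro x ⟨⟨_, hx2⟩, _, hx4⟩
    have hx4' : g⁻¹⁻¹ * (g⁻¹ * x) ∈ X := hx4
    have e : g⁻¹⁻¹ * (g⁻¹ * x) = x := by group
    rw [e] at hx4'
    refine ⟨hx4', ?_⟩
    show (g * k)⁻¹ * x ∈ X
    rw [mul_inv_rev, mul_assoc]
    exact hx2
  · show Rk O V n (X ∩ {x | (1 : A)⁻¹ * x ∈ X})
    refine rk_mono O ?_ h1
    intro x hx
    exact ⟨hx, by show (1 : A)⁻¹ * x ∈ X; rwa [inv_one, one_mul]⟩

/-- the main claim of `deg_orbit` -/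
theorem deg_claim (hF : FR O) {V B F W N : Subgroup A} (hV : O.Opn V) (hB : O.Opn B) (n : ℕ)
    (hn : n + rr O B = rr O (V ⊓ B)) (hFo : O.Opn F) (hWo : O.Opn W) (hFW : F ≤ W) (hWB : W ≤ B)
    (hWN : W ≤ N) (hXr : Rk O V n {x | ∃ w ∈ F, ∃ u ∈ V, x = w * u})
    (hX1 : Deg1 O V n {x | ∃ w ∈ F, ∃ u ∈ V, x = w * u})
    (hN : ∀ g, g ∈ N ↔ Rk O V n ({x | ∃ w ∈ F, ∃ u ∈ V, x = w * u} ∩
      {x | g⁻¹ * x ∈ {x | ∃ w ∈ F, ∃ u ∈ V, x = w * u}}))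
    {Y : Set A} (hY : Dfn O V Y) (hYW : Y ⊆ {x | ∃ w ∈ W, ∃ u ∈ V, x = w * u})
    (hYr : Rk O V n Y) : Rk O V n (Y ∩ {x | ∃ w ∈ F, ∃ u ∈ V, x = w * u}) := by
  set X : Set A := {x | ∃ w ∈ F, ∃ u ∈ V, x = w * u} with hXdef
  have hXd : Dfn O V X := dfn_pr O hFo
  obtain ⟨WY, hWY, hinvY⟩ := hY.2
  have hF₀ : O.Opn (F ⊓ WY) := O.opn_inf hFo hWY
  have hinvX : ∀ w ∈ F ⊓ WY, ∀ s ∈ X, w * s ∈ X := by
    rintro w hw _ ⟨a, ha, u, hu, rfl⟩
    exact ⟨w * a, F.mul_mem hw.1 ha, u, hu, by group⟩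
  obtain ⟨t, htY, htsub, htr⟩ := exists_piece O hV hF₀ hY (fun w hw s hs => hinvY w hw.2 s hs) hYr
  obtain ⟨t', htX', htsub', htr'⟩ := exists_piece O hV hF₀ hXd hinvX hXr
  obtain ⟨w, hw, v, hv, rfl⟩ := hYW htY
  obtain ⟨f, hf, v', hv', rfl⟩ := htX'
  rw [pg_congr _ V w v hv] at htsub htr
  rw [pg_congr _ V f v' hv'] at htsub' htr'
  have hFW₀ : F ⊓ WY ≤ W := inf_le_left.trans hFW
  have hfW : f ∈ W := hFW hf
  -- the two conjugates
  have hPW : cj w⁻¹ (F ⊓ WY) ≤ W := cj_le_of_mem hFW₀ (W.inv_mem hw)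
  have hQW : cj f⁻¹ (F ⊓ WY) ≤ W := cj_le_of_mem hFW₀ (W.inv_mem hfW)
  have hPo : O.Opn (cj w⁻¹ (F ⊓ WY)) := O.opn_cj _ hF₀
  have hQo : O.Opn (cj f⁻¹ (F ⊓ WY)) := O.opn_cj _ hF₀
  have conj : ∀ g : A, rr O (cj g V ⊓ (F ⊓ WY)) = rr O (V ⊓ cj g⁻¹ (F ⊓ WY)) := by
    intro g
    have e : cj g⁻¹ (cj g V ⊓ (F ⊓ WY)) = V ⊓ cj g⁻¹ (F ⊓ WY) := by
      rw [cj_inf, ← cj_mul, inv_mul_cancel, cj_one]
    rw [← e, rr_cj]
  have hP : n + rr O (cj w⁻¹ (F ⊓ WY)) ≤ rr O (V ⊓ cj w⁻¹ (F ⊓ WY)) := by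
    have h1 := (orbit_rank' O hF hV hF₀ w n).1 htr
    rw [conj] at h1
    rw [rr_cj]
    exact h1
  have hQ : n + rr O (cj f⁻¹ (F ⊓ WY)) ≤ rr O (V ⊓ cj f⁻¹ (F ⊓ WY)) := by
    have h1 := (orbit_rank' O hF hV hF₀ f n).1 htr'
    rw [conj] at h1
    rw [rr_cj]
    exact h1
  set P := cj w⁻¹ (F ⊓ WY) with hPdef
  set Q := cj f⁻¹ (F ⊓ WY) with hQdef
  obtain ⟨h, hh, hind⟩ := rr_ext O hF hPo hQo (O.opn_inf hWo hV)
  have hhW : h ∈ W := hh.1
  have hhV : h ∈ V := hh.2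
  have hP'W : cj h P ≤ W := cj_le_of_mem hPW hhW
  have hP'o : O.Opn (cj h P) := O.opn_cj _ hPo
  unfold Ind at hind
  have e1 : cj h P ⊓ (W ⊓ V) = cj h (P ⊓ V) := by
    rw [cj_inf, cj_of_mem hhV, ← inf_assoc, inf_eq_left.2 hP'W]
  have e2 : Q ⊓ (W ⊓ V) = Q ⊓ V := by rw [← inf_assoc, inf_eq_left.2 hQW]
  have e3 : cj h P ⊓ Q ⊓ (W ⊓ V) = V ⊓ (cj h P ⊓ Q) := by
    rw [← inf_assoc, inf_eq_left.2 (inf_le_right.trans hQW), inf_comm]
  rw [e3, e1, e2, rr_cj, inf_comm P V, inf_comm Q V, inf_comm W V] at hind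
  have hs1 := rr_sub O hF hV hWo hB
  rw [inf_assoc, inf_eq_left.2 hWB] at hs1
  have hs2 := rr_sub O hF hP'o hQo hWo
  rw [inf_eq_left.2 (inf_le_right.trans hQW), inf_eq_left.2 hP'W, inf_eq_left.2 hQW, rr_cj] at hs2
  have hr : Rk O V n {x | ∃ w ∈ cj h P ⊓ Q, ∃ u ∈ V, x = w * u} :=
    (orbit_rank O hF hV (O.opn_inf hP'o hQo) n).2 (by omega)
  -- the translate by `f`
  have hr2 := (rk_left O f).2 hr
  have hg : f * h * w⁻¹ ∈ W := W.mul_mem (W.mul_mem hfW hhW) (W.inv_mem hw)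
  have hXY : Rk O V n (X ∩ {x | (f * h * w⁻¹)⁻¹ * x ∈ Y}) := by
    refine rk_mono O ?_ hr2
    rintro x ⟨q, ⟨hq1, hq2⟩, u, hu, hx⟩
    have hx' : x = f * (q * u) := by rw [← hx]; group
    constructor
    · apply htsub'
      rw [hQdef] at hq2
      have hq3 : q ∈ cj f⁻¹ (F ⊓ WY) := hq2
      rw [mem_cj, inv_inv] at hq3
      exact ⟨f * q * f⁻¹, hq3, u, hu, by rw [hx']; group⟩
    · apply htsub
      have hq3 : q ∈ cj h P := hq1
      rw [mem_cj, hPdef, mem_cj, inv_inv] at hq3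
      refine ⟨w * (h⁻¹ * q * h) * w⁻¹, hq3, h⁻¹ * u, V.mul_mem (V.inv_mem hhV) hu, ?_⟩
      rw [hx']; group
  have hXX : Rk O V n (X ∩ {x | (f * h * w⁻¹)⁻¹ * x ∈ X}) := (hN _).1 (hWN hg)
  have h2 := deg_one_inter O hXd hX1 hXr (dfn_inter O hXd (dfn_left O hY (f * h * w⁻¹)))
    (dfn_inter O hXd (dfn_left O hXd (f * h * w⁻¹))) Set.inter_subset_left Set.inter_subset_left
    hXY hXX
  rw [← rk_left O (f * h * w⁻¹)]
  refine rk_mono O ?_ h2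
  rintro x ⟨⟨_, hx2⟩, _, hx4⟩
  exact ⟨hx2, hx4⟩

theorem deg_orbit (hF : FR O) {V B : Subgroup A} (hV : O.Opn V) (hB : O.Opn B) (n : ℕ)
    (hn : n + rr O B = rr O (V ⊓ B)) :
    ∃ W ≤ B, O.Opn W ∧ rr O W = rr O B ∧
      Deg1 O V n {x | ∃ w ∈ W, ∃ u ∈ V, x = w * u} := by
  classical
  obtain ⟨F, hFB, hFo, hFr, hF1⟩ := exists_deg_orbit O hF hV hB n hn
  have hXr : Rk O V n {x | ∃ w ∈ F, ∃ u ∈ V, x = w * u} :=
    (orbit_rank O hF hV hFo n).2 (by omega)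
  have hXd : Dfn O V {x | ∃ w ∈ F, ∃ u ∈ V, x = w * u} := dfn_pr O hFo
  obtain ⟨N, hN⟩ := deg_shift O hXd hXr hF1
  have hFN : F ≤ N := by
    intro g hg
    rw [hN]
    refine rk_mono O ?_ hXr
    rintro x ⟨w, hw, u, hu, rfl⟩
    refine ⟨⟨w, hw, u, hu, rfl⟩, g⁻¹ * w, F.mul_mem (F.inv_mem hg) hw, u, hu, by group⟩
  have hFW : F ≤ N ⊓ B := le_inf hFN hFB
  have hWo : O.Opn (N ⊓ B) := O.opn_mono hFo hFW
  refine ⟨N ⊓ B, inf_le_right, hWo, ?_, ?_⟩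
  · -- finite index up to rank
    by_contra hne
    have hno : ∀ T : Finset A, ∃ w ∈ B, ∀ t ∈ T, t⁻¹ * w ∉ N ⊓ B := by
      intro T
      by_contra hcon
      push Not at hcon
      exact hne (rr_of_fin O hF hWo hB inf_le_right T hcon)
    obtain ⟨d, hd⟩ := degree O (n := n) (dfn_pr O (U := V) hB) (by
      intro h
      have := (orbit_rank O hF hV hB (n + 1)).1 h
      omega)
    have hseq : ∀ m : ℕ, ∃ g : ℕ → A, (∀ i < m, g i ∈ B) ∧
        ∀ j < m, ∀ i < j, (g i)⁻¹ * g j ∉ N ⊓ B := by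
      intro m
      induction m with
      | zero => exact ⟨fun _ => 1, fun i hi => absurd hi (Nat.not_lt_zero i),
          fun j hj => absurd hj (Nat.not_lt_zero j)⟩
      | succ m ih =>
        obtain ⟨g, hg1, hg2⟩ := ih
        obtain ⟨w, hw, hwn⟩ := hno ((Finset.range m).image g)
        refine ⟨Function.update g m w, ?_, ?_⟩
        · intro i hi
          by_cases him : i = m
          · rw [him, Function.update_self]; exact hw
          · rw [Function.update_of_ne him]; exact hg1 i (by omega)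
        · intro j hj i hij
          have hi : i ≠ m := by omega
          rw [Function.update_of_ne hi]
          by_cases hjm : j = m
          · rw [hjm, Function.update_self]
            exact hwn _ (Finset.mem_image_of_mem g (Finset.mem_range.2 (by omega)))
          · rw [Function.update_of_ne hjm]
            exact hg2 j (by omega) i hij
    obtain ⟨g, hg1, hg2⟩ := hseq d
    set X : Set A := {x | ∃ w ∈ F, ∃ u ∈ V, x = w * u} with hXdef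
    set gX : ℕ → Set A := fun i => {x | (g i)⁻¹ * x ∈ X} with hgX
    have hgXd : ∀ i, Dfn O V (gX i) := fun i => dfn_left O hXd (g i)
    have hgXr : ∀ i, Rk O V n (gX i) := fun i => (rk_left O (g i)).2 hXr
    have hgXB : ∀ i < d, gX i ⊆ {x | ∃ w ∈ B, ∃ u ∈ V, x = w * u} := by
      rintro i hi x ⟨w, hw, u, hu, hx⟩
      refine ⟨g i * w, B.mul_mem (hg1 i hi) (hFB hw), u, hu, ?_⟩
      have : x = g i * ((g i)⁻¹ * x) := by group
      rw [this, hx]; group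
    have hnot : ∀ j < d, ∀ i < j, ¬ Rk O V n (gX j ∩ gX i) := by
      intro j hj i hij hr
      apply hg2 j hj i hij
      refine ⟨?_, B.mul_mem (B.inv_mem (hg1 i (by omega))) (hg1 j hj)⟩
      show (g i)⁻¹ * g j ∈ N
      rw [hN]
      have h2 := (rk_left O (g i)⁻¹).2 hr
      refine rk_mono O ?_ h2
      rintro x ⟨hx1, hx2⟩
      have hx1' : (g j)⁻¹ * ((g i)⁻¹⁻¹ * x) ∈ X := hx1
      have hx2' : (g i)⁻¹ * ((g i)⁻¹⁻¹ * x) ∈ X := hx2
      have e1 : (g i)⁻¹ * ((g i)⁻¹⁻¹ * x) = x := by group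
      have e2 : (g j)⁻¹ * ((g i)⁻¹⁻¹ * x) = ((g i)⁻¹ * g j)⁻¹ * x := by group
      rw [e1] at hx2'
      rw [e2] at hx1'
      exact ⟨hx2', hx1'⟩
    set Z : ℕ → Set A := fun i => gX i \ ⋃ j ∈ Finset.range i, gX j with hZ
    have hZd : ∀ i, Dfn O V (Z i) := fun i =>
      dfn_diff O (hgXd i) (dfn_biUnion O _ _ fun j _ => hgXd j)
    have hZr : ∀ i < d, Rk O V n (Z i) := by
      intro i hi
      have hcov : gX i ⊆ Z i ∪ ⋃ j ∈ Finset.range i, (gX i ∩ gX j) := by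
        intro x hx
        by_cases hx2 : x ∈ ⋃ j ∈ Finset.range i, gX j
        · right
          rw [Set.mem_iUnion₂] at hx2 ⊢
          obtain ⟨j, hj, hxj⟩ := hx2
          exact ⟨j, hj, hx, hxj⟩
        · exact Or.inl ⟨hx, hx2⟩
      have hdj : ∀ j ∈ Finset.range i, Dfn O V (gX i ∩ gX j) := fun j _ =>
        dfn_inter O (hgXd i) (hgXd j)
      rcases rk_union O (hZd i) (dfn_biUnion O _ _ hdj) (rk_mono O hcov (hgXr i)) with h | h
      · exact h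
      · obtain ⟨j, hj, hjr⟩ := rk_biUnion O _ _ hdj h
        exact absurd hjr (hnot i hi j (Finset.mem_range.1 hj))
    apply hd (fun i => Z i)
    · intro i; exact hZd i
    · have hlt : ∀ a b : ℕ, a < b → Disjoint (Z a) (Z b) := by
        intro a b hab
        rw [Set.disjoint_left]
        rintro x ⟨hxa, _⟩ ⟨_, hxb⟩
        apply hxb
        rw [Set.mem_iUnion₂]
        exact ⟨a, Finset.mem_range.2 hab, hxa⟩
      intro i j hij
      rcases lt_trichotomy (i : ℕ) (j : ℕ) with h | h | h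
      · exact hlt _ _ h
      · exact absurd (Fin.ext h) hij
      · exact (hlt _ _ h).symm
    · intro i
      exact ⟨Set.sdiff_subset.trans (hgXB i i.2), hZr i i.2⟩
  · intro Y Z hY hZ hYs hZs hd hYr hZr
    have key := fun {Y : Set A} => deg_claim O hF hV hB n hn hFo hWo hFW inf_le_right
      inf_le_left hXr hF1 hN (Y := Y)
    apply hF1 _ _ (dfn_inter O hY hXd) (dfn_inter O hZ hXd) Set.inter_subset_right
      Set.inter_subset_right ?_ (key hY hYs hYr) (key hZ hZs hZr)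
    exact hd.mono Set.inter_subset_left Set.inter_subset_left

theorem st_of_deg (hF : FR O) {V W : Subgroup A} (hV : O.Opn V) (hW : O.Opn W) (n : ℕ)
    (hn : n + rr O W = rr O (V ⊓ W))
    (h : Deg1 O V n {x | ∃ w ∈ W, ∃ u ∈ V, x = w * u}) : St O (rr O) W V := by
  intro Q hQ hQW g hg g' hg' hi hi'
  have key : ∀ g ∈ W, Ind (rr O) (cj g V) Q W →
      Rk O V n {x | ∃ w ∈ Q, ∃ u ∈ V, x = w * g * u} := by
    intro g hg hi
    rw [orbit_rank' O hF hV hQ]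
    unfold Ind at hi
    have e1 : cj g V ⊓ Q ⊓ W = cj g V ⊓ Q := inf_eq_left.2 (inf_le_right.trans hQW)
    have e2 : cj g V ⊓ W = cj g (V ⊓ W) := by rw [cj_inf, cj_of_mem hg]
    rw [e1, e2, rr_cj, inf_eq_left.2 hQW] at hi
    omega
  have sub : ∀ g ∈ W, {x | ∃ w ∈ Q, ∃ u ∈ V, x = w * g * u} ⊆
      {x | ∃ w ∈ W, ∃ u ∈ V, x = w * u} := by
    rintro g hg x ⟨w, hw, u, hu, rfl⟩
    exact ⟨w * g, W.mul_mem (hQW hw) hg, u, hu, rfl⟩
  have hnd : ¬ Disjoint {x | ∃ w ∈ Q, ∃ u ∈ V, x = w * g * u}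
      {x | ∃ w ∈ Q, ∃ u ∈ V, x = w * g' * u} := by
    intro hd
    exact h _ _ (dfn_dc O hQ g) (dfn_dc O hQ g') (sub g hg) (sub g' hg') hd (key g hg hi)
      (key g' hg' hi')
  rw [Set.not_disjoint_iff] at hnd
  obtain ⟨x, ⟨q, hq, v, hv, hx⟩, q', hq', v', hv', hx'⟩ := hnd
  refine ⟨q'⁻¹ * q, Q.mul_mem (Q.inv_mem hq') hq, ?_⟩
  have e : g⁻¹ * (q'⁻¹ * q)⁻¹ * g' = v * v'⁻¹ := by
    have h1 : q * g * v = q' * g' * v' := by rw [← hx, ← hx']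
    have h2 : q' * g' = q * g * v * v'⁻¹ := by rw [h1]; group
    calc g⁻¹ * (q'⁻¹ * q)⁻¹ * g' = g⁻¹ * q⁻¹ * (q' * g') := by group
      _ = g⁻¹ * q⁻¹ * (q * g * v * v'⁻¹) := by rw [h2]
      _ = v * v'⁻¹ := by group
  rw [e]
  exact V.mul_mem hv (V.inv_mem hv')

end

end Pool.Agent.Helper596_Q
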