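import Mathlib
import Pool.Agent.Helper596_Q.Base
import Pool.Agent.Helper596_Q.A4b

/-!
# Canonical bases
-/

set_option autoImplicit false

namespace Pool.Agent.Helper596_Q

section
variable {A : Type} [Group A] (O : OSys A)


theorem rr_cb (hF : FR O) {P Q₁ Q₂ : Subgroup A} (hP : O.Opn P) (h1 : O.Opn Q₁) (h2 : O.Opn Q₂)
    (i1 : Ind (rr O) P Q₂ Q₁) (i2 : Ind (rr O) P Q₁ Q₂) :
    ∃ E, O.Opn E ∧ rr O (E ⊓ Q₁) = rr O Q₁ ∧ rr O (E ⊓ Q₂) = rr O Q₂ ∧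
      rr O (P ⊓ E) + rr O Q₁ = rr O (P ⊓ Q₁) + rr O E := by
  classical
  -- numerical data
  have hP1 : O.Opn (P ⊓ Q₁) := O.opn_inf hP h1
  have hP2 : O.Opn (P ⊓ Q₂) := O.opn_inf hP h2
  have h12 : O.Opn (Q₁ ⊓ Q₂) := O.opn_inf h1 h2
  unfold Ind at i1 i2
  have c1 : P ⊓ Q₂ ⊓ Q₁ = P ⊓ (Q₁ ⊓ Q₂) := by rw [inf_assoc, inf_comm Q₂ Q₁]
  have c2 : P ⊓ Q₁ ⊓ Q₂ = P ⊓ (Q₁ ⊓ Q₂) := by rw [inf_assoc]
  rw [c1, inf_comm Q₂ Q₁] at i1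
  rw [c2] at i2
  have m1 : rr O Q₁ ≤ rr O (P ⊓ Q₁) := rr_mono O hF hP1 h1 inf_le_right
  obtain ⟨n, hn⟩ := Nat.exists_eq_add_of_le m1
  have hn1 : n + rr O Q₁ = rr O (P ⊓ Q₁) := by omega
  have hn12 : rr O (P ⊓ (Q₁ ⊓ Q₂)) = n + rr O (Q₁ ⊓ Q₂) := by omega
  have hn2 : n + rr O Q₂ = rr O (P ⊓ Q₂) := by omega
  obtain ⟨W₁, hW1, oW1, rW1, dW1⟩ := deg_orbit O hF hP h1 n hn1
  obtain ⟨W₂, hW2, oW2, rW2, dW2⟩ := deg_orbit O hF hP h2 n hn2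
  obtain ⟨K, hK⟩ : ∃ K, K = W₁ ⊓ W₂ := ⟨_, rfl⟩
  have oK : O.Opn K := hK ▸ O.opn_inf oW1 oW2
  have K1 : K ≤ W₁ := hK ▸ inf_le_left
  have K2 : K ≤ W₂ := hK ▸ inf_le_right
  have rK : rr O K = rr O (Q₁ ⊓ Q₂) := by
    apply le_antisymm
    · have a := rr_sub O hF oW1 h2 h1
      have a1 : W₁ ⊓ Q₁ = W₁ := inf_eq_left.2 hW1
      have a2 : W₁ ⊓ Q₂ ⊓ Q₁ = W₁ ⊓ Q₂ := inf_eq_left.2 (inf_le_left.trans hW1)
      rw [a1, a2, inf_comm Q₂ Q₁] at a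
      have b := rr_sub O hF oW2 oW1 h2
      have b1 : W₂ ⊓ Q₂ = W₂ := inf_eq_left.2 hW2
      have b2 : W₂ ⊓ W₁ ⊓ Q₂ = K := by
        rw [hK, inf_comm W₂ W₁]
        exact inf_eq_left.2 (inf_le_right.trans hW2)
      rw [b1, b2] at b
      omega
    · exact rr_mono O hF oK h12 (le_inf (K1.trans hW1) (K2.trans hW2))
  have oPK : O.Opn (P ⊓ K) := O.opn_inf hP oK
  have gPK : n + rr O K ≤ rr O (P ⊓ K) := by
    have := rr_mono O hF oPK (O.opn_inf hP h12)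
      (inf_le_inf_left P (le_inf (K1.trans hW1) (K2.trans hW2)))
    omega
  obtain ⟨X, hX⟩ : ∃ X : Set A, X = {x | ∃ w ∈ K, ∃ u ∈ P, x = w * u} := ⟨_, rfl⟩
  have RX : Rk O P n X := by
    rw [hX]
    exact (orbit_rank O hF hP oK n).2 gPK
  obtain ⟨X₁, hX1⟩ : ∃ X : Set A, X = {x | ∃ w ∈ W₁, ∃ u ∈ P, x = w * u} := ⟨_, rfl⟩
  obtain ⟨X₂, hX2⟩ : ∃ X : Set A, X = {x | ∃ w ∈ W₂, ∃ u ∈ P, x = w * u} := ⟨_, rfl⟩
  have s1 : X ⊆ X₁ := by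
    rw [hX, hX1]
    rintro x ⟨w, hw, u, hu, rfl⟩
    exact ⟨w, K1 hw, u, hu, rfl⟩
  have s2 : X ⊆ X₂ := by
    rw [hX, hX2]
    rintro x ⟨w, hw, u, hu, rfl⟩
    exact ⟨w, K2 hw, u, hu, rfl⟩
  have dcc : ∀ W : Subgroup A, O.Opn W → Dfn O P {x | ∃ w ∈ W, ∃ u ∈ P, x = w * u} := by
    intro W oW
    have := dfn_dc O (U := P) oW 1
    simpa using this
  have DX : Dfn O P X := hX ▸ dcc K oK
  have DX1 : Dfn O P X₁ := hX1 ▸ dcc W₁ oW1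
  have DX2 : Dfn O P X₂ := hX2 ▸ dcc W₂ oW2
  have nX : ¬ Rk O P (n + 1) X := by
    intro h
    have h' := rk_mono O s1 h
    rw [hX1, orbit_rank O hF hP oW1] at h'
    have a := rr_sub O hF hP oW1 h1
    have a1 : W₁ ⊓ Q₁ = W₁ := inf_eq_left.2 hW1
    have a2 : P ⊓ W₁ ⊓ Q₁ = P ⊓ W₁ := inf_eq_left.2 (inf_le_right.trans hW1)
    rw [a1, a2] at a
    omega
  have ePK : rr O (P ⊓ K) = n + rr O K := by
    by_contra h
    apply nX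
    rw [hX, orbit_rank O hF hP oK]
    omega
  rw [← hX1] at dW1
  rw [← hX2] at dW2
  have dX : Deg1 O P n X := by
    intro Y Z hY hZ hYX hZX hd hr
    exact dW1 Y Z hY hZ (hYX.trans s1) (hZX.trans s1) hd hr
  obtain ⟨N, hN⟩ := deg_shift O DX RX dX
  have N1 : W₁ ≤ N := by
    intro g hg
    rw [hN]
    refine deg_one_inter O DX1 dW1 (rk_mono O s1 RX) DX (dfn_left O DX g) s1 ?_ RX
      ((rk_left O g).2 RX)
    intro x hx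
    have hx' : g⁻¹ * x ∈ X := hx
    rw [hX] at hx'
    obtain ⟨w, hw, u, hu, e⟩ := hx'
    rw [hX1]
    refine ⟨g * w, W₁.mul_mem hg (K1 hw), u, hu, ?_⟩
    rw [mul_assoc, ← e]
    group
  have N2 : W₂ ≤ N := by
    intro g hg
    rw [hN]
    refine deg_one_inter O DX2 dW2 (rk_mono O s2 RX) DX (dfn_left O DX g) s2 ?_ RX
      ((rk_left O g).2 RX)
    intro x hx
    have hx' : g⁻¹ * x ∈ X := hx
    rw [hX] at hx'
    obtain ⟨w, hw, u, hu, e⟩ := hx'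
    rw [hX2]
    refine ⟨g * w, W₂.mul_mem hg (K2 hw), u, hu, ?_⟩
    rw [mul_assoc, ← e]
    group
  obtain ⟨E, hE⟩ : ∃ E, E = W₁ ⊔ W₂ := ⟨_, rfl⟩
  have E1 : W₁ ≤ E := hE ▸ le_sup_left
  have E2 : W₂ ≤ E := hE ▸ le_sup_right
  have EN : E ≤ N := hE ▸ sup_le N1 N2
  have oE : O.Opn E := O.opn_mono oW1 E1
  have KE : K ≤ E := K1.trans E1
  have oPE : O.Opn (P ⊓ E) := O.opn_inf hP oE
  have q1 : rr O (E ⊓ Q₁) = rr O Q₁ := by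
    apply le_antisymm
    · rw [← rW1]
      exact rr_mono O hF oW1 (O.opn_inf oE h1) (le_inf E1 hW1)
    · exact rr_mono O hF (O.opn_inf oE h1) h1 inf_le_right
  have q2 : rr O (E ⊓ Q₂) = rr O Q₂ := by
    apply le_antisymm
    · rw [← rW2]
      exact rr_mono O hF oW2 (O.opn_inf oE h2) (le_inf E2 hW2)
    · exact rr_mono O hF (O.opn_inf oE h2) h2 inf_le_right
  have ge : n + rr O E ≤ rr O (P ⊓ E) := by
    rw [← orbit_rank O hF hP oE]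
    refine rk_mono O ?_ RX
    rw [hX]
    rintro x ⟨w, hw, u, hu, rfl⟩
    exact ⟨w, KE hw, u, hu, rfl⟩
  refine ⟨E, oE, q1, q2, ?_⟩
  suffices hle : rr O (P ⊓ E) ≤ n + rr O E by omega
  by_contra hcon
  obtain ⟨m, hm⟩ := Nat.exists_eq_add_of_le (rr_mono O hF oPE oE (inf_le_right))
  have hmn : n + 1 ≤ m := by omega
  have REP : Rk O P m {x | ∃ w ∈ E, ∃ u ∈ P, x = w * u} := by
    rw [orbit_rank O hF hP oE]
    omega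
  obtain ⟨T, hT⟩ := O.dc oK hP
  have Rt : ∃ t ∈ T.filter (fun t => ∃ w ∈ E, ∃ u ∈ P, t = w * u),
      Rk O P m {x | ∃ w ∈ K, ∃ u ∈ P, x = w * t * u} := by
    refine rk_biUnion O _ (fun t => {x | ∃ w ∈ K, ∃ u ∈ P, x = w * t * u})
      (fun t _ => dfn_dc O oK t) ?_
    refine rk_mono O ?_ REP
    rintro x ⟨w, hw, u, hu, rfl⟩
    obtain ⟨t, ht, v, hv, p, hp, e⟩ := hT (w * u)
    simp only [Set.mem_iUnion]
    refine ⟨t, Finset.mem_filter.2 ⟨ht, v⁻¹ * w, E.mul_mem (E.inv_mem (KE hv)) hw, u * p⁻¹,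
      P.mul_mem hu (P.inv_mem hp), ?_⟩, v, hv, p, hp, e⟩
    have : t = v⁻¹ * (v * t * p) * p⁻¹ := by group
    rw [this, ← e]
    group
  obtain ⟨t, ht, Rt⟩ := Rt
  obtain ⟨-, e, he, p, hp, rfl⟩ := Finset.mem_filter.1 ht
  have Re : Rk O P m {x | ∃ w ∈ K, ∃ u ∈ P, x = w * e * u} := by
    refine rk_mono O ?_ Rt
    rintro x ⟨w, hw, u, hu, rfl⟩
    exact ⟨w, hw, p * u, P.mul_mem hp hu, by group⟩
  have r1 : m + rr O K ≤ rr O (cj e P ⊓ K) := (orbit_rank' O hF hP oK e m).1 Re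
  have oP' : O.Opn (cj e P) := O.opn_cj e hP
  have oK' : O.Opn (cj e K) := O.opn_cj e oK
  have r2 : rr O (cj e P ⊓ cj e K) = n + rr O K := by
    rw [← cj_inf, rr_cj, ePK]
  have r3 : rr O (cj e K) = rr O K := rr_cj O e K
  have K'E : cj e K ≤ E := by
    have := cj_mono (g := e) KE
    rwa [cj_of_mem he] at this
  have oB : O.Opn (E ⊓ cj e P) := O.opn_inf oE oP'
  have rB : rr O (E ⊓ cj e P) = m + rr O E := by
    have e1 : E ⊓ cj e P = cj e (P ⊓ E) := by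
      rw [cj_inf, cj_of_mem he, inf_comm]
    rw [e1, rr_cj]
    omega
  obtain ⟨h, hh, hind⟩ := rr_ext O hF oK' oK oB
  have hE' : h ∈ E := (Subgroup.mem_inf.1 hh).1
  have hP' : h ∈ cj e P := (Subgroup.mem_inf.1 hh).2
  unfold Ind at hind
  have K''E : cj h (cj e K) ≤ E := by
    have := cj_mono (g := h) K'E
    rwa [cj_of_mem hE'] at this
  have oK'' : O.Opn (cj h (cj e K)) := O.opn_cj h oK'
  have r4 : rr O (cj h (cj e K) ⊓ (E ⊓ cj e P)) = n + rr O K := by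
    have e1 : cj h (cj e K) ⊓ (E ⊓ cj e P) = cj h (cj e P ⊓ cj e K) := by
      rw [cj_inf, cj_of_mem hP', ← inf_assoc, inf_eq_left.2 K''E, inf_comm]
    rw [e1, rr_cj, r2]
  have r5 : m + rr O K ≤ rr O (K ⊓ (E ⊓ cj e P)) := by
    have e1 : K ⊓ (E ⊓ cj e P) = cj e P ⊓ K := by
      rw [← inf_assoc, inf_eq_left.2 KE, inf_comm]
    rw [e1]
    exact r1
  have r6 : cj h (cj e K) ⊓ K ⊓ (E ⊓ cj e P) = cj e P ⊓ (cj h (cj e K) ⊓ K) := by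
    rw [← inf_assoc, inf_eq_left.2 (inf_le_right.trans KE : cj h (cj e K) ⊓ K ≤ E), inf_comm]
  rw [r6] at hind
  have r7 := rr_sub O hF oK'' oK oE
  rw [inf_eq_left.2 (inf_le_right.trans KE : cj h (cj e K) ⊓ K ≤ E), inf_eq_left.2 K''E,
    inf_eq_left.2 KE, rr_cj, r3] at r7
  have r8 : Rk O P n {x | ∃ w ∈ cj h (cj e K) ⊓ K, ∃ u ∈ P, x = w * e * u} := by
    rw [orbit_rank' O hF hP (O.opn_inf oK'' oK)]
    omega
  have hheN : h * e ∈ N := EN (E.mul_mem hE' he)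
  rw [hN] at hheN
  have Y1 : Rk O P n {x | ((h * e)⁻¹)⁻¹ * x ∈ X ∩ {x | (h * e)⁻¹ * x ∈ X}} :=
    (rk_left O (h * e)⁻¹).2 hheN
  have Z1 : Rk O P n {x | ((h * e)⁻¹)⁻¹ * x ∈
      {x | ∃ w ∈ cj h (cj e K) ⊓ K, ∃ u ∈ P, x = w * e * u}} :=
    (rk_left O (h * e)⁻¹).2 r8
  have hnd : ¬ Disjoint {x | ((h * e)⁻¹)⁻¹ * x ∈ X ∩ {x | (h * e)⁻¹ * x ∈ X}}
      {x | ((h * e)⁻¹)⁻¹ * x ∈
      {x | ∃ w ∈ cj h (cj e K) ⊓ K, ∃ u ∈ P, x = w * e * u}} := by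
    intro hd
    refine dX _ _ (dfn_left O (dfn_inter O DX (dfn_left O DX (h * e))) (h * e)⁻¹)
      (dfn_left O (dfn_dc O (O.opn_inf oK'' oK) e) (h * e)⁻¹) ?_ ?_ hd Y1 Z1
    · intro x hx
      have hx2 : (h * e)⁻¹ * (((h * e)⁻¹)⁻¹ * x) ∈ X := hx.2
      have e1 : (h * e)⁻¹ * (((h * e)⁻¹)⁻¹ * x) = x := by group
      rwa [e1] at hx2
    · intro x hx
      obtain ⟨w, hw, u, hu, e1⟩ : ∃ w ∈ cj h (cj e K) ⊓ K, ∃ u ∈ P,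
        ((h * e)⁻¹)⁻¹ * x = w * e * u := hx
      have hw1 : w ∈ cj h (cj e K) := (Subgroup.mem_inf.1 hw).1
      rw [mem_cj, mem_cj] at hw1
      rw [mem_cj] at hP'
      rw [hX]
      refine ⟨e⁻¹ * (h⁻¹ * w * h) * e, hw1, (e⁻¹ * h * e)⁻¹ * u,
        P.mul_mem (P.inv_mem hP') hu, ?_⟩
      have e2 : x = (h * e)⁻¹ * (((h * e)⁻¹)⁻¹ * x) := by group
      rw [e2, e1]
      group
  rw [Set.not_disjoint_iff] at hnd
  obtain ⟨x, hxY, hxZ⟩ := hnd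
  have y1 : ((h * e)⁻¹)⁻¹ * x ∈ X := hxY.1
  obtain ⟨w, hw, u, hu, e1⟩ : ∃ w ∈ cj h (cj e K) ⊓ K, ∃ u ∈ P,
    ((h * e)⁻¹)⁻¹ * x = w * e * u := hxZ
  rw [hX] at y1
  obtain ⟨k, hk, q, hq, e2⟩ := y1
  have hwK : w ∈ K := (Subgroup.mem_inf.1 hw).2
  have ee : e = w⁻¹ * k * (q * u⁻¹) := by
    have : e = w⁻¹ * (w * e * u) * u⁻¹ := by group
    rw [this, ← e1, e2]
    group
  apply nX
  refine rk_le O hmn (rk_mono O ?_ Re)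
  rintro y ⟨w', hw', u', hu', rfl⟩
  rw [hX]
  refine ⟨w' * (w⁻¹ * k), K.mul_mem hw' (K.mul_mem (K.inv_mem hwK) hk), q * u⁻¹ * u',
    P.mul_mem (P.mul_mem hq (P.inv_mem hu)) hu', ?_⟩
  conv_lhs => rw [ee]
  group

end

end Pool.Agent.Helper596_Q
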