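import Mathlib

/-!
# Infinite rank gives a binary tree
-/

set_option autoImplicit false

namespace Pool.Agent.Helper596_Q

/-- Invariant under the pointwise stabiliser of a finite set. -/
def DM {M : Type} (G : Subgroup (Equiv.Perm M)) (S : Set M) : Prop :=
  ∃ F : Finset M, ∀ g ∈ G, (∀ x ∈ F, g x = x) → ∀ s ∈ S, g s ∈ S

/-- Rank at least `n`. -/
def RkM {M : Type} (G : Subgroup (Equiv.Perm M)) : ℕ → Set M → Prop
  | 0, S => S.Nonempty
  | n + 1, S => ∃ f : ℕ → Set M, (∀ i, DM G (f i)) ∧ (∀ i j, i ≠ j → Disjoint (f i) (f j)) ∧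
      ∀ i, f i ⊆ S ∧ RkM G n (f i)

/-- The orbit of `x` under the stabiliser of the tuple `c`. -/
def orb {M : Type} (G : Subgroup (Equiv.Perm M)) {k : ℕ} (c : Fin k → M) (x : M) : Set M :=
  {y | ∃ g ∈ G, (∀ i, g (c i) = c i) ∧ g x = y}

variable {M : Type} {G : Subgroup (Equiv.Perm M)}

/-- Invariant under the pointwise stabiliser of `F`. -/
def f1aInv (G : Subgroup (Equiv.Perm M)) (F : Finset M) (S : Set M) : Prop :=
  ∀ g ∈ G, (∀ x ∈ F, g x = x) → ∀ s ∈ S, g s ∈ S

theorem f1aInv.mono {F F' : Finset M} (h : F ⊆ F') {S : Set M} (hS : f1aInv G F S) :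
    f1aInv G F' S := fun g hg hx => hS g hg fun x hx' => hx x (h hx')

theorem f1aInv.inter {F : Finset M} {S T : Set M} (hS : f1aInv G F S) (hT : f1aInv G F T) :
    f1aInv G F (S ∩ T) := fun g hg hx s hs => ⟨hS g hg hx s hs.1, hT g hg hx s hs.2⟩

theorem f1aInv.union {F : Finset M} {S T : Set M} (hS : f1aInv G F S) (hT : f1aInv G F T) :
    f1aInv G F (S ∪ T) := fun g hg hx s hs => hs.imp (hS g hg hx s) (hT g hg hx s)

theorem f1aInv.compl {F : Finset M} {S : Set M} (hS : f1aInv G F S) : f1aInv G F Sᶜ := by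
  intro g hg hx s hs h
  apply hs
  have h1 := hS g⁻¹ (inv_mem hg) (fun x hx' => by
    rw [Equiv.Perm.inv_eq_iff_eq]
    exact (hx x hx').symm) _ h
  have h2 : g⁻¹ (g s) = s := g.symm_apply_apply s
  rwa [h2] at h1

theorem f1aInv.dm {F : Finset M} {S : Set M} (hS : f1aInv G F S) : DM G S := ⟨F, hS⟩

theorem f1a_dm_inter {S T : Set M} (hS : DM G S) (hT : DM G T) : DM G (S ∩ T) := by
  classical
  obtain ⟨F, hF⟩ := hS
  obtain ⟨F', hF'⟩ := hT
  exact ⟨F ∪ F', (f1aInv.mono Finset.subset_union_left hF).inter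
    (f1aInv.mono Finset.subset_union_right hF')⟩

theorem f1a_mono {n : ℕ} {S T : Set M} (h : S ⊆ T) (hS : RkM G n S) : RkM G n T := by
  cases n with
  | zero => exact Set.Nonempty.mono h hS
  | succ n =>
    obtain ⟨f, h1, h2, h3⟩ := hS
    exact ⟨f, h1, h2, fun i => ⟨(h3 i).1.trans h, (h3 i).2⟩⟩

theorem f1a_succ {n : ℕ} {S : Set M} (h : RkM G (n + 1) S) : RkM G n S := by
  obtain ⟨f, _, _, h3⟩ := h
  exact f1a_mono (h3 0).1 (h3 0).2

theorem f1a_nonempty : ∀ {n : ℕ} {S : Set M}, RkM G n S → S.Nonempty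
  | 0, _, h => h
  | _ + 1, _, h => f1a_nonempty (f1a_succ h)

theorem f1a_sub {n : ℕ} {S : Set M} {f : ℕ → Set M} (h1 : ∀ i, DM G (f i)) (hS : DM G S)
    (h2 : ∀ i j, i ≠ j → Disjoint (f i) (f j)) (hinf : {i | RkM G n (f i ∩ S)}.Infinite) :
    RkM G (n + 1) S := by
  let e := hinf.natEmbedding
  refine ⟨fun j => f (e j).1 ∩ S, fun j => f1a_dm_inter (h1 _) hS, fun i j hij => ?_, fun j =>
    ⟨Set.inter_subset_right, (e j).2⟩⟩
  refine (h2 _ _ fun h => hij (e.injective (Subtype.ext h))).mono Set.inter_subset_left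
    Set.inter_subset_left

theorem f1a_union : ∀ {n : ℕ} {S T : Set M}, DM G S → DM G T → RkM G n (S ∪ T) →
    RkM G n S ∨ RkM G n T
  | 0, S, T, _, _, h => Set.union_nonempty.1 h
  | n + 1, S, T, hS, hT, h => by
    obtain ⟨f, h1, h2, h3⟩ := h
    have h4 : ∀ i, RkM G n (f i ∩ S) ∨ RkM G n (f i ∩ T) := by
      intro i
      apply f1a_union (f1a_dm_inter (h1 i) hS) (f1a_dm_inter (h1 i) hT)
      rw [← Set.inter_union_distrib_left, Set.inter_eq_left.2 (h3 i).1]
      exact (h3 i).2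
    by_cases hinf : {i | RkM G n (f i ∩ S)}.Infinite
    · exact Or.inl (f1a_sub h1 hS h2 hinf)
    · right
      apply f1a_sub h1 hT h2
      rw [Set.not_infinite] at hinf
      refine hinf.infinite_compl.mono fun i hi => ?_
      exact (h4 i).resolve_left hi

theorem f1a_finset {ι : Type} {F : Finset M} (J : Finset ι) (A : ι → Set M)
    (hA : ∀ j ∈ J, f1aInv G F (A j)) {n : ℕ} {S : Set M} (hS : RkM G n S)
    (hsub : ∀ s ∈ S, ∃ j ∈ J, s ∈ A j) : ∃ j ∈ J, RkM G n (A j) := by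
  classical
  induction J using Finset.induction_on generalizing S with
  | empty =>
    obtain ⟨s, hs⟩ := f1a_nonempty hS
    obtain ⟨j, hj, -⟩ := hsub s hs
    exact absurd hj (Finset.notMem_empty j)
  | insert a J ha ih =>
    have hB : f1aInv G F {s | ∃ j ∈ J, s ∈ A j} := by
      rintro g hg hx s ⟨j, hj, hs⟩
      exact ⟨j, hj, hA j (Finset.mem_insert_of_mem hj) g hg hx s hs⟩
    have h1 : RkM G n (A a ∪ {s | ∃ j ∈ J, s ∈ A j}) := by
      refine f1a_mono (fun s hs => ?_) hS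
      obtain ⟨j, hj, hs'⟩ := hsub s hs
      rcases Finset.mem_insert.1 hj with rfl | hj
      · exact Or.inl hs'
      · exact Or.inr ⟨j, hj, hs'⟩
    rcases f1a_union (hA a (Finset.mem_insert_self a J)).dm hB.dm h1 with h | h
    · exact ⟨a, Finset.mem_insert_self a J, h⟩
    · obtain ⟨j, hj, hj'⟩ := ih (fun j hj => hA j (Finset.mem_insert_of_mem hj)) h
        (fun s hs => hs)
      exact ⟨j, Finset.mem_insert_of_mem hj, hj'⟩

/-- The orbit of `x` under the pointwise stabiliser of `F`. -/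
def f1aO (G : Subgroup (Equiv.Perm M)) (F : Finset M) (x : M) : Set M :=
  {y | ∃ g ∈ G, (∀ z ∈ F, g z = z) ∧ g x = y}

theorem f1aO_inv (F : Finset M) (x : M) : f1aInv G F (f1aO G F x) := by
  rintro g hg hx _ ⟨a, ha, hax, rfl⟩
  refine ⟨g * a, mul_mem hg ha, fun z hz => ?_, rfl⟩
  rw [Equiv.Perm.mul_apply, hax z hz, hx z hz]

theorem f1aO_symm {F : Finset M} {x y : M} (h : y ∈ f1aO G F x) : x ∈ f1aO G F y := by
  obtain ⟨g, hg, hgx, rfl⟩ := h
  refine ⟨g⁻¹, inv_mem hg, fun z hz => ?_, g.symm_apply_apply x⟩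
  rw [Equiv.Perm.inv_eq_iff_eq]
  exact (hgx z hz).symm

theorem f1aO_trans {F : Finset M} {x y z : M} (h : y ∈ f1aO G F x) (h' : z ∈ f1aO G F y) :
    z ∈ f1aO G F x := by
  obtain ⟨g, hg, hgx, rfl⟩ := h
  obtain ⟨a, ha, hax, rfl⟩ := h'
  refine ⟨a * g, mul_mem ha hg, fun w hw => ?_, rfl⟩
  rw [Equiv.Perm.mul_apply, hgx w hw, hax w hw]

theorem f1a_orbits (olig : ∀ n : ℕ, ∃ S : Finset (Fin n → M), ∀ v : Fin n → M, ∃ s ∈ S, ∃ a ∈ G,
    ∀ i, a (s i) = v i) (F : Finset M) : ∃ R : Finset M, ∀ y, ∃ r ∈ R, y ∈ f1aO G F r := by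
  classical
  obtain ⟨S, hS⟩ := olig (F.card + 1)
  let c : Fin F.card → M := fun i => (F.equivFin.symm i).1
  have hc : ∀ z ∈ F, ∃ i, c i = z := fun z hz => ⟨F.equivFin ⟨z, hz⟩, by simp [c]⟩
  let P : (Fin (F.card + 1) → M) → M → Prop := fun s y =>
    ∃ a ∈ G, (∀ i : Fin F.card, a (s i.castSucc) = c i) ∧ a (s (Fin.last _)) = y
  by_cases hM : Nonempty M
  · obtain ⟨m₀⟩ := hM
    refine ⟨S.image fun s => if h : ∃ y, P s y then h.choose else m₀, fun y => ?_⟩
    obtain ⟨s, hs, a, ha, hav⟩ := hS (Fin.snoc c y : Fin (F.card + 1) → M)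
    have hP : ∃ y, P s y := ⟨y, a, ha, fun i => by rw [hav, Fin.snoc_castSucc], by
      rw [hav, Fin.snoc_last]⟩
    refine ⟨_, Finset.mem_image_of_mem _ hs, ?_⟩
    rw [dif_pos hP]
    obtain ⟨a', ha', h1, h2⟩ := hP.choose_spec
    refine ⟨a * a'⁻¹, mul_mem ha (inv_mem ha'), fun z hz => ?_, ?_⟩
    · obtain ⟨i, rfl⟩ := hc z hz
      rw [Equiv.Perm.mul_apply]
      have h3 : a'⁻¹ (c i) = s i.castSucc := by
        rw [Equiv.Perm.inv_eq_iff_eq]
        exact (h1 i).symm
      rw [h3, hav, Fin.snoc_castSucc]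
    · rw [Equiv.Perm.mul_apply]
      have h3 : a'⁻¹ hP.choose = s (Fin.last _) := by
        rw [Equiv.Perm.inv_eq_iff_eq]
        exact h2.symm
      rw [h3, hav, Fin.snoc_last]
  · exact ⟨∅, fun y => absurd ⟨y⟩ hM⟩

/-- An invariant set of rank at least `n` contains an orbit of rank at least `n`. -/
theorem f1a_orbit (olig : ∀ n : ℕ, ∃ S : Finset (Fin n → M), ∀ v : Fin n → M, ∃ s ∈ S, ∃ a ∈ G,
    ∀ i, a (s i) = v i) {F : Finset M} {S : Set M} (hS : f1aInv G F S) {n : ℕ}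
    (hr : RkM G n S) : ∃ x, f1aO G F x ⊆ S ∧ RkM G n (f1aO G F x) := by
  obtain ⟨R, hR⟩ := f1a_orbits olig F
  obtain ⟨r, -, hr⟩ := f1a_finset (G := G) (F := F) R (fun r => f1aO G F r ∩ S)
    (fun r _ => (f1aO_inv F r).inter hS) hr (fun s hs => by
      obtain ⟨r, hr, hr'⟩ := hR s
      exact ⟨r, hr, hr', hs⟩)
  obtain ⟨y, hy, hyS⟩ := f1a_nonempty hr
  refine ⟨r, ?_, f1a_mono Set.inter_subset_left hr⟩
  intro w hw
  obtain ⟨g, hg, hgx, rfl⟩ := f1aO_trans (f1aO_symm hy) hw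
  exact hS g hg hgx y hyS

/-- Separation of orbits. -/
theorem f1a_sep (k : ℕ) (hka : ∀ (ι : Type) [Finite ι] (x y : ι → M),
      (∀ J : Finset ι, J.card ≤ k + 1 → ∃ a ∈ G, ∀ j ∈ J, a (x j) = y j) →
      ∃ a ∈ G, ∀ j, a (x j) = y j) {F : Finset M} (hF : F.Nonempty) {x y : M}
    (h : y ∉ f1aO G F x) : ∃ c : Fin k → M, (∀ i, c i ∈ F) ∧ y ∉ orb G c x := by
  classical
  by_contra hcon
  push Not at hcon
  obtain ⟨z₀, hz₀⟩ := hF
  obtain ⟨a, ha, hax⟩ := hka (Option F) (fun o => o.elim x (fun z => z.1))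
    (fun o => o.elim y (fun z => z.1)) (by
      intro J hJ
      by_cases hn : none ∈ J
      · set Lst : List M := (J.erase none).toList.map (fun o => o.elim x (fun z => z.1)) with hL
        have hlen : Lst.length ≤ k := by
          rw [hL, List.length_map, Finset.length_toList, Finset.card_erase_of_mem hn]
          omega
        have hLF : ∀ w ∈ Lst, w ∈ F := by
          intro w hw
          rw [hL, List.mem_map] at hw
          obtain ⟨o, ho, rfl⟩ := hw
          rw [Finset.mem_toList, Finset.mem_erase] at ho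
          cases o with
          | none => exact absurd rfl ho.1
          | some z => exact z.2
        obtain ⟨g, hg, hgc, hgx⟩ := hcon (fun i => Lst.getD i z₀) (fun i => by
          by_cases hi : i.1 < Lst.length
          · rw [List.getD_eq_getElem _ _ hi]
            exact hLF _ (List.getElem_mem hi)
          · rw [List.getD_eq_default _ _ (not_lt.1 hi)]
            exact hz₀)
        refine ⟨g, hg, fun o ho => ?_⟩
        cases o with
        | none => exact hgx
        | some z =>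
          have h1 : z.1 ∈ Lst := by
            rw [hL, List.mem_map]
            exact ⟨some z, Finset.mem_toList.2 (Finset.mem_erase.2 ⟨by simp, ho⟩), rfl⟩
          obtain ⟨i, hi, hiz⟩ := List.getElem_of_mem h1
          have h2 := hgc ⟨i, hi.trans_le hlen⟩
          simp only [List.getD_eq_getElem _ _ hi, hiz] at h2
          exact h2
      · refine ⟨1, one_mem G, fun o ho => ?_⟩
        cases o with
        | none => exact absurd ho hn
        | some z => rfl)
  apply h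
  exact ⟨a, ha, fun z hz => hax (some ⟨z, hz⟩), hax none⟩

theorem f1a_orb_inv {k : ℕ} {F : Finset M} {c : Fin k → M} (hc : ∀ i, c i ∈ F) (x : M) :
    f1aInv G F (orb G c x) := by
  rintro g hg hx _ ⟨a, ha, hac, rfl⟩
  refine ⟨g * a, mul_mem hg ha, fun i => ?_, rfl⟩
  rw [Equiv.Perm.mul_apply, hac, hx _ (hc i)]

/-- The condition for the tree of depth `n`. -/
def f1aC (G : Subgroup (Equiv.Perm M)) {k : ℕ} (S : Set M) (n : ℕ) (b : List Bool → (Fin k → M))
    (x : List Bool → M) : Prop :=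
  ∀ β : ℕ → Bool, ∃ y ∈ S, ∀ i < n,
    (y ∈ orb G (b ((List.range i).map β)) (x ((List.range i).map β)) ↔ β i = true)

/-- Finite trees. -/
theorem f1a_tree (olig : ∀ n : ℕ, ∃ S : Finset (Fin n → M), ∀ v : Fin n → M, ∃ s ∈ S, ∃ a ∈ G,
    ∀ i, a (s i) = v i) (k : ℕ) (hka : ∀ (ι : Type) [Finite ι] (x y : ι → M),
      (∀ J : Finset ι, J.card ≤ k + 1 → ∃ a ∈ G, ∀ j ∈ J, a (x j) = y j) →
      ∃ a ∈ G, ∀ j, a (x j) = y j) : ∀ (n : ℕ) (S : Set M), DM G S → RkM G n S →
      ∃ (b : List Bool → (Fin k → M)) (x : List Bool → M), f1aC G S n b x := by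
  classical
  intro n
  induction n with
  | zero =>
    rintro S - hS
    obtain ⟨s, hs⟩ := f1a_nonempty hS
    exact ⟨fun _ _ => s, fun _ => s, fun β => ⟨s, hs, fun i hi => absurd hi (Nat.not_lt_zero i)⟩⟩
  | succ n ih =>
    intro S hS hr
    obtain ⟨s₀, -⟩ := f1a_nonempty hr
    obtain ⟨f, hf1, hf2, hf3⟩ := hr
    obtain ⟨F₀, hF₀⟩ := hS
    obtain ⟨F₁, hF₁⟩ := hf1 0
    obtain ⟨F₂, hF₂⟩ := hf1 1
    set F := insert s₀ (F₀ ∪ (F₁ ∪ F₂)) with hF
    have hFne : F.Nonempty := ⟨s₀, Finset.mem_insert_self _ _⟩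
    have hi0 : f1aInv G F S := f1aInv.mono (F := F₀) (fun z hz => by simp [hF, hz]) hF₀
    have hi1 : f1aInv G F (f 0) := f1aInv.mono (F := F₁) (fun z hz => by simp [hF, hz]) hF₁
    have hi2 : f1aInv G F (f 1) := f1aInv.mono (F := F₂) (fun z hz => by simp [hF, hz]) hF₂
    obtain ⟨x₁, hx1, hx1'⟩ := f1a_orbit olig hi1 (hf3 0).2
    obtain ⟨x₂, hx2, hx2'⟩ := f1a_orbit olig hi2 (hf3 1).2
    have hself : ∀ x : M, x ∈ f1aO G F x := fun x => ⟨1, one_mem G, fun _ _ => rfl, rfl⟩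
    have hne : x₂ ∉ f1aO G F x₁ := fun h =>
      Set.disjoint_left.1 (hf2 0 1 (by decide)) (hx1 h) (hx2 (hself x₂))
    obtain ⟨c, hcF, hc⟩ := f1a_sep k hka hFne hne
    have hinv := f1a_orb_inv (G := G) hcF x₁
    have hA : RkM G n (S ∩ orb G c x₁) := by
      refine f1a_mono (fun w hw => ⟨(hf3 0).1 (hx1 hw), ?_⟩) hx1'
      obtain ⟨g, hg, hgz, rfl⟩ := hw
      exact ⟨g, hg, fun i => hgz _ (hcF i), rfl⟩
    have hB : RkM G n (S ∩ (orb G c x₁)ᶜ) := by
      refine f1a_mono (fun w hw => ⟨(hf3 1).1 (hx2 hw), fun hw' => ?_⟩) hx2'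
      obtain ⟨g, hg, hgz, hgw⟩ := f1aO_symm hw
      apply hc
      rw [← hgw]
      exact hinv g hg hgz w hw'
    obtain ⟨b₁, y₁, h₁⟩ := ih _ (hi0.inter hinv).dm hA
    obtain ⟨b₂, y₂, h₂⟩ := ih _ (hi0.inter hinv.compl).dm hB
    refine ⟨fun l => match l with
      | [] => c
      | true :: l => b₁ l
      | false :: l => b₂ l, fun l => match l with
      | [] => x₁
      | true :: l => y₁ l
      | false :: l => y₂ l, fun β => ?_⟩
    have hsplit : ∀ i, (List.range (i + 1)).map β =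
        β 0 :: (List.range i).map (fun j => β (j + 1)) := by
      intro i
      rw [List.range_succ_eq_map, List.map_cons, List.map_map]
      rfl
    cases hβ : β 0 with
    | true =>
      obtain ⟨y, ⟨hyS, hyo⟩, hy⟩ := h₁ (fun j => β (j + 1))
      refine ⟨y, hyS, fun i hi => ?_⟩
      cases i with
      | zero => simpa [hβ] using hyo
      | succ i =>
        rw [hsplit, hβ]
        exact hy i (by omega)
    | false =>
      obtain ⟨y, ⟨hyS, hyo⟩, hy⟩ := h₂ (fun j => β (j + 1))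
      refine ⟨y, hyS, fun i hi => ?_⟩
      cases i with
      | zero => simpa [hβ] using hyo
      | succ i =>
        rw [hsplit, hβ]
        exact hy i (by omega)

/-- A limit of a sequence of families, up to `G`. -/
theorem f1a_ultra [Nonempty M] (olig : ∀ n : ℕ, ∃ S : Finset (Fin n → M), ∀ v : Fin n → M,
    ∃ s ∈ S, ∃ a ∈ G, ∀ i, a (s i) = v i) (T : ℕ → ℕ → M) :
    ∃ V : ℕ → M, ∀ j N : ℕ, ∃ n, N ≤ n ∧ ∃ g ∈ G, ∀ i < j, T n i = g (V i) := by
  classical
  obtain ⟨m₀⟩ := ‹Nonempty M›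
  let U : Ultrafilter ℕ := Filter.hyperfilter ℕ
  let good : ℕ → (ℕ → M) → Prop := fun j v => ∀ᶠ n in (U : Filter ℕ), ∃ g ∈ G, ∀ i < j,
    T n i = g (v i)
  have step : ∀ (j : ℕ) (v : ℕ → M), good j v → ∃ w, good (j + 1) (Function.update v j w) := by
    intro j v hv
    obtain ⟨R, hR⟩ := f1a_orbits olig ((Finset.range j).image v)
    have h1 : ∀ᶠ n in (U : Filter ℕ), ∃ r ∈ (R : Set M), ∃ g ∈ G, ∀ i < j + 1,
        T n i = g (Function.update v j r i) := by
      filter_upwards [hv] with n hn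
      obtain ⟨g, hg, hgi⟩ := hn
      obtain ⟨r, hr, a, ha, haF, har⟩ := hR (g⁻¹ (T n j))
      refine ⟨r, hr, g * a, mul_mem hg ha, fun i hi => ?_⟩
      rcases Nat.lt_succ_iff_lt_or_eq.1 hi with hi | rfl
      · rw [Function.update_of_ne hi.ne, Equiv.Perm.mul_apply,
          haF _ (Finset.mem_image_of_mem v (Finset.mem_range.2 hi)), hgi i hi]
      · rw [Function.update_self, Equiv.Perm.mul_apply, har]
        exact (g.apply_symm_apply _).symm
    rw [Ultrafilter.eventually_exists_mem_iff R.finite_toSet] at h1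
    obtain ⟨r, -, hr⟩ := h1
    exact ⟨r, hr⟩
  choose! w hw using step
  let Vs : ℕ → (ℕ → M) := fun j => Nat.rec (fun _ => m₀) (fun j v => Function.update v j (w j v)) j
  have hVs : ∀ j, Vs (j + 1) = Function.update (Vs j) j (w j (Vs j)) := fun j => rfl
  have hgood : ∀ j, good j (Vs j) := by
    intro j
    induction j with
    | zero => exact Filter.Eventually.of_forall fun n => ⟨1, one_mem G, fun i hi =>
        absurd hi (Nat.not_lt_zero i)⟩
    | succ j ih => exact hw j _ ih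
  have hst : ∀ j i, i < j → Vs j i = Vs (i + 1) i := by
    intro j
    induction j with
    | zero => intro i hi; exact absurd hi (Nat.not_lt_zero i)
    | succ j ih =>
      intro i hi
      rcases Nat.lt_succ_iff_lt_or_eq.1 hi with hi | rfl
      · rw [hVs, Function.update_of_ne hi.ne, ih i hi]
      · rfl
  refine ⟨fun i => Vs (i + 1) i, fun j N => ?_⟩
  have h2 : ∀ᶠ n in (U : Filter ℕ), N ≤ n :=
    (Nat.hyperfilter_le_atTop : (Filter.hyperfilter ℕ : Filter ℕ) ≤ Filter.atTop)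
      (Filter.eventually_ge_atTop N)
  obtain ⟨n, hn, g, hg, hgi⟩ := (h2.and (hgood j)).exists
  exact ⟨n, hn, g, hg, fun i hi => by rw [hgi i hi, hst j i hi]⟩

theorem f1a_orb_conj {k : ℕ} {g : Equiv.Perm M} (hg : g ∈ G) {c : Fin k → M} {x y : M}
    (h : y ∈ orb G (fun i => g (c i)) (g x)) : g⁻¹ y ∈ orb G c x := by
  obtain ⟨a, ha, hac, rfl⟩ := h
  refine ⟨g⁻¹ * a * g, mul_mem (mul_mem (inv_mem hg) ha) hg, fun i => ?_, rfl⟩
  rw [Equiv.Perm.mul_apply, Equiv.Perm.mul_apply, hac]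
  exact g.symm_apply_apply _

theorem f1a_orb_conj' {k : ℕ} {g : Equiv.Perm M} (hg : g ∈ G) {c : Fin k → M} {x y : M}
    (h : g⁻¹ y ∈ orb G c x) : y ∈ orb G (fun i => g (c i)) (g x) := by
  obtain ⟨a, ha, hac, hax⟩ := h
  refine ⟨g * a * g⁻¹, mul_mem (mul_mem hg ha) (inv_mem hg), fun i => ?_, ?_⟩
  · have h1 : g⁻¹ (g (c i)) = c i := g.symm_apply_apply _
    rw [Equiv.Perm.mul_apply, Equiv.Perm.mul_apply, h1, hac]
  · have h1 : g⁻¹ (g x) = x := g.symm_apply_apply _
    rw [Equiv.Perm.mul_apply, Equiv.Perm.mul_apply, h1, hax]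
    exact g.apply_symm_apply _

theorem tree_of_rank {M : Type} [Countable M] (G : Subgroup (Equiv.Perm M)) (k : ℕ)
    (olig : ∀ n : ℕ, ∃ S : Finset (Fin n → M), ∀ v : Fin n → M, ∃ s ∈ S, ∃ a ∈ G,
      ∀ i, a (s i) = v i)
    (hka : ∀ (ι : Type) [Finite ι] (x y : ι → M),
      (∀ J : Finset ι, J.card ≤ k + 1 → ∃ a ∈ G, ∀ j ∈ J, a (x j) = y j) →
      ∃ a ∈ G, ∀ j, a (x j) = y j)
    (hrk : ∀ n, RkM G n (Set.univ : Set M)) :
    ∃ (b : List Bool → (Fin k → M)) (x : List Bool → M), ∀ (β : ℕ → Bool) (n : ℕ), ∃ y : M,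
      ∀ i < n, (y ∈ orb G (b ((List.range i).map β)) (x ((List.range i).map β)) ↔ β i = true) := by
  classical
  have hne : Nonempty M := by
    obtain ⟨m, -⟩ := f1a_nonempty (hrk 0)
    exact ⟨m⟩
  have hDM : DM G (Set.univ : Set M) := ⟨∅, fun _ _ _ _ _ => Set.mem_univ _⟩
  choose b x hbx using fun n => f1a_tree olig k hka n Set.univ hDM (hrk n)
  let T : ℕ → ℕ → M := fun n m =>
    match (Encodable.decode m : Option (List Bool × Option (Fin k))) with
    | some (l, some i) => b n l i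
    | some (l, none) => x n l
    | none => Classical.choice hne
  have hT1 : ∀ n l i, T n (Encodable.encode ((l, some i) : List Bool × Option (Fin k))) =
      b n l i := by
    intro n l i
    simp only [T, Encodable.encodek]
  have hT2 : ∀ n l, T n (Encodable.encode ((l, none) : List Bool × Option (Fin k))) =
      x n l := by
    intro n l
    simp only [T, Encodable.encodek]
  obtain ⟨V, hV⟩ := f1a_ultra olig T
  refine ⟨fun l i => V (Encodable.encode ((l, some i) : List Bool × Option (Fin k))),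
    fun l => V (Encodable.encode ((l, none) : List Bool × Option (Fin k))), fun β n => ?_⟩
  -- a bound for the codes
  obtain ⟨j, hj⟩ : ∃ j, ∀ l : List Bool, l.length < n → ∀ o : Option (Fin k),
      Encodable.encode ((l, o) : List Bool × Option (Fin k)) < j := by
    have hfin : Set.Finite {p : List Bool × Option (Fin k) | p.1.length < n} := by
      refine ((List.finite_length_lt Bool n).prod (Set.finite_univ (α := Option (Fin k)))).subset ?_
      rintro ⟨l, o⟩ hl
      exact ⟨hl, Set.mem_univ _⟩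
    obtain ⟨B, hB⟩ := (hfin.image Encodable.encode).bddAbove
    refine ⟨B + 1, fun l hl o => Nat.lt_succ_of_le (hB ⟨(l, o), hl, rfl⟩)⟩
  obtain ⟨m, hm, g, hg, hgi⟩ := hV j n
  obtain ⟨y, -, hy⟩ := hbx m β
  refine ⟨g⁻¹ y, fun i hi => ?_⟩
  rw [← hy i (hi.trans_le hm)]
  set l := (List.range i).map β with hl
  have hll : l.length < n := by rw [hl, List.length_map, List.length_range]; exact hi
  have h1 : b m l = fun i => g (V (Encodable.encode ((l, some i) : List Bool × Option (Fin k)))) := by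
    funext i
    rw [← hT1, hgi _ (hj l hll _)]
  have h2 : x m l = g (V (Encodable.encode ((l, none) : List Bool × Option (Fin k)))) := by
    rw [← hT2, hgi _ (hj l hll _)]
  rw [h1, h2]
  exact ⟨fun h => f1a_orb_conj' hg h, fun h => f1a_orb_conj hg h⟩

end Pool.Agent.Helper596_Q
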