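import Mathlib
import Pool.Agent.Helper596_Q.A3
import Pool.Agent.Helper596_Q.F1a

/-!
# Finite rank of the group from finite rank of the structure
-/

set_option autoImplicit false

namespace Pool.Agent.Helper596_Q

section
variable {A : Type} [Group A] (O : OSys A)


end


/-- The open subgroups of a permutation group with finitely many orbits on tuples. -/
def osysM {M : Type} (G : Subgroup (Equiv.Perm M))
    (ol : ∀ n : ℕ, ∃ S : Finset (Fin n → M), ∀ v : Fin n → M, ∃ s ∈ S, ∃ a ∈ G,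
      ∀ i, a (s i) = v i) : OSys ↥G where
  Opn V := ∃ F : Finset M, stb ↥G F ≤ V
  opn_top := ⟨∅, le_top⟩
  opn_inf := by
    classical
    rintro V W ⟨F, hF⟩ ⟨F', hF'⟩
    exact ⟨F ∪ F', le_inf (fun a ha => hF (fun x hx => ha x (Finset.mem_union_left _ hx)))
      (fun a ha => hF' (fun x hx => ha x (Finset.mem_union_right _ hx)))⟩
  opn_mono := by
    rintro V W ⟨F, hF⟩ h
    exact ⟨F, hF.trans h⟩
  opn_cj := by
    classical
    rintro V g ⟨F, hF⟩
    refine ⟨F.image (fun x => g • x), fun a ha => ?_⟩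
    rw [mem_cj]
    refine hF (fun x hx => ?_)
    have := ha (g • x) (Finset.mem_image_of_mem _ hx)
    rw [mul_smul, mul_smul, this, inv_smul_smul]
  dc := by
    classical
    rintro V W ⟨F, hF⟩ ⟨F', hF'⟩
    obtain ⟨tup, htup⟩ : ∃ tup : ↥G → Fin (F.card + F'.card) → M, tup = fun (g : ↥G) =>
      Fin.append (fun i => ((F.equivFin.symm i : F) : M))
        (fun i => (g : Equiv.Perm M) ((F'.equivFin.symm i : F') : M)) := ⟨_, rfl⟩
    have h1 : ∀ g : ↥G, ∀ x ∈ F, ∃ i, ∀ h : ↥G, tup h i = x := by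
      intro g x hx
      refine ⟨Fin.castAdd _ (F.equivFin ⟨x, hx⟩), fun h => ?_⟩
      rw [htup]
      simp
    have h2 : ∀ x ∈ F', ∃ i, ∀ h : ↥G, tup h i = (h : Equiv.Perm M) x := by
      intro x hx
      refine ⟨Fin.natAdd _ (F'.equivFin ⟨x, hx⟩), fun h => ?_⟩
      rw [htup]
      simp
    obtain ⟨S, hS⟩ := ol (F.card + F'.card)
    refine ⟨S.image (fun s => if h : ∃ g : ↥G, ∃ a ∈ G, ∀ i, a (s i) = tup g i then h.choose
      else 1), fun g => ?_⟩
    obtain ⟨s, hsS, a, haG, ha⟩ := hS (tup g)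
    have hex : ∃ g : ↥G, ∃ a ∈ G, ∀ i, a (s i) = tup g i := ⟨g, a, haG, ha⟩
    refine ⟨_, Finset.mem_image_of_mem _ hsS, ?_⟩
    rw [dif_pos hex]
    obtain ⟨b, hbG, hb⟩ := hex.choose_spec
    set h := hex.choose with hh
    have hc : ∀ i, (b * a⁻¹) (tup g i) = tup h i := by
      intro i
      rw [← ha, ← hb]
      simp [Equiv.Perm.mul_apply]
    obtain ⟨c, hcdef⟩ : ∃ c : ↥G, c = ⟨b * a⁻¹, G.mul_mem hbG (G.inv_mem haG)⟩ := ⟨_, rfl⟩
    have hc' : ∀ i, (c : Equiv.Perm M) (tup g i) = tup h i := by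
      intro i
      rw [hcdef]
      exact hc i
    have hcV : c ∈ V := by
      refine hF (fun x hx => ?_)
      obtain ⟨i, hi⟩ := h1 g x hx
      have := hc' i
      rw [hi, hi] at this
      exact this
    have hwW : h⁻¹ * c * g ∈ W := by
      refine hF' (fun x hx => ?_)
      obtain ⟨i, hi⟩ := h2 x hx
      have := hc' i
      rw [hi, hi] at this
      rw [mul_smul, mul_smul, inv_smul_eq_iff]
      exact this
    refine ⟨c⁻¹, V.inv_mem hcV, h⁻¹ * c * g, hwW, ?_⟩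
    group

theorem RkM_mono {M : Type} (G : Subgroup (Equiv.Perm M)) {n : ℕ} {S T : Set M} (h : S ⊆ T)
    (hS : RkM G n S) : RkM G n T := by
  cases n with
  | zero => exact Set.Nonempty.mono h hS
  | succ n =>
    obtain ⟨f, h1, h2, h3⟩ := hS
    exact ⟨f, h1, h2, fun i => ⟨(h3 i).1.trans h, (h3 i).2⟩⟩

theorem osysM_opn {M : Type} (G : Subgroup (Equiv.Perm M))
    (ol : ∀ n : ℕ, ∃ S : Finset (Fin n → M), ∀ v : Fin n → M, ∃ s ∈ S, ∃ a ∈ G,
      ∀ i, a (s i) = v i) (V : Subgroup ↥G) :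
    (osysM G ol).Opn V ↔ ∃ F : Finset M, stb ↥G F ≤ V := Iff.rfl

theorem RkM_of_Rk {M : Type} (G : Subgroup (Equiv.Perm M))
    (ol : ∀ n : ℕ, ∃ S : Finset (Fin n → M), ∀ v : Fin n → M, ∃ s ∈ S, ∃ a ∈ G,
      ∀ i, a (s i) = v i) (m : M) (n : ℕ) : ∀ S : Set ↥G, Rk (osysM G ol) (stb ↥G {m}) n S →
      RkM G n {y | ∃ g ∈ S, g • m = y} := by
  induction n with
  | zero =>
    rintro S ⟨g, hg⟩
    exact ⟨g • m, g, hg, rfl⟩
  | succ n ih =>
    rintro S ⟨f, h1, h2, h3⟩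
    refine ⟨fun i => {y | ∃ g ∈ f i, g • m = y}, fun i => ?_, fun i j hij => ?_, fun i => ⟨?_, ?_⟩⟩
    · obtain ⟨-, W, hWo, hW⟩ := h1 i
      obtain ⟨F, hF⟩ := (osysM_opn G ol W).1 hWo
      refine ⟨F, fun g hg hgF s hs => ?_⟩
      obtain ⟨h, hh, rfl⟩ := hs
      have hgW : (⟨g, hg⟩ : ↥G) ∈ W := hF (fun x hx => hgF x hx)
      exact ⟨⟨g, hg⟩ * h, hW _ hgW _ hh, by rw [mul_smul]; rfl⟩
    · rw [Set.disjoint_left]
      rintro y ⟨g, hg, hgy⟩ ⟨h, hh, hhy⟩
      have hmem : g⁻¹ * h ∈ stb ↥G ({m} : Finset M) := by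
        intro x hx
        rw [Finset.mem_singleton] at hx
        subst hx
        rw [mul_smul, hhy, ← hgy, inv_smul_smul]
      have h4 := (h1 i).1 g hg _ hmem
      rw [mul_inv_cancel_left] at h4
      exact Set.disjoint_left.1 (h2 i j hij) h4 hh
    · rintro y ⟨g, hg, rfl⟩
      exact ⟨g, (h3 i).1 hg, rfl⟩
    · exact ih _ (h3 i).2

theorem stb_insert' {A M : Type} [Group A] [MulAction A M] [DecidableEq M] (m : M) (F : Finset M) :
    stb A (insert m F) = stb A F ⊓ stb A {m} := by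
  ext a
  rw [Subgroup.mem_inf, mem_stb, mem_stb, mem_stb]
  constructor
  · intro h
    exact ⟨fun x hx => h x (Finset.mem_insert_of_mem hx), fun x hx => by
      rw [Finset.mem_singleton] at hx
      subst hx
      exact h _ (Finset.mem_insert_self _ _)⟩
  · rintro ⟨h1, h2⟩ x hx
    rcases Finset.mem_insert.1 hx with rfl | hx
    · exact h2 _ (Finset.mem_singleton_self _)
    · exact h1 x hx

theorem fr_stb {M : Type} (G : Subgroup (Equiv.Perm M))
    (ol : ∀ n : ℕ, ∃ S : Finset (Fin n → M), ∀ v : Fin n → M, ∃ s ∈ S, ∃ a ∈ G,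
      ∀ i, a (s i) = v i) (N : ℕ) (h : ¬ RkM G N (Set.univ : Set M)) (F : Finset M) :
    ∃ n, ¬ Rk (osysM G ol) (stb ↥G F) n (Set.univ : Set ↥G) := by
  classical
  induction F using Finset.induction_on with
  | empty =>
    refine ⟨1, ?_⟩
    rintro ⟨f, h1, h2, h3⟩
    obtain ⟨s0, hs0⟩ := (h3 0).2
    obtain ⟨s1, hs1⟩ := (h3 1).2
    have h4 := (h1 0).1 s0 hs0 (s0⁻¹ * s1) (fun x hx => absurd hx (Finset.notMem_empty x))
    rw [mul_inv_cancel_left] at h4
    exact Set.disjoint_left.1 (h2 0 1 (by norm_num)) h4 hs1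
  | insert m F _ ih =>
    obtain ⟨a, ha⟩ := ih
    rw [stb_insert']
    have hV : (osysM G ol).Opn (stb ↥G F) := (osysM_opn G ol _).2 ⟨F, le_rfl⟩
    have hm : (osysM G ol).Opn (stb ↥G {m}) := (osysM_opn G ol _).2 ⟨{m}, le_rfl⟩
    have hU : (osysM G ol).Opn (stb ↥G F ⊓ stb ↥G {m}) := (osysM G ol).opn_inf hV hm
    have hN : ¬ Rk (osysM G ol) (stb ↥G F ⊓ stb ↥G {m}) N (stb ↥G F : Set ↥G) := by
      intro h5
      have h6 := (orb_level (osysM G ol) hm hV N).2 h5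
      exact h (RkM_mono G (Set.subset_univ _) (RkM_of_Rk G ol m N _ h6))
    refine ⟨a + N, fun h7 => ?_⟩
    obtain ⟨n, k, hnk, h8, h9⟩ := (rk_add (osysM G ol) hU hV inf_le_left
      (dfn_univ (osysM G ol) _) (a + N)).1 h7
    rcases Nat.lt_or_ge n a with hlt | hge
    · exact hN (rk_le _ (by omega) h9)
    · exact ha (rk_le _ hge h8)

theorem fr_of_rkM {M : Type} (G : Subgroup (Equiv.Perm M))
    (ol : ∀ n : ℕ, ∃ S : Finset (Fin n → M), ∀ v : Fin n → M, ∃ s ∈ S, ∃ a ∈ G,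
      ∀ i, a (s i) = v i) (N : ℕ) (h : ¬ RkM G N (Set.univ : Set M)) : FR (osysM G ol) := by
  intro U hUo
  obtain ⟨F, hF⟩ := (osysM_opn G ol U).1 hUo
  obtain ⟨n, hn⟩ := fr_stb G ol N h F
  exact ⟨n, fun h1 => hn (rk_level _ hF h1)⟩

end Pool.Agent.Helper596_Q
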