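import Mathlib
import Pool.Agent.Helper596_Q.Base

/-!
# Algebraic closure: first facts and definitions of irreducible elements
-/

set_option autoImplicit false

namespace Pool.Agent.Helper596_Q

section
variable {A : Type*} [Group A] (R : RSys A)

variable {R} in
theorem ac_of_le {E X : Subgroup A} (h : X ≤ E) : Ac R E X := by
  unfold Ac
  rw [inf_eq_left.2 h]

variable {R} in
theorem Ac.trans {E X Y : Subgroup A} (hE : R.Opn E) (hX : R.Opn X) (hY : R.Opn Y)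
    (h : Ac R E X) (h' : Ac R X Y) : Ac R E Y := by
  unfold Ac at *
  have h1 := R.r_sub hY hE hX
  have h2 : R.r (Y ⊓ E) ≤ R.r (Y ⊓ E ⊓ X) :=
    R.r_mono (R.opn_inf (R.opn_inf hY hE) hX) (R.opn_inf hY hE) inf_le_left
  have h3 : R.r Y ≤ R.r (Y ⊓ E) := R.r_mono (R.opn_inf hY hE) hY inf_le_left
  rw [inf_comm E X, h, h'] at h1
  omega

variable {R} in
theorem Ac.inf {E F X : Subgroup A} (hE : R.Opn E) (hF : R.Opn F) (hX : R.Opn X)
    (h : Ac R E X) (h' : Ac R F X) : Ac R (E ⊓ F) X := by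
  unfold Ac at *
  have h1 := R.r_sub hE hF hX
  have h3 : R.r X ≤ R.r (X ⊓ (E ⊓ F)) :=
    R.r_mono (R.opn_inf hX (R.opn_inf hE hF)) hX inf_le_left
  rw [inf_comm E X, inf_comm F X, h, h', inf_comm (E ⊓ F) X] at h1
  omega

variable {R} in
theorem Ac.of_le {E X Y : Subgroup A} (hE : R.Opn E) (hX : R.Opn X) (hY : R.Opn Y)
    (h : Ac R E X) (hYX : Y ≤ X) : Ac R E Y :=
  h.trans hE hX hY (ac_of_le hYX)

variable {R} in
theorem Ac.weaken {E F X : Subgroup A} (hE : R.Opn E) (hF : R.Opn F) (hX : R.Opn X)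
    (h : Ac R E X) (hEF : E ≤ F) : Ac R F X :=
  (ac_of_le hEF).trans hF hE hX h

variable {R} in
theorem ac_cj {E X : Subgroup A} (hE : R.Opn E) (hX : R.Opn X) (g : A) :
    Ac R (cj g E) (cj g X) ↔ Ac R E X := by
  unfold Ac
  rw [← cj_inf, R.r_cj g _ (R.opn_inf hX hE), R.r_cj g _ hX]

variable {R} in
/-- Adding something algebraic does not change the rank. -/
theorem Ac.r_inf {E X Z : Subgroup A} (hE : R.Opn E) (hX : R.Opn X) (hZ : R.Opn Z)
    (h : Ac R E X) : R.r (Z ⊓ X ⊓ E) = R.r (Z ⊓ X) := by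
  have := h.of_le hE hX (R.opn_inf hZ hX) inf_le_right
  exact this

variable {R} in
theorem Ac.le {E X : Subgroup A} (hE : R.Opn E) (hX : R.Opn X) (h : Ac R E X) :
    R.r E ≤ R.r X := by
  unfold Ac at h
  rw [← h]
  exact R.r_mono (R.opn_inf hX hE) hE inf_le_right

/-- The two consequences of `k`-arity used from here on. -/
structure OB : Prop where
  triv : Triv R
  one : ∀ P Q : Subgroup A, R.Opn P → R.Opn Q →
    ∃ E, R.Opn E ∧ Ac R E P ∧ Ac R E Q ∧ R.r (P ⊓ Q) + R.r E = R.r P + R.r Q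

/-- Interalgebraic. -/
def Cm (D D' : Subgroup A) : Prop := Ac R D D' ∧ Ac R D' D

/-- Irreducible. -/
def Irr (D : Subgroup A) : Prop :=
  R.Opn D ∧ ¬ Ac R D ⊤ ∧ ∀ E F : Subgroup A, R.Opn E → R.Opn F → Ac R E D → Ac R F D →
    Ac R D (E ⊓ F) → Ac R D E ∨ Ac R D F

/-- `C` is the lower cover of the irreducible `D`. -/
def Cov (C D : Subgroup A) : Prop :=
  R.Opn C ∧ Ac R C D ∧ ¬ Ac R D C ∧ R.r D = R.r C + 1 ∧
    ∀ E : Subgroup A, R.Opn E → Ac R E D → Ac R D E ∨ Ac R E C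

/-- Same lower cover and same strong type over it. -/
def Sim (D D' : Subgroup A) : Prop :=
  ∃ C : Subgroup A, Cov R C D ∧ Cov R C D' ∧
    ∀ E : Subgroup A, R.Opn E → Ac R E C → ∃ g ∈ E, Cm R (cj g D) D'

variable {R} in
theorem Cm.symm {D D' : Subgroup A} (h : Cm R D D') : Cm R D' D := ⟨h.2, h.1⟩

variable {R} in
theorem Cm.refl (D : Subgroup A) : Cm R D D := ⟨ac_of_le le_rfl, ac_of_le le_rfl⟩

variable {R} in
theorem Cm.trans {D D' D'' : Subgroup A} (h1 : R.Opn D) (h2 : R.Opn D') (h3 : R.Opn D'')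
    (h : Cm R D D') (h' : Cm R D' D'') : Cm R D D'' :=
  ⟨h.1.trans h1 h2 h3 h'.1, h'.2.trans h3 h2 h1 h.2⟩

variable {R} in
theorem Cm.cj {D D' : Subgroup A} (h1 : R.Opn D) (h2 : R.Opn D') (g : A) :
    Cm R (cj g D) (cj g D') ↔ Cm R D D' := by
  unfold Cm
  rw [ac_cj h1 h2, ac_cj h2 h1]

end

end Pool.Agent.Helper596_Q
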