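import Mathlib
import Pool.Agent.Helper596_Q.Base

/-!
# No large minimal dependent families
-/

set_option autoImplicit false

namespace Pool.Agent.Helper596_Q

/-- Adding something algebraic over `B` does not change ranks. -/
theorem r_inf_alg {A : Type} [Group A] (R : RSys A) {W B Z : Subgroup A} (hW : R.Opn W)
    (hB : R.Opn B) (hZ : R.Opn Z) (hWB : W ≤ B) (hr : R.r W = R.r B) :
    R.r (Z ⊓ W) = R.r (Z ⊓ B) := by
  apply le_antisymm
  · have h := R.r_sub hZ hW hB
    have e1 : Z ⊓ W ⊓ B = Z ⊓ W := by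
      rw [inf_assoc, inf_eq_left.2 hWB]
    have e2 : W ⊓ B = W := inf_eq_left.2 hWB
    rw [e1, e2, hr] at h
    omega
  · exact R.r_mono (R.opn_inf hZ hW) (R.opn_inf hZ hB) (inf_le_inf_left Z hWB)

theorem ind_alg {A : Type} [Group A] (R : RSys A) {W B P Q : Subgroup A} (hW : R.Opn W)
    (hB : R.Opn B) (hP : R.Opn P) (hQ : R.Opn Q) (hWB : W ≤ B) (hr : R.r W = R.r B) :
    Ind R.r P Q W ↔ Ind R.r P Q B := by
  unfold Ind
  rw [r_inf_alg R hW hB (R.opn_inf hP hQ) hWB hr, r_inf_alg R hW hB hP hWB hr,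
    r_inf_alg R hW hB hQ hWB hr, hr]

/-- Independence is inherited by sub-tuples. -/
theorem ind_sub {A : Type} [Group A] (R : RSys A) {P X Y W : Subgroup A} (hP : R.Opn P)
    (hX : R.Opn X) (hY : R.Opn Y) (hW : R.Opn W) (hXY : X ≤ Y) (h : Ind R.r P X W) :
    Ind R.r P Y W := by
  unfold Ind at h ⊢
  apply le_antisymm
  · exact R.r_sub hP hY hW
  · have h2 := R.r_sub hP hX (R.opn_inf hY hW)
    have e1 : P ⊓ X ⊓ (Y ⊓ W) = P ⊓ X ⊓ W := by
      rw [← inf_assoc, inf_assoc P X Y, inf_eq_left.2 hXY]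
    have e2 : P ⊓ (Y ⊓ W) = P ⊓ Y ⊓ W := by rw [inf_assoc]
    have e3 : X ⊓ (Y ⊓ W) = X ⊓ W := by
      rw [← inf_assoc, inf_eq_left.2 hXY]
    rw [e1, e2, e3] at h2
    omega

/-- The step between `IndS` and `Ind`. -/
theorem indS_insert {A : Type} [Group A] (R : RSys A) (B : Subgroup A) {ι : Type} [DecidableEq ι]
    (V : ι → Subgroup A) (J : Finset ι) (l : ι) (hl : l ∉ J) (hJ : IndS R B V J) :
    IndS R B V (insert l J) ↔ Ind R.r (V l) (⨅ j ∈ J, V j) B := by
  unfold IndS Ind at *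
  rw [Finset.sum_insert hl, ← hJ, Finset.iInf_insert]
  have e1 : B ⊓ (V l ⊓ ⨅ j ∈ J, V j) = V l ⊓ (⨅ j ∈ J, V j) ⊓ B := inf_comm _ _
  have e2 : B ⊓ V l = V l ⊓ B := inf_comm _ _
  have e3 : (B ⊓ ⨅ j ∈ J, V j) = (⨅ j ∈ J, V j) ⊓ B := inf_comm _ _
  rw [e1, e2, e3]
  constructor
  · intro h
    omega
  · intro h
    omega

theorem no_circ {A : Type} [Group A] (R : RSys A) {M : Type} [MulAction A M]
    (hopn : ∀ V : Subgroup A, R.Opn V ↔ ∃ F : Finset M, stb A F ≤ V) (k : ℕ)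
    (hka : ∀ (ι : Type) [Finite ι] (x y : ι → M),
      (∀ J : Finset ι, J.card ≤ k → ∃ a : A, ∀ j ∈ J, a • x j = y j) →
      ∃ a : A, ∀ j, a • x j = y j)
    (m : ℕ) (hm : k < m) : ¬ Circ R M m := by
  classical
  rintro ⟨B, V, ⟨F₀, hB⟩, hV, hind, hdep⟩
  choose F hF using hV
  have oB : R.Opn B := (hopn B).2 ⟨F₀, hB.ge⟩
  have oV : ∀ j, R.Opn (V j) := fun j => (hopn (V j)).2 ⟨F j, (hF j).ge⟩
  have oX : ∀ J : Finset (Fin m), R.Opn (⨅ j ∈ J, V j) := fun J =>
    R.opn_biInf J V (fun j _ => oV j)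
  let l : Fin m := ⟨0, by omega⟩
  set U : Finset (Fin m) := Finset.univ.erase l with hU
  have hlU : l ∉ U := Finset.notMem_erase _ _
  have hUins : insert l U = Finset.univ := Finset.insert_erase (Finset.mem_univ l)
  have hUne : U ≠ Finset.univ := fun h => hlU (h ▸ Finset.mem_univ l)
  obtain ⟨W, hWB, oW, rW, hSt⟩ := R.r_stat (oV l) oB
  obtain ⟨g, hgW, hgI⟩ := R.r_ext (oV l) (oX U) oW
  have ocg : R.Opn (cj g (V l)) := R.opn_cj g (oV l)
  -- the elements `q`
  have key : ∀ i : Fin m, i ≠ l → ∃ q : A, q ∈ B ∧ (∀ j, j ≠ i → j ≠ l → q ∈ V j) ∧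
      q⁻¹ * g ∈ V l := by
    intro i hi
    set J : Finset (Fin m) := U.erase i with hJ
    have hlJ : l ∉ J := fun h => hlU (Finset.mem_of_mem_erase h)
    have hiJ : i ∉ insert l J := by
      intro h
      rcases Finset.mem_insert.1 h with h | h
      · exact hi h
      · exact Finset.notMem_erase _ _ h
    have hJ1 : IndS R B V J := hind J (fun h => hlJ (h ▸ Finset.mem_univ l))
    have hJ2 : IndS R B V (insert l J) := hind _ (fun h => hiJ (h ▸ Finset.mem_univ i))
    have h1 : Ind R.r (V l) (⨅ j ∈ J, V j) B := (indS_insert R B V J l hlJ hJ1).1 hJ2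
    have oQ : R.Opn (W ⊓ ⨅ j ∈ J, V j) := R.opn_inf oW (oX J)
    have hQ : ∀ P : Subgroup A, Ind R.r P (⨅ j ∈ J, V j) W → Ind R.r P (W ⊓ ⨅ j ∈ J, V j) W := by
      intro P hP
      unfold Ind at hP ⊢
      have e1 : P ⊓ (W ⊓ ⨅ j ∈ J, V j) ⊓ W = P ⊓ (⨅ j ∈ J, V j) ⊓ W := by
        rw [inf_comm W, ← inf_assoc, inf_assoc _ W W, inf_idem]
      have e2 : (W ⊓ ⨅ j ∈ J, V j) ⊓ W = (⨅ j ∈ J, V j) ⊓ W := by
        rw [inf_comm W, inf_assoc, inf_idem]
      rw [e1, e2]
      exact hP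
    have h2 : Ind R.r (cj 1 (V l)) (W ⊓ ⨅ j ∈ J, V j) W := by
      rw [cj_one]
      exact hQ _ ((ind_alg R oW oB (oV l) (oX J) hWB rW).2 h1)
    have h3 : Ind R.r (cj g (V l)) (W ⊓ ⨅ j ∈ J, V j) W := by
      apply hQ
      refine ind_sub R ocg (oX U) (oX J) oW ?_ hgI
      exact biInf_mono (fun j hj => Finset.mem_of_mem_erase hj)
    obtain ⟨q, hq, hq2⟩ := hSt _ oQ inf_le_left 1 W.one_mem g hgW h2 h3
    refine ⟨q, hWB hq.1, ?_, ?_⟩
    · intro j hji hjl
      have : (⨅ j ∈ J, V j) ≤ V j := by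
        apply iInf₂_le
        rw [hJ, Finset.mem_erase, hU, Finset.mem_erase]
        exact ⟨hji, hjl, Finset.mem_univ _⟩
      exact this hq.2
    · simpa using hq2
  -- the global element
  obtain ⟨a, ha⟩ := hka ((F₀ : Set M).Elem ⊕ (Σ j : Fin m, (F j : Set M).Elem))
    (Sum.elim (fun b => b.1) (fun p => p.2.1))
    (Sum.elim (fun b => b.1) (fun p => if p.1 = l then g • p.2.1 else p.2.1)) (by
      intro J hJ
      have : ∃ i : Fin m, ∀ b, (Sum.inr ⟨i, b⟩ : (F₀ : Set M).Elem ⊕ (Σ j : Fin m, (F j : Set M).Elem)) ∉ J := by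
        by_contra hcon
        push Not at hcon
        choose f hf using hcon
        have hinj : Function.Injective (fun i : Fin m =>
            (Sum.inr ⟨i, f i⟩ : (F₀ : Set M).Elem ⊕ (Σ j : Fin m, (F j : Set M).Elem))) := by
          intro i i' h
          have := Sum.inr.inj h
          exact congrArg Sigma.fst this
        have hc := Finset.card_le_card_of_injOn (s := (Finset.univ : Finset (Fin m))) (t := J)
          _ (fun i _ => hf i) hinj.injOn
        rw [Finset.card_univ, Fintype.card_fin] at hc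
        omega
      obtain ⟨i, hi⟩ := this
      by_cases hil : i = l
      · subst hil
        refine ⟨1, ?_⟩
        rintro (b | ⟨j, b⟩) hj
        · simp
        · have : j ≠ l := by
            rintro rfl
            exact hi b hj
          simp [this]
      · obtain ⟨q, hqB, hqV, hql⟩ := key i hil
        refine ⟨q, ?_⟩
        rintro (b | ⟨j, b⟩) hj
        · rw [hB, mem_stb] at hqB
          exact hqB b.1 b.2
        · have hji : j ≠ i := by
            rintro rfl
            exact hi b hj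
          by_cases hjl : j = l
          · subst hjl
            rw [hF l, mem_stb] at hql
            have := hql b.1 b.2
            rw [mul_smul, inv_smul_eq_iff] at this
            simp [this]
          · have := hqV j hji hjl
            rw [hF j, mem_stb] at this
            simpa [hjl] using this b.1 b.2)
  have haB : a ∈ B := by
    rw [hB, mem_stb]
    intro x hx
    exact ha (Sum.inl ⟨x, hx⟩)
  have haV : ∀ j, j ≠ l → a ∈ V j := by
    intro j hj
    rw [hF j, mem_stb]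
    intro x hx
    have := ha (Sum.inr ⟨j, ⟨x, hx⟩⟩)
    simpa [hj] using this
  have hag : a⁻¹ * g ∈ V l := by
    rw [hF l, mem_stb]
    intro x hx
    have := ha (Sum.inr ⟨l, ⟨x, hx⟩⟩)
    rw [mul_smul, inv_smul_eq_iff]
    simpa using this.symm
  have haX : a ∈ (⨅ j ∈ U, V j) := by
    rw [Subgroup.mem_iInf]
    intro j
    rw [Subgroup.mem_iInf]
    intro hj
    exact haV j (Finset.ne_of_mem_erase hj)
  have h4 : Ind R.r (cj g (V l)) (⨅ j ∈ U, V j) B := (ind_alg R oW oB ocg (oX U) hWB rW).1 hgI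
  rw [← cj_congr hag] at h4
  have h5 : Ind R.r (cj a (V l)) (cj a (⨅ j ∈ U, V j)) (cj a B) := by
    rw [cj_of_mem haX, cj_of_mem haB]
    exact h4
  have h6 : Ind R.r (V l) (⨅ j ∈ U, V j) B := (Ind.cj (oV l) (oX U) oB a).1 h5
  apply hdep
  rw [← hUins]
  exact (indS_insert R B V U l hlU (hind U hUne)).2 h6

end Pool.Agent.Helper596_Q
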