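import Mathlib
import Pool.Agent.Helper596_Q.Base

/-!
# Amplification of minimal dependent families
-/

set_option autoImplicit false

namespace Pool.Agent.Helper596_Q

section
variable {A : Type} [Group A]

theorem ca_ind_symm {R : RSys A} {P Q B : Subgroup A} (h : Ind R.r P Q B) : Ind R.r Q P B := by
  unfold Ind at h ⊢
  rw [inf_comm Q P]
  omega

/-- weakening on the right -/
theorem ca_ind_mono {R : RSys A} {P Q Q' B : Subgroup A} (hP : R.Opn P) (hQ : R.Opn Q)
    (hQ' : R.Opn Q') (hB : R.Opn B) (hle : Q ≤ Q') (h : Ind R.r P Q B) : Ind R.r P Q' B := by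
  unfold Ind at h ⊢
  have h1 := R.r_sub (V := P) (W := Q') (B := B) hP hQ' hB
  have h2 := R.r_sub (V := P) (W := Q) (B := Q' ⊓ B) hP hQ (R.opn_inf hQ' hB)
  have e1 : P ⊓ Q ⊓ (Q' ⊓ B) = P ⊓ Q ⊓ B := by
    rw [← inf_assoc, inf_assoc P Q Q', inf_eq_left.2 hle]
  have e2 : P ⊓ (Q' ⊓ B) = P ⊓ Q' ⊓ B := (inf_assoc _ _ _).symm
  have e3 : Q ⊓ (Q' ⊓ B) = Q ⊓ B := by
    rw [← inf_assoc, inf_eq_left.2 hle]
  rw [e1, e2, e3] at h2
  omega

/-- weakening on the left -/
theorem ca_ind_mono_left {R : RSys A} {P P' Q B : Subgroup A} (hP : R.Opn P) (hP' : R.Opn P')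
    (hQ : R.Opn Q) (hB : R.Opn B) (hle : P ≤ P') (h : Ind R.r P Q B) : Ind R.r P' Q B :=
  ca_ind_symm (ca_ind_mono hQ hP hP' hB hle (ca_ind_symm h))

/-- transitivity: `P` independent of `C` over `B` and of `Q` over `B C` -/
theorem ca_ind_trans {R : RSys A} {P Q C B : Subgroup A}
    (h1 : Ind R.r P C B) (h2 : Ind R.r P Q (B ⊓ C)) : Ind R.r P (Q ⊓ C) B := by
  unfold Ind at h1 h2 ⊢
  have e1 : P ⊓ (Q ⊓ C) ⊓ B = P ⊓ Q ⊓ (B ⊓ C) := by
    ext x; simp only [Subgroup.mem_inf]; tauto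
  have e2 : P ⊓ (B ⊓ C) = P ⊓ C ⊓ B := by
    ext x; simp only [Subgroup.mem_inf]; tauto
  have e3 : Q ⊓ C ⊓ B = Q ⊓ (B ⊓ C) := by
    ext x; simp only [Subgroup.mem_inf]; tauto
  have e4 : C ⊓ B = B ⊓ C := inf_comm _ _
  rw [e1, e3]
  rw [e2] at h2
  rw [e4] at h1
  omega

theorem ca_trans_mono {R : RSys A} {P Q C B : Subgroup A} (hP : R.Opn P) (hQ : R.Opn Q)
    (hC : R.Opn C) (hB : R.Opn B)
    (h1 : Ind R.r P C B) (h2 : Ind R.r P Q (B ⊓ C)) : Ind R.r P Q B :=
  ca_ind_mono hP (R.opn_inf hQ hC) hQ hB inf_le_left (ca_ind_trans h1 h2)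

/-- change of base inside the same rank -/
theorem ca_same {R : RSys A} {P W Z : Subgroup A} (hP : R.Opn P) (hW : R.Opn W) (hZ : R.Opn Z)
    (hle : W ≤ Z) (hr : R.r W = R.r Z) : R.r (P ⊓ W) = R.r (P ⊓ Z) := by
  have h1 := R.r_sub (V := P) (W := W) (B := Z) hP hW hZ
  have e1 : P ⊓ W ⊓ Z = P ⊓ W := by rw [inf_assoc, inf_eq_left.2 hle]
  rw [e1, inf_eq_left.2 hle] at h1
  have h2 := R.r_mono (R.opn_inf hP hW) (R.opn_inf hP hZ) (inf_le_inf_left P hle)
  omega

theorem ca_ind_same {R : RSys A} {P Q W Z : Subgroup A} (hP : R.Opn P) (hQ : R.Opn Q)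
    (hW : R.Opn W) (hZ : R.Opn Z) (hle : W ≤ Z) (hr : R.r W = R.r Z) (h : Ind R.r P Q W) :
    Ind R.r P Q Z := by
  unfold Ind at h ⊢
  have h1 := ca_same (R.opn_inf hP hQ) hW hZ hle hr
  have h2 := ca_same hP hW hZ hle hr
  have h3 := ca_same hQ hW hZ hle hr
  omega

theorem ca_cj_biInf {ι : Type*} (g : A) (J : Finset ι) (V : ι → Subgroup A) :
    cj g (⨅ j ∈ J, V j) = ⨅ j ∈ J, cj g (V j) := by
  ext x
  rw [mem_cj]
  simp only [Subgroup.mem_iInf, mem_cj]

/-- the rank of a family is at most the sum of the ranks -/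
theorem ca_le_sum {R : RSys A} {B : Subgroup A} (hB : R.Opn B) {ι : Type}
    {V : ι → Subgroup A} (hV : ∀ j, R.Opn (V j)) (J : Finset ι) :
    (R.r (B ⊓ ⨅ j ∈ J, V j) : ℤ) - R.r B ≤ ∑ j ∈ J, ((R.r (B ⊓ V j) : ℤ) - R.r B) := by
  classical
  induction J using Finset.induction_on with
  | empty => simp
  | insert a J ha ih =>
    rw [Finset.sum_insert ha, Finset.iInf_insert]
    have h := R.r_sub (V := V a) (W := ⨅ j ∈ J, V j) (B := B) (hV a)
      (R.opn_biInf J V (fun j _ => hV j)) hB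
    have e1 : V a ⊓ (⨅ j ∈ J, V j) ⊓ B = B ⊓ (V a ⊓ ⨅ j ∈ J, V j) := inf_comm _ _
    rw [e1, inf_comm (V a) B, inf_comm (⨅ j ∈ J, V j) B] at h
    omega

/-- subfamilies of independent families are independent -/
theorem ca_indS_mono {R : RSys A} {B : Subgroup A} (hB : R.Opn B) {ι : Type}
    {V : ι → Subgroup A} (hV : ∀ j, R.Opn (V j)) {J K : Finset ι} (hJK : J ⊆ K)
    (h : IndS R B V K) : IndS R B V J := by
  classical
  unfold IndS at h ⊢
  have h1 := ca_le_sum (R := R) hB hV J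
  have h2 := ca_le_sum (R := R) hB hV (K \ J)
  have h3 := R.r_sub (V := ⨅ j ∈ J, V j) (W := ⨅ j ∈ K \ J, V j) (B := B)
      (R.opn_biInf J V (fun j _ => hV j)) (R.opn_biInf (K \ J) V (fun j _ => hV j)) hB
  have e : (⨅ j ∈ J, V j) ⊓ (⨅ j ∈ K \ J, V j) = ⨅ j ∈ K, V j := by
    rw [← Finset.iInf_union, Finset.union_sdiff_of_subset hJK]
  rw [e, inf_comm _ B, inf_comm _ B, inf_comm _ B] at h3
  have h4 : ∑ j ∈ K, ((R.r (B ⊓ V j) : ℤ) - R.r B) = ∑ j ∈ J, ((R.r (B ⊓ V j) : ℤ) - R.r B)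
      + ∑ j ∈ K \ J, ((R.r (B ⊓ V j) : ℤ) - R.r B) := by
    rw [add_comm, Finset.sum_sdiff hJK]
  rw [h4] at h
  omega

/-- transport along an equivalence of index types -/
theorem ca_transport {R : RSys A} {M : Type} [MulAction A M] {ι : Type} [Fintype ι]
    [DecidableEq ι] {k : ℕ} (e : Fin k ≃ ι) (B : Subgroup A) (V : ι → Subgroup A)
    (hB : Real A M B) (hV : ∀ j, Real A M (V j))
    (h1 : ∀ J : Finset ι, J ≠ Finset.univ → IndS R B V J) (h2 : ¬ IndS R B V Finset.univ) :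
    Circ R M k := by
  have key : ∀ J : Finset (Fin k), IndS R B (fun j => V (e j)) J ↔
      IndS R B V (J.map e.toEmbedding) := by
    intro J
    unfold IndS
    rw [Finset.sum_map]
    have : (⨅ j ∈ J.map e.toEmbedding, V j) = ⨅ j ∈ J, V (e j) := by
      rw [Finset.map_eq_image, Finset.iInf_finset_image]
      rfl
    rw [this]
    rfl
  refine ⟨B, fun j => V (e j), hB, fun j => hV _, ?_, ?_⟩
  · intro J hJ
    rw [key]
    apply h1
    intro h
    apply hJ
    rw [Finset.eq_univ_iff_forall] at h ⊢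
    intro x
    have := h (e x)
    rw [Finset.mem_map] at this
    obtain ⟨y, hy, hye⟩ := this
    have : y = x := e.injective hye
    rwa [← this]
  · rw [key, Finset.map_univ_equiv]
    exact h2

theorem ca_iInf_disjSum {κ : Type} (J K : Finset κ) (F G : κ → Subgroup A) :
    (⨅ x ∈ J.disjSum K, Sum.elim F G x) = (⨅ j ∈ J, F j) ⊓ ⨅ j ∈ K, G j := by
  ext x
  simp only [Subgroup.mem_inf, Subgroup.mem_iInf, Finset.mem_disjSum]
  constructor
  · intro h
    refine ⟨fun j hj => ?_, fun j hj => ?_⟩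
    · exact h (Sum.inl j) (Or.inl ⟨j, hj, rfl⟩)
    · exact h (Sum.inr j) (Or.inr ⟨j, hj, rfl⟩)
  · rintro ⟨h1, h2⟩ y (⟨j, hj, rfl⟩ | ⟨j, hj, rfl⟩)
    · exact h1 j hj
    · exact h2 j hj

end

section
variable {A : Type} [Group A] (R : RSys A)

/-- The sequence of intersections of conjugates of `D` by elements of `W`. -/
theorem ca_seq {D W : Subgroup A} (hD : R.Opn D) (hW : R.Opn W) :
    ∃ (g : ℕ → A) (X : ℕ → Subgroup A), X 0 = ⊤ ∧ (∀ n, X (n + 1) = X n ⊓ cj (g n) D) ∧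
      (∀ n, g n ∈ W) ∧ (∀ n, R.Opn (X n)) ∧ ∀ n, Ind R.r (cj (g n) D) (X n) W := by
  classical
  have hex : ∀ X : {X : Subgroup A // R.Opn X}, ∃ g ∈ W, Ind R.r (cj g D) X.1 W :=
    fun X => R.r_ext hD X.2 hW
  choose γ hγ1 hγ2 using hex
  let Y : ℕ → {X : Subgroup A // R.Opn X} := fun n =>
    Nat.rec ⟨⊤, R.opn_top⟩ (fun _ X => ⟨X.1 ⊓ cj (γ X) D, R.opn_inf X.2 (R.opn_cj _ hD)⟩) n
  refine ⟨fun n => γ (Y n), fun n => (Y n).1, rfl, fun n => rfl, fun n => hγ1 _,
    fun n => (Y n).2, fun n => hγ2 _⟩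

end

section
variable {A : Type} [Group A] {R : RSys A}

theorem ca_not_all {B c D : Subgroup A} {g : ℕ → A} {X : ℕ → Subgroup A} (hB : R.Opn B)
    (hc : R.Opn c) (hDo : R.Opn D) (hX : ∀ n, R.Opn (X n))
    (hXs : ∀ n, X (n + 1) = X n ⊓ cj (g n) D)
    (hn : ∀ n, ¬ Ind R.r (cj (g n) D) c B) (hall : ∀ n, Ind R.r (cj (g n) D) (X n) B) : False := by
  have hstep : ∀ n, R.r (c ⊓ B ⊓ X (n + 1)) + R.r (B ⊓ X n) + 1 ≤
      R.r (c ⊓ B ⊓ X n) + R.r (B ⊓ X (n + 1)) := by
    intro n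
    have hDn : R.Opn (cj (g n) D) := R.opn_cj _ hDo
    have h1 := R.r_sub (V := c) (W := cj (g n) D) (B := B ⊓ X n) hc hDn (R.opn_inf hB (hX n))
    have e1 : c ⊓ cj (g n) D ⊓ (B ⊓ X n) = c ⊓ B ⊓ X (n + 1) := by
      rw [hXs]; ext x; simp only [Subgroup.mem_inf]; tauto
    have e2 : c ⊓ (B ⊓ X n) = c ⊓ B ⊓ X n := by
      ext x; simp only [Subgroup.mem_inf]; tauto
    have e3 : cj (g n) D ⊓ (B ⊓ X n) = B ⊓ X (n + 1) := by
      rw [hXs]; ext x; simp only [Subgroup.mem_inf]; tauto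
    rw [e1, e2, e3] at h1
    by_contra hcon
    have heq : R.r (c ⊓ B ⊓ X (n + 1)) + R.r (B ⊓ X n) =
      R.r (c ⊓ B ⊓ X n) + R.r (B ⊓ X (n + 1)) := by omega
    apply hn n
    have hI := hall n
    -- `D n` is independent of `c ⊓ X n` over `B`
    have h2 : Ind R.r (cj (g n) D) (X n ⊓ c) B := by
      have e4 : cj (g n) D ⊓ (X n ⊓ c) ⊓ B = c ⊓ B ⊓ X (n + 1) := by
        rw [hXs]; ext x; simp only [Subgroup.mem_inf]; tauto
      have e5 : X n ⊓ c ⊓ B = c ⊓ B ⊓ X n := by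
        ext x; simp only [Subgroup.mem_inf]; tauto
      have e6 : cj (g n) D ⊓ X n ⊓ B = B ⊓ X (n + 1) := by
        rw [hXs]; ext x; simp only [Subgroup.mem_inf]; tauto
      unfold Ind at hI ⊢
      rw [e6, inf_comm (X n) B] at hI
      rw [e4, e5]
      omega
    exact ca_ind_mono hDn (R.opn_inf (hX n) hc) hc hB inf_le_right h2
  have hbound : ∀ n, n + R.r (B ⊓ X 0) + R.r (c ⊓ B ⊓ X n) ≤
      R.r (c ⊓ B ⊓ X 0) + R.r (B ⊓ X n) := by
    intro n
    induction n with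
    | zero => omega
    | succ n ih =>
      have := hstep n
      omega
  have hmono : ∀ n, R.r (B ⊓ X n) ≤ R.r (c ⊓ B ⊓ X n) := by
    intro n
    apply R.r_mono (R.opn_inf (R.opn_inf hc hB) (hX n)) (R.opn_inf hB (hX n))
    exact inf_le_inf_right _ inf_le_right
  have h1 := hbound (R.r (c ⊓ B ⊓ X 0) + 1)
  have h2 := hmono (R.r (c ⊓ B ⊓ X 0) + 1)
  omega

end

theorem circ_amp {A : Type} [Group A] (R : RSys A) {M : Type} [MulAction A M]
    (hopn : ∀ V : Subgroup A, R.Opn V ↔ ∃ F : Finset M, stb A F ≤ V)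
    (m : ℕ) (hm : 3 ≤ m) (h : Circ R M m) : Circ R M (2 * (m - 1)) := by
  classical
  have hopnR : ∀ V : Subgroup A, Real A M V → R.Opn V := by
    rintro V ⟨F, rfl⟩
    exact (hopn _).2 ⟨F, le_refl _⟩
  obtain ⟨B, V, hBR, hVR, hprop, hdep⟩ := h
  have hB := hopnR B hBR
  have hV : ∀ j, R.Opn (V j) := fun j => hopnR _ (hVR j)
  obtain ⟨l⟩ : Nonempty (Fin m) := ⟨⟨0, by omega⟩⟩
  -- open infima
  have hinf : ∀ J : Finset (Fin m), R.Opn (⨅ j ∈ J, V j) := fun J =>
    R.opn_biInf J V (fun j _ => hV j)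
  set c := V l with hcdef
  set D : Subgroup A := ⨅ j ∈ Finset.univ.erase l, V j with hDdef
  have hDo : R.Opn D := hinf _
  have hc : R.Opn c := hV l
  have herase : ∀ i : Fin m, (Finset.univ.erase i : Finset (Fin m)) ≠ Finset.univ := by
    intro i hi
    have := Finset.mem_univ i
    rw [← hi] at this
    exact Finset.notMem_erase i _ this
  -- `D` is not independent of `c` over `B`
  have hDc : ¬ Ind R.r D c B := by
    intro hI
    apply hdep
    have h1 := hprop _ (herase l)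
    unfold IndS at h1 ⊢
    rw [← Finset.insert_erase (Finset.mem_univ l), Finset.sum_insert (Finset.notMem_erase _ _),
      Finset.iInf_insert]
    unfold Ind at hI
    have e1 : D ⊓ c ⊓ B = B ⊓ (V l ⊓ ⨅ j ∈ Finset.univ.erase l, V j) := by
      rw [hcdef, hDdef]; ext x; simp only [Subgroup.mem_inf]; tauto
    rw [e1, inf_comm D B, inf_comm c B] at hI
    rw [← hDdef] at h1 hI ⊢
    rw [← hcdef] at hI ⊢
    omega
  -- the base
  obtain ⟨W, hWle, hWo, hWr, hst⟩ := R.r_stat (V := D) (B := B ⊓ c) hDo (R.opn_inf hB hc)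
  obtain ⟨g, X, hX0, hXs, hgW, hXo, hXI⟩ := ca_seq R hDo hWo
  have hgB : ∀ n, g n ∈ B := fun n => (Subgroup.mem_inf.1 (hWle (hgW n))).1
  have hgc : ∀ n, g n ∈ c := fun n => (Subgroup.mem_inf.1 (hWle (hgW n))).2
  have hnDc : ∀ n, ¬ Ind R.r (cj (g n) D) c B := by
    intro n hI
    apply hDc
    have h1 := (Ind.cj (R := R) (P := D) (Q := c) (B := B) hDo hc hB (g n)).1
    rw [cj_of_mem (hgB n), cj_of_mem (hgc n)] at h1
    exact h1 hI
  have hex : ∃ n, ¬ Ind R.r (cj (g n) D) (X n) B := by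
    by_contra hcon
    push Not at hcon
    exact ca_not_all hB hc hDo hXo hXs hnDc hcon
  let n := Nat.find hex
  have hnn : ¬ Ind R.r (cj (g n) D) (X n) B := Nat.find_spec hex
  have hmin : ∀ k < n, Ind R.r (cj (g k) D) (X k) B := by
    intro k hk
    have := Nat.find_min hex hk
    exact not_not.1 this
  have hn0 : n ≠ 0 := by
    intro h0
    apply hnn
    rw [h0, hX0]
    unfold Ind
    rw [inf_top_eq, top_inf_eq]
  obtain ⟨p, hp⟩ := Nat.exists_eq_succ_of_ne_zero hn0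
  have hp' : n = p + 1 := hp
  clear_value n
  subst hp'
  have hgo : ∀ (a : A) (J : Finset (Fin m)), R.Opn (cj a (⨅ j ∈ J, V j)) := fun a J =>
    R.opn_cj a (hinf J)
  have hDpo : R.Opn (cj (g p) D) := R.opn_cj _ hDo
  have hDno : R.Opn (cj (g (p + 1)) D) := R.opn_cj _ hDo
  have hXle : X (p + 1) ≤ X p := by rw [hXs]; exact inf_le_left
  have hpXB : Ind R.r (cj (g p) D) (X p) B := hmin p (Nat.lt_succ_self p)
  have hpXW : Ind R.r (cj (g p) D) (X p) W := hXI p
  have hnXW' : Ind R.r (cj (g (p + 1)) D) (X (p + 1)) W := hXI (p + 1)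
  have hnXW : Ind R.r (cj (g (p + 1)) D) (X p) W :=
    ca_ind_mono hDno (hXo _) (hXo _) hWo hXle hnXW'
  -- (0)
  have hnXB : Ind R.r (cj (g (p + 1)) D) (X p) B := by
    have hcut : ∀ P : Subgroup A, Ind R.r P (X p) W → Ind R.r P (X p ⊓ W) W := by
      intro P hP
      unfold Ind at hP ⊢
      have e1 : P ⊓ (X p ⊓ W) ⊓ W = P ⊓ X p ⊓ W := by
        ext x; simp only [Subgroup.mem_inf]; tauto
      have e2 : X p ⊓ W ⊓ W = X p ⊓ W := by
        ext x; simp only [Subgroup.mem_inf]; tauto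
      rw [e1, e2]
      exact hP
    obtain ⟨q, hq, hq'⟩ := hst (X p ⊓ W) (R.opn_inf (hXo p) hWo) inf_le_right (g p) (hgW p)
      (g (p + 1)) (hgW (p + 1)) (hcut _ hpXW) (hcut _ hnXW)
    have hqX : q ∈ X p := (Subgroup.mem_inf.1 hq).1
    have hqW : q ∈ W := (Subgroup.mem_inf.1 hq).2
    have hqB : q ∈ B := (Subgroup.mem_inf.1 (hWle hqW)).1
    have e : cj (g (p + 1)) D = cj q (cj (g p) D) := by
      rw [← cj_mul]
      symm
      apply cj_congr
      have : (q * g p)⁻¹ * g (p + 1) = (g p)⁻¹ * q⁻¹ * g (p + 1) := by group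
      rw [this]
      exact hq'
    have h1 := (Ind.cj (R := R) (P := cj (g p) D) (Q := X p) (B := B) hDpo (hXo p) hB q).2 hpXB
    rw [cj_of_mem hqX, cj_of_mem hqB, ← e] at h1
    exact h1
  -- `D (p+1)` and `D p` over `W`
  have hpW : Ind R.r (cj (g p) D) (X p ⊓ cj (g (p + 1)) D) W := by
    unfold Ind at hnXW' hpXW hnXW ⊢
    have e1 : cj (g (p + 1)) D ⊓ X (p + 1) ⊓ W = cj (g p) D ⊓ (X p ⊓ cj (g (p + 1)) D) ⊓ W := by
      rw [hXs]; ext x; simp only [Subgroup.mem_inf]; tauto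
    have e2 : X (p + 1) ⊓ W = cj (g p) D ⊓ X p ⊓ W := by
      rw [hXs]; ext x; simp only [Subgroup.mem_inf]; tauto
    have e3 : X p ⊓ cj (g (p + 1)) D ⊓ W = cj (g (p + 1)) D ⊓ X p ⊓ W := by
      ext x; simp only [Subgroup.mem_inf]; tauto
    rw [e1, e2] at hnXW'
    rw [e3]
    omega
  -- parts of the family without `l`
  have hpart : ∀ (J : Finset (Fin m)), l ∉ J → ∀ a : A, a ∈ B →
      (R.r (B ⊓ cj a (⨅ j ∈ J, V j)) : ℤ) - R.r B = ∑ j ∈ J, ((R.r (B ⊓ V j) : ℤ) - R.r B) := by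
    intro J hJ a ha
    have h1 : IndS R B V J := hprop J (by
      intro h
      apply hJ
      rw [h]
      exact Finset.mem_univ l)
    unfold IndS at h1
    rw [← h1]
    have h2 : B ⊓ cj a (⨅ j ∈ J, V j) = cj a (B ⊓ ⨅ j ∈ J, V j) := by
      rw [cj_inf, cj_of_mem ha]
    rw [h2, R.r_cj _ _ (R.opn_inf hB (hinf J))]
  have hDle : ∀ (J : Finset (Fin m)), l ∉ J → D ≤ ⨅ j ∈ J, V j := by
    intro J hJ
    rw [hDdef]
    refine le_iInf₂ (fun j hj => ?_)
    refine iInf₂_le j (Finset.mem_erase.2 ⟨?_, Finset.mem_univ j⟩)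
    rintro rfl
    exact hJ hj
  -- proper parts are independent of `c` over `B`
  have hpc : ∀ (J : Finset (Fin m)), l ∉ J → insert l J ≠ Finset.univ → ∀ n : ℕ,
      Ind R.r (cj (g n) (⨅ j ∈ J, V j)) c B := by
    intro J hJ hJ' n
    have h1 : Ind R.r (⨅ j ∈ J, V j) c B := by
      have h2 := hprop _ hJ'
      have h3 := hprop J (by
        intro h
        apply hJ
        rw [h]
        exact Finset.mem_univ l)
      unfold IndS at h2 h3
      rw [Finset.sum_insert hJ, Finset.iInf_insert] at h2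
      unfold Ind
      have e1 : (⨅ j ∈ J, V j) ⊓ c ⊓ B = B ⊓ (V l ⊓ ⨅ j ∈ J, V j) := by
        rw [hcdef]; ext x; simp only [Subgroup.mem_inf]; tauto
      rw [e1, inf_comm _ B, inf_comm c B]
      rw [← hcdef] at h2 ⊢
      omega
    have h2 := (Ind.cj (R := R) (P := ⨅ j ∈ J, V j) (Q := c) (B := B) (hinf J) hc hB (g n)).2 h1
    rw [cj_of_mem (hgB n), cj_of_mem (hgc n)] at h2
    exact h2
  have hBc : R.Opn (B ⊓ c) := R.opn_inf hB hc
  -- proper parts of `D (p+1)` are independent of `X (p+1)` over `B`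
  have hpn : ∀ (J : Finset (Fin m)), l ∉ J → insert l J ≠ Finset.univ →
      Ind R.r (cj (g (p + 1)) (⨅ j ∈ J, V j)) (X (p + 1)) B := by
    intro J hJ hJ'
    have h1 := hpc J hJ hJ' (p + 1)
    have h2 : Ind R.r (cj (g (p + 1)) (⨅ j ∈ J, V j)) (X (p + 1)) (B ⊓ c) :=
      ca_ind_mono_left hDno (hgo _ _) (hXo _) hBc (cj_mono (hDle J hJ))
        (ca_ind_same hDno (hXo _) hWo hBc hWle hWr hnXW')
    exact ca_trans_mono (hgo _ _) (hXo _) hc hB h1 h2
  -- proper parts of `D p` are independent of `X p ⊓ D (p+1)` over `B`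
  have hpp : ∀ (J : Finset (Fin m)), l ∉ J → insert l J ≠ Finset.univ →
      Ind R.r (cj (g p) (⨅ j ∈ J, V j)) (X p ⊓ cj (g (p + 1)) D) B := by
    intro J hJ hJ'
    have hXD : R.Opn (X p ⊓ cj (g (p + 1)) D) := R.opn_inf (hXo p) hDno
    have h1 := hpc J hJ hJ' p
    have h2 : Ind R.r (cj (g p) (⨅ j ∈ J, V j)) (X p ⊓ cj (g (p + 1)) D) (B ⊓ c) :=
      ca_ind_mono_left hDpo (hgo _ _) hXD hBc (cj_mono (hDle J hJ))
        (ca_ind_same hDpo hXD hWo hBc hWle hWr hpW)
    exact ca_trans_mono (hgo _ _) hXD hc hB h1 h2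
  -- the new base and family
  set B' : Subgroup A := B ⊓ X p with hB'def
  have hB' : R.Opn B' := R.opn_inf hB (hXo p)
  have hXR : ∀ k, Real A M (X k) := by
    intro k
    induction k with
    | zero => rw [hX0]; exact Real.top M
    | succ k ih =>
      rw [hXs]
      refine ih.inf (Real.cj ?_ _)
      rw [hDdef]
      have : ∀ J : Finset (Fin m), Real A M (⨅ j ∈ J, V j) := by
        intro J
        induction J using Finset.induction_on with
        | empty =>
          simp only [Finset.notMem_empty, iInf_false, iInf_top]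
          exact Real.top M
        | insert a J _ ih =>
          rw [Finset.iInf_insert]
          exact (hVR a).inf ih
      exact this _
  have hB'R : Real A M B' := hBR.inf (hXR p)
  -- relative ranks of parts over `B'`
  have hrelp : ∀ (J : Finset (Fin m)), l ∉ J →
      (R.r (B' ⊓ cj (g p) (⨅ j ∈ J, V j)) : ℤ) - R.r B' =
        ∑ j ∈ J, ((R.r (B ⊓ V j) : ℤ) - R.r B) := by
    intro J hJ
    rw [← hpart J hJ (g p) (hgB p)]
    have h1 : Ind R.r (cj (g p) (⨅ j ∈ J, V j)) (X p) B :=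
      ca_ind_mono_left hDpo (hgo _ _) (hXo _) hB (cj_mono (hDle J hJ)) hpXB
    unfold Ind at h1
    have e1 : cj (g p) (⨅ j ∈ J, V j) ⊓ X p ⊓ B = B' ⊓ cj (g p) (⨅ j ∈ J, V j) := by
      rw [hB'def]; ext x; simp only [Subgroup.mem_inf]; tauto
    rw [e1, inf_comm _ B, inf_comm _ B, ← hB'def] at h1
    omega
  have hreln : ∀ (J : Finset (Fin m)), l ∉ J →
      (R.r (B' ⊓ cj (g (p + 1)) (⨅ j ∈ J, V j)) : ℤ) - R.r B' =
        ∑ j ∈ J, ((R.r (B ⊓ V j) : ℤ) - R.r B) := by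
    intro J hJ
    rw [← hpart J hJ (g (p + 1)) (hgB (p + 1))]
    have h1 : Ind R.r (cj (g (p + 1)) (⨅ j ∈ J, V j)) (X p) B :=
      ca_ind_mono_left hDno (hgo _ _) (hXo _) hB (cj_mono (hDle J hJ)) hnXB
    unfold Ind at h1
    have e1 : cj (g (p + 1)) (⨅ j ∈ J, V j) ⊓ X p ⊓ B = B' ⊓ cj (g (p + 1)) (⨅ j ∈ J, V j) := by
      rw [hB'def]; ext x; simp only [Subgroup.mem_inf]; tauto
    rw [e1, inf_comm _ B, inf_comm _ B, ← hB'def] at h1
    omega
  -- index type
  let κ : Type := {j : Fin m // j ≠ l}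
  let F : κ → Subgroup A := fun j => cj (g p) (V j.1)
  let G : κ → Subgroup A := fun j => cj (g (p + 1)) (V j.1)
  have hlmem : ∀ J : Finset κ, l ∉ J.map (Function.Embedding.subtype _) := by
    intro J h
    rw [Finset.mem_map] at h
    obtain ⟨y, _, hy⟩ := h
    exact y.2 hy
  have hFG : ∀ (a : A) (J : Finset κ), (⨅ j ∈ J, cj a (V j.1)) =
      cj a (⨅ j ∈ J.map (Function.Embedding.subtype _), V j) := by
    intro a J
    rw [ca_cj_biInf, Finset.map_eq_image, Finset.iInf_finset_image]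
    rfl
  have hsingp : ∀ j : κ, (R.r (B' ⊓ F j) : ℤ) - R.r B' = (R.r (B ⊓ V j.1) : ℤ) - R.r B := by
    intro j
    have := hrelp {j.1} (by
      rw [Finset.mem_singleton]
      exact fun h => j.2 h.symm)
    rw [Finset.sum_singleton, Finset.iInf_singleton] at this
    exact this
  have hsingn : ∀ j : κ, (R.r (B' ⊓ G j) : ℤ) - R.r B' = (R.r (B ⊓ V j.1) : ℤ) - R.r B := by
    intro j
    have := hreln {j.1} (by
      rw [Finset.mem_singleton]
      exact fun h => j.2 h.symm)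
    rw [Finset.sum_singleton, Finset.iInf_singleton] at this
    exact this
  have hsum : ∀ J K : Finset κ, ∑ x ∈ J.disjSum K, ((R.r (B' ⊓ Sum.elim F G x) : ℤ) - R.r B') =
      ∑ j ∈ J.map (Function.Embedding.subtype _), ((R.r (B ⊓ V j) : ℤ) - R.r B) +
      ∑ j ∈ K.map (Function.Embedding.subtype _), ((R.r (B ⊓ V j) : ℤ) - R.r B) := by
    intro J K
    rw [Finset.sum_disjSum, Finset.sum_map, Finset.sum_map]
    congr 1
    · exact Finset.sum_congr rfl (fun j _ => hsingp j)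
    · exact Finset.sum_congr rfl (fun j _ => hsingn j)
  have hinfs : ∀ J K : Finset κ, (⨅ x ∈ J.disjSum K, Sum.elim F G x) =
      cj (g p) (⨅ j ∈ J.map (Function.Embedding.subtype _), V j) ⊓
      cj (g (p + 1)) (⨅ j ∈ K.map (Function.Embedding.subtype _), V j) := by
    intro J K
    rw [ca_iInf_disjSum, ← hFG, ← hFG]
  have huniv : (Finset.univ : Finset κ).map (Function.Embedding.subtype _) =
      Finset.univ.erase l := by
    ext j
    simp only [Finset.mem_map, Finset.mem_univ, true_and, Function.Embedding.subtype_apply,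
      Finset.mem_erase, and_true]
    constructor
    · rintro ⟨y, rfl⟩
      exact y.2
    · intro hj
      exact ⟨⟨j, hj⟩, rfl⟩
  have hmiss : ∀ i : κ, insert l ((Finset.univ.erase i : Finset κ).map
      (Function.Embedding.subtype _)) ≠ Finset.univ := by
    intro i h
    have := Finset.mem_univ i.1
    rw [← h, Finset.mem_insert, Finset.mem_map] at this
    rcases this with h1 | ⟨y, hy, hyi⟩
    · exact i.2 h1
    · have : y = i := Subtype.ext hyi
      rw [this] at hy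
      exact Finset.notMem_erase _ _ hy
  have hFGo : ∀ x, R.Opn (Sum.elim F G x) := by
    rintro (j | j)
    · exact R.opn_cj _ (hV _)
    · exact R.opn_cj _ (hV _)
  have hXB' : B' ⊓ cj (g p) D = B ⊓ X (p + 1) := by
    rw [hB'def, hXs, inf_assoc]
  -- (1)
  have hdep' : ¬ IndS R B' (Sum.elim F G) (Finset.univ) := by
    intro hI
    apply hnn
    rw [← Finset.univ_disjSum_univ] at hI
    unfold IndS at hI
    rw [hsum, hinfs, huniv, ← hDdef] at hI
    have h1 := hrelp (Finset.univ.erase l) (Finset.notMem_erase _ _)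
    have h2 := hpart (Finset.univ.erase l) (Finset.notMem_erase _ _) (g (p + 1)) (hgB (p + 1))
    rw [← hDdef] at h1 h2
    rw [hXB'] at h1
    unfold Ind
    have e1 : B' ⊓ (cj (g p) D ⊓ cj (g (p + 1)) D) = cj (g (p + 1)) D ⊓ X (p + 1) ⊓ B := by
      rw [← inf_assoc, hXB']; ext x; simp only [Subgroup.mem_inf]; tauto
    rw [e1] at hI
    rw [inf_comm (cj (g (p + 1)) D) B, inf_comm (X (p + 1)) B]
    omega
  -- (2)
  have hrem1 : ∀ i : κ, IndS R B' (Sum.elim F G) (Finset.univ.disjSum (Finset.univ.erase i)) := by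
    intro i
    unfold IndS
    rw [hsum, hinfs, huniv, ← hDdef]
    have h0 := hpn _ (hlmem (Finset.univ.erase i)) (hmiss i)
    have h1 := hrelp (Finset.univ.erase l) (Finset.notMem_erase _ _)
    have h2 := hpart _ (hlmem (Finset.univ.erase i)) (g (p + 1)) (hgB (p + 1))
    rw [← hDdef, hXB'] at h1
    rw [← h1, ← h2]
    generalize (⨅ j ∈ (Finset.univ.erase i).map (Function.Embedding.subtype _), V j) = D' at h0
    unfold Ind at h0
    have e1 : B' ⊓ (cj (g p) D ⊓ cj (g (p + 1)) D') = cj (g (p + 1)) D' ⊓ X (p + 1) ⊓ B := by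
      rw [← inf_assoc, hXB']; ext x; simp only [Subgroup.mem_inf]; tauto
    rw [inf_comm (cj (g (p + 1)) D') B, inf_comm (X (p + 1)) B] at h0
    rw [e1]
    omega
  -- (3)
  have hrem0 : ∀ i : κ, IndS R B' (Sum.elim F G) ((Finset.univ.erase i).disjSum Finset.univ) := by
    intro i
    unfold IndS
    rw [hsum, hinfs, huniv, ← hDdef]
    have h0 := hpp _ (hlmem (Finset.univ.erase i)) (hmiss i)
    have h1 := hreln (Finset.univ.erase l) (Finset.notMem_erase _ _)
    have h2 := hpart _ (hlmem (Finset.univ.erase i)) (g p) (hgB p)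
    rw [← hDdef] at h1
    rw [← h1, ← h2]
    generalize (⨅ j ∈ (Finset.univ.erase i).map (Function.Embedding.subtype _), V j) = D' at h0
    unfold Ind at h0
    have e1 : B' ⊓ (cj (g p) D' ⊓ cj (g (p + 1)) D) =
        cj (g p) D' ⊓ (X p ⊓ cj (g (p + 1)) D) ⊓ B := by
      rw [hB'def]; ext x; simp only [Subgroup.mem_inf]; tauto
    have e2 : X p ⊓ cj (g (p + 1)) D ⊓ B = B' ⊓ cj (g (p + 1)) D := by
      rw [hB'def]; ext x; simp only [Subgroup.mem_inf]; tauto
    rw [inf_comm (cj (g p) D') B, e2] at h0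
    rw [e1]
    omega
  -- conclusion
  have hcard : Fintype.card (κ ⊕ κ) = 2 * (m - 1) := by
    rw [Fintype.card_sum]
    have : Fintype.card κ = m - 1 := by
      rw [Fintype.card_subtype_compl, Fintype.card_fin, Fintype.card_unique]
    omega
  let e : Fin (2 * (m - 1)) ≃ κ ⊕ κ := (finCongr hcard.symm).trans (Fintype.equivFin _).symm
  refine ca_transport e B' (Sum.elim F G) hB'R ?_ ?_ hdep'
  · rintro (j | j)
    · exact (hVR _).cj _
    · exact (hVR _).cj _
  · intro J hJ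
    have : ∃ x, x ∉ J := by
      by_contra hcon
      push Not at hcon
      exact hJ (Finset.eq_univ_iff_forall.2 hcon)
    obtain ⟨x, hx⟩ := this
    rcases x with i | i
    · refine ca_indS_mono hB' hFGo ?_ (hrem0 i)
      intro y hy
      rw [Finset.mem_disjSum]
      rcases y with j | j
      · left
        refine ⟨j, Finset.mem_erase.2 ⟨?_, Finset.mem_univ _⟩, rfl⟩
        rintro rfl
        exact hx hy
      · right
        exact ⟨j, Finset.mem_univ _, rfl⟩
    · refine ca_indS_mono hB' hFGo ?_ (hrem1 i)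
      intro y hy
      rw [Finset.mem_disjSum]
      rcases y with j | j
      · left
        exact ⟨j, Finset.mem_univ _, rfl⟩
      · right
        refine ⟨j, Finset.mem_erase.2 ⟨?_, Finset.mem_univ _⟩, rfl⟩
        rintro rfl
        exact hx hy

end Pool.Agent.Helper596_Q
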