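import Mathlib
import Pool.Agent.Helper596_Q.Base

/-!
# Triviality
-/

set_option autoImplicit false

namespace Pool.Agent.Helper596_Q

theorem triv_aux_symm {A : Type} [Group A] {r : Subgroup A → ℕ} {P Q B : Subgroup A}
    (h : Ind r P Q B) : Ind r Q P B := by
  unfold Ind at h ⊢
  rw [inf_comm Q P]
  omega

theorem triv_aux_mono {A : Type} [Group A] (R : RSys A) {X Y Y' C : Subgroup A} (hX : R.Opn X)
    (hY : R.Opn Y) (hY' : R.Opn Y') (hC : R.Opn C) (hle : Y' ≤ Y) (h : Ind R.r X Y' C) :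
    Ind R.r X Y C := by
  have h1 := R.r_sub hX hY' (R.opn_inf hY hC)
  have h2 := R.r_sub hX hY hC
  have e1 : X ⊓ Y' ⊓ (Y ⊓ C) = X ⊓ Y' ⊓ C := by
    rw [inf_assoc, ← inf_assoc Y', inf_eq_left.2 hle, ← inf_assoc]
  have e2 : Y' ⊓ (Y ⊓ C) = Y' ⊓ C := by
    rw [← inf_assoc, inf_eq_left.2 hle]
  rw [e1, e2, ← inf_assoc] at h1
  unfold Ind at h ⊢
  omega

theorem triv_aux_trans {A : Type} [Group A] (R : RSys A) {X X' Y C : Subgroup A} (hle : X' ≤ X)
    (h : Ind R.r X' Y (X ⊓ C)) (h' : Ind R.r X Y C) : Ind R.r X' Y C := by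
  have e1 : X' ⊓ Y ⊓ (X ⊓ C) = X' ⊓ Y ⊓ C := by
    rw [inf_comm X' Y, inf_assoc, ← inf_assoc X', inf_eq_left.2 hle, ← inf_assoc]
  have e2 : X' ⊓ (X ⊓ C) = X' ⊓ C := by
    rw [← inf_assoc, inf_eq_left.2 hle]
  have e3 : Y ⊓ (X ⊓ C) = X ⊓ Y ⊓ C := by
    rw [← inf_assoc, inf_comm Y X]
  unfold Ind at h h' ⊢
  rw [e1, e2, e3] at h
  omega

theorem triv_aux_real {A : Type} [Group A] (R : RSys A) {M : Type} [MulAction A M]
    (hopn : ∀ V : Subgroup A, R.Opn V ↔ ∃ F : Finset M, stb A F ≤ V) {V : Subgroup A}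
    (h : Real A M V) : R.Opn V := by
  obtain ⟨F, rfl⟩ := h
  exact (hopn _).2 ⟨F, le_rfl⟩

theorem triv_aux_ext {A : Type} [Group A] (R : RSys A) {M : Type} [MulAction A M]
    (hopn : ∀ V : Subgroup A, R.Opn V ↔ ∃ F : Finset M, stb A F ≤ V) {X W C : Subgroup A}
    (hX : R.Opn X) (hW : R.Opn W) (hC : R.Opn C) :
    ∃ X', X' ≤ X ∧ Real A M X' ∧ Ind R.r X' W (X ⊓ C) := by
  obtain ⟨F, hF⟩ := (hopn X).1 hX
  have hFo : R.Opn (stb A F) := (hopn _).2 ⟨F, le_rfl⟩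
  obtain ⟨g, hg, hI⟩ := R.r_ext hFo hW (R.opn_inf hX hC)
  refine ⟨cj g (stb A F), ?_, Real.cj ⟨F, rfl⟩ g, hI⟩
  have h1 := cj_mono (g := g) hF
  rwa [cj_of_mem (Subgroup.mem_inf.1 hg).1] at h1

theorem triv_aux_key {A : Type} [Group A] (R : RSys A) {M : Type} [MulAction A M]
    (h : ¬ Circ R M 3) {B P Q S : Subgroup A} (hB : Real A M B) (hP : Real A M P)
    (hQ : Real A M Q) (hS : Real A M S) (h1 : Ind R.r P Q B) (h2 : Ind R.r P S B)
    (h3 : Ind R.r Q S B) : Ind R.r P (Q ⊓ S) B := by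
  by_contra hcon
  apply h
  refine ⟨B, ![P, Q, S], hB, ?_, ?_, ?_⟩
  · intro j
    fin_cases j
    · exact hP
    · exact hQ
    · exact hS
  · intro J hJ
    have hcases : J = ∅ ∨ J = {0} ∨ J = {1} ∨ J = {2} ∨ J = {0, 1} ∨ J = {0, 2} ∨ J = {1, 2} := by
      revert J; decide
    unfold Ind at h1 h2 h3
    rcases hcases with rfl | rfl | rfl | rfl | rfl | rfl | rfl
    · simp [IndS]
    · simp [IndS]
    · simp [IndS]
    · simp [IndS]
    · unfold IndS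
      rw [Finset.iInf_insert, Finset.iInf_singleton, Finset.sum_insert (by decide),
        Finset.sum_singleton]
      show (R.r (B ⊓ (P ⊓ Q)) : ℤ) - R.r B = ((R.r (B ⊓ P) : ℤ) - R.r B) + ((R.r (B ⊓ Q) : ℤ) - R.r B)
      rw [inf_comm B (P ⊓ Q), inf_comm B P, inf_comm B Q]
      omega
    · unfold IndS
      rw [Finset.iInf_insert, Finset.iInf_singleton, Finset.sum_insert (by decide),
        Finset.sum_singleton]
      show (R.r (B ⊓ (P ⊓ S)) : ℤ) - R.r B = ((R.r (B ⊓ P) : ℤ) - R.r B) + ((R.r (B ⊓ S) : ℤ) - R.r B)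
      rw [inf_comm B (P ⊓ S), inf_comm B P, inf_comm B S]
      omega
    · unfold IndS
      rw [Finset.iInf_insert, Finset.iInf_singleton, Finset.sum_insert (by decide),
        Finset.sum_singleton]
      show (R.r (B ⊓ (Q ⊓ S)) : ℤ) - R.r B = ((R.r (B ⊓ Q) : ℤ) - R.r B) + ((R.r (B ⊓ S) : ℤ) - R.r B)
      rw [inf_comm B (Q ⊓ S), inf_comm B Q, inf_comm B S]
      omega
  · intro hall
    apply hcon
    unfold IndS at hall
    have e1 : (⨅ j ∈ (Finset.univ : Finset (Fin 3)), (![P, Q, S] : Fin 3 → Subgroup A) j) =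
        P ⊓ (Q ⊓ S) := by
      have : (Finset.univ : Finset (Fin 3)) = {0, 1, 2} := by decide
      rw [this, Finset.iInf_insert, Finset.iInf_insert, Finset.iInf_singleton]
      rfl
    rw [e1, Fin.sum_univ_three] at hall
    have hall' : (R.r (B ⊓ (P ⊓ (Q ⊓ S))) : ℤ) - R.r B = ((R.r (B ⊓ P) : ℤ) - R.r B) +
      ((R.r (B ⊓ Q) : ℤ) - R.r B) + ((R.r (B ⊓ S) : ℤ) - R.r B) := hall
    rw [inf_comm B (P ⊓ (Q ⊓ S)), inf_comm B P, inf_comm B Q, inf_comm B S] at hall'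
    unfold Ind at h3 ⊢
    omega

theorem triv_of_no_circ {A : Type} [Group A] (R : RSys A) {M : Type} [MulAction A M]
    (hopn : ∀ V : Subgroup A, R.Opn V ↔ ∃ F : Finset M, stb A F ≤ V)
    (h : ¬ Circ R M 3) : Triv R := by
  have ro : ∀ {V : Subgroup A}, Real A M V → R.Opn V := fun hV => triv_aux_real R hopn hV
  -- (d)
  have hd : ∀ {B P Q S : Subgroup A}, Real A M B → Real A M P → Real A M Q → R.Opn S →
      Ind R.r P Q B → Ind R.r P S B → Ind R.r Q S B → Ind R.r P (Q ⊓ S) B := by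
    intro B P Q S hB hP hQ hS h1 h2 h3
    obtain ⟨S', hle, hS', hI⟩ := triv_aux_ext R hopn hS (R.opn_inf (ro hP) (ro hQ)) (ro hB)
    have i1 : Ind R.r S' P (S ⊓ B) := triv_aux_mono R (ro hS') (ro hP)
      (R.opn_inf (ro hP) (ro hQ)) (R.opn_inf hS (ro hB)) inf_le_left hI
    have i2 : Ind R.r S' Q (S ⊓ B) := triv_aux_mono R (ro hS') (ro hQ)
      (R.opn_inf (ro hP) (ro hQ)) (R.opn_inf hS (ro hB)) inf_le_right hI
    have j1 : Ind R.r S' P B := triv_aux_trans R hle i1 (triv_aux_symm h2)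
    have j2 : Ind R.r S' Q B := triv_aux_trans R hle i2 (triv_aux_symm h3)
    have k := triv_aux_key R h hB hP hQ hS' h1 (triv_aux_symm j1) (triv_aux_symm j2)
    exact triv_aux_mono R (ro hP) (R.opn_inf (ro hQ) hS) (R.opn_inf (ro hQ) (ro hS')) (ro hB)
      (inf_le_inf le_rfl hle) k
  -- (c)
  have hc : ∀ {B P Q S : Subgroup A}, Real A M B → Real A M P → R.Opn Q → R.Opn S →
      Ind R.r P Q B → Ind R.r P S B → Ind R.r Q S B → Ind R.r P (Q ⊓ S) B := by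
    intro B P Q S hB hP hQ hS h1 h2 h3
    obtain ⟨Q', hle, hQ', hI⟩ := triv_aux_ext R hopn hQ (R.opn_inf (ro hP) hS) (ro hB)
    have i1 : Ind R.r Q' P (Q ⊓ B) := triv_aux_mono R (ro hQ') (ro hP)
      (R.opn_inf (ro hP) hS) (R.opn_inf hQ (ro hB)) inf_le_left hI
    have i2 : Ind R.r Q' S (Q ⊓ B) := triv_aux_mono R (ro hQ') hS
      (R.opn_inf (ro hP) hS) (R.opn_inf hQ (ro hB)) inf_le_right hI
    have j1 : Ind R.r Q' P B := triv_aux_trans R hle i1 (triv_aux_symm h1)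
    have j2 : Ind R.r Q' S B := triv_aux_trans R hle i2 h3
    have k := hd hB hP hQ' hS (triv_aux_symm j1) h2 j2
    exact triv_aux_mono R (ro hP) (R.opn_inf hQ hS) (R.opn_inf (ro hQ') hS) (ro hB)
      (inf_le_inf hle le_rfl) k
  -- (b)
  have hb : ∀ {B P Q S : Subgroup A}, Real A M B → R.Opn P → R.Opn Q → R.Opn S →
      Ind R.r P Q B → Ind R.r P S B → Ind R.r Q S B → Ind R.r P (Q ⊓ S) B := by
    intro B P Q S hB hP hQ hS h1 h2 h3
    obtain ⟨P', hle, hP', hI⟩ := triv_aux_ext R hopn hP (R.opn_inf hQ hS) (ro hB)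
    have i1 : Ind R.r P' Q (P ⊓ B) := triv_aux_mono R (ro hP') hQ
      (R.opn_inf hQ hS) (R.opn_inf hP (ro hB)) inf_le_left hI
    have i2 : Ind R.r P' S (P ⊓ B) := triv_aux_mono R (ro hP') hS
      (R.opn_inf hQ hS) (R.opn_inf hP (ro hB)) inf_le_right hI
    have j1 : Ind R.r P' Q B := triv_aux_trans R hle i1 h1
    have j2 : Ind R.r P' S B := triv_aux_trans R hle i2 h2
    have k := hc hB hP' hQ hS j1 j2 h3
    exact triv_aux_symm (triv_aux_mono R (R.opn_inf hQ hS) hP (ro hP') (ro hB) hle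
      (triv_aux_symm k))
  -- (a)
  intro B P Q S hB hP hQ hS h1 h2 h3
  have hPQS := R.opn_inf hP (R.opn_inf hQ hS)
  obtain ⟨B', hle, hB', hI⟩ := triv_aux_ext R hopn hB hPQS R.opn_top
  rw [inf_top_eq] at hI
  have tr : ∀ {X : Subgroup A}, R.Opn X → P ⊓ (Q ⊓ S) ≤ X →
      R.r (X ⊓ B') + R.r B = R.r B' + R.r (X ⊓ B) := by
    intro X hX hX'
    have i := triv_aux_mono R (ro hB') hX hPQS hB hX' hI
    unfold Ind at i
    have e1 : B' ⊓ X ⊓ B = X ⊓ B' := by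
      rw [inf_comm B' X, inf_assoc, inf_eq_left.2 hle]
    rw [e1, inf_eq_left.2 hle] at i
    exact i
  have tP := tr hP inf_le_left
  have tQ := tr hQ (inf_le_right.trans inf_le_left)
  have tS := tr hS (inf_le_right.trans inf_le_right)
  have tPQ := tr (R.opn_inf hP hQ) (inf_le_inf le_rfl inf_le_left)
  have tPS := tr (R.opn_inf hP hS) (inf_le_inf le_rfl inf_le_right)
  have tQS := tr (R.opn_inf hQ hS) inf_le_right
  have tPQS := tr hPQS le_rfl
  have k := hb hB' hP hQ hS (by unfold Ind at h1 ⊢; omega) (by unfold Ind at h2 ⊢; omega)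
    (by unfold Ind at h3 ⊢; omega)
  unfold Ind at k ⊢
  omega

end Pool.Agent.Helper596_Q
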