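import Mathlib
import Pool.Agent.Helper596_Q.Base

/-!
# Triviality gives one-basedness
-/

set_option autoImplicit false

namespace Pool.Agent.Helper596_Q

section aux
variable {A : Type} [Group A] (R : RSys A)

theorem ind_symm_B2 {P Q B : Subgroup A} (h : Ind R.r P Q B) : Ind R.r Q P B := by
  unfold Ind at *
  rw [inf_comm Q P, h, add_comm]

/-- weakening of the second argument -/
theorem ind_mono_B2 {P Q Q' B : Subgroup A} (hP : R.Opn P) (hQ : R.Opn Q) (hQ' : R.Opn Q')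
    (hB : R.Opn B) (hle : Q ≤ Q') (h : Ind R.r P Q B) : Ind R.r P Q' B := by
  unfold Ind at *
  have h1 := R.r_sub hP hQ (R.opn_inf hQ' hB)
  have h2 := R.r_sub hP hQ' hB
  have e1 : P ⊓ Q ⊓ (Q' ⊓ B) = P ⊓ Q ⊓ B := by
    ext a; simp only [Subgroup.mem_inf]; have := @hle a; tauto
  have e2 : P ⊓ (Q' ⊓ B) = P ⊓ Q' ⊓ B := by rw [inf_assoc]
  have e3 : Q ⊓ (Q' ⊓ B) = Q ⊓ B := by
    ext a; simp only [Subgroup.mem_inf]; have := @hle a; tauto
  rw [e1, e2, e3] at h1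
  omega

/-- algebraicity over a smaller group -/
theorem ac_mono_B2 {E X X' : Subgroup A} (hE : R.Opn E) (hX : R.Opn X) (hX' : R.Opn X')
    (hle : X' ≤ X) (h : Ac R E X) : Ac R E X' := by
  unfold Ac at *
  have h1 := R.r_sub hX' hE hX
  have e1 : X' ⊓ E ⊓ X = X' ⊓ E := by
    ext a; simp only [Subgroup.mem_inf]; have := @hle a; tauto
  have e2 : X' ⊓ X = X' := inf_eq_left.mpr hle
  rw [e1, e2, inf_comm E X, h] at h1
  have h2 := R.r_mono (R.opn_inf hX' hE) hX' inf_le_left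
  omega

/-- algebraicity over a bigger group of the same rank -/
theorem ac_up_B2 {E X X' : Subgroup A} (hE : R.Opn E) (hX : R.Opn X) (hX' : R.Opn X')
    (hle : X' ≤ X) (hr : R.r X' = R.r X) (h : Ac R E X') : Ac R E X := by
  unfold Ac at *
  have h1 := R.r_mono (R.opn_inf hX' hE) (R.opn_inf hX hE) (inf_le_inf_right E hle)
  have h2 := R.r_mono (R.opn_inf hX hE) hX inf_le_left
  omega

/-- the sequence of copies, together with the intersections of the previous ones -/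
theorem copies_B2 {Y W : Subgroup A} (hY : R.Opn Y) (hW : R.Opn W) :
    ∃ (g : ℕ → A) (Z : ℕ → Subgroup A), (∀ n, g n ∈ W) ∧ (∀ n, R.Opn (Z n)) ∧ Z 0 = ⊤ ∧
      (∀ n, Z (n + 1) = Z n ⊓ cj (g n) Y) ∧ ∀ n, Ind R.r (cj (g n) Y) (Z n) W := by
  classical
  have hex : ∀ V : {V : Subgroup A // R.Opn V}, ∃ g ∈ W, Ind R.r (cj g Y) V.1 W := fun V =>
    R.r_ext hY V.2 hW
  choose γ hγ1 hγ2 using hex
  let Z : ℕ → {V : Subgroup A // R.Opn V} := fun n => Nat.rec ⟨⊤, R.opn_top⟩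
    (fun _ V => ⟨V.1 ⊓ cj (γ V) Y, R.opn_inf V.2 (R.opn_cj _ hY)⟩) n
  exact ⟨fun n => γ (Z n), fun n => (Z n).1, fun n => hγ1 _, fun n => (Z n).2, rfl,
    fun n => rfl, fun n => hγ2 _⟩

end aux

theorem dep_copy {A : Type} [Group A] (R : RSys A) (hT : Triv R) {B X Y W : Subgroup A}
    (hB : R.Opn B) (hX : R.Opn X) (hY : R.Opn Y) (hW : R.Opn W) (hWX : W ≤ X ⊓ B)
    (hr : R.r W = R.r (X ⊓ B)) (hSt : St R.toOSys R.r W Y) (g : A) (hg : g ∈ W)
    (hind : Ind R.r (cj g Y) Y W) (hdep : ¬ Ind R.r X Y B) : ¬ Ind R.r (cj g Y) Y B := by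
  intro hcon
  obtain ⟨γ, Z, hγ, hZo, hZ0, hZs, hZi⟩ := copies_B2 R hY hW
  have hYo : ∀ n, R.Opn (cj (γ n) Y) := fun n => R.opn_cj _ hY
  have hWB : W ≤ B := hWX.trans inf_le_right
  have hZle : ∀ {i j}, i < j → Z j ≤ cj (γ i) Y := by
    intro i j hij
    induction j with
    | zero => omega
    | succ j ih =>
      rw [hZs]
      rcases Nat.lt_succ_iff_lt_or_eq.mp hij with h | rfl
      · exact inf_le_left.trans (ih h)
      · exact inf_le_right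
  -- pairwise independence over `B`
  have hpair : ∀ {i j}, i < j → Ind R.r (cj (γ j) Y) (cj (γ i) Y) B := by
    intro i j hij
    have h1 := ind_mono_B2 R (hYo j) (hZo j) (hYo i) hW (hZle hij) (hZi j)
    have h2 := (Ind.cj (R := R) (hYo j) (hYo i) hW (γ i)⁻¹).mpr h1
    rw [← cj_mul, ← cj_mul, inv_mul_cancel, cj_one, cj_of_mem (W.inv_mem (hγ i))] at h2
    have hinfQ : ∀ P : Subgroup A, Ind R.r P Y W → Ind R.r P (Y ⊓ W) W := by
      intro P hP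
      unfold Ind at *
      have e1 : P ⊓ (Y ⊓ W) ⊓ W = P ⊓ Y ⊓ W := by
        ext a; simp only [Subgroup.mem_inf]; tauto
      have e2 : Y ⊓ W ⊓ W = Y ⊓ W := by
        ext a; simp only [Subgroup.mem_inf]; tauto
      rw [e1, e2]
      exact hP
    obtain ⟨q, hq, hq2⟩ := hSt (Y ⊓ W) (R.opn_inf hY hW) inf_le_right g hg
      ((γ i)⁻¹ * γ j) (W.mul_mem (W.inv_mem (hγ i)) (hγ j)) (hinfQ _ hind) (hinfQ _ h2)
    have h3 : cj (q * g) Y = cj ((γ i)⁻¹ * γ j) Y := by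
      apply cj_congr
      have : (q * g)⁻¹ * ((γ i)⁻¹ * γ j) = g⁻¹ * q⁻¹ * ((γ i)⁻¹ * γ j) := by group
      rw [this]
      exact hq2
    have h4 := (Ind.cj (R := R) (R.opn_cj g hY) hY hB q).mpr hcon
    rw [← cj_mul, cj_of_mem hq.1, cj_of_mem (hWB hq.2), h3] at h4
    have h5 := (Ind.cj (R := R) (R.opn_cj _ hY) hY hB (γ i)).mpr h4
    rw [← cj_mul, cj_of_mem (hWB (hγ i))] at h5
    have h6 : γ i * ((γ i)⁻¹ * γ j) = γ j := by group
    rwa [h6] at h5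
  -- independence over `B`
  have hall : ∀ m n, m ≤ n → Ind R.r (cj (γ n) Y) (Z m) B := by
    intro m
    induction m with
    | zero =>
      intro n _
      rw [hZ0]
      unfold Ind
      rw [inf_top_eq, top_inf_eq]
    | succ m ih =>
      intro n hn
      rw [hZs]
      exact hT B _ _ _ hB (hYo n) (hZo m) (hYo m) (ih n (by omega)) (hpair (by omega))
        (ind_symm_B2 R (ih m le_rfl))
  -- no copy is independent of `X`
  have hnX : ∀ n, ¬ Ind R.r X (cj (γ n) Y) B := by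
    intro n h
    apply hdep
    have h1 := (Ind.cj (R := R) (P := X) (Q := Y) (B := B) hX hY hB (γ n)).mp
    rw [cj_of_mem (hWX (hγ n)).1, cj_of_mem (hWB (hγ n))] at h1
    exact h1 h
  -- the rank of `X` over the copies decreases
  have hdec : ∀ n, R.r (X ⊓ Z (n + 1) ⊓ B) + R.r (Z n ⊓ B) <
      R.r (X ⊓ Z n ⊓ B) + R.r (Z (n + 1) ⊓ B) := by
    intro n
    by_contra hlt
    push Not at hlt
    apply hnX n
    have h1 := hall n n le_rfl
    unfold Ind at h1 ⊢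
    have h2 := R.r_sub (hYo n) (hZo n) (R.opn_inf hX hB)
    have h3 := R.r_sub hX (hYo n) hB
    have e1 : cj (γ n) Y ⊓ Z n ⊓ (X ⊓ B) = X ⊓ Z (n + 1) ⊓ B := by
      rw [hZs]
      ext a; simp only [Subgroup.mem_inf]; tauto
    have e2 : cj (γ n) Y ⊓ (X ⊓ B) = X ⊓ cj (γ n) Y ⊓ B := by
      ext a; simp only [Subgroup.mem_inf]; tauto
    have e3 : Z n ⊓ (X ⊓ B) = X ⊓ Z n ⊓ B := by
      ext a; simp only [Subgroup.mem_inf]; tauto
    have e4 : cj (γ n) Y ⊓ Z n ⊓ B = Z (n + 1) ⊓ B := by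
      rw [hZs]
      ext a; simp only [Subgroup.mem_inf]; tauto
    rw [e1, e2, e3] at h2
    rw [e4] at h1
    omega
  have hle : ∀ n, R.r (Z n ⊓ B) ≤ R.r (X ⊓ Z n ⊓ B) := fun n =>
    R.r_mono (R.opn_inf (R.opn_inf hX (hZo n)) hB) (R.opn_inf (hZo n) hB)
      (inf_le_inf_right B inf_le_right)
  have hb : ∀ n, R.r (X ⊓ Z n ⊓ B) - R.r (Z n ⊓ B) + n ≤
      R.r (X ⊓ Z 0 ⊓ B) - R.r (Z 0 ⊓ B) := by
    intro n
    induction n with
    | zero => simp
    | succ n ih =>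
      have h1 := hdec n
      have h2 := hle n
      have h3 := hle (n + 1)
      omega
  have := hb (R.r (X ⊓ Z 0 ⊓ B) - R.r (Z 0 ⊓ B) + 1)
  omega

/-- A bad pair gives a bad pair of bigger rank. -/
theorem bad_step_B2 {A : Type} [Group A] (R : RSys A) (hT : Triv R) {E U V : Subgroup A}
    (hE : R.Opn E) (hU : R.Opn U) (hV : R.Opn V) (hdep : ¬ Ind R.r U V E)
    (hbad : ∀ E', R.Opn E' → Ac R E' (E ⊓ U) → Ac R E' (E ⊓ V) → Ac R E' E) :
    ∃ V', R.Opn V' ∧ ¬ Ind R.r V V' E ∧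
      (∀ E', R.Opn E' → Ac R E' (E ⊓ V) → Ac R E' (E ⊓ V') → Ac R E' E) ∧
      R.r (V' ⊓ E) = R.r (V ⊓ E) ∧
      R.r (V ⊓ (E ⊓ U)) + R.r (E ⊓ V) < R.r (V' ⊓ (E ⊓ V)) + R.r (E ⊓ U) := by
  obtain ⟨W, hWle, hW, hWr, hSt⟩ := R.r_stat hV (R.opn_inf hU hE)
  obtain ⟨g, hg, hgi⟩ := R.r_ext hV hV hW
  have hWU : W ≤ U := hWle.trans inf_le_left
  have hWE : W ≤ E := hWle.trans inf_le_right
  have hV' : R.Opn (cj g V) := R.opn_cj g hV
  have hnd : ¬ Ind R.r (cj g V) V E :=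
    dep_copy R hT hE hU hV hW hWle hWr hSt g hg hgi hdep
  have hEU : R.r (E ⊓ U) = R.r W := by rw [inf_comm, hWr]
  -- facts on algebraicity over `W`
  have hAc1 : ∀ E', R.Opn E' → Ac R E' W → Ac R E' (E ⊓ U) := fun E' hE' h =>
    ac_up_B2 R hE' (R.opn_inf hE hU) hW (le_inf hWE hWU) hEU.symm h
  have hcjE : cj g E = E := cj_of_mem (hWE hg)
  have hcjW : cj g W = W := cj_of_mem hg
  have hrVE : R.r (cj g V ⊓ E) = R.r (V ⊓ E) := by
    rw [← R.r_cj g (V ⊓ E) (R.opn_inf hV hE), cj_inf, hcjE]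
  have hrVW : R.r (cj g V ⊓ W) = R.r (V ⊓ W) := by
    rw [← R.r_cj g (V ⊓ W) (R.opn_inf hV hW), cj_inf, hcjW]
  set V' := cj g V with hV'def
  -- r (V | W) = r (V | E U)
  have hVW : R.r (V ⊓ W) = R.r (V ⊓ (E ⊓ U)) := by
    have h1 := R.r_mono (R.opn_inf hV hW) (R.opn_inf hV (R.opn_inf hE hU))
      (inf_le_inf_left V (le_inf hWE hWU))
    have h2 := R.r_sub hV hW (R.opn_inf hE hU)
    have e1 : V ⊓ W ⊓ (E ⊓ U) = V ⊓ W := by
      ext a; simp only [Subgroup.mem_inf]; have := @hWE a; have := @hWU a; tauto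
    have e2 : W ⊓ (E ⊓ U) = W := inf_eq_left.mpr (le_inf hWE hWU)
    rw [e1, e2] at h2
    omega
  have hgi' := hgi
  unfold Ind at hgi'
  -- monotonicity
  have hge : R.r (V ⊓ (E ⊓ U)) + R.r (E ⊓ V) ≤ R.r (V' ⊓ (E ⊓ V)) + R.r (E ⊓ U) := by
    have h1 := R.r_sub hV' (R.opn_inf hW hV) (R.opn_inf hE hV)
    have e1 : V' ⊓ (W ⊓ V) ⊓ (E ⊓ V) = V' ⊓ V ⊓ W := by
      ext a; simp only [Subgroup.mem_inf]; have := @hWE a; tauto
    have e2 : W ⊓ V ⊓ (E ⊓ V) = V ⊓ W := by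
      ext a; simp only [Subgroup.mem_inf]; have := @hWE a; tauto
    rw [e1, e2] at h1
    omega
  refine ⟨V', hV', fun h => hnd (ind_symm_B2 R h), ?_, hrVE, ?_⟩
  · intro E' hE' h1 h2
    refine hbad E' hE' (hAc1 E' hE' ?_) h1
    have a1 : Ac R E' (W ⊓ V) := ac_mono_B2 R hE' (R.opn_inf hE hV) (R.opn_inf hW hV)
      (inf_le_inf_right V hWE) h1
    have a2 : Ac R E' (W ⊓ V') := ac_mono_B2 R hE' (R.opn_inf hE hV') (R.opn_inf hW hV')
      (inf_le_inf_right V' hWE) h2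
    have a3 : Ac R E' (V' ⊓ V ⊓ W) := ac_mono_B2 R hE' (R.opn_inf hW hV)
      (R.opn_inf (R.opn_inf hV' hV) hW) (le_inf inf_le_right (inf_le_left.trans inf_le_right)) a1
    unfold Ac at a1 a2 a3 ⊢
    have h3 := R.r_sub hV' hV (R.opn_inf hW hE')
    have e1 : V' ⊓ V ⊓ (W ⊓ E') = V' ⊓ V ⊓ W ⊓ E' := by
      ext a; simp only [Subgroup.mem_inf]; tauto
    have e2 : V' ⊓ (W ⊓ E') = W ⊓ V' ⊓ E' := by
      ext a; simp only [Subgroup.mem_inf]; tauto
    have e3 : V ⊓ (W ⊓ E') = W ⊓ V ⊓ E' := by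
      ext a; simp only [Subgroup.mem_inf]; tauto
    rw [e1, e2, e3, a1, a2, a3, inf_comm W V, inf_comm W V'] at h3
    have h4 := R.r_mono (R.opn_inf hW hE') hW inf_le_left
    omega
  · refine lt_of_le_of_ne hge fun heq => ?_
    have e1 : V' ⊓ (E ⊓ V) ⊓ W = V' ⊓ V ⊓ W := by
      ext a; simp only [Subgroup.mem_inf]; have := @hWE a; tauto
    have e2 : E ⊓ V ⊓ W = V ⊓ W := by
      ext a; simp only [Subgroup.mem_inf]; have := @hWE a; tauto
    have e3 : V' ⊓ W ⊓ (E ⊓ V) = V' ⊓ V ⊓ W := by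
      ext a; simp only [Subgroup.mem_inf]; have := @hWE a; tauto
    have e4 : W ⊓ (E ⊓ V) = V ⊓ W := by
      ext a; simp only [Subgroup.mem_inf]; have := @hWE a; tauto
    have i1 : Ind R.r V' (E ⊓ V) W := by
      unfold Ind
      rw [e1, e2]
      exact hgi'
    have i2 : Ind R.r V' W (E ⊓ V) := by
      unfold Ind
      rw [e3, e4]
      omega
    obtain ⟨E', hE', c1, c2, c3⟩ := R.r_cb hV' hW (R.opn_inf hE hV) i1 i2
    have hAE : Ac R E' E := by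
      refine hbad E' hE' (hAc1 E' hE' ?_) ?_
      · unfold Ac; rw [inf_comm]; exact c1
      · unfold Ac; rw [inf_comm]; exact c2
    unfold Ac at hAE
    apply hnd
    unfold Ind
    have h1 := R.r_sub hV' hV hE
    have h2 := R.r_sub hV' hE hE'
    have h3 := R.r_mono (R.opn_inf (R.opn_inf hV' hE) hE') (R.opn_inf hV' hE) inf_le_left
    have e5 : V' ⊓ V ⊓ E = V' ⊓ (E ⊓ V) := by
      ext a; simp only [Subgroup.mem_inf]; tauto
    rw [e5] at h1 ⊢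
    rw [inf_comm V E] at h1 ⊢
    omega

theorem one_based {A : Type} [Group A] (R : RSys A) (hT : Triv R) (P Q : Subgroup A)
    (hP : R.Opn P) (hQ : R.Opn Q) :
    ∃ E, R.Opn E ∧ Ac R E P ∧ Ac R E Q ∧ R.r (P ⊓ Q) + R.r E = R.r P + R.r Q := by
  classical
  -- a common algebraic part of maximal rank
  have hmax : ∃ E, (R.Opn E ∧ Ac R E P ∧ Ac R E Q) ∧
      ∀ E', R.Opn E' → Ac R E' P → Ac R E' Q → R.r E' ≤ R.r E := by
    have hb : ∀ n, (∃ E, (R.Opn E ∧ Ac R E P ∧ Ac R E Q) ∧ R.r E = n) → n ≤ R.r P := by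
      rintro n ⟨E, ⟨h1, h2, h3⟩, rfl⟩
      have := R.r_mono (R.opn_inf hP h1) h1 inf_le_right
      unfold Ac at h2
      omega
    have hne : ∃ n, ∃ E, (R.Opn E ∧ Ac R E P ∧ Ac R E Q) ∧ R.r E = n :=
      ⟨_, ⊤, ⟨R.opn_top, by unfold Ac; rw [inf_top_eq], by unfold Ac; rw [inf_top_eq]⟩, rfl⟩
    obtain ⟨n₀, hn₀⟩ := hne
    have hg := Nat.findGreatest_spec (P := fun n => ∃ E, (R.Opn E ∧ Ac R E P ∧ Ac R E Q) ∧
      R.r E = n) (hb n₀ hn₀) hn₀
    obtain ⟨E, hE, hEn⟩ := hg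
    refine ⟨E, hE, fun E' h1 h2 h3 => ?_⟩
    rw [hEn]
    exact Nat.le_findGreatest (hb _ ⟨E', ⟨h1, h2, h3⟩, rfl⟩) ⟨E', ⟨h1, h2, h3⟩, rfl⟩
  obtain ⟨E, ⟨hE, hEP, hEQ⟩, hEmax⟩ := hmax
  have hmeet : ∀ (X E' : Subgroup A), R.Opn X → R.Opn E' → Ac R E X → Ac R E' X →
      Ac R (E ⊓ E') X := by
    intro X E' hX hE' h1 h2
    unfold Ac at *
    have h3 := R.r_sub hE hE' hX
    have h4 := R.r_mono (R.opn_inf hX (R.opn_inf hE hE')) hX inf_le_left
    rw [inf_comm E X, inf_comm E' X, h1, h2, inf_comm (E ⊓ E') X] at h3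
    omega
  have hEall : ∀ E', R.Opn E' → Ac R E' P → Ac R E' Q → Ac R E' E := by
    intro E' hE' h1 h2
    have h3 := hEmax (E ⊓ E') (R.opn_inf hE hE') (hmeet P E' hP hE' hEP h1)
      (hmeet Q E' hQ hE' hEQ h2)
    have h4 := R.r_mono (R.opn_inf hE hE') hE inf_le_left
    unfold Ac
    omega
  refine ⟨E, hE, hEP, hEQ, ?_⟩
  by_cases hind : Ind R.r P Q E
  · unfold Ind at hind
    have h1 : Ac R E (P ⊓ Q) := ac_mono_B2 R hE hP (R.opn_inf hP hQ) inf_le_left hEP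
    unfold Ac at h1 hEP hEQ
    rw [h1, hEP, hEQ] at hind
    exact hind
  · exfalso
    -- descent
    have key : ∀ n : ℕ, ∀ U V : Subgroup A, R.Opn U → R.Opn V → ¬ Ind R.r U V E →
        (∀ E', R.Opn E' → Ac R E' (E ⊓ U) → Ac R E' (E ⊓ V) → Ac R E' E) →
        R.r (V ⊓ E) + R.r (E ⊓ U) ≤ R.r (V ⊓ (E ⊓ U)) + R.r E + n → False := by
      intro n
      induction n with
      | zero =>
        intro U V hU hV hd hb hn
        obtain ⟨V', hV', hd', hb', hr', hlt⟩ := bad_step_B2 R hT hE hU hV hd hb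
        have h1 := R.r_sub hV' hV hE
        have e1 : V' ⊓ V ⊓ E = V' ⊓ (E ⊓ V) := by
          ext a; simp only [Subgroup.mem_inf]; tauto
        rw [e1, inf_comm V E] at h1
        rw [inf_comm V E] at hr' hn
        omega
      | succ n ih =>
        intro U V hU hV hd hb hn
        obtain ⟨V', hV', hd', hb', hr', hlt⟩ := bad_step_B2 R hT hE hU hV hd hb
        refine ih V V' hV hV' hd' hb' ?_
        omega
    refine key (R.r (P ⊓ E) + R.r (E ⊓ Q)) Q P hQ hP (fun h => hind (ind_symm_B2 R h)) ?_ (by omega)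
    intro E' hE' h1 h2
    refine hEall E' hE' ?_ ?_
    · refine ac_up_B2 R hE' hP (R.opn_inf hE hP) inf_le_right ?_ h2
      unfold Ac at hEP
      rw [inf_comm, hEP]
    · refine ac_up_B2 R hE' hQ (R.opn_inf hE hQ) inf_le_right ?_ h1
      unfold Ac at hEQ
      rw [inf_comm, hEQ]

end Pool.Agent.Helper596_Q
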