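import Mathlib
import Pool.Agent.Helper596_Q.Acl

/-!
# Meets and distributivity
-/

set_option autoImplicit false

namespace Pool.Agent.Helper596_Q

section
variable {A : Type} [Group A] {R : RSys A}

theorem c1_symm {P Q B : Subgroup A} (h : Ind R.r P Q B) : Ind R.r Q P B := by
  unfold Ind at *
  rw [inf_comm Q P]
  omega

/-- Adding something algebraic to the base. -/
theorem c1_base {X Y B T : Subgroup A} (hX : R.Opn X) (hY : R.Opn Y) (hB : R.Opn B) (hT : R.Opn T)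
    (h : Ind R.r X Y B) (hTY : Ac R T Y) : Ind R.r X Y (B ⊓ T) := by
  have h1 := R.r_sub hX hY (R.opn_inf hB hT)
  have h2 := R.r_sub hX hT hB
  have h3 : R.r (X ⊓ Y ⊓ B ⊓ T) = R.r (X ⊓ Y ⊓ B) :=
    hTY.of_le hT hY (R.opn_inf (R.opn_inf hX hY) hB) (inf_le_left.trans inf_le_right)
  have h4 : R.r (Y ⊓ B ⊓ T) = R.r (Y ⊓ B) := hTY.of_le hT hY (R.opn_inf hY hB) inf_le_left
  have e1 : X ⊓ Y ⊓ (B ⊓ T) = X ⊓ Y ⊓ B ⊓ T := by ac_rfl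
  have e2 : Y ⊓ (B ⊓ T) = Y ⊓ B ⊓ T := by ac_rfl
  have e3 : X ⊓ (B ⊓ T) = X ⊓ T ⊓ B := by ac_rfl
  have e4 : B ⊓ T = T ⊓ B := by ac_rfl
  unfold Ind at *
  rw [e1, e2, e3, h3, h4, e4] at h1
  rw [e1, e2, e3, h3, h4, e4]
  omega

/-- Something algebraic over `Y` inherits independence. -/
theorem c1_right {X Y B T : Subgroup A} (hX : R.Opn X) (hY : R.Opn Y) (hB : R.Opn B) (hT : R.Opn T)
    (h : Ind R.r X Y B) (hTY : Ac R T Y) : Ind R.r X T B := by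
  have h1 := R.r_sub hX hT hB
  have h2 := R.r_sub hX hY (R.opn_inf hB hT)
  have h3 : R.r (X ⊓ Y ⊓ B ⊓ T) = R.r (X ⊓ Y ⊓ B) :=
    hTY.of_le hT hY (R.opn_inf (R.opn_inf hX hY) hB) (inf_le_left.trans inf_le_right)
  have h4 : R.r (Y ⊓ B ⊓ T) = R.r (Y ⊓ B) := hTY.of_le hT hY (R.opn_inf hY hB) inf_le_left
  have e1 : X ⊓ Y ⊓ (B ⊓ T) = X ⊓ Y ⊓ B ⊓ T := by ac_rfl
  have e2 : Y ⊓ (B ⊓ T) = Y ⊓ B ⊓ T := by ac_rfl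
  have e3 : X ⊓ (B ⊓ T) = X ⊓ T ⊓ B := by ac_rfl
  have e4 : B ⊓ T = T ⊓ B := by ac_rfl
  unfold Ind at *
  rw [e1, e2, e3, h3, h4, e4] at h2
  omega

/-- Something algebraic over two independent sets is algebraic over the base. -/
theorem c1_meet {X Y B E : Subgroup A} (hX : R.Opn X) (hY : R.Opn Y) (hB : R.Opn B) (hE : R.Opn E)
    (h : Ind R.r X Y B) (h1 : Ac R E X) (h2 : Ac R E Y) : Ac R E B := by
  have g1 := R.r_sub hX hY (R.opn_inf hB hE)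
  have h3 : R.r (X ⊓ Y ⊓ B ⊓ E) = R.r (X ⊓ Y ⊓ B) :=
    h2.of_le hE hY (R.opn_inf (R.opn_inf hX hY) hB) (inf_le_left.trans inf_le_right)
  have h4 : R.r (Y ⊓ B ⊓ E) = R.r (Y ⊓ B) := h2.of_le hE hY (R.opn_inf hY hB) inf_le_left
  have h5 : R.r (X ⊓ B ⊓ E) = R.r (X ⊓ B) := h1.of_le hE hX (R.opn_inf hX hB) inf_le_left
  have e1 : X ⊓ Y ⊓ (B ⊓ E) = X ⊓ Y ⊓ B ⊓ E := by ac_rfl
  have e2 : Y ⊓ (B ⊓ E) = Y ⊓ B ⊓ E := by ac_rfl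
  have e3 : X ⊓ (B ⊓ E) = X ⊓ B ⊓ E := by ac_rfl
  have h6 : R.r B ≤ R.r (B ⊓ E) := R.r_mono (R.opn_inf hB hE) hB inf_le_left
  rw [e1, e2, e3, h3, h4, h5] at g1
  unfold Ind at h
  unfold Ac
  omega

end

theorem meet {A : Type} [Group A] (R : RSys A) (h : OB R) {P Q : Subgroup A} (hP : R.Opn P)
    (hQ : R.Opn Q) : ∃ E, R.Opn E ∧ Ac R E P ∧ Ac R E Q ∧ Ind R.r P Q E ∧
      ∀ E', R.Opn E' → Ac R E' P → Ac R E' Q → Ac R E' E := by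
  obtain ⟨E, hE, h1, h2, h3⟩ := h.one P Q hP hQ
  have hI : Ind R.r P Q E := by
    have h4 := h2.r_inf hE hQ hP
    unfold Ind
    unfold Ac at h1 h2
    rw [h4, h1, h2]
    exact h3
  exact ⟨E, hE, h1, h2, hI, fun E' hE' h1' h2' => c1_meet hP hQ hE hE' hI h1' h2'⟩

theorem dist {A : Type} [Group A] (R : RSys A) (h : OB R) {E X Y Z : Subgroup A} (hE : R.Opn E)
    (hX : R.Opn X) (hY : R.Opn Y) (hZ : R.Opn Z) (h1 : Ac R E X) (h2 : Ac R E (Y ⊓ Z)) :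
    ∃ U V, R.Opn U ∧ R.Opn V ∧ Ac R U X ∧ Ac R U Y ∧ Ac R V X ∧ Ac R V Z ∧ Ac R E (U ⊓ V) := by
  obtain ⟨U, hU, hUX, hUY, hUI, -⟩ := meet R h hX hY
  obtain ⟨V, hV, hVX, hVZ, hVI, -⟩ := meet R h hX hZ
  obtain ⟨T, hT, hTY, hTZ, hTI, -⟩ := meet R h hY hZ
  refine ⟨U, V, hU, hV, hUX, hUY, hVX, hVZ, ?_⟩
  have hUV := R.opn_inf hU hV
  -- independence over `U ⊓ V`
  have a1 : Ind R.r X Y (U ⊓ V) := c1_symm (c1_base hY hX hU hV (c1_symm hUI) hVX)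
  have a2 : Ind R.r X Z (U ⊓ V) := by
    have := c1_symm (c1_base hZ hX hV hU (c1_symm hVI) hUX)
    rwa [inf_comm V U] at this
  -- independence over `U ⊓ V ⊓ T`
  have b1 : Ind R.r X Y (U ⊓ V ⊓ T) := c1_base hX hY hUV hT a1 hTY
  have b2 : Ind R.r X Z (U ⊓ V ⊓ T) := c1_base hX hZ hUV hT a2 hTZ
  have b3 : Ind R.r Y Z (U ⊓ V ⊓ T) := by
    have c1 := c1_symm (c1_base hZ hY hT hU (c1_symm hTI) hUY)
    have c2 := c1_base hY hZ (R.opn_inf hT hU) hV c1 hVZ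
    have e : T ⊓ U ⊓ V = U ⊓ V ⊓ T := by ac_rfl
    rwa [e] at c2
  have c := h.triv (U ⊓ V ⊓ T) X Y Z (R.opn_inf hUV hT) hX hY hZ b1 b2 b3
  have d : Ind R.r X T (U ⊓ V) := c1_right hX hY hUV hT a1 hTY
  have hYZ := R.opn_inf hY hZ
  have g : Ind R.r X (Y ⊓ Z) (U ⊓ V) := by
    have g1 : R.r (X ⊓ (Y ⊓ Z) ⊓ (U ⊓ V) ⊓ T) = R.r (X ⊓ (Y ⊓ Z) ⊓ (U ⊓ V)) :=
      hTY.of_le hT hY (R.opn_inf (R.opn_inf hX hYZ) hUV)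
        ((inf_le_left.trans inf_le_right).trans inf_le_left)
    have g2 : R.r (Y ⊓ Z ⊓ (U ⊓ V) ⊓ T) = R.r (Y ⊓ Z ⊓ (U ⊓ V)) :=
      hTY.of_le hT hY (R.opn_inf hYZ hUV) (inf_le_left.trans inf_le_left)
    have e1 : X ⊓ (Y ⊓ Z) ⊓ (U ⊓ V ⊓ T) = X ⊓ (Y ⊓ Z) ⊓ (U ⊓ V) ⊓ T := by ac_rfl
    have e2 : Y ⊓ Z ⊓ (U ⊓ V ⊓ T) = Y ⊓ Z ⊓ (U ⊓ V) ⊓ T := by ac_rfl
    have e3 : X ⊓ (U ⊓ V ⊓ T) = X ⊓ T ⊓ (U ⊓ V) := by ac_rfl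
    have e4 : U ⊓ V ⊓ T = T ⊓ (U ⊓ V) := by ac_rfl
    unfold Ind at c d ⊢
    rw [e1, e2, e3, g1, g2, e4] at c
    omega
  exact c1_meet hX hYZ hUV hE g h1 h2

end Pool.Agent.Helper596_Q
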