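import Mathlib
import Pool.Agent.Helper596_Q.Acl
import Pool.Agent.Helper596_Q.C1

/-!
# Decomposition into irreducibles
-/

set_option autoImplicit false

namespace Pool.Agent.Helper596_Q


theorem dec {A : Type} [Group A] (R : RSys A) (h : OB R) {X : Subgroup A} (hX : R.Opn X) :
    ∃ s : Finset (Subgroup A), (∀ D ∈ s, Irr R D ∧ Ac R D X) ∧ Ac R X (⨅ D ∈ s, D) := by
  classical
  suffices H : ∀ (n : ℕ) (X : Subgroup A), R.Opn X → R.r X = n →
      ∃ s : Finset (Subgroup A), (∀ D ∈ s, Irr R D ∧ Ac R D X) ∧ Ac R X (⨅ D ∈ s, D) from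
    H _ X hX rfl
  intro n
  induction n using Nat.strong_induction_on with
  | _ n ih =>
    intro X hX hn
    by_cases h0 : Ac R X ⊤
    · refine ⟨∅, by simp, ?_⟩
      simpa using h0
    by_cases hI : Irr R X
    · refine ⟨{X}, ?_, ?_⟩
      · intro D hD
        rw [Finset.mem_singleton] at hD
        subst hD
        exact ⟨hI, ac_of_le le_rfl⟩
      · simp only [Finset.mem_singleton, iInf_iInf_eq_left]
        exact ac_of_le le_rfl
    have hN : ∃ E F : Subgroup A, R.Opn E ∧ R.Opn F ∧ Ac R E X ∧ Ac R F X ∧ Ac R X (E ⊓ F) ∧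
        ¬ Ac R X E ∧ ¬ Ac R X F := by
      by_contra hc
      apply hI
      refine ⟨hX, h0, ?_⟩
      intro E F hE hF h1 h2 h3
      by_contra h4
      rw [not_or] at h4
      exact hc ⟨E, F, hE, hF, h1, h2, h3, h4.1, h4.2⟩
    obtain ⟨E, F, hE, hF, h1, h2, h3, h4, h5⟩ := hN
    have key : ∀ E : Subgroup A, R.Opn E → Ac R E X → ¬ Ac R X E → R.r E < n := by
      intro E hE h1 h4
      have h6 := h1.le hE hX
      rcases lt_or_eq_of_le h6 with h7 | h7
      · omega
      · exfalso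
        apply h4
        unfold Ac at h1 ⊢
        rw [inf_comm, h1, h7]
    obtain ⟨s, hs1, hs2⟩ := ih _ (key E hE h1 h4) E hE rfl
    obtain ⟨t, ht1, ht2⟩ := ih _ (key F hF h2 h5) F hF rfl
    have os : R.Opn (⨅ D ∈ s, D) := R.opn_biInf s _ (fun D hD => (hs1 D hD).1.1)
    have ot : R.Opn (⨅ D ∈ t, D) := R.opn_biInf t _ (fun D hD => (ht1 D hD).1.1)
    refine ⟨s ∪ t, ?_, ?_⟩
    · intro D hD
      rcases Finset.mem_union.1 hD with hD | hD
      · exact ⟨(hs1 D hD).1, (hs1 D hD).2.trans (hs1 D hD).1.1 hE hX h1⟩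
      · exact ⟨(ht1 D hD).1, (ht1 D hD).2.trans (ht1 D hD).1.1 hF hX h2⟩
    · have e : (⨅ D ∈ s ∪ t, D) = (⨅ D ∈ s, D) ⊓ (⨅ D ∈ t, D) := by
        rw [Finset.iInf_union]
      rw [e]
      have o := R.opn_inf os ot
      have a1 : Ac R E ((⨅ D ∈ s, D) ⊓ (⨅ D ∈ t, D)) := hs2.of_le hE os o inf_le_left
      have a2 : Ac R F ((⨅ D ∈ s, D) ⊓ (⨅ D ∈ t, D)) := ht2.of_le hF ot o inf_le_right
      exact h3.trans hX (R.opn_inf hE hF) o (a1.inf hE hF o a2)

theorem prime {A : Type} [Group A] (R : RSys A) (h : OB R) {D : Subgroup A} (hD : Irr R D)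
    {ι : Type} (s : Finset ι) (X : ι → Subgroup A) (hX : ∀ i ∈ s, R.Opn (X i))
    (hs : Ac R D (⨅ i ∈ s, X i)) : ∃ i ∈ s, Ac R D (X i) := by
  classical
  induction s using Finset.induction_on with
  | empty =>
    exfalso
    apply hD.2.1
    simpa using hs
  | insert a s _ ih =>
    rw [Finset.iInf_insert] at hs
    have hXs : ∀ i ∈ s, R.Opn (X i) := fun i hi => hX i (Finset.mem_insert_of_mem hi)
    have os : R.Opn (⨅ i ∈ s, X i) := R.opn_biInf s _ hXs
    have oa := hX a (Finset.mem_insert_self _ _)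
    obtain ⟨U, V, hU, hV, h1, h2, h3, h4, h5⟩ := dist R h hD.1 hD.1 oa os (ac_of_le le_rfl) hs
    rcases hD.2.2 U V hU hV h1 h3 h5 with h6 | h6
    · exact ⟨a, Finset.mem_insert_self _ _, h6.trans hD.1 hU oa h2⟩
    · obtain ⟨i, hi, h7⟩ := ih hXs (h6.trans hD.1 hV os h4)
      exact ⟨i, Finset.mem_insert_of_mem hi, h7⟩

theorem irr_card {A : Type} [Group A] (R : RSys A) (h : OB R) {X : Subgroup A} (hX : R.Opn X)
    (s : Finset (Subgroup A)) (hs : ∀ D ∈ s, Irr R D ∧ Ac R D X)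
    (hne : ∀ D ∈ s, ∀ D' ∈ s, D ≠ D' → ¬ Cm R D D') : s.card ≤ R.r X := by
  classical
  have H : ∀ (n : ℕ) (s : Finset (Subgroup A)), s.card = n → (∀ D ∈ s, Irr R D) →
      (∀ D ∈ s, ∀ D' ∈ s, D ≠ D' → ¬ Cm R D D') → n ≤ R.r (⨅ D ∈ s, D) := by
    intro n
    induction n with
    | zero => intro s _ _ _; exact Nat.zero_le _
    | succ n ih =>
      intro s hc hI hn
      have hne' : s.Nonempty := by
        rw [← Finset.card_pos, hc]; exact Nat.succ_pos _
      obtain ⟨D₀, hD₀, hmax⟩ := Finset.exists_max_image s (fun D => R.r D) hne'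
      have hc' : (s.erase D₀).card = n := by
        rw [Finset.card_erase_of_mem hD₀, hc]; rfl
      have hI' : ∀ D ∈ s.erase D₀, Irr R D := fun D hD => hI D (Finset.mem_of_mem_erase hD)
      have ih' := ih (s.erase D₀) hc' hI' (fun D hD D' hD' hDD' =>
        hn D (Finset.mem_of_mem_erase hD) D' (Finset.mem_of_mem_erase hD') hDD')
      have o' : R.Opn (⨅ D ∈ s.erase D₀, D) := R.opn_biInf _ _ (fun D hD => (hI' D hD).1)
      have oD := (hI D₀ hD₀).1
      have e : (⨅ D ∈ s, D) = D₀ ⊓ (⨅ D ∈ s.erase D₀, D) := by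
        conv_lhs => rw [← Finset.insert_erase hD₀]
        rw [Finset.iInf_insert]
      have hnot : ¬ Ac R D₀ (⨅ D ∈ s.erase D₀, D) := by
        intro hA
        obtain ⟨D, hD, hAD⟩ := prime R h (hI D₀ hD₀) (s.erase D₀) (fun D => D) (fun D hD => (hI' D hD).1) hA
        have hDs := Finset.mem_of_mem_erase hD
        have hne1 := Finset.ne_of_mem_erase hD
        have hle : R.r D ≤ R.r D₀ := hmax D hDs
        have hle' := hAD.le oD (hI D hDs).1
        apply hn D₀ hD₀ D hDs (Ne.symm hne1)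
        refine ⟨hAD, ?_⟩
        unfold Ac at hAD ⊢
        rw [inf_comm, hAD]
        omega
      unfold Ac at hnot
      have hm := R.r_mono (R.opn_inf o' oD) o' (inf_le_left)
      rw [e, inf_comm]
      omega
  have h1 := H s.card s rfl (fun D hD => (hs D hD).1) hne
  have os : R.Opn (⨅ D ∈ s, D) := R.opn_biInf s _ (fun D hD => (hs D hD).1.1)
  refine h1.trans (Ac.le os hX ?_)
  clear h1 H os hne
  induction s using Finset.induction_on with
  | empty => exact ac_of_le (by simp)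
  | insert a s _ ih =>
    rw [Finset.iInf_insert]
    have h1 := hs a (Finset.mem_insert_self _ _)
    have h2 : ∀ D ∈ s, Irr R D ∧ Ac R D X := fun D hD => hs D (Finset.mem_insert_of_mem hD)
    exact h1.2.inf h1.1.1 (R.opn_biInf s _ (fun D hD => (h2 D hD).1.1)) hX (ih h2)

end Pool.Agent.Helper596_Q
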