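import Mathlib
import Pool.Agent.Helper596_Q.Acl
import Pool.Agent.Helper596_Q.C1

/-!
# Lower covers
-/

set_option autoImplicit false

namespace Pool.Agent.Helper596_Q


theorem exists_cov {A : Type} [Group A] (R : RSys A) (h : OB R) {D : Subgroup A}
    (hD : Irr R D) : ∃ C, Cov R C D := by
  obtain ⟨hDo, hDt, hirr⟩ := hD
  obtain ⟨C, ⟨hCo, hCD, hDC⟩, hmax⟩ : ∃ C : Subgroup A, (R.Opn C ∧ Ac R C D ∧ ¬ Ac R D C) ∧
      ∀ C' : Subgroup A, (R.Opn C' ∧ Ac R C' D ∧ ¬ Ac R D C') → R.r C' ≤ R.r C := by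
    have hne : (R.r '' {C : Subgroup A | R.Opn C ∧ Ac R C D ∧ ¬ Ac R D C}).Nonempty :=
      ⟨_, ⊤, ⟨R.opn_top, ac_of_le le_top, hDt⟩, rfl⟩
    have hbd : BddAbove (R.r '' {C : Subgroup A | R.Opn C ∧ Ac R C D ∧ ¬ Ac R D C}) := by
      refine ⟨R.r D, ?_⟩
      rintro _ ⟨C, ⟨h1, h2, _⟩, rfl⟩
      exact h2.le h1 hDo
    obtain ⟨C, hC, hCe⟩ := Nat.sSup_mem hne hbd
    refine ⟨C, hC, fun C' hC' => ?_⟩
    rw [hCe]
    exact le_csSup hbd ⟨C', hC', rfl⟩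
  have key : ∀ E : Subgroup A, R.Opn E → Ac R E D → Ac R D E ∨ Ac R E C := by
    intro E hEo hED
    by_cases hDE : Ac R D E
    · exact Or.inl hDE
    · right
      have h1 : ¬ Ac R D (C ⊓ E) := fun h2 => (hirr C E hCo hEo hCD hED h2).elim hDC hDE
      have h2 := hmax (C ⊓ E) ⟨R.opn_inf hCo hEo, Ac.inf hCo hEo hDo hCD hED, h1⟩
      have h3 := R.r_mono (R.opn_inf hCo hEo) hCo inf_le_left
      exact le_antisymm h2 h3
  have h1 : R.r (D ⊓ C) = R.r D := hCD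
  have h2 : R.r C < R.r (D ⊓ C) := by
    have h3 := R.r_mono (R.opn_inf hDo hCo) hCo inf_le_right
    refine lt_of_le_of_ne h3 fun h4 => hDC ?_
    unfold Ac
    rw [inf_comm, ← h4]
  obtain ⟨C', hC'C, hC'o, hdrop⟩ := R.r_drop hDo hCo h2
  obtain ⟨E, hEo, hED, hEC', hind, _⟩ := meet R h hDo hC'o
  have h4 : R.r (D ⊓ C' ⊓ E) = R.r (D ⊓ C') := hEC'.r_inf hEo hC'o hDo
  have h5 : R.r (D ⊓ E) = R.r D := hED
  have h6 : R.r (C' ⊓ E) = R.r C' := hEC'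
  unfold Ind at hind
  have h7 : R.r E = R.r C + 1 := by omega
  have h8 : ¬ Ac R E C := fun h9 => by
    have := h9.le hEo hCo
    omega
  have h9 : Ac R D E := (key E hEo hED).resolve_right h8
  have h10 := h9.le hDo hEo
  exact ⟨C, hCo, hCD, hDC, by omega, key⟩

theorem cov_cj {A : Type} [Group A] (R : RSys A) {C D : Subgroup A} (hD : R.Opn D)
    (h : Cov R C D) (g : A) : Cov R (cj g C) (cj g D) := by
  obtain ⟨hCo, hCD, hDC, hr, hE⟩ := h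
  refine ⟨R.opn_cj g hCo, (ac_cj hCo hD g).2 hCD, fun h1 => hDC ((ac_cj hD hCo g).1 h1), ?_, ?_⟩
  · rw [R.r_cj g _ hD, R.r_cj g _ hCo, hr]
  · intro E hEo hED
    have e : E = cj g (cj g⁻¹ E) := by rw [← cj_mul, mul_inv_cancel, cj_one]
    have hE'o : R.Opn (cj g⁻¹ E) := R.opn_cj _ hEo
    rw [e] at hED ⊢
    rw [ac_cj hD hE'o g, ac_cj hE'o hCo g]
    exact hE _ hE'o ((ac_cj hE'o hD g).1 hED)

theorem cov_unique {A : Type} [Group A] (R : RSys A) {C C' D : Subgroup A}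
    (h : Cov R C D) (h' : Cov R C' D) : Cm R C C' :=
  ⟨(h'.2.2.2.2 C h.1 h.2.1).resolve_left h.2.2.1, (h.2.2.2.2 C' h'.1 h'.2.1).resolve_left h'.2.2.1⟩

end Pool.Agent.Helper596_Q
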