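import Mathlib
import Pool.Agent.Helper596_Q.Acl
import Pool.Agent.Helper596_Q.C3

/-!
# Similarity of irreducibles
-/

set_option autoImplicit false

namespace Pool.Agent.Helper596_Q


/-- independence from the rank condition -/
theorem ind_of_rank_one {A : Type} [Group A] (R : RSys A) {D W Q : Subgroup A} (hD : R.Opn D)
    (hW : R.Opn W) (hQ : R.Opn Q) (hr : R.r (D ⊓ W) = R.r W + 1) (hQW : Q ≤ W)
    (h1 : ¬ Ac R D Q) : Ind R.r D Q W := by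
  unfold Ac at h1
  unfold Ind
  have e1 : Q ⊓ W = Q := inf_eq_left.2 hQW
  have e2 : D ⊓ Q ⊓ W = Q ⊓ D := by
    rw [inf_assoc, e1, inf_comm]
  have h2 := R.r_sub hD hQ hW
  have h3 := R.r_mono (R.opn_inf hQ hD) hQ inf_le_left
  rw [e1, e2] at *
  omega

/-- the rank of a conjugate over `W` -/
theorem r_cj_inf {A : Type} [Group A] (R : RSys A) {D W : Subgroup A} (hD : R.Opn D)
    (hW : R.Opn W) (g : A) (hg : g ∈ W) : R.r (cj g D ⊓ W) = R.r (D ⊓ W) := by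
  have e : cj g D ⊓ W = cj g (D ⊓ W) := by
    rw [cj_inf, cj_of_mem hg]
  rw [e, R.r_cj g _ (R.opn_inf hD hW)]

/-- algebraicity of a conjugate by an element of `W` over `W` -/
theorem ac_cj_mem {A : Type} [Group A] (R : RSys A) {D W : Subgroup A} (hD : R.Opn D)
    (hW : R.Opn W) (g : A) (hg : g ∈ W) (h : Ac R (cj g D) W) : Ac R D W := by
  have e : W = cj g W := (cj_of_mem hg).symm
  rw [e] at h
  exact (ac_cj hD hW g).1 h

/-- a smaller subgroup of the same rank is algebraic -/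
theorem ac_of_r {A : Type} [Group A] (R : RSys A) {W C : Subgroup A} (h : W ≤ C)
    (hr : R.r W = R.r C) : Ac R W C := by
  unfold Ac
  rw [inf_eq_right.2 h, hr]

theorem conj_of_rank_one {A : Type} [Group A] (R : RSys A) {D W Q : Subgroup A} (hD : R.Opn D)
    (hW : R.Opn W) (hQ : R.Opn Q) (hSt : St R.toOSys R.r W D) (hr : R.r (D ⊓ W) = R.r W + 1)
    (hQW : Q ≤ W) (h1 : ¬ Ac R D Q) (g : A) (hg : g ∈ W) (h2 : ¬ Ac R (cj g D) Q) :
    ∃ q ∈ Q, cj g D = cj q D := by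
  have i1 : Ind R.r (cj 1 D) Q W := by
    rw [cj_one]
    exact ind_of_rank_one R hD hW hQ hr hQW h1
  have i2 : Ind R.r (cj g D) Q W :=
    ind_of_rank_one R (R.opn_cj g hD) hW hQ (by rw [r_cj_inf R hD hW g hg, hr]) hQW h2
  obtain ⟨q, hq, hm⟩ := hSt Q hQ hQW 1 W.one_mem g hg i1 i2
  refine ⟨q, hq, ?_⟩
  have : q⁻¹ * g ∈ D := by
    have e : (1 : A)⁻¹ * q⁻¹ * g = q⁻¹ * g := by group
    rwa [e] at hm
  exact (cj_congr this).symm

theorem exists_stat {A : Type} [Group A] (R : RSys A) {C D : Subgroup A} (hD : R.Opn D)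
    (h : Cov R C D) : ∃ W ≤ C, R.Opn W ∧ R.r W = R.r C ∧ St R.toOSys R.r W D ∧
      R.r (D ⊓ W) = R.r W + 1 := by
  obtain ⟨hC, hCD, hn, hrD, -⟩ := h
  obtain ⟨W, hWC, hW, hr, hSt⟩ := R.r_stat (V := D) (B := C) hD hC
  refine ⟨W, hWC, hW, hr, hSt, ?_⟩
  have h1 : Ac R W D := (ac_of_r R hWC hr).trans hW hC hD hCD
  unfold Ac at h1
  rw [h1, hrD, hr]

theorem sim_of_mem {A : Type} [Group A] (R : RSys A) {C D W : Subgroup A} (hD : R.Opn D)
    (h : Cov R C D) (hWC : W ≤ C) (hW : R.Opn W) (hr : R.r W = R.r C)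
    (hSt : St R.toOSys R.r W D) (hr' : R.r (D ⊓ W) = R.r W + 1) (g : A) (hg : g ∈ W) :
    Sim R D (cj g D) := by
  have hC := h.1
  have hcj := cov_cj R hD h g
  rw [cj_of_mem (hWC hg)] at hcj
  refine ⟨C, h, hcj, ?_⟩
  intro E hE hEC
  have hWCa : Ac R W C := ac_of_r R hWC hr
  have hQ : R.Opn (E ⊓ W) := R.opn_inf hE hW
  have hQW : Ac R (E ⊓ W) W :=
    (hEC.of_le hE hC hW hWC).inf hE hW hW (ac_of_le le_rfl)
  have hQC : Ac R (E ⊓ W) C := hQW.trans hQ hW hC hWCa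
  have n1 : ¬ Ac R D (E ⊓ W) := fun a => h.2.2.1 (a.trans hD hQ hC hQC)
  have n2 : ¬ Ac R (cj g D) (E ⊓ W) := fun a =>
    h.2.2.1 ((ac_cj_mem R hD hW g hg (a.trans (R.opn_cj g hD) hQ hW hQW)).trans hD hW hC hWCa)
  obtain ⟨q, hq, e⟩ := conj_of_rank_one R hD hW hQ hSt hr' inf_le_right n1 g hg n2
  refine ⟨q, hq.1, ?_⟩
  rw [e]
  exact Cm.refl _

theorem sim_tr {A : Type} [Group A] (R : RSys A) {B C D D' : Subgroup A} (hD : R.Opn D)
    (hD' : R.Opn D') (hB : R.Opn B) (h : Sim R D D') (hC : Cov R C D) (hCB : Ac R C B)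
    (h1 : ¬ Ac R D B) (h2 : ¬ Ac R D' B) : ∃ g ∈ B, Cm R (cj g D) D' := by
  obtain ⟨C₁, hc1, hc2, hs⟩ := h
  have hcm := cov_unique R hc1 hC
  have hC1B : Ac R C₁ B := hcm.1.trans hc1.1 hC.1 hB hCB
  obtain ⟨W, hWC, hW, hr, hSt, hr'⟩ := exists_stat R hD hc1
  have hWCa : Ac R W C₁ := ac_of_r R hWC hr
  obtain ⟨g₀, hg₀, hcm0⟩ := hs W hW hWCa
  have hWB : Ac R W B := hWCa.trans hW hc1.1 hB hC1B
  have hQ : R.Opn (B ⊓ W) := R.opn_inf hB hW
  have hQB : Ac R (B ⊓ W) B := (ac_of_le le_rfl : Ac R B B).inf hB hW hB hWB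
  have n1 : ¬ Ac R D (B ⊓ W) := fun a => h1 (a.trans hD hQ hB hQB)
  have n2 : ¬ Ac R (cj g₀ D) (B ⊓ W) := fun a =>
    h2 (hcm0.2.trans hD' (R.opn_cj g₀ hD) hB (a.trans (R.opn_cj g₀ hD) hQ hB hQB))
  obtain ⟨q, hq, e⟩ := conj_of_rank_one R hD hW hQ hSt hr' inf_le_right n1 g₀ hg₀ n2
  refine ⟨q, hq.1, ?_⟩
  rw [← e]
  exact hcm0

theorem sim_inf {A : Type} [Group A] (R : RSys A) {C D : Subgroup A} (hD : R.Opn D)
    (h : Cov R C D) : ∃ d : ℕ → A, (∀ n, Sim R D (cj (d n) D)) ∧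
      ∀ i j, i ≠ j → ¬ Cm R (cj (d i) D) (cj (d j) D) := by
  obtain ⟨W, hWC, hW, hr, hSt, hr'⟩ := exists_stat R hD h
  have hC := h.1
  have hWCa : Ac R W C := ac_of_r R hWC hr
  have hex : ∀ X : {X : Subgroup A // R.Opn X}, ∃ g ∈ W, Ind R.r (cj g D) X.1 W :=
    fun X => R.r_ext hD X.2 hW
  choose f hf1 hf2 using hex
  let X : ℕ → {X : Subgroup A // R.Opn X} := fun n =>
    Nat.rec ⟨⊤, R.opn_top⟩ (fun _ Y => ⟨Y.1 ⊓ cj (f Y) D, R.opn_inf Y.2 (R.opn_cj _ hD)⟩) n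
  have hX : ∀ n, (X (n + 1)).1 = (X n).1 ⊓ cj (f (X n)) D := fun n => rfl
  have hle : ∀ i n, (X (i + 1 + n)).1 ≤ cj (f (X i)) D := by
    intro i n
    induction n with
    | zero =>
      rw [Nat.add_zero, hX]
      exact inf_le_right
    | succ n ih =>
      rw [← Nat.add_assoc, hX]
      exact inf_le_left.trans ih
  have key : ∀ i n, i < n → ¬ Ac R (cj (f (X n)) D) (cj (f (X i)) D) := by
    intro i n hin hac
    obtain ⟨k, rfl⟩ := Nat.exists_eq_add_of_le (Nat.succ_le_of_lt hin)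
    set P := cj (f (X (i + 1 + k))) D with hP
    have hPo : R.Opn P := R.opn_cj _ hD
    have h1 : Ac R P (X (i + 1 + k)).1 :=
      hac.of_le hPo (R.opn_cj _ hD) (X (i + 1 + k)).2 (hle i k)
    have h2 := h1.r_inf (Z := W) hPo (X (i + 1 + k)).2 hW
    have h3 := hf2 (X (i + 1 + k))
    unfold Ind at h3
    have e1 : P ⊓ (X (i + 1 + k)).1 ⊓ W = W ⊓ (X (i + 1 + k)).1 ⊓ P := by
      rw [inf_comm, inf_comm P, inf_assoc]
    rw [← hP, e1, h2, inf_comm (X (i + 1 + k)).1 W] at h3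
    have h4 : Ac R P W := by
      unfold Ac
      rw [inf_comm W P]
      omega
    exact h.2.2.1 ((ac_cj_mem R hD hW _ (hf1 (X (i + 1 + k))) h4).trans hD hW hC hWCa)
  refine ⟨fun n => f (X n), fun n => ?_, ?_⟩
  · exact sim_of_mem R hD h hWC hW hr hSt hr' _ (hf1 (X n))
  · intro i j hij hcm
    rcases lt_or_gt_of_ne hij with hlt | hlt
    · exact key i j hlt hcm.2
    · exact key j i hlt hcm.1

theorem sim_cj {A : Type} [Group A] (R : RSys A) {D D' : Subgroup A} (hD : R.Opn D)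
    (hD' : R.Opn D') (h : Sim R D D') (a : A) : Sim R (cj a D) (cj a D') := by
  obtain ⟨C, h1, h2, h3⟩ := h
  refine ⟨cj a C, cov_cj R hD h1 a, cov_cj R hD' h2 a, ?_⟩
  intro E hE hEC
  have hinv : ∀ V : Subgroup A, cj a⁻¹ (cj a V) = V := by
    intro V
    rw [← cj_mul, inv_mul_cancel, cj_one]
  have h4 : Ac R (cj a⁻¹ E) C := by
    have := (ac_cj hE (R.opn_cj a h1.1) a⁻¹).2 hEC
    rwa [hinv] at this
  obtain ⟨g, hg, hcm⟩ := h3 (cj a⁻¹ E) (R.opn_cj _ hE) h4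
  rw [mem_cj, inv_inv] at hg
  refine ⟨a * g * a⁻¹, hg, ?_⟩
  have e : cj (a * g * a⁻¹) (cj a D) = cj a (cj g D) := by
    rw [← cj_mul, ← cj_mul]
    congr 1
    group
  rw [e]
  exact (Cm.cj (R.opn_cj g hD) hD' a).2 hcm

theorem sim_fin {A : Type} [Group A] (R : RSys A) {B C D : Subgroup A} (hD : R.Opn D)
    (hB : R.Opn B) (h : Cov R C D) (hCB : Ac R C B) :
    ∃ T : Finset A, ∀ b ∈ B, ∃ t ∈ T, Sim R (cj t D) (cj b D) := by
  obtain ⟨W, hWC, hW, hr, hSt, hr'⟩ := exists_stat R hD h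
  have hC := h.1
  have hWB : Ac R W B := (ac_of_r R hWC hr).trans hW hC hB hCB
  obtain ⟨T, hT⟩ := R.r_fin (V := B ⊓ W) (W := B) (R.opn_inf hB hW) hB inf_le_left hWB
  refine ⟨T, ?_⟩
  intro b hb
  obtain ⟨t, ht, hw⟩ := hT b hb
  refine ⟨t, ht, ?_⟩
  have h1 := sim_of_mem R hD h hWC hW hr hSt hr' (t⁻¹ * b) hw.2
  have h2 := sim_cj R hD (R.opn_cj _ hD) h1 t
  rw [← cj_mul, mul_inv_cancel_left] at h2
  exact h2

theorem sim_symm {A : Type} [Group A] (R : RSys A) {D D' : Subgroup A} (hD : R.Opn D)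
    (hD' : R.Opn D') (h : Sim R D D') : Sim R D' D := by
  obtain ⟨C, h1, h2, h3⟩ := h
  refine ⟨C, h2, h1, ?_⟩
  intro E hE hEC
  obtain ⟨g, hg, hcm⟩ := h3 E hE hEC
  refine ⟨g⁻¹, E.inv_mem hg, ?_⟩
  have h4 := (Cm.cj (R.opn_cj g hD) hD' g⁻¹).2 hcm
  rw [← cj_mul, inv_mul_cancel, cj_one] at h4
  exact h4.symm

/-- an interalgebraic lower cover -/
theorem cov_cm_left {A : Type} [Group A] (R : RSys A) {C C' D : Subgroup A} (hD : R.Opn D)
    (hC : R.Opn C) (h : Cov R C' D) (hcm : Cm R C C') : Cov R C D := by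
  obtain ⟨hC', h1, h2, h3, h4⟩ := h
  refine ⟨hC, hcm.1.trans hC hC' hD h1, fun a => h2 (a.trans hD hC hC' hcm.1), ?_, ?_⟩
  · have a1 := hcm.1.le hC hC'
    have a2 := hcm.2.le hC' hC
    omega
  · intro E hE hED
    rcases h4 E hE hED with a | a
    · exact Or.inl a
    · exact Or.inr (a.trans hE hC' hC hcm.2)

theorem sim_trans {A : Type} [Group A] (R : RSys A) {D D' D'' : Subgroup A} (hD : R.Opn D)
    (hD' : R.Opn D') (hD'' : R.Opn D'') (h : Sim R D D') (h' : Sim R D' D'') : Sim R D D'' := by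
  obtain ⟨C, h1, h2, h3⟩ := h
  obtain ⟨C', h1', h2', h3'⟩ := h'
  have hcm := cov_unique R h2 h1'
  refine ⟨C, h1, cov_cm_left R hD'' h1.1 h2' hcm, ?_⟩
  intro E hE hEC
  obtain ⟨g, hg, hg'⟩ := h3 E hE hEC
  obtain ⟨k, hk, hk'⟩ := h3' E hE (hEC.trans hE h1.1 h1'.1 hcm.1)
  refine ⟨k * g, E.mul_mem hk hg, ?_⟩
  rw [cj_mul]
  exact ((Cm.cj (R.opn_cj g hD) hD' k).2 hg').trans (R.opn_cj k (R.opn_cj g hD))
    (R.opn_cj k hD') hD'' hk'

theorem sim_of_cm {A : Type} [Group A] (R : RSys A) {C D D' : Subgroup A} (hD : R.Opn D)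
    (hD' : R.Opn D') (hC : Cov R C D) (h : Cm R D D') : Sim R D D' := by
  obtain ⟨hCo, h1, h2, h3, h4⟩ := hC
  have hC' : Cov R C D' := by
    refine ⟨hCo, h1.trans hCo hD hD' h.1, fun a => h2 (h.1.trans hD hD' hCo a), ?_, ?_⟩
    · have a1 := h.1.le hD hD'
      have a2 := h.2.le hD' hD
      omega
    · intro E hE hED
      rcases h4 E hE (hED.trans hE hD' hD h.2) with a | a
      · exact Or.inl (h.2.trans hD' hD hE a)
      · exact Or.inr a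
  refine ⟨C, ⟨hCo, h1, h2, h3, h4⟩, hC', ?_⟩
  intro E _ _
  refine ⟨1, E.one_mem, ?_⟩
  rw [cj_one]
  exact h

theorem sim_lo {A : Type} [Group A] (R : RSys A) {D D' E : Subgroup A} (hD : R.Opn D)
    (hD' : R.Opn D') (hE : R.Opn E) (h : Sim R D D') (h1 : Ac R E D) (h2 : ¬ Cm R E D) :
    Ac R E D' ∧ ¬ Cm R E D' := by
  obtain ⟨C, c1, c2, -⟩ := h
  rcases c1.2.2.2.2 E hE h1 with a | a
  · exact absurd ⟨h1, a⟩ h2
  · exact ⟨a.trans hE c1.1 hD' c2.2.1, fun b => c2.2.2.1 (b.2.trans hD' hE c1.1 a)⟩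

end Pool.Agent.Helper596_Q
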