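import Mathlib
import Pool.Agent.Helper596_Q.Acl

/-!
# Countably many open subgroups, finite algebraic sets
-/

set_option autoImplicit false

namespace Pool.Agent.Helper596_Q

theorem stb_cj {A M : Type} [Group A] [MulAction A M] (g : A) (x : M) :
    cj g (stb A ({x} : Finset M)) = stb A ({g • x} : Finset M) := by
  ext a
  rw [mem_cj, mem_stb, mem_stb]
  simp only [Finset.mem_singleton, forall_eq]
  rw [mul_smul, mul_smul, inv_smul_eq_iff]

theorem stb_opn {A M : Type} [Group A] [MulAction A M] (R : RSys A)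
    (hopn : ∀ V : Subgroup A, R.Opn V ↔ ∃ F : Finset M, stb A F ≤ V) (F : Finset M) :
    R.Opn (stb A F) := (hopn _).2 ⟨F, le_rfl⟩

theorem cnt_opn_fin {A M : Type} [Group A] [MulAction A M] (R : RSys A) (W : Subgroup A)
    (hW : R.Opn W) : {V : Subgroup A | W ≤ V}.Finite := by
  classical
  obtain ⟨T, hT⟩ := R.dc hW hW
  have hinj : Set.InjOn (fun V : Subgroup A => T.filter (fun t => t ∈ V)) {V | W ≤ V} := by
    intro V hV V' hV' h
    have key : ∀ t ∈ T, t ∈ V ↔ t ∈ V' := by
      intro t ht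
      have := Finset.ext_iff.1 h t
      simpa [ht] using this
    have hmem : ∀ (U : Subgroup A), W ≤ U → ∀ (g t v w : A), v ∈ W → w ∈ W → g = v * t * w →
        (g ∈ U ↔ t ∈ U) := by
      intro U hU g t v w hv hw hg
      rw [hg, Subgroup.mul_mem_cancel_right U (hU hw), Subgroup.mul_mem_cancel_left U (hU hv)]
    ext g
    obtain ⟨t, ht, v, hv, w, hw, hg⟩ := hT g
    rw [hmem V hV g t v w hv hw hg, hmem V' hV' g t v w hv hw hg]
    exact key t ht
  refine Set.Finite.of_finite_image ?_ hinj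
  refine (T.powerset.finite_toSet).subset ?_
  rintro _ ⟨V, -, rfl⟩
  rw [Finset.mem_coe, Finset.mem_powerset]
  exact Finset.filter_subset _ _

theorem cnt_opn {A M : Type} [Group A] [MulAction A M] [Countable M] (R : RSys A)
    (hopn : ∀ V : Subgroup A, R.Opn V ↔ ∃ F : Finset M, stb A F ≤ V) :
    Countable {V : Subgroup A // R.Opn V} := by
  have h : {V : Subgroup A | R.Opn V} ⊆ ⋃ F : Finset M, {V | stb A F ≤ V} := by
    intro V hV
    obtain ⟨F, hF⟩ := (hopn V).1 hV
    exact Set.mem_iUnion.2 ⟨F, hF⟩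
  have h2 : (⋃ F : Finset M, {V : Subgroup A | stb A F ≤ V}).Countable :=
    Set.countable_iUnion fun F =>
      (cnt_opn_fin (M := M) R (stb A F) (stb_opn R hopn F)).countable
  exact (h2.mono h).to_subtype

theorem fin_alg {A M : Type} [Group A] [MulAction A M] (R : RSys A)
    (hopn : ∀ V : Subgroup A, R.Opn V ↔ ∃ F : Finset M, stb A F ≤ V)
    (horb : ∃ T : Finset M, ∀ x : M, ∃ t ∈ T, ∃ a : A, a • t = x) {B : Subgroup A}
    (hB : R.Opn B) : {x : M | Ac R (stb A {x}) B}.Finite := by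
  classical
  obtain ⟨T, hT⟩ := horb
  have h1 : ∀ t : M, ∃ S : Finset A, ∀ g : A, ∃ s ∈ S, ∃ b ∈ B, ∃ c ∈ stb A ({t} : Finset M),
      g = b * s * c := fun t => R.dc hB (stb_opn R hopn {t})
  choose S hS using h1
  have h2 : ∀ p : M, ∃ T' : Finset A, Ac R (stb A ({p} : Finset M)) B →
      ∀ b ∈ B, ∃ t' ∈ T', t' • p = b • p := by
    intro p
    by_cases hp : Ac R (stb A ({p} : Finset M)) B
    · obtain ⟨T', hT'⟩ := R.r_fin (R.opn_inf hB (stb_opn R hopn {p})) hB inf_le_left hp
      refine ⟨T', fun _ b hb => ?_⟩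
      obtain ⟨t', ht', hm⟩ := hT' b hb
      refine ⟨t', ht', ?_⟩
      have h3 := (Subgroup.mem_inf.1 hm).2
      rw [mem_stb] at h3
      have h4 := h3 p (Finset.mem_singleton_self p)
      rw [mul_smul, inv_smul_eq_iff] at h4
      exact h4.symm
    · exact ⟨∅, fun h => absurd h hp⟩
  choose T' hT' using h2
  let P : Finset M := T.biUnion fun t => (S t).image fun s => s • t
  let Q : Finset M := P.biUnion fun p => (T' p).image fun t' => t' • p
  refine Q.finite_toSet.subset ?_
  intro x hx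
  obtain ⟨t, ht, a, rfl⟩ := hT x
  obtain ⟨s, hs, b, hb, c, hc, rfl⟩ := hS t a
  have hct : c • t = t := hc t (Finset.mem_singleton_self t)
  have hx2 : (b * s * c) • t = b • (s • t) := by
    rw [mul_smul, mul_smul, hct]
  have hx' : Ac R (stb A ({b • (s • t)} : Finset M)) B := by
    have : Ac R (stb A ({(b * s * c) • t} : Finset M)) B := hx
    rwa [hx2] at this
  have hac : Ac R (stb A ({s • t} : Finset M)) B := by
    rw [← stb_cj, ← cj_of_mem hb, ac_cj (stb_opn R hopn _) hB] at hx'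
    exact hx'
  obtain ⟨t', ht', h3⟩ := hT' (s • t) hac b hb
  rw [hx2, Finset.mem_coe]
  refine Finset.mem_biUnion.2 ⟨s • t, ?_, ?_⟩
  · exact Finset.mem_biUnion.2 ⟨t, ht, Finset.mem_image_of_mem _ hs⟩
  · exact Finset.mem_image.2 ⟨t', ht', h3⟩

end Pool.Agent.Helper596_Q
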