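import Mathlib
import Pool.Agent.Helper596_Q.Acl
import Pool.Agent.Helper596_Q.C2
import Pool.Agent.Helper596_Q.C3
import Pool.Agent.Helper596_Q.C4
import Pool.Agent.Helper596_Q.C5a

/-!
# Finitely many similarity classes
-/

set_option autoImplicit false

namespace Pool.Agent.Helper596_Q


theorem cj_cj_inv {A : Type} [Group A] (a : A) (E : Subgroup A) : cj a (cj a⁻¹ E) = E := by
  rw [← cj_mul, mul_inv_cancel, cj_one]

theorem cj_inv_cj {A : Type} [Group A] (a : A) (E : Subgroup A) : cj a⁻¹ (cj a E) = E := by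
  rw [← cj_mul, inv_mul_cancel, cj_one]

theorem irr_cj {A : Type} [Group A] (R : RSys A) {D : Subgroup A} (h : Irr R D) (a : A) :
    Irr R (cj a D) := by
  obtain ⟨h1, h2, h3⟩ := h
  refine ⟨R.opn_cj a h1, ?_, ?_⟩
  · have ht : cj a (⊤ : Subgroup A) = ⊤ := by
      ext x
      rw [mem_cj]
      simp
    rw [← ht, ac_cj h1 R.opn_top]
    exact h2
  · intro E F hE hF hED hFD hD
    have hE' := R.opn_cj a⁻¹ hE
    have hF' := R.opn_cj a⁻¹ hF
    have e1 := cj_cj_inv a E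
    have e2 := cj_cj_inv a F
    rw [← e1, ac_cj hE' h1] at hED
    rw [← e2, ac_cj hF' h1] at hFD
    rw [← e1, ← e2, ← cj_inf, ac_cj h1 (R.opn_inf hE' hF')] at hD
    have := h3 _ _ hE' hF' hED hFD hD
    rw [← e1, ← e2, ac_cj h1 hE', ac_cj h1 hF']
    exact this

theorem cov_cm {A : Type} [Group A] (R : RSys A) {C D D' : Subgroup A} (hD : R.Opn D)
    (hD' : R.Opn D') (h : Cov R C D) (hc : Cm R D D') : Cov R C D' := by
  obtain ⟨h1, h2, h3, h4, h5⟩ := h
  obtain ⟨c1, c2⟩ := hc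
  have hr : R.r D = R.r D' := le_antisymm (c1.le hD hD') (c2.le hD' hD)
  refine ⟨h1, h2.trans h1 hD hD' c1, ?_, by omega, ?_⟩
  · intro h
    exact h3 (c1.trans hD hD' h1 h)
  · intro E hE hED'
    rcases h5 E hE (hED'.trans hE hD' hD c2) with h | h
    · exact Or.inl (c2.trans hD' hD hE h)
    · exact Or.inr h

theorem max_irr {A : Type} [Group A] (R : RSys A) (h : OB R) {X : Subgroup A} (hX : R.Opn X) :
    ∃ s : Finset (Subgroup A), (∀ D ∈ s, Irr R D ∧ Ac R D X) ∧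
      ∀ D, Irr R D → Ac R D X → ∃ D' ∈ s, Cm R D D' := by
  classical
  let P : ℕ → Prop := fun n => ∃ s : Finset (Subgroup A), s.card = n ∧
    (∀ D ∈ s, Irr R D ∧ Ac R D X) ∧ ∀ D ∈ s, ∀ D' ∈ s, D ≠ D' → ¬ Cm R D D'
  have hP0 : P 0 := ⟨∅, rfl, by simp, by simp⟩
  have hb : ∀ n, P n → n ≤ R.r X := by
    rintro n ⟨s, rfl, h1, h2⟩
    exact irr_card R h hX s h1 h2
  obtain ⟨s, hs, h1, h2⟩ := Nat.findGreatest_spec (P := P) (Nat.zero_le (R.r X)) hP0
  refine ⟨s, h1, ?_⟩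
  intro D hD hDX
  by_contra hcon
  push Not at hcon
  have hDs : D ∉ s := fun hmem => hcon D hmem (Cm.refl D)
  have hP : P (s.card + 1) := by
    refine ⟨insert D s, Finset.card_insert_of_notMem hDs, ?_, ?_⟩
    · intro D' hD'
      rcases Finset.mem_insert.1 hD' with rfl | hD'
      · exact ⟨hD, hDX⟩
      · exact h1 D' hD'
    · intro E hE F hF hEF
      rcases Finset.mem_insert.1 hE with rfl | hE1 <;> rcases Finset.mem_insert.1 hF with rfl | hF1
      · exact absurd rfl hEF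
      · exact hcon F hF1
      · intro hc
        exact hcon E hE1 hc.symm
      · exact h2 E hE1 F hF1 hEF
  have := Nat.le_findGreatest (hb _ hP) hP
  omega

theorem fin_sim {A M : Type} [Group A] [MulAction A M] (R : RSys A) (h : OB R)
    (hopn : ∀ V : Subgroup A, R.Opn V ↔ ∃ F : Finset M, stb A F ≤ V)
    (horb : ∃ T : Finset M, ∀ x : M, ∃ t ∈ T, ∃ a : A, a • t = x) {B : Subgroup A}
    (hB : R.Opn B) :
    ∃ T : Finset (Subgroup A), (∀ D ∈ T, Irr R D ∧ ∃ x : M, Ac R D (stb A {x})) ∧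
      ∀ C D : Subgroup A, Irr R D → (∃ x : M, Ac R D (stb A {x})) → Cov R C D → Ac R C B →
        ∃ D' ∈ T, Sim R D' D := by
  classical
  obtain ⟨T₀, hT₀⟩ := horb
  have hso : ∀ x : M, R.Opn (stb A ({x} : Finset M)) := fun x => (hopn _).2 ⟨{x}, le_rfl⟩
  choose sx hsx1 hsx2 using fun x : M => max_irr R h (hso x)
  choose! Cv hCv using fun (E : Subgroup A) (hE : Irr R E) => exists_cov R h hE
  choose! TE hTE using fun (E : Subgroup A) (hE : Irr R E) =>
    R.dc hB (R.opn_inf hE.1 (hCv E hE).1)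
  have hsf : ∀ (E : Subgroup A) (s : A), ∃ T : Finset A, Irr R E → Ac R (cj s (Cv E)) B →
      ∀ b ∈ B, ∃ t ∈ T, Sim R (cj t (cj s E)) (cj b (cj s E)) := by
    intro E s
    by_cases hE : Irr R E
    · by_cases hac : Ac R (cj s (Cv E)) B
      · obtain ⟨T, hT⟩ := sim_fin R (R.opn_cj s hE.1) hB (cov_cj R hE.1 (hCv E hE) s) hac
        exact ⟨T, fun _ _ => hT⟩
      · exact ⟨∅, fun _ h => absurd h hac⟩
    · exact ⟨∅, fun h => absurd h hE⟩
  choose TT hTT using hsf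
  refine ⟨(T₀.biUnion sx).biUnion fun E => (TE E).biUnion fun s => (TT E s).image fun t =>
    cj t (cj s E), ?_, ?_⟩
  · intro D hD
    simp only [Finset.mem_biUnion, Finset.mem_image] at hD
    obtain ⟨E, ⟨t0, ht0, hE⟩, s, hs, t, ht, rfl⟩ := hD
    obtain ⟨hE1, hE2⟩ := hsx1 t0 E hE
    refine ⟨irr_cj R (irr_cj R hE1 s) t, t • s • t0, ?_⟩
    rw [← stb_cj, ac_cj (R.opn_cj s hE1.1) (hso _), ← stb_cj, ac_cj hE1.1 (hso _)]
    exact hE2
  · rintro C D hD ⟨x, hx⟩ hC hCB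
    obtain ⟨t0, ht0, a, rfl⟩ := hT₀ x
    have h1 : Ac R (cj a⁻¹ D) (stb A ({t0} : Finset M)) := by
      have h2 : stb A ({t0} : Finset M) = cj a⁻¹ (stb A ({a • t0} : Finset M)) := by
        rw [stb_cj, inv_smul_smul]
      rw [h2, ac_cj hD.1 (hso _)]
      exact hx
    obtain ⟨E, hE, hcm⟩ := hsx2 t0 (cj a⁻¹ D) (irr_cj R hD a⁻¹) h1
    have hEi := (hsx1 t0 E hE).1
    have hDo := hD.1
    have hcm2 : Cm R D (cj a E) := by
      have := (Cm.cj (R.opn_cj a⁻¹ hDo) hEi.1 a).2 hcm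
      rwa [cj_cj_inv] at this
    have haE := R.opn_cj a hEi.1
    have hC2 : Cov R C (cj a E) := cov_cm R hDo haE hC hcm2
    have hC3 : Cov R (cj a (Cv E)) (cj a E) := cov_cj R hEi.1 (hCv E hEi) a
    have hcc := cov_unique R hC2 hC3
    have hac : Ac R (cj a (Cv E)) B := hcc.2.trans hC3.1 hC.1 hB hCB
    obtain ⟨s, hs, v, hv, w, hw, hg⟩ := hTE E hEi a
    have e1 : cj a E = cj v (cj s E) := by
      rw [hg, cj_mul, cj_mul, cj_of_mem hw.1]
    have e2 : cj a (Cv E) = cj v (cj s (Cv E)) := by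
      rw [hg, cj_mul, cj_mul, cj_of_mem hw.2]
    have hac2 : Ac R (cj s (Cv E)) B := by
      rw [e2] at hac
      have h3 : cj v B = B := cj_of_mem hv
      have h4 : Ac R (cj v (cj s (Cv E))) (cj v B) := by rw [h3]; exact hac
      rwa [ac_cj (R.opn_cj s (hCv E hEi).1) hB] at h4
    obtain ⟨t, ht, hsim⟩ := hTT E s hEi hac2 v hv
    refine ⟨cj t (cj s E), ?_, ?_⟩
    · simp only [Finset.mem_biUnion, Finset.mem_image]
      exact ⟨E, ⟨t0, ht0, hE⟩, s, hs, t, ht, rfl⟩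
    · rw [← e1] at hsim
      exact sim_trans R (R.opn_cj t (R.opn_cj s hEi.1)) haE hDo hsim
        (sim_of_cm R haE hDo hC2 hcm2.symm)

end Pool.Agent.Helper596_Q
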