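import Mathlib
import Pool.Agent.Helper596_Q.Op

/-!
# Labelled systems: definition
-/

set_option autoImplicit false

namespace Pool.Agent.Helper596_Q

/-- Irreducible elements below the points of `M`, as an abstract structure. -/
structure LSys (A M : Type) [Group A] [MulAction A M] where
  D : Type
  act : MulAction A D
  cnt : Countable D
  cl : M → Finset D
  lo : D → Finset D
  self_mem : ∀ d, d ∈ lo d
  lo_trans : ∀ d d', d' ∈ lo d → lo d' ⊆ lo d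
  lo_antisymm : ∀ d d', d' ∈ lo d → d ∈ lo d' → d = d'
  cl_lo : ∀ x d, d ∈ cl x → lo d ⊆ cl x
  below : ∀ d, ∃ x, d ∈ cl x
  cl_smul : ∀ (a : A) x d, a • d ∈ cl (a • x) ↔ d ∈ cl x
  lo_smul : ∀ (a : A) d d', a • d' ∈ lo (a • d) ↔ d' ∈ lo d
  sim : D → D → Prop
  sim_equiv : Equivalence sim
  sim_smul : ∀ (a : A) d d', sim d d' → sim (a • d) (a • d')
  sim_lo : ∀ d d', sim d d' → ∀ e, e ≠ d → e ∈ lo d → e ≠ d' ∧ e ∈ lo d'
  inf : ∀ d, {d' | sim d d'}.Infinite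
  tr : ∀ (Δ : Finset D), (∀ d ∈ Δ, lo d ⊆ Δ) → ∀ d d', sim d d' → d ∉ Δ → d' ∉ Δ →
    (∀ e ∈ lo d, e ≠ d → e ∈ Δ) → ∃ a : A, (∀ e ∈ Δ, a • e = e) ∧ a • d = d'
  fin1 : ∀ Δ : Finset D, {x | cl x ⊆ Δ}.Finite
  fin2 : ∀ Δ : Finset D, ∃ T : Finset D, ∀ d, (∀ e ∈ lo d, e ≠ d → e ∈ Δ) → ∃ t ∈ T, sim t d
  bdd : ∃ k : ℕ, ∀ x, (cl x).card ≤ k

end Pool.Agent.Helper596_Q
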