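import Mathlib
import Pool.Agent.Helper596_Q.Acl
import Pool.Agent.Helper596_Q.LSysDef
import Pool.Agent.Helper596_Q.C5c

/-!
# The labelled system of irreducibles
-/

set_option autoImplicit false

namespace Pool.Agent.Helper596_Q


theorem ac_biInf {A : Type} [Group A] (R : RSys A) {B : Subgroup A} (hB : R.Opn B) {ι : Type}
    (s : Finset ι) (X : ι → Subgroup A) (hX : ∀ i ∈ s, R.Opn (X i))
    (h : ∀ i ∈ s, Ac R (X i) B) : Ac R (⨅ i ∈ s, X i) B := by
  classical
  induction s using Finset.induction_on with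
  | empty =>
    simp only [Finset.notMem_empty, iInf_false, iInf_top]
    exact ac_of_le le_top
  | insert a J _ ih =>
    rw [Finset.iInf_insert]
    exact Ac.inf (hX a (Finset.mem_insert_self _ _))
      (R.opn_biInf J X (fun j hj => hX j (Finset.mem_insert_of_mem hj))) hB
      (h a (Finset.mem_insert_self _ _))
      (ih (fun j hj => hX j (Finset.mem_insert_of_mem hj))
        (fun j hj => h j (Finset.mem_insert_of_mem hj)))

theorem pt_alg {A : Type} [Group A] (R : RSys A) (h : OB R) {X B : Subgroup A} (hX : R.Opn X)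
    (hB : R.Opn B) (hE : ∀ E, Irr R E → Ac R E X → Ac R E B) : Ac R X B := by
  obtain ⟨s, hs, hsX⟩ := dec R h hX
  have ho : ∀ D ∈ s, R.Opn D := fun D hD => (hs D hD).1.1
  have h1 : Ac R (⨅ D ∈ s, D) B :=
    ac_biInf R hB s (fun D => D) ho (fun D hD => hE D (hs D hD).1 (hs D hD).2)
  exact hsX.trans hX (R.opn_biInf s (fun D => D) ho) hB h1

theorem cov_alg {A : Type} [Group A] (R : RSys A) (h : OB R) {B C D : Subgroup A}
    (hD : R.Opn D) (hB : R.Opn B) (hC : Cov R C D)
    (hE : ∀ E, Irr R E → Ac R E D → ¬ Cm R E D → Ac R E B) : Ac R C B := by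
  refine pt_alg R h hC.1 hB ?_
  intro E hI hEC
  refine hE E hI (hEC.trans hI.1 hC.1 hD hC.2.1) ?_
  intro hcm
  exact hC.2.2.1 (hcm.2.trans hD hI.1 hC.1 hEC)

section con

variable {A : Type} [Group A]

/-- Irreducible subgroups below a point of `M`. -/
def Ty (R : RSys A) (M : Type) [MulAction A M] : Type :=
  {V : Subgroup A // Irr R V ∧ ∃ x : M, Ac R V (stb A ({x} : Finset M))}

/-- Interalgebraicity. -/
def tyS (R : RSys A) (M : Type) [MulAction A M] : Setoid (Ty R M) where
  r V W := Cm R V.1 W.1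
  iseqv := ⟨fun _ => Cm.refl _, fun h => h.symm,
    fun {a b c} h h' => Cm.trans a.2.1.1 b.2.1.1 c.2.1.1 h h'⟩

/-- Classes of irreducible subgroups below a point of `M`. -/
def DT (R : RSys A) (M : Type) [MulAction A M] : Type := Quotient (tyS R M)

variable {M : Type} [MulAction A M] {R : RSys A}

/-- The class of a subgroup. -/
def DT.mk (V : Subgroup A) (h : Irr R V) (h' : ∃ x : M, Ac R V (stb A ({x} : Finset M))) :
    DT R M := Quotient.mk (tyS R M) ⟨V, h, h'⟩

/-- A representative. -/
noncomputable def rep (d : DT R M) : Subgroup A := (Quotient.out d).1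

theorem rep_irr (d : DT R M) : Irr R (rep d) := (Quotient.out d).2.1

theorem rep_opn (d : DT R M) : R.Opn (rep d) := (rep_irr d).1

theorem rep_pt (d : DT R M) : ∃ x : M, Ac R (rep d) (stb A ({x} : Finset M)) :=
  (Quotient.out d).2.2

theorem rep_mk (V : Subgroup A) (h : Irr R V) (h' : ∃ x : M, Ac R V (stb A ({x} : Finset M))) :
    Cm R (rep (DT.mk V h h')) V := by
  have := Quotient.mk_out (s := tyS R M) ⟨V, h, h'⟩
  exact this

theorem rep_ext {d d' : DT R M} (h : Cm R (rep d) (rep d')) : d = d' := by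
  have h1 : Quotient.mk (tyS R M) (Quotient.out d) = Quotient.mk (tyS R M) (Quotient.out d') :=
    Quotient.sound (s := tyS R M) h
  rwa [Quotient.out_eq, Quotient.out_eq] at h1

theorem pt_smul (hM : ∀ x : M, R.Opn (stb A ({x} : Finset M))) {V : Subgroup A} (hV : R.Opn V)
    (a : A) (h : ∃ x : M, Ac R V (stb A ({x} : Finset M))) :
    ∃ x : M, Ac R (cj a V) (stb A ({x} : Finset M)) := by
  obtain ⟨x, hx⟩ := h
  refine ⟨a • x, ?_⟩
  rw [← stb_cj, ac_cj hV (hM x)]
  exact hx

/-- The action on classes. -/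
noncomputable def sm (hM : ∀ x : M, R.Opn (stb A ({x} : Finset M))) (a : A) (d : DT R M) :
    DT R M :=
  DT.mk (cj a (rep d)) (irr_cj R (rep_irr d) a) (pt_smul hM (rep_opn d) a (rep_pt d))

theorem rep_sm (hM : ∀ x : M, R.Opn (stb A ({x} : Finset M))) (a : A) (d : DT R M) :
    Cm R (rep (sm hM a d)) (cj a (rep d)) :=
  rep_mk _ _ _

/-- The action on classes. -/
@[instance_reducible] noncomputable def actD (hM : ∀ x : M, R.Opn (stb A ({x} : Finset M))) : MulAction A (DT R M) where
  smul := sm hM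
  one_smul := by
    intro d
    change sm hM 1 d = d
    apply rep_ext
    have := rep_sm hM 1 d
    rwa [cj_one] at this
  mul_smul := by
    intro a b d
    change sm hM (a * b) d = sm hM a (sm hM b d)
    apply rep_ext
    have h1 := rep_sm hM (a * b) d
    have h2 := rep_sm hM a (sm hM b d)
    have h3 := (Cm.cj (rep_opn _) (R.opn_cj b (rep_opn d)) a).2 (rep_sm hM b d)
    rw [cj_mul] at h1
    exact Cm.trans (rep_opn _) (R.opn_cj a (R.opn_cj b (rep_opn d))) (rep_opn _) h1
      ((h2.trans (rep_opn _) (R.opn_cj a (rep_opn _)) (R.opn_cj a (R.opn_cj b (rep_opn d)))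
        h3).symm)

theorem card_le (h : OB R) {X : Subgroup A} (hX : R.Opn X) (t : Finset (DT R M))
    (ht : ∀ d ∈ t, Ac R (rep d) X) : t.card ≤ R.r X := by
  classical
  have hi : Function.Injective (rep : DT R M → Subgroup A) := by
    intro d d' hd
    apply rep_ext
    rw [hd]
    exact Cm.refl _
  rw [← Finset.card_image_of_injective t hi]
  apply irr_card R h hX
  · intro D hD
    obtain ⟨d, hd, rfl⟩ := Finset.mem_image.1 hD
    exact ⟨rep_irr d, ht d hd⟩
  · intro D hD D' hD' hne hcm
    obtain ⟨d, hd, rfl⟩ := Finset.mem_image.1 hD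
    obtain ⟨d', hd', rfl⟩ := Finset.mem_image.1 hD'
    exact hne (congrArg rep (rep_ext hcm))

theorem fin_below (h : OB R) {X : Subgroup A} (hX : R.Opn X) :
    {d : DT R M | Ac R (rep d) X}.Finite := by
  by_contra hinf
  obtain ⟨t, ht, hc⟩ := Set.Infinite.exists_subset_card_eq hinf (R.r X + 1)
  have := card_le h hX t (fun d hd => ht hd)
  omega

theorem sim_congr {D D' D₁ D₁' : Subgroup A} (h : OB R) (hD : Irr R D) (hD' : Irr R D')
    (hD₁ : Irr R D₁) (hD₁' : Irr R D₁') (h1 : Cm R D D₁) (h2 : Cm R D' D₁') (hs : Sim R D D') :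
    Sim R D₁ D₁' := by
  obtain ⟨C, hC⟩ := exists_cov R h hD
  obtain ⟨C', hC'⟩ := exists_cov R h hD'
  have a1 : Sim R D₁ D := sim_symm R hD.1 hD₁.1 (sim_of_cm R hD.1 hD₁.1 hC h1)
  have a2 : Sim R D' D₁' := sim_of_cm R hD'.1 hD₁'.1 hC' h2
  exact sim_trans R hD₁.1 hD'.1 hD₁'.1 (sim_trans R hD₁.1 hD.1 hD'.1 a1 hs) a2

/-- Something below a point and algebraic over the class representative of a member. -/
theorem ac_mem {Δ : Finset (DT R M)} {B : Subgroup A} (hB : B = ⨅ e ∈ Δ, rep e)
    {E : Subgroup A} (hE : Irr R E) (hx : ∃ x : M, Ac R E (stb A ({x} : Finset M)))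
    (hm : DT.mk E hE hx ∈ Δ) : Ac R E B := by
  have hBo : R.Opn B := by
    rw [hB]
    exact R.opn_biInf Δ rep (fun e _ => rep_opn e)
  have hle : B ≤ rep (DT.mk E hE hx) := by
    rw [hB]
    exact iInf₂_le _ hm
  exact (rep_mk E hE hx).2.trans hE.1 (rep_opn _) hBo (ac_of_le hle)

theorem cov_mem (h : OB R) (hM : ∀ x : M, R.Opn (stb A ({x} : Finset M)))
    {Δ : Finset (DT R M)} {B : Subgroup A} (hB : B = ⨅ e ∈ Δ, rep e) {d : DT R M}
    (hd : ∀ e : DT R M, Ac R (rep e) (rep d) → e ≠ d → e ∈ Δ) {C : Subgroup A}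
    (hC : Cov R C (rep d)) : Ac R C B := by
  have hBo : R.Opn B := by
    rw [hB]
    exact R.opn_biInf Δ rep (fun e _ => rep_opn e)
  refine cov_alg R h (rep_opn d) hBo hC ?_
  intro E hE hEd hne
  have hx : ∃ x : M, Ac R E (stb A ({x} : Finset M)) := by
    obtain ⟨x, hx⟩ := rep_pt d
    exact ⟨x, hEd.trans hE.1 (rep_opn d) (hM x) hx⟩
  refine ac_mem hB hE hx (hd _ ((rep_mk E hE hx).1.trans (rep_opn _) hE.1 (rep_opn d) hEd) ?_)
  intro he
  apply hne
  have := rep_mk E hE hx
  rw [he] at this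
  exact this.symm

theorem not_ac (h : OB R) {Δ : Finset (DT R M)} {B : Subgroup A} (hB : B = ⨅ e ∈ Δ, rep e)
    (hl : ∀ e ∈ Δ, ∀ d : DT R M, Ac R (rep d) (rep e) → d ∈ Δ) {d : DT R M} (hd : d ∉ Δ) :
    ¬ Ac R (rep d) B := by
  intro hac
  rw [hB] at hac
  obtain ⟨e, he, hde⟩ := prime R h (rep_irr d) Δ rep (fun e _ => rep_opn e) hac
  exact hd (hl e he d hde)

end con

theorem exists_lsys {A M : Type} [Group A] [MulAction A M] [Countable M] (R : RSys A) (h : OB R)
    (hopn : ∀ V : Subgroup A, R.Opn V ↔ ∃ F : Finset M, stb A F ≤ V)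
    (horb : ∃ T : Finset M, ∀ x : M, ∃ t ∈ T, ∃ a : A, a • t = x) : Nonempty (LSys A M) := by
  classical
  have hM : ∀ x : M, R.Opn (stb A ({x} : Finset M)) := fun x => (hopn _).2 ⟨{x}, le_rfl⟩
  have hsm : ∀ (a : A) (d : DT R M), Cm R (rep (sm hM a d)) (cj a (rep d)) := rep_sm hM
  exact ⟨{
    D := DT R M
    act := actD hM
    cnt := by
      have := cnt_opn (M := M) R hopn
      refine Function.Injective.countable
        (f := fun d : DT R M => (⟨rep d, rep_opn d⟩ : {V : Subgroup A // R.Opn V})) ?_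
      intro d d' hd
      have hd' : rep d = rep d' := congrArg (fun V : {V : Subgroup A // R.Opn V} => V.1) hd
      apply rep_ext
      rw [hd']
      exact Cm.refl _
    cl := fun x => (fin_below h (hM x)).toFinset
    lo := fun d => (fin_below h (rep_opn d)).toFinset
    self_mem := by
      intro d
      rw [Set.Finite.mem_toFinset]
      exact ac_of_le le_rfl
    lo_trans := by
      intro d d' hd e he
      rw [Set.Finite.mem_toFinset] at hd he ⊢
      exact Ac.trans (rep_opn _) (rep_opn _) (rep_opn _) he hd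
    lo_antisymm := by
      intro d d' hd hd'
      rw [Set.Finite.mem_toFinset] at hd hd'
      exact rep_ext ⟨hd', hd⟩
    cl_lo := by
      intro x d hd e he
      rw [Set.Finite.mem_toFinset] at hd he ⊢
      exact Ac.trans (rep_opn _) (rep_opn _) (hM x) he hd
    below := by
      intro d
      obtain ⟨x, hx⟩ := rep_pt d
      exact ⟨x, (Set.Finite.mem_toFinset _).2 hx⟩
    cl_smul := by
      intro a x d
      rw [Set.Finite.mem_toFinset, Set.Finite.mem_toFinset]
      change Ac R (rep (sm hM a d)) (stb A ({a • x} : Finset M)) ↔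
        Ac R (rep d) (stb A ({x} : Finset M))
      rw [← ac_cj (rep_opn d) (hM x) a, stb_cj]
      exact ⟨fun hh => (hsm a d).2.trans (R.opn_cj a (rep_opn d)) (rep_opn _) (hM _) hh,
        fun hh => (hsm a d).1.trans (rep_opn _) (R.opn_cj a (rep_opn d)) (hM _) hh⟩
    lo_smul := by
      intro a d d'
      rw [Set.Finite.mem_toFinset, Set.Finite.mem_toFinset]
      change Ac R (rep (sm hM a d')) (rep (sm hM a d)) ↔ Ac R (rep d') (rep d)
      rw [← ac_cj (rep_opn d') (rep_opn d) a]
      have o1 := R.opn_cj a (rep_opn d)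
      have o2 := R.opn_cj a (rep_opn d')
      constructor
      · intro hh
        exact ((hsm a d').2.trans o2 (rep_opn _) (rep_opn _) hh).trans o2 (rep_opn _) o1
          (hsm a d).1
      · intro hh
        exact ((hsm a d').1.trans (rep_opn _) o2 o1 hh).trans (rep_opn _) o1 (rep_opn _)
          (hsm a d).2
    sim := fun d d' => Sim R (rep d) (rep d')
    sim_equiv := by
      refine ⟨?_, ?_, ?_⟩
      · intro d
        obtain ⟨C, hC⟩ := exists_cov R h (rep_irr d)
        exact sim_of_cm R (rep_opn d) (rep_opn d) hC (Cm.refl _)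
      · intro d d' hd
        exact sim_symm R (rep_opn _) (rep_opn _) hd
      · intro d d' d'' hd hd'
        exact sim_trans R (rep_opn _) (rep_opn _) (rep_opn _) hd hd'
    sim_smul := by
      intro a d d' hd
      change Sim R (rep (sm hM a d)) (rep (sm hM a d'))
      exact sim_congr h (irr_cj R (rep_irr d) a) (irr_cj R (rep_irr d') a) (rep_irr _) (rep_irr _)
        (hsm a d).symm (hsm a d').symm (sim_cj R (rep_opn _) (rep_opn _) hd a)
    sim_lo := by
      intro d d' hd e hne he
      rw [Set.Finite.mem_toFinset] at he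
      have := sim_lo R (rep_opn d) (rep_opn d') (rep_opn e) hd he
        (fun hcm => hne (rep_ext hcm))
      refine ⟨?_, (Set.Finite.mem_toFinset _).2 this.1⟩
      rintro rfl
      exact this.2 (Cm.refl _)
    inf := by
      intro d
      obtain ⟨C, hC⟩ := exists_cov R h (rep_irr d)
      obtain ⟨g, hg, hne⟩ := sim_inf R (rep_opn d) hC
      refine Set.infinite_of_injective_forall_mem (f := fun n => sm hM (g n) d) ?_ ?_
      · intro i j hij
        by_contra hij'
        apply hne i j hij'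
        have hij2 : sm hM (g i) d = sm hM (g j) d := hij
        have h1 := hsm (g i) d
        have h2 := hsm (g j) d
        rw [hij2] at h1
        exact Cm.trans (R.opn_cj _ (rep_opn d)) (rep_opn _) (R.opn_cj _ (rep_opn d)) h1.symm h2
      · intro n
        change Sim R (rep d) (rep (sm hM (g n) d))
        exact sim_congr h (rep_irr d) (irr_cj R (rep_irr d) (g n)) (rep_irr d) (rep_irr _)
          (Cm.refl _) (hsm (g n) d).symm (hg n)
    tr := by
      intro Δ hΔ d d' hs hd hd' hlo
      have hBo : R.Opn (⨅ e ∈ Δ, rep e) := R.opn_biInf Δ rep (fun e _ => rep_opn e)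
      have hl : ∀ e ∈ Δ, ∀ d : DT R M, Ac R (rep d) (rep e) → d ∈ Δ := by
        intro e he d hd
        exact hΔ e he ((Set.Finite.mem_toFinset _).2 hd)
      obtain ⟨C, hC⟩ := exists_cov R h (rep_irr d)
      have hCB : Ac R C (⨅ e ∈ Δ, rep e) :=
        cov_mem h hM rfl (fun e he hne => hlo e ((Set.Finite.mem_toFinset _).2 he) hne) hC
      obtain ⟨g, hg, hgd⟩ := sim_tr R (rep_opn d) (rep_opn d') hBo hs hC hCB
        (not_ac h rfl hl hd) (not_ac h rfl hl hd')
      refine ⟨g, ?_, ?_⟩
      · intro e he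
        change sm hM g e = e
        apply rep_ext
        have h1 := hsm g e
        have hge : g ∈ rep e := (iInf₂_le e he : (⨅ e ∈ Δ, rep e) ≤ rep e) hg
        rwa [cj_of_mem hge] at h1
      · change sm hM g d = d'
        apply rep_ext
        exact (hsm g d).trans (rep_opn _) (R.opn_cj _ (rep_opn d)) (rep_opn _) hgd
    fin1 := by
      intro Δ
      have hBo : R.Opn (⨅ e ∈ Δ, rep e) := R.opn_biInf Δ rep (fun e _ => rep_opn e)
      refine (fin_alg R hopn horb hBo).subset ?_
      intro x hx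
      change Ac R (stb A ({x} : Finset M)) (⨅ e ∈ Δ, rep e)
      refine pt_alg R h (hM x) hBo ?_
      intro E hE hEx
      refine ac_mem rfl hE ⟨x, hEx⟩ (hx ((Set.Finite.mem_toFinset _).2 ?_))
      exact (rep_mk E hE ⟨x, hEx⟩).1.trans (rep_opn _) hE.1 (hM x) hEx
    fin2 := by
      intro Δ
      have hBo : R.Opn (⨅ e ∈ Δ, rep e) := R.opn_biInf Δ rep (fun e _ => rep_opn e)
      obtain ⟨T, hT, hT'⟩ := fin_sim R h hopn horb hBo
      refine ⟨T.attach.image (fun V => DT.mk V.1 (hT V.1 V.2).1 (hT V.1 V.2).2), ?_⟩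
      intro d hd
      obtain ⟨C, hC⟩ := exists_cov R h (rep_irr d)
      have hCB : Ac R C (⨅ e ∈ Δ, rep e) :=
        cov_mem h hM rfl (fun e he hne => hd e ((Set.Finite.mem_toFinset _).2 he) hne) hC
      obtain ⟨D', hD', hs⟩ := hT' C (rep d) (rep_irr d) (rep_pt d) hC hCB
      refine ⟨DT.mk D' (hT D' hD').1 (hT D' hD').2,
        Finset.mem_image.2 ⟨⟨D', hD'⟩, Finset.mem_attach _ _, rfl⟩, ?_⟩
      exact sim_congr h (hT D' hD').1 (rep_irr d) (rep_irr _) (rep_irr d)
        (rep_mk D' (hT D' hD').1 (hT D' hD').2).symm (Cm.refl _) hs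
    bdd := by
      obtain ⟨T, hT⟩ := horb
      refine ⟨T.sup (fun t => R.r (stb A ({t} : Finset M))), ?_⟩
      intro x
      obtain ⟨t, ht, a, ha⟩ := hT x
      have h1 : R.r (stb A ({x} : Finset M)) = R.r (stb A ({t} : Finset M)) := by
        rw [← ha, ← stb_cj, R.r_cj a _ (hM t)]
      have h2 : (fin_below (M := M) h (hM x)).toFinset.card ≤ R.r (stb A ({x} : Finset M)) := by
        apply card_le h (hM x)
        intro d hd
        rw [Set.Finite.mem_toFinset] at hd
        exact hd
      refine le_trans h2 ?_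
      rw [h1]
      exact Finset.le_sup (f := fun t => R.r (stb A ({t} : Finset M))) ht }⟩

end Pool.Agent.Helper596_Q
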