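import Mathlib

/-!
# Finite partial order isomorphisms of the rationals extend to automorphisms
-/

set_option autoImplicit false

namespace Pool.Agent.Helper596_Q

open Order PartialIso

/-- Every strictly monotone map from a finite set of rationals to the rationals extends to an
order automorphism. -/
theorem exists_ext (F : Finset ℚ) (β : ℚ → ℚ) (hβ : StrictMonoOn β (F : Set ℚ)) :
    ∃ σ : ℚ ≃o ℚ, ∀ q ∈ F, σ q = β q := by
  classical
  let p0 : PartialIso ℚ ℚ := ⟨F.image (fun q => (q, β q)), by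
    intro p hp q hq
    rw [Finset.mem_image] at hp hq
    obtain ⟨a, ha, rfl⟩ := hp
    obtain ⟨b, hb, rfl⟩ := hq
    show cmp a b = cmp (β a) (β b)
    rcases lt_trichotomy a b with h | h | h
    · rw [(cmp_eq_lt_iff _ _).2 h, (cmp_eq_lt_iff _ _).2 (hβ ha hb h)]
    · subst h
      simp
    · rw [(cmp_eq_gt_iff _ _).2 h, (cmp_eq_gt_iff _ _).2 (hβ hb ha h)]⟩
  cases nonempty_encodable ℚ
  let to_cofinal : ℚ ⊕ ℚ → Cofinal (PartialIso ℚ ℚ) := fun p ↦
    Sum.recOn p (definedAtLeft ℚ) (definedAtRight ℚ)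
  let our_ideal : Ideal (PartialIso ℚ ℚ) := idealOfCofinals p0 to_cofinal
  have hp0 : p0 ∈ our_ideal := mem_idealOfCofinals p0 to_cofinal
  let Fn a := funOfIdeal a our_ideal (cofinal_meets_idealOfCofinals _ to_cofinal (Sum.inl a))
  let G b := invOfIdeal b our_ideal (cofinal_meets_idealOfCofinals _ to_cofinal (Sum.inr b))
  refine ⟨OrderIso.ofCmpEqCmp (fun a ↦ (Fn a).val) (fun b ↦ (G b).val) fun a b ↦ by
      rcases (Fn a).prop with ⟨f, hf, ha⟩
      rcases (G b).prop with ⟨g, hg, hb⟩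
      rcases our_ideal.directed _ hf _ hg with ⟨m, _, fm, gm⟩
      exact m.prop (a, _) (fm ha) (_, b) (gm hb), ?_⟩
  intro q hq
  show (Fn q).val = β q
  rcases (Fn q).prop with ⟨f, hf, ha⟩
  rcases our_ideal.directed _ hf _ hp0 with ⟨m, _, fm, gm⟩
  have h1 : (q, β q) ∈ m.val := gm (Finset.mem_image_of_mem (fun q => (q, β q)) hq)
  have h2 := m.prop (q, _) (fm ha) (q, β q) h1
  simp only [cmp_self_eq_eq] at h2
  exact (cmp_eq_eq_iff _ _).1 h2.symm

/-- A strictly monotone map between finite sets of rationals. -/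
theorem exists_ext' {α : Type*} (F : Finset α) (u v : α → ℚ)
    (h : ∀ a ∈ F, ∀ b ∈ F, (u a < u b ↔ v a < v b)) :
    ∃ σ : ℚ ≃o ℚ, ∀ a ∈ F, σ (u a) = v a := by
  classical
  have hinj : ∀ a ∈ F, ∀ b ∈ F, u a = u b → v a = v b := by
    intro a ha b hb hab
    have h1 := h a ha b hb
    have h2 := h b hb a ha
    rw [hab] at h1 h2
    simp only [lt_irrefl, false_iff, not_lt] at h1 h2
    exact le_antisymm h2 h1
  let β : ℚ → ℚ := fun q => if hq : ∃ a ∈ F, u a = q then v hq.choose else q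
  have hβ : ∀ a ∈ F, β (u a) = v a := by
    intro a ha
    have hq : ∃ b ∈ F, u b = u a := ⟨a, ha, rfl⟩
    show (if hq : ∃ b ∈ F, u b = u a then v hq.choose else u a) = v a
    rw [dif_pos hq]
    exact hinj _ hq.choose_spec.1 _ ha hq.choose_spec.2
  obtain ⟨σ, hσ⟩ := exists_ext (F.image u) β (by
    intro x hx y hy hxy
    rw [Finset.mem_coe, Finset.mem_image] at hx hy
    obtain ⟨a, ha, rfl⟩ := hx
    obtain ⟨b, hb, rfl⟩ := hy
    rw [hβ a ha, hβ b hb]
    exact (h a ha b hb).1 hxy)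
  exact ⟨σ, fun a ha => by rw [hσ _ (Finset.mem_image_of_mem u ha), hβ a ha]⟩

end Pool.Agent.Helper596_Q
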