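import Mathlib
import Pool.Agent.Helper596_Q.Ext

/-!
# Actions of the automorphism group of the rational order with finite supports, and the
  main counting step
-/

set_option autoImplicit false

namespace Pool.Agent.Helper596_Q

/-- Finite supports, of bounded size, for an action of the group of order automorphisms of `ℚ`;
there are polynomially many elements supported in a given finite set. -/
structure QAct (M : Type*) [MulAction (ℚ ≃o ℚ) M] where
  supp : M → Finset ℚ
  k : ℕ
  smul_supp : ∀ (σ : ℚ ≃o ℚ) (x : M), supp (σ • x) = (supp x).image σ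
  fix : ∀ (σ : ℚ ≃o ℚ) (x : M), (∀ q ∈ supp x, σ q = q) → σ • x = x
  card_le : ∀ x, (supp x).card ≤ k
  fib : Finset ℚ → Finset M
  mem_fib : ∀ D x, x ∈ fib D ↔ supp x ⊆ D
  r : ℕ
  card_fib : ∀ D, (fib D).card ≤ r * (D.card + 1) ^ k

variable {M : Type*} [MulAction (ℚ ≃o ℚ) M] (S : QAct M)

/-- `f` agrees with an element of `G` on the elements supported in `D`. -/
def In (G : Subgroup (Equiv.Perm M)) (D : Finset ℚ) (f : M → M) : Prop :=
  ∃ g ∈ G, ∀ x, S.supp x ⊆ D → g x = f x

open Classical in
/-- The elements supported in `D` which are moved by `g`. -/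
noncomputable def Mv (D : Finset ℚ) (g : M → M) : Finset M := (S.fib D).filter (fun x => g x ≠ x)

theorem mem_Mv {D : Finset ℚ} {g : M → M} {x : M} : x ∈ Mv S D g ↔ S.supp x ⊆ D ∧ g x ≠ x := by
  classical
  unfold Mv
  rw [Finset.mem_filter, S.mem_fib]

theorem card_hit {ι α : Type*} [Fintype ι] (F : Finset α) (Q : ι → α → Prop)
    (hQ : ∀ q i j, Q i q → Q j q → i = j) [DecidablePred fun i => ∃ q ∈ F, Q i q] :
    (Finset.univ.filter (fun i => ∃ q ∈ F, Q i q)).card ≤ F.card := by
  classical
  by_cases hF : F.Nonempty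
  · obtain ⟨q0, hq0⟩ := hF
    refine Finset.card_le_card_of_injOn (fun i => if h : ∃ q ∈ F, Q i q then h.choose else q0)
      ?_ ?_
    · intro i hi
      rw [Finset.mem_coe, Finset.mem_filter] at hi
      show (if h : ∃ q ∈ F, Q i q then h.choose else q0) ∈ (F : Set α)
      rw [dif_pos hi.2]
      exact hi.2.choose_spec.1
    · intro i hi j hj hij
      rw [Finset.mem_coe, Finset.mem_filter] at hi hj
      have hij' : (if h : ∃ q ∈ F, Q i q then h.choose else q0) =
        (if h : ∃ q ∈ F, Q j q then h.choose else q0) := hij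
      rw [dif_pos hi.2, dif_pos hj.2] at hij'
      have h1 := hi.2.choose_spec.2
      have h2 := hj.2.choose_spec.2
      rw [hij'] at h1
      exact hQ _ _ _ h1 h2
  · rw [Finset.not_nonempty_iff_eq_empty] at hF
    subst hF
    simp

theorem sum_card_le {ι α : Type*} [Fintype ι] (s : Finset α) (P : ι → α → Prop) (k : ℕ)
    [∀ i, DecidablePred (P i)]
    (h : ∀ x ∈ s, ∀ [DecidablePred fun i => P i x],
      (Finset.univ.filter (fun i => P i x)).card ≤ k) :
    ∑ i, (s.filter (P i)).card ≤ k * s.card := by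
  classical
  have h1 : ∑ i, (s.filter (P i)).card = ∑ x ∈ s, (Finset.univ.filter (fun i => P i x)).card := by
    simp only [Finset.card_filter]
    exact Finset.sum_comm
  rw [h1]
  calc ∑ x ∈ s, (Finset.univ.filter (fun i => P i x)).card ≤ ∑ _x ∈ s, k :=
        Finset.sum_le_sum (fun x hx => h x hx)
    _ = k * s.card := by rw [Finset.sum_const, smul_eq_mul, mul_comm]

/-- **The main step.** -/
theorem step {ι : Type*} [Fintype ι] [Nonempty ι] (G : Subgroup (Equiv.Perm M))
    (hG : ∀ σ : ℚ ≃o ℚ, MulAction.toPerm σ ∈ G) (D D' : Finset ℚ) (U V : ι → Finset ℚ)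
    (l r : ι → ℚ) (β : ι → ℚ → ℚ)
    (hlr : ∀ i j, i ≠ j → r i < l j ∨ r j < l i)
    (hU : ∀ i, ∀ q ∈ U i, q ∈ D ∧ l i ≤ q ∧ q ≤ r i)
    (hV : ∀ i, ∀ q ∈ V i, q ∈ D ∧ l i ≤ q ∧ q ≤ r i)
    (hUV : ∀ i, ∀ q ∈ U i, q ∉ V i)
    (hβ : ∀ i, ∀ p ∈ U i, ∀ q ∈ U i, (p < q ↔ β i p < β i q))
    (hβV : ∀ i, ∀ q ∈ U i, β i q ∈ V i)
    (hD' : D' ⊆ D) (hD'V : ∀ i, ∀ q ∈ D', l i ≤ q → q ≤ r i → q ∈ U i)
    (g : M → M) (hg : ∀ i, In S G (D \ U i) g) :
    ∃ c ∈ G, Fintype.card ι * (Mv S D' (fun x => c⁻¹ (g x))).card ≤ 3 * S.k * (Mv S D g).card := by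
  classical
  -- the automorphisms
  let Fx : ι → Finset ℚ := fun i => (D' \ U i) ∪
    ((S.fib D').biUnion (fun x => S.supp (g x))).filter (fun q => ¬ (l i ≤ q ∧ q ≤ r i))
  have hτ : ∀ i, ∃ τ : ℚ ≃o ℚ, (∀ q ∈ U i, τ q = β i q) ∧ (∀ q ∈ Fx i, τ q = q) := by
    intro i
    have hFx : ∀ q ∈ Fx i, q < l i ∨ r i < q := by
      intro q hq
      rcases Finset.mem_union.1 hq with h | h
      · rw [Finset.mem_sdiff] at h
        by_contra hcon
        push Not at hcon
        exact h.2 (hD'V i q h.1 hcon.1 hcon.2)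
      · have h2 := (Finset.mem_filter.1 h).2
        by_contra hcon
        push Not at hcon
        exact h2 hcon
    have hdis : ∀ q ∈ U i, q ∉ Fx i := by
      intro q hq hq2
      have := hU i q hq
      rcases hFx q hq2 with h | h
      · exact absurd this.2.1 (not_le.2 h)
      · exact absurd this.2.2 (not_le.2 h)
    obtain ⟨τ, hτ⟩ := exists_ext' (U i ∪ Fx i) (fun q => q) (fun q => if q ∈ U i then β i q else q)
      (by
        intro p hp q hq
        rw [Finset.mem_union] at hp hq
        by_cases hpU : p ∈ U i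
        · by_cases hqU : q ∈ U i
          · simp only [hpU, hqU, if_true]
            exact hβ i p hpU q hqU
          · have hqF := hq.resolve_left hqU
            simp only [hpU, hqU, if_true, if_false]
            have h1 := hU i p hpU
            have h2 := hV i _ (hβV i p hpU)
            rcases hFx q hqF with h | h
            · constructor
              · intro h3; exact absurd (h1.2.1) (not_le.2 (h3.trans h))
              · intro h3; exact absurd (h2.2.1) (not_le.2 (h3.trans h))
            · constructor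
              · intro _; exact lt_of_le_of_lt h2.2.2 h
              · intro _; exact lt_of_le_of_lt h1.2.2 h
        · have hpF := hp.resolve_left hpU
          by_cases hqU : q ∈ U i
          · simp only [hpU, hqU, if_true, if_false]
            have h1 := hU i q hqU
            have h2 := hV i _ (hβV i q hqU)
            rcases hFx p hpF with h | h
            · constructor
              · intro _; exact lt_of_lt_of_le h h2.2.1
              · intro _; exact lt_of_lt_of_le h h1.2.1
            · constructor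
              · intro h3; exact absurd (h1.2.2) (not_le.2 (h.trans h3))
              · intro h3; exact absurd (h2.2.2) (not_le.2 (h.trans h3))
          · simp only [hpU, hqU, if_false])
    refine ⟨τ, fun q hq => ?_, fun q hq => ?_⟩
    · have := hτ q (Finset.mem_union_left _ hq)
      simpa [hq] using this
    · have := hτ q (Finset.mem_union_right _ hq)
      have hqU : q ∉ U i := fun h => hdis q h hq
      simpa [hqU] using this
  choose τ hτU hτF using hτ
  choose μ hμG hμ using hg
  let c : ι → Equiv.Perm M := fun i =>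
    (MulAction.toPerm (τ i))⁻¹ * μ i * MulAction.toPerm (τ i)
  have hcG : ∀ i, c i ∈ G := fun i => G.mul_mem (G.mul_mem (G.inv_mem (hG _)) (hμG i)) (hG _)
  have hc : ∀ i, ∀ x, S.supp x ⊆ D' → c i x = (τ i)⁻¹ • g (τ i • x) := by
    intro i x hx
    have h1 : S.supp (τ i • x) ⊆ D \ U i := by
      rw [S.smul_supp]
      intro q hq
      rw [Finset.mem_image] at hq
      obtain ⟨p, hp, rfl⟩ := hq
      have hpD' := hx hp
      rw [Finset.mem_sdiff]
      by_cases hpU : p ∈ U i
      · rw [hτU i p hpU]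
        have h2 := hβV i p hpU
        exact ⟨(hV i _ h2).1, fun h3 => hUV i _ h3 h2⟩
      · have h2 : p ∈ Fx i := Finset.mem_union_left _ (Finset.mem_sdiff.2 ⟨hpD', hpU⟩)
        rw [hτF i p h2]
        exact ⟨hD' hpD', hpU⟩
    show (MulAction.toPerm (τ i))⁻¹ (μ i (τ i • x)) = _
    rw [hμ i _ h1]
    rfl
  -- the bound for each i
  have hbound : ∀ i, (Mv S D' (fun x => (c i)⁻¹ (g x))).card ≤
      ((Mv S D g).filter (fun x => ∃ q ∈ S.supp x, l i ≤ q ∧ q ≤ r i ∧ q ∈ U i)).card +
      ((Mv S D g).filter (fun x => ∃ q ∈ S.supp (g x), l i ≤ q ∧ q ≤ r i)).card +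
      ((Mv S D g).filter (fun x => ∃ q ∈ S.supp x, l i ≤ q ∧ q ≤ r i ∧ q ∈ V i)).card := by
    intro i
    have hsub : Mv S D' (fun x => (c i)⁻¹ (g x)) ⊆
        ((Mv S D g).filter (fun x => ∃ q ∈ S.supp x, l i ≤ q ∧ q ≤ r i ∧ q ∈ U i)) ∪
        ((Mv S D g).filter (fun x => ∃ q ∈ S.supp (g x), l i ≤ q ∧ q ≤ r i)) ∪
        ((Mv S D g).filter (fun x => ∃ q ∈ S.supp x, l i ≤ q ∧ q ≤ r i ∧ q ∈ V i)).image
          (fun x => (τ i)⁻¹ • x) := by
      intro x hx
      rw [mem_Mv] at hx
      obtain ⟨hxD', hxm⟩ := hx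
      have hxm' : g x ≠ (τ i)⁻¹ • g (τ i • x) := by
        intro h
        apply hxm
        rw [← hc i x hxD'] at h
        rw [h]
        exact (c i).symm_apply_apply x
      have hxD : S.supp x ⊆ D := hxD'.trans hD'
      by_cases hxU : ∃ q ∈ S.supp x, q ∈ U i
      · -- `x` involves `U i`
        obtain ⟨q, hq, hqU⟩ := hxU
        by_cases hgx : g x = x
        · -- then `τ x` is moved
          have hgτ : g (τ i • x) ≠ τ i • x := by
            intro h
            apply hxm'
            rw [h, inv_smul_smul, hgx]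
          rw [Finset.mem_union]
          right
          rw [Finset.mem_image]
          refine ⟨τ i • x, ?_, inv_smul_smul _ _⟩
          rw [Finset.mem_filter, mem_Mv]
          have h1 : S.supp (τ i • x) ⊆ D := by
            rw [S.smul_supp]
            intro q hq
            rw [Finset.mem_image] at hq
            obtain ⟨p, hp, rfl⟩ := hq
            have hpD' := hxD' hp
            by_cases hpU : p ∈ U i
            · rw [hτU i p hpU]
              exact (hV i _ (hβV i p hpU)).1
            · have h2 : p ∈ Fx i := Finset.mem_union_left _ (Finset.mem_sdiff.2 ⟨hpD', hpU⟩)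
              rw [hτF i p h2]
              exact hD' hpD'
          refine ⟨⟨h1, hgτ⟩, β i q, ?_, ?_⟩
          · rw [S.smul_supp, Finset.mem_image]
            exact ⟨q, hq, hτU i q hqU⟩
          · have h2 := hβV i q hqU
            exact ⟨(hV i _ h2).2.1, (hV i _ h2).2.2, h2⟩
        · rw [Finset.mem_union, Finset.mem_union]
          left; left
          rw [Finset.mem_filter, mem_Mv]
          exact ⟨⟨hxD, hgx⟩, q, hq, (hU i q hqU).2.1, (hU i q hqU).2.2, hqU⟩
      · -- `x` does not involve `U i`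
        push Not at hxU
        have hτx : τ i • x = x := S.fix _ _ (fun q hq =>
          hτF i q (Finset.mem_union_left _ (Finset.mem_sdiff.2 ⟨hxD' hq, hxU q hq⟩)))
        rw [hτx] at hxm'
        have hex : ∃ q ∈ S.supp (g x), l i ≤ q ∧ q ≤ r i := by
          by_contra hcon
          push Not at hcon
          apply hxm'
          have h3 : τ i • g x = g x := S.fix _ _ (fun q hq => by
            apply hτF i q
            apply Finset.mem_union_right
            rw [Finset.mem_filter]
            refine ⟨Finset.mem_biUnion.2 ⟨x, (S.mem_fib _ _).2 hxD', hq⟩, ?_⟩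
            rintro ⟨h4, h5⟩
            exact absurd h5 (not_le.2 (hcon q hq h4)))
          rw [eq_inv_smul_iff, h3]
        have hgx : g x ≠ x := by
          intro h
          obtain ⟨q, hq, h1, h2⟩ := hex
          rw [h] at hq
          exact hxU q hq (hD'V i q (hxD' hq) h1 h2)
        rw [Finset.mem_union, Finset.mem_union]
        left; right
        rw [Finset.mem_filter, mem_Mv]
        exact ⟨⟨hxD, hgx⟩, hex⟩
    refine (Finset.card_le_card hsub).trans ((Finset.card_union_le _ _).trans ?_)
    refine add_le_add (Finset.card_union_le _ _) Finset.card_image_le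
  -- disjointness
  have hone : ∀ q i j, (l i ≤ q ∧ q ≤ r i) → (l j ≤ q ∧ q ≤ r j) → i = j := by
    intro q i j h1 h2
    by_contra hij
    rcases hlr i j hij with h | h
    · exact absurd (h1.2.trans_lt h) (not_lt.2 h2.1)
    · exact absurd (h2.2.trans_lt h) (not_lt.2 h1.1)
  have hs1 : ∑ i, ((Mv S D g).filter
      (fun x => ∃ q ∈ S.supp x, l i ≤ q ∧ q ≤ r i ∧ q ∈ U i)).card ≤ S.k * (Mv S D g).card := by
    refine sum_card_le _ _ _ (fun x _ => ?_)
    intro _
    exact (card_hit (S.supp x) (fun i q => l i ≤ q ∧ q ≤ r i ∧ q ∈ U i)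
      (fun q i j h1 h2 => hone q i j ⟨h1.1, h1.2.1⟩ ⟨h2.1, h2.2.1⟩)).trans (S.card_le x)
  have hs2 : ∑ i, ((Mv S D g).filter
      (fun x => ∃ q ∈ S.supp (g x), l i ≤ q ∧ q ≤ r i)).card ≤ S.k * (Mv S D g).card := by
    refine sum_card_le _ _ _ (fun x _ => ?_)
    intro _
    exact (card_hit (S.supp (g x)) (fun i q => l i ≤ q ∧ q ≤ r i)
      (fun q i j h1 h2 => hone q i j h1 h2)).trans (S.card_le _)
  have hs3 : ∑ i, ((Mv S D g).filter
      (fun x => ∃ q ∈ S.supp x, l i ≤ q ∧ q ≤ r i ∧ q ∈ V i)).card ≤ S.k * (Mv S D g).card := by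
    refine sum_card_le _ _ _ (fun x _ => ?_)
    intro _
    exact (card_hit (S.supp x) (fun i q => l i ≤ q ∧ q ≤ r i ∧ q ∈ V i)
      (fun q i j h1 h2 => hone q i j ⟨h1.1, h1.2.1⟩ ⟨h2.1, h2.2.1⟩)).trans (S.card_le x)
  have hsum : ∑ i, (Mv S D' (fun x => (c i)⁻¹ (g x))).card ≤ 3 * S.k * (Mv S D g).card := by
    refine (Finset.sum_le_sum (fun i _ => hbound i)).trans ?_
    rw [Finset.sum_add_distrib, Finset.sum_add_distrib]
    calc _ ≤ S.k * (Mv S D g).card + S.k * (Mv S D g).card + S.k * (Mv S D g).card :=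
          add_le_add (add_le_add hs1 hs2) hs3
      _ = 3 * S.k * (Mv S D g).card := by ring
  by_contra hcon
  push Not at hcon
  have h1 : ∀ i, 3 * S.k * (Mv S D g).card <
      Fintype.card ι * (Mv S D' (fun x => (c i)⁻¹ (g x))).card := fun i => hcon (c i) (hcG i)
  have h2 : ∑ _i : ι, 3 * S.k * (Mv S D g).card <
      ∑ i, Fintype.card ι * (Mv S D' (fun x => (c i)⁻¹ (g x))).card :=
    Finset.sum_lt_sum_of_nonempty Finset.univ_nonempty (fun i _ => h1 i)
  rw [← Finset.mul_sum Finset.univ (fun i => (Mv S D' (fun x => (c i)⁻¹ (g x))).card)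
    (Fintype.card ι), Finset.sum_const, smul_eq_mul, Finset.card_univ] at h2
  exact absurd hsum (not_le.2 (lt_of_mul_lt_mul_left h2 (Nat.zero_le _)))

end Pool.Agent.Helper596_Q
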