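import Mathlib
import Pool.Agent.Helper596_Q.Step

/-!
# Least supports
-/

set_option autoImplicit false

namespace Pool.Agent.Helper596_Q

open Filter Topology

theorem image_fix (σ : ℚ ≃o ℚ) (F : Finset ℚ) (h : ∀ q ∈ F, σ q ∈ F) : ∀ q ∈ F, σ q = q := by
  classical
  intro q hq
  have h1 : (fun i => σ (F.orderEmbOfFin rfl i)) = F.orderEmbOfFin rfl := by
    apply Finset.orderEmbOfFin_unique
    · intro i
      exact h _ (Finset.orderEmbOfFin_mem F rfl i)
    · exact σ.strictMono.comp (F.orderEmbOfFin rfl).strictMono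
  have h2 : q ∈ Set.range (F.orderEmbOfFin rfl) := by
    rw [Finset.range_orderEmbOfFin]; exact hq
  obtain ⟨i, rfl⟩ := h2
  exact congrFun h1 i

theorem eq_on_of_image (σ τ : ℚ ≃o ℚ) (F : Finset ℚ) (h : F.image σ = F.image τ) :
    ∀ q ∈ F, σ q = τ q := by
  classical
  intro q hq
  have h1 : ∀ p ∈ F, (σ.trans τ.symm) p ∈ F := by
    intro p hp
    have h2 : σ p ∈ F.image τ := h ▸ Finset.mem_image_of_mem _ hp
    obtain ⟨p', hp', e⟩ := Finset.mem_image.1 h2
    have : (σ.trans τ.symm) p = p' := by
      show τ.symm (σ p) = p'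
      rw [← e]
      exact τ.symm_apply_apply p'
    rw [this]
    exact hp'
  have h3 := image_fix _ F h1 q hq
  have h4 : τ.symm (σ q) = q := h3
  rw [← h4, τ.apply_symm_apply, h4]

section
variable {M : Type*} [MulAction (ℚ ≃o ℚ) M]

/-- `F` supports `x`. -/
def IsSupp (F : Finset ℚ) (x : M) : Prop := ∀ σ : ℚ ≃o ℚ, (∀ q ∈ F, σ q = q) → σ • x = x

theorem IsSupp.mono {F F' : Finset ℚ} {x : M} (h : IsSupp F x) (hF : F ⊆ F') : IsSupp F' x :=
  fun σ hσ => h σ (fun q hq => hσ q (hF hq))

theorem IsSupp.image {F : Finset ℚ} {x : M} (h : IsSupp F x) (σ : ℚ ≃o ℚ) :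
    IsSupp (F.image σ) (σ • x) := by
  intro τ hτ
  have h1 : (σ⁻¹ * τ * σ) • x = x := by
    apply h
    intro q hq
    show σ⁻¹ (τ (σ q)) = q
    rw [hτ (σ q) (Finset.mem_image_of_mem _ hq)]
    exact σ.symm_apply_apply q
  calc τ • σ • x = σ • ((σ⁻¹ * τ * σ) • x) := by
        simp only [← mul_smul]
        congr 1
        group
    _ = σ • x := by rw [h1]

theorem IsSupp.erase {F F' : Finset ℚ} {x : M} (h : IsSupp F x) (h' : IsSupp F' x) (a : ℚ)
    (ha : a ∈ F) (ha' : a ∉ F') : IsSupp (F.erase a) x := by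
  classical
  intro σ hσ
  have hkey : ∀ a' : ℚ, (∀ q ∈ F ∪ F', q ≠ a → (q < a ↔ q < a')) → (∀ q ∈ F ∪ F', q ≠ a →
      (a < q ↔ a' < q)) → (a' < a ↔ a' < σ a) → (a < a' ↔ σ a < a') → a' ≠ a → σ • x = x := by
    intro a' h1 h1' h2 h2' hne
    obtain ⟨ρ, hρ⟩ := exists_ext' (F ∪ F') (fun q => q) (fun q => if q = a then a' else q) (by
      intro p hp q hq
      by_cases hpa : p = a
      · by_cases hqa : q = a
        · simp [hpa, hqa]
        · simp only [hpa, hqa, if_true, if_false]
          exact h1' q hq hqa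
      · by_cases hqa : q = a
        · simp only [hpa, hqa, if_true, if_false]
          exact h1 p hp hpa
        · simp only [hpa, hqa, if_false])
    have hρx : ρ • x = x := by
      apply h'
      intro q hq
      have := hρ q (Finset.mem_union_right _ hq)
      have hqa : q ≠ a := fun e => ha' (e ▸ hq)
      simpa [hqa] using this
    have hS : IsSupp (F.image ρ) x := by
      have := h.image ρ
      rwa [hρx] at this
    obtain ⟨τ, hτ⟩ := exists_ext' (insert a' F) (fun q => q) (fun q => if q = a then σ a else q) (by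
      have hFσ : ∀ q ∈ F, q ≠ a → σ q = q := fun q hq hqa => hσ q (Finset.mem_erase.2 ⟨hqa, hq⟩)
      intro p hp q hq
      rw [Finset.mem_insert] at hp hq
      by_cases hpa : p = a
      · by_cases hqa : q = a
        · simp [hpa, hqa]
        · simp only [hpa, hqa, if_true, if_false]
          rcases hq with rfl | hq
          · exact h2'
          · rw [← σ.lt_iff_lt (x := a) (y := q), hFσ q hq hqa]
      · by_cases hqa : q = a
        · simp only [hpa, hqa, if_true, if_false]
          rcases hp with rfl | hp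
          · exact h2
          · rw [← σ.lt_iff_lt (x := p) (y := a), hFσ p hp hpa]
        · simp only [hpa, hqa, if_false])
    have hτx : τ • x = x := by
      apply hS
      intro q hq
      obtain ⟨p, hp, rfl⟩ := Finset.mem_image.1 hq
      have hρp := hρ p (Finset.mem_union_left _ hp)
      by_cases hpa : p = a
      · have e : ρ p = a' := by simpa [hpa] using hρp
        have := hτ a' (Finset.mem_insert_self _ _)
        simp only [hne, if_false] at this
        rw [e, this]
      · have e : ρ p = p := by simpa [hpa] using hρp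
        have := hτ p (Finset.mem_insert_of_mem hp)
        simp only [hpa, if_false] at this
        rw [e, this]
    have h3 : (τ⁻¹ * σ) • x = x := by
      apply h
      intro q hq
      show τ⁻¹ (σ q) = q
      have hτq := hτ q (Finset.mem_insert_of_mem hq)
      by_cases hqa : q = a
      · simp only [hqa, if_true] at hτq
        rw [hqa, ← hτq]
        exact τ.symm_apply_apply a
      · simp only [hqa, if_false] at hτq
        rw [hσ q (Finset.mem_erase.2 ⟨hqa, hq⟩)]
        nth_rw 1 [← hτq]
        exact τ.symm_apply_apply q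
    calc σ • x = τ • ((τ⁻¹ * σ) • x) := by
          rw [← mul_smul]
          congr 1
          group
      _ = x := by rw [h3, hτx]
  rcases lt_trichotomy (σ a) a with hlt | heq | hgt
  · have hev : ∀ᶠ a' in 𝓝[>] a, (∀ q ∈ F ∪ F', a < q → a' < q) ∧ a < a' := by
      refine Filter.Eventually.and ?_ self_mem_nhdsWithin
      rw [Filter.eventually_all_finset]
      intro q _
      by_cases hq : a < q
      · filter_upwards [Ioo_mem_nhdsGT hq] with b hb _
        exact hb.2
      · exact Filter.Eventually.of_forall (fun b hb => absurd hb hq)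
    obtain ⟨a', h1, h2⟩ := hev.exists
    refine hkey a' (fun q hq hqa => ⟨fun h => h.trans h2, fun h => ?_⟩)
      (fun q hq hqa => ⟨h1 q hq, fun h => h2.trans h⟩) ⟨fun h => absurd h (not_lt.2 h2.le), fun h =>
      absurd (h.trans hlt) (not_lt.2 h2.le)⟩ ⟨fun _ => hlt.trans h2, fun _ => h2⟩ h2.ne'
    by_contra hcon
    have h3 : a < q := lt_of_le_of_ne (not_lt.1 hcon) (Ne.symm hqa)
    exact absurd h (not_lt.2 (h1 q hq h3).le)
  · apply h
    intro q hq
    by_cases hqa : q = a
    · rw [hqa, heq]
    · exact hσ q (Finset.mem_erase.2 ⟨hqa, hq⟩)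
  · have hev : ∀ᶠ a' in 𝓝[<] a, (∀ q ∈ F ∪ F', q < a → q < a') ∧ a' < a := by
      refine Filter.Eventually.and ?_ self_mem_nhdsWithin
      rw [Filter.eventually_all_finset]
      intro q _
      by_cases hq : q < a
      · filter_upwards [Ioo_mem_nhdsLT hq] with b hb _
        exact hb.1
      · exact Filter.Eventually.of_forall (fun b hb => absurd hb hq)
    obtain ⟨a', h1, h2⟩ := hev.exists
    refine hkey a' (fun q hq hqa => ⟨h1 q hq, fun h => h.trans h2⟩)
      (fun q hq hqa => ⟨fun h => h2.trans h, fun h => ?_⟩) ⟨fun _ => h2.trans hgt, fun _ => h2⟩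
      ⟨fun h => absurd h (not_lt.2 h2.le), fun h => absurd (hgt.trans h) (not_lt.2 h2.le)⟩ h2.ne
    by_contra hcon
    have h3 : q < a := lt_of_le_of_ne (not_lt.1 hcon) hqa
    exact absurd h (not_lt.2 (h1 q hq h3).le)

theorem IsSupp.inter {F F' : Finset ℚ} {x : M} (h : IsSupp F x) (h' : IsSupp F' x) :
    IsSupp (F ∩ F') x := by
  classical
  have key : ∀ (n : ℕ) (F : Finset ℚ), (F \ F').card = n → IsSupp F x → IsSupp (F ∩ F') x := by
    intro n
    induction n with
    | zero =>
      intro F hF h
      rw [Finset.card_eq_zero, Finset.sdiff_eq_empty_iff_subset] at hF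
      rw [Finset.inter_eq_left.2 hF]
      exact h
    | succ n ih =>
      intro F hF h
      obtain ⟨a, ha⟩ : (F \ F').Nonempty := by
        rw [← Finset.card_pos]
        omega
      have ha' := Finset.mem_sdiff.1 ha
      have h1 := ih (F.erase a) (by
        rw [Finset.erase_sdiff_comm, Finset.card_erase_of_mem ha, hF]
        rfl) (h.erase h' a ha'.1 ha'.2)
      refine h1.mono ?_
      exact Finset.inter_subset_inter_right (Finset.erase_subset _ _)
  exact key _ F rfl h

theorem exists_least (x : M) (hfin : ∃ F : Finset ℚ, IsSupp F x) :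
    ∃ F : Finset ℚ, IsSupp F x ∧ ∀ F', IsSupp F' x → F ⊆ F' := by
  classical
  have hne : ∃ n, ∃ F : Finset ℚ, IsSupp F x ∧ F.card = n := by
    obtain ⟨F, hF⟩ := hfin
    exact ⟨_, F, hF, rfl⟩
  obtain ⟨F, hF, hFc⟩ := Nat.find_spec hne
  refine ⟨F, hF, fun F' hF' => ?_⟩
  have h1 := hF.inter hF'
  have h2 : Nat.find hne ≤ (F ∩ F').card := Nat.find_min' hne ⟨_, h1, rfl⟩
  rw [← hFc] at h2
  have h3 := Finset.eq_of_subset_of_card_le (Finset.inter_subset_left) h2
  exact Finset.inter_eq_left.1 h3

/-- A code for a small finite set. -/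
noncomputable def code (k : ℕ) (F : Finset ℚ) : Fin k → Option ℚ := fun i =>
  if h : (i : ℕ) < F.card then some (F.orderEmbOfFin rfl ⟨i, h⟩) else none

theorem code_inj (k : ℕ) (F F' : Finset ℚ) (hF : F.card ≤ k) (hF' : F'.card ≤ k)
    (h : code k F = code k F') : F ⊆ F' := by
  classical
  intro q hq
  have h2 : q ∈ Set.range (F.orderEmbOfFin rfl) := by
    rw [Finset.range_orderEmbOfFin]; exact hq
  obtain ⟨i, rfl⟩ := h2
  have h3 := congrFun h ⟨i, lt_of_lt_of_le i.2 hF⟩
  unfold code at h3
  rw [dif_pos i.2] at h3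
  by_cases h4 : (i : ℕ) < F'.card
  · rw [dif_pos h4] at h3
    have h5 := Option.some.inj h3
    have h6 : F.orderEmbOfFin rfl i = F'.orderEmbOfFin rfl ⟨i, h4⟩ := h5
    rw [h6]
    exact Finset.orderEmbOfFin_mem F' rfl _
  · rw [dif_neg h4] at h3
    exact absurd h3 (by simp)

/-- **Construction of supports.** -/
theorem exists_QAct (hfin : ∀ x : M, ∃ F : Finset ℚ, IsSupp F x)
    (horb : ∃ R : Finset M, ∀ x, ∃ y ∈ R, ∃ σ : ℚ ≃o ℚ, σ • y = x) : Nonempty (QAct M) := by
  classical
  choose supp hs hmin using fun x : M => exists_least x (hfin x)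
  obtain ⟨R, hR⟩ := horb
  have hsmul1 : ∀ (σ : ℚ ≃o ℚ) (x : M), supp (σ • x) ⊆ (supp x).image σ :=
    fun σ x => hmin _ _ ((hs x).image σ)
  have hsmul : ∀ (σ : ℚ ≃o ℚ) (x : M), supp (σ • x) = (supp x).image σ := by
    intro σ x
    refine Finset.Subset.antisymm (hsmul1 σ x) ?_
    intro q hq
    obtain ⟨p, hp, rfl⟩ := Finset.mem_image.1 hq
    have h1 := hsmul1 σ⁻¹ (σ • x)
    rw [inv_smul_smul] at h1
    obtain ⟨p', hp', e⟩ := Finset.mem_image.1 (h1 hp)
    rw [← e]
    have : σ (σ⁻¹ p') = p' := σ.apply_symm_apply p'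
    rw [this]
    exact hp'
  let k := R.sup (fun y => (supp y).card)
  have hk : ∀ x, (supp x).card ≤ k := by
    intro x
    obtain ⟨y, hy, σ, rfl⟩ := hR x
    rw [hsmul]
    exact Finset.card_image_le.trans (Finset.le_sup (f := fun y => (supp y).card) hy)
  choose rep hrep σ hσ using hR
  -- the coding map
  let cod : M → M × (Fin k → Option ℚ) := fun x => (rep x, code k (supp x))
  have hcod : Function.Injective cod := by
    intro x y hxy
    have h1 : rep x = rep y := congrArg Prod.fst hxy
    have h2 : code k (supp x) = code k (supp y) := congrArg Prod.snd hxy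
    have h3 : supp x = supp y := Finset.Subset.antisymm (code_inj k _ _ (hk x) (hk y) h2)
      (code_inj k _ _ (hk y) (hk x) h2.symm)
    have h4 : (supp (rep x)).image (σ x) = (supp (rep x)).image (σ y) := by
      rw [← hsmul, hσ, h1, ← hsmul, hσ, h3]
    have h5 := eq_on_of_image _ _ _ h4
    have h6 : ((σ y)⁻¹ * σ x) • rep x = rep x := by
      apply hs
      intro q hq
      show (σ y)⁻¹ (σ x q) = q
      rw [h5 q hq]
      exact (σ y).symm_apply_apply q
    calc x = σ x • rep x := (hσ x).symm
      _ = σ y • (((σ y)⁻¹ * σ x) • rep x) := by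
          rw [← mul_smul]
          congr 1
          group
      _ = σ y • rep y := by rw [h6, h1]
      _ = y := hσ y
  let T : Finset ℚ → Finset (M × (Fin k → Option ℚ)) := fun D =>
    R ×ˢ Fintype.piFinset (fun _ => insert none (D.image some))
  have hT : ∀ D x, supp x ⊆ D → cod x ∈ T D := by
    intro D x hx
    refine Finset.mem_product.2 ⟨hrep x, Fintype.mem_piFinset.2 (fun i => ?_)⟩
    show code k (supp x) i ∈ _
    unfold code
    by_cases h : (i : ℕ) < (supp x).card
    · rw [dif_pos h]
      exact Finset.mem_insert_of_mem (Finset.mem_image_of_mem _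
        (hx (Finset.orderEmbOfFin_mem _ rfl _)))
    · rw [dif_neg h]
      exact Finset.mem_insert_self _ _
  have hTc : ∀ D, (T D).card ≤ R.card * (D.card + 1) ^ k := by
    intro D
    show (R ×ˢ Fintype.piFinset (fun _ => insert none (D.image some))).card ≤ _
    rw [Finset.card_product, Fintype.card_piFinset]
    refine Nat.mul_le_mul_left _ ?_
    rw [Finset.prod_const, Finset.card_univ, Fintype.card_fin]
    refine Nat.pow_le_pow_left ?_ _
    refine (Finset.card_insert_le _ _).trans ?_
    exact Nat.add_le_add_right Finset.card_image_le 1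
  have hfinD : ∀ D : Finset ℚ, {x : M | supp x ⊆ D}.Finite := by
    intro D
    refine Set.Finite.of_finite_image ((T D).finite_toSet.subset ?_) hcod.injOn
    rintro _ ⟨x, hx, rfl⟩
    exact hT D x hx
  refine ⟨{ supp := supp
            k := k
            smul_supp := hsmul
            fix := fun σ x h => hs x σ h
            card_le := hk
            fib := fun D => (hfinD D).toFinset
            mem_fib := fun D x => by simp
            r := R.card
            card_fib := fun D => ?_ }⟩
  refine le_trans ?_ (hTc D)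
  refine Finset.card_le_card_of_injOn cod ?_ hcod.injOn
  intro x hx
  have : supp x ⊆ D := by simpa using hx
  exact hT D x this

end

end Pool.Agent.Helper596_Q
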