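import Mathlib
import Pool.Agent.Helper596_Q.Supp

/-!
# Families which are pairwise equivalent, and finiteness of the number of classes
-/

set_option autoImplicit false

namespace Pool.Agent.Helper596_Q

variable {M : Type*} [MulAction (ℚ ≃o ℚ) M] (S : QAct M)

theorem smul_eq_of_eq_on (σ τ : ℚ ≃o ℚ) (x : M) (h : ∀ q ∈ S.supp x, σ q = τ q) :
    σ • x = τ • x := by
  have h1 : (τ⁻¹ * σ) • x = x := by
    apply S.fix
    intro q hq
    show τ⁻¹ (σ q) = q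
    rw [h q hq]
    exact τ.symm_apply_apply q
  calc σ • x = τ • ((τ⁻¹ * σ) • x) := by
        rw [← mul_smul]
        congr 1
        group
    _ = τ • x := by rw [h1]

theorem eq_on_of_smul_eq (σ τ : ℚ ≃o ℚ) (x : M) (h : σ • x = τ • x) :
    ∀ q ∈ S.supp x, σ q = τ q := by
  apply eq_on_of_image
  rw [← S.smul_supp, ← S.smul_supp, h]

include S in
/-- **Families which are pairwise equivalent are equivalent.** -/
theorem global_of_pairwise {Y : Type*} (A : Finset Y) (φ ψ : Y → M)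
    (h : ∀ x ∈ A, ∀ y ∈ A, ∃ ρ : ℚ ≃o ℚ, ρ • φ x = ψ x ∧ ρ • φ y = ψ y) :
    ∃ ρ : ℚ ≃o ℚ, ∀ x ∈ A, ρ • φ x = ψ x := by
  classical
  have h1 : ∀ x : Y, ∃ ρ : ℚ ≃o ℚ, x ∈ A → ρ • φ x = ψ x := by
    intro x
    by_cases hx : x ∈ A
    · obtain ⟨ρ, h1, -⟩ := h x hx x hx
      exact ⟨ρ, fun _ => h1⟩
    · exact ⟨1, fun h => absurd h hx⟩
  choose ρ hρ using h1
  obtain ⟨σ, hσ⟩ := exists_ext' (A.sigma (fun x => S.supp (φ x))) (fun p => p.2)
    (fun p => ρ p.1 p.2) (by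
      rintro ⟨x, p⟩ hp ⟨y, q⟩ hq
      rw [Finset.mem_sigma] at hp hq
      obtain ⟨τ, h2, h3⟩ := h x hp.1 y hq.1
      have e1 : τ p = ρ x p := eq_on_of_smul_eq S τ (ρ x) (φ x) (by rw [h2, hρ x hp.1]) p hp.2
      have e2 : τ q = ρ y q := eq_on_of_smul_eq S τ (ρ y) (φ y) (by rw [h3, hρ y hq.1]) q hq.2
      show p < q ↔ ρ x p < ρ y q
      rw [← e1, ← e2]
      exact τ.lt_iff_lt.symm)
  refine ⟨σ, fun x hx => ?_⟩
  rw [← hρ x hx]
  apply smul_eq_of_eq_on S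
  intro q hq
  exact hσ ⟨x, q⟩ (Finset.mem_sigma.2 ⟨hx, hq⟩)

/-- Standard finite set of points. -/
def std (n : ℕ) : Finset ℚ := (Finset.range n).image (fun i : ℕ => (i : ℚ))

/-- Every finite set of size at most `n` can be moved into the standard set. -/
theorem exists_into_std (F : Finset ℚ) (n : ℕ) (h : F.card ≤ n) :
    ∃ σ : ℚ ≃o ℚ, ∀ q ∈ F, σ q ∈ std n := by
  classical
  have hlt : ∀ i : Fin F.card, (((i : ℕ) : ℚ)) ∈ std n := fun i =>
    Finset.mem_image.2 ⟨i, Finset.mem_range.2 (lt_of_lt_of_le i.2 h), rfl⟩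
  obtain ⟨σ, hσ⟩ := exists_ext' (Finset.univ : Finset (Fin F.card)) (F.orderEmbOfFin rfl)
    (fun i => ((i : ℕ) : ℚ)) (by
      intro i _ j _
      rw [OrderEmbedding.lt_iff_lt]
      simp)
  refine ⟨σ, fun q hq => ?_⟩
  have h2 : q ∈ Set.range (F.orderEmbOfFin rfl) := by
    rw [Finset.range_orderEmbOfFin]; exact hq
  obtain ⟨i, rfl⟩ := h2
  rw [hσ i (Finset.mem_univ _)]
  exact hlt i

/-- Every finite family can be moved into the elements supported in a standard set. -/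
theorem exists_class (A : Finset M) (φ : M → M) :
    ∃ ρ : ℚ ≃o ℚ, ∀ x ∈ A, ρ • φ x ∈ S.fib (std (A.card * S.k)) := by
  classical
  obtain ⟨ρ, hρ⟩ := exists_into_std (A.biUnion (fun x => S.supp (φ x))) (A.card * S.k) (by
    refine Finset.card_biUnion_le.trans ?_
    refine (Finset.sum_le_card_nsmul _ _ S.k (fun x _ => S.card_le _)).trans ?_
    rw [smul_eq_mul])
  refine ⟨ρ, fun x hx => ?_⟩
  rw [S.mem_fib, S.smul_supp]
  intro q hq
  obtain ⟨p, hp, rfl⟩ := Finset.mem_image.1 hq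
  exact hρ p (Finset.mem_biUnion.2 ⟨x, hx, hp⟩)

/-- The finite set of classes of maps on `A`. -/
def Cls (A : Finset M) : Type _ := (A → S.fib (std (A.card * S.k)))

instance (A : Finset M) : Finite (Cls S A) := inferInstanceAs (Finite (_ → _))

/-- `φ` on `A` has class `c`. -/
def HasCls (A : Finset M) (φ : M → M) (c : Cls S A) : Prop :=
  ∃ ρ : ℚ ≃o ℚ, ∀ x : A, ρ • φ x.1 = (c x).1

theorem exists_hasCls (A : Finset M) (φ : M → M) : ∃ c, HasCls S A φ c := by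
  obtain ⟨ρ, hρ⟩ := exists_class S A φ
  exact ⟨fun x => ⟨ρ • φ x.1, hρ x.1 x.2⟩, ρ, fun x => rfl⟩

theorem HasCls.equiv {A : Finset M} {φ ψ : M → M} {c : Cls S A} (h : HasCls S A φ c)
    (h' : HasCls S A ψ c) : ∃ ρ : ℚ ≃o ℚ, ∀ x ∈ A, ρ • φ x = ψ x := by
  obtain ⟨ρ, hρ⟩ := h
  obtain ⟨τ, hτ⟩ := h'
  refine ⟨τ⁻¹ * ρ, fun x hx => ?_⟩
  rw [mul_smul, hρ ⟨x, hx⟩, ← hτ ⟨x, hx⟩, inv_smul_smul]

theorem HasCls.of_equiv {A : Finset M} {φ ψ : M → M} {c : Cls S A} (h : HasCls S A φ c)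
    (ρ : ℚ ≃o ℚ) (hρ : ∀ x ∈ A, ρ • φ x = ψ x) : HasCls S A ψ c := by
  obtain ⟨τ, hτ⟩ := h
  refine ⟨τ * ρ⁻¹, fun x => ?_⟩
  rw [← hρ x.1 x.2, mul_smul, inv_smul_smul, hτ]

end Pool.Agent.Helper596_Q
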