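import Mathlib
import Pool.Agent.Helper596_Q.Pair
import Pool.Agent.H330.Ramsey

/-!
# Canonical double sequences
-/

set_option autoImplicit false

namespace Pool.Agent.Helper596_Q

/-- Lexicographically increasing double sequences. -/
def LexMono (e : ℕ → ℕ → ℚ) : Prop :=
  ∀ j n j' n', (j < j' ∨ (j = j' ∧ n < n')) → e j n < e j' n'

theorem LexMono.lt_iff {e : ℕ → ℕ → ℚ} (he : LexMono e) (j n j' n' : ℕ) :
    e j n < e j' n' ↔ (j < j' ∨ (j = j' ∧ n < n')) := by
  refine ⟨fun h => ?_, he j n j' n'⟩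
  by_contra hcon
  rcases lt_trichotomy j j' with h1 | h1 | h1
  · exact hcon (Or.inl h1)
  · rcases lt_trichotomy n n' with h2 | h2 | h2
    · exact hcon (Or.inr ⟨h1, h2⟩)
    · subst h1; subst h2; exact lt_irrefl _ h
    · exact lt_asymm h (he j' n' j n (Or.inr ⟨h1.symm, h2⟩))
  · exact lt_asymm h (he j' n' j n (Or.inl h1))

theorem LexMono.inj {e : ℕ → ℕ → ℚ} (he : LexMono e) {j n j' n' : ℕ} (h : e j n = e j' n') :
    j = j' ∧ n = n' := by
  have h1 : ¬ (e j n < e j' n') := by rw [h]; exact lt_irrefl _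
  have h2 : ¬ (e j' n' < e j n) := by rw [h]; exact lt_irrefl _
  rw [he.lt_iff] at h1 h2
  omega

theorem exists_lex (t : ℕ → ℚ) (ht : StrictMono t) :
    ∃ e : ℕ → ℕ → ℚ, LexMono e ∧ ∀ j, e j 0 = t j := by
  refine ⟨fun j n => t j + (t (j + 1) - t j) * ((n : ℚ) / (n + 1)), ?_, fun j => by simp⟩
  have hpos : ∀ j, 0 < t (j + 1) - t j := fun j => sub_pos.2 (ht (Nat.lt_succ_self j))
  have hlt : ∀ j (n : ℕ), t j + (t (j + 1) - t j) * ((n : ℚ) / (n + 1)) < t (j + 1) := by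
    intro j n
    have h1 : ((n : ℚ) / (n + 1)) < 1 := by
      rw [div_lt_one (by positivity)]
      linarith
    nlinarith [hpos j]
  have hge : ∀ j (n : ℕ), t j ≤ t j + (t (j + 1) - t j) * ((n : ℚ) / (n + 1)) := by
    intro j n
    have h1 : 0 ≤ ((n : ℚ) / (n + 1)) := by positivity
    nlinarith [hpos j]
  intro j n j' n' h
  show t j + (t (j + 1) - t j) * ((n : ℚ) / (n + 1)) <
    t j' + (t (j' + 1) - t j') * ((n' : ℚ) / (n' + 1))
  rcases h with h | ⟨rfl, h⟩
  · exact lt_of_lt_of_le (hlt j n) ((ht.monotone (Nat.succ_le_of_lt h)).trans (hge j' n'))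
  · have h1 : (n : ℚ) / (n + 1) < (n' : ℚ) / (n' + 1) := by
      rw [div_lt_div_iff₀ (by positivity) (by positivity)]
      have : (n : ℚ) < n' := by exact_mod_cast h
      nlinarith
    nlinarith [hpos j]

/-- Extend a strictly increasing map from a finite set to an enumeration. -/
noncomputable def enumU (Q : Finset ℚ) (g : ℚ → ℕ) (K : ℕ) : Fin K → ℕ := fun i =>
  if h : (i : ℕ) < Q.card then g (Q.orderEmbOfFin rfl ⟨i, h⟩) else Q.sup g + 1 + i

theorem enumU_mono (Q : Finset ℚ) (g : ℚ → ℕ) (K : ℕ) (hg : ∀ p ∈ Q, ∀ q ∈ Q, p < q → g p < g q) :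
    StrictMono (enumU Q g K) := by
  intro i j hij
  have hij' : (i : ℕ) < j := hij
  unfold enumU
  by_cases hj : (j : ℕ) < Q.card
  · have hi : (i : ℕ) < Q.card := hij'.trans hj
    rw [dif_pos hi, dif_pos hj]
    apply hg _ (Finset.orderEmbOfFin_mem _ _ _) _ (Finset.orderEmbOfFin_mem _ _ _)
    rw [OrderEmbedding.lt_iff_lt]
    exact hij'
  · rw [dif_neg hj]
    by_cases hi : (i : ℕ) < Q.card
    · rw [dif_pos hi]
      have := Finset.le_sup (f := g) (Finset.orderEmbOfFin_mem Q rfl ⟨i, hi⟩)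
      omega
    · rw [dif_neg hi]
      omega

theorem exists_enum (Q : Finset ℚ) (K : ℕ) (hQ : Q.card ≤ K) (g g' : ℚ → ℕ)
    (hg : ∀ p ∈ Q, ∀ q ∈ Q, p < q → g p < g q) (hg' : ∀ p ∈ Q, ∀ q ∈ Q, p < q → g' p < g' q) :
    ∃ u v : Fin K → ℕ, StrictMono u ∧ StrictMono v ∧ ∀ q ∈ Q, ∃ i, u i = g q ∧ v i = g' q := by
  refine ⟨enumU Q g K, enumU Q g' K, enumU_mono Q g K hg, enumU_mono Q g' K hg', fun q hq => ?_⟩
  have h2 : q ∈ Set.range (Q.orderEmbOfFin rfl) := by
    rw [Finset.range_orderEmbOfFin]; exact hq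
  obtain ⟨i, rfl⟩ := h2
  refine ⟨⟨i, lt_of_lt_of_le i.2 hQ⟩, ?_, ?_⟩
  · unfold enumU
    rw [dif_pos i.2]
  · unfold enumU
    rw [dif_pos i.2]

variable {M : Type*} [MulAction (ℚ ≃o ℚ) M] (S : QAct M)

/-- `f` is canonical on the part `[s] × [N]` of a double sequence. -/
def Canon (s N : ℕ) (f : M → M) (e : ℕ → ℕ → ℚ) : Prop :=
  ∀ (σ : ℚ ≃o ℚ) (x y : M), (∀ q ∈ S.supp x ∪ S.supp y, ∃ j n n', j < s ∧ n < N ∧ n' < N ∧
    (n = 0 ↔ n' = 0) ∧ e j n = q ∧ e j n' = σ q) →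
    ∃ ρ : ℚ ≃o ℚ, ρ • f x = f (σ • x) ∧ ρ • f y = f (σ • y)

/-- **Existence of canonical double sequences.** -/
theorem exists_canon (f : M → M) (t : ℕ → ℚ) (ht : StrictMono t) (s N : ℕ) :
    ∃ e : ℕ → ℕ → ℚ, LexMono e ∧ (∀ j, e j 0 = t j) ∧ Canon S s N f e := by
  classical
  obtain ⟨E, hE, hE0⟩ := exists_lex t ht
  obtain ⟨K, hK⟩ : ∃ K, K = 2 * S.k := ⟨_, rfl⟩
  let D : Finset ℚ := (Finset.range s ×ˢ Finset.range (K + 1)).image (fun p => E p.1 p.2)
  let A : Finset M := S.fib D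
  -- the automorphisms
  have hτ : ∀ u : Fin K → ℕ, StrictMono u → ∃ τ : ℚ ≃o ℚ, (∀ j < s, τ (E j 0) = E j 0) ∧
      ∀ j < s, ∀ i : Fin K, τ (E j (i + 1)) = E j (u i + 1) := by
    intro u hu
    obtain ⟨τ, hτ⟩ := exists_ext' (Finset.range s ×ˢ (Finset.univ : Finset (Option (Fin K))))
      (fun p => match p.2 with
        | none => E p.1 0
        | some i => E p.1 (i + 1))
      (fun p => match p.2 with
        | none => E p.1 0
        | some i => E p.1 (u i + 1)) (by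
        rintro ⟨j, o⟩ hp ⟨j', o'⟩ hp'
        rcases o with _ | i <;> rcases o' with _ | i'
        · exact Iff.rfl
        · show E j 0 < E j' (i' + 1) ↔ E j 0 < E j' (u i' + 1)
          rw [hE.lt_iff, hE.lt_iff]
          omega
        · show E j (i + 1) < E j' 0 ↔ E j (u i + 1) < E j' 0
          rw [hE.lt_iff, hE.lt_iff]
          omega
        · show E j (i + 1) < E j' (i' + 1) ↔ E j (u i + 1) < E j' (u i' + 1)
          rw [hE.lt_iff, hE.lt_iff]
          have : (u i < u i' ↔ (i : ℕ) < i') := hu.lt_iff_lt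
          omega)
    exact ⟨τ, fun j hj => hτ (j, none) (by simp [hj]), fun j hj i => hτ (j, some i) (by simp [hj])⟩
  have hcol : ∀ a : Finset ℕ, ∃ c : Cls S A, ∀ u : Fin K → ℕ, StrictMono u →
      a = Finset.univ.image u → ∀ τ : ℚ ≃o ℚ, (∀ j < s, τ (E j 0) = E j 0) →
      (∀ j < s, ∀ i : Fin K, τ (E j (i + 1)) = E j (u i + 1)) →
      HasCls S A (fun x => f (τ • x)) c := by
    intro a
    by_cases hu : ∃ u : Fin K → ℕ, StrictMono u ∧ a = Finset.univ.image u
    · obtain ⟨u, hu, ha⟩ := hu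
      obtain ⟨τ₀, h0, h1⟩ := hτ u hu
      obtain ⟨c, hc⟩ := exists_hasCls S A (fun x => f (τ₀ • x))
      refine ⟨c, fun v hv ha' τ h2 h3 => ?_⟩
      have huv : u = v := by
        have hac : a.card = K := by
          rw [ha, Finset.card_image_of_injective _ hu.injective, Finset.card_univ,
            Fintype.card_fin]
        have e1 : u = a.orderEmbOfFin hac :=
          Finset.orderEmbOfFin_unique hac (fun i => by
            rw [ha]; exact Finset.mem_image_of_mem _ (Finset.mem_univ _)) hu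
        have e2 : v = a.orderEmbOfFin hac :=
          Finset.orderEmbOfFin_unique hac (fun i => by
            rw [ha']; exact Finset.mem_image_of_mem _ (Finset.mem_univ _)) hv
        rw [e1, e2]
      subst huv
      refine hc.of_equiv S 1 (fun x hx => ?_)
      rw [one_smul]
      congr 1
      apply smul_eq_of_eq_on S
      intro q hq
      have hqD := (S.mem_fib D x).1 hx hq
      obtain ⟨⟨j, n⟩, hjn, rfl⟩ := Finset.mem_image.1 hqD
      rw [Finset.mem_product, Finset.mem_range, Finset.mem_range] at hjn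
      obtain ⟨hj, hn⟩ := hjn
      rcases n with _ | n
      · show τ₀ (E j 0) = τ (E j 0)
        rw [h0 j hj, h2 j hj]
      · have hn' : n < K := by
          have : n + 1 < K + 1 := hn
          omega
        show τ₀ (E j (n + 1)) = τ (E j (n + 1))
        rw [h1 j hj ⟨n, hn'⟩, h3 j hj ⟨n, hn'⟩]
    · obtain ⟨c, -⟩ := exists_hasCls S A f
      exact ⟨c, fun v hv ha => absurd ⟨v, hv, ha⟩ hu⟩
  choose χ hχ using hcol
  obtain ⟨H, c, hH, hHc⟩ := Pool.Agent.H330.infinite_ramsey K χ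
  obtain ⟨η, hη, hηH⟩ : ∃ η : ℕ → ℕ, StrictMono η ∧ ∀ n, η n ∈ H :=
    ⟨Nat.nth (· ∈ H), Nat.nth_strictMono hH, fun n => Nat.nth_mem_of_infinite hH n⟩
  have hcls : ∀ u : Fin K → ℕ, StrictMono u → ∀ τ : ℚ ≃o ℚ, (∀ j < s, τ (E j 0) = E j 0) →
      (∀ j < s, ∀ i : Fin K, τ (E j (i + 1)) = E j (η (u i) + 1)) →
      HasCls S A (fun x => f (τ • x)) c := by
    intro u hu τ h1 h2
    have hu' : StrictMono (fun i => η (u i)) := hη.comp hu
    have := hHc (Finset.univ.image (fun i => η (u i))) (by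
      rw [Finset.card_image_of_injective _ hu'.injective, Finset.card_univ, Fintype.card_fin]) (by
      intro z hz
      rw [Finset.mem_coe, Finset.mem_image] at hz
      obtain ⟨i, -, rfl⟩ := hz
      exact hηH _)
    rw [← this]
    exact hχ _ _ hu' rfl τ h1 h2
  -- the double sequence
  let e : ℕ → ℕ → ℚ := fun j n => match n with
    | 0 => E j 0
    | n + 1 => E j (η (j * N + n) + 1)
  have he : LexMono e := by
    intro j n j' n' h
    rcases n with _ | n <;> rcases n' with _ | n'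
    · show E j 0 < E j' 0
      rw [hE.lt_iff]
      omega
    · show E j 0 < E j' (η (j' * N + n') + 1)
      rw [hE.lt_iff]
      omega
    · show E j (η (j * N + n) + 1) < E j' 0
      rw [hE.lt_iff]
      omega
    · show E j (η (j * N + n) + 1) < E j' (η (j' * N + n') + 1)
      rw [hE.lt_iff]
      rcases h with h | ⟨rfl, h⟩
      · exact Or.inl h
      · right
        refine ⟨rfl, ?_⟩
        have : η (j * N + n) < η (j * N + n') := hη (by omega)
        omega
  refine ⟨e, he, fun j => hE0 j, ?_⟩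
  intro σ x y hσ
  -- indices
  have hex : ∀ q : ℚ, ∃ z : ℕ × ℕ × ℕ, q ∈ S.supp x ∪ S.supp y → z.1 < s ∧ z.2.1 < N ∧
      z.2.2 < N ∧ (z.2.1 = 0 ↔ z.2.2 = 0) ∧ e z.1 z.2.1 = q ∧ e z.1 z.2.2 = σ q := by
    intro q
    by_cases hq : q ∈ S.supp x ∪ S.supp y
    · obtain ⟨j, n, n', h⟩ := hσ q hq
      exact ⟨(j, n, n'), fun _ => h⟩
    · exact ⟨(0, 0, 0), fun h => absurd h hq⟩
  choose z hz using hex
  let Q : Finset ℚ := (S.supp x ∪ S.supp y).filter (fun q => (z q).2.1 ≠ 0)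
  have hQc : Q.card ≤ K := by
    refine (Finset.card_filter_le _ _).trans ((Finset.card_union_le _ _).trans ?_)
    have h1 := S.card_le x
    have h2 := S.card_le y
    omega
  obtain ⟨u, v, hu, hv, huv⟩ := exists_enum Q K hQc
    (fun q => (z q).1 * N + ((z q).2.1 - 1)) (fun q => (z q).1 * N + ((z q).2.2 - 1)) (by
      intro p hp q hq hpq
      rw [Finset.mem_filter] at hp hq
      obtain ⟨a1, a2, a3, a4, a5, a6⟩ := hz p hp.1
      obtain ⟨b1, b2, b3, b4, b5, b6⟩ := hz q hq.1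
      rw [← a5, ← b5, he.lt_iff] at hpq
      have hp2 := hp.2
      have hq2 := hq.2
      show (z p).1 * N + ((z p).2.1 - 1) < (z q).1 * N + ((z q).2.1 - 1)
      rcases hpq with h | ⟨h, h'⟩
      · have : ((z p).1 + 1) * N ≤ (z q).1 * N := Nat.mul_le_mul_right _ h
        rw [Nat.add_mul] at this
        omega
      · rw [h]
        omega) (by
      intro p hp q hq hpq
      rw [Finset.mem_filter] at hp hq
      obtain ⟨a1, a2, a3, a4, a5, a6⟩ := hz p hp.1
      obtain ⟨b1, b2, b3, b4, b5, b6⟩ := hz q hq.1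
      have hpq' : σ p < σ q := σ.lt_iff_lt.2 hpq
      rw [← a6, ← b6, he.lt_iff] at hpq'
      have hp2 : (z p).2.2 ≠ 0 := fun h => hp.2 (a4.2 h)
      have hq2 : (z q).2.2 ≠ 0 := fun h => hq.2 (b4.2 h)
      show (z p).1 * N + ((z p).2.2 - 1) < (z q).1 * N + ((z q).2.2 - 1)
      rcases hpq' with h | ⟨h, h'⟩
      · have : ((z p).1 + 1) * N ≤ (z q).1 * N := Nat.mul_le_mul_right _ h
        rw [Nat.add_mul] at this
        omega
      · rw [h]
        omega)
  obtain ⟨τu, hu0, hu1⟩ := hτ (fun i => η (u i)) (hη.comp hu)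
  obtain ⟨τv, hv0, hv1⟩ := hτ (fun i => η (v i)) (hη.comp hv)
  obtain ⟨ρ, hρ⟩ := (hcls u hu τu hu0 hu1).equiv S (hcls v hv τv hv0 hv1)
  have hD : ∀ q ∈ S.supp x ∪ S.supp y, ∃ p ∈ D, τu p = q ∧ τv p = σ q := by
    intro q hq
    obtain ⟨a1, a2, a3, a4, a5, a6⟩ := hz q hq
    by_cases h0 : (z q).2.1 = 0
    · have h0' := a4.1 h0
      rw [h0] at a5
      rw [h0'] at a6
      have a5' : E (z q).1 0 = q := a5
      have a6' : E (z q).1 0 = σ q := a6
      refine ⟨E (z q).1 0, Finset.mem_image.2 ⟨((z q).1, 0), by simp [a1], rfl⟩, ?_, ?_⟩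
      · rw [hu0 _ a1, a5']
      · rw [hv0 _ a1, a6']
    · have h0' : (z q).2.2 ≠ 0 := fun h => h0 (a4.2 h)
      obtain ⟨i, hi1, hi2⟩ := huv q (Finset.mem_filter.2 ⟨hq, h0⟩)
      obtain ⟨n, hn⟩ := Nat.exists_eq_succ_of_ne_zero h0
      obtain ⟨n', hn'⟩ := Nat.exists_eq_succ_of_ne_zero h0'
      rw [hn] at a5
      rw [hn'] at a6
      have a5' : E (z q).1 (η ((z q).1 * N + n) + 1) = q := a5
      have a6' : E (z q).1 (η ((z q).1 * N + n') + 1) = σ q := a6
      refine ⟨E (z q).1 (i + 1), Finset.mem_image.2 ⟨((z q).1, (i : ℕ) + 1), by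
        simp [a1], rfl⟩, ?_, ?_⟩
      · rw [hu1 _ a1 i]
        refine Eq.trans ?_ a5'
        rw [hi1, hn]
        rfl
      · rw [hv1 _ a1 i]
        refine Eq.trans ?_ a6'
        rw [hi2, hn']
        rfl
  have hfin : ∀ w : M, S.supp w ⊆ S.supp x ∪ S.supp y → ρ • f w = f (σ • w) := by
    intro w hw
    have h1 : τu⁻¹ • w ∈ A := by
      rw [S.mem_fib, S.smul_supp]
      intro q hq
      obtain ⟨q', hq', rfl⟩ := Finset.mem_image.1 hq
      obtain ⟨p, hp, h1, h2⟩ := hD q' (hw hq')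
      have : τu⁻¹ q' = p := by
        rw [← h1]
        exact τu.symm_apply_apply p
      rw [this]
      exact hp
    have h2 := hρ _ h1
    have h3 : τu • τu⁻¹ • w = w := smul_inv_smul _ _
    have h4 : τv • τu⁻¹ • w = σ • w := by
      rw [← mul_smul]
      apply smul_eq_of_eq_on S
      intro q hq
      obtain ⟨p, hp, h1, h2⟩ := hD q (hw hq)
      have : τu⁻¹ q = p := by
        rw [← h1]
        exact τu.symm_apply_apply p
      show τv (τu⁻¹ q) = σ q
      rw [this, h2]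
    simp only [h3, h4] at h2
    exact h2
  exact ⟨ρ, hfin x Finset.subset_union_left, hfin y Finset.subset_union_right⟩

end Pool.Agent.Helper596_Q
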