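import Mathlib
import Pool.Agent.Helper596_Q.Op
import Pool.Agent.Helper596_Q.LSysDef

/-!
# Weak supports from labelled irreducibles
-/

set_option autoImplicit false

namespace Pool.Agent.Helper596_Q

section D1
variable {A M : Type} [Group A] [MulAction A M] (S : LSys A M)

attribute [local instance] LSys.act

theorem d1_exists_label : ∃ π : S.D → ℚ,
    (∀ d d', S.sim d d' → π d = π d' → d = d') ∧ (∀ d q, ∃ d', S.sim d d' ∧ π d' = q) := by
  classical
  let st : Setoid S.D := ⟨S.sim, S.sim_equiv⟩
  have hinf : ∀ c : Quotient st, Infinite {d : S.D // Quotient.mk st d = c} := by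
    intro c
    induction c using Quotient.inductionOn with
    | h d =>
      have h := (S.inf d).to_subtype
      refine @Infinite.of_injective _ {d' : S.D // S.sim d d'} h
        (fun x => ⟨x.1, Quotient.sound (S.sim_equiv.symm x.2)⟩) ?_
      intro x y hxy
      simpa [Subtype.ext_iff] using hxy
  have hcnt := S.cnt
  have hf : ∀ c : Quotient st, Nonempty ({d : S.D // Quotient.mk st d = c} ≃ ℚ) := by
    intro c
    have hic := hinf c
    exact nonempty_equiv_of_countable
  obtain ⟨f⟩ : Nonempty (∀ c : Quotient st, {d : S.D // Quotient.mk st d = c} ≃ ℚ) :=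
    ⟨fun c => (hf c).some⟩
  refine ⟨fun d => f (Quotient.mk st d) ⟨d, rfl⟩, ?_, ?_⟩
  · intro d d' hs he
    have hq : Quotient.mk st d = Quotient.mk st d' := Quotient.sound hs
    have key : ∀ (c : Quotient st) (h1 : Quotient.mk st d = c) (h2 : Quotient.mk st d' = c),
        f c ⟨d, h1⟩ = f (Quotient.mk st d) ⟨d, rfl⟩ ∧ f c ⟨d', h2⟩ = f (Quotient.mk st d') ⟨d', rfl⟩ := by
      intro c h1 h2
      constructor
      · subst h1; rfl
      · subst h2; rfl
    obtain ⟨k1, k2⟩ := key (Quotient.mk st d) rfl hq.symm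
    have : f (Quotient.mk st d) ⟨d, rfl⟩ = f (Quotient.mk st d) ⟨d', hq.symm⟩ := by
      rw [k2]; exact he
    have := (f (Quotient.mk st d)).injective this
    exact congrArg Subtype.val this
  · intro d q
    refine ⟨((f (Quotient.mk st d)).symm q).1, ?_, ?_⟩
    · have h := ((f (Quotient.mk st d)).symm q).2
      exact S.sim_equiv.symm (Quotient.exact h)
    · have key : ∀ (c : Quotient st) (y : {d : S.D // Quotient.mk st d = c}),
          f (Quotient.mk st y.1) ⟨y.1, rfl⟩ = f c y := by
        rintro c ⟨y, hy⟩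
        subst hy
        rfl
      show f (Quotient.mk st ((f (Quotient.mk st d)).symm q).1) ⟨((f (Quotient.mk st d)).symm q).1, rfl⟩ = q
      rw [key]
      simp

/-- the elements all of whose lower elements have labels in `W` -/
def d1Del (π : S.D → ℚ) (W : Finset ℚ) : Set S.D := {d | ∀ e ∈ S.lo d, π e ∈ W}

theorem d1_lo_lt {d e : S.D} (he : e ∈ S.lo d) (hne : e ≠ d) :
    (S.lo e).card < (S.lo d).card := by
  apply Finset.card_lt_card
  rw [Finset.ssubset_iff_subset_ne]
  refine ⟨S.lo_trans d e he, ?_⟩
  intro h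
  have : d ∈ S.lo e := by rw [h]; exact S.self_mem d
  exact hne (S.lo_antisymm e d this he)

theorem d1_Del_down {π : S.D → ℚ} {W : Finset ℚ} {d e : S.D} (hd : d ∈ d1Del S π W)
    (he : e ∈ S.lo d) : e ∈ d1Del S π W :=
  fun g hg => hd g (S.lo_trans d e he hg)

theorem d1_Del_finite (π : S.D → ℚ) (hinj : ∀ d d', S.sim d d' → π d = π d' → d = d')
    (W : Finset ℚ) : (d1Del S π W).Finite := by
  classical
  obtain ⟨k, hk⟩ := S.bdd
  have hcard : ∀ d, (S.lo d).card ≤ k := by
    intro d
    obtain ⟨x, hx⟩ := S.below d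
    exact (Finset.card_le_card (S.cl_lo x d hx)).trans (hk x)
  have main : ∀ n : ℕ, {d | d ∈ d1Del S π W ∧ (S.lo d).card ≤ n}.Finite := by
    intro n
    induction n with
    | zero =>
      refine Set.Finite.subset Set.finite_empty ?_
      rintro d ⟨_, h⟩
      have : 0 < (S.lo d).card := Finset.card_pos.mpr ⟨d, S.self_mem d⟩
      omega
    | succ n ih =>
      obtain ⟨T, hT⟩ := S.fin2 ih.toFinset
      have hsub : {d | d ∈ d1Del S π W ∧ (S.lo d).card ≤ n + 1} ⊆
          ⋃ t ∈ T, ⋃ q ∈ W, {d | S.sim t d ∧ π d = q} := by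
        rintro d ⟨hd, hc⟩
        obtain ⟨t, ht, hs⟩ := hT d (by
          intro e he hne
          rw [Set.Finite.mem_toFinset]
          refine ⟨d1_Del_down S hd he, ?_⟩
          have := d1_lo_lt S he hne
          omega)
        simp only [Set.mem_iUnion]
        exact ⟨t, ht, π d, hd d (S.self_mem d), hs, rfl⟩
      refine Set.Finite.subset ?_ hsub
      refine Set.Finite.biUnion T.finite_toSet fun t _ => ?_
      refine Set.Finite.biUnion W.finite_toSet fun q _ => ?_
      refine Set.Subsingleton.finite ?_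
      rintro d ⟨h1, h2⟩ d' ⟨h3, h4⟩
      exact hinj d d' (S.sim_equiv.trans (S.sim_equiv.symm h1) h3) (h2.trans h4.symm)
  refine (main k).subset fun d hd => ⟨hd, hcard d⟩

theorem d1_lift (π : S.D → ℚ) (hinj : ∀ d d', S.sim d d' → π d = π d' → d = d')
    (hsurj : ∀ d q, ∃ d', S.sim d d' ∧ π d' = q) (W : Finset ℚ) (σ : ℚ → ℚ)
    (hσ : Set.InjOn σ (W : Set ℚ)) :
    ∀ (n : ℕ) (Δ : Finset S.D), Δ.card = n → (∀ d ∈ Δ, S.lo d ⊆ Δ) → (∀ d ∈ Δ, d ∈ d1Del S π W) →
      ∃ a : A, ∀ d ∈ Δ, π (a • d) = σ (π d) := by
  classical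
  intro n
  induction n with
  | zero =>
    intro Δ hc _ _
    rw [Finset.card_eq_zero] at hc
    subst hc
    exact ⟨1, fun d hd => absurd hd (Finset.notMem_empty d)⟩
  | succ n ih =>
    intro Δ hc hdown hDel
    have hne : Δ.Nonempty := by rw [← Finset.card_pos]; omega
    obtain ⟨d, hd, hmax⟩ := Finset.exists_max_image Δ (fun d => (S.lo d).card) hne
    have hdown' : ∀ e ∈ Δ.erase d, S.lo e ⊆ Δ.erase d := by
      intro e he g hg
      have he' := Finset.mem_erase.mp he
      refine Finset.mem_erase.mpr ⟨?_, hdown e he'.2 hg⟩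
      rintro rfl
      have h1 := d1_lo_lt S hg (Ne.symm he'.1)
      have h2 := hmax e he'.2
      omega
    obtain ⟨a, ha⟩ := ih (Δ.erase d) (by rw [Finset.card_erase_of_mem hd]; omega) hdown'
      (fun e he => hDel e (Finset.mem_of_mem_erase he))
    obtain ⟨d'', hs, hπ⟩ := hsurj (a • d) (σ (π d))
    have hW : ∀ e ∈ Δ, π e ∈ W := fun e he => hDel e he e (S.self_mem e)
    obtain ⟨b, hb1, hb2⟩ := S.tr ((Δ.erase d).image (a • ·)) (by
        intro e he g hg
        obtain ⟨e', he', rfl⟩ := Finset.mem_image.mp he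
        refine Finset.mem_image.mpr ⟨a⁻¹ • g, ?_, smul_inv_smul a g⟩
        refine hdown' e' he' ?_
        rw [← S.lo_smul a]
        simpa using hg) (a • d) d'' hs (by
        intro h
        obtain ⟨e', he', h⟩ := Finset.mem_image.mp h
        have : e' = d := smul_left_cancel a h
        subst this
        exact Finset.notMem_erase _ _ he') (by
        intro h
        obtain ⟨e, he, rfl⟩ := Finset.mem_image.mp h
        have he' := Finset.mem_erase.mp he
        have h1 : S.sim d e := by
          have := S.sim_smul a⁻¹ _ _ hs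
          simpa using this
        have h2 : σ (π e) = σ (π d) := by rw [← ha e he]; exact hπ
        have h3 : π e = π d := hσ (hW e he'.2) (hW d hd) h2
        exact he'.1 (hinj e d (S.sim_equiv.symm h1) h3)) (by
        intro e he hne
        refine Finset.mem_image.mpr ⟨a⁻¹ • e, ?_, smul_inv_smul a e⟩
        refine Finset.mem_erase.mpr ⟨?_, ?_⟩
        · intro h
          apply hne
          rw [← h, smul_inv_smul]
        · refine hdown d hd ?_
          rw [← S.lo_smul a]
          simpa using he)
    refine ⟨b * a, fun e he => ?_⟩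
    rw [mul_smul]
    by_cases hed : e = d
    · subst hed
      rw [hb2, hπ]
    · have he' : e ∈ Δ.erase d := Finset.mem_erase.mpr ⟨hed, he⟩
      rw [hb1 (a • e) (Finset.mem_image_of_mem _ he'), ha e he']

end D1

attribute [local instance] LSys.act in
theorem wsys_of_lsys {A M : Type} [Group A] [MulAction A M] (S : LSys A M) :
    Nonempty (WSys A M) := by
  classical
  obtain ⟨π, hinj, hsurj⟩ := d1_exists_label S
  have hcl : ∀ (W : Finset ℚ) x, (S.cl x).image π ⊆ W → ∀ d ∈ S.cl x, d ∈ d1Del S π W := by
    intro W x hx d hd e he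
    exact hx (Finset.mem_image_of_mem π (S.cl_lo x d hd he))
  have hcl' : ∀ (W : Finset ℚ) x, (∀ d ∈ S.cl x, d ∈ d1Del S π W) → (S.cl x).image π ⊆ W := by
    intro W x hx q hq
    obtain ⟨d, hd, rfl⟩ := Finset.mem_image.mp hq
    exact hx d hd d (S.self_mem d)
  have hsm : ∀ (a : A) x, S.cl (a • x) = (S.cl x).image (a • ·) := by
    intro a x
    ext d
    constructor
    · intro hd
      refine Finset.mem_image.mpr ⟨a⁻¹ • d, ?_, smul_inv_smul a d⟩
      rw [← S.cl_smul a]
      simpa using hd
    · intro hd
      obtain ⟨e, he, rfl⟩ := Finset.mem_image.mp hd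
      exact (S.cl_smul a x e).mpr he
  refine ⟨⟨fun x => (S.cl x).image π, ?_, ?_, ?_⟩⟩
  · intro W
    have hfin := d1_Del_finite S π hinj W
    refine (S.fin1 hfin.toFinset).subset ?_
    intro x hx d hd
    rw [Set.Finite.mem_toFinset]
    exact hcl W x hx d hd
  · obtain ⟨k, hk⟩ := S.bdd
    exact ⟨k, fun x => Finset.card_image_le.trans (hk x)⟩
  · intro W σ hσ
    have hfin := d1_Del_finite S π hinj W
    obtain ⟨a, ha⟩ := d1_lift S π hinj hsurj W σ hσ.injOn _ hfin.toFinset rfl (by
      intro d hd e he
      rw [Set.Finite.mem_toFinset] at hd ⊢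
      exact d1_Del_down S hd he) (by
      intro d hd
      rwa [Set.Finite.mem_toFinset] at hd)
    have ha' : ∀ d ∈ d1Del S π W, π (a • d) = σ (π d) := fun d hd =>
      ha d (by rwa [Set.Finite.mem_toFinset])
    refine ⟨a, ?_, ?_⟩
    · intro x hx
      show (S.cl (a • x)).image π = ((S.cl x).image π).image σ
      rw [hsm, Finset.image_image, Finset.image_image]
      refine Finset.image_congr fun d hd => ?_
      exact ha' d (hcl W x hx d hd)
    · intro y hy
      have claim : ∀ (n : ℕ) (d : S.D), (S.lo d).card = n → d ∈ d1Del S π (W.image σ) →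
          a⁻¹ • d ∈ d1Del S π W := by
        intro n
        induction n using Nat.strong_induction_on with
        | _ n ih =>
          intro d hn hd
          have hlow : ∀ e ∈ S.lo (a⁻¹ • d), e ≠ a⁻¹ • d → e ∈ d1Del S π W := by
            intro e he hne
            have he1 : a • e ∈ S.lo d := by
              have := (S.lo_smul a (a⁻¹ • d) e).mpr he
              simpa using this
            have hne1 : a • e ≠ d := by
              intro h
              apply hne
              rw [← h, inv_smul_smul]
            have := ih (S.lo (a • e)).card (by rw [← hn]; exact d1_lo_lt S he1 hne1) (a • e) rfl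
              (d1_Del_down S hd he1)
            simpa using this
          obtain ⟨w, hw, hw2⟩ := Finset.mem_image.mp (hd d (S.self_mem d))
          obtain ⟨d₂, hs, hπ⟩ := hsurj (a⁻¹ • d) w
          have hd₂ : d₂ ∈ d1Del S π W := by
            intro e he
            by_cases hed : e = d₂
            · rw [hed, hπ]; exact hw
            · obtain ⟨h1, h2⟩ := S.sim_lo d₂ (a⁻¹ • d) (S.sim_equiv.symm hs) e hed he
              exact hlow e h2 h1 e (S.self_mem e)
          have h3 : d = a • d₂ := by
            refine hinj d (a • d₂) ?_ ?_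
            · have := S.sim_smul a _ _ hs
              simpa using this
            · rw [ha' d₂ hd₂, hπ, hw2]
          rw [h3, inv_smul_smul]
          exact hd₂
      refine ⟨a⁻¹ • y, ?_, smul_inv_smul a y⟩
      refine hcl' W _ ?_
      intro d hd
      rw [hsm] at hd
      obtain ⟨e, he, rfl⟩ := Finset.mem_image.mp hd
      exact claim _ e rfl (hcl (W.image σ) y hy e he)

end Pool.Agent.Helper596_Q
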