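import Mathlib
import Pool.Agent.H330.Ramsey
import Pool.Agent.Helper596_Q.Ext
import Pool.Agent.Helper596_Q.Op

/-!
# Coherent lifts
-/

set_option autoImplicit false

namespace Pool.Agent.Helper596_Q

/-- A coherent system of lifts. -/
structure Coh {A M : Type} [Group A] [MulAction A M] (S : WSys A M)
    (h : Finset ℚ → Finset ℚ → M → M) : Prop where
  c1 : ∀ (D : Finset ℚ) (σ : ℚ → ℚ), StrictMonoOn σ (D : Set ℚ) → ∃ a : A, ∀ x, S.supp x ⊆ D →
    h D (D.image σ) x = a • x ∧ S.supp (a • x) = (S.supp x).image σ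
  c2 : ∀ (D : Finset ℚ) (σ τ : ℚ → ℚ), StrictMonoOn σ (D : Set ℚ) →
    StrictMonoOn τ (D.image σ : Set ℚ) → ∀ x, S.supp x ⊆ D →
    h (D.image σ) ((D.image σ).image τ) (h D (D.image σ) x) = h D ((D.image σ).image τ) x
  c3 : ∀ (D D₀ : Finset ℚ) (σ : ℚ → ℚ), StrictMonoOn σ (D : Set ℚ) → D₀ ⊆ D → ∀ x,
    S.supp x ⊆ D₀ → h D (D.image σ) x = h D₀ (D₀.image σ) x

namespace CohAux

/-- Two strictly monotone maps on a finite set with the same image agree. -/
theorem mono_unique (D : Finset ℚ) (α β : ℚ → ℚ) (hα : StrictMonoOn α (D : Set ℚ))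
    (hβ : StrictMonoOn β (D : Set ℚ)) (h : D.image α = D.image β) : ∀ x ∈ D, α x = β x := by
  classical
  have hk : (D.image α).card = D.card := Finset.card_image_of_injOn hα.injOn
  have key : ∀ γ : ℚ → ℚ, StrictMonoOn γ (D : Set ℚ) → (∀ x ∈ D, γ x ∈ D.image α) →
      (fun i : Fin D.card => γ (D.orderEmbOfFin rfl i)) = (D.image α).orderEmbOfFin hk := by
    intro γ hγ hm
    apply Finset.orderEmbOfFin_unique
    · intro i
      exact hm _ (Finset.orderEmbOfFin_mem _ _ _)
    · intro i j hij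
      exact hγ (Finset.orderEmbOfFin_mem _ _ _) (Finset.orderEmbOfFin_mem _ _ _)
        ((D.orderEmbOfFin rfl).strictMono hij)
  have e1 := key α hα (fun x hx => Finset.mem_image_of_mem _ hx)
  have e2 := key β hβ (fun x hx => by rw [h]; exact Finset.mem_image_of_mem _ hx)
  intro x hx
  have hx' : x ∈ Set.range (D.orderEmbOfFin rfl) := by
    rw [Finset.range_orderEmbOfFin]; exact hx
  obtain ⟨i, rfl⟩ := hx'
  exact congrFun (e1.trans e2.symm) i

/-- Finite sets of rationals of the same size are exchanged by an automorphism. -/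
theorem exists_auto (Q P : Finset ℚ) (h : P.card = Q.card) : ∃ α : ℚ ≃o ℚ, Q.image α = P := by
  classical
  obtain ⟨σ, hσ⟩ := exists_ext' (Finset.univ : Finset (Fin Q.card)) (Q.orderEmbOfFin rfl)
    (P.orderEmbOfFin h) (fun a _ b _ => by simp)
  refine ⟨σ, ?_⟩
  refine Finset.eq_of_subset_of_card_le ?_ ?_
  · intro y hy
    obtain ⟨x, hx, rfl⟩ := Finset.mem_image.1 hy
    have hx' : x ∈ Set.range (Q.orderEmbOfFin rfl) := by
      rw [Finset.range_orderEmbOfFin]; exact hx
    obtain ⟨i, rfl⟩ := hx'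
    rw [hσ i (Finset.mem_univ _)]
    exact Finset.orderEmbOfFin_mem _ _ _
  · rw [Finset.card_image_of_injective _ σ.injective, h]

theorem image_symm_image (α : ℚ ≃o ℚ) (F : Finset ℚ) : (F.image α).image α.symm = F := by
  classical
  rw [Finset.image_image]
  have : (⇑α.symm ∘ ⇑α) = id := funext fun q => α.symm_apply_apply q
  rw [this, Finset.image_id]

theorem image_image_symm (α : ℚ ≃o ℚ) (F : Finset ℚ) : (F.image α.symm).image α = F := by
  classical
  rw [Finset.image_image]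
  have : (⇑α ∘ ⇑α.symm) = id := funext fun q => α.apply_symm_apply q
  rw [this, Finset.image_id]

variable {A M : Type} [Group A] [MulAction A M] (S : WSys A M)

theorem exists_lift (W : Finset ℚ) (α : ℚ ≃o ℚ) : ∃ a : A,
    (∀ x, S.supp x ⊆ W → S.supp (a • x) = (S.supp x).image α) ∧
    (∀ y, S.supp y ⊆ W.image α → S.supp (a⁻¹ • y) = (S.supp y).image α.symm) := by
  classical
  obtain ⟨a, h1, h2⟩ := S.lift W α (α.strictMono.strictMonoOn _)
  refine ⟨a, h1, ?_⟩
  intro y hy
  obtain ⟨x, hx, rfl⟩ := h2 y hy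
  rw [inv_smul_smul, h1 x hx, image_symm_image]

/-- The number of elements supported by `D`. -/
noncomputable def NN (D : Finset ℚ) : ℕ := (S.fin D).toFinset.card

theorem NN_mono {C D : Finset ℚ} (h : C ⊆ D) : NN S C ≤ NN S D := by
  refine Finset.card_le_card ?_
  intro x hx
  rw [Set.Finite.mem_toFinset] at hx ⊢
  exact hx.trans h

theorem NN_image (D : Finset ℚ) (α : ℚ ≃o ℚ) : NN S (D.image α) ≤ NN S D := by
  classical
  obtain ⟨a, h1, h2⟩ := exists_lift S D α
  refine Finset.card_le_card_of_injOn (fun y => a⁻¹ • y) ?_ ?_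
  · intro y hy
    have hy' : S.supp y ⊆ D.image α := by simpa using hy
    have := h2 y hy'
    rw [Finset.mem_coe, Set.Finite.mem_toFinset]
    change S.supp (a⁻¹ • y) ⊆ D
    rw [this]
    intro q hq
    obtain ⟨r, hr, rfl⟩ := Finset.mem_image.1 hq
    obtain ⟨s, hs, rfl⟩ := Finset.mem_image.1 (hy' hr)
    simpa using hs
  · intro y _ z _ hyz
    exact (MulAction.injective (a⁻¹ : A)) hyz

theorem exists_enum : ∃ c : Finset ℚ → M → ℕ, ∀ D, (∀ x, S.supp x ⊆ D → c D x < NN S D) ∧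
    ∀ x y, S.supp x ⊆ D → S.supp y ⊆ D → c D x = c D y → x = y := by
  classical
  have : ∀ D : Finset ℚ, ∃ f : M → ℕ, (∀ x, S.supp x ⊆ D → f x < NN S D) ∧
    ∀ x y, S.supp x ⊆ D → S.supp y ⊆ D → f x = f y → x = y := by
    intro D
    let e := (S.fin D).toFinset.equivFin
    refine ⟨fun x => if h : x ∈ (S.fin D).toFinset then (e ⟨x, h⟩ : ℕ) else 0, ?_, ?_⟩
    · intro x hx
      have hx' : x ∈ (S.fin D).toFinset := by simpa using hx
      simp only [dif_pos hx']
      exact (e ⟨x, hx'⟩).2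
    · intro x y hx hy hxy
      have hx' : x ∈ (S.fin D).toFinset := by simpa using hx
      have hy' : y ∈ (S.fin D).toFinset := by simpa using hy
      simp only [dif_pos hx', dif_pos hy'] at hxy
      have := e.injective (Fin.ext hxy)
      exact congrArg Subtype.val this
  choose c hc using this
  exact ⟨c, hc⟩

/-- Labels which are coherent for the subsets of `Q`. -/
theorem local_lab (Q : Finset ℚ) : ∃ L : Finset ℚ → M → ℕ,
    (∀ D ⊆ Q, ∀ x, S.supp x ⊆ D → L D x ≤ NN S D) ∧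
    (∀ D ⊆ Q, ∀ x y, S.supp x ⊆ D → S.supp y ⊆ D → L D x = L D y → x = y) ∧
    (∀ D ⊆ Q, ∀ σ : ℚ → ℚ, StrictMonoOn σ (D : Set ℚ) → D.image σ ⊆ Q → ∃ a : A,
      ∀ D₀ ⊆ D, ∀ x, S.supp x ⊆ D₀ → L (D₀.image σ) (a • x) = L D₀ x ∧
        S.supp (a • x) = (S.supp x).image σ) := by
  classical
  obtain ⟨c, hc⟩ := exists_enum S
  let cst : Finset ℕ → Finset ℚ := fun P => P.image (fun n : ℕ => (n : ℚ))
  have hcinj : Function.Injective (fun n : ℕ => (n : ℚ)) := Nat.cast_injective
  have hcst : ∀ P, (cst P).card = P.card := fun P => Finset.card_image_of_injective _ hcinj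
  have h1 : ∀ P : Finset ℕ, ∃ α : ℚ ≃o ℚ, P.card = Q.card → Q.image α = cst P := by
    intro P
    by_cases hP : P.card = Q.card
    · obtain ⟨α, hα⟩ := exists_auto Q (cst P) (by rw [hcst, hP])
      exact ⟨α, fun _ => hα⟩
    · exact ⟨OrderIso.refl _, fun h => absurd h hP⟩
  choose α hα using h1
  have h2 : ∀ P : Finset ℕ, ∃ a : A,
      (∀ x, S.supp x ⊆ Q → S.supp (a • x) = (S.supp x).image (α P)) ∧
      (∀ y, S.supp y ⊆ Q.image (α P) → S.supp (a⁻¹ • y) = (S.supp y).image (α P).symm) :=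
    fun P => exists_lift S Q (α P)
  choose g hg1 hg2 using h2
  -- the colouring
  let col : Finset ℕ → (Q.powerset → (S.fin Q).toFinset → Fin (NN S Q + 1)) :=
    fun P C x => ⟨min (c ((C : Finset ℚ).image (α P)) (g P • (x : M))) (NN S Q),
      Nat.lt_succ_of_le (min_le_right _ _)⟩
  obtain ⟨H, c0, hHinf, hH⟩ := Pool.Agent.H330.infinite_ramsey Q.card col
  have hlab : ∀ P P' : Finset ℕ, P.card = Q.card → P'.card = Q.card → (↑P : Set ℕ) ⊆ H →
      (↑P' : Set ℕ) ⊆ H → ∀ C ⊆ Q, ∀ x, S.supp x ⊆ C →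
      c (C.image (α P)) (g P • x) = c (C.image (α P')) (g P' • x) := by
    intro P P' hP hP' hPH hPH' C hC x hx
    have e : col P = col P' := (hH P hP hPH).trans (hH P' hP' hPH').symm
    have e1 := congrFun (congrFun e ⟨C, Finset.mem_powerset.2 hC⟩)
      ⟨x, by rw [Set.Finite.mem_toFinset]; exact hx.trans hC⟩
    have e2 := congrArg Fin.val e1
    have hb : ∀ R : Finset ℕ, c (C.image (α R)) (g R • x) ≤ NN S Q := by
      intro R
      have h3 : S.supp (g R • x) ⊆ C.image (α R) := by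
        rw [hg1 R x (hx.trans hC)]
        exact Finset.image_subset_image hx
      exact ((hc _).1 _ h3).le.trans ((NN_image S C (α R)).trans (NN_mono S hC))
    simp only [col] at e2
    rwa [min_eq_left (hb P), min_eq_left (hb P')] at e2
  obtain ⟨P₁, hP₁H, hP₁⟩ := hHinf.exists_subset_card_eq Q.card
  refine ⟨fun D x => c (D.image (α P₁)) (g P₁ • x), ?_, ?_, ?_⟩
  · intro D hD x hx
    have h3 : S.supp (g P₁ • x) ⊆ D.image (α P₁) := by
      rw [hg1 P₁ x (hx.trans hD)]
      exact Finset.image_subset_image hx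
    exact ((hc _).1 _ h3).le.trans (NN_image S D (α P₁))
  · intro D hD x y hx hy hxy
    have h3 : S.supp (g P₁ • x) ⊆ D.image (α P₁) := by
      rw [hg1 P₁ x (hx.trans hD)]
      exact Finset.image_subset_image hx
    have h4 : S.supp (g P₁ • y) ⊆ D.image (α P₁) := by
      rw [hg1 P₁ y (hy.trans hD)]
      exact Finset.image_subset_image hy
    exact MulAction.injective (g P₁) ((hc _).2 _ _ h3 h4 hxy)
  · intro D hD σ hσ hσD
    -- the subsets of `P₁` corresponding to `D` and `D.image σ`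
    have hpre : ∀ C ⊆ Q, ∃ C' : Finset ℕ, C' ⊆ P₁ ∧ cst C' = C.image (α P₁) := by
      intro C hC
      refine ⟨P₁.filter (fun n => (n : ℚ) ∈ C.image (α P₁)), Finset.filter_subset _ _, ?_⟩
      ext q
      simp only [cst, Finset.mem_image, Finset.mem_filter]
      constructor
      · rintro ⟨n, ⟨_, hn⟩, rfl⟩
        exact hn
      · rintro ⟨r, hr, rfl⟩
        have : α P₁ r ∈ cst P₁ := by
          rw [← hα P₁ hP₁]; exact Finset.mem_image_of_mem _ (hC hr)
        obtain ⟨n, hn, hn'⟩ := Finset.mem_image.1 this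
        exact ⟨n, ⟨hn, r, hr, hn'.symm⟩, hn'⟩
    obtain ⟨D₁, hD₁P, hD₁⟩ := hpre D hD
    obtain ⟨D₂, hD₂P, hD₂⟩ := hpre _ hσD
    have hcD₁ : D₁.card = D.card := by
      rw [← hcst, hD₁, Finset.card_image_of_injective _ (α P₁).injective]
    have hcD₂ : D₂.card = D.card := by
      rw [← hcst, hD₂, Finset.card_image_of_injective _ (α P₁).injective,
        Finset.card_image_of_injOn hσ.injOn]
    -- large elements of `H`
    obtain ⟨E, hEH, hEc⟩ : ∃ E : Finset ℕ, (↑E : Set ℕ) ⊆ H \ ↑(Finset.range (P₁.sup id + 1)) ∧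
        E.card = Q.card - D.card := by
      have : (H \ ↑(Finset.range (P₁.sup id + 1))).Infinite :=
        hHinf.sdiff (Finset.finite_toSet _)
      exact this.exists_subset_card_eq _
    have hEgt : ∀ e ∈ E, ∀ p ∈ P₁, p < e := by
      intro e he p hp
      have h3 := (hEH (Finset.mem_coe.2 he)).2
      have h4 : p ≤ P₁.sup id := Finset.le_sup (f := id) hp
      rw [Finset.mem_coe, Finset.mem_range] at h3
      omega
    have hdis : ∀ C ⊆ P₁, Disjoint C E := by
      intro C hC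
      rw [Finset.disjoint_left]
      intro e he he'
      exact lt_irrefl _ (hEgt e he' e (hC he))
    have hDQ : D.card ≤ Q.card := Finset.card_le_card hD
    set P := D₁ ∪ E with hPdef
    set P' := D₂ ∪ E with hP'def
    have hPc : P.card = Q.card := by
      rw [hPdef, Finset.card_union_of_disjoint (hdis _ hD₁P), hcD₁, hEc]; omega
    have hP'c : P'.card = Q.card := by
      rw [hP'def, Finset.card_union_of_disjoint (hdis _ hD₂P), hcD₂, hEc]; omega
    have hPH : (↑P : Set ℕ) ⊆ H := by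
      rw [hPdef, Finset.coe_union]
      exact Set.union_subset ((Finset.coe_subset.2 hD₁P).trans hP₁H) (hEH.trans Set.sdiff_subset)
    have hP'H : (↑P' : Set ℕ) ⊆ H := by
      rw [hP'def, Finset.coe_union]
      exact Set.union_subset ((Finset.coe_subset.2 hD₂P).trans hP₁H) (hEH.trans Set.sdiff_subset)
    have hcP : cst P = D.image (α P₁) ∪ cst E := by
      rw [hPdef, ← hD₁]; exact Finset.image_union _ _
    have hcP' : cst P' = (D.image σ).image (α P₁) ∪ cst E := by
      rw [hP'def, ← hD₂]; exact Finset.image_union _ _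
    have hbig : ∀ C ⊆ Q, ∀ z ∈ C.image (α P₁), ∀ e ∈ cst E, z < e := by
      intro C hC z hz e he
      have h3 : z ∈ cst P₁ := by
        rw [← hα P₁ hP₁]; exact Finset.image_subset_image hC hz
      obtain ⟨n, hn, rfl⟩ := Finset.mem_image.1 h3
      obtain ⟨m, hm, rfl⟩ := Finset.mem_image.1 he
      exact_mod_cast hEgt m hm n hn
    -- the order isomorphism from `P` to `P'`
    let τ : ℚ → ℚ := fun z => if z ∈ D.image (α P₁) then α P₁ (σ ((α P₁).symm z)) else z
    have hτ1 : ∀ d ∈ D, τ (α P₁ d) = α P₁ (σ d) := by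
      intro d hd
      simp only [τ, if_pos (Finset.mem_image_of_mem (α P₁) hd), OrderIso.symm_apply_apply]
    have hτ2 : ∀ e ∈ cst E, τ e = e := by
      intro e he
      have : e ∉ D.image (α P₁) := fun h => lt_irrefl _ (hbig D hD e h e he)
      simp only [τ, if_neg this]
    have hτmono : StrictMonoOn τ (cst P : Set ℚ) := by
      intro y hy z hz hyz
      rw [Finset.mem_coe, hcP, Finset.mem_union] at hy hz
      rcases hy with hy | hy
      · obtain ⟨d, hd, rfl⟩ := Finset.mem_image.1 hy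
        rw [hτ1 d hd]
        rcases hz with hz | hz
        · obtain ⟨d', hd', rfl⟩ := Finset.mem_image.1 hz
          rw [hτ1 d' hd']
          exact (α P₁).strictMono (hσ hd hd' ((α P₁).lt_iff_lt.1 hyz))
        · rw [hτ2 z hz]
          exact hbig _ hσD _ (Finset.mem_image_of_mem _ (Finset.mem_image_of_mem _ hd)) z hz
      · rw [hτ2 y hy]
        rcases hz with hz | hz
        · exact absurd hyz (not_lt.2 (hbig D hD z hz y hy).le)
        · rw [hτ2 z hz]; exact hyz
    have hτim : (cst P).image τ = cst P' := by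
      rw [hcP, hcP', Finset.image_union]
      congr 1
      · ext q
        simp only [Finset.mem_image]
        constructor
        · rintro ⟨_, ⟨d, hd, rfl⟩, rfl⟩
          exact ⟨σ d, ⟨d, hd, rfl⟩, (hτ1 d hd).symm⟩
        · rintro ⟨_, ⟨d, hd, rfl⟩, rfl⟩
          exact ⟨α P₁ d, ⟨d, hd, rfl⟩, hτ1 d hd⟩
      · rw [Finset.image_congr (g := id) (fun e he => hτ2 e he), Finset.image_id]
    have hQP : Q.image (α P) = cst P := hα P hPc
    have hQP' : Q.image (α P') = cst P' := hα P' hP'c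
    have hcomp : ∀ q ∈ Q, α P' q = τ (α P q) := by
      apply mono_unique Q (α P') (fun q => τ (α P q))
      · exact (α P').strictMono.strictMonoOn _
      · intro y hy z hz hyz
        refine hτmono ?_ ?_ ((α P).strictMono hyz)
        · rw [← hQP]; exact Finset.mem_coe.2 (Finset.mem_image_of_mem _ hy)
        · rw [← hQP]; exact Finset.mem_coe.2 (Finset.mem_image_of_mem _ hz)
      · rw [hQP', ← hτim, ← hQP, Finset.image_image]
        rfl
    have hinQ : ∀ d ∈ D, (α P).symm (α P₁ d) ∈ Q := by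
      intro d hd
      have : α P₁ d ∈ Q.image (α P) := by
        rw [hQP, hcP]; exact Finset.mem_union_left _ (Finset.mem_image_of_mem _ hd)
      obtain ⟨q, hq, hq'⟩ := Finset.mem_image.1 this
      rw [← hq']; simpa using hq
    have hkey : ∀ d ∈ D, α P' ((α P).symm (α P₁ d)) = α P₁ (σ d) := by
      intro d hd
      rw [hcomp _ (hinQ d hd), OrderIso.apply_symm_apply, hτ1 d hd]
    refine ⟨(g P₁)⁻¹ * g P' * (g P)⁻¹ * g P₁, ?_⟩
    intro D₀ hD₀ x hx
    have hxD : S.supp x ⊆ D := hx.trans hD₀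
    have s1 : S.supp (g P₁ • x) = (S.supp x).image (α P₁) := hg1 P₁ x (hxD.trans hD)
    have s2 : S.supp ((g P)⁻¹ • g P₁ • x) =
        ((S.supp x).image (α P₁)).image (α P).symm := by
      rw [hg2 P (g P₁ • x) ?_, s1]
      rw [s1, hQP, hcP]
      exact (Finset.image_subset_image hxD).trans Finset.subset_union_left
    have s2Q : S.supp ((g P)⁻¹ • g P₁ • x) ⊆ (D₀.image (α P₁)).image (α P).symm := by
      rw [s2]
      exact Finset.image_subset_image (Finset.image_subset_image hx)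
    have hC₀Q : (D₀.image (α P₁)).image (α P).symm ⊆ Q := by
      intro q hq
      simp only [Finset.mem_image] at hq
      obtain ⟨_, ⟨d, hd, rfl⟩, rfl⟩ := hq
      exact hinQ d (hD₀ hd)
    have him : ∀ F ⊆ D, ((F.image (α P₁)).image (α P).symm).image (α P') =
        (F.image σ).image (α P₁) := by
      intro F hF
      ext q
      simp only [Finset.mem_image]
      constructor
      · rintro ⟨_, ⟨_, ⟨d, hd, rfl⟩, rfl⟩, rfl⟩
        exact ⟨σ d, ⟨d, hd, rfl⟩, (hkey d (hF hd)).symm⟩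
      · rintro ⟨_, ⟨d, hd, rfl⟩, rfl⟩
        exact ⟨_, ⟨_, ⟨d, hd, rfl⟩, rfl⟩, hkey d (hF hd)⟩
    have s3 : S.supp (g P' • (g P)⁻¹ • g P₁ • x) = ((S.supp x).image σ).image (α P₁) := by
      rw [hg1 P' _ (s2Q.trans hC₀Q), s2, him _ hxD]
    have s4 : S.supp ((g P₁)⁻¹ • g P' • (g P)⁻¹ • g P₁ • x) = (S.supp x).image σ := by
      rw [hg2 P₁ _ ?_, s3, image_symm_image]
      · rw [s3]
        exact Finset.image_subset_image ((Finset.image_subset_image hxD).trans hσD)
    have hax : ((g P₁)⁻¹ * g P' * (g P)⁻¹ * g P₁) • x =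
        (g P₁)⁻¹ • g P' • (g P)⁻¹ • g P₁ • x := by
      rw [mul_smul, mul_smul, mul_smul]
    rw [hax]
    refine ⟨?_, s4⟩
    simp only
    rw [smul_inv_smul]
    have l1 := hlab P P' hPc hP'c hPH hP'H _ hC₀Q _ s2Q
    rw [smul_inv_smul, him D₀ hD₀] at l1
    rw [← l1, image_image_symm]

/-- Eventually constant values along an ultrafilter. -/
theorem ult_const {X : Type*} (U : Ultrafilter X) (f : X → ℕ) (B : ℕ)
    (h : ∀ᶠ q in (U : Filter X), f q ≤ B) : ∃ v, ∀ᶠ q in (U : Filter X), f q = v := by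
  obtain ⟨w, hw⟩ := Ultrafilter.eq_pure_of_finite
    (U.map (fun q => (⟨min (f q) B, Nat.lt_succ_of_le (min_le_right _ _)⟩ : Fin (B + 1))))
  refine ⟨w, ?_⟩
  have h1 : ({w} : Set (Fin (B + 1))) ∈
      U.map (fun q => (⟨min (f q) B, Nat.lt_succ_of_le (min_le_right _ _)⟩ : Fin (B + 1))) := by
    rw [hw]; exact Ultrafilter.mem_pure.2 rfl
  have h2 : ∀ᶠ q in (U : Filter X),
      (⟨min (f q) B, Nat.lt_succ_of_le (min_le_right _ _)⟩ : Fin (B + 1)) = w := h1
  filter_upwards [h, h2] with q hq hq2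
  have := congrArg Fin.val hq2
  simpa [min_eq_left hq] using this

/-- Coherent labels. -/
theorem global_lab : ∃ L : Finset ℚ → M → ℕ,
    (∀ D : Finset ℚ, ∀ x y, S.supp x ⊆ D → S.supp y ⊆ D → L D x = L D y → x = y) ∧
    (∀ D : Finset ℚ, ∀ σ : ℚ → ℚ, StrictMonoOn σ (D : Set ℚ) → ∃ a : A,
      ∀ D₀ ⊆ D, ∀ x, S.supp x ⊆ D₀ → L (D₀.image σ) (a • x) = L D₀ x ∧
        S.supp (a • x) = (S.supp x).image σ) := by
  classical
  choose L h1 h2 h3 using local_lab S
  let U : Ultrafilter (Finset ℚ) := Ultrafilter.of Filter.atTop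
  have hU : ∀ D : Finset ℚ, ∀ᶠ Q in (U : Filter (Finset ℚ)), D ⊆ Q := fun D =>
    Ultrafilter.of_le _ (Filter.eventually_ge_atTop D)
  have h4 : ∀ (D : Finset ℚ) (x : M), ∃ v, S.supp x ⊆ D →
      ∀ᶠ Q in (U : Filter (Finset ℚ)), L Q D x = v := by
    intro D x
    by_cases hx : S.supp x ⊆ D
    · obtain ⟨v, hv⟩ := ult_const U (fun Q => L Q D x) (NN S D)
        ((hU D).mono fun Q hQ => h1 Q D hQ x hx)
      exact ⟨v, fun _ => hv⟩
    · exact ⟨0, fun h => absurd h hx⟩
  choose LL hLL using h4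
  have h5 : ∀ F : Finset ℚ, ∀ᶠ Q in (U : Filter (Finset ℚ)), F ⊆ Q ∧
      ∀ D ∈ F.powerset, ∀ x ∈ (S.fin D).toFinset, L Q D x = LL D x := by
    intro F
    refine (hU F).and ?_
    rw [Filter.eventually_all_finset]
    intro D _
    rw [Filter.eventually_all_finset]
    intro x hx
    rw [Set.Finite.mem_toFinset] at hx
    exact hLL D x hx
  refine ⟨LL, ?_, ?_⟩
  · intro D x y hx hy hxy
    obtain ⟨Q, hQ, hQ2⟩ := (h5 D).exists
    refine h2 Q D hQ x y hx hy ?_
    rw [hQ2 D (Finset.mem_powerset_self D) x (by rwa [Set.Finite.mem_toFinset]),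
      hQ2 D (Finset.mem_powerset_self D) y (by rwa [Set.Finite.mem_toFinset]), hxy]
  · intro D σ hσ
    obtain ⟨Q, hQ, hQ2⟩ := (h5 (D ∪ D.image σ)).exists
    obtain ⟨a, ha⟩ := h3 Q D (Finset.subset_union_left.trans hQ) σ hσ
      (Finset.subset_union_right.trans hQ)
    refine ⟨a, ?_⟩
    intro D₀ hD₀ x hx
    obtain ⟨e1, e2⟩ := ha D₀ hD₀ x hx
    refine ⟨?_, e2⟩
    rw [← hQ2 D₀ (Finset.mem_powerset.2 (hD₀.trans Finset.subset_union_left)) x
      (by rwa [Set.Finite.mem_toFinset]), ← e1]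
    refine (hQ2 (D₀.image σ) (Finset.mem_powerset.2
      ((Finset.image_subset_image hD₀).trans Finset.subset_union_right)) (a • x) ?_).symm
    rw [Set.Finite.mem_toFinset]
    change S.supp (a • x) ⊆ D₀.image σ
    rw [e2]
    exact Finset.image_subset_image hx

end CohAux

open CohAux in
theorem exists_coh {A M : Type} [Group A] [MulAction A M] (S : WSys A M) :
    ∃ h : Finset ℚ → Finset ℚ → M → M, Coh S h := by
  classical
  obtain ⟨L, inj, lift⟩ := global_lab S
  let h : Finset ℚ → Finset ℚ → M → M := fun D D' x =>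
    if hy : ∃ y, S.supp y ⊆ D' ∧ L D' y = L D x then hy.choose else x
  have hval : ∀ D D' x y, S.supp y ⊆ D' → L D' y = L D x → h D D' x = y := by
    intro D D' x y h1 h2
    have hy : ∃ y, S.supp y ⊆ D' ∧ L D' y = L D x := ⟨y, h1, h2⟩
    simp only [h, dif_pos hy]
    exact inj D' _ _ hy.choose_spec.1 h1 (hy.choose_spec.2.trans h2.symm)
  have hsp : ∀ (D : Finset ℚ) (σ : ℚ → ℚ), StrictMonoOn σ (D : Set ℚ) → ∃ a : A,
      ∀ D₀ ⊆ D, ∀ x, S.supp x ⊆ D₀ → h D₀ (D₀.image σ) x = a • x ∧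
        L (D₀.image σ) (a • x) = L D₀ x ∧ S.supp (a • x) = (S.supp x).image σ := by
    intro D σ hσ
    obtain ⟨a, ha⟩ := lift D σ hσ
    refine ⟨a, fun D₀ hD₀ x hx => ?_⟩
    obtain ⟨e1, e2⟩ := ha D₀ hD₀ x hx
    refine ⟨hval _ _ _ _ ?_ e1, e1, e2⟩
    rw [e2]
    exact Finset.image_subset_image hx
  refine ⟨h, ?_, ?_, ?_⟩
  · intro D σ hσ
    obtain ⟨a, ha⟩ := hsp D σ hσ
    exact ⟨a, fun x hx => ⟨(ha D (Finset.Subset.refl _) x hx).1,
      (ha D (Finset.Subset.refl _) x hx).2.2⟩⟩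
  · intro D σ τ hσ hτ x hx
    obtain ⟨a, ha⟩ := hsp D σ hσ
    obtain ⟨b, hb⟩ := hsp (D.image σ) τ hτ
    obtain ⟨a1, a2, a3⟩ := ha D (Finset.Subset.refl _) x hx
    have hax : S.supp (a • x) ⊆ D.image σ := by
      rw [a3]; exact Finset.image_subset_image hx
    obtain ⟨b1, b2, b3⟩ := hb _ (Finset.Subset.refl _) (a • x) hax
    rw [a1, b1]
    refine (hval _ _ _ _ ?_ (b2.trans a2)).symm
    rw [b3]
    exact Finset.image_subset_image hax
  · intro D D₀ σ hσ hD₀ x hx
    obtain ⟨a, ha⟩ := hsp D σ hσ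
    rw [(ha D (Finset.Subset.refl _) x (hx.trans hD₀)).1, (ha D₀ hD₀ x hx).1]

end Pool.Agent.Helper596_Q
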