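import Mathlib
import Pool.Agent.Helper596_Q.Ext
import Pool.Agent.Helper596_Q.Op
import Pool.Agent.Helper596_Q.E1

/-!
# From coherent lifts to an action
-/

set_option autoImplicit false

namespace Pool.Agent.Helper596_Q


theorem coh_act {A M : Type} [Group A] [MulAction A M] (S : WSys A M)
    (h : Finset ℚ → Finset ℚ → M → M) (hh : Coh S h) :
    ∃ act : MulAction (ℚ ≃o ℚ) M,
      (∀ (σ : ℚ ≃o ℚ) (F : Finset M), ∃ a : A, ∀ x ∈ F, act.toSMul.smul σ x = a • x) ∧
      (∀ (σ : ℚ ≃o ℚ) (x : M), (∀ q ∈ S.supp x, σ q = q) → act.toSMul.smul σ x = x) ∧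
      (∃ R : Finset M, ∀ x, ∃ y ∈ R, ∃ σ : ℚ ≃o ℚ, act.toSMul.smul σ y = x) := by
  classical
  have hid : ∀ (D : Finset ℚ) (x : M), S.supp x ⊆ D → h D D x = x := by
    intro D x hx
    have hmono : StrictMonoOn (id : ℚ → ℚ) (D : Set ℚ) := strictMonoOn_id
    obtain ⟨a, ha⟩ := hh.c1 D id hmono
    have h2 := hh.c2 D id id hmono (by rw [Finset.image_id]; exact hmono) x hx
    simp only [Finset.image_id] at h2 ha
    obtain ⟨h3, h4⟩ := ha x hx
    have h5 := (ha (a • x) (by rw [h4]; exact hx)).1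
    rw [h3, h5] at h2
    rw [h3]
    exact MulAction.injective a h2
  have hm : ∀ (σ : ℚ ≃o ℚ) (D : Finset ℚ), StrictMonoOn σ (D : Set ℚ) := fun σ D =>
    σ.strictMono.strictMonoOn _
  have hsupp : ∀ (σ : ℚ ≃o ℚ) (x : M),
      S.supp (h (S.supp x) ((S.supp x).image σ) x) = (S.supp x).image σ := by
    intro σ x
    obtain ⟨a, ha⟩ := hh.c1 (S.supp x) σ (hm σ _)
    obtain ⟨h1, h2⟩ := ha x (Finset.Subset.refl _)
    rw [h1, h2]
  let act : MulAction (ℚ ≃o ℚ) M :=
    { smul := fun σ x => h (S.supp x) ((S.supp x).image σ) x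
      one_smul := by
        intro x
        show h (S.supp x) ((S.supp x).image (1 : ℚ ≃o ℚ)) x = x
        have h1 : (S.supp x).image (1 : ℚ ≃o ℚ) = S.supp x := by
          have : ((1 : ℚ ≃o ℚ) : ℚ → ℚ) = id := rfl
          rw [this, Finset.image_id]
        rw [h1]
        exact hid _ x (Finset.Subset.refl _)
      mul_smul := by
        intro σ τ x
        show h (S.supp x) ((S.supp x).image (σ * τ)) x =
          h (S.supp (h (S.supp x) ((S.supp x).image τ) x))
            ((S.supp (h (S.supp x) ((S.supp x).image τ) x)).image σ)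
            (h (S.supp x) ((S.supp x).image τ) x)
        rw [hsupp τ x, hh.c2 (S.supp x) τ σ (hm τ _) (hm σ _) x (Finset.Subset.refl _),
          Finset.image_image]
        rfl }
  refine ⟨act, ?_, ?_, ?_⟩
  · intro σ F
    obtain ⟨a, ha⟩ := hh.c1 (F.biUnion S.supp) σ (hm σ _)
    refine ⟨a, fun x hx => ?_⟩
    have hsub : S.supp x ⊆ F.biUnion S.supp := Finset.subset_biUnion_of_mem S.supp hx
    show h (S.supp x) ((S.supp x).image σ) x = a • x
    rw [← (ha x hsub).1]
    exact (hh.c3 (F.biUnion S.supp) (S.supp x) σ (hm σ _) hsub x (Finset.Subset.refl _)).symm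
  · intro σ x hx
    show h (S.supp x) ((S.supp x).image σ) x = x
    have h1 : (S.supp x).image σ = S.supp x := by
      ext q
      rw [Finset.mem_image]
      constructor
      · rintro ⟨r, hr, rfl⟩
        rw [hx r hr]; exact hr
      · intro hq
        exact ⟨q, hq, hx q hq⟩
    rw [h1]
    exact hid _ x (Finset.Subset.refl _)
  · obtain ⟨k, hk⟩ := S.bdd
    refine ⟨(S.fin ((Finset.range k).image (fun n : ℕ => (n : ℚ)))).toFinset, fun x => ?_⟩
    obtain ⟨σ, hσ⟩ := exists_ext (S.supp x)
      (fun q => (((S.supp x).filter (fun d => d < q)).card : ℚ)) (by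
        intro q hq q' hq' hlt
        show (((S.supp x).filter (fun d => d < q)).card : ℚ) <
          (((S.supp x).filter (fun d => d < q')).card : ℚ)
        have h1 : ((S.supp x).filter (fun d => d < q)) ⊂ ((S.supp x).filter (fun d => d < q')) := by
          rw [Finset.ssubset_iff_of_subset]
          · exact ⟨q, Finset.mem_filter.mpr ⟨hq, hlt⟩, by simp⟩
          · intro d hd
            rw [Finset.mem_filter] at hd ⊢
            exact ⟨hd.1, hd.2.trans hlt⟩
        exact_mod_cast Finset.card_lt_card h1)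
    refine ⟨act.toSMul.smul σ x, ?_, σ⁻¹, ?_⟩
    · rw [Set.Finite.mem_toFinset]
      show S.supp (h (S.supp x) ((S.supp x).image σ) x) ⊆ _
      rw [hsupp]
      intro q hq
      obtain ⟨r, hr, rfl⟩ := Finset.mem_image.mp hq
      rw [hσ r hr]
      refine Finset.mem_image.mpr ⟨((S.supp x).filter (fun d => d < r)).card, ?_, rfl⟩
      rw [Finset.mem_range]
      refine lt_of_lt_of_le (Finset.card_lt_card ?_) (hk x)
      rw [Finset.ssubset_iff_of_subset (Finset.filter_subset _ _)]
      exact ⟨r, hr, by simp⟩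
    · have h1 := act.mul_smul σ⁻¹ σ x
      rw [inv_mul_cancel] at h1
      exact h1.symm.trans (act.one_smul x)

end Pool.Agent.Helper596_Q

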