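import Mathlib

/-!
# Finitely homogeneous structures
-/

set_option autoImplicit false

namespace Pool.Agent.Helper596_Q

open FirstOrder FirstOrder.Language

/-- The group of automorphisms of a relational structure. -/
def AutL (L : FirstOrder.Language.{0, 0}) (M : Type) [L.Structure M] :
    Subgroup (Equiv.Perm M) where
  carrier := {g | ∀ (n : ℕ) (R : L.Relations n) (x : Fin n → M),
    Structure.RelMap R x ↔ Structure.RelMap R (fun i => g (x i))}
  one_mem' := fun _ _ _ => Iff.rfl
  mul_mem' := by
    intro a b ha hb n R x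
    rw [hb n R x, ha n R (fun i => b (x i))]
    rfl
  inv_mem' := by
    intro a ha n R x
    rw [ha n R (fun i => a⁻¹ (x i))]
    have : (fun i => a (a⁻¹ (x i))) = x := by
      funext i
      exact Equiv.apply_symm_apply a (x i)
    rw [this]

theorem ext_aut (L : FirstOrder.Language.{0, 0}) [L.IsRelational]
    (M : Type) [L.Structure M] (h : L.IsUltrahomogeneous M) (ι : Type) [Finite ι] (x y : ι → M)
    (heq : ∀ i j, x i = x j ↔ y i = y j)
    (hrel : ∀ (n : ℕ) (R : L.Relations n) (i : Fin n → ι),
      Structure.RelMap R (fun m => x (i m)) ↔ Structure.RelMap R (fun m => y (i m))) :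
    ∃ a ∈ AutL L M, ∀ j, a (x j) = y j := by
  classical
  let S : L.Substructure M := Substructure.closure L (Set.range x)
  have hS : (S : Set M) = Set.range x := Substructure.closure_eq_of_isRelational L _
  have hSfg : S.FG := Substructure.fg_closure (Set.finite_range x)
  have hmem : ∀ m : S, ∃ i, x i = m := by
    rintro ⟨m, hm⟩
    have : m ∈ (S : Set M) := hm
    rw [hS] at this
    exact this
  choose c hc using hmem
  let f : S ↪[L] M :=
    { toFun := fun m => y (c m)
      inj' := by
        intro m m' hmm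
        have := (heq (c m) (c m')).2 hmm
        rw [hc, hc] at this
        exact Subtype.ext this
      map_fun' := by
        intro n g
        exact isEmptyElim g
      map_rel' := by
        intro n R v
        have h1 := hrel n R (fun m => c (v m))
        have h2 : (fun m => x (c (v m))) = fun m => (v m : M) := by
          funext m; exact hc _
        rw [h2] at h1
        exact h1.symm }
  obtain ⟨g, hg⟩ := h S hSfg f
  refine ⟨g.toEquiv, ?_, ?_⟩
  · intro n R v
    exact (g.map_rel R v).symm
  · intro j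
    have hj : x j ∈ S := by
      have : x j ∈ (S : Set M) := by rw [hS]; exact ⟨j, rfl⟩
      exact this
    have h1 : f ⟨x j, hj⟩ = g (x j) := by rw [hg]; rfl
    have h2 : f ⟨x j, hj⟩ = y (c ⟨x j, hj⟩) := rfl
    have h3 : y (c ⟨x j, hj⟩) = y j := (heq _ _).1 (hc _)
    change g (x j) = y j
    rw [← h1, h2, h3]

theorem k_ary (L : FirstOrder.Language.{0, 0}) [L.IsRelational] [Finite (Σ n, L.Relations n)]
    (M : Type) [Countable M] [L.Structure M] (h : L.IsUltrahomogeneous M) :
    ∃ k : ℕ, ∀ (ι : Type) [Finite ι] (x y : ι → M),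
      (∀ J : Finset ι, J.card ≤ k → ∃ a ∈ AutL L M, ∀ j ∈ J, a (x j) = y j) →
      ∃ a ∈ AutL L M, ∀ j, a (x j) = y j := by
  classical
  obtain ⟨K, hK⟩ := (Set.finite_range (fun p : Σ n, L.Relations n => p.1)).bddAbove
  refine ⟨max 2 K, fun ι _ x y H => ext_aut L M h ι x y ?_ ?_⟩
  · intro i j
    obtain ⟨a, _, ha⟩ := H {i, j} ((Finset.card_le_two).trans (le_max_left _ _))
    rw [← ha i (by simp), ← ha j (by simp)]
    exact a.injective.eq_iff.symm
  · intro n R i
    have hn : n ≤ K := hK ⟨⟨n, R⟩, rfl⟩
    obtain ⟨a, ha1, ha⟩ := H (Finset.univ.image i)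
      ((Finset.card_image_le.trans (by simp [hn])).trans (le_max_right _ _))
    rw [ha1 n R (fun m => x (i m))]
    have : (fun m => a (x (i m))) = fun m => y (i m) := by
      funext m
      exact ha (i m) (Finset.mem_image_of_mem _ (Finset.mem_univ _))
    rw [this]

theorem olig (L : FirstOrder.Language.{0, 0}) [L.IsRelational] [Finite (Σ n, L.Relations n)]
    (M : Type) [Countable M] [L.Structure M] (h : L.IsUltrahomogeneous M) (n : ℕ) :
    ∃ S : Finset (Fin n → M), ∀ v : Fin n → M, ∃ s ∈ S, ∃ a ∈ AutL L M, ∀ i, a (s i) = v i := by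
  classical
  let τ : (Fin n → M) → Set (Fin n × Fin n) × Set (Σ R : (Σ m, L.Relations m), (Fin R.1 → Fin n)) :=
    fun v => ({p | v p.1 = v p.2}, {q | Structure.RelMap q.1.2 (fun m => v (q.2 m))})
  let rep : Set.range τ → (Fin n → M) := fun t => t.2.choose
  have hrep : ∀ t : Set.range τ, τ (rep t) = t := fun t => t.2.choose_spec
  refine ⟨(Set.finite_range rep).toFinset, fun v => ⟨rep ⟨τ v, v, rfl⟩, ?_, ?_⟩⟩
  · rw [Set.Finite.mem_toFinset]
    exact ⟨_, rfl⟩
  · have h1 : τ (rep ⟨τ v, v, rfl⟩) = τ v := hrep ⟨τ v, v, rfl⟩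
    have h2 := congrArg Prod.fst h1
    have h3 := congrArg Prod.snd h1
    refine ext_aut L M h (Fin n) _ v ?_ ?_
    · intro i j
      have := Set.ext_iff.1 h2 (i, j)
      exact this
    · intro m R i
      have := Set.ext_iff.1 h3 ⟨⟨m, R⟩, i⟩
      exact this

end Pool.Agent.Helper596_Q
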