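import Mathlib
import Pool.Agent.Helper596_Q.F1a

/-!
# Countably many types: no binary tree of orbits
-/

set_option autoImplicit false

namespace Pool.Agent.Helper596_Q

open FirstOrder FirstOrder.Language


/-- A limit of a sequence of complete types. -/
theorem no_tree_lim {L : FirstOrder.Language.{0, 0}} {T : L.Theory} {α : Type}
    (𝒰 : Ultrafilter ℕ) (p : ℕ → T.CompleteType α) :
    ∃ q : T.CompleteType α, ∀ φ : L[[α]].Sentence, φ ∈ q ↔ ∀ᶠ n in (𝒰 : Filter ℕ), φ ∈ p n := by
  refine ⟨⟨{φ | ∀ᶠ n in (𝒰 : Filter ℕ), φ ∈ p n}, ?_, ?_, ?_⟩, fun φ => Iff.rfl⟩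
  · intro φ hφ
    exact Filter.Eventually.of_forall fun n => (p n).subset hφ
  · rw [Theory.isSatisfiable_iff_isFinitelySatisfiable]
    intro T0 hT0
    have h1 : ∀ᶠ n in (𝒰 : Filter ℕ), ∀ φ ∈ T0, φ ∈ p n := by
      rw [Filter.eventually_all_finset]
      exact fun φ hφ => hT0 hφ
    obtain ⟨n, hn⟩ := h1.exists
    exact (p n).isMaximal.1.mono fun φ hφ => hn φ hφ
  · intro φ
    have h1 : ∀ᶠ n in (𝒰 : Filter ℕ), φ ∈ p n ∨ φ.not ∈ p n :=
      Filter.Eventually.of_forall fun n => (p n).mem_or_not_mem φ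
    exact Ultrafilter.eventually_or.1 h1

/-- The formula of an orbit. -/
theorem no_tree_formula (L : FirstOrder.Language.{0, 0}) (M : Type) [L.Structure M]
    (G : Subgroup (Equiv.Perm M))
    (hdef : ∀ (n : ℕ) (s : Set (Fin n → M)), (∀ g ∈ G, ∀ x ∈ s, (fun i => g (x i)) ∈ s) →
      Set.Definable (∅ : Set M) L s) {k : ℕ} (b : Fin k → M) (x : M) :
    ∃ ψ : (L.withConstants ↥(Set.univ : Set M)).Formula (Fin 1),
      ∀ v : Fin 1 → M, ψ.Realize v ↔ v 0 ∈ orb G b x := by
  have h1 : Set.Definable (∅ : Set M) L {z : Fin (k + 1) → M | ∃ g ∈ G,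
      ∀ i, g ((Fin.cons x b : Fin (k + 1) → M) i) = z i} := by
    refine hdef (k + 1) _ ?_
    rintro g hg z ⟨g', hg', hz⟩
    refine ⟨g * g', G.mul_mem hg hg', fun i => ?_⟩
    rw [Equiv.Perm.mul_apply, hz]
  obtain ⟨φ, hφ⟩ := h1.mono (Set.empty_subset (Set.univ : Set M))
  refine ⟨φ.subst (fun i => (Fin.cons (FirstOrder.Language.Term.var 0)
    (fun j => (L.con (⟨b j, trivial⟩ : ↥(Set.univ : Set M))).term) :
      Fin (k + 1) → (L.withConstants ↥(Set.univ : Set M)).Term (Fin 1)) i), fun v => ?_⟩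
  rw [Formula.Realize, BoundedFormula.realize_subst, ← Formula.Realize]
  have h2 : ∀ z : Fin (k + 1) → M, φ.Realize z ↔ ∃ g ∈ G,
      ∀ i, g ((Fin.cons x b : Fin (k + 1) → M) i) = z i := by
    intro z
    have : z ∈ {z : Fin (k + 1) → M | ∃ g ∈ G,
      ∀ i, g ((Fin.cons x b : Fin (k + 1) → M) i) = z i} ↔ z ∈ Set.ofPred φ.Realize := by rw [hφ]
    exact this.symm
  rw [h2]
  constructor
  · rintro ⟨g, hg, hz⟩
    refine ⟨g, hg, fun i => ?_, ?_⟩
    · have := hz i.succ
      rw [Fin.cons_succ] at this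
      exact this
    · have := hz 0
      rw [Fin.cons_zero] at this
      exact this
  · rintro ⟨g, hg, hz, h0⟩
    refine ⟨g, hg, fun i => ?_⟩
    refine Fin.cases ?_ (fun j => ?_) i
    · rw [Fin.cons_zero]
      exact h0
    · rw [Fin.cons_succ]
      exact hz j

theorem no_tree (L : FirstOrder.Language.{0, 0}) (M : Type) [Countable M] [L.Structure M]
    (G : Subgroup (Equiv.Perm M))
    (hdef : ∀ (n : ℕ) (s : Set (Fin n → M)), (∀ g ∈ G, ∀ x ∈ s, (fun i => g (x i)) ∈ s) →
      Set.Definable (∅ : Set M) L s)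
    (hst : Countable (FirstOrder.Language.Theory.CompleteType
      ((L.withConstants ↥(Set.univ : Set M)).completeTheory M) (Fin 1)))
    (k : ℕ) (b : List Bool → (Fin k → M)) (x : List Bool → M)
    (htree : ∀ (β : ℕ → Bool) (n : ℕ), ∃ y : M,
      ∀ i < n, (y ∈ orb G (b ((List.range i).map β)) (x ((List.range i).map β)) ↔ β i = true)) :
    False := by
  classical
  have : Nonempty M := ⟨x []⟩
  choose ψ hψ using fun s : List Bool => no_tree_formula L M G hdef (b s) (x s)
  have h1 : ∀ β : ℕ → Bool, ∃ q : FirstOrder.Language.Theory.CompleteType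
      ((L.withConstants ↥(Set.univ : Set M)).completeTheory M) (Fin 1),
      ∀ i, (Formula.equivSentence (ψ ((List.range i).map β)) ∈ q ↔ β i = true) := by
    intro β
    choose y hy using htree β
    obtain ⟨q, hq⟩ := no_tree_lim (Filter.hyperfilter ℕ) fun n =>
      ((L.withConstants ↥(Set.univ : Set M)).completeTheory M).typeOf (fun _ : Fin 1 => y n)
    refine ⟨q, fun i => ?_⟩
    have hev : ∀ᶠ n in (Filter.hyperfilter ℕ : Filter ℕ), i < n := by
      refine Filter.Eventually.filter_mono Nat.hyperfilter_le_atTop ?_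
      exact Filter.eventually_gt_atTop i
    have h2 : ∀ n, i < n → (Formula.equivSentence (ψ ((List.range i).map β)) ∈
        ((L.withConstants ↥(Set.univ : Set M)).completeTheory M).typeOf (fun _ : Fin 1 => y n) ↔
        β i = true) := by
      intro n hn
      rw [Theory.CompleteType.formula_mem_typeOf, hψ]
      exact hy n i hn
    rw [hq]
    constructor
    · intro h
      obtain ⟨n, hn1, hn2⟩ := (h.and hev).exists
      exact (h2 n hn2).1 hn1
    · intro h
      filter_upwards [hev] with n hn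
      exact (h2 n hn).2 h
  choose q hq using h1
  have hinj : Function.Injective q := by
    intro β β' h
    by_contra hne
    have hex : ∃ i, β i ≠ β' i := by
      by_contra hcon
      push Not at hcon
      exact hne (funext hcon)
    have hmin : ∀ j < Nat.find hex, β j = β' j := by
      intro j hj
      by_contra hc
      exact Nat.find_min hex hj hc
    have e : (List.range (Nat.find hex)).map β = (List.range (Nat.find hex)).map β' := by
      refine List.map_congr_left fun j hj => ?_
      exact hmin j (List.mem_range.1 hj)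
    have h3 := hq β (Nat.find hex)
    rw [h, e, hq β' (Nat.find hex)] at h3
    refine Nat.find_spec hex ?_
    rw [Bool.eq_iff_iff]
    exact h3.symm
  have hc : Countable (ℕ → Bool) := hinj.countable
  obtain ⟨f, hf⟩ := exists_surjective_nat (ℕ → Bool)
  obtain ⟨n, hn⟩ := hf fun n => !(f n n)
  have := congrFun hn n
  simp at this

end Pool.Agent.Helper596_Q
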