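import Mathlib

/-!
# A structure with a function symbol: definitions
-/

set_option autoImplicit false

namespace Pool.Agent.Helper596_Q

open FirstOrder FirstOrder.Language

/-- One binary function symbol. -/
inductive FunS : ℕ → Type
  | f : FunS 2

/-- One ternary relation symbol. -/
inductive RelS : ℕ → Type
  | p : RelS 3

/-- The language with one binary function symbol and one ternary relation symbol. -/
def LF : FirstOrder.Language.{0, 0} := ⟨FunS, RelS⟩

/-- Labels, four edges for every pair of labels, and two truth values. -/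
inductive MF : Type
  | lab (q : ℚ) : MF
  | edge (a b : ℚ) (h : a < b) (k : ZMod 4) : MF
  | bool (b : Bool) : MF

/-- Two edges with the same labels are compared, two truth values are added. -/
def ff : MF → MF → MF
  | MF.edge a b _ k, MF.edge a' b' _ k' => MF.bool (decide (a = a' ∧ b = b' ∧ k' = k + 1))
  | MF.bool x, MF.bool y => MF.bool (xor x y)
  | _, _ => MF.bool false

/-- The edge `z` leads from the label `x` to the label `y`. -/
def pp (x y z : MF) : Prop :=
  ∃ (a b : ℚ) (h : a < b) (k : ZMod 4), z = MF.edge a b h k ∧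
    (((k = 0 ∨ k = 2) ∧ x = MF.lab a ∧ y = MF.lab b) ∨
      ((k = 1 ∨ k = 3) ∧ x = MF.lab b ∧ y = MF.lab a))

instance strF : LF.Structure MF where
  funMap := fun {_} s => match s with
    | FunS.f => fun v => ff (v 0) (v 1)
  RelMap := fun {_} s => match s with
    | RelS.p => fun v => pp (v 0) (v 1) (v 2)

theorem funMap_f (v : Fin 2 → MF) :
    Structure.funMap (L := LF) (M := MF) (FunS.f : LF.Functions 2) v = ff (v 0) (v 1) := rfl

theorem relMap_p (v : Fin 3 → MF) :
    Structure.RelMap (L := LF) (M := MF) (RelS.p : LF.Relations 3) v ↔ pp (v 0) (v 1) (v 2) :=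
  Iff.rfl

theorem pp_edge (a b : ℚ) (h : a < b) : pp (MF.lab a) (MF.lab b) (MF.edge a b h 0) :=
  ⟨a, b, h, 0, rfl, Or.inl ⟨Or.inl rfl, rfl, rfl⟩⟩

/-- Two edges in opposite directions between the same labels. -/
theorem pp_opposite {x y z z' : MF} (h : pp x y z) (h' : pp y x z') :
    ∃ β : Bool, ff z z' = MF.bool β ∧ ff z' z = MF.bool (!β) := by
  obtain ⟨a, b, hab, k, rfl, h⟩ := h
  obtain ⟨a', b', hab', k', rfl, h'⟩ := h'
  have key : a = a' ∧ b = b' ∧ (((k = 0 ∨ k = 2) ∧ (k' = 1 ∨ k' = 3)) ∨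
      ((k = 1 ∨ k = 3) ∧ (k' = 0 ∨ k' = 2))) := by
    rcases h with ⟨hk, rfl, rfl⟩ | ⟨hk, rfl, rfl⟩ <;> rcases h' with ⟨hk', e1, e2⟩ | ⟨hk', e1, e2⟩
    · rw [MF.lab.injEq] at e1 e2
      subst e1 e2
      exact absurd hab (lt_asymm hab')
    · rw [MF.lab.injEq] at e1 e2
      exact ⟨e2, e1, Or.inl ⟨hk, hk'⟩⟩
    · rw [MF.lab.injEq] at e1 e2
      exact ⟨e1, e2, Or.inr ⟨hk, hk'⟩⟩
    · rw [MF.lab.injEq] at e1 e2
      subst e1 e2
      exact absurd hab (lt_asymm hab')
  obtain ⟨rfl, rfl, hk⟩ := key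
  refine ⟨decide (k' = k + 1), ?_, ?_⟩
  · simp [ff]
  · simp only [ff, true_and, MF.bool.injEq]
    rcases hk with ⟨h1 | h1, h2 | h2⟩ | ⟨h1 | h1, h2 | h2⟩ <;> subst h1 h2 <;> decide

end Pool.Agent.Helper596_Q
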