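import Mathlib
import Pool.Agent.Helper596_Q.Step

/-!
# Iterating the main step
-/

set_option autoImplicit false

namespace Pool.Agent.Helper596_Q

variable {M : Type*} [MulAction (ℚ ≃o ℚ) M] (S : QAct M)

theorem In.mono {G : Subgroup (Equiv.Perm M)} {D D' : Finset ℚ} {f : M → M} (h : In S G D f)
    (hD : D' ⊆ D) : In S G D' f := by
  obtain ⟨g, hg, h⟩ := h
  exact ⟨g, hg, fun x hx => h x (hx.trans hD)⟩

theorem In.inv_comp {G : Subgroup (Equiv.Perm M)} {D : Finset ℚ} {f : M → M} (h : In S G D f)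
    {c : Equiv.Perm M} (hc : c ∈ G) : In S G D (fun x => c⁻¹ (f x)) := by
  obtain ⟨g, hg, h⟩ := h
  refine ⟨c⁻¹ * g, G.mul_mem (G.inv_mem hc) hg, fun x hx => ?_⟩
  rw [Equiv.Perm.mul_apply, h x hx]

theorem In.of_inv_comp {G : Subgroup (Equiv.Perm M)} {D : Finset ℚ} {f : M → M}
    {c : Equiv.Perm M} (hc : c ∈ G) (h : In S G D (fun x => c⁻¹ (f x))) : In S G D f := by
  obtain ⟨g, hg, h⟩ := h
  refine ⟨c * g, G.mul_mem hc hg, fun x hx => ?_⟩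
  rw [Equiv.Perm.mul_apply, h x hx]
  exact Equiv.apply_symm_apply c (f x)

/-- The hypotheses on the configuration for one step. -/
structure StepConf {ι : Type*} (D D' : Finset ℚ) (U : ι → Finset ℚ) : Prop where
  ex : ∃ (V : ι → Finset ℚ) (l r : ι → ℚ) (β : ι → ℚ → ℚ),
    (∀ i j, i ≠ j → r i < l j ∨ r j < l i) ∧
    (∀ i, ∀ q ∈ U i, q ∈ D ∧ l i ≤ q ∧ q ≤ r i) ∧
    (∀ i, ∀ q ∈ V i, q ∈ D ∧ l i ≤ q ∧ q ≤ r i) ∧
    (∀ i, ∀ q ∈ U i, q ∉ V i) ∧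
    (∀ i, ∀ p ∈ U i, ∀ q ∈ U i, (p < q ↔ β i p < β i q)) ∧
    (∀ i, ∀ q ∈ U i, β i q ∈ V i) ∧
    (D' ⊆ D) ∧ (∀ i, ∀ q ∈ D', l i ≤ q → q ≤ r i → q ∈ U i)

theorem StepConf.sub {ι : Type*} {D D' : Finset ℚ} {U : ι → Finset ℚ} (h : StepConf D D' U) :
    D' ⊆ D := by
  obtain ⟨V, l, r, β, -, -, -, -, -, -, h, -⟩ := h.ex
  exact h

theorem iter {ι : Type*} [Fintype ι] [Nonempty ι] (G : Subgroup (Equiv.Perm M))
    (hG : ∀ σ : ℚ ≃o ℚ, MulAction.toPerm σ ∈ G) (D : ℕ → Finset ℚ) (U : ι → Finset ℚ) (J : ℕ)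
    (hD : ∀ j < J, StepConf (D (j + 1)) (D j) U) (g : M → M)
    (hg : ∀ i, In S G (D J \ U i) g) :
    ∃ c ∈ G, Fintype.card ι ^ J * (Mv S (D 0) (fun x => c⁻¹ (g x))).card ≤
      (3 * S.k) ^ J * (Mv S (D J) g).card := by
  induction J generalizing g with
  | zero =>
    refine ⟨1, G.one_mem, ?_⟩
    simp
  | succ J ih =>
    obtain ⟨V, l, r, β, h1, h2, h3, h4, h5, h6, h7, h8⟩ := (hD J (Nat.lt_succ_self J)).ex
    obtain ⟨c, hc, hcc⟩ := step S G hG (D (J + 1)) (D J) U V l r β h1 h2 h3 h4 h5 h6 h7 h8 g hg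
    obtain ⟨d, hd, hdd⟩ := ih (fun j hj => hD j (Nat.lt_succ_of_lt hj)) (fun x => c⁻¹ (g x))
      (fun i => ((hg i).mono S (Finset.sdiff_subset_sdiff h7 (Finset.Subset.refl _))).inv_comp S hc)
    refine ⟨c * d, G.mul_mem hc hd, ?_⟩
    have e : (fun x => (c * d)⁻¹ (g x)) = (fun x => d⁻¹ (c⁻¹ (g x))) := by
      funext x
      rw [mul_inv_rev, Equiv.Perm.mul_apply]
    rw [e]
    calc Fintype.card ι ^ (J + 1) * (Mv S (D 0) (fun x => d⁻¹ (c⁻¹ (g x)))).card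
        = Fintype.card ι * (Fintype.card ι ^ J *
          (Mv S (D 0) (fun x => d⁻¹ (c⁻¹ (g x)))).card) := by ring
      _ ≤ Fintype.card ι * ((3 * S.k) ^ J * (Mv S (D J) (fun x => c⁻¹ (g x))).card) :=
          Nat.mul_le_mul_left _ hdd
      _ = (3 * S.k) ^ J * (Fintype.card ι * (Mv S (D J) (fun x => c⁻¹ (g x))).card) := by ring
      _ ≤ (3 * S.k) ^ J * (3 * S.k * (Mv S (D (J + 1)) g).card) := Nat.mul_le_mul_left _ hcc
      _ = (3 * S.k) ^ (J + 1) * (Mv S (D (J + 1)) g).card := by ring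

theorem iter_in {ι : Type*} [Fintype ι] [Nonempty ι] (G : Subgroup (Equiv.Perm M))
    (hG : ∀ σ : ℚ ≃o ℚ, MulAction.toPerm σ ∈ G) (D : ℕ → Finset ℚ) (U : ι → Finset ℚ) (J : ℕ)
    (hD : ∀ j < J, StepConf (D (j + 1)) (D j) U) (g : M → M)
    (hg : ∀ i, In S G (D J \ U i) g)
    (hJ : (3 * S.k) ^ J * (S.r * ((D J).card + 1) ^ S.k) < Fintype.card ι ^ J) :
    In S G (D 0) g := by
  obtain ⟨c, hc, h⟩ := iter S G hG D U J hD g hg
  have h1 : (Mv S (D J) g).card ≤ S.r * ((D J).card + 1) ^ S.k := by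
    classical
    exact (Finset.card_filter_le _ _).trans (S.card_fib _)
  have h2 : Fintype.card ι ^ J * (Mv S (D 0) (fun x => c⁻¹ (g x))).card < Fintype.card ι ^ J * 1 := by
    rw [mul_one]
    exact lt_of_le_of_lt (h.trans (Nat.mul_le_mul_left _ h1)) hJ
  have h3 : (Mv S (D 0) (fun x => c⁻¹ (g x))).card < 1 := lt_of_mul_lt_mul_left h2 (Nat.zero_le _)
  have h4 : Mv S (D 0) (fun x => c⁻¹ (g x)) = ∅ := Finset.card_eq_zero.1 (by omega)
  refine In.of_inv_comp S hc ⟨1, G.one_mem, fun x hx => ?_⟩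
  by_contra hcon
  have : x ∈ Mv S (D 0) (fun x => c⁻¹ (g x)) := by
    rw [mem_Mv]
    exact ⟨hx, fun h => hcon h.symm⟩
  rw [h4] at this
  exact absurd this (Finset.notMem_empty _)

theorem growth (K r a c : ℕ) (k : ℕ) (hK : K < a) :
    ∃ J : ℕ, K ^ J * (r * (c * (J + 1) + 1) ^ k) < a ^ J := by
  have ha : 0 < a := by omega
  have h1 : Filter.Tendsto (fun n : ℕ => (n : ℝ) ^ k * ((K : ℝ) / a) ^ n) Filter.atTop (nhds 0) := by
    apply tendsto_pow_const_mul_const_pow_of_abs_lt_one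
    rw [abs_of_nonneg (by positivity), div_lt_one (by exact_mod_cast ha)]
    exact_mod_cast hK
  have h2 : Filter.Tendsto (fun n : ℕ => ((r : ℝ) * (2 * c + 1) ^ k) *
      ((n : ℝ) ^ k * ((K : ℝ) / a) ^ n)) Filter.atTop (nhds 0) := by
    have := h1.const_mul ((r : ℝ) * (2 * c + 1) ^ k)
    simpa using this
  have h3 := h2.eventually (gt_mem_nhds (zero_lt_one))
  obtain ⟨J, hJ, hJ1⟩ := (h3.and (Filter.eventually_ge_atTop 1)).exists
  refine ⟨J, ?_⟩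
  have haR : (0 : ℝ) < (a : ℝ) ^ J := by positivity
  have hJ1' : (1 : ℝ) ≤ J := by exact_mod_cast hJ1
  have h4 : ((c : ℝ) * (J + 1) + 1) ^ k ≤ ((2 * c + 1) * J) ^ k := by
    apply pow_le_pow_left₀ (by positivity)
    nlinarith [Nat.cast_nonneg (α := ℝ) c]
  have h5 : (K : ℝ) ^ J * (r * (c * (J + 1) + 1) ^ k) < a ^ J := by
    calc (K : ℝ) ^ J * (r * (c * (J + 1) + 1) ^ k) ≤ (K : ℝ) ^ J * (r * ((2 * c + 1) * J) ^ k) := by
          gcongr
      _ = ((r : ℝ) * (2 * c + 1) ^ k * ((J : ℝ) ^ k * ((K : ℝ) / a) ^ J)) * a ^ J := by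
          rw [mul_pow, div_pow]
          field_simp
      _ < 1 * a ^ J := by
          apply mul_lt_mul_of_pos_right hJ haR
      _ = a ^ J := one_mul _
  exact_mod_cast h5

end Pool.Agent.Helper596_Q
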