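import Mathlib
import Pool.Agent.R546.RN.Ryll

/-!
# Reducts and closed groups
-/

set_option autoImplicit false

namespace Pool.Agent.Helper596_Q

open FirstOrder FirstOrder.Language Set Pool.Agent.R546.RN

section
variable {L : FirstOrder.Language.{0, 0}} {M : Type} [L.Structure M]

theorem st_of_equiv {n : ℕ} (g : M ≃[L] M) (v w : Fin n → M) (h : ∀ i, g (v i) = w i) :
    St (L := L) v w := by
  intro φ
  have hw : w = g ∘ v := by
    funext i
    exact (h i).symm
  rw [hw]
  exact (StrongHomClass.realize_formula g φ).symm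

theorem isol_of_finset {n : ℕ} (S : Finset (Fin n → M)) (hS : ∀ v : Fin n → M, ∃ s ∈ S,
    St (L := L) s v) (v : Fin n → M) : Isol L v := by
  classical
  have h : ∀ s : S, ∃ χ : L.Formula (Fin n), χ.Realize v ∧
      (¬ St (L := L) s.1 v → ¬ χ.Realize s.1) := by
    intro s
    by_cases hs : St (L := L) s.1 v
    · exact ⟨⊤, by simp, fun h => absurd hs h⟩
    · have hs' := hs
      unfold St at hs'
      push Not at hs'
      obtain ⟨φ, hφ⟩ := hs'
      rcases hφ with ⟨h1, h2⟩ | ⟨h1, h2⟩
      · exact ⟨∼φ, by rw [Formula.realize_not]; exact h2, fun _ => by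
          rw [Formula.realize_not]; exact fun h => h h1⟩
      · exact ⟨φ, h2, fun _ => h1⟩
  choose χ hχ1 hχ2 using h
  refine ⟨Formula.iInf χ, by rw [Formula.realize_iInf]; exact hχ1, fun w hw => ?_⟩
  rw [Formula.realize_iInf] at hw
  obtain ⟨s, hs, hsw⟩ := hS w
  by_contra hcon
  have h1 : ¬ St (L := L) s v := fun h => hcon ((hsw.symm').trans' h)
  exact hχ2 ⟨s, hs⟩ h1 ((hsw (χ ⟨s, hs⟩)).2 (hw ⟨s, hs⟩))

theorem definable_of_invariant [Countable M]
    (hol : ∀ n : ℕ, ∃ S : Finset (Fin n → M), ∀ v : Fin n → M, ∃ s ∈ S, ∃ g : M ≃[L] M,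
      ∀ i, g (s i) = v i)
    (n : ℕ) (s : Set (Fin n → M))
    (hs : ∀ g : M ≃[L] M, ∀ x ∈ s, (fun i => g (x i)) ∈ s) : Set.Definable (∅ : Set M) L s := by
  classical
  rcases isEmpty_or_nonempty M with hM | hM
  · have hsub : Subsingleton (Fin n → M) := inferInstance
    rcases Set.eq_empty_or_nonempty s with h | h
    · rw [h]; exact definable_empty
    · have : s = Set.univ := Set.eq_univ_of_forall (fun x => by
        obtain ⟨y, hy⟩ := h
        rw [Subsingleton.elim x y]; exact hy)
      rw [this]; exact definable_univ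
  have hI : ∀ (m : ℕ) (v : Fin m → M), Isol L v := by
    intro m v
    obtain ⟨S, hS⟩ := hol m
    refine isol_of_finset S (fun v => ?_) v
    obtain ⟨s, hs, g, hg⟩ := hS v
    exact ⟨s, hs, st_of_equiv g s v hg⟩
  choose χ hχ1 hχ2 using hI n
  obtain ⟨S, hS⟩ := hol n
  have e : s = ⋃ v ∈ S.filter (fun v => v ∈ s), {x : Fin n → M | (χ v).Realize x} := by
    ext x
    rw [Set.mem_iUnion₂]
    constructor
    · intro hx
      obtain ⟨v, hv, g, hg⟩ := hS x
      refine ⟨v, Finset.mem_filter.2 ⟨hv, ?_⟩, ?_⟩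
      · have h1 := hs g.symm x hx
        have h2 : (fun i => g.symm (x i)) = v := by
          funext i
          rw [← hg i]
          exact g.symm_apply_apply (v i)
        rw [h2] at h1
        exact h1
      · exact ((st_of_equiv g v x hg) (χ v)).1 (hχ1 v)
    · rintro ⟨v, hv, hx⟩
      have hv' := (Finset.mem_filter.1 hv).2
      obtain ⟨g, hg⟩ := exists_aut hI v x (hχ2 v x hx).symm'
      have := hs g v hv'
      have h2 : (fun i => g (v i)) = x := by
        funext i
        exact hg i
      rwa [h2] at this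
  rw [e]
  refine definable_biUnion_finset (fun v => ?_) _
  rw [empty_definable_iff]
  exact ⟨χ v, rfl⟩

theorem invariant_of_definable (n : ℕ) (s : Set (Fin n → M)) (hs : Set.Definable (∅ : Set M) L s)
    (g : M ≃[L] M) (x : Fin n → M) : x ∈ s ↔ (fun i => g (x i)) ∈ s := by
  rw [empty_definable_iff] at hs
  obtain ⟨φ, rfl⟩ := hs
  exact (st_of_equiv g x (fun i => g (x i)) (fun i => rfl)) φ

end

/-- Closed in the topology of pointwise convergence. -/
def Clo {M : Type*} (G : Subgroup (Equiv.Perm M)) : Prop :=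
  ∀ f : Equiv.Perm M, (∀ F : Finset M, ∃ g ∈ G, ∀ x ∈ F, g x = f x) → f ∈ G

/-- The permutations preserving every relation in a family. -/
def AutF {M : Type*} (F : (n : ℕ) → Set (Set (Fin n → M))) : Subgroup (Equiv.Perm M) where
  carrier := {g | ∀ n, ∀ r ∈ F n, ∀ x : Fin n → M, x ∈ r ↔ (fun i => g (x i)) ∈ r}
  one_mem' := fun n r _ x => Iff.rfl
  mul_mem' := by
    intro a b ha hb n r hr x
    rw [hb n r hr x, ha n r hr (fun i => b (x i))]
    rfl
  inv_mem' := by
    intro a ha n r hr x
    rw [ha n r hr (fun i => a⁻¹ (x i))]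
    have : (fun i => a (a⁻¹ (x i))) = x := by
      funext i
      exact Equiv.apply_symm_apply a (x i)
    rw [this]

theorem AutF_clo {M : Type*} (F : (n : ℕ) → Set (Set (Fin n → M))) : Clo (AutF F) := by
  classical
  intro f hf n r hr x
  obtain ⟨g, hg, h⟩ := hf (Finset.univ.image x)
  rw [hg n r hr x]
  have : (fun i => g (x i)) = (fun i => f (x i)) := by
    funext i
    exact h (x i) (Finset.mem_image_of_mem _ (Finset.mem_univ _))
  rw [this]

/-- **Reducts from closed groups.** -/
theorem finite_reducts (L : FirstOrder.Language.{0, 0}) (M : Type) [Countable M] [L.Structure M]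
    (A : Subgroup (Equiv.Perm M)) (hA : ∀ g ∈ A, ∃ g' : M ≃[L] M, ∀ x, g' x = g x)
    (hol : ∀ n : ℕ, ∃ S : Finset (Fin n → M), ∀ v : Fin n → M, ∃ s ∈ S, ∃ g ∈ A,
      ∀ i, g (s i) = v i)
    (hR : {G : Subgroup (Equiv.Perm M) | A ≤ G ∧ Clo G}.Finite) :
    Set.Finite {D : (n : ℕ) → Set (Set (Fin n → M)) |
        ∃ F : (n : ℕ) → Set (Set (Fin n → M)),
          (∀ n, F n ⊆ {s : Set (Fin n → M) | Set.Definable (∅ : Set M) L s}) ∧
          ∃ S : (FirstOrder.Language.mk (fun _ => Empty) (fun k => ↥(F k))).Structure M,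
            (∀ (k : ℕ) (r : ↥(F k)) (x : Fin k → M),
                @FirstOrder.Language.Structure.RelMap
                  (FirstOrder.Language.mk (fun _ => Empty) (fun k => ↥(F k))) M S k r x
                  ↔ x ∈ r.1) ∧
            ∀ n, D n = {s : Set (Fin n → M) |
              @Set.Definable M (∅ : Set M)
                (FirstOrder.Language.mk (fun _ => Empty) (fun k => ↥(F k))) S (Fin n) s}} := by
  refine (hR.image (fun G => fun n => {s : Set (Fin n → M) | ∀ g ∈ G, ∀ x : Fin n → M,
    x ∈ s → (fun i => g (x i)) ∈ s})).subset ?_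
  rintro D ⟨F, hF, S, hS, hD⟩
  have hAF : A ≤ AutF F := by
    intro g hg n r hr x
    obtain ⟨g', hg'⟩ := hA g hg
    have := invariant_of_definable n r (hF n hr) g' x
    rw [this]
    have e : (fun i => g' (x i)) = (fun i => g (x i)) := by
      funext i
      exact hg' _
    rw [e]
  refine ⟨AutF F, ⟨hAF, AutF_clo F⟩, ?_⟩
  funext n
  rw [hD n]
  let _ := S
  -- elements of the group are automorphisms
  have haut : ∀ g ∈ AutF F, ∃ g' : M ≃[FirstOrder.Language.mk (fun _ => Empty)
      (fun k => ↥(F k))] M, ∀ x, g' x = g x := by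
    intro g hg
    refine ⟨{ toEquiv := g
              map_fun' := fun f _ => f.elim
              map_rel' := ?_ }, fun x => rfl⟩
    intro k r x
    rw [hS, hS]
    exact (hg k r.1 r.2 x).symm
  have haut2 : ∀ g' : M ≃[FirstOrder.Language.mk (fun _ => Empty)
      (fun k => ↥(F k))] M, g'.toEquiv ∈ AutF F := by
    intro g' k r hr x
    have h := g'.map_rel (⟨r, hr⟩ : F k) x
    rw [hS, hS] at h
    exact h.symm
  ext s
  constructor
  · intro hs
    exact definable_of_invariant (fun m => by
      obtain ⟨T, hT⟩ := hol m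
      refine ⟨T, fun v => ?_⟩
      obtain ⟨t, ht, g, hg, hgt⟩ := hT v
      obtain ⟨g', hg'⟩ := haut g (hAF hg)
      exact ⟨t, ht, g', fun i => by rw [hg', hgt]⟩) n s (fun g' x hx => hs g'.toEquiv (haut2 g') x hx)
  · intro hs g hg x hx
    obtain ⟨g', hg'⟩ := haut g hg
    have h1 := (invariant_of_definable n s hs g' x).1 hx
    have e : (fun i => g' (x i)) = (fun i => g (x i)) := by
      funext i
      exact hg' _
    rwa [e] at h1

end Pool.Agent.Helper596_Q
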