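import Mathlib
import Pool.Agent.Helper596_Q.Canon
import Pool.Agent.Helper596_Q.Iter
import Pool.Agent.Helper596_Q.RN

/-!
# Finitely many closed groups contain the automorphism group of the rational order
-/

set_option autoImplicit false

namespace Pool.Agent.Helper596_Q

/-- The points `e j n` with `j < s` and `n < N`. -/
def pts (s N : ℕ) (e : ℕ → ℕ → ℚ) : Finset ℚ :=
  (Finset.range s ×ˢ Finset.range N).image (fun p => e p.1 p.2)

theorem mem_pts {s N : ℕ} {e : ℕ → ℕ → ℚ} {q : ℚ} :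
    q ∈ pts s N e ↔ ∃ j n, j < s ∧ n < N ∧ e j n = q := by
  unfold pts
  rw [Finset.mem_image]
  constructor
  · rintro ⟨⟨j, n⟩, h, rfl⟩
    rw [Finset.mem_product, Finset.mem_range, Finset.mem_range] at h
    exact ⟨j, n, h.1, h.2, rfl⟩
  · rintro ⟨j, n, h1, h2, rfl⟩
    exact ⟨(j, n), Finset.mem_product.2 ⟨Finset.mem_range.2 h1, Finset.mem_range.2 h2⟩, rfl⟩

theorem pts_mono {s N N' : ℕ} (e : ℕ → ℕ → ℚ) (h : N ≤ N') : pts s N e ⊆ pts s N' e := by
  intro q hq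
  obtain ⟨j, n, h1, h2, h3⟩ := mem_pts.1 hq
  exact mem_pts.2 ⟨j, n, h1, h2.trans_le h, h3⟩

theorem card_pts (s N : ℕ) (e : ℕ → ℕ → ℚ) : (pts s N e).card ≤ s * N := by
  unfold pts
  refine Finset.card_image_le.trans ?_
  rw [Finset.card_product, Finset.card_range, Finset.card_range]

/-- The standard double sequence. -/
noncomputable def E0 : ℕ → ℕ → ℚ := (exists_lex (fun j => (j : ℚ)) Nat.strictMono_cast).choose

theorem E0_lex : LexMono E0 :=
  (exists_lex (fun j => (j : ℚ)) Nat.strictMono_cast).choose_spec.1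

theorem exists_tau (s N : ℕ) (e e' : ℕ → ℕ → ℚ) (he : LexMono e) (he' : LexMono e') :
    ∃ τ : ℚ ≃o ℚ, ∀ j < s, ∀ n < N, τ (e j n) = e' j n := by
  obtain ⟨τ, hτ⟩ := exists_ext' (Finset.range s ×ˢ Finset.range N) (fun p => e p.1 p.2)
    (fun p => e' p.1 p.2) (by
      rintro ⟨j, n⟩ _ ⟨j', n'⟩ _
      rw [he.lt_iff, he'.lt_iff])
  exact ⟨τ, fun j hj n hn => hτ (j, n) (by simp [hj, hn])⟩

variable {M : Type*} [MulAction (ℚ ≃o ℚ) M] (S : QAct M)

theorem Canon.mono {s N N' : ℕ} {f : M → M} {e : ℕ → ℕ → ℚ} (h : Canon S s N f e) (hN : N' ≤ N) :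
    Canon S s N' f e := by
  intro σ x y hσ
  apply h σ x y
  intro q hq
  obtain ⟨j, n, n', h1, h2, h3, h4⟩ := hσ q hq
  exact ⟨j, n, n', h1, h2.trans_le hN, h3.trans_le hN, h4⟩

/-- Removing a block. -/
def skip (c j : ℕ) : ℕ := if j < c then j else j + 1

theorem skip_lt {c i j : ℕ} : skip c i < skip c j ↔ i < j := by
  unfold skip
  split_ifs <;> omega

theorem LexMono.skip {e : ℕ → ℕ → ℚ} (he : LexMono e) (c : ℕ) :
    LexMono (fun j n => e (skip c j) n) := by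
  intro j n j' n' h
  apply he
  rcases h with h | ⟨rfl, h⟩
  · exact Or.inl (skip_lt.2 h)
  · exact Or.inr ⟨rfl, h⟩

theorem Canon.skip {s N : ℕ} {f : M → M} {e : ℕ → ℕ → ℚ} (h : Canon S (s + 1) N f e) (c : ℕ) :
    Canon S s N f (fun j n => e (skip c j) n) := by
  intro σ x y hσ
  apply h σ x y
  intro q hq
  obtain ⟨j, n, n', h1, h2⟩ := hσ q hq
  refine ⟨Helper596_Q.skip c j, n, n', ?_, h2⟩
  unfold Helper596_Q.skip
  split_ifs <;> omega

/-- The set on which classes are computed. -/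
noncomputable def stdA (s : ℕ) : Finset M := S.fib (pts s (2 * S.k + 1) E0)

/-- `c` is the class of `f` along `e`. -/
def CanCls (s N : ℕ) (f : M → M) (e : ℕ → ℕ → ℚ) (c : Cls S (stdA S s)) : Prop :=
  LexMono e ∧ Canon S s N f e ∧ ∃ τ : ℚ ≃o ℚ, (∀ j < s, ∀ n < 2 * S.k + 1, τ (E0 j n) = e j n) ∧
    HasCls S (stdA S s) (fun x => f (τ • x)) c

/-- The invariant of a group. -/
def Inv (G : Subgroup (Equiv.Perm M)) (s : ℕ) : Set (Cls S (stdA S s)) :=
  {c | ∀ N, ∃ f ∈ G, ∃ e, CanCls S s N f e c}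

theorem compress (s N K : ℕ) (Q : Finset ℚ) (hQ : Q ⊆ pts s N E0) (hQc : Q.card ≤ K) :
    ∃ β : ℚ ≃o ℚ, ∀ q ∈ Q, ∃ j n n', j < s ∧ n < N ∧ n' < K + 1 ∧ (n = 0 ↔ n' = 0) ∧
      E0 j n = q ∧ E0 j n' = β q := by
  classical
  have hex : ∀ q : ℚ, ∃ z : ℕ × ℕ, q ∈ Q → z.1 < s ∧ z.2 < N ∧ E0 z.1 z.2 = q := by
    intro q
    by_cases hq : q ∈ Q
    · obtain ⟨j, n, h⟩ := mem_pts.1 (hQ hq)
      exact ⟨(j, n), fun _ => h⟩
    · exact ⟨(0, 0), fun h => absurd h hq⟩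
  choose z hz using hex
  let m : ℚ → ℕ := fun q => if (z q).2 = 0 then 0 else (Q.filter (fun p => p ≤ q)).card
  have hm : ∀ p ∈ Q, ∀ q ∈ Q, p < q → (Q.filter (fun p' => p' ≤ p)).card <
      (Q.filter (fun p' => p' ≤ q)).card := by
    intro p hp q hq hpq
    apply Finset.card_lt_card
    rw [Finset.ssubset_iff_of_subset]
    · exact ⟨q, Finset.mem_filter.2 ⟨hq, le_refl _⟩, fun h =>
        absurd (Finset.mem_filter.1 h).2 (not_le.2 hpq)⟩
    · intro x hx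
      rw [Finset.mem_filter] at hx ⊢
      exact ⟨hx.1, hx.2.trans hpq.le⟩
  have hpos : ∀ q ∈ Q, 0 < (Q.filter (fun p' => p' ≤ q)).card := by
    intro q hq
    rw [Finset.card_pos]
    exact ⟨q, Finset.mem_filter.2 ⟨hq, le_refl _⟩⟩
  obtain ⟨β, hβ⟩ := exists_ext' Q (fun q => q) (fun q => E0 (z q).1 (m q)) (by
    have key : ∀ p ∈ Q, ∀ q ∈ Q, p < q → E0 (z p).1 (m p) < E0 (z q).1 (m q) := by
      intro p hp q hq hpq
      have h1 := hz p hp
      have h2 := hz q hq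
      have h3 := hpq
      rw [← h1.2.2, ← h2.2.2, E0_lex.lt_iff] at h3
      rw [E0_lex.lt_iff]
      rcases h3 with h3 | ⟨h3, h4⟩
      · exact Or.inl h3
      · refine Or.inr ⟨h3, ?_⟩
        show (if (z p).2 = 0 then 0 else _) < (if (z q).2 = 0 then 0 else _)
        rw [if_neg (by omega : (z q).2 ≠ 0)]
        by_cases h5 : (z p).2 = 0
        · rw [if_pos h5]
          exact hpos q hq
        · rw [if_neg h5]
          exact hm p hp q hq hpq
    intro p hp q hq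
    refine ⟨key p hp q hq, fun h => ?_⟩
    by_contra hcon
    rcases lt_or_eq_of_le (not_lt.1 hcon) with h1 | h1
    · exact lt_asymm h (key q hq p hp h1)
    · have h1' : q = p := h1
      rw [h1'] at h
      exact lt_irrefl _ h)
  refine ⟨β, fun q hq => ⟨(z q).1, (z q).2, m q, (hz q hq).1, (hz q hq).2.1, ?_, ?_,
    (hz q hq).2.2, (hβ q hq).symm⟩⟩
  · show (if (z q).2 = 0 then 0 else _) < K + 1
    split_ifs
    · omega
    · have := Finset.card_filter_le Q (fun p => p ≤ q)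
      omega
  · show (z q).2 = 0 ↔ (if (z q).2 = 0 then 0 else _) = 0
    have := hpos q hq
    split_ifs with h
    · simp [h]
    · constructor
      · intro h'; exact absurd h' h
      · intro h'; omega

theorem base (G₁ G₂ : Subgroup (Equiv.Perm M)) (hG₂ : ∀ σ : ℚ ≃o ℚ, MulAction.toPerm σ ∈ G₂)
    (s : ℕ) (hInv : Inv S G₁ s = Inv S G₂ s) :
    ∃ K, ∀ N ≥ K, ∀ f ∈ G₁, ∀ e, LexMono e → Canon S s N f e → In S G₂ (pts s N e) f := by
  classical
  have h1 : ∀ c : Cls S (stdA S s), ∃ N, c ∉ Inv S G₁ s → ∀ f ∈ G₁, ∀ e, ¬ CanCls S s N f e c := by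
    intro c
    by_cases hc : c ∈ Inv S G₁ s
    · exact ⟨0, fun h => absurd hc h⟩
    · have hc' := hc
      unfold Inv at hc'
      rw [Set.mem_ofPred_eq] at hc'
      push Not at hc'
      obtain ⟨N, hN⟩ := hc'
      exact ⟨N, fun _ => hN⟩
  choose Nc hNc using h1
  obtain ⟨B, hB⟩ : ∃ B, ∀ c, Nc c ≤ B := by
    obtain ⟨B, hB⟩ := (Set.finite_range Nc).bddAbove
    exact ⟨B, fun c => hB ⟨c, rfl⟩⟩
  refine ⟨max B (2 * S.k + 1), fun N hN f hf e he hcan => ?_⟩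
  have hN1 : B ≤ N := (le_max_left _ _).trans hN
  have hN2 : 2 * S.k + 1 ≤ N := (le_max_right _ _).trans hN
  obtain ⟨τ, hτ⟩ := exists_tau s N E0 e E0_lex he
  obtain ⟨c, hc⟩ := exists_hasCls S (stdA S s) (fun x => f (τ • x))
  have hcc : c ∈ Inv S G₁ s := by
    by_contra hcon
    exact hNc c hcon f hf e ⟨he, hcan.mono S ((hB c).trans hN1), τ, fun j hj n hn =>
      hτ j hj n (hn.trans_le hN2), hc⟩
  rw [hInv] at hcc
  obtain ⟨g, hg, e', he', hcan', τ'', hτ'', hc''⟩ := hcc N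
  obtain ⟨τ', hτ'⟩ := exists_tau s N E0 e' E0_lex he'
  -- same class
  have hc' : HasCls S (stdA S s) (fun x => g (τ' • x)) c := by
    refine hc''.of_equiv S 1 (fun x hx => ?_)
    rw [one_smul]
    congr 1
    apply smul_eq_of_eq_on S
    intro q hq
    obtain ⟨j, n, hj, hn, rfl⟩ := mem_pts.1 ((S.mem_fib _ x).1 hx hq)
    rw [hτ'' j hj n hn, hτ' j hj n (hn.trans_le hN2)]
  obtain ⟨ρ, hρ⟩ := hc.equiv S hc'
  -- canonicity transported to the standard sequence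
  have key : ∀ (h : M → M) (e : ℕ → ℕ → ℚ) (τ : ℚ ≃o ℚ), (∀ j < s, ∀ n < N, τ (E0 j n) = e j n) →
      Canon S s N h e → ∀ (x y : M) (β : ℚ ≃o ℚ), (∀ q ∈ S.supp x ∪ S.supp y, ∃ j n n', j < s ∧
      n < N ∧ n' < 2 * S.k + 1 ∧ (n = 0 ↔ n' = 0) ∧ E0 j n = q ∧ E0 j n' = β q) →
      ∃ ρ : ℚ ≃o ℚ, ρ • h (τ • x) = h (τ • β • x) ∧ ρ • h (τ • y) = h (τ • β • y) := by
    intro h e τ hτ hcan x y β hβ
    obtain ⟨ρ, h1, h2⟩ := hcan (τ * β * τ⁻¹) (τ • x) (τ • y) (by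
      intro q hq
      have hq' : ∃ p ∈ S.supp x ∪ S.supp y, τ p = q := by
        rw [Finset.mem_union, S.smul_supp, S.smul_supp] at hq
        rcases hq with hq | hq
        · obtain ⟨p, hp, rfl⟩ := Finset.mem_image.1 hq
          exact ⟨p, Finset.mem_union_left _ hp, rfl⟩
        · obtain ⟨p, hp, rfl⟩ := Finset.mem_image.1 hq
          exact ⟨p, Finset.mem_union_right _ hp, rfl⟩
      obtain ⟨p, hp, rfl⟩ := hq'
      obtain ⟨j, n, n', a1, a2, a3, a4, a5, a6⟩ := hβ p hp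
      refine ⟨j, n, n', a1, a2, a3.trans_le hN2, a4, ?_, ?_⟩
      · rw [← a5, hτ j a1 n a2]
      · show _ = τ (β (τ⁻¹ (τ p)))
        have : τ⁻¹ (τ p) = p := τ.symm_apply_apply p
        rw [this, ← a6, hτ j a1 n' (a3.trans_le hN2)])
    have e1 : ∀ w : M, (τ * β * τ⁻¹) • τ • w = τ • β • w := by
      intro w
      simp only [← mul_smul]
      congr 1
      group
    rw [e1] at h1 h2
    exact ⟨ρ, h1, h2⟩
  obtain ⟨ρ', hρ'⟩ := global_of_pairwise S (S.fib (pts s N E0)) (fun x => f (τ • x))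
    (fun x => g (τ' • x)) (by
      intro x hx y hy
      rw [S.mem_fib] at hx hy
      obtain ⟨β, hβ⟩ := compress s N (2 * S.k) (S.supp x ∪ S.supp y) (Finset.union_subset hx hy) (by
        refine (Finset.card_union_le _ _).trans ?_
        have h1 := S.card_le x
        have h2 := S.card_le y
        omega)
      obtain ⟨ρ₁, a1, a2⟩ := key f e τ hτ hcan x y β hβ
      obtain ⟨ρ₂, b1, b2⟩ := key g e' τ' hτ' hcan' x y β hβ
      have hstd : ∀ w : M, S.supp w ⊆ S.supp x ∪ S.supp y → β • w ∈ stdA S s := by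
        intro w hw
        unfold stdA
        rw [S.mem_fib, S.smul_supp]
        intro q hq
        obtain ⟨p, hp, rfl⟩ := Finset.mem_image.1 hq
        obtain ⟨j, n, n', c1, c2, c3, c4, c5, c6⟩ := hβ p (hw hp)
        exact mem_pts.2 ⟨j, n', c1, c3, c6⟩
      have h1 := hρ _ (hstd x Finset.subset_union_left)
      have h2 := hρ _ (hstd y Finset.subset_union_right)
      refine ⟨ρ₂⁻¹ * ρ * ρ₁, ?_, ?_⟩
      · show (ρ₂⁻¹ * ρ * ρ₁) • f (τ • x) = g (τ' • x)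
        rw [mul_smul, mul_smul, a1]
        rw [h1, ← b1, inv_smul_smul]
      · show (ρ₂⁻¹ * ρ * ρ₁) • f (τ • y) = g (τ' • y)
        rw [mul_smul, mul_smul, a2]
        rw [h2, ← b2, inv_smul_smul])
  refine ⟨MulAction.toPerm ρ'⁻¹ * g * MulAction.toPerm τ' * MulAction.toPerm τ⁻¹,
    G₂.mul_mem (G₂.mul_mem (G₂.mul_mem (hG₂ _) hg) (hG₂ _)) (hG₂ _), fun x hx => ?_⟩
  have h1 : τ⁻¹ • x ∈ S.fib (pts s N E0) := by
    rw [S.mem_fib, S.smul_supp]
    intro q hq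
    obtain ⟨p, hp, rfl⟩ := Finset.mem_image.1 hq
    obtain ⟨j, n, hj, hn, rfl⟩ := mem_pts.1 (hx hp)
    refine mem_pts.2 ⟨j, n, hj, hn, ?_⟩
    rw [← hτ j hj n hn]
    exact (τ.symm_apply_apply _).symm
  have h2 := hρ' _ h1
  simp only [smul_inv_smul] at h2
  show ρ'⁻¹ • g (τ' • τ⁻¹ • x) = f x
  rw [← h2, inv_smul_smul]

end Pool.Agent.Helper596_Q
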