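import Mathlib
import Pool.Agent.Helper596_Q.Main

/-!
# Finitely many closed groups contain the automorphism group of the rational order: the end
-/

set_option autoImplicit false

namespace Pool.Agent.Helper596_Q

variable {M : Type*} [MulAction (ℚ ≃o ℚ) M] (S : QAct M)

theorem skip_exists {c j s : ℕ} (hj : j < s + 1) (hc : c < s + 1) (hjc : j ≠ c) :
    ∃ i < s, skip c i = j := by
  unfold skip
  by_cases h : j < c
  · exact ⟨j, by omega, by rw [if_pos h]⟩
  · exact ⟨j - 1, by omega, by rw [if_neg (by omega)]; omega⟩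

/-- The extended domain in the inductive step. -/
def dom (s n a : ℕ) (e : ℕ → ℕ → ℚ) (j : ℕ) : Finset ℚ :=
  pts s n e ∪ (Finset.range a ×ˢ Finset.range ((j + 1) * n)).image (fun p => e (2 * p.1) p.2)

theorem mem_dom {s n a : ℕ} {e : ℕ → ℕ → ℚ} {j : ℕ} {q : ℚ} : q ∈ dom s n a e j ↔
    (∃ b p, b < s ∧ p < n ∧ e b p = q) ∨ (∃ i p, i < a ∧ p < (j + 1) * n ∧ e (2 * i) p = q) := by
  unfold dom
  rw [Finset.mem_union, mem_pts, Finset.mem_image]
  refine or_congr Iff.rfl ?_
  constructor
  · rintro ⟨⟨i, p⟩, h, rfl⟩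
    rw [Finset.mem_product, Finset.mem_range, Finset.mem_range] at h
    exact ⟨i, p, h.1, h.2, rfl⟩
  · rintro ⟨i, p, h1, h2, rfl⟩
    exact ⟨(i, p), Finset.mem_product.2 ⟨Finset.mem_range.2 h1, Finset.mem_range.2 h2⟩, rfl⟩

theorem all_blocks (G₁ G₂ : Subgroup (Equiv.Perm M)) (hG₂ : ∀ σ : ℚ ≃o ℚ, MulAction.toPerm σ ∈ G₂)
    (hInv : ∀ s < 6 * S.k + 2, Inv S G₁ s = Inv S G₂ s) (s : ℕ) : ∀ n : ℕ,
    ∃ N, ∀ f ∈ G₁, ∀ e, LexMono e → Canon S s N f e → In S G₂ (pts s n e) f := by
  classical
  induction s with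
  | zero =>
    intro n
    obtain ⟨K, hK⟩ := base S G₁ G₂ hG₂ 0 (hInv 0 (by omega))
    exact ⟨max K n, fun f hf e he hc => (hK _ (le_max_left _ _) f hf e he hc).mono S
      (pts_mono e (le_max_right _ _))⟩
  | succ s ih =>
    intro n
    by_cases hs : s + 1 < 6 * S.k + 2
    · obtain ⟨K, hK⟩ := base S G₁ G₂ hG₂ (s + 1) (hInv (s + 1) hs)
      exact ⟨max K n, fun f hf e he hc => (hK _ (le_max_left _ _) f hf e he hc).mono S
        (pts_mono e (le_max_right _ _))⟩
    · -- the inductive step
      have hs' : 6 * S.k + 2 ≤ s + 1 := by omega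
      obtain ⟨a, ha⟩ : ∃ a, a = 3 * S.k + 1 := ⟨_, rfl⟩
      obtain ⟨J, hJ⟩ := growth (3 * S.k) S.r a ((s + 1) * n) S.k (by omega)
      obtain ⟨N, hN⟩ := ih ((J + 1) * n)
      refine ⟨N, fun f hf e he hc => ?_⟩
      let U : Fin a → Finset ℚ := fun i => (Finset.range n).image (fun p => e (2 * i + 1) p)
      have hmU : ∀ (i : Fin a) (q : ℚ), q ∈ U i ↔ ∃ p, p < n ∧ e (2 * i + 1) p = q := by
        intro i q
        show q ∈ (Finset.range n).image (fun p => e (2 * i + 1) p) ↔ _
        rw [Finset.mem_image]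
        simp only [Finset.mem_range]
      have : Nonempty (Fin a) := ⟨⟨0, by omega⟩⟩
      have hn1 : ∀ j, n ≤ (j + 1) * n := fun j => Nat.le_mul_of_pos_left n (Nat.succ_pos j)
      have hres : In S G₂ (dom (s + 1) n a e 0) f := by
        apply iter_in S G₂ hG₂ (dom (s + 1) n a e) U J
        · -- the step configuration
          intro j _
          have hjj : (j + 1) * n ≤ (j + 1 + 1) * n := Nat.mul_le_mul_right _ (by omega)
          have hτ : ∀ i : Fin a, ∃ τ : ℚ ≃o ℚ, ∀ p < n,
              τ (e (2 * i + 1) p) = e (2 * i) ((j + 1) * n + p) := by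
            intro i
            obtain ⟨τ, hτ⟩ := exists_ext' (Finset.range n) (fun p => e (2 * i + 1) p)
              (fun p => e (2 * i) ((j + 1) * n + p)) (by
                intro p _ q _
                rw [he.lt_iff, he.lt_iff]
                omega)
            exact ⟨τ, fun p hp => hτ p (Finset.mem_range.2 hp)⟩
          choose τ hτ using hτ
          refine ⟨fun i => (Finset.range n).image (fun p => e (2 * i) ((j + 1) * n + p)),
            fun i => e (2 * i) ((j + 1) * n), fun i => e (2 * i + 1) n, fun i => τ i,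
            ?_, ?_, ?_, ?_, ?_, ?_, ?_, ?_⟩
          · intro i i' hii'
            have : (i : ℕ) ≠ i' := fun h => hii' (Fin.ext h)
            rw [he.lt_iff, he.lt_iff]
            omega
          · intro i q hq
            obtain ⟨p, hp, rfl⟩ := (hmU i q).1 hq
            refine ⟨mem_dom.2 (Or.inl ⟨2 * i + 1, p, ?_, hp, rfl⟩), ?_, ?_⟩
            · have := i.2
              omega
            · exact le_of_lt (he _ _ _ _ (Or.inl (by omega)))
            · exact le_of_lt (he _ _ _ _ (Or.inr ⟨rfl, hp⟩))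
          · intro i q hq
            obtain ⟨p, hp, rfl⟩ := Finset.mem_image.1 hq
            rw [Finset.mem_range] at hp
            refine ⟨mem_dom.2 (Or.inr ⟨i, (j + 1) * n + p, i.2, ?_, rfl⟩), ?_, ?_⟩
            · rw [Nat.succ_mul (j + 1) n]
              omega
            · rcases Nat.eq_zero_or_pos p with h | h
              · rw [h]
                rfl
              · exact le_of_lt (he _ _ _ _ (Or.inr ⟨rfl, by omega⟩))
            · exact le_of_lt (he _ _ _ _ (Or.inl (by omega)))
          · intro i q hq hq'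
            obtain ⟨p, hp, rfl⟩ := (hmU i q).1 hq
            obtain ⟨p', hp', h⟩ := Finset.mem_image.1 hq'
            have := (he.inj h).1
            omega
          · intro i p _ q _
            exact ((τ i).lt_iff_lt).symm
          · intro i q hq
            obtain ⟨p, hp, rfl⟩ := (hmU i q).1 hq
            show τ i (e (2 * i + 1) p) ∈ _
            rw [hτ i p hp]
            exact Finset.mem_image_of_mem _ (Finset.mem_range.2 hp)
          · intro q hq
            rw [mem_dom] at hq ⊢
            rcases hq with h | ⟨i, p, h1, h2, h3⟩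
            · exact Or.inl h
            · exact Or.inr ⟨i, p, h1, h2.trans_le hjj, h3⟩
          · intro i q hq h1 h2
            rw [hmU]
            rw [mem_dom] at hq
            rcases hq with ⟨b, p, hb, hp, rfl⟩ | ⟨i', p, hi', hp, rfl⟩
            · have h1' : ¬ (e b p < e (2 * i) ((j + 1) * n)) := not_lt.2 h1
              have h2' : ¬ (e (2 * i + 1) n < e b p) := not_lt.2 h2
              rw [he.lt_iff] at h1' h2'
              have hb' : b = 2 * i ∨ b = 2 * i + 1 := by omega
              have := hn1 j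
              rcases hb' with hb' | hb'
              · exfalso
                omega
              · exact ⟨p, hp, by rw [hb']⟩
            · have h1' : ¬ (e (2 * i') p < e (2 * i) ((j + 1) * n)) := not_lt.2 h1
              have h2' : ¬ (e (2 * i + 1) n < e (2 * i') p) := not_lt.2 h2
              rw [he.lt_iff] at h1' h2'
              exfalso
              omega
        · -- the local hypotheses
          intro i
          have h1 := hN f hf (fun j n => e (skip (2 * i + 1) j) n) (he.skip (2 * i + 1))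
            (hc.skip S (2 * i + 1))
          refine h1.mono S ?_
          intro q hq
          rw [Finset.mem_sdiff, mem_dom, hmU] at hq
          obtain ⟨hq1, hq2⟩ := hq
          have hi := i.2
          rw [mem_pts]
          rcases hq1 with ⟨b, p, hb, hp, rfl⟩ | ⟨i', p, hi', hp, rfl⟩
          · have hb' : b ≠ 2 * i + 1 := by
              rintro rfl
              exact hq2 ⟨p, hp, rfl⟩
            obtain ⟨b', hb1, hb2⟩ := skip_exists hb (by omega : 2 * (i : ℕ) + 1 < s + 1) hb'
            exact ⟨b', p, hb1, hp.trans_le (hn1 J), by rw [hb2]⟩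
          · obtain ⟨b', hb1, hb2⟩ := skip_exists (by omega : 2 * i' < s + 1)
              (by omega : 2 * (i : ℕ) + 1 < s + 1) (by omega)
            exact ⟨b', p, hb1, hp, by rw [hb2]⟩
        · -- the count
          rw [Fintype.card_fin]
          refine lt_of_le_of_lt ?_ hJ
          refine Nat.mul_le_mul_left _ (Nat.mul_le_mul_left _ (Nat.pow_le_pow_left ?_ _))
          refine Nat.succ_le_succ ?_
          have hsub : dom (s + 1) n a e J ⊆ pts (s + 1) ((J + 1) * n) e := by
            intro q hq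
            rw [mem_dom] at hq
            rw [mem_pts]
            rcases hq with ⟨b, p, hb, hp, rfl⟩ | ⟨i', p, hi', hp, rfl⟩
            · exact ⟨b, p, hb, hp.trans_le (hn1 J), rfl⟩
            · exact ⟨2 * i', p, by omega, hp, rfl⟩
          refine (Finset.card_le_card hsub).trans ((card_pts _ _ _).trans ?_)
          rw [mul_assoc, mul_comm n]
      exact hres.mono S (fun q hq => mem_dom.2 (Or.inl (mem_pts.1 hq)))

theorem exists_strictMono_nat (T : Finset ℚ) : ∃ t : ℕ → ℚ, StrictMono t ∧
    ∀ q ∈ T, ∃ j < T.card, t j = q := by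
  classical
  obtain ⟨B, hB⟩ : ∃ B : ℚ, ∀ q ∈ T, q ≤ B := T.bddAbove
  let t : ℕ → ℚ := fun j => if h : j < T.card then T.orderEmbOfFin rfl ⟨j, h⟩ else B + 1 + j
  refine ⟨t, ?_, ?_⟩
  · intro i j hij
    show (if h : i < T.card then T.orderEmbOfFin rfl ⟨i, h⟩ else B + 1 + i) <
      (if h : j < T.card then T.orderEmbOfFin rfl ⟨j, h⟩ else B + 1 + j)
    by_cases hj : j < T.card
    · rw [dif_pos hj, dif_pos (hij.trans hj), OrderEmbedding.lt_iff_lt]
      exact hij
    · rw [dif_neg hj]
      by_cases hi : i < T.card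
      · rw [dif_pos hi]
        have h1 := hB _ (Finset.orderEmbOfFin_mem T rfl ⟨i, hi⟩)
        have h2 : (0 : ℚ) ≤ j := Nat.cast_nonneg j
        linarith
      · rw [dif_neg hi]
        have : (i : ℚ) < j := by exact_mod_cast hij
        linarith
  · intro q hq
    have h2 : q ∈ Set.range (T.orderEmbOfFin rfl) := by
      rw [Finset.range_orderEmbOfFin]; exact hq
    obtain ⟨i, rfl⟩ := h2
    refine ⟨i, i.2, ?_⟩
    show (if h : (i : ℕ) < T.card then T.orderEmbOfFin rfl ⟨i, h⟩ else B + 1 + (i : ℕ)) = _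
    rw [dif_pos i.2]

theorem le_of_inv (G₁ G₂ : Subgroup (Equiv.Perm M)) (hG₂ : ∀ σ : ℚ ≃o ℚ, MulAction.toPerm σ ∈ G₂)
    (hcl : Clo G₂) (hInv : ∀ s < 6 * S.k + 2, Inv S G₁ s = Inv S G₂ s) : G₁ ≤ G₂ := by
  classical
  intro f hf
  apply hcl
  intro F
  let T : Finset ℚ := F.biUnion S.supp
  obtain ⟨t, ht, htT⟩ := exists_strictMono_nat T
  obtain ⟨N, hN⟩ := all_blocks S G₁ G₂ hG₂ hInv T.card 1
  obtain ⟨e, he, he0, hc⟩ := exists_canon S f t ht T.card N
  obtain ⟨g, hg, h⟩ := hN f hf e he hc
  refine ⟨g, hg, fun x hx => h x ?_⟩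
  intro q hq
  obtain ⟨j, hj, rfl⟩ := htT q (Finset.mem_biUnion.2 ⟨x, hx, hq⟩)
  exact mem_pts.2 ⟨j, 0, hj, Nat.one_pos, he0 j⟩

include S in
/-- **Finitely many closed groups.** -/
theorem finite_groups (A : Subgroup (Equiv.Perm M)) (hA : ∀ σ : ℚ ≃o ℚ, MulAction.toPerm σ ∈ A) :
    {G : Subgroup (Equiv.Perm M) | A ≤ G ∧ Clo G}.Finite := by
  classical
  let Φ : Subgroup (Equiv.Perm M) → (s : Fin (6 * S.k + 2)) → Set (Cls S (stdA S s)) :=
    fun G s => Inv S G s
  refine Set.Finite.of_finite_image (f := Φ) (Set.toFinite _) ?_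
  intro G₁ h₁ G₂ h₂ h
  have hInv : ∀ s < 6 * S.k + 2, Inv S G₁ s = Inv S G₂ s := fun s hs => congrFun h ⟨s, hs⟩
  exact le_antisymm
    (le_of_inv S G₁ G₂ (fun σ => h₂.1 (hA σ)) h₂.2 hInv)
    (le_of_inv S G₂ G₁ (fun σ => h₁.1 (hA σ)) h₁.2 (fun s hs => (hInv s hs).symm))

end Pool.Agent.Helper596_Q
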