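import Mathlib
import Pool.Agent.Helper596_Q.B1a
import Pool.Agent.Helper596_Q.B1b
import Pool.Agent.Helper596_Q.B1c
import Pool.Agent.Helper596_Q.B2
import Pool.Agent.Helper596_Q.Acl

/-!
# Finite homogeneity implies triviality and one-basedness
-/

set_option autoImplicit false

namespace Pool.Agent.Helper596_Q

theorem ob_of {A : Type} [Group A] (R : RSys A) {M : Type} [MulAction A M]
    (hopn : ∀ V : Subgroup A, R.Opn V ↔ ∃ F : Finset M, stb A F ≤ V) (k : ℕ)
    (hka : ∀ (ι : Type) [Finite ι] (x y : ι → M),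
      (∀ J : Finset ι, J.card ≤ k → ∃ a : A, ∀ j ∈ J, a • x j = y j) →
      ∃ a : A, ∀ j, a • x j = y j) : OB R := by
  have h3 : ¬ Circ R M 3 := by
    intro h
    have key : ∀ n : ℕ, ∃ m, n + 3 ≤ m ∧ Circ R M m := by
      intro n
      induction n with
      | zero => exact ⟨3, by omega, h⟩
      | succ n ih =>
        obtain ⟨m, hm, hc⟩ := ih
        exact ⟨2 * (m - 1), by omega, circ_amp R hopn m (by omega) hc⟩
    obtain ⟨m, hm, hc⟩ := key k
    exact no_circ R hopn k hka m (by omega) hc
  have hT := triv_of_no_circ R hopn h3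
  exact ⟨hT, fun P Q hP hQ => one_based R hT P Q hP hQ⟩

end Pool.Agent.Helper596_Q
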