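import Mathlib
import Pool.Agent.Helper596_Q.A4c

/-!
# The rank system of a group with finite ranks
-/

set_option autoImplicit false

namespace Pool.Agent.Helper596_Q

variable {A : Type} [Group A]

/-- A system of open subgroups with finite ranks is a system with a rank function. -/
noncomputable def rsysOf (O : OSys A) (hF : FR O) : RSys A where
  toOSys := O
  r := rr O
  r_cj := fun g V _ => rr_cj O g V
  r_mono := fun hV hW h => rr_mono O hF hV hW h
  r_fin := fun hV hW h hr => rr_fin O hF hV hW h hr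
  r_sub := fun hV hW hB => rr_sub O hF hV hW hB
  r_ext := fun hV hW hB => rr_ext O hF hV hW hB
  r_stat := by
    intro V B hV hB
    have h1 : rr O B ≤ rr O (V ⊓ B) := rr_mono O hF (O.opn_inf hV hB) hB inf_le_right
    obtain ⟨n, hn⟩ := Nat.exists_eq_add_of_le h1
    obtain ⟨W, hWB, hW, hr, hd⟩ := deg_orbit O hF hV hB n (by omega)
    refine ⟨W, hWB, hW, hr, st_of_deg O hF hV hW n ?_ hd⟩
    have h2 := rr_sub O hF hV hW hB
    have e1 : V ⊓ W ⊓ B = V ⊓ W := inf_eq_left.2 (inf_le_right.trans hWB)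
    have e2 : W ⊓ B = W := inf_eq_left.2 hWB
    rw [e1, e2] at h2
    have h3 : rr O (V ⊓ B) ≤ rr O (V ⊓ W) :=
      rr_mono O hF (O.opn_inf hV hW) (O.opn_inf hV hB) (inf_le_inf_left V hWB)
    omega
  r_cb := fun hP h1 h2 i1 i2 => rr_cb O hF hP h1 h2 i1 i2
  r_drop := fun hV hB h => rr_drop O hF hV hB h

end Pool.Agent.Helper596_Q
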