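import Mathlib
import Pool.Agent.Helper596_Q.Fin
import Pool.Agent.Helper596_Q.Supp
import Pool.Agent.Helper596_Q.RN
import Pool.Agent.Helper596_Q.E1
import Pool.Agent.Helper596_Q.E2
import Pool.Agent.Helper596_Q.F0
import Pool.Agent.Helper596_Q.F1a
import Pool.Agent.Helper596_Q.F1b
import Pool.Agent.Helper596_Q.D1
import Pool.Agent.Helper596_Q.C5d
import Pool.Agent.Helper596_Q.A5
import Pool.Agent.Helper596_Q.RSysOf
import Pool.Agent.Helper596_Q.OBOf

/-!
# Omega-stable finitely homogeneous structures have finitely many reducts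
-/

set_option autoImplicit false

namespace Pool.Agent.Helper596_Q

open FirstOrder FirstOrder.Language

/-- **An action of the automorphism group of the rational order.** A permutation group with finitely
many orbits on tuples, which is determined by its orbits on short tuples and has finite rank,
contains locally an action of the automorphism group of the rational order with finite supports and
finitely many orbits. -/
theorem exists_act {M : Type} [Countable M] (G : Subgroup (Equiv.Perm M))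
    (ol : ∀ n : ℕ, ∃ S : Finset (Fin n → M), ∀ v : Fin n → M, ∃ s ∈ S, ∃ a ∈ G,
      ∀ i, a (s i) = v i) (k : ℕ)
    (hka : ∀ (ι : Type) [Finite ι] (x y : ι → M),
      (∀ J : Finset ι, J.card ≤ k → ∃ a ∈ G, ∀ j ∈ J, a (x j) = y j) →
      ∃ a ∈ G, ∀ j, a (x j) = y j)
    (N : ℕ) (hN : ¬ RkM G N (Set.univ : Set M)) :
    ∃ act : MulAction (ℚ ≃o ℚ) M,
      (∀ (σ : ℚ ≃o ℚ) (F : Finset M), ∃ a ∈ G, ∀ x ∈ F, act.toSMul.smul σ x = a x) ∧
      Nonempty (@QAct M act) := by
  classical
  have hFR : FR (osysM G ol) := fr_of_rkM G ol N hN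
  let R : RSys ↥G := rsysOf (osysM G ol) hFR
  have hopn : ∀ V : Subgroup ↥G, R.Opn V ↔ ∃ F : Finset M, stb ↥G F ≤ V := fun V => Iff.rfl
  have hka' : ∀ (ι : Type) [Finite ι] (x y : ι → M),
      (∀ J : Finset ι, J.card ≤ k → ∃ a : ↥G, ∀ j ∈ J, a • x j = y j) →
      ∃ a : ↥G, ∀ j, a • x j = y j := by
    intro ι _ x y h
    obtain ⟨a, ha, h'⟩ := hka ι x y (fun J hJ => by
      obtain ⟨a, ha⟩ := h J hJ
      exact ⟨a.1, a.2, ha⟩)
    exact ⟨⟨a, ha⟩, h'⟩
  have hOB : OB R := ob_of R hopn k hka'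
  have horb : ∃ T : Finset M, ∀ x : M, ∃ t ∈ T, ∃ a : ↥G, a • t = x := by
    obtain ⟨S, hS⟩ := ol 1
    refine ⟨S.image (fun s => s 0), fun x => ?_⟩
    obtain ⟨s, hs, a, ha, h⟩ := hS (fun _ => x)
    exact ⟨s 0, Finset.mem_image_of_mem _ hs, ⟨a, ha⟩, h 0⟩
  obtain ⟨L⟩ := exists_lsys R hOB hopn horb
  obtain ⟨S⟩ := wsys_of_lsys L
  obtain ⟨h, hh⟩ := exists_coh S
  obtain ⟨act, h1, h2, h3⟩ := coh_act S h hh
  refine ⟨act, fun σ F => ?_, ?_⟩
  · obtain ⟨a, ha⟩ := h1 σ F
    exact ⟨a.1, a.2, ha⟩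
  · letI := act
    exact exists_QAct (fun x => ⟨S.supp x, fun σ hσ => h2 σ x hσ⟩) h3

section
variable {L : FirstOrder.Language.{0, 0}} [L.IsRelational] {M : Type} [L.Structure M]

theorem equiv_of_mem {g : Equiv.Perm M} (hg : g ∈ AutL L M) :
    ∃ g' : M ≃[L] M, ∀ x, g' x = g x :=
  ⟨{ toEquiv := g
     map_fun' := fun f => isEmptyElim f
     map_rel' := fun {n} R x => (hg n R x).symm }, fun _ => rfl⟩

theorem mem_of_equiv (g : M ≃[L] M) : g.toEquiv ∈ AutL L M :=
  fun _ R x => (g.map_rel R x).symm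

theorem autL_clo : Clo (AutL L M) := by
  classical
  intro f hf n R x
  obtain ⟨g, hg, h⟩ := hf (Finset.univ.image x)
  rw [hg n R x]
  have : (fun i => g (x i)) = (fun i => f (x i)) := by
    funext i
    exact h (x i) (Finset.mem_image_of_mem _ (Finset.mem_univ _))
  rw [this]

end

theorem main (L : FirstOrder.Language.{0, 0}) [L.IsRelational] [Finite (Σ n, L.Relations n)]
    (M : Type) [Countable M] [L.Structure M] (hU : L.IsUltrahomogeneous M)
    (hst : Countable (FirstOrder.Language.Theory.CompleteType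
      ((L.withConstants ↥(Set.univ : Set M)).completeTheory M) (Fin 1))) :
    Set.Finite {D : (n : ℕ) → Set (Set (Fin n → M)) |
        ∃ F : (n : ℕ) → Set (Set (Fin n → M)),
          (∀ n, F n ⊆ {s : Set (Fin n → M) | Set.Definable (∅ : Set M) L s}) ∧
          ∃ S : (FirstOrder.Language.mk (fun _ => Empty) (fun k => ↥(F k))).Structure M,
            (∀ (k : ℕ) (r : ↥(F k)) (x : Fin k → M),
                @FirstOrder.Language.Structure.RelMap
                  (FirstOrder.Language.mk (fun _ => Empty) (fun k => ↥(F k))) M S k r x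
                  ↔ x ∈ r.1) ∧
            ∀ n, D n = {s : Set (Fin n → M) |
              @Set.Definable M (∅ : Set M)
                (FirstOrder.Language.mk (fun _ => Empty) (fun k => ↥(F k))) S (Fin n) s}} := by
  classical
  have ol := olig L M hU
  obtain ⟨k, hk⟩ := k_ary L M hU
  have hol : ∀ n : ℕ, ∃ S : Finset (Fin n → M), ∀ v : Fin n → M, ∃ s ∈ S, ∃ g : M ≃[L] M,
      ∀ i, g (s i) = v i := by
    intro n
    obtain ⟨S, hS⟩ := ol n
    refine ⟨S, fun v => ?_⟩
    obtain ⟨s, hs, a, ha, h⟩ := hS v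
    obtain ⟨g, hg⟩ := equiv_of_mem ha
    exact ⟨s, hs, g, fun i => by rw [hg]; exact h i⟩
  have hdef : ∀ (n : ℕ) (s : Set (Fin n → M)),
      (∀ g ∈ AutL L M, ∀ x ∈ s, (fun i => g (x i)) ∈ s) → Set.Definable (∅ : Set M) L s := by
    intro n s hs
    exact definable_of_invariant hol n s (fun g x hx => hs g.toEquiv (mem_of_equiv g) x hx)
  have hrk : ∃ N, ¬ RkM (AutL L M) N (Set.univ : Set M) := by
    by_contra hcon
    push Not at hcon
    obtain ⟨b, x, hb⟩ := tree_of_rank (AutL L M) k ol (fun ι _ x y h => hk ι x y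
      (fun J hJ => h J (by omega))) hcon
    exact no_tree L M (AutL L M) hdef hst k b x hb
  obtain ⟨N, hN⟩ := hrk
  obtain ⟨act, h1, ⟨S⟩⟩ := exists_act (AutL L M) ol k hk N hN
  letI := act
  have hA : ∀ σ : ℚ ≃o ℚ, MulAction.toPerm σ ∈ AutL L M := by
    intro σ
    apply autL_clo
    intro F
    obtain ⟨a, ha, h⟩ := h1 σ F
    exact ⟨a, ha, fun x hx => (h x hx).symm⟩
  exact finite_reducts L M (AutL L M) (fun g hg => equiv_of_mem hg) ol
    (finite_groups S (AutL L M) hA)

end Pool.Agent.Helper596_Q
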