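import Mathlib
import Pool.Agent.Helper596_Q.Acl
import Pool.Agent.Helper596_Q.LSysDef

/-!
# Labels: definitions
-/

set_option autoImplicit false

namespace Pool.Agent.Helper596_Q

/-- The automorphisms of the rationals fixing `W` pointwise are mapped into `V` (`W` supports `V`). -/
def Lab {A : Type} [Group A] (φ : (ℚ ≃o ℚ) →* A) (W : Finset ℚ) (V : Subgroup A) : Prop :=
  ∀ σ : ℚ ≃o ℚ, (∀ q ∈ W, σ q = q) → φ σ ∈ V

/-- Stability: no invariant relation on cosets of open subgroups orders an infinite sequence. -/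
def Stab {A : Type} [Group A] (O : OSys A) : Prop :=
  ∀ P Q : Subgroup A, O.Opn P → O.Opn Q → ∀ X : Set A,
    (∀ p ∈ P, ∀ x ∈ X, ∀ q ∈ Q, p * x * q ∈ X) →
    ¬ ∃ a c : ℕ → A, ∀ n m, (a n)⁻¹ * c m ∈ X ↔ n ≤ m

/-- `E W` is the least open subgroup supported by `W`. -/
def Lst {A : Type} [Group A] (O : OSys A) (φ : (ℚ ≃o ℚ) →* A) (E : Finset ℚ → Subgroup A) : Prop :=
  ∀ W, O.Opn (E W) ∧ Lab φ W (E W) ∧ ∀ V, O.Opn V → Lab φ W V → E W ≤ V

/-- There is a minimal dependent family of `m` open subgroups with property `p`. -/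
def CircP {A : Type} [Group A] (R : RSys A) (p : Subgroup A → Prop) (m : ℕ) : Prop :=
  ∃ (B : Subgroup A) (V : Fin m → Subgroup A), R.Opn B ∧ (∀ j, R.Opn (V j) ∧ p (V j)) ∧
    (∀ J : Finset (Fin m), J ≠ Finset.univ → IndS R B V J) ∧ ¬ IndS R B V Finset.univ

theorem Lab.mono {A : Type} [Group A] {φ : (ℚ ≃o ℚ) →* A} {W W' : Finset ℚ} {V V' : Subgroup A}
    (h : Lab φ W V) (hW : W ⊆ W') (hV : V ≤ V') : Lab φ W' V' :=
  fun σ hσ => hV (h σ (fun q hq => hσ q (hW hq)))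

theorem Lab.inf {A : Type} [Group A] {φ : (ℚ ≃o ℚ) →* A} {W : Finset ℚ} {V V' : Subgroup A}
    (h : Lab φ W V) (h' : Lab φ W V') : Lab φ W (V ⊓ V') :=
  fun σ hσ => ⟨h σ hσ, h' σ hσ⟩

theorem Lab.cj {A : Type} [Group A] {φ : (ℚ ≃o ℚ) →* A} {W : Finset ℚ} {V : Subgroup A}
    (h : Lab φ W V) (τ : ℚ ≃o ℚ) : Lab φ (W.image τ) (cj (φ τ) V) := by
  intro σ hσ
  rw [mem_cj, ← map_inv, ← map_mul, ← map_mul]
  refine h _ (fun q hq => ?_)
  show τ⁻¹ (σ (τ q)) = q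
  rw [hσ (τ q) (Finset.mem_image_of_mem _ hq)]
  exact τ.symm_apply_apply q

/-- A labelled system in which elements fixing `Δ` can be chosen to fix the points below `Δ`. -/
structure LSysP (A M : Type) [Group A] [MulAction A M] extends LSys A M where
  tr' : ∀ (Δ : Finset D), (∀ d ∈ Δ, lo d ⊆ Δ) → ∀ d d', sim d d' → d ∉ Δ → d' ∉ Δ →
    (∀ e ∈ lo d, e ≠ d → e ∈ Δ) → ∃ a : A, (∀ e ∈ Δ, a • e = e) ∧
      (∀ x : M, cl x ⊆ Δ → a • x = x) ∧ a • d = d'

/-- `a` acts on the labels in `W` like `u`. -/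
def TT {A X : Type} [Group A] [MulAction A X] (supp : X → Finset ℚ) (W : Finset ℚ) (u : ℚ → ℚ)
    (a : A) : Prop :=
  (∀ x, supp x ⊆ W → supp (a • x) = (supp x).image u) ∧
    ∀ y, supp y ⊆ W.image u → ∃ x, supp x ⊆ W ∧ a • x = y

/-- A weak system of supports with extension of partial actions. -/
structure WSysE (A X : Type) [Group A] [MulAction A X] extends WSys A X where
  ext : ∀ (W W' : Finset ℚ) (u : ℚ → ℚ) (a : A), W' ⊆ W → Set.InjOn u (W : Set ℚ) →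
    TT supp W' u a → ∃ b : A, TT supp W u b ∧ ∀ y, supp y ⊆ W' → b • y = a • y

end Pool.Agent.Helper596_Q
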