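import Mathlib
import Pool.Agent.Helper596_Q.LDefs
import Pool.Agent.Helper596_Q.Ext

/-!
# Swapping labels in a stable structure
-/

set_option autoImplicit false

namespace Pool.Agent.Helper596_Q

/-- the product set -/
def swX {A : Type} [Group A] (P Q : Subgroup A) (x : A) : Prop := ∃ p ∈ P, ∃ q ∈ Q, x = p * q

theorem swX_mul {A : Type} [Group A] {P Q : Subgroup A} {p x q : A} (hp : p ∈ P) (hq : q ∈ Q)
    (hx : swX P Q x) : swX P Q (p * x * q) := by
  obtain ⟨p', hp', q', hq', rfl⟩ := hx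
  exact ⟨p * p', P.mul_mem hp hp', q' * q, Q.mul_mem hq' hq, by group⟩

theorem swX_inv {A : Type} [Group A] {P Q : Subgroup A} {x : A} (hx : swX P Q x) :
    swX Q P x⁻¹ := by
  obtain ⟨p, hp, q, hq, rfl⟩ := hx
  exact ⟨q⁻¹, Q.inv_mem hq, p⁻¹, P.inv_mem hp, by group⟩

/-- the claim for the pair of partial maps `a` on `W₁` and `b` on `W₂` -/
def swG {A : Type} [Group A] (φ : (ℚ ≃o ℚ) →* A) (P Q : Subgroup A) (W₁ W₂ : Finset ℚ)
    (a b : ℚ → ℚ) : Prop :=
  ∃ α β : ℚ ≃o ℚ, (∀ w ∈ W₁, α w = a w) ∧ (∀ w ∈ W₂, β w = b w) ∧ swX P Q ((φ α)⁻¹ * φ β)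

theorem swG_swap {A : Type} [Group A] {φ : (ℚ ≃o ℚ) →* A} {P Q : Subgroup A} {W₁ W₂ : Finset ℚ}
    {a b : ℚ → ℚ} (h : swG φ P Q W₁ W₂ a b) : swG φ Q P W₂ W₁ b a := by
  obtain ⟨α, β, h1, h2, h3⟩ := h
  refine ⟨β, α, h2, h1, ?_⟩
  have := swX_inv h3
  rwa [mul_inv_rev, inv_inv] at this

theorem swG_of {A : Type} [Group A] {φ : (ℚ ≃o ℚ) →* A} {P Q : Subgroup A} {W₁ W₂ : Finset ℚ}
    (h1 : Lab φ W₁ P) (h2 : Lab φ W₂ Q) {a b : ℚ → ℚ} (h : swG φ P Q W₁ W₂ a b)
    {α β : ℚ ≃o ℚ} (hα : ∀ w ∈ W₁, α w = a w) (hβ : ∀ w ∈ W₂, β w = b w) :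
    swX P Q ((φ α)⁻¹ * φ β) := by
  obtain ⟨α', β', h1', h2', h3⟩ := h
  have p1 : φ (α⁻¹ * α') ∈ P := by
    apply h1
    intro q hq
    show α⁻¹ (α' q) = q
    rw [h1' q hq, ← hα q hq]
    exact α.symm_apply_apply q
  have p2 : φ (β'⁻¹ * β) ∈ Q := by
    apply h2
    intro q hq
    show β'⁻¹ (β q) = q
    rw [hβ q hq, ← h2' q hq]
    exact β'.symm_apply_apply q
  have := swX_mul p1 p2 h3
  have e : φ (α⁻¹ * α') * ((φ α')⁻¹ * φ β') * φ (β'⁻¹ * β) = (φ α)⁻¹ * φ β := by
    rw [map_mul, map_mul, map_inv, map_inv]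
    group
  rwa [e] at this

/-- the hypothesis on a pair of partial maps -/
structure swV (W₁ W₂ : Finset ℚ) (a b : ℚ → ℚ) : Prop where
  sa : StrictMonoOn a (W₁ : Set ℚ)
  sb : StrictMonoOn b (W₂ : Set ℚ)
  ab : ∀ w ∈ W₁, ∀ w' ∈ W₂, (a w = b w' ↔ w = w')

theorem swV.swap {W₁ W₂ : Finset ℚ} {a b : ℚ → ℚ} (h : swV W₁ W₂ a b) : swV W₂ W₁ b a :=
  ⟨h.sb, h.sa, fun w hw w' hw' => by rw [eq_comm, h.ab w' hw' w hw, eq_comm]⟩

/-- inverted pairs of the first type -/
def swS (W₁ W₂ : Finset ℚ) (a b : ℚ → ℚ) : Finset (ℚ × ℚ) :=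
  (W₁ ×ˢ W₂).filter (fun p => p.1 < p.2 ∧ b p.2 < a p.1)

theorem mem_swS {W₁ W₂ : Finset ℚ} {a b : ℚ → ℚ} {p : ℚ × ℚ} :
    p ∈ swS W₁ W₂ a b ↔ (p.1 ∈ W₁ ∧ p.2 ∈ W₂) ∧ p.1 < p.2 ∧ b p.2 < a p.1 := by
  unfold swS
  rw [Finset.mem_filter, Finset.mem_product]

theorem exists_below (U : Finset ℚ) (c : ℚ) : ∃ l < c, ∀ u ∈ U, u < c → u ≤ l := by
  classical
  induction U using Finset.induction_on with
  | empty => exact ⟨c - 1, by linarith, by simp⟩
  | insert x U _ ih =>
    obtain ⟨l, hl, h⟩ := ih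
    by_cases hx : x < c
    · refine ⟨max l x, max_lt hl hx, ?_⟩
      intro u hu huc
      rcases Finset.mem_insert.1 hu with rfl | hu
      · exact le_max_right _ _
      · exact (h u hu huc).trans (le_max_left _ _)
    · refine ⟨l, hl, ?_⟩
      intro u hu huc
      rcases Finset.mem_insert.1 hu with rfl | hu
      · exact absurd huc hx
      · exact h u hu huc

theorem exists_above (U : Finset ℚ) (c : ℚ) : ∃ r > c, ∀ u ∈ U, c < u → r ≤ u := by
  classical
  induction U using Finset.induction_on with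
  | empty => exact ⟨c + 1, by linarith, by simp⟩
  | insert x U _ ih =>
    obtain ⟨l, hl, h⟩ := ih
    by_cases hx : c < x
    · refine ⟨min l x, lt_min hl hx, ?_⟩
      intro u hu huc
      rcases Finset.mem_insert.1 hu with rfl | hu
      · exact min_le_right _ _
      · exact (min_le_left _ _).trans (h u hu huc)
    · refine ⟨l, hl, ?_⟩
      intro u hu huc
      rcases Finset.mem_insert.1 hu with rfl | hu
      · exact absurd huc hx
      · exact h u hu huc

/-- `a` with the value at `w₁` moved inside a free interval is strictly monotone -/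
theorem sm_update {W : Finset ℚ} {a : ℚ → ℚ} (sa : StrictMonoOn a (W : Set ℚ)) {w₁ : ℚ}
    (hw₁ : w₁ ∈ W) {l r s : ℚ} (h1 : l < a w₁) (h2 : a w₁ < r)
    (hf : ∀ w ∈ W, w ≠ w₁ → a w ≤ l ∨ r ≤ a w) (hs1 : l < s) (hs2 : s < r) :
    StrictMonoOn (Function.update a w₁ s) (W : Set ℚ) := by
  intro x hx y hy hxy
  by_cases ex : x = w₁
  · subst ex
    have ey : y ≠ x := hxy.ne'
    rw [Function.update_self, Function.update_of_ne ey]
    have := sa hx hy hxy
    rcases hf y hy ey with h | h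
    · linarith
    · linarith
  · by_cases ey : y = w₁
    · subst ey
      rw [Function.update_self, Function.update_of_ne ex]
      have := sa hx hy hxy
      rcases hf x hx ex with h | h
      · linarith
      · linarith
    · rw [Function.update_of_ne ex, Function.update_of_ne ey]
      exact sa hx hy hxy

/-- the use of stability -/
theorem sw_key {A : Type} [Group A] (O : OSys A) (hS : Stab O) (φ : (ℚ ≃o ℚ) →* A)
    {P Q : Subgroup A} (hP : O.Opn P) (hQ : O.Opn Q) {W₁ W₂ : Finset ℚ} (h1 : Lab φ W₁ P)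
    (h2 : Lab φ W₂ Q) (a b : ℚ → ℚ) (hv : swV W₁ W₂ a b) {w₁ w₂ : ℚ} (hw₁ : w₁ ∈ W₁)
    (hw₂ : w₂ ∈ W₂) {l r : ℚ} (hl : l < b w₂) (hba : b w₂ < a w₁) (hr : a w₁ < r)
    (ha : ∀ w ∈ W₁, w ≠ w₁ → a w ≤ l ∨ r ≤ a w) (hb : ∀ w ∈ W₂, w ≠ w₂ → b w ≤ l ∨ r ≤ b w)
    (hstep : ∀ s t, l < s → s < t → t < r →
      swG φ P Q W₁ W₂ (Function.update a w₁ s) (Function.update b w₂ t)) :
    swG φ P Q W₁ W₂ a b := by
  classical
  by_contra hcon
  -- extensions
  have eα : ∀ s : ℚ, ∃ α : ℚ ≃o ℚ, l < s → s < r → ∀ w ∈ W₁, α w = Function.update a w₁ s w := by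
    intro s
    by_cases hs : l < s ∧ s < r
    · obtain ⟨α, hα⟩ := exists_ext W₁ _ (sm_update hv.sa hw₁ (hl.trans hba) hr ha hs.1 hs.2)
      exact ⟨α, fun _ _ => hα⟩
    · exact ⟨1, fun h h' => absurd ⟨h, h'⟩ hs⟩
  have eβ : ∀ t : ℚ, ∃ β : ℚ ≃o ℚ, l < t → t < r → ∀ w ∈ W₂, β w = Function.update b w₂ t w := by
    intro t
    by_cases ht : l < t ∧ t < r
    · obtain ⟨β, hβ⟩ := exists_ext W₂ _ (sm_update hv.sb hw₂ hl (hba.trans hr) hb ht.1 ht.2)
      exact ⟨β, fun _ _ => hβ⟩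
    · exact ⟨1, fun h h' => absurd ⟨h, h'⟩ ht⟩
  choose α hα using eα
  choose β hβ using eβ
  -- the good pairs
  have good : ∀ s t, l < s → s < t → t < r → swX P Q ((φ (α s))⁻¹ * φ (β t)) := by
    intro s t hs hst ht
    exact swG_of h1 h2 (hstep s t hs hst ht) (hα s hs (hst.trans ht)) (hβ t (hs.trans hst) ht)
  -- the bad pairs
  have bad : ∀ s t, l < t → t < s → s < r → ¬ swX P Q ((φ (α s))⁻¹ * φ (β t)) := by
    intro s t ht hts hs hX
    apply hcon
    have hUl : ∀ x ∈ W₁.image a ∪ W₂.image b, x = a w₁ ∨ x = b w₂ ∨ x ≤ l ∨ r ≤ x := by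
      intro x hx
      rcases Finset.mem_union.1 hx with hx | hx
      · obtain ⟨w, hw, rfl⟩ := Finset.mem_image.1 hx
        by_cases e : w = w₁
        · left; rw [e]
        · right; right; exact ha w hw e
      · obtain ⟨w, hw, rfl⟩ := Finset.mem_image.1 hx
        by_cases e : w = w₂
        · right; left; rw [e]
        · right; right; exact hb w hw e
    obtain ⟨γ, hγ⟩ : ∃ γ : ℚ → ℚ, γ = fun x => if x = a w₁ then s else if x = b w₂ then t else x :=
      ⟨_, rfl⟩
    have g1 : γ (a w₁) = s := by rw [hγ]; simp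
    have g2 : γ (b w₂) = t := by rw [hγ]; simp [hba.ne]
    have g3 : ∀ x, x ≤ l ∨ r ≤ x → γ x = x := by
      intro x hx
      have e1 : x ≠ a w₁ := by
        rintro rfl
        rcases hx with hx | hx <;> linarith
      have e2 : x ≠ b w₂ := by
        rintro rfl
        rcases hx with hx | hx <;> linarith
      rw [hγ]
      simp [e1, e2]
    have hmono : StrictMonoOn γ ((W₁.image a ∪ W₂.image b : Finset ℚ) : Set ℚ) := by
      intro x hx y hy hxy
      rcases hUl x hx with rfl | rfl | hx' <;> rcases hUl y hy with rfl | rfl | hy'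
      · exact absurd hxy (lt_irrefl _)
      · exact absurd hxy (not_lt.2 hba.le)
      · rw [g1, g3 y hy']
        rcases hy' with h | h
        · linarith
        · linarith
      · rw [g1, g2]; exact hts
      · exact absurd hxy (lt_irrefl _)
      · rw [g2, g3 y hy']
        rcases hy' with h | h
        · linarith
        · linarith
      · rw [g1, g3 x hx']
        rcases hx' with h | h
        · linarith
        · linarith
      · rw [g2, g3 x hx']
        rcases hx' with h | h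
        · linarith
        · linarith
      · rw [g3 x hx', g3 y hy']; exact hxy
    obtain ⟨τ, hτ⟩ := exists_ext _ γ hmono
    refine ⟨τ⁻¹ * α s, τ⁻¹ * β t, ?_, ?_, ?_⟩
    · intro w hw
      show τ⁻¹ (α s w) = a w
      rw [hα s (ht.trans hts) hs w hw]
      have e : Function.update a w₁ s w = τ (a w) := by
        rw [hτ _ (Finset.mem_union_left _ (Finset.mem_image_of_mem _ hw))]
        by_cases e : w = w₁
        · rw [e, g1, Function.update_self]
        · rw [Function.update_of_ne e, g3 _ (ha w hw e)]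
      rw [e]
      exact τ.symm_apply_apply _
    · intro w hw
      show τ⁻¹ (β t w) = b w
      rw [hβ t ht (hts.trans hs) w hw]
      have e : Function.update b w₂ t w = τ (b w) := by
        rw [hτ _ (Finset.mem_union_right _ (Finset.mem_image_of_mem _ hw))]
        by_cases e : w = w₂
        · rw [e, g2, Function.update_self]
        · rw [Function.update_of_ne e, g3 _ (hb w hw e)]
      rw [e]
      exact τ.symm_apply_apply _
    · have e : (φ (τ⁻¹ * α s))⁻¹ * φ (τ⁻¹ * β t) = (φ (α s))⁻¹ * φ (β t) := by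
        rw [map_mul, map_mul]
        group
      rw [e]
      exact hX
  -- the sequence
  have hlr : 0 < r - l := by linarith
  obtain ⟨e, he⟩ : ∃ e : ℕ → ℚ, e = fun k : ℕ => r - (r - l) / ((k : ℚ) + 2) := ⟨_, rfl⟩
  have e1 : ∀ k, l < e k := by
    intro k
    rw [he]
    have : (r - l) / ((k : ℚ) + 2) < r - l := by
      apply div_lt_self hlr
      have : (0 : ℚ) ≤ k := Nat.cast_nonneg k
      linarith
    simp only
    linarith
  have e2 : ∀ k, e k < r := by
    intro k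
    rw [he]
    have : 0 < (r - l) / ((k : ℚ) + 2) := by positivity
    simp only
    linarith
  have e3 : StrictMono e := by
    intro j k hjk
    rw [he]
    have : (r - l) / ((k : ℚ) + 2) < (r - l) / ((j : ℚ) + 2) := by
      apply div_lt_div_of_pos_left hlr (by positivity)
      have : (j : ℚ) < k := by exact_mod_cast hjk
      linarith
    simp only
    linarith
  refine hS P Q hP hQ {x | swX P Q x} (fun p hp x hx q hq => swX_mul hp hq hx)
    ⟨fun n => φ (α (e (2 * n))), fun m => φ (β (e (2 * m + 1))), fun n m => ?_⟩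
  show swX P Q _ ↔ _
  constructor
  · intro h
    by_contra hnm
    exact bad _ _ (e1 _) (e3 (by omega)) (e2 _) h
  · intro h
    exact good _ _ (e1 _) (e3 (by omega)) (e2 _)

/-- the induction step, when there is an inverted pair of the first type -/
theorem sw_step {A : Type} [Group A] (O : OSys A) (hS : Stab O) (φ : (ℚ ≃o ℚ) →* A)
    {P Q : Subgroup A} (hP : O.Opn P) (hQ : O.Opn Q) {W₁ W₂ : Finset ℚ} (h1 : Lab φ W₁ P)
    (h2 : Lab φ W₂ Q) (a b : ℚ → ℚ) (hv : swV W₁ W₂ a b) (hne : (swS W₁ W₂ a b).Nonempty)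
    (ih : ∀ a' b', swV W₁ W₂ a' b' → (swS W₁ W₂ a' b').card + (swS W₂ W₁ b' a').card <
      (swS W₁ W₂ a b).card + (swS W₂ W₁ b a).card → swG φ P Q W₁ W₂ a' b') :
    swG φ P Q W₁ W₂ a b := by
  classical
  obtain ⟨U, hU⟩ : ∃ U : Finset ℚ, U = W₁.image a ∪ W₂.image b := ⟨_, rfl⟩
  obtain ⟨D, hD⟩ : ∃ D : ℚ × ℚ → ℕ, D = fun p => (U.filter (fun u => b p.2 < u ∧ u < a p.1)).card :=
    ⟨_, rfl⟩
  obtain ⟨⟨w₁, w₂⟩, hp, hmin⟩ := Finset.exists_min_image (swS W₁ W₂ a b) D hne
  have hp' := mem_swS.1 hp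
  simp only at hp'
  obtain ⟨⟨hw₁, hw₂⟩, hlt, hba⟩ := hp'
  have hDlt : ∀ x y, b w₂ ≤ b y → a x ≤ a w₁ → (∃ u ∈ U, (b w₂ < u ∧ u < a w₁) ∧ ¬ (b y < u ∧ u < a x)) →
      D (x, y) < D (w₁, w₂) := by
    intro x y hy hx ⟨u, hu, hu1, hu2⟩
    rw [hD]
    apply Finset.card_lt_card
    rw [Finset.ssubset_iff_of_subset]
    · refine ⟨u, Finset.mem_filter.2 ⟨hu, hu1⟩, ?_⟩
      intro h
      exact hu2 (Finset.mem_filter.1 h).2
    · intro v hv
      rw [Finset.mem_filter] at hv ⊢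
      exact ⟨hv.1, lt_of_le_of_lt hy hv.2.1, lt_of_lt_of_le hv.2.2 hx⟩
  -- nothing between
  have hbet : ∀ u ∈ U, ¬ (b w₂ < u ∧ u < a w₁) := by
    intro u hu hu1
    have hu' := hu
    rw [hU, Finset.mem_union, Finset.mem_image, Finset.mem_image] at hu'
    rcases hu' with ⟨w, hw, rfl⟩ | ⟨w, hw, rfl⟩
    · have hww : w < w₁ := (hv.sa.lt_iff_lt hw hw₁).1 hu1.2
      have hm : (w, w₂) ∈ swS W₁ W₂ a b := mem_swS.2 ⟨⟨hw, hw₂⟩, hww.trans hlt, hu1.1⟩
      have h3 := hmin _ hm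
      have h4 := hDlt w w₂ le_rfl hu1.2.le ⟨_, hu, hu1, fun h => lt_irrefl _ h.2⟩
      omega
    · have hww : w₂ < w := (hv.sb.lt_iff_lt hw₂ hw).1 hu1.1
      have hm : (w₁, w) ∈ swS W₁ W₂ a b := mem_swS.2 ⟨⟨hw₁, hw⟩, hlt.trans hww, hu1.2⟩
      have h3 := hmin _ hm
      have h4 := hDlt w₁ w hu1.1.le le_rfl ⟨_, hu, hu1, fun h => lt_irrefl _ h.1⟩
      omega
  obtain ⟨l, hl, hlU⟩ := exists_below U (b w₂)
  obtain ⟨r, hr, hrU⟩ := exists_above U (a w₁)
  have ha : ∀ w ∈ W₁, w ≠ w₁ → a w ≤ l ∨ r ≤ a w := by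
    intro w hw hne'
    have hwU : a w ∈ U := by
      rw [hU]; exact Finset.mem_union_left _ (Finset.mem_image_of_mem _ hw)
    have n1 : a w ≠ a w₁ := fun h => hne' (hv.sa.injOn hw hw₁ h)
    have n2 : a w ≠ b w₂ := by
      intro h
      have e := (hv.ab w hw w₂ hw₂).1 h
      subst e
      have := (hv.sa.lt_iff_lt hw₁ hw).2 hlt
      linarith
    rcases lt_trichotomy (a w) (b w₂) with h | h | h
    · left; exact hlU _ hwU h
    · exact absurd h n2
    · rcases lt_trichotomy (a w) (a w₁) with h' | h' | h'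
      · exact absurd ⟨h, h'⟩ (hbet _ hwU)
      · exact absurd h' n1
      · right; exact hrU _ hwU h'
  have hb : ∀ w ∈ W₂, w ≠ w₂ → b w ≤ l ∨ r ≤ b w := by
    intro w hw hne'
    have hwU : b w ∈ U := by
      rw [hU]; exact Finset.mem_union_right _ (Finset.mem_image_of_mem _ hw)
    have n1 : b w ≠ b w₂ := fun h => hne' (hv.sb.injOn hw hw₂ h)
    have n2 : b w ≠ a w₁ := by
      intro h
      have e := (hv.ab w₁ hw₁ w hw).1 h.symm
      subst e
      have := (hv.sb.lt_iff_lt hw hw₂).2 hlt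
      linarith
    rcases lt_trichotomy (b w) (a w₁) with h | h | h
    · rcases lt_trichotomy (b w) (b w₂) with h' | h' | h'
      · left; exact hlU _ hwU h'
      · exact absurd h' n1
      · exact absurd ⟨h', h⟩ (hbet _ hwU)
    · exact absurd h n2
    · right; exact hrU _ hwU h
  refine sw_key O hS φ hP hQ h1 h2 a b hv hw₁ hw₂ hl hba hr ha hb ?_
  intro s t hs hst ht
  have hs2 : s < r := hst.trans ht
  have ht2 : l < t := hs.trans hst
  -- order comparisons are unchanged except for the pair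
  have cmp1 : ∀ x ∈ W₁, ∀ y ∈ W₂, (x, y) ≠ (w₁, w₂) →
      ((Function.update b w₂ t y < Function.update a w₁ s x ↔ b y < a x) ∧
       (Function.update a w₁ s x < Function.update b w₂ t y ↔ a x < b y)) := by
    intro x hx y hy hxy
    by_cases ex : x = w₁
    · have ey : y ≠ w₂ := by
        rintro rfl; exact hxy (by rw [ex])
      subst ex
      rw [Function.update_self, Function.update_of_ne ey]
      rcases hb y hy ey with h | h
      · constructor <;> constructor <;> intro h' <;> linarith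
      · constructor <;> constructor <;> intro h' <;> linarith
    · by_cases ey : y = w₂
      · subst ey
        rw [Function.update_self, Function.update_of_ne ex]
        rcases ha x hx ex with h | h
        · constructor <;> constructor <;> intro h' <;> linarith
        · constructor <;> constructor <;> intro h' <;> linarith
      · rw [Function.update_of_ne ex, Function.update_of_ne ey]
        exact ⟨Iff.rfl, Iff.rfl⟩
  apply ih
  · refine ⟨sm_update hv.sa hw₁ (hl.trans hba) hr ha hs hs2,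
      sm_update hv.sb hw₂ hl (hba.trans hr) hb ht2 ht, ?_⟩
    intro x hx y hy
    by_cases hxy : (x, y) = (w₁, w₂)
    · rw [Prod.mk.injEq] at hxy
      obtain ⟨rfl, rfl⟩ := hxy
      rw [Function.update_self, Function.update_self]
      constructor
      · intro h; exact absurd h hst.ne
      · intro h; exact absurd h hlt.ne
    · obtain ⟨c1, c2⟩ := cmp1 x hx y hy hxy
      rw [← hv.ab x hx y hy]
      constructor
      · intro h
        rcases lt_trichotomy (a x) (b y) with h' | h' | h'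
        · exact absurd h (c2.2 h').ne
        · exact h'
        · exact absurd h (c1.2 h').ne'
      · intro h
        rcases lt_trichotomy (Function.update a w₁ s x) (Function.update b w₂ t y) with h' | h' | h'
        · exact absurd h (c2.1 h').ne
        · exact h'
        · exact absurd h (c1.1 h').ne'
  · apply add_lt_add_of_lt_of_le
    · apply Finset.card_lt_card
      rw [Finset.ssubset_iff_of_subset]
      · refine ⟨(w₁, w₂), hp, ?_⟩
        intro h
        have h3 := (mem_swS.1 h).2.2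
        simp only [Function.update_self] at h3
        linarith
      · intro p hp'
        obtain ⟨⟨p1, p2⟩, p3, p4⟩ := mem_swS.1 hp'
        have hne' : (p.1, p.2) ≠ (w₁, w₂) := by
          intro h
          rw [Prod.mk.injEq] at h
          rw [h.1, h.2, Function.update_self, Function.update_self] at p4
          linarith
        exact mem_swS.2 ⟨⟨p1, p2⟩, p3, (cmp1 _ p1 _ p2 hne').1.1 p4⟩
    · apply Finset.card_le_card
      intro p hp'
      obtain ⟨⟨p1, p2⟩, p3, p4⟩ := mem_swS.1 hp'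
      have hne' : (p.2, p.1) ≠ (w₁, w₂) := by
        intro h
        rw [Prod.mk.injEq] at h
        rw [h.1, h.2] at p3
        exact lt_asymm p3 hlt
      exact mem_swS.2 ⟨⟨p1, p2⟩, p3, (cmp1 _ p2 _ p1 hne').2.1 p4⟩

/-- no inversions -/
theorem sw_zero {A : Type} [Group A] (φ : (ℚ ≃o ℚ) →* A)
    {P Q : Subgroup A} {W₁ W₂ : Finset ℚ} (a b : ℚ → ℚ) (hv : swV W₁ W₂ a b)
    (h1 : ¬ (swS W₁ W₂ a b).Nonempty) (h2 : ¬ (swS W₂ W₁ b a).Nonempty) :
    swG φ P Q W₁ W₂ a b := by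
  classical
  have k1 : ∀ x ∈ W₁, ∀ y ∈ W₂, x < y → a x < b y := by
    intro x hx y hy hxy
    rcases lt_trichotomy (a x) (b y) with h | h | h
    · exact h
    · exact absurd ((hv.ab x hx y hy).1 h) hxy.ne
    · exact absurd ⟨(x, y), mem_swS.2 ⟨⟨hx, hy⟩, hxy, h⟩⟩ h1
  have k2 : ∀ x ∈ W₁, ∀ y ∈ W₂, y < x → b y < a x := by
    intro x hx y hy hxy
    rcases lt_trichotomy (a x) (b y) with h | h | h
    · exact absurd ⟨(y, x), mem_swS.2 ⟨⟨hy, hx⟩, hxy, h⟩⟩ h2
    · exact absurd ((hv.ab x hx y hy).1 h) hxy.ne'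
    · exact h
  have k3 : ∀ x ∈ W₁, ∀ y ∈ W₂, (x < y ↔ a x < b y) ∧ (y < x ↔ b y < a x) := by
    intro x hx y hy
    refine ⟨⟨k1 x hx y hy, fun h => ?_⟩, ⟨k2 x hx y hy, fun h => ?_⟩⟩
    · rcases lt_trichotomy x y with h' | h' | h'
      · exact h'
      · exact absurd ((hv.ab x hx y hy).2 h') h.ne
      · exact absurd (k2 x hx y hy h') (not_lt.2 h.le)
    · rcases lt_trichotomy x y with h' | h' | h'
      · exact absurd (k1 x hx y hy h') (not_lt.2 h.le)
      · exact absurd ((hv.ab x hx y hy).2 h') h.ne'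
      · exact h'
  obtain ⟨σ, hσ⟩ := exists_ext' (W₁.disjSum W₂) (Sum.elim id id) (Sum.elim a b) (by
    intro x hx y hy
    rcases x with x | x <;> rcases y with y | y
    · simp only [Finset.inl_mem_disjSum] at hx hy
      simp only [Sum.elim_inl, id]
      exact (hv.sa.lt_iff_lt hx hy).symm
    · simp only [Finset.inl_mem_disjSum, Finset.inr_mem_disjSum] at hx hy
      simp only [Sum.elim_inl, Sum.elim_inr, id]
      exact (k3 x hx y hy).1
    · simp only [Finset.inl_mem_disjSum, Finset.inr_mem_disjSum] at hx hy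
      simp only [Sum.elim_inl, Sum.elim_inr, id]
      exact (k3 y hy x hx).2
    · simp only [Finset.inr_mem_disjSum] at hx hy
      simp only [Sum.elim_inr, id]
      exact (hv.sb.lt_iff_lt hx hy).symm)
  refine ⟨σ, σ, fun w hw => ?_, fun w hw => ?_, 1, P.one_mem, 1, Q.one_mem, by simp⟩
  · have := hσ (Sum.inl w) (by simpa using hw)
    simpa using this
  · have := hσ (Sum.inr w) (by simpa using hw)
    simpa using this

theorem sw_main {A : Type} [Group A] (O : OSys A) (hS : Stab O) (φ : (ℚ ≃o ℚ) →* A) (N : ℕ) :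
    ∀ (P Q : Subgroup A), O.Opn P → O.Opn Q → ∀ (W₁ W₂ : Finset ℚ), Lab φ W₁ P → Lab φ W₂ Q →
    ∀ (a b : ℚ → ℚ), swV W₁ W₂ a b → (swS W₁ W₂ a b).card + (swS W₂ W₁ b a).card = N →
    swG φ P Q W₁ W₂ a b := by
  induction N using Nat.strong_induction_on with
  | _ N ih =>
    intro P Q hP hQ W₁ W₂ h1 h2 a b hv hN
    by_cases c1 : (swS W₁ W₂ a b).Nonempty
    · apply sw_step O hS φ hP hQ h1 h2 a b hv c1
      intro a' b' hv' hlt
      exact ih _ (hN ▸ hlt) P Q hP hQ W₁ W₂ h1 h2 a' b' hv' rfl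
    · by_cases c2 : (swS W₂ W₁ b a).Nonempty
      · apply swG_swap
        apply sw_step O hS φ hQ hP h2 h1 b a hv.swap c2
        intro a' b' hv' hlt
        refine ih _ ?_ Q P hQ hP W₂ W₁ h2 h1 a' b' hv' rfl
        rw [← hN, add_comm (swS W₁ W₂ a b).card]
        exact hlt
      · exact sw_zero φ a b hv c1 c2

theorem swap_open {A : Type} [Group A] (O : OSys A) (hS : Stab O) (φ : (ℚ ≃o ℚ) →* A)
    {P Q : Subgroup A} (hP : O.Opn P) (hQ : O.Opn Q) {W₁ W₂ : Finset ℚ} (h1 : Lab φ W₁ P)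
    (h2 : Lab φ W₂ Q) (α β : ℚ ≃o ℚ)
    (hab : ∀ w ∈ W₁, ∀ w' ∈ W₂, (α w = β w' ↔ w = w')) :
    ∃ p ∈ P, ∃ q ∈ Q, (φ α)⁻¹ * φ β = p * q := by
  have hv : swV W₁ W₂ (fun x => α x) (fun x => β x) :=
    ⟨α.strictMono.strictMonoOn _, β.strictMono.strictMonoOn _, hab⟩
  have h := sw_main O hS φ _ P Q hP hQ W₁ W₂ h1 h2 _ _ hv rfl
  exact swG_of h1 h2 h (fun _ _ => rfl) (fun _ _ => rfl)

end Pool.Agent.Helper596_Q
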