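import Mathlib
import Pool.Agent.Helper596_Q.LDefs
import Pool.Agent.Helper596_Q.Ext
import Pool.Agent.Helper596_Q.Supp
import Pool.Agent.Helper596_Q.A5
import Pool.Agent.Helper596_Q.L1

/-!
# Finite rank from stability
-/

set_option autoImplicit false

namespace Pool.Agent.Helper596_Q


/-- The homomorphism to a permutation group given by an action. -/
def phiG {M : Type} [MulAction (ℚ ≃o ℚ) M] (G : Subgroup (Equiv.Perm M))
    (hA : ∀ σ : ℚ ≃o ℚ, MulAction.toPerm σ ∈ G) : (ℚ ≃o ℚ) →* ↥G :=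
  (MulAction.toPermHom (ℚ ≃o ℚ) M).codRestrict G hA

theorem phiG_smul {M : Type} [MulAction (ℚ ≃o ℚ) M] (G : Subgroup (Equiv.Perm M))
    (hA : ∀ σ : ℚ ≃o ℚ, MulAction.toPerm σ ∈ G) (σ : ℚ ≃o ℚ) (x : M) :
    phiG G hA σ • x = σ • x := rfl

/-- A rational below finitely many positive ones. -/
theorem l2_eps (D : Finset ℚ) (h : ∀ d ∈ D, 0 < d) : ∃ ε : ℚ, 0 < ε ∧ ∀ d ∈ D, ε < d := by
  classical
  induction D using Finset.induction_on with
  | empty => exact ⟨1, one_pos, fun d hd => absurd hd (Finset.notMem_empty d)⟩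
  | insert a D _ ih =>
    obtain ⟨ε, h1, h2⟩ := ih (fun d hd => h d (Finset.mem_insert_of_mem hd))
    have ha : 0 < a := h a (Finset.mem_insert_self _ _)
    refine ⟨min ε (a / 2), lt_min h1 (by linarith), fun d hd => ?_⟩
    rcases Finset.mem_insert.1 hd with rfl | hd
    · exact (min_le_right _ _).trans_lt (by linarith)
    · exact (min_le_left _ _).trans_lt (h2 d hd)

/-- Labels can be moved off a finite set. -/
theorem l2_move (L T K : Finset ℚ) : ∃ ρ : ℚ ≃o ℚ, (∀ q ∈ L, ρ q = q) ∧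
    ∀ q ∈ T, q ∉ L → ρ q ∉ K := by
  classical
  obtain ⟨ε, h1, h2⟩ := l2_eps ((((L ∪ T ∪ K) ×ˢ (L ∪ T ∪ K)).filter (fun p => p.1 < p.2)).image
    (fun p => p.2 - p.1)) (by
      intro d hd
      obtain ⟨p, hp, rfl⟩ := Finset.mem_image.1 hd
      exact sub_pos.2 (Finset.mem_filter.1 hp).2)
  have h3 : ∀ p ∈ L ∪ T ∪ K, ∀ q ∈ L ∪ T ∪ K, p < q → p + ε < q := by
    intro p hp q hq hpq
    have := h2 (q - p) (Finset.mem_image.2 ⟨(p, q), Finset.mem_filter.2
      ⟨Finset.mem_product.2 ⟨hp, hq⟩, hpq⟩, rfl⟩)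
    linarith
  have hsub : ∀ q ∈ L ∪ T, q ∈ L ∪ T ∪ K := fun q hq => Finset.mem_union_left _ hq
  obtain ⟨ρ, hρ⟩ := exists_ext (L ∪ T) (fun q => if q ∈ L then q else q + ε) (by
    intro p hp q hq hpq
    have h4 := h3 p (hsub p hp) q (hsub q hq) hpq
    show (if p ∈ L then p else p + ε) < (if q ∈ L then q else q + ε)
    split_ifs <;> linarith)
  refine ⟨ρ, fun q hq => ?_, fun q hq hqL hK => ?_⟩
  · rw [hρ q (Finset.mem_union_left _ hq), if_pos hq]
  · rw [hρ q (Finset.mem_union_right _ hq), if_neg hqL] at hK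
    have h4 := h3 q (hsub q (Finset.mem_union_right _ hq)) (q + ε) (Finset.mem_union_right _ hK)
      (by linarith)
    exact lt_irrefl _ h4

/-- One label can be moved into a finite set. -/
theorem l2_one (L : Finset ℚ) : ∃ E : Finset ℚ, ∀ q, q ∉ L → ∃ σ : ℚ ≃o ℚ,
    (∀ p ∈ L, σ p = p) ∧ σ q ∈ E := by
  classical
  refine ⟨L.powerset.image (fun A => if h : ∃ q, q ∉ L ∧ L.filter (· < q) = A then h.choose else 0),
    fun q hq => ?_⟩
  have hex : ∃ q', q' ∉ L ∧ L.filter (· < q') = L.filter (· < q) := ⟨q, hq, rfl⟩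
  have hc := hex.choose_spec
  have hmem : hex.choose ∈ L.powerset.image (fun A => if h : ∃ q, q ∉ L ∧ L.filter (· < q) = A
      then h.choose else 0) := by
    refine Finset.mem_image.2 ⟨L.filter (· < q), Finset.mem_powerset.2 (Finset.filter_subset _ _),
      ?_⟩
    rw [dif_pos hex]
  generalize hex.choose = e at hc hmem
  obtain ⟨heL, he⟩ := hc
  have hlt : ∀ p ∈ L, (p < e ↔ p < q) := by
    intro p hp
    have := Finset.ext_iff.1 he p
    simpa [hp] using this
  have hgt : ∀ p ∈ L, (e < p ↔ q < p) := by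
    intro p hp
    have h1 : p ≠ e := fun h => heL (h ▸ hp)
    have h2 : p ≠ q := fun h => hq (h ▸ hp)
    have h3 := hlt p hp
    constructor
    · intro h
      by_contra hn
      have h4 : p < q := lt_of_le_of_ne (not_lt.1 hn) h2
      exact lt_asymm h (h3.2 h4)
    · intro h
      by_contra hn
      have h4 : p < e := lt_of_le_of_ne (not_lt.1 hn) h1
      exact lt_asymm h (h3.1 h4)
  obtain ⟨σ, hσ⟩ := exists_ext' (insert q L) (fun p => p) (fun p => if p = q then e else p) (by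
    intro a ha b hb
    rw [Finset.mem_insert] at ha hb
    by_cases haq : a = q
    · by_cases hbq : b = q
      · simp [haq, hbq]
      · simp only [haq, hbq, if_true, if_false]
        exact (hgt b (hb.resolve_left hbq)).symm
    · by_cases hbq : b = q
      · simp only [haq, hbq, if_true, if_false]
        exact (hlt a (ha.resolve_left haq)).symm
      · simp only [haq, hbq, if_false])
  refine ⟨σ, fun p hp => ?_, ?_⟩
  · have := hσ p (Finset.mem_insert_of_mem hp)
    have hpq : p ≠ q := fun h => hq (h ▸ hp)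
    simpa [hpq] using this
  · have := hσ q (Finset.mem_insert_self _ _)
    have h5 : σ q = e := by simpa using this
    rw [h5]
    exact hmem

/-- Boundedly many labels can be moved into a finite set. -/
theorem l2_many (n : ℕ) : ∀ L : Finset ℚ, ∃ E : Finset ℚ, ∀ T : Finset ℚ, (T \ L).card ≤ n →
    ∃ σ : ℚ ≃o ℚ, (∀ p ∈ L, σ p = p) ∧ T.image σ ⊆ E := by
  classical
  induction n with
  | zero =>
    intro L
    refine ⟨L, fun T hT => ⟨1, fun p _ => rfl, ?_⟩⟩
    have h1 : T \ L = ∅ := Finset.card_eq_zero.1 (Nat.le_zero.1 hT)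
    intro q hq
    obtain ⟨p, hp, rfl⟩ := Finset.mem_image.1 hq
    exact Finset.sdiff_eq_empty_iff_subset.1 h1 hp
  | succ n ih =>
    intro L
    obtain ⟨E₁, hE₁⟩ := l2_one L
    choose E hE using ih
    refine ⟨L ∪ E₁.biUnion (fun e => E (insert e L)), fun T hT => ?_⟩
    by_cases hTL : T ⊆ L
    · refine ⟨1, fun p _ => rfl, fun q hq => ?_⟩
      obtain ⟨p, hp, rfl⟩ := Finset.mem_image.1 hq
      exact Finset.mem_union_left _ (hTL hp)
    · obtain ⟨q, hqT, hqL⟩ := Finset.not_subset.1 hTL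
      obtain ⟨σ₁, h1, h2⟩ := hE₁ q hqL
      have hcard : (T.image σ₁ \ insert (σ₁ q) L).card ≤ n := by
        have h3 : T.image σ₁ \ insert (σ₁ q) L ⊆ ((T \ L).erase q).image σ₁ := by
          intro y hy
          rw [Finset.mem_sdiff, Finset.mem_insert, not_or] at hy
          obtain ⟨hy1, hy2, hy3⟩ := hy
          obtain ⟨p, hp, rfl⟩ := Finset.mem_image.1 hy1
          refine Finset.mem_image_of_mem _ (Finset.mem_erase.2 ⟨fun h => hy2 (by rw [h]),
            Finset.mem_sdiff.2 ⟨hp, fun h => hy3 ?_⟩⟩)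
          rw [h1 p h]
          exact h
        have h4 := Finset.card_le_card h3
        have h5 : (((T \ L).erase q).image σ₁).card ≤ ((T \ L).erase q).card :=
          Finset.card_image_le
        have h6 : ((T \ L).erase q).card = (T \ L).card - 1 :=
          Finset.card_erase_of_mem (Finset.mem_sdiff.2 ⟨hqT, hqL⟩)
        omega
      obtain ⟨σ₂, h3, h4⟩ := hE (insert (σ₁ q) L) (T.image σ₁) hcard
      refine ⟨σ₂ * σ₁, fun p hp => ?_, fun y hy => ?_⟩
      · show σ₂ (σ₁ p) = p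
        rw [h1 p hp, h3 p (Finset.mem_insert_of_mem hp)]
      · obtain ⟨p, hp, rfl⟩ := Finset.mem_image.1 hy
        refine Finset.mem_union_right _ (Finset.mem_biUnion.2 ⟨σ₁ q, h2, h4 ?_⟩)
        exact Finset.mem_image_of_mem _ (Finset.mem_image_of_mem _ hp)

/-- Moving an element of an invariant set inside the set. -/
theorem l2_mem {M : Type} [MulAction (ℚ ≃o ℚ) M] (S : QAct M)
    (G : Subgroup (Equiv.Perm M)) (hA : ∀ σ : ℚ ≃o ℚ, MulAction.toPerm σ ∈ G)
    (ol : ∀ n : ℕ, ∃ S : Finset (Fin n → M), ∀ v : Fin n → M, ∃ s ∈ S, ∃ a ∈ G,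
      ∀ i, a (s i) = v i) (hS : Stab (osysM G ol)) (f : Set M) (F : Finset M)
    (hf : ∀ g ∈ G, (∀ x ∈ F, g x = x) → ∀ s ∈ f, g s ∈ f) (L : Finset ℚ)
    (hL : ∀ x ∈ F, S.supp x ⊆ L) (x : M) (hx : x ∈ f) (ρ : ℚ ≃o ℚ)
    (hρ : ∀ w ∈ S.supp x, ∀ w' ∈ L, (ρ w = w' ↔ w = w')) : ρ • x ∈ f := by
  classical
  obtain ⟨p, hp, q, hq, hpq⟩ := swap_open (osysM G ol) hS (phiG G hA)
    (P := stb ↥G {x}) (Q := stb ↥G F) ((osysM_opn G ol _).2 ⟨{x}, le_rfl⟩)
    ((osysM_opn G ol _).2 ⟨F, le_rfl⟩) (W₁ := S.supp x) (W₂ := L)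
    (fun σ hσ y hy => by
      rw [Finset.mem_singleton] at hy
      subst hy
      rw [phiG_smul]
      exact S.fix σ y hσ)
    (fun σ hσ y hy => by
      rw [phiG_smul]
      exact S.fix σ y (fun q hq => hσ q (hL y hy hq)))
    ρ 1 (fun w hw w' hw' => hρ w hw w' hw')
  rw [map_one, mul_one] at hpq
  have hpx : p • x = x := hp x (Finset.mem_singleton_self _)
  have h1 : q • (ρ • x) = x := by
    have h2 : (p * q) • (ρ • x) = x := by
      rw [← hpq, ← phiG_smul G hA, inv_smul_smul]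
    rw [mul_smul, ← eq_inv_smul_iff] at h2
    rw [h2, inv_smul_eq_iff, hpx]
  have h3 : ρ • x = q⁻¹ • x := by
    rw [eq_inv_smul_iff, h1]
  rw [h3]
  have hq' : q⁻¹ ∈ stb ↥G F := (stb ↥G F).inv_mem hq
  exact hf ((q⁻¹ : ↥G) : Equiv.Perm M) (q⁻¹ : ↥G).2 (fun y hy => hq' y hy) x hx

theorem l2_key {M : Type} [MulAction (ℚ ≃o ℚ) M] (S : QAct M)
    (G : Subgroup (Equiv.Perm M)) (hA : ∀ σ : ℚ ≃o ℚ, MulAction.toPerm σ ∈ G)
    (ol : ∀ n : ℕ, ∃ S : Finset (Fin n → M), ∀ v : Fin n → M, ∃ s ∈ S, ∃ a ∈ G,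
      ∀ i, a (s i) = v i) (hS : Stab (osysM G ol)) (n : ℕ) :
    ∀ (T : Set M) (L : Finset ℚ), RkM G n T → ∃ x ∈ T, n ≤ (S.supp x \ L).card := by
  classical
  induction n with
  | zero =>
    rintro T L ⟨x, hx⟩
    exact ⟨x, hx, Nat.zero_le _⟩
  | succ n ih =>
    rintro T L ⟨f, hDM, hdis, hsub⟩
    choose F hF using hDM
    let K : ℕ → Finset ℚ := fun i => L ∪ (F i).biUnion (fun x => S.supp x)
    choose x hxf hxn using fun i => ih (f i) (K i) (hsub i).2
    by_contra hcon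
    push Not at hcon
    have hle : ∀ i, (S.supp (x i) \ L).card ≤ n := fun i =>
      Nat.lt_succ_iff.1 (hcon (x i) ((hsub i).1 (hxf i)))
    -- the labels outside `L` are outside `K i`
    have hout : ∀ i, ∀ w ∈ S.supp (x i), w ∉ L → w ∉ K i := by
      intro i w hw hwL hwK
      have h1 : S.supp (x i) \ K i ⊆ (S.supp (x i) \ L).erase w := by
        intro v hv
        rw [Finset.mem_sdiff] at hv
        refine Finset.mem_erase.2 ⟨fun h => hv.2 (h ▸ hwK), Finset.mem_sdiff.2 ⟨hv.1,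
          fun h => hv.2 (Finset.mem_union_left _ h)⟩⟩
      have h2 := Finset.card_le_card h1
      have h3 : ((S.supp (x i) \ L).erase w).card = (S.supp (x i) \ L).card - 1 :=
        Finset.card_erase_of_mem (Finset.mem_sdiff.2 ⟨hw, hwL⟩)
      have h4 : 0 < (S.supp (x i) \ L).card :=
        Finset.card_pos.2 ⟨w, Finset.mem_sdiff.2 ⟨hw, hwL⟩⟩
      have h5 := hxn i
      have h6 := hle i
      omega
    obtain ⟨E, hE⟩ := l2_many n L
    choose σ hσL hσE using fun i => hE (S.supp (x i)) (hle i)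
    have hfib : ∀ i, σ i • x i ∈ S.fib E := fun i => by
      rw [S.mem_fib, S.smul_supp]
      exact hσE i
    obtain ⟨i, j, hij, heq⟩ := Finite.exists_ne_map_eq_of_infinite
      (fun i : ℕ => (⟨σ i • x i, hfib i⟩ : S.fib E))
    have heq' : σ i • x i = σ j • x j := congrArg Subtype.val heq
    obtain ⟨ρ, hρL, hρ⟩ := l2_move L (S.supp (x i)) (K i ∪ K j)
    have hyi : ρ • x i ∈ f i := by
      refine l2_mem S G hA ol hS (f i) (F i) (hF i) (K i) (fun y hy q hq =>
        Finset.mem_union_right _ (Finset.mem_biUnion.2 ⟨y, hy, hq⟩)) (x i) (hxf i) ρ ?_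
      intro w hw w' hw'
      by_cases hwL : w ∈ L
      · rw [hρL w hwL]
      · constructor
        · intro h
          exact absurd (Finset.mem_union_left _ (h ▸ hw')) (hρ w hw hwL)
        · intro h
          exact absurd (h ▸ hw') (hout i w hw hwL)
    have hxj : x j = ((σ j)⁻¹ * σ i) • x i := by
      rw [mul_smul, heq', inv_smul_smul]
    have hτL : ∀ q ∈ L, ((σ j)⁻¹ * σ i) q = q := by
      intro q hq
      show (σ j)⁻¹ (σ i q) = q
      rw [hσL i q hq]
      nth_rw 1 [← hσL j q hq]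
      exact (σ j).symm_apply_apply q
    generalize (σ j)⁻¹ * σ i = τ at hxj hτL
    have hyj : (ρ * τ⁻¹) • x j ∈ f j := by
      refine l2_mem S G hA ol hS (f j) (F j) (hF j) (K j) (fun y hy q hq =>
        Finset.mem_union_right _ (Finset.mem_biUnion.2 ⟨y, hy, hq⟩)) (x j) (hxf j) _ ?_
      intro w hw w' hw'
      by_cases hwL : w ∈ L
      · have h1 : (ρ * τ⁻¹) w = w := by
          show ρ (τ⁻¹ w) = w
          have h2 : τ⁻¹ w = w := by
            nth_rw 1 [← hτL w hwL]
            exact τ.symm_apply_apply w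
          rw [h2, hρL w hwL]
        rw [h1]
      · constructor
        · intro h
          have hw2 : w ∈ (S.supp (x i)).image τ := by
            rw [← S.smul_supp, ← hxj]
            exact hw
          obtain ⟨v, hv, rfl⟩ := Finset.mem_image.1 hw2
          have hvL : v ∉ L := fun h1 => hwL (by rw [hτL v h1]; exact h1)
          have h2 : (ρ * τ⁻¹) (τ v) = ρ v := by
            show ρ (τ⁻¹ (τ v)) = ρ v
            exact congrArg ρ (τ.symm_apply_apply v)
          rw [h2] at h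
          exact absurd (Finset.mem_union_right _ (h ▸ hw')) (hρ v hv hvL)
        · intro h
          exact absurd (h ▸ hw') (hout j w hw hwL)
    have hyj' : ρ • x i ∈ f j := by
      have h1 : (ρ * τ⁻¹) • x j = ρ • x i := by
        rw [hxj, mul_smul, inv_smul_smul]
      rw [← h1]
      exact hyj
    exact Set.disjoint_left.1 (hdis i j hij) hyi hyj'

theorem rkM_le {M : Type} [Countable M] [MulAction (ℚ ≃o ℚ) M] (S : QAct M)
    (G : Subgroup (Equiv.Perm M)) (hA : ∀ σ : ℚ ≃o ℚ, MulAction.toPerm σ ∈ G)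
    (ol : ∀ n : ℕ, ∃ S : Finset (Fin n → M), ∀ v : Fin n → M, ∃ s ∈ S, ∃ a ∈ G,
      ∀ i, a (s i) = v i) (hS : Stab (osysM G ol)) :
    ¬ RkM G (S.k + 1) (Set.univ : Set M) := by
  classical
  intro h
  obtain ⟨x, _, hx⟩ := l2_key S G hA ol hS (S.k + 1) Set.univ ∅ h
  have h1 := S.card_le x
  have h2 : (S.supp x \ ∅).card ≤ (S.supp x).card := Finset.card_le_card Finset.sdiff_subset
  omega

end Pool.Agent.Helper596_Q
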