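import Mathlib
import Pool.Agent.Helper596_Q.Ext
import Pool.Agent.Helper596_Q.Pair

/-!
# Diagonal copies of the automorphism group of the rational order
-/

set_option autoImplicit false

namespace Pool.Agent.Helper596_Q

/-- the model: a copy of the rationals, a point, a copy of the rationals -/
abbrev Mod3 : Type := ℚ ⊕ₗ (Unit ⊕ₗ ℚ)

/-- an order isomorphism of the model with the rationals that maps the middle point to `w` -/
theorem exists_model (w : ℚ) :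
    ∃ Θ : Mod3 ≃o ℚ, Θ (toLex (Sum.inr (toLex (Sum.inl ())))) = w := by
  have : DenselyOrdered (Unit ⊕ₗ ℚ) := Sum.Lex.denselyOrdered_of_noMinOrder
  have : DenselyOrdered Mod3 := Sum.Lex.denselyOrdered_of_noMaxOrder
  have : NoMinOrder Mod3 := Sum.Lex.noMinOrder_of_nonempty
  have : NoMaxOrder (Unit ⊕ₗ ℚ) := Sum.Lex.noMaxOrder_of_nonempty
  have : Nonempty (Unit ⊕ₗ ℚ) := ⟨toLex (Sum.inl ())⟩
  have : NoMaxOrder Mod3 := Sum.Lex.noMaxOrder_of_nonempty
  have : Nonempty Mod3 := ⟨toLex (Sum.inl 0)⟩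
  have : Countable (Unit ⊕ₗ ℚ) := inferInstanceAs (Countable (Unit ⊕ ℚ))
  have : Countable Mod3 := inferInstanceAs (Countable (ℚ ⊕ (Unit ⊕ₗ ℚ)))
  obtain ⟨Θ₀⟩ := Order.iso_of_countable_dense Mod3 ℚ
  refine ⟨Θ₀.trans (OrderIso.addRight (w - Θ₀ (toLex (Sum.inr (toLex (Sum.inl ())))))), ?_⟩
  simp

/-- gluing two actions -/
def glueHom (Θ : Mod3 ≃o ℚ) (ψ : (ℚ ≃o ℚ) →* (ℚ ≃o ℚ)) : (ℚ ≃o ℚ) →* (ℚ ≃o ℚ) where
  toFun σ := (Θ.symm.trans (OrderIso.sumLexCongr (ψ σ)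
    (OrderIso.sumLexCongr (OrderIso.refl Unit) σ))).trans Θ
  map_one' := by
    ext q
    rw [map_one]
    show Θ ((OrderIso.sumLexCongr (OrderIso.refl ℚ)
      (OrderIso.sumLexCongr (OrderIso.refl Unit) (OrderIso.refl ℚ))) (Θ.symm q)) = q
    rw [OrderIso.sumLexCongr_refl, OrderIso.sumLexCongr_refl]
    exact Θ.apply_symm_apply q
  map_mul' := by
    intro σ τ
    ext q
    rw [map_mul]
    show Θ ((OrderIso.sumLexCongr ((ψ τ).trans (ψ σ))
      (OrderIso.sumLexCongr ((OrderIso.refl Unit).trans (OrderIso.refl Unit)) (τ.trans σ)))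
        (Θ.symm q)) = Θ ((OrderIso.sumLexCongr (ψ σ)
      (OrderIso.sumLexCongr (OrderIso.refl Unit) σ)) (Θ.symm (Θ ((OrderIso.sumLexCongr (ψ τ)
      (OrderIso.sumLexCongr (OrderIso.refl Unit) τ)) (Θ.symm q)))))
    rw [← OrderIso.sumLexCongr_trans, ← OrderIso.sumLexCongr_trans, Θ.symm_apply_apply]
    rfl

theorem glueHom_inl (Θ : Mod3 ≃o ℚ) (ψ : (ℚ ≃o ℚ) →* (ℚ ≃o ℚ)) (σ : ℚ ≃o ℚ) (x : ℚ) :
    glueHom Θ ψ σ (Θ (toLex (Sum.inl x))) = Θ (toLex (Sum.inl (ψ σ x))) := by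
  show Θ ((OrderIso.sumLexCongr (ψ σ)
      (OrderIso.sumLexCongr (OrderIso.refl Unit) σ)) (Θ.symm (Θ (toLex (Sum.inl x))))) = _
  rw [Θ.symm_apply_apply]
  rfl

theorem glueHom_mid (Θ : Mod3 ≃o ℚ) (ψ : (ℚ ≃o ℚ) →* (ℚ ≃o ℚ)) (σ : ℚ ≃o ℚ) :
    glueHom Θ ψ σ (Θ (toLex (Sum.inr (toLex (Sum.inl ()))))) =
      Θ (toLex (Sum.inr (toLex (Sum.inl ())))) := by
  show Θ ((OrderIso.sumLexCongr (ψ σ)
      (OrderIso.sumLexCongr (OrderIso.refl Unit) σ))
        (Θ.symm (Θ (toLex (Sum.inr (toLex (Sum.inl ()))))))) = _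
  rw [Θ.symm_apply_apply]
  rfl

theorem glueHom_inr (Θ : Mod3 ≃o ℚ) (ψ : (ℚ ≃o ℚ) →* (ℚ ≃o ℚ)) (σ : ℚ ≃o ℚ) (y : ℚ) :
    glueHom Θ ψ σ (Θ (toLex (Sum.inr (toLex (Sum.inr y))))) =
      Θ (toLex (Sum.inr (toLex (Sum.inr (σ y))))) := by
  show Θ ((OrderIso.sumLexCongr (ψ σ)
      (OrderIso.sumLexCongr (OrderIso.refl Unit) σ))
        (Θ.symm (Θ (toLex (Sum.inr (toLex (Sum.inr y))))))) = _
  rw [Θ.symm_apply_apply]
  rfl

/-- the strengthened form -/
theorem exists_diag_aux (n : ℕ) : ∀ W : Finset ℚ, W.card ≤ n →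
    ∃ (ψ : (ℚ ≃o ℚ) →* (ℚ ≃o ℚ)) (ρ : ℚ → ℚ),
      (∀ σ, ∀ w ∈ W, ψ σ w = w) ∧
      (∀ (σ : ℚ ≃o ℚ) (q : ℚ), σ (ρ q) = ρ q → ψ σ q = q) ∧
      (∀ S : Finset ℚ, ∃ E : Finset ℚ, ∀ (σ : ℚ ≃o ℚ) (q : ℚ), σ (ρ q) ∈ S → ψ σ q ∈ E) := by
  classical
  have hempty : ∀ W : Finset ℚ, W = ∅ →
    ∃ (ψ : (ℚ ≃o ℚ) →* (ℚ ≃o ℚ)) (ρ : ℚ → ℚ),
      (∀ σ, ∀ w ∈ W, ψ σ w = w) ∧
      (∀ (σ : ℚ ≃o ℚ) (q : ℚ), σ (ρ q) = ρ q → ψ σ q = q) ∧
      (∀ S : Finset ℚ, ∃ E : Finset ℚ, ∀ (σ : ℚ ≃o ℚ) (q : ℚ), σ (ρ q) ∈ S → ψ σ q ∈ E) := by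
    rintro W rfl
    exact ⟨MonoidHom.id _, id, fun σ w hw => absurd hw (Finset.notMem_empty _),
      fun σ q h => h, fun S => ⟨S, fun σ q h => h⟩⟩
  induction n with
  | zero =>
    intro W hW
    exact hempty W (Finset.card_eq_zero.1 (Nat.le_zero.1 hW))
  | succ n ih =>
    intro W hW
    rcases W.eq_empty_or_nonempty with h0 | hne
    · exact hempty W h0
    obtain ⟨Θ, hΘ⟩ := exists_model (W.max' hne)
    have hinj : Function.Injective (fun x : ℚ => Θ (toLex (Sum.inl x))) := by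
      intro x y hxy
      have h1 := Θ.injective hxy
      exact Sum.inl_injective (toLex.injective h1)
    let V : Finset ℚ := (W.erase (W.max' hne)).preimage (fun x : ℚ => Θ (toLex (Sum.inl x)))
      (hinj.injOn)
    have hV : V.card ≤ n := by
      have h1 : V.card ≤ (W.erase (W.max' hne)).card :=
        Finset.card_le_card_of_injOn (fun x : ℚ => Θ (toLex (Sum.inl x)))
          (fun x hx => by
            have h3 : x ∈ (W.erase (W.max' hne)).preimage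
              (fun x : ℚ => Θ (toLex (Sum.inl x))) hinj.injOn := hx
            rw [Finset.mem_preimage] at h3
            exact h3) hinj.injOn
      have h2 : (W.erase (W.max' hne)).card = W.card - 1 :=
        Finset.card_erase_of_mem (W.max'_mem hne)
      omega
    obtain ⟨ψ, ρ, hfix, hst, hE⟩ := ih V hV
    -- case analysis on points of the rationals
    have hcases : ∀ q : ℚ, (∃ x, q = Θ (toLex (Sum.inl x))) ∨
        q = Θ (toLex (Sum.inr (toLex (Sum.inl ())))) ∨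
        (∃ y, q = Θ (toLex (Sum.inr (toLex (Sum.inr y))))) := by
      intro q
      obtain ⟨p, rfl⟩ := Θ.surjective q
      rcases p with x | p
      · exact Or.inl ⟨x, rfl⟩
      · rcases p with u | y
        · exact Or.inr (Or.inl rfl)
        · exact Or.inr (Or.inr ⟨y, rfl⟩)
    let r : Mod3 → ℚ := fun p => match ofLex p with
      | Sum.inl x => ρ x
      | Sum.inr p' => match ofLex p' with
        | Sum.inl _ => 0
        | Sum.inr y => y
    refine ⟨glueHom Θ ψ, fun q => r (Θ.symm q), ?_, ?_, ?_⟩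
    · intro σ w hw
      rcases hcases w with ⟨x, hx⟩ | hm | ⟨y, hy⟩
      · subst hx
        rw [glueHom_inl]
        have hne' : Θ (toLex (Sum.inl x)) ≠ W.max' hne := by
          rw [← hΘ]
          intro h
          have h1 := toLex.injective (Θ.injective h)
          cases h1
        have hx' : x ∈ V := by
          rw [Finset.mem_preimage]
          exact Finset.mem_erase.2 ⟨hne', hw⟩
        rw [hfix σ x hx']
      · subst hm
        exact glueHom_mid Θ ψ σ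
      · exfalso
        subst hy
        have h1 := W.le_max' _ hw
        rw [← hΘ, Θ.le_iff_le] at h1
        have h2 : (toLex (Sum.inr y) : Unit ⊕ₗ ℚ) ≤ toLex (Sum.inl ()) := by
          simp at h1
        exact absurd h2 (by simp)
    · intro σ q hq
      rcases hcases q with ⟨x, hx⟩ | hm | ⟨y, hy⟩
      · subst hx
        rw [glueHom_inl]
        have h1 : r (Θ.symm (Θ (toLex (Sum.inl x)))) = ρ x := by
          rw [Θ.symm_apply_apply]; rfl
        simp only [h1] at hq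
        rw [hst σ x hq]
      · subst hm
        exact glueHom_mid Θ ψ σ
      · subst hy
        rw [glueHom_inr]
        have h1 : r (Θ.symm (Θ (toLex (Sum.inr (toLex (Sum.inr y)))))) = y := by
          rw [Θ.symm_apply_apply]; rfl
        simp only [h1] at hq
        rw [hq]
    · intro S
      obtain ⟨E, hE'⟩ := hE S
      refine ⟨(E.image (fun x => Θ (toLex (Sum.inl x)))) ∪
        ({Θ (toLex (Sum.inr (toLex (Sum.inl ()))))} ∪
        S.image (fun y => Θ (toLex (Sum.inr (toLex (Sum.inr y)))))), ?_⟩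
      intro σ q hq
      rcases hcases q with ⟨x, hx⟩ | hm | ⟨y, hy⟩
      · subst hx
        rw [glueHom_inl]
        have h1 : r (Θ.symm (Θ (toLex (Sum.inl x)))) = ρ x := by
          rw [Θ.symm_apply_apply]; rfl
        simp only [h1] at hq
        exact Finset.mem_union_left _ (Finset.mem_image_of_mem _ (hE' σ x hq))
      · subst hm
        rw [glueHom_mid]
        exact Finset.mem_union_right _ (Finset.mem_union_left _ (Finset.mem_singleton_self _))
      · subst hy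
        rw [glueHom_inr]
        have h1 : r (Θ.symm (Θ (toLex (Sum.inr (toLex (Sum.inr y)))))) = y := by
          rw [Θ.symm_apply_apply]; rfl
        simp only [h1] at hq
        exact Finset.mem_union_right _ (Finset.mem_union_right _
          (Finset.mem_image_of_mem (fun y => Θ (toLex (Sum.inr (toLex (Sum.inr y))))) hq))

theorem exists_diag (W : Finset ℚ) : ∃ ψ : (ℚ ≃o ℚ) →* (ℚ ≃o ℚ),
    (∀ σ, ∀ w ∈ W, ψ σ w = w) ∧
    (∀ q : ℚ, ∃ r : ℚ, ∀ σ : ℚ ≃o ℚ, σ r = r → ψ σ q = q) ∧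
    (∀ m : ℕ, ∃ E : Finset ℚ, ∀ F : Finset ℚ, F.card ≤ m → ∃ σ, ∀ q ∈ F, ψ σ q ∈ E) := by
  classical
  obtain ⟨ψ, ρ, hfix, hst, hE⟩ := exists_diag_aux W.card W le_rfl
  refine ⟨ψ, hfix, fun q => ⟨ρ q, fun σ h => hst σ q h⟩, fun m => ?_⟩
  obtain ⟨E, hE'⟩ := hE (std m)
  refine ⟨E, fun F hF => ?_⟩
  obtain ⟨σ, hσ⟩ := exists_into_std (F.image ρ) m (Finset.card_image_le.trans hF)
  exact ⟨σ, fun q hq => hE' σ q (hσ _ (Finset.mem_image_of_mem ρ hq))⟩

end Pool.Agent.Helper596_Q
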