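import Mathlib
import Pool.Agent.Helper596_Q.LDefs
import Pool.Agent.Helper596_Q.Fin
import Pool.Agent.Helper596_Q.Supp
import Pool.Agent.Helper596_Q.RN
import Pool.Agent.Helper596_Q.A5
import Pool.Agent.Helper596_Q.L2
import Pool.Agent.Helper596_Q.L3a

/-!
# Least open subgroups
-/

set_option autoImplicit false

namespace Pool.Agent.Helper596_Q


theorem exists_least_open {M : Type} [MulAction (ℚ ≃o ℚ) M] (S : QAct M)
    (G : Subgroup (Equiv.Perm M)) (hA : ∀ σ : ℚ ≃o ℚ, MulAction.toPerm σ ∈ G)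
    (ol : ∀ n : ℕ, ∃ S : Finset (Fin n → M), ∀ v : Fin n → M, ∃ s ∈ S, ∃ a ∈ G,
      ∀ i, a (s i) = v i) (hG : Clo G) :
    ∃ E : Finset ℚ → Subgroup ↥G, Lst (osysM G ol) (phiG G hA) E := by
  classical
  have key : ∀ W : Finset ℚ, ∃ E : Subgroup ↥G, (osysM G ol).Opn E ∧ Lab (phiG G hA) W E ∧
      ∀ V, (osysM G ol).Opn V → Lab (phiG G hA) W V → E ≤ V := by
    intro W
    obtain ⟨ψ, hψW, hψs, hψo⟩ := exists_diag W
    -- the new action
    obtain ⟨S'⟩ : Nonempty (@QAct M (MulAction.compHom M ψ)) := by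
      refine @exists_QAct M (MulAction.compHom M ψ) ?_ ?_
      · intro x
        choose r hr using hψs
        refine ⟨(S.supp x).image r, fun σ hσ => ?_⟩
        exact S.fix (ψ σ) x (fun q hq => hr q σ (hσ _ (Finset.mem_image_of_mem _ hq)))
      · obtain ⟨E, hE⟩ := hψo S.k
        refine ⟨S.fib E, fun x => ?_⟩
        obtain ⟨σ, hσ⟩ := hE (S.supp x) (S.card_le x)
        refine ⟨ψ σ • x, ?_, σ⁻¹, ?_⟩
        · rw [S.mem_fib, S.smul_supp]
          intro q hq
          obtain ⟨p, hp, rfl⟩ := Finset.mem_image.1 hq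
          exact hσ p hp
        · show ψ σ⁻¹ • (ψ σ • x) = x
          rw [map_inv, inv_smul_smul]
    have hfinG : {G' : Subgroup (Equiv.Perm M) |
        ((MulAction.toPermHom (ℚ ≃o ℚ) M).comp ψ).range ≤ G' ∧ Clo G'}.Finite := by
      refine @finite_groups M (MulAction.compHom M ψ) S' _ ?_
      intro σ
      refine ⟨σ, ?_⟩
      ext x
      rfl
    have hfinV : {V : Subgroup ↥G | (osysM G ol).Opn V ∧ Lab (phiG G hA) W V}.Finite := by
      refine Set.Finite.of_finite_image (f := fun V : Subgroup ↥G => V.map G.subtype)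
        (hfinG.subset ?_) ((Subgroup.map_injective G.subtype_injective).injOn)
      rintro _ ⟨V, ⟨hVo, hVl⟩, rfl⟩
      refine ⟨?_, ?_⟩
      · rintro _ ⟨σ, rfl⟩
        refine ⟨phiG G hA (ψ σ), hVl (ψ σ) (fun w hw => hψW σ w hw), ?_⟩
        rfl
      · intro f hf
        have hfG : f ∈ G := by
          refine hG f (fun F => ?_)
          obtain ⟨g, hg, hgF⟩ := hf F
          obtain ⟨v, -, rfl⟩ := hg
          exact ⟨_, v.2, hgF⟩
        obtain ⟨F₀, hF₀⟩ := hVo
        obtain ⟨g, hg, hgF⟩ := hf F₀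
        obtain ⟨v, hv, rfl⟩ := hg
        have h1 : v⁻¹ * (⟨f, hfG⟩ : ↥G) ∈ V := by
          refine hF₀ ?_
          rw [mem_stb]
          intro x hx
          rw [mul_smul, inv_smul_eq_iff]
          show f x = (v : Equiv.Perm M) x
          exact (hgF x hx).symm
        refine ⟨(⟨f, hfG⟩ : ↥G), ?_, rfl⟩
        have h2 := V.mul_mem hv h1
        rwa [mul_inv_cancel_left] at h2
    refine ⟨⨅ V ∈ hfinV.toFinset, V, ?_, ?_, ?_⟩
    · refine (osysM G ol).opn_biInf hfinV.toFinset (fun V => V) ?_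
      intro V hV
      exact (hfinV.mem_toFinset.1 hV).1
    · intro σ hσ
      rw [Subgroup.mem_iInf]
      intro V
      rw [Subgroup.mem_iInf]
      intro hV
      exact (hfinV.mem_toFinset.1 hV).2 σ hσ
    · intro V hVo hVl
      exact iInf₂_le V (hfinV.mem_toFinset.2 ⟨hVo, hVl⟩)
  choose E hE using key
  exact ⟨E, hE⟩

end Pool.Agent.Helper596_Q
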