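import Mathlib
import Pool.Agent.Helper596_Q.LDefs
import Pool.Agent.Helper596_Q.Ext
import Pool.Agent.Helper596_Q.Supp

/-!
# Shifts, intersections of supports, finite index
-/

set_option autoImplicit false

namespace Pool.Agent.Helper596_Q

theorem pow_fix_pt (τ : ℚ ≃o ℚ) (w : ℚ) (h : τ w = w) (n : ℕ) : (τ ^ n) w = w := by
  induction n with
  | zero => rfl
  | succ n ih =>
    rw [pow_succ]
    show (τ ^ n) (τ w) = w
    rw [h, ih]

theorem pow_ge_pt (τ : ℚ ≃o ℚ) (m : ℚ) (h : m < τ m) (n : ℕ) : τ m ≤ (τ ^ (n + 1)) m := by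
  induction n with
  | zero => rw [pow_one]
  | succ n ih =>
    rw [pow_succ]
    show τ m ≤ (τ ^ (n + 1)) (τ m)
    exact ih.trans ((τ ^ (n + 1)).monotone h.le)

theorem exists_shift (W F : Finset ℚ) : ∃ τ : ℚ ≃o ℚ, (∀ w ∈ W, τ w = w) ∧
    ∀ x ∈ F, x ∉ W → ∀ y ∈ F, y ∉ W → ∀ n : ℕ, 1 ≤ n → (τ ^ n) x ≠ y := by
  classical
  -- targets
  have htar : ∀ m : ℚ, ∃ r : ℚ, (∀ y ∈ (insert m F).filter (fun y => ∀ w ∈ W, m < w → y < w), y < r) ∧
      ∀ w ∈ W.filter (fun w => m < w), r < w := by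
    intro m
    refine Order.exists_between_finsets _ _ ?_
    intro y hy w hw
    rw [Finset.mem_filter] at hy hw
    exact hy.2 w hw.1 hw.2
  choose r hr1 hr2 using htar
  have hmr : ∀ m, m < r m := fun m => hr1 m m (by
    rw [Finset.mem_filter]
    exact ⟨Finset.mem_insert_self _ _, fun w _ h => h⟩)
  have hr1' : ∀ m, ∀ y ∈ F, (∀ w ∈ W, m < w → y < w) → y < r m := fun m y hy h =>
    hr1 m y (by
      rw [Finset.mem_filter]
      exact ⟨Finset.mem_insert_of_mem hy, h⟩)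
  have hr2' : ∀ m, ∀ w ∈ W, m < w → r m < w := fun m w hw h => hr2 m w (by
      rw [Finset.mem_filter]
      exact ⟨hw, h⟩)
  -- least elements of the gaps
  let P : ℚ → Prop := fun m => m ∉ W ∧ ∀ y ∈ F, y ∉ W → y < m → ∃ w ∈ W, y < w ∧ w < m
  obtain ⟨τ, hτ⟩ := exists_ext (W ∪ F.filter P) (fun q => if q ∈ W then q else r q) (by
    intro a ha b hb hab
    rw [Finset.mem_coe, Finset.mem_union, Finset.mem_filter] at ha hb
    show (if a ∈ W then a else r a) < (if b ∈ W then b else r b)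
    by_cases haW : a ∈ W
    · rw [if_pos haW]
      by_cases hbW : b ∈ W
      · rw [if_pos hbW]
        exact hab
      · rw [if_neg hbW]
        exact hab.trans (hmr b)
    · rw [if_neg haW]
      have ha' : a ∈ F ∧ P a := by
        rcases ha with h | h
        · exact absurd h haW
        · exact h
      by_cases hbW : b ∈ W
      · rw [if_pos hbW]
        exact hr2' a b hbW hab
      · rw [if_neg hbW]
        have hb' : b ∈ F ∧ P b := by
          rcases hb with h | h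
          · exact absurd h hbW
          · exact h
        obtain ⟨w, hw, h1, h2⟩ := hb'.2.2 a ha'.1 haW hab
        exact ((hr2' a w hw h1).trans h2).trans (hmr b))
  have hτW : ∀ w ∈ W, τ w = w := fun w hw => by
    have h1 := hτ w (Finset.mem_union_left _ hw)
    simp only [hw, if_true] at h1
    exact h1
  refine ⟨τ, hτW, ?_⟩
  intro x hx hxW y hy hyW n hn heq
  -- the least element of the gap of `x`
  let G : Finset ℚ := F.filter (fun z => z ∉ W ∧ z ≤ x ∧ ∀ w ∈ W, z < w → x < w)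
  have hGx : x ∈ G := by
    rw [Finset.mem_filter]
    exact ⟨hx, hxW, le_rfl, fun w _ h => h⟩
  obtain ⟨m, hm⟩ : ∃ m, m = G.min' ⟨x, hGx⟩ := ⟨_, rfl⟩
  have hmG : m ∈ G := by
    rw [hm]
    exact Finset.min'_mem _ _
  have hmin : ∀ z ∈ G, m ≤ z := fun z hz => by
    rw [hm]
    exact Finset.min'_le _ _ hz
  have hmG' := (Finset.mem_filter.1 hmG)
  obtain ⟨hmF, hmW, hmx, hmgap⟩ := hmG'
  have hPm : P m := by
    refine ⟨hmW, fun z hz hzW hzm => ?_⟩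
    by_contra hno
    push Not at hno
    have hzG : z ∈ G := by
      rw [Finset.mem_filter]
      refine ⟨hz, hzW, hzm.le.trans hmx, fun w hw hzw => ?_⟩
      have h1 := hno w hw hzw
      have h2 : m ≠ w := fun e => hmW (e ▸ hw)
      exact hmgap w hw (lt_of_le_of_ne h1 h2)
    exact absurd (hmin z hzG) (not_le.2 hzm)
  have hτm : τ m = r m := by
    have h1 := hτ m (Finset.mem_union_right _ (Finset.mem_filter.2 ⟨hmF, hPm⟩))
    simp only [hmW, if_false] at h1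
    exact h1
  obtain ⟨k, rfl⟩ : ∃ k, n = k + 1 := ⟨n - 1, by omega⟩
  have h1 : r m ≤ (τ ^ (k + 1)) m := by
    rw [← hτm]
    exact pow_ge_pt τ m (by rw [hτm]; exact hmr m) k
  have h2 : (τ ^ (k + 1)) m ≤ (τ ^ (k + 1)) x := (τ ^ (k + 1)).monotone hmx
  have h3 : y < r m := by
    apply hr1' m y hy
    intro w hw hmw
    have h4 : x < w := hmgap w hw hmw
    have h5 : (τ ^ (k + 1)) x < (τ ^ (k + 1)) w := (τ ^ (k + 1)).strictMono h4
    rwa [heq, pow_fix_pt τ w (hτW w hw)] at h5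
  rw [heq] at h2
  exact absurd h3 (not_lt.2 (h1.trans h2))

theorem lab_iff_supp {A : Type} [Group A] (φ : (ℚ ≃o ℚ) →* A) (V : Subgroup A) (W : Finset ℚ) :
    letI : MulAction (ℚ ≃o ℚ) (A ⧸ V) := MulAction.compHom (A ⧸ V) φ
    IsSupp W ((1 : A) : A ⧸ V) ↔ Lab φ W V := by
  letI : MulAction (ℚ ≃o ℚ) (A ⧸ V) := MulAction.compHom (A ⧸ V) φ
  have key : ∀ σ : ℚ ≃o ℚ, σ • ((1 : A) : A ⧸ V) = ((1 : A) : A ⧸ V) ↔ φ σ ∈ V := by
    intro σ
    have h1 : σ • ((1 : A) : A ⧸ V) = ((φ σ * 1 : A) : A ⧸ V) := rfl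
    rw [h1, mul_one, QuotientGroup.eq, mul_one, inv_mem_iff]
  exact ⟨fun h σ hσ => (key σ).1 (h σ hσ), fun h σ hσ => (key σ).2 (h σ hσ)⟩

theorem lab_inter {A : Type} [Group A] {φ : (ℚ ≃o ℚ) →* A} {V : Subgroup A} {W W' : Finset ℚ}
    (h : Lab φ W V) (h' : Lab φ W' V) : Lab φ (W ∩ W') V := by
  letI : MulAction (ℚ ≃o ℚ) (A ⧸ V) := MulAction.compHom (A ⧸ V) φ
  exact (lab_iff_supp φ V _).1 (IsSupp.inter ((lab_iff_supp φ V _).2 h) ((lab_iff_supp φ V _).2 h'))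

theorem lab_of_fin {A : Type} [Group A] {φ : (ℚ ≃o ℚ) →* A} {V E₀ : Subgroup A} {Y Y' : Finset ℚ}
    (h : Lab φ Y V) (h' : Lab φ Y' E₀) (T : Finset A) (hT : ∀ x ∈ V, ∃ t ∈ T, t⁻¹ * x ∈ E₀) :
    Lab φ Y E₀ := by
  classical
  have h'' : Lab φ (Y' ∪ Y) E₀ := h'.mono Finset.subset_union_left le_rfl
  obtain ⟨τ, hτY, hτ⟩ := exists_shift Y (Y' ∪ Y)
  have hV : ∀ i : ℕ, φ (τ ^ i) ∈ V := fun i => h _ (fun q hq => pow_fix_pt τ q (hτY q hq) i)
  choose t ht htE using fun i : ℕ => hT _ (hV i)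
  obtain ⟨i, j, hij, hteq⟩ : ∃ i j : ℕ, i < j ∧ t i = t j := by
    obtain ⟨i, j, hne, heq⟩ := Finite.exists_ne_map_eq_of_infinite
      (fun i : ℕ => (⟨t i, ht i⟩ : {a // a ∈ T}))
    have heq' : t i = t j := congrArg Subtype.val heq
    rcases lt_or_gt_of_ne hne with h1 | h1
    · exact ⟨i, j, h1, heq'⟩
    · exact ⟨j, i, h1, heq'.symm⟩
  obtain ⟨d, hd, rfl⟩ : ∃ d, 1 ≤ d ∧ j = i + d := ⟨j - i, by omega, by omega⟩
  have hE : φ (τ ^ d) ∈ E₀ := by
    have h1 := E₀.mul_mem (E₀.inv_mem (htE i)) (htE (i + d))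
    rw [← hteq, pow_add, map_mul] at h1
    have h2 : ((t i)⁻¹ * φ (τ ^ i))⁻¹ * ((t i)⁻¹ * (φ (τ ^ i) * φ (τ ^ d))) = φ (τ ^ d) := by
      group
    rwa [h2] at h1
  have h3 : Lab φ ((Y' ∪ Y).image (τ ^ d)) E₀ := by
    intro σ hσ
    have h4 : φ ((τ ^ d)⁻¹ * σ * τ ^ d) ∈ E₀ := by
      apply h''
      intro q hq
      show (τ ^ d)⁻¹ (σ ((τ ^ d) q)) = q
      rw [hσ _ (Finset.mem_image_of_mem _ hq)]
      exact (τ ^ d).symm_apply_apply q
    rw [map_mul, map_mul, map_inv] at h4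
    have h5 := E₀.mul_mem (E₀.mul_mem hE h4) (E₀.inv_mem hE)
    have h6 : φ (τ ^ d) * ((φ (τ ^ d))⁻¹ * φ σ * φ (τ ^ d)) * (φ (τ ^ d))⁻¹ = φ σ := by group
    rwa [h6] at h5
  refine (lab_inter h'' h3).mono ?_ le_rfl
  intro y hy
  rw [Finset.mem_inter, Finset.mem_image] at hy
  obtain ⟨hyF, x, hx, hxy⟩ := hy
  by_contra hyY
  by_cases hxY : x ∈ Y
  · apply hyY
    rw [← hxy, pow_fix_pt τ x (hτY x hxY)]
    exact hxY
  · exact hτ x hx hxY y hyF hyY d hd hxy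

end Pool.Agent.Helper596_Q
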