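import Mathlib
import Pool.Agent.Helper596_Q.LDefs
import Pool.Agent.Helper596_Q.Ext
import Pool.Agent.Helper596_Q.L1
import Pool.Agent.Helper596_Q.L4a

/-!
# Independence over common labels
-/

set_option autoImplicit false

namespace Pool.Agent.Helper596_Q


theorem ind_star_cj_biInf {A : Type} [Group A] (g : A) (J : Finset ℕ) (V : ℕ → Subgroup A) :
    cj g (⨅ j ∈ J, V j) = ⨅ j ∈ J, cj g (V j) := by
  ext x
  rw [mem_cj]
  simp only [Subgroup.mem_iInf, mem_cj]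

theorem ind_star {A : Type} [Group A] (R : RSys A) (hS : Stab R.toOSys) (φ : (ℚ ≃o ℚ) →* A)
    (hφ : ∀ V, R.Opn V → ∃ W, Lab φ W V) (E : Finset ℚ → Subgroup A) (hE : Lst R.toOSys φ E)
    {P Q : Subgroup A} {W₁ W₂ : Finset ℚ} (hP : R.Opn P) (hQ : R.Opn Q) (h1 : Lab φ W₁ P)
    (h2 : Lab φ W₂ Q) : Ind R.r P Q (E (W₁ ∩ W₂)) := by
  classical
  obtain ⟨hB, hBl, hBmin⟩ := hE (W₁ ∩ W₂)
  set W₀ : Finset ℚ := W₁ ∩ W₂ with hW₀
  set B : Subgroup A := E W₀ with hBdef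
  obtain ⟨τ, hτ1, hτ2⟩ := exists_shift W₀ (W₁ ∪ W₂)
  have hW01 : W₀ ⊆ W₁ := Finset.inter_subset_left
  have hW02 : W₀ ⊆ W₂ := Finset.inter_subset_right
  -- powers of τ fix W₀
  have hfix : ∀ n : ℕ, ∀ w ∈ W₀, (τ ^ n) w = w := by
    intro n
    induction n with
    | zero => intro w _; rfl
    | succ n ih =>
      intro w hw
      rw [pow_succ]
      show (τ ^ n) (τ w) = w
      rw [hτ1 w hw, ih w hw]
  have hadd : ∀ (a b : ℕ) (z : ℚ), (τ ^ (a + b)) z = (τ ^ a) ((τ ^ b) z) := by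
    intro a b z
    rw [pow_add]; rfl
  have hinj : ∀ (a : ℕ), Function.Injective (τ ^ a : ℚ ≃o ℚ) := fun a => (τ ^ a : ℚ ≃o ℚ).injective
  -- a shifted point outside `W₀` never meets `F`
  have hshift : ∀ x ∈ W₂, x ∉ W₀ → ∀ y ∈ W₁ ∪ W₂, ∀ n : ℕ, 1 ≤ n → (τ ^ n) x ≠ y := by
    intro x hx hx0 y hy n hn he
    by_cases hy0 : y ∈ W₀
    · have : (τ ^ n) x = (τ ^ n) y := by rw [he, hfix n y hy0]
      exact hx0 ((hinj n this) ▸ hy0)
    · exact hτ2 x (Finset.mem_union_right _ hx) hx0 y hy hy0 n hn he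
  set Qt : ℕ → Subgroup A := fun t => cj (φ (τ ^ t)) Q with hQt
  have hQtO : ∀ t, R.Opn (Qt t) := fun t => R.opn_cj _ hQ
  set X : ℕ → Subgroup A := fun n => B ⊓ ⨅ t ∈ Finset.Icc 1 n, Qt t with hX
  set X' : ℕ → Subgroup A := fun n => B ⊓ ⨅ t ∈ Finset.Icc (n + 1) (2 * n), Qt t with hX'
  set Y : ℕ → Finset ℚ := fun n => W₀ ∪ (Finset.Icc 1 n).biUnion (fun t => W₂.image (τ ^ t : ℚ ≃o ℚ)) with hY
  have hXO : ∀ n, R.Opn (X n) := fun n => R.opn_inf hB (R.toOSys.opn_biInf _ _ (fun t _ => hQtO t))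
  have hX'O : ∀ n, R.Opn (X' n) := fun n => R.opn_inf hB (R.toOSys.opn_biInf _ _ (fun t _ => hQtO t))
  have hXl : ∀ n, Lab φ (Y n) (X n) := by
    intro n
    intro σ hσ
    simp only [hX, Subgroup.mem_inf, Subgroup.mem_iInf]
    refine ⟨hBl σ (fun q hq => hσ q (Finset.mem_union_left _ hq)), ?_⟩
    intro t ht
    apply h2.cj (τ ^ t) σ
    intro q hq
    exact hσ q (Finset.mem_union_right _ (Finset.mem_biUnion.2 ⟨t, ht, hq⟩))
  have hφB : ∀ n : ℕ, φ (τ ^ n) ∈ B := fun n => hBl _ (hfix n)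
  have hX'eq : ∀ n, X' n = cj (φ (τ ^ n)) (X n) := by
    intro n
    simp only [hX, hX']
    rw [cj_inf, cj_of_mem (hφB n), ind_star_cj_biInf]
    congr 1
    ext x
    simp only [Subgroup.mem_iInf, Finset.mem_Icc, hQt]
    constructor
    · intro h t ht
      rw [← cj_mul, ← map_mul, ← pow_add]
      exact h (n + t) ⟨by omega, by omega⟩
    · intro h t ht
      have := h (t - n) ⟨by omega, by omega⟩
      rw [← cj_mul, ← map_mul, ← pow_add] at this
      have e : n + (t - n) = t := by omega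
      rwa [e] at this
  have hX'l : ∀ n, Lab φ ((Y n).image (τ ^ n : ℚ ≃o ℚ)) (X' n) := by
    intro n
    rw [hX'eq n]
    exact (hXl n).cj (τ ^ n)
  have hXanti : ∀ m n, m ≤ n → X n ≤ X m := by
    intro m n hmn
    simp only [hX]
    apply inf_le_inf_left
    intro x hx
    simp only [Subgroup.mem_iInf, Finset.mem_Icc] at hx ⊢
    intro t ht
    exact hx t ⟨ht.1, by omega⟩
  have hX2 : ∀ n, X (2 * n) = X' n ⊓ X n := by
    intro n
    simp only [hX, hX']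
    ext x
    simp only [Subgroup.mem_inf, Subgroup.mem_iInf, Finset.mem_Icc]
    constructor
    · rintro ⟨h3, h4⟩
      exact ⟨⟨h3, fun t ht => h4 t ⟨by omega, by omega⟩⟩, ⟨h3, fun t ht => h4 t ⟨by omega, by omega⟩⟩⟩
    · rintro ⟨⟨h3, h4⟩, ⟨_, h5⟩⟩
      refine ⟨h3, fun t ht => ?_⟩
      by_cases h6 : t ≤ n
      · exact h5 t ⟨by omega, h6⟩
      · exact h4 t ⟨by omega, by omega⟩
  -- the relative rank decreases
  have hrel : ∀ Z Z' : Subgroup A, R.Opn Z → R.Opn Z' → Z' ≤ Z →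
      R.r (P ⊓ Z') + R.r Z ≤ R.r (P ⊓ Z) + R.r Z' := by
    intro Z Z' hZ hZ' hle
    have h3 := R.r_sub hP hZ' hZ
    rw [inf_assoc, inf_eq_left.2 hle] at h3
    exact h3
  have hnn : ∀ Z : Subgroup A, R.Opn Z → R.r Z ≤ R.r (P ⊓ Z) := fun Z hZ =>
    R.r_mono (R.opn_inf hP hZ) hZ inf_le_right
  obtain ⟨n, hn1, hn⟩ : ∃ n : ℕ, 1 ≤ n ∧ R.r (P ⊓ X (2 * n)) + R.r (X n) =
      R.r (P ⊓ X n) + R.r (X (2 * n)) := by
    by_contra hcon
    push Not at hcon
    have hdec : ∀ k : ℕ, ∃ n : ℕ, 1 ≤ n ∧ R.r (P ⊓ X n) - R.r (X n) + k ≤ R.r (P ⊓ X 1) - R.r (X 1) := by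
      intro k
      induction k with
      | zero => exact ⟨1, le_rfl, by omega⟩
      | succ k ih =>
        obtain ⟨n, hn, hk⟩ := ih
        refine ⟨2 * n, by omega, ?_⟩
        have h3 := hrel (X n) (X (2 * n)) (hXO _) (hXO _) (hXanti n (2 * n) (by omega))
        have h4 := hcon n hn
        have h5 := hnn (X n) (hXO n)
        have h6 := hnn (X (2 * n)) (hXO _)
        omega
    obtain ⟨n, hn, hk⟩ := hdec (R.r (P ⊓ X 1) - R.r (X 1) + 1)
    omega
  -- swapping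
  have hPB : Lab φ W₁ (P ⊓ B) := h1.inf (hBl.mono hW01 le_rfl)
  have hPBO : R.Opn (P ⊓ B) := R.opn_inf hP hB
  obtain ⟨p, hp, x, hx, hpx⟩ := swap_open R.toOSys hS φ hPBO (hXO n) hPB (hXl n) 1 (τ ^ n) (by
    intro w hw w' hw'
    show w = (τ ^ n) w' ↔ w = w'
    rcases Finset.mem_union.1 hw' with h3 | h3
    · rw [hfix n w' h3]
    · obtain ⟨t, ht, h4⟩ := Finset.mem_biUnion.1 h3
      obtain ⟨z, hz, rfl⟩ := Finset.mem_image.1 h4
      rw [Finset.mem_Icc] at ht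
      by_cases hz0 : z ∈ W₀
      · rw [hfix t z hz0, hfix n z hz0]
      · rw [← hadd]
        constructor
        · intro h5
          exact absurd h5.symm (hshift z hz hz0 w (Finset.mem_union_left _ hw) _ (by omega))
        · intro h5
          exact absurd h5.symm (hshift z hz hz0 w (Finset.mem_union_left _ hw) _ (by omega)))
  rw [map_one, inv_one, one_mul] at hpx
  have hX'p : X' n = cj p (X n) := by
    rw [hX'eq, hpx, cj_mul, cj_of_mem hx]
  have hPp : cj p P = P := cj_of_mem hp.1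
  have hr1 : R.r (P ⊓ X' n) = R.r (P ⊓ X n) := by
    have : P ⊓ X' n = cj p (P ⊓ X n) := by rw [cj_inf, hPp, hX'p]
    rw [this, R.r_cj _ _ (R.opn_inf hP (hXO n))]
  have hr2 : R.r (X' n) = R.r (X n) := by rw [hX'p, R.r_cj _ _ (hXO n)]
  have hI1 : Ind R.r P (X' n) (X n) := by
    unfold Ind
    rw [inf_assoc, ← hX2, hn]
  have hI2 : Ind R.r P (X n) (X' n) := by
    unfold Ind
    rw [inf_assoc, inf_comm (X n) (X' n), ← hX2, hr1, hr2, hn]
  obtain ⟨E₀, hE₀, hE1, hE2, hE3⟩ := R.r_cb hP (hXO n) (hX'O n) hI1 hI2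
  obtain ⟨Y', hY'⟩ := hφ E₀ hE₀
  have hL1 : Lab φ (Y n) E₀ := by
    obtain ⟨T, hT⟩ := R.r_fin (R.opn_inf hE₀ (hXO n)) (hXO n) inf_le_right hE1
    exact lab_of_fin (hXl n) hY' T (fun w hw => by
      obtain ⟨t, ht, h3⟩ := hT w hw
      exact ⟨t, ht, h3.1⟩)
  have hL2 : Lab φ ((Y n).image (τ ^ n : ℚ ≃o ℚ)) E₀ := by
    obtain ⟨T, hT⟩ := R.r_fin (R.opn_inf hE₀ (hX'O n)) (hX'O n) inf_le_right hE2
    exact lab_of_fin (hX'l n) hY' T (fun w hw => by
      obtain ⟨t, ht, h3⟩ := hT w hw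
      exact ⟨t, ht, h3.1⟩)
  have hYY : Y n ∩ (Y n).image (τ ^ n : ℚ ≃o ℚ) ⊆ W₀ := by
    intro u hu
    rw [Finset.mem_inter] at hu
    obtain ⟨hu1, hu2⟩ := hu
    obtain ⟨v, hv, rfl⟩ := Finset.mem_image.1 hu2
    rcases Finset.mem_union.1 hv with h3 | h3
    · rw [hfix n v h3]; exact h3
    · obtain ⟨s, hs, h4⟩ := Finset.mem_biUnion.1 h3
      obtain ⟨z', hz', rfl⟩ := Finset.mem_image.1 h4
      rw [Finset.mem_Icc] at hs
      by_cases hz0 : z' ∈ W₀
      · rw [hfix s z' hz0, hfix n z' hz0]; exact hz0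
      · exfalso
        rw [← hadd] at hu1
        rcases Finset.mem_union.1 hu1 with h5 | h5
        · exact hshift z' hz' hz0 _ (Finset.mem_union_left _ (hW01 h5)) (n + s) (by omega) rfl
        · obtain ⟨t, ht, h6⟩ := Finset.mem_biUnion.1 h5
          obtain ⟨z, hz, h7⟩ := Finset.mem_image.1 h6
          rw [Finset.mem_Icc] at ht
          have e : n + s = t + (n + s - t) := by omega
          rw [e, hadd] at h7
          exact hshift z' hz' hz0 z (Finset.mem_union_right _ hz) (n + s - t) (by omega) (hinj t h7).symm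
  have hBE : B ≤ E₀ := hBmin E₀ hE₀ ((lab_inter hL1 hL2).mono hYY le_rfl)
  have hXB : X n ≤ B := inf_le_left
  have hXQ : X n ≤ Qt 1 ⊓ B := by
    refine le_inf ?_ hXB
    intro y hy
    simp only [hX, Subgroup.mem_inf, Subgroup.mem_iInf, Finset.mem_Icc] at hy
    exact hy.2 1 ⟨le_rfl, hn1⟩
  have hQBO : R.Opn (Qt 1 ⊓ B) := R.opn_inf (hQtO 1) hB
  have g1 := hrel E₀ B hE₀ hB hBE
  have g2 := hrel B (Qt 1 ⊓ B) hB hQBO inf_le_right
  have g3 := hrel (Qt 1 ⊓ B) (X n) hQBO (hXO n) hXQ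
  have hI : Ind R.r P (Qt 1) B := by
    unfold Ind
    rw [inf_assoc]
    omega
  -- swapping back
  obtain ⟨p', hp', q, hq, hpq⟩ := swap_open R.toOSys hS φ hPBO hQ hPB h2 1 τ (by
    intro w hw w' hw'
    show w = τ w' ↔ w = w'
    by_cases hz0 : w' ∈ W₀
    · rw [hτ1 w' hz0]
    · constructor
      · intro h5
        have h6 := hshift w' hw' hz0 w (Finset.mem_union_left _ hw) 1 le_rfl
        rw [pow_one] at h6
        exact absurd h5.symm h6
      · intro h5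
        exact absurd (Finset.mem_inter.2 ⟨h5 ▸ hw, hw'⟩) hz0)
  rw [map_one, inv_one, one_mul] at hpq
  have hQ1 : Qt 1 = cj p' Q := by
    simp only [hQt, pow_one]
    rw [hpq, cj_mul, cj_of_mem hq]
  have hPp' : cj p' P = P := cj_of_mem hp'.1
  have hBp' : cj p' B = B := cj_of_mem hp'.2
  rw [← Ind.cj hP hQ hB p', hPp', hBp', ← hQ1]
  exact hI

end Pool.Agent.Helper596_Q
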