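import Mathlib
import Pool.Agent.Helper596_Q.LDefs
import Pool.Agent.Helper596_Q.Ext
import Pool.Agent.Helper596_Q.L1
import Pool.Agent.Helper596_Q.L4a
import Pool.Agent.Helper596_Q.L4b

/-!
# No large minimal dependent families
-/

set_option autoImplicit false

namespace Pool.Agent.Helper596_Q


/-! helper lemmas -/

theorem no_large_circ_cj_biInf {A : Type} [Group A] (g : A) {ι : Type} (J : Finset ι)
    (V : ι → Subgroup A) : cj g (⨅ j ∈ J, V j) = ⨅ j ∈ J, cj g (V j) := by
  ext x
  simp only [mem_cj, Subgroup.mem_iInf]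

theorem no_large_circ_indS_cj {A : Type} [Group A] (R : RSys A) {C : Subgroup A} (hC : R.Opn C)
    {g : A} (hg : g ∈ C) {ι : Type} (V : ι → Subgroup A) (hV : ∀ j, R.Opn (V j)) (J : Finset ι) :
    IndS R C (fun j => cj g (V j)) J ↔ IndS R C V J := by
  have key : ∀ X, R.Opn X → R.r (C ⊓ cj g X) = R.r (C ⊓ X) := by
    intro X hX
    have h1 : C ⊓ cj g X = cj g (C ⊓ X) := by rw [cj_inf, cj_of_mem hg]
    rw [h1, R.r_cj g _ (R.opn_inf hC hX)]
  unfold IndS
  rw [← no_large_circ_cj_biInf, key _ (R.opn_biInf J V (fun j _ => hV j)),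
    Finset.sum_congr rfl (fun j _ => by rw [key _ (hV j)])]

theorem no_large_circ_ind_of_indS {A : Type} [Group A] (R : RSys A) {C : Subgroup A}
    {ι : Type} [DecidableEq ι] (V : ι → Subgroup A) {J : Finset ι} {a : ι} (ha : a ∉ J)
    (h1 : IndS R C V J) (h2 : IndS R C V (insert a J)) :
    Ind R.r (V a) (⨅ j ∈ J, V j) C := by
  unfold IndS at h1 h2
  rw [Finset.iInf_insert, Finset.sum_insert ha, ← h1] at h2
  unfold Ind
  rw [inf_comm (V a ⊓ _) C, inf_comm (V a) C, inf_comm (⨅ j ∈ J, V j) C]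
  omega

theorem no_large_circ_indS_of_ind {A : Type} [Group A] (R : RSys A) {C : Subgroup A}
    {ι : Type} [DecidableEq ι] (V : ι → Subgroup A) {J : Finset ι} {a : ι} (ha : a ∉ J)
    (h1 : IndS R C V J) (h2 : Ind R.r (V a) (⨅ j ∈ J, V j) C) : IndS R C V (insert a J) := by
  unfold IndS at h1 ⊢
  rw [Finset.iInf_insert, Finset.sum_insert ha, ← h1]
  unfold Ind at h2
  rw [inf_comm (V a ⊓ _) C, inf_comm (V a) C, inf_comm (⨅ j ∈ J, V j) C] at h2
  omega

/-- Independence over `B` passes to `C` if the whole family is independent of `C` over `B`. -/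
theorem no_large_circ_indS_base {A : Type} [Group A] (R : RSys A) {B C : Subgroup A}
    (hB : R.Opn B) (hC : R.Opn C) (hCB : C ≤ B) {m : ℕ} (V : Fin m → Subgroup A)
    (hV : ∀ j, R.Opn (V j)) (h : Ind R.r (⨅ j ∈ (Finset.univ : Finset (Fin m)), V j) C B)
    (J : Finset (Fin m)) : IndS R C V J ↔ IndS R B V J := by
  have hI : R.Opn (⨅ j ∈ (Finset.univ : Finset (Fin m)), V j) :=
    R.opn_biInf _ V (fun j _ => hV j)
  have key : ∀ X, R.Opn X → (⨅ j ∈ (Finset.univ : Finset (Fin m)), V j) ≤ X →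
      (R.r (C ⊓ X) : ℤ) - R.r C = R.r (B ⊓ X) - R.r B := by
    intro X hX hIX
    have h1 := R.r_sub hX hC hB
    have h2 := R.r_sub hI hC (R.opn_inf hX hB)
    unfold Ind at h
    set I := ⨅ j ∈ (Finset.univ : Finset (Fin m)), V j with hIdef
    have e1 : I ⊓ C ⊓ B = I ⊓ C := inf_eq_left.2 (inf_le_right.trans hCB)
    have e2 : C ⊓ B = C := inf_eq_left.2 hCB
    have e3 : X ⊓ C ⊓ B = C ⊓ X := by
      rw [inf_assoc, e2, inf_comm]
    have e4 : I ⊓ C ⊓ (X ⊓ B) = I ⊓ C :=
      inf_eq_left.2 (le_inf (inf_le_left.trans hIX) (inf_le_right.trans hCB))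
    have e5 : I ⊓ (X ⊓ B) = I ⊓ B := by
      rw [← inf_assoc, inf_eq_left.2 hIX]
    have e6 : C ⊓ (X ⊓ B) = C ⊓ X := by
      rw [inf_comm X B, ← inf_assoc, e2]
    rw [e1, e2] at h
    rw [e3, e2, inf_comm X B] at h1
    rw [e4, e5, e6, inf_comm X B] at h2
    omega
  unfold IndS
  rw [key _ (R.opn_biInf J V (fun j _ => hV j)) (by
    refine le_iInf fun j => le_iInf fun _ => ?_
    exact (iInf_le _ j).trans (iInf_le _ (Finset.mem_univ j))),
    Finset.sum_congr rfl (fun j _ => key _ (hV j)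
      ((iInf_le _ j).trans (iInf_le _ (Finset.mem_univ j))))]


theorem st_star {A : Type} [Group A] (R : RSys A) (φ : (ℚ ≃o ℚ) →* A)
    (hφ : ∀ V, R.Opn V → ∃ W, Lab φ W V) (E : Finset ℚ → Subgroup A) (hE : Lst R.toOSys φ E)
    (W : Finset ℚ) {V : Subgroup A} (hV : R.Opn V) : St R.toOSys R.r (E W) V := by
  obtain ⟨W', hle, hop, hr, hst⟩ := R.r_stat hV (hE W).1
  obtain ⟨T, hT⟩ := R.r_fin hop (hE W).1 hle hr
  obtain ⟨Y', hY'⟩ := hφ W' hop
  have hL : Lab φ W W' := lab_of_fin (hE W).2.1 hY' T hT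
  have h2 : E W ≤ W' := (hE W).2.2 W' hop hL
  have h3 : W' = E W := le_antisymm hle h2
  rw [h3] at hst
  exact hst

/-- The induction in the proof of `no_large_circ`. -/
theorem no_large_circ_claim {A : Type} [Group A] (R : RSys A) (hS : Stab R.toOSys)
    (φ : (ℚ ≃o ℚ) →* A) (hφ : ∀ V, R.Opn V → ∃ W, Lab φ W V) (E : Finset ℚ → Subgroup A)
    (hE : Lst R.toOSys φ E) (W : Finset ℚ) (n : ℕ) (k : ℕ) (hk : k ≤ n) :
    ∀ V : Fin (n + 1) → Subgroup A, (∀ j, R.Opn (V j)) →
      (∀ J : Finset (Fin (n + 1)), J ≠ Finset.univ → IndS R (E W) V J) →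
      ∃ g ∈ E W, ∃ Y : Fin (n + 1) → Finset ℚ,
        (∀ j, j.val < k → W ⊆ Y j ∧ Lab φ (Y j) (cj g (V j))) ∧
        ∀ i j, i.val < k → j.val < k → i ≠ j → Y i ∩ Y j ⊆ W := by
  classical
  induction k with
  | zero =>
    intro V _ _
    exact ⟨1, (E W).one_mem, fun _ => ∅, fun j hj => absurd hj (by omega),
      fun i j hi => absurd hi (by omega)⟩
  | succ k ih =>
    intro V₀ hV₀ hI₀
    obtain ⟨g, hg, Y, hY1, hY2⟩ := ih (by omega) V₀ hV₀ hI₀
    have hCo : R.Opn (E W) := (hE W).1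
    -- the conjugated family
    set V : Fin (n + 1) → Subgroup A := fun j => cj g (V₀ j) with hVdef
    have hV : ∀ j, R.Opn (V j) := fun j => R.opn_cj g (hV₀ j)
    have hI : ∀ J : Finset (Fin (n + 1)), J ≠ Finset.univ → IndS R (E W) V J := fun J hJ =>
      (no_large_circ_indS_cj R hCo hg V₀ hV₀ J).2 (hI₀ J hJ)
    let a : Fin (n + 1) := ⟨k, by omega⟩
    let J : Finset (Fin (n + 1)) := Finset.univ.filter fun j => j.val < k
    have haJ : a ∉ J := by simp [J, a]
    have hlast : Fin.last n ∉ insert a J := by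
      simp only [Finset.mem_insert, J, Finset.mem_filter, Finset.mem_univ, true_and, not_or, a]
      constructor
      · intro h
        have := congrArg Fin.val h
        simp at this
        omega
      · simp
        omega
    have hJu : J ≠ Finset.univ := by
      intro h
      apply haJ
      rw [h]
      exact Finset.mem_univ _
    have hJu' : insert a J ≠ Finset.univ := by
      intro h
      apply hlast
      rw [h]
      exact Finset.mem_univ _
    have hind : Ind R.r (V a) (⨅ j ∈ J, V j) (E W) :=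
      no_large_circ_ind_of_indS R V haJ (hI J hJu) (hI _ hJu')
    set P := ⨅ j ∈ J, V j with hP
    have hPo : R.Opn P := R.opn_biInf J V (fun j _ => hV j)
    have hPle : ∀ j, j.val < k → P ≤ V j := by
      intro j hj
      exact (iInf_le _ j).trans (iInf_le _ (by simp [J, hj]))
    obtain ⟨Y0, hY0⟩ := hφ (V a) (hV a)
    let YY : Finset ℚ := W ∪ J.biUnion Y
    let Y' : Finset ℚ := W ∪ Y0
    have hWY' : W ⊆ Y' := Finset.subset_union_left
    have hWYY : W ⊆ YY := Finset.subset_union_left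
    have hLP : Lab φ YY P := by
      intro σ hσ
      rw [hP]
      simp only [Subgroup.mem_iInf]
      intro j hj
      have hjk : j.val < k := by simpa [J] using hj
      apply (hY1 j hjk).2 σ
      intro q hq
      exact hσ q (Finset.mem_union_right _ (Finset.mem_biUnion.2 ⟨j, hj, hq⟩))
    have hLa : Lab φ Y' (V a) := hY0.mono Finset.subset_union_right le_rfl
    obtain ⟨τ, hτ1, hτ2⟩ := exists_shift W (YY ∪ Y')
    have hLV' : Lab φ (Y'.image τ) (cj (φ τ) (V a)) := hLa.cj τ
    have hWim : W ⊆ Y'.image τ := by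
      intro w hw
      exact Finset.mem_image.2 ⟨w, hWY' hw, hτ1 w hw⟩
    have hint : Y'.image τ ∩ YY = W := by
      apply Finset.Subset.antisymm
      · intro y hy
        obtain ⟨hy1, hy2⟩ := Finset.mem_inter.1 hy
        obtain ⟨x, hx, rfl⟩ := Finset.mem_image.1 hy1
        by_contra hyW
        have hxW : x ∉ W := by
          intro hxW
          rw [hτ1 x hxW] at hyW
          exact hyW hxW
        have := hτ2 x (Finset.mem_union_right _ hx) hxW (τ x) (Finset.mem_union_left _ hy2) hyW 1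
          le_rfl
        rw [pow_one] at this
        exact this rfl
      · exact Finset.subset_inter hWim hWYY
    have hindV' : Ind R.r (cj (φ τ) (V a)) P (E W) := by
      have := ind_star R hS φ hφ E hE (R.opn_cj (φ τ) (hV a)) hPo hLV' hLP
      rwa [hint] at this
    have hτC : φ τ ∈ E W := (hE W).2.1 τ hτ1
    have conv : ∀ X, Ind R.r X P (E W) → Ind R.r X (P ⊓ E W) (E W) := by
      intro X hX
      unfold Ind at hX ⊢
      have e1 : X ⊓ (P ⊓ E W) ⊓ E W = X ⊓ P ⊓ E W := by
        rw [← inf_assoc, inf_assoc (X ⊓ P), inf_idem]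
      have e2 : P ⊓ E W ⊓ E W = P ⊓ E W := by rw [inf_assoc, inf_idem]
      rw [e1, e2]
      exact hX
    obtain ⟨q, hq, hq2⟩ := st_star R φ hφ E hE W (hV a) (P ⊓ E W) (R.opn_inf hPo hCo) inf_le_right
      1 (E W).one_mem (φ τ) hτC (by rw [cj_one]; exact conv _ hind) (conv _ hindV')
    have hq3 : q⁻¹ * φ τ ∈ V a := by simpa using hq2
    have hq4 : cj q (V a) = cj (φ τ) (V a) := cj_congr hq3
    have hqP : q ∈ P := (Subgroup.mem_inf.1 hq).1
    have hqC : q ∈ E W := (Subgroup.mem_inf.1 hq).2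
    refine ⟨q * g, (E W).mul_mem hqC hg, Function.update Y a (Y'.image τ), ?_, ?_⟩
    · intro j hj
      rw [cj_mul]
      change W ⊆ _ ∧ Lab φ _ (cj q (V j))
      by_cases hja : j = a
      · subst hja
        rw [Function.update_self, hq4]
        exact ⟨hWim, hLV'⟩
      · rw [Function.update_of_ne hja]
        have hjk : j.val < k := by
          have : j.val ≠ k := fun h => hja (Fin.ext h)
          omega
        rw [cj_of_mem (hPle j hjk hqP)]
        exact hY1 j hjk
    · have hmix : ∀ j : Fin (n + 1), j.val < k → Y'.image τ ∩ Y j ⊆ W := by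
        intro j hj x hx
        obtain ⟨hx1, hx2⟩ := Finset.mem_inter.1 hx
        rw [← hint]
        refine Finset.mem_inter.2 ⟨hx1, Finset.mem_union_right _ (Finset.mem_biUnion.2 ⟨j, ?_, hx2⟩)⟩
        simp [J, hj]
      intro i j hi hj hij
      by_cases hia : i = a
      · by_cases hja : j = a
        · exact absurd (hia.trans hja.symm) hij
        · have hjk : j.val < k := by
            have : j.val ≠ k := fun h => hja (Fin.ext h)
            omega
          rw [hia, Function.update_self, Function.update_of_ne hja]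
          exact hmix j hjk
      · have hik : i.val < k := by
          have : i.val ≠ k := fun h => hia (Fin.ext h)
          omega
        by_cases hja : j = a
        · rw [hja, Function.update_self, Function.update_of_ne hia, Finset.inter_comm]
          exact hmix i hik
        · have hjk : j.val < k := by
            have : j.val ≠ k := fun h => hja (Fin.ext h)
            omega
          rw [Function.update_of_ne hia, Function.update_of_ne hja]
          exact hY2 i j hik hjk hij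

theorem no_large_circ {A : Type} [Group A] (R : RSys A) (hS : Stab R.toOSys)
    (φ : (ℚ ≃o ℚ) →* A) (hφ : ∀ V, R.Opn V → ∃ W, Lab φ W V) (E : Finset ℚ → Subgroup A)
    (hE : Lst R.toOSys φ E) (p : Subgroup A → Prop) (κ m : ℕ)
    (hp : ∀ V, p V → ∀ g : A, ∃ W : Finset ℚ, W.card ≤ κ ∧ Lab φ W (cj g V))
    (hm : κ + 2 ≤ m) : ¬ CircP R p m := by
  classical
  rintro ⟨B, V₀, hB, hV₀, hprop₀, hfull₀⟩
  obtain ⟨n, rfl⟩ : ∃ n, m = n + 1 := ⟨m - 1, by omega⟩
  obtain ⟨W, hW⟩ := hφ B hB
  have hCo : R.Opn (E W) := (hE W).1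
  have hCB : E W ≤ B := (hE W).2.2 B hB hW
  obtain ⟨g₁, hg₁, hind₁⟩ := R.r_ext (V := ⨅ j ∈ (Finset.univ : Finset (Fin (n + 1))), V₀ j)
    (R.opn_biInf _ V₀ (fun j _ => (hV₀ j).1)) hCo hB
  rw [no_large_circ_cj_biInf] at hind₁
  have hV₁ : ∀ j, R.Opn (cj g₁ (V₀ j)) := fun j => R.opn_cj g₁ (hV₀ j).1
  have hbase := no_large_circ_indS_base R hB hCo hCB (fun j => cj g₁ (V₀ j)) hV₁ hind₁
  have hI₁ : ∀ J : Finset (Fin (n + 1)), J ≠ Finset.univ →
      IndS R (E W) (fun j => cj g₁ (V₀ j)) J := fun J hJ =>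
    (hbase J).2 ((no_large_circ_indS_cj R hB hg₁ V₀ (fun j => (hV₀ j).1) J).2 (hprop₀ J hJ))
  have hf₁ : ¬ IndS R (E W) (fun j => cj g₁ (V₀ j)) Finset.univ := fun h =>
    hfull₀ ((no_large_circ_indS_cj R hB hg₁ V₀ (fun j => (hV₀ j).1) _).1 ((hbase _).1 h))
  obtain ⟨g, hg, Y, hY1, hY2⟩ := no_large_circ_claim R hS φ hφ E hE W n n le_rfl
    (fun j => cj g₁ (V₀ j)) hV₁ hI₁
  let V : Fin (n + 1) → Subgroup A := fun j => cj g (cj g₁ (V₀ j))
  have hV : ∀ j, R.Opn (V j) := fun j => R.opn_cj g (hV₁ j)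
  have hI : ∀ J : Finset (Fin (n + 1)), J ≠ Finset.univ → IndS R (E W) V J := fun J hJ =>
    (no_large_circ_indS_cj R hCo hg (fun j => cj g₁ (V₀ j)) hV₁ J).2 (hI₁ J hJ)
  have hf : ¬ IndS R (E W) V Finset.univ := fun h =>
    hf₁ ((no_large_circ_indS_cj R hCo hg (fun j => cj g₁ (V₀ j)) hV₁ _).1 h)
  obtain ⟨Y', hY'c, hY'⟩ := hp (V₀ (Fin.last n)) (hV₀ _).2 (g * g₁)
  rw [cj_mul] at hY'
  -- pigeonhole
  have hpig : ∃ j : Fin (n + 1), j.val < n ∧ Y j ∩ Y' ⊆ W := by
    by_contra hcon
    push Not at hcon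
    have hch : ∀ i : Fin n, ∃ y, y ∈ Y (Fin.castSucc i) ∧ y ∈ Y' ∧ y ∉ W := by
      intro i
      have h1 := hcon (Fin.castSucc i) (by simp)
      rw [Finset.not_subset] at h1
      obtain ⟨y, hy, hyW⟩ := h1
      exact ⟨y, (Finset.mem_inter.1 hy).1, (Finset.mem_inter.1 hy).2, hyW⟩
    choose f hf1 hf2 hf3 using hch
    have hinj : Function.Injective f := by
      intro i j hij
      by_contra hne
      have hne' : Fin.castSucc i ≠ Fin.castSucc j := fun h => hne (Fin.castSucc_injective n h)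
      have h1 : f i ∈ Y (Fin.castSucc i) ∩ Y (Fin.castSucc j) :=
        Finset.mem_inter.2 ⟨hf1 i, by rw [hij]; exact hf1 j⟩
      exact hf3 i (hY2 _ _ (by simp) (by simp) hne' h1)
    have hcard : (Finset.univ : Finset (Fin n)).card ≤ Y'.card :=
      Finset.card_le_card_of_injOn f (fun i _ => hf2 i) hinj.injOn
    rw [Finset.card_univ, Fintype.card_fin] at hcard
    omega
  obtain ⟨j, hjn, hjW⟩ := hpig
  let J : Finset (Fin (n + 1)) := Finset.univ.erase j
  have hjJ : j ∉ J := Finset.notMem_erase _ _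
  have hJu : J ≠ Finset.univ := by
    intro h
    apply hjJ
    rw [h]
    exact Finset.mem_univ _
  have hins : insert j J = Finset.univ := Finset.insert_erase (Finset.mem_univ j)
  let Z : Finset ℚ := W ∪ Y' ∪ (J.filter fun i => i.val < n).biUnion Y
  have hLD : Lab φ Z (⨅ i ∈ J, V i) := by
    intro σ hσ
    simp only [Subgroup.mem_iInf]
    intro i hi
    by_cases hin : i.val < n
    · apply (hY1 i hin).2 σ
      intro q hq
      exact hσ q (Finset.mem_union_right _ (Finset.mem_biUnion.2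
        ⟨i, Finset.mem_filter.2 ⟨hi, hin⟩, hq⟩))
    · have hil : i = Fin.last n := by
        apply Fin.ext
        have := i.isLt
        rw [Fin.val_last]
        omega
      rw [hil]
      apply hY' σ
      intro q hq
      exact hσ q (Finset.mem_union_left _ (Finset.mem_union_right _ hq))
  have hDo : R.Opn (⨅ i ∈ J, V i) := R.opn_biInf J V (fun i _ => hV i)
  have hint : Y j ∩ Z = W := by
    apply Finset.Subset.antisymm
    · intro x hx
      obtain ⟨hx1, hx2⟩ := Finset.mem_inter.1 hx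
      rcases Finset.mem_union.1 hx2 with h | h
      · rcases Finset.mem_union.1 h with h | h
        · exact h
        · exact hjW (Finset.mem_inter.2 ⟨hx1, h⟩)
      · obtain ⟨i, hi, hxi⟩ := Finset.mem_biUnion.1 h
        obtain ⟨hiJ, hin⟩ := Finset.mem_filter.1 hi
        have hne : j ≠ i := fun h => hjJ (h ▸ hiJ)
        exact hY2 j i hjn hin hne (Finset.mem_inter.2 ⟨hx1, hxi⟩)
    · apply Finset.subset_inter (hY1 j hjn).1
      exact Finset.subset_union_left.trans Finset.subset_union_left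
  have hind := ind_star R hS φ hφ E hE (hV j) hDo (hY1 j hjn).2 hLD
  rw [hint] at hind
  have h := no_large_circ_indS_of_ind R V hjJ (hI J hJu) hind
  rw [hins] at h
  exact hf h

end Pool.Agent.Helper596_Q
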