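import Mathlib
import Pool.Agent.Helper596_Q.LDefs
import Pool.Agent.Helper596_Q.L5
import Pool.Agent.Helper596_Q.L6

/-!
# Triviality from labels
-/

set_option autoImplicit false

namespace Pool.Agent.Helper596_Q


theorem triv_of_labels {A : Type} [Group A] (R : RSys A) (hS : Stab R.toOSys)
    (φ : (ℚ ≃o ℚ) →* A) (hbd : ∀ V, R.Opn V → ∃ κ : ℕ, ∀ g : A, ∃ W : Finset ℚ,
      W.card ≤ κ ∧ Lab φ W (cj g V))
    (E : Finset ℚ → Subgroup A) (hE : Lst R.toOSys φ E) : Triv R := by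
  classical
  intro B P Q S hB hP hQ hSo hPQ hPS hQS
  by_contra hn
  obtain ⟨κP, hκP⟩ := hbd P hP
  obtain ⟨κQ, hκQ⟩ := hbd Q hQ
  obtain ⟨κS, hκS⟩ := hbd S hSo
  obtain ⟨κ, hκ⟩ : ∃ κ : ℕ, κ = max κP (max κQ κS) := ⟨_, rfl⟩
  obtain ⟨p, hpdef⟩ : ∃ p : Subgroup A → Prop, p = fun V => ∀ g : A, ∃ W : Finset ℚ,
      W.card ≤ κ ∧ Lab φ W (cj g V) := ⟨_, rfl⟩
  have hpP : p P := by
    rw [hpdef]; intro g
    obtain ⟨W, hW, hL⟩ := hκP g
    exact ⟨W, hW.trans (by rw [hκ]; exact le_max_left _ _), hL⟩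
  have hpQ : p Q := by
    rw [hpdef]; intro g
    obtain ⟨W, hW, hL⟩ := hκQ g
    exact ⟨W, hW.trans (by rw [hκ]; exact (le_max_left _ _).trans (le_max_right _ _)), hL⟩
  have hpS : p S := by
    rw [hpdef]; intro g
    obtain ⟨W, hW, hL⟩ := hκS g
    exact ⟨W, hW.trans (by rw [hκ]; exact (le_max_right _ _).trans (le_max_right _ _)), hL⟩
  have hpinv : ∀ V, p V → ∀ g : A, p (cj g V) := by
    intro V hV g
    rw [hpdef] at hV ⊢
    intro g'
    rw [← cj_mul]
    exact hV (g' * g)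
  have hpuse : ∀ V, p V → ∀ g : A, ∃ W : Finset ℚ, W.card ≤ κ ∧ Lab φ W (cj g V) := by
    intro V hV
    rw [hpdef] at hV
    exact hV
  have hφ : ∀ V, R.Opn V → ∃ W, Lab φ W V := by
    intro V hV
    obtain ⟨k, hk⟩ := hbd V hV
    obtain ⟨W, _, hW⟩ := hk 1
    rw [cj_one] at hW
    exact ⟨W, hW⟩
  -- the family
  have hpair : ∀ (V : Fin 3 → Subgroup A) (i j : Fin 3), i ≠ j → Ind R.r (V i) (V j) B →
      IndS R B V {i, j} := by
    intro V i j hij h
    unfold IndS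
    rw [Finset.sum_pair hij]
    have e : (B ⊓ ⨅ k ∈ ({i, j} : Finset (Fin 3)), V k) = V i ⊓ V j ⊓ B := by
      rw [Finset.iInf_insert, Finset.iInf_singleton, inf_comm]
    rw [e, inf_comm B (V i), inf_comm B (V j)]
    unfold Ind at h
    have h' : (R.r (V i ⊓ V j ⊓ B) : ℤ) + R.r B = R.r (V i ⊓ B) + R.r (V j ⊓ B) := by
      exact_mod_cast h
    linarith
  have hcirc3 : CircP R p 3 := by
    refine ⟨B, ![P, Q, S], hB, ?_, ?_, ?_⟩
    · intro j
      fin_cases j
      · exact ⟨hP, hpP⟩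
      · exact ⟨hQ, hpQ⟩
      · exact ⟨hSo, hpS⟩
    · intro J hJ
      have h01 : IndS R B ![P, Q, S] {0, 1} := hpair _ 0 1 (by decide) hPQ
      have h02 : IndS R B ![P, Q, S] {0, 2} := hpair _ 0 2 (by decide) hPS
      have h12 : IndS R B ![P, Q, S] {1, 2} := hpair _ 1 2 (by decide) hQS
      have hsing : ∀ i : Fin 3, IndS R B ![P, Q, S] {i} := by
        intro i
        unfold IndS
        rw [Finset.iInf_singleton, Finset.sum_singleton]
      have hemp : IndS R B ![P, Q, S] ∅ := by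
        unfold IndS
        simp
      have hJ' : J = ∅ ∨ (∃ i, J = {i}) ∨ J = {0, 1} ∨ J = {0, 2} ∨ J = {1, 2} := by
        revert hJ
        revert J
        decide
      rcases hJ' with h | ⟨i, h⟩ | h | h | h
      · rw [h]; exact hemp
      · rw [h]; exact hsing i
      · rw [h]; exact h01
      · rw [h]; exact h02
      · rw [h]; exact h12
    · intro h
      apply hn
      unfold IndS at h
      have e : (B ⊓ ⨅ k ∈ (Finset.univ : Finset (Fin 3)), (![P, Q, S] : Fin 3 → Subgroup A) k)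
          = P ⊓ (Q ⊓ S) ⊓ B := by
        have hu : (Finset.univ : Finset (Fin 3)) = {0, 1, 2} := by decide
        rw [hu, Finset.iInf_insert, Finset.iInf_insert, Finset.iInf_singleton, inf_comm]
        rfl
      rw [e, Fin.sum_univ_three] at h
      have h0 : (![P, Q, S] : Fin 3 → Subgroup A) 0 = P := rfl
      have h1 : (![P, Q, S] : Fin 3 → Subgroup A) 1 = Q := rfl
      have h2 : (![P, Q, S] : Fin 3 → Subgroup A) 2 = S := rfl
      rw [h0, h1, h2, inf_comm B P, inf_comm B Q, inf_comm B S] at h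
      have h' : (R.r (Q ⊓ S ⊓ B) : ℤ) + R.r B = R.r (Q ⊓ B) + R.r (S ⊓ B) := by
        unfold Ind at hQS
        exact_mod_cast hQS
      unfold Ind
      have : (R.r (P ⊓ (Q ⊓ S) ⊓ B) : ℤ) + R.r B = R.r (P ⊓ B) + R.r (Q ⊓ S ⊓ B) := by
        linarith
      exact_mod_cast this
  have hlarge : ∀ n : ℕ, ∃ m, n + 3 ≤ m ∧ CircP R p m := by
    intro n
    induction n with
    | zero => exact ⟨3, le_rfl, hcirc3⟩
    | succ n ih =>
      obtain ⟨m, hm, hc⟩ := ih
      exact ⟨2 * (m - 1), by omega, circ_ampP R p hpinv m (by omega) hc⟩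
  obtain ⟨m, hm, hc⟩ := hlarge κ
  exact no_large_circ R hS φ hφ E hE p κ m hpuse (by omega) hc

end Pool.Agent.Helper596_Q
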