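import Mathlib
import Pool.Agent.Helper596_Q.LDefs
import Pool.Agent.Helper596_Q.C5d

/-!
# The labelled system, refined
-/

set_option autoImplicit false

namespace Pool.Agent.Helper596_Q

theorem exists_lsysP {A M : Type} [Group A] [MulAction A M] [Countable M] (R : RSys A) (h : OB R)
    (hopn : ∀ V : Subgroup A, R.Opn V ↔ ∃ F : Finset M, stb A F ≤ V)
    (horb : ∃ T : Finset M, ∀ x : M, ∃ t ∈ T, ∃ a : A, a • t = x) : Nonempty (LSysP A M) := by
  classical
  have hM : ∀ x : M, R.Opn (stb A ({x} : Finset M)) := fun x => (hopn _).2 ⟨{x}, le_rfl⟩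
  have hsm : ∀ (a : A) (d : DT R M), Cm R (rep (sm hM a d)) (cj a (rep d)) := rep_sm hM
  exact ⟨{
    D := DT R M
    act := actD hM
    cnt := by
      have := cnt_opn (M := M) R hopn
      refine Function.Injective.countable
        (f := fun d : DT R M => (⟨rep d, rep_opn d⟩ : {V : Subgroup A // R.Opn V})) ?_
      intro d d' hd
      have hd' : rep d = rep d' := congrArg (fun V : {V : Subgroup A // R.Opn V} => V.1) hd
      apply rep_ext
      rw [hd']
      exact Cm.refl _
    cl := fun x => (fin_below h (hM x)).toFinset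
    lo := fun d => (fin_below h (rep_opn d)).toFinset
    self_mem := by
      intro d
      rw [Set.Finite.mem_toFinset]
      exact ac_of_le le_rfl
    lo_trans := by
      intro d d' hd e he
      rw [Set.Finite.mem_toFinset] at hd he ⊢
      exact Ac.trans (rep_opn _) (rep_opn _) (rep_opn _) he hd
    lo_antisymm := by
      intro d d' hd hd'
      rw [Set.Finite.mem_toFinset] at hd hd'
      exact rep_ext ⟨hd', hd⟩
    cl_lo := by
      intro x d hd e he
      rw [Set.Finite.mem_toFinset] at hd he ⊢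
      exact Ac.trans (rep_opn _) (rep_opn _) (hM x) he hd
    below := by
      intro d
      obtain ⟨x, hx⟩ := rep_pt d
      exact ⟨x, (Set.Finite.mem_toFinset _).2 hx⟩
    cl_smul := by
      intro a x d
      rw [Set.Finite.mem_toFinset, Set.Finite.mem_toFinset]
      change Ac R (rep (sm hM a d)) (stb A ({a • x} : Finset M)) ↔
        Ac R (rep d) (stb A ({x} : Finset M))
      rw [← ac_cj (rep_opn d) (hM x) a, stb_cj]
      exact ⟨fun hh => (hsm a d).2.trans (R.opn_cj a (rep_opn d)) (rep_opn _) (hM _) hh,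
        fun hh => (hsm a d).1.trans (rep_opn _) (R.opn_cj a (rep_opn d)) (hM _) hh⟩
    lo_smul := by
      intro a d d'
      rw [Set.Finite.mem_toFinset, Set.Finite.mem_toFinset]
      change Ac R (rep (sm hM a d')) (rep (sm hM a d)) ↔ Ac R (rep d') (rep d)
      rw [← ac_cj (rep_opn d') (rep_opn d) a]
      have o1 := R.opn_cj a (rep_opn d)
      have o2 := R.opn_cj a (rep_opn d')
      constructor
      · intro hh
        exact ((hsm a d').2.trans o2 (rep_opn _) (rep_opn _) hh).trans o2 (rep_opn _) o1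
          (hsm a d).1
      · intro hh
        exact ((hsm a d').1.trans (rep_opn _) o2 o1 hh).trans (rep_opn _) o1 (rep_opn _)
          (hsm a d).2
    sim := fun d d' => Sim R (rep d) (rep d')
    sim_equiv := by
      refine ⟨?_, ?_, ?_⟩
      · intro d
        obtain ⟨C, hC⟩ := exists_cov R h (rep_irr d)
        exact sim_of_cm R (rep_opn d) (rep_opn d) hC (Cm.refl _)
      · intro d d' hd
        exact sim_symm R (rep_opn _) (rep_opn _) hd
      · intro d d' d'' hd hd'
        exact sim_trans R (rep_opn _) (rep_opn _) (rep_opn _) hd hd'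
    sim_smul := by
      intro a d d' hd
      change Sim R (rep (sm hM a d)) (rep (sm hM a d'))
      exact sim_congr h (irr_cj R (rep_irr d) a) (irr_cj R (rep_irr d') a) (rep_irr _) (rep_irr _)
        (hsm a d).symm (hsm a d').symm (sim_cj R (rep_opn _) (rep_opn _) hd a)
    sim_lo := by
      intro d d' hd e hne he
      rw [Set.Finite.mem_toFinset] at he
      have := sim_lo R (rep_opn d) (rep_opn d') (rep_opn e) hd he
        (fun hcm => hne (rep_ext hcm))
      refine ⟨?_, (Set.Finite.mem_toFinset _).2 this.1⟩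
      rintro rfl
      exact this.2 (Cm.refl _)
    inf := by
      intro d
      obtain ⟨C, hC⟩ := exists_cov R h (rep_irr d)
      obtain ⟨g, hg, hne⟩ := sim_inf R (rep_opn d) hC
      refine Set.infinite_of_injective_forall_mem (f := fun n => sm hM (g n) d) ?_ ?_
      · intro i j hij
        by_contra hij'
        apply hne i j hij'
        have hij2 : sm hM (g i) d = sm hM (g j) d := hij
        have h1 := hsm (g i) d
        have h2 := hsm (g j) d
        rw [hij2] at h1
        exact Cm.trans (R.opn_cj _ (rep_opn d)) (rep_opn _) (R.opn_cj _ (rep_opn d)) h1.symm h2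
      · intro n
        change Sim R (rep d) (rep (sm hM (g n) d))
        exact sim_congr h (rep_irr d) (irr_cj R (rep_irr d) (g n)) (rep_irr d) (rep_irr _)
          (Cm.refl _) (hsm (g n) d).symm (hg n)
    tr := by
      intro Δ hΔ d d' hs hd hd' hlo
      have hBo : R.Opn (⨅ e ∈ Δ, rep e) := R.opn_biInf Δ rep (fun e _ => rep_opn e)
      have hl : ∀ e ∈ Δ, ∀ d : DT R M, Ac R (rep d) (rep e) → d ∈ Δ := by
        intro e he d hd
        exact hΔ e he ((Set.Finite.mem_toFinset _).2 hd)
      obtain ⟨C, hC⟩ := exists_cov R h (rep_irr d)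
      have hCB : Ac R C (⨅ e ∈ Δ, rep e) :=
        cov_mem h hM rfl (fun e he hne => hlo e ((Set.Finite.mem_toFinset _).2 he) hne) hC
      obtain ⟨g, hg, hgd⟩ := sim_tr R (rep_opn d) (rep_opn d') hBo hs hC hCB
        (not_ac h rfl hl hd) (not_ac h rfl hl hd')
      refine ⟨g, ?_, ?_⟩
      · intro e he
        change sm hM g e = e
        apply rep_ext
        have h1 := hsm g e
        have hge : g ∈ rep e := (iInf₂_le e he : (⨅ e ∈ Δ, rep e) ≤ rep e) hg
        rwa [cj_of_mem hge] at h1
      · change sm hM g d = d'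
        apply rep_ext
        exact (hsm g d).trans (rep_opn _) (R.opn_cj _ (rep_opn d)) (rep_opn _) hgd
    fin1 := by
      intro Δ
      have hBo : R.Opn (⨅ e ∈ Δ, rep e) := R.opn_biInf Δ rep (fun e _ => rep_opn e)
      refine (fin_alg R hopn horb hBo).subset ?_
      intro x hx
      change Ac R (stb A ({x} : Finset M)) (⨅ e ∈ Δ, rep e)
      refine pt_alg R h (hM x) hBo ?_
      intro E hE hEx
      refine ac_mem rfl hE ⟨x, hEx⟩ (hx ((Set.Finite.mem_toFinset _).2 ?_))
      exact (rep_mk E hE ⟨x, hEx⟩).1.trans (rep_opn _) hE.1 (hM x) hEx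
    fin2 := by
      intro Δ
      have hBo : R.Opn (⨅ e ∈ Δ, rep e) := R.opn_biInf Δ rep (fun e _ => rep_opn e)
      obtain ⟨T, hT, hT'⟩ := fin_sim R h hopn horb hBo
      refine ⟨T.attach.image (fun V => DT.mk V.1 (hT V.1 V.2).1 (hT V.1 V.2).2), ?_⟩
      intro d hd
      obtain ⟨C, hC⟩ := exists_cov R h (rep_irr d)
      have hCB : Ac R C (⨅ e ∈ Δ, rep e) :=
        cov_mem h hM rfl (fun e he hne => hd e ((Set.Finite.mem_toFinset _).2 he) hne) hC
      obtain ⟨D', hD', hs⟩ := hT' C (rep d) (rep_irr d) (rep_pt d) hC hCB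
      refine ⟨DT.mk D' (hT D' hD').1 (hT D' hD').2,
        Finset.mem_image.2 ⟨⟨D', hD'⟩, Finset.mem_attach _ _, rfl⟩, ?_⟩
      exact sim_congr h (hT D' hD').1 (rep_irr d) (rep_irr _) (rep_irr d)
        (rep_mk D' (hT D' hD').1 (hT D' hD').2).symm (Cm.refl _) hs
    bdd := by
      obtain ⟨T, hT⟩ := horb
      refine ⟨T.sup (fun t => R.r (stb A ({t} : Finset M))), ?_⟩
      intro x
      obtain ⟨t, ht, a, ha⟩ := hT x
      have h1 : R.r (stb A ({x} : Finset M)) = R.r (stb A ({t} : Finset M)) := by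
        rw [← ha, ← stb_cj, R.r_cj a _ (hM t)]
      have h2 : (fin_below (M := M) h (hM x)).toFinset.card ≤ R.r (stb A ({x} : Finset M)) := by
        apply card_le h (hM x)
        intro d hd
        rw [Set.Finite.mem_toFinset] at hd
        exact hd
      refine le_trans h2 ?_
      rw [h1]
      exact Finset.le_sup (f := fun t => R.r (stb A ({t} : Finset M))) ht
    tr' := by
      intro Δ hΔ d d' hs hd hd' hlo
      have hBo : R.Opn (⨅ e ∈ Δ, rep e) := R.opn_biInf Δ rep (fun e _ => rep_opn e)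
      have hl : ∀ e ∈ Δ, ∀ d : DT R M, Ac R (rep d) (rep e) → d ∈ Δ := by
        intro e he d hd
        exact hΔ e he ((Set.Finite.mem_toFinset _).2 hd)
      have hpt : ∀ x : M, (fin_below (M := M) h (hM x)).toFinset ⊆ Δ →
          Ac R (stb A ({x} : Finset M)) (⨅ e ∈ Δ, rep e) := by
        intro x hx
        refine pt_alg R h (hM x) hBo ?_
        intro E hE hEx
        refine ac_mem rfl hE ⟨x, hEx⟩ (hx ((Set.Finite.mem_toFinset _).2 ?_))
        exact (rep_mk E hE ⟨x, hEx⟩).1.trans (rep_opn _) hE.1 (hM x) hEx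
      have hfin : {x : M | (fin_below (M := M) h (hM x)).toFinset ⊆ Δ}.Finite :=
        (fin_alg R hopn horb hBo).subset (fun x hx => hpt x hx)
      have hXo : R.Opn (⨅ x ∈ hfin.toFinset, stb A ({x} : Finset M)) :=
        R.opn_biInf hfin.toFinset (fun x => stb A ({x} : Finset M)) (fun x _ => hM x)
      have hXa : Ac R (⨅ x ∈ hfin.toFinset, stb A ({x} : Finset M)) (⨅ e ∈ Δ, rep e) :=
        ac_biInf R hBo hfin.toFinset (fun x => stb A ({x} : Finset M)) (fun x _ => hM x)
          (fun x hx => hpt x ((Set.Finite.mem_toFinset _).1 hx))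
      have hB'o : R.Opn ((⨅ e ∈ Δ, rep e) ⊓ ⨅ x ∈ hfin.toFinset, stb A ({x} : Finset M)) :=
        R.opn_inf hBo hXo
      have hB'a : Ac R ((⨅ e ∈ Δ, rep e) ⊓ ⨅ x ∈ hfin.toFinset, stb A ({x} : Finset M))
          (⨅ e ∈ Δ, rep e) := Ac.inf hBo hXo hBo (ac_of_le le_rfl) hXa
      obtain ⟨C, hC⟩ := exists_cov R h (rep_irr d)
      have hCB : Ac R C (⨅ e ∈ Δ, rep e) :=
        cov_mem h hM rfl (fun e he hne => hlo e ((Set.Finite.mem_toFinset _).2 he) hne) hC
      have hCB' : Ac R C ((⨅ e ∈ Δ, rep e) ⊓ ⨅ x ∈ hfin.toFinset, stb A ({x} : Finset M)) :=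
        hCB.of_le hC.1 hBo hB'o inf_le_left
      obtain ⟨g, hg, hgd⟩ := sim_tr R (rep_opn d) (rep_opn d') hB'o hs hC hCB'
        (fun hac => not_ac h rfl hl hd (hac.trans (rep_opn d) hB'o hBo hB'a))
        (fun hac => not_ac h rfl hl hd' (hac.trans (rep_opn d') hB'o hBo hB'a))
      refine ⟨g, ?_, ?_, ?_⟩
      · intro e he
        change sm hM g e = e
        apply rep_ext
        have h1 := hsm g e
        have hge : g ∈ rep e := (iInf₂_le e he : (⨅ e ∈ Δ, rep e) ≤ rep e) hg.1
        rwa [cj_of_mem hge] at h1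
      · intro x hx
        have hgx : g ∈ stb A ({x} : Finset M) :=
          (iInf₂_le x ((Set.Finite.mem_toFinset _).2 hx) :
            (⨅ x ∈ hfin.toFinset, stb A ({x} : Finset M)) ≤ stb A ({x} : Finset M)) hg.2
        exact hgx x (Finset.mem_singleton_self x)
      · change sm hM g d = d'
        apply rep_ext
        exact (hsm g d).trans (rep_opn _) (R.opn_cj _ (rep_opn d)) (rep_opn _) hgd }⟩

end Pool.Agent.Helper596_Q
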