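import Mathlib
import Pool.Agent.Helper596_Q.LDefs
import Pool.Agent.Helper596_Q.D1

/-!
# A weak system of supports with extension
-/

set_option autoImplicit false

namespace Pool.Agent.Helper596_Q

section S3
variable {A M : Type} [Group A] [MulAction A M]

attribute [local instance] LSys.act

/-- the elements properly below `d` -/
def s3low (S : LSys A M) [DecidableEq S.D] (d : S.D) : Finset S.D := (S.lo d).erase d

theorem s3low_sim (S : LSys A M) [DecidableEq S.D] {d d' : S.D} (h : S.sim d d') :
    s3low S d = s3low S d' := by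
  have key : ∀ d d', S.sim d d' → s3low S d ⊆ s3low S d' := by
    intro d d' h e he
    obtain ⟨h1, h2⟩ := Finset.mem_erase.mp he
    obtain ⟨h3, h4⟩ := S.sim_lo d d' h e h1 h2
    exact Finset.mem_erase.mpr ⟨h3, h4⟩
  exact Finset.Subset.antisymm (key _ _ h) (key _ _ (S.sim_equiv.symm h))

theorem s3_exists_label (S : LSys A M) [DecidableEq S.D] : ∃ π : S.D → ℚ,
    (∀ d d', S.sim d d' → π d = π d' → d = d') ∧ (∀ d, π d ∉ (s3low S d).image π) ∧
    (∀ d q, q ∉ (s3low S d).image π → ∃ d', S.sim d d' ∧ π d' = q) := by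
  classical
  let st : Setoid S.D := ⟨S.sim, S.sim_equiv⟩
  have hinf : ∀ c : Quotient st, Infinite {d : S.D // Quotient.mk st d = c} := by
    intro c
    induction c using Quotient.inductionOn with
    | h d =>
      have h := (S.inf d).to_subtype
      refine @Infinite.of_injective _ {d' : S.D // S.sim d d'} h
        (fun x => ⟨x.1, Quotient.sound (S.sim_equiv.symm x.2)⟩) ?_
      intro x y hxy
      simpa [Subtype.ext_iff] using hxy
  have hcnt := S.cnt
  have hf : ∀ (c : Quotient st) (L : Finset ℚ),
      Nonempty ({d : S.D // Quotient.mk st d = c} ≃ {q : ℚ // q ∉ L}) := by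
    intro c L
    have hic := hinf c
    have hiq : Infinite {q : ℚ // q ∉ L} := by
      have : ((L : Set ℚ)ᶜ).Infinite := L.finite_toSet.infinite_compl
      exact this.to_subtype
    exact nonempty_equiv_of_countable
  obtain ⟨F⟩ : Nonempty (∀ (c : Quotient st) (L : Finset ℚ),
      {d : S.D // Quotient.mk st d = c} ≃ {q : ℚ // q ∉ L}) :=
    ⟨fun c L => (hf c L).some⟩
  have hwf : WellFounded (fun e d : S.D => (S.lo e).card < (S.lo d).card) :=
    InvImage.wf (fun d : S.D => (S.lo d).card) Nat.lt_wfRel.wf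
  have hlt : ∀ (d : S.D) (e : {e // e ∈ s3low S d}), (S.lo e.1).card < (S.lo d).card := by
    rintro d ⟨e, he⟩
    obtain ⟨h1, h2⟩ := Finset.mem_erase.mp he
    exact d1_lo_lt S h2 h1
  let π : S.D → ℚ := hwf.fix (C := fun _ => ℚ) (fun d rec =>
    (F (Quotient.mk st d) ((s3low S d).attach.image fun e => rec e.1 (hlt d e)) ⟨d, rfl⟩).1)
  have hπ : ∀ d, π d = (F (Quotient.mk st d) ((s3low S d).image π) ⟨d, rfl⟩).1 := by
    intro d
    have h1 : π d = (F (Quotient.mk st d) ((s3low S d).attach.image fun e => π e.1) ⟨d, rfl⟩).1 :=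
      hwf.fix_eq (C := fun _ => ℚ) _ d
    have h2 : ((s3low S d).attach.image fun e => π e.1) = (s3low S d).image π := by
      ext q
      simp
    rw [h2] at h1
    exact h1
  have key : ∀ (c : Quotient st) (L : Finset ℚ) (d : S.D) (h : Quotient.mk st d = c),
      (s3low S d).image π = L → π d = (F c L ⟨d, h⟩).1 := by
    rintro c L d rfl rfl
    exact hπ d
  refine ⟨π, ?_, ?_, ?_⟩
  · intro d d' hs he
    have hq : Quotient.mk st d' = Quotient.mk st d := Quotient.sound (S.sim_equiv.symm hs)
    have h1 := key _ _ d rfl rfl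
    have h2 := key _ _ d' hq (by rw [← s3low_sim S hs])
    rw [h1, h2] at he
    have h3 := (F _ _).injective (Subtype.ext he)
    exact congrArg Subtype.val h3
  · intro d
    rw [hπ d]
    exact (F _ _ _).2
  · intro d q hq
    set y := (F (Quotient.mk st d) ((s3low S d).image π)).symm ⟨q, hq⟩ with hy
    have hs : S.sim d y.1 := S.sim_equiv.symm (Quotient.exact y.2)
    refine ⟨y.1, hs, ?_⟩
    rw [key _ _ y.1 y.2 (by rw [← s3low_sim S hs])]
    have : (⟨y.1, y.2⟩ : {d' : S.D // Quotient.mk st d' = Quotient.mk st d}) = y := rfl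
    rw [this, hy, Equiv.apply_symm_apply]

/-- labels without repetition below a point -/
structure S3Lab (S : LSys A M) [DecidableEq S.D] (π : S.D → ℚ) : Prop where
  inj : ∀ d d', S.sim d d' → π d = π d' → d = d'
  low : ∀ d e, e ∈ S.lo d → e ≠ d → π e ≠ π d
  surj : ∀ d q, q ∉ (s3low S d).image π → ∃ d', S.sim d d' ∧ π d' = q

/-- the elements below a point of `M ⊕ D` -/
def s3cl (S : LSys A M) : M ⊕ S.D → Finset S.D := Sum.elim S.cl S.lo

theorem s3cl_down (S : LSys A M) (x : M ⊕ S.D) (d : S.D) (h : d ∈ s3cl S x) : S.lo d ⊆ s3cl S x := by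
  cases x with
  | inl x => exact S.cl_lo x d h
  | inr x => exact S.lo_trans x d h

theorem s3cl_smul (S : LSys A M) [DecidableEq S.D] (a : A) (x : M ⊕ S.D) :
    s3cl S (a • x) = (s3cl S x).image (a • ·) := by
  have h : ∀ d, a • d ∈ s3cl S (a • x) ↔ d ∈ s3cl S x := by
    intro d
    cases x with
    | inl x => exact S.cl_smul a x d
    | inr x => exact S.lo_smul a x d
  ext d
  constructor
  · intro hd
    refine Finset.mem_image.mpr ⟨a⁻¹ • d, ?_, smul_inv_smul a d⟩
    rw [← h]
    simpa using hd
  · intro hd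
    obtain ⟨e, he, rfl⟩ := Finset.mem_image.mp hd
    exact (h e).mpr he

/-- the support of a point of `M ⊕ D` -/
def s3supp (S : LSys A M) (π : S.D → ℚ) (x : M ⊕ S.D) : Finset ℚ := (s3cl S x).image π

theorem s3supp_sub (S : LSys A M) (π : S.D → ℚ) (W : Finset ℚ) (x : M ⊕ S.D) :
    s3supp S π x ⊆ W ↔ ∀ d ∈ s3cl S x, d ∈ d1Del S π W := by
  constructor
  · intro hx d hd e he
    exact hx (Finset.mem_image_of_mem π (s3cl_down S x d hd he))
  · intro hx q hq
    obtain ⟨d, hd, rfl⟩ := Finset.mem_image.mp hq
    exact hx d hd d (S.self_mem d)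

theorem s3supp_inr (S : LSys A M) (π : S.D → ℚ) (W : Finset ℚ) (d : S.D) :
    s3supp S π (Sum.inr d) ⊆ W ↔ d ∈ d1Del S π W := by
  rw [s3supp_sub]
  constructor
  · intro h
    exact h d (S.self_mem d)
  · intro h e he
    exact d1_Del_down S h he

theorem s3_TT (S : LSys A M) [DecidableEq S.D] {π : S.D → ℚ} (hπ : S3Lab S π) (W : Finset ℚ)
    (u : ℚ → ℚ) (a : A) (ha : ∀ d ∈ d1Del S π W, π (a • d) = u (π d)) :
    TT (s3supp S π) W u a := by
  constructor
  · intro x hx
    show (s3cl S (a • x)).image π = ((s3cl S x).image π).image u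
    rw [s3cl_smul, Finset.image_image, Finset.image_image]
    refine Finset.image_congr fun d hd => ?_
    exact ha d ((s3supp_sub S π W x).1 hx d hd)
  · intro y hy
    have claim : ∀ (n : ℕ) (d : S.D), (S.lo d).card = n → d ∈ d1Del S π (W.image u) →
        a⁻¹ • d ∈ d1Del S π W := by
      intro n
      induction n using Nat.strong_induction_on with
      | _ n ih =>
        intro d hn hd
        have hlow : ∀ e ∈ S.lo (a⁻¹ • d), e ≠ a⁻¹ • d →
            e ∈ d1Del S π W ∧ a • e ∈ S.lo d ∧ a • e ≠ d := by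
          intro e he hne
          have he1 : a • e ∈ S.lo d := by
            have := (S.lo_smul a (a⁻¹ • d) e).mpr he
            simpa using this
          have hne1 : a • e ≠ d := by
            intro h
            apply hne
            rw [← h, inv_smul_smul]
          have := ih (S.lo (a • e)).card (by rw [← hn]; exact d1_lo_lt S he1 hne1) (a • e) rfl
            (d1_Del_down S hd he1)
          exact ⟨by simpa using this, he1, hne1⟩
        obtain ⟨w, hw, hw2⟩ := Finset.mem_image.mp (hd d (S.self_mem d))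
        obtain ⟨d₂, hs, hπ2⟩ := hπ.surj (a⁻¹ • d) w (by
          intro h
          obtain ⟨e, he, hew⟩ := Finset.mem_image.mp h
          obtain ⟨h1, h2⟩ := Finset.mem_erase.mp he
          obtain ⟨h3, h4, h5⟩ := hlow e h2 h1
          apply hπ.low d (a • e) h4 h5
          rw [ha e h3, hew, hw2])
        have hd₂ : d₂ ∈ d1Del S π W := by
          intro e he
          by_cases hed : e = d₂
          · rw [hed, hπ2]; exact hw
          · obtain ⟨h1, h2⟩ := S.sim_lo d₂ (a⁻¹ • d) (S.sim_equiv.symm hs) e hed he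
            exact (hlow e h2 h1).1 e (S.self_mem e)
        have h3 : d = a • d₂ := by
          refine hπ.inj d (a • d₂) ?_ ?_
          · have := S.sim_smul a _ _ hs
            simpa using this
          · rw [ha d₂ hd₂, hπ2, hw2]
        rw [h3, inv_smul_smul]
        exact hd₂
    refine ⟨a⁻¹ • y, ?_, smul_inv_smul a y⟩
    rw [s3supp_sub]
    intro d hd
    rw [s3cl_smul] at hd
    obtain ⟨e, he, rfl⟩ := Finset.mem_image.mp hd
    exact claim _ e rfl ((s3supp_sub S π (W.image u) y).1 hy e he)

theorem s3_of_TT (S : LSys A M) [DecidableEq S.D] {π : S.D → ℚ} (hπ : S3Lab S π) (W : Finset ℚ)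
    (u : ℚ → ℚ) (a : A) (ha : TT (s3supp S π) W u a) :
    ∀ (n : ℕ) (d : S.D), (S.lo d).card = n → d ∈ d1Del S π W → π (a • d) = u (π d) := by
  intro n
  induction n using Nat.strong_induction_on with
  | _ n ih =>
    intro d hn hd
    have h1 := ha.1 (Sum.inr d) ((s3supp_inr S π W d).2 hd)
    have h2 : π (a • d) ∈ s3supp S π (a • (Sum.inr d : M ⊕ S.D)) :=
      Finset.mem_image_of_mem π (S.self_mem (a • d))
    rw [h1] at h2
    obtain ⟨q, hq, hq2⟩ := Finset.mem_image.mp h2
    obtain ⟨e, he, rfl⟩ := Finset.mem_image.mp hq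
    have he : e ∈ S.lo d := he
    by_cases hed : e = d
    · rw [← hq2, hed]
    · exfalso
      have h3 := ih _ (by rw [← hn]; exact d1_lo_lt S he hed) e rfl (d1_Del_down S hd he)
      apply hπ.low (a • d) (a • e) ((S.lo_smul a d e).2 he)
      · intro h
        exact hed (smul_left_cancel a h)
      · rw [h3, hq2]

end S3

attribute [local instance] LSys.act in
theorem s3_ext {A M : Type} [Group A] [MulAction A M] (S : LSysP A M) [DecidableEq S.D]
    {π : S.D → ℚ} (hπ : S3Lab S.toLSys π) (W W' : Finset ℚ)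
    (u : ℚ → ℚ) (a : A) (hu : Set.InjOn u (W : Set ℚ)) (D' : Finset S.D)
    (hD' : ∀ d, d ∈ D' ↔ d ∈ d1Del S.toLSys π W') (ha : ∀ d ∈ D', π (a • d) = u (π d)) :
    ∀ (n : ℕ) (Δ : Finset S.D), (Δ \ D').card = n → D' ⊆ Δ → (∀ d ∈ Δ, S.lo d ⊆ Δ) →
      (∀ d ∈ Δ, d ∈ d1Del S.toLSys π W) →
      ∃ b : A, (∀ y, s3supp S.toLSys π y ⊆ W' → b • y = a • y) ∧ ∀ d ∈ Δ, π (b • d) = u (π d) := by
  intro n
  induction n with
  | zero =>
    intro Δ hc hsub _ _
    rw [Finset.card_eq_zero, Finset.sdiff_eq_empty_iff_subset] at hc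
    exact ⟨a, fun _ _ => rfl, fun d hd => ha d (hc hd)⟩
  | succ n ih =>
    intro Δ hc hsub hdown hDel
    have hne : (Δ \ D').Nonempty := by rw [← Finset.card_pos]; omega
    obtain ⟨d, hd0, hmax⟩ := Finset.exists_max_image (Δ \ D') (fun d => (S.lo d).card) hne
    obtain ⟨hd, hdD⟩ := Finset.mem_sdiff.mp hd0
    have hdown' : ∀ e ∈ Δ.erase d, S.lo e ⊆ Δ.erase d := by
      intro e he g hg
      have he' := Finset.mem_erase.mp he
      refine Finset.mem_erase.mpr ⟨?_, hdown e he'.2 hg⟩
      rintro rfl
      have h1 := d1_lo_lt S.toLSys hg (Ne.symm he'.1)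
      by_cases heD : e ∈ D'
      · apply hdD
        rw [hD'] at heD ⊢
        exact d1_Del_down S.toLSys heD hg
      · have h2 := hmax e (Finset.mem_sdiff.mpr ⟨he'.2, heD⟩)
        omega
    have hsub' : D' ⊆ Δ.erase d := fun e he =>
      Finset.mem_erase.mpr ⟨fun h => hdD (h ▸ he), hsub he⟩
    have hcard : (Δ.erase d \ D').card = n := by
      have : Δ.erase d \ D' = (Δ \ D').erase d := by
        ext e
        simp only [Finset.mem_sdiff, Finset.mem_erase]
        tauto
      rw [this, Finset.card_erase_of_mem hd0]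
      omega
    obtain ⟨b, hb0, hb⟩ := ih (Δ.erase d) hcard hsub' hdown'
      (fun e he => hDel e (Finset.mem_of_mem_erase he))
    have hW : ∀ e ∈ Δ, π e ∈ W := fun e he => hDel e he e (S.self_mem e)
    obtain ⟨d'', hs, hπ''⟩ := hπ.surj (b • d) (u (π d)) (by
      intro h
      obtain ⟨e, he, hew⟩ := Finset.mem_image.mp h
      obtain ⟨h1, h2⟩ := Finset.mem_erase.mp he
      have h3 : b⁻¹ • e ∈ S.lo d := by
        rw [← S.lo_smul b]
        simpa using h2
      have h4 : b⁻¹ • e ≠ d := by
        intro h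
        apply h1
        rw [← h, smul_inv_smul]
      have h5 := hb (b⁻¹ • e) (Finset.mem_erase.mpr ⟨h4, hdown d hd h3⟩)
      rw [smul_inv_smul, hew] at h5
      exact hπ.low d _ h3 h4 (hu (hW _ hd) (hW _ (hdown d hd h3)) h5).symm)
    obtain ⟨b', hb1, hb1', hb2⟩ := S.tr' ((Δ.erase d).image (b • ·)) (by
        intro e he g hg
        obtain ⟨e', he', rfl⟩ := Finset.mem_image.mp he
        refine Finset.mem_image.mpr ⟨b⁻¹ • g, ?_, smul_inv_smul b g⟩
        refine hdown' e' he' ?_
        rw [← S.lo_smul b]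
        simpa using hg) (b • d) d'' hs (by
        intro h
        obtain ⟨e', he', h⟩ := Finset.mem_image.mp h
        have : e' = d := smul_left_cancel b h
        subst this
        exact Finset.notMem_erase _ _ he') (by
        intro h
        obtain ⟨e, he, rfl⟩ := Finset.mem_image.mp h
        have he' := Finset.mem_erase.mp he
        have h1 : S.sim d e := by
          have := S.sim_smul b⁻¹ _ _ hs
          simpa using this
        have h2 : u (π e) = u (π d) := by rw [← hb e he]; exact hπ''
        have h3 : π e = π d := hu (hW e he'.2) (hW d hd) h2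
        exact he'.1 (hπ.inj e d (S.sim_equiv.symm h1) h3)) (by
        intro e he hne
        refine Finset.mem_image.mpr ⟨b⁻¹ • e, ?_, smul_inv_smul b e⟩
        refine Finset.mem_erase.mpr ⟨?_, ?_⟩
        · intro h
          apply hne
          rw [← h, smul_inv_smul]
        · refine hdown d hd ?_
          rw [← S.lo_smul b]
          simpa using he)
    refine ⟨b' * b, ?_, fun e he => ?_⟩
    · intro y hy
      rw [mul_smul, ← hb0 y hy]
      have hy' := (s3supp_sub S.toLSys π W' y).1 hy
      cases y with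
      | inl x =>
        have h6 : S.cl (b • x) ⊆ (Δ.erase d).image (b • ·) := by
          have h7 := s3cl_smul S.toLSys b (Sum.inl x)
          have h8 : S.cl (b • x) = (S.cl x).image (b • ·) := h7
          rw [h8]
          exact Finset.image_subset_image fun e he => hsub' ((hD' e).2 (hy' e he))
        show b' • (Sum.inl (b • x) : M ⊕ S.D) = Sum.inl (b • x)
        rw [Sum.smul_inl, hb1' _ h6]
      | inr e =>
        have h6 : b • e ∈ (Δ.erase d).image (b • ·) :=
          Finset.mem_image_of_mem _ (hsub' ((hD' e).2 (hy' e (S.self_mem e))))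
        show b' • (Sum.inr (b • e) : M ⊕ S.D) = Sum.inr (b • e)
        rw [Sum.smul_inr, hb1 _ h6]
    · rw [mul_smul]
      by_cases hed : e = d
      · subst hed
        rw [hb2, hπ'']
      · have he' : e ∈ Δ.erase d := Finset.mem_erase.mpr ⟨hed, he⟩
        rw [hb1 (b • e) (Finset.mem_image_of_mem _ he'), hb e he']

attribute [local instance] LSys.act in
theorem exists_wsysE {A M : Type} [Group A] [MulAction A M] (S : LSysP A M) :
    ∃ (X : Type) (_ : MulAction A X) (_ : WSysE A X) (i : M → X),
      Function.Injective i ∧ ∀ (a : A) (x : M), i (a • x) = a • i x := by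
  classical
  obtain ⟨π, h1, h2, h3⟩ := s3_exists_label S.toLSys
  have hπ : S3Lab S.toLSys π := ⟨h1, fun d e he hne h => h2 d (by
    rw [← h]
    exact Finset.mem_image_of_mem π (Finset.mem_erase.mpr ⟨hne, he⟩)), h3⟩
  have hfin : ∀ W, (d1Del S.toLSys π W).Finite := fun W => d1_Del_finite S.toLSys π h1 W
  have hext : ∀ (W W' : Finset ℚ) (u : ℚ → ℚ) (a : A), W' ⊆ W → Set.InjOn u (W : Set ℚ) →
      TT (s3supp S.toLSys π) W' u a → ∃ b : A, TT (s3supp S.toLSys π) W u b ∧
        ∀ y, s3supp S.toLSys π y ⊆ W' → b • y = a • y := by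
    intro W W' u a hW hu ha
    obtain ⟨b, hb1, hb2⟩ := s3_ext S hπ W W' u a hu (hfin W').toFinset
      (fun d => Set.Finite.mem_toFinset _)
      (fun d hd => s3_of_TT S.toLSys hπ W' u a ha _ d rfl (by rwa [Set.Finite.mem_toFinset] at hd))
      _ (hfin W).toFinset rfl
      (by
        intro d hd
        rw [Set.Finite.mem_toFinset] at hd ⊢
        exact fun e he => hW (hd e he))
      (by
        intro d hd e he
        rw [Set.Finite.mem_toFinset] at hd ⊢
        exact d1_Del_down S.toLSys hd he)
      (fun d hd => by rwa [Set.Finite.mem_toFinset] at hd)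
    exact ⟨b, s3_TT S.toLSys hπ W u b (fun d hd => hb2 d (by rwa [Set.Finite.mem_toFinset])), hb1⟩
  refine ⟨M ⊕ S.D, inferInstance, ?_, Sum.inl, Sum.inl_injective, fun a x => rfl⟩
  exact
    { supp := s3supp S.toLSys π
      fin := by
        intro W
        have h4 : {x : M ⊕ S.D | s3supp S.toLSys π x ⊆ W} ⊆
            Sum.inl '' {x | S.cl x ⊆ (hfin W).toFinset} ∪ Sum.inr '' (d1Del S.toLSys π W) := by
          intro x hx
          have hx' := (s3supp_sub S.toLSys π W x).1 hx
          cases x with
          | inl x =>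
            left
            refine ⟨x, fun d hd => ?_, rfl⟩
            rw [Set.Finite.mem_toFinset]
            exact hx' d hd
          | inr d =>
            right
            exact ⟨d, hx' d (S.self_mem d), rfl⟩
        exact (((S.fin1 _).image _).union ((hfin W).image _)).subset h4
      bdd := by
        obtain ⟨k, hk⟩ := S.bdd
        refine ⟨k, fun x => Finset.card_image_le.trans ?_⟩
        cases x with
        | inl x => exact hk x
        | inr d =>
          obtain ⟨x, hx⟩ := S.below d
          exact (Finset.card_le_card (S.cl_lo x d hx)).trans (hk x)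
      lift := by
        intro W σ hσ
        obtain ⟨b, hb, -⟩ := hext W ∅ σ 1 (Finset.empty_subset _) hσ.injOn (by
          constructor
          · intro x hx
            rw [Finset.subset_empty] at hx
            rw [one_smul, hx]
            rfl
          · intro y hy
            rw [Finset.image_empty] at hy
            exact ⟨y, hy, one_smul _ _⟩)
        exact ⟨b, hb⟩
      ext := hext }

end Pool.Agent.Helper596_Q
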