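import Mathlib
import Pool.Agent.Helper596_Q.RN
import Pool.Agent.Helper596_Q.A5
import Pool.Agent.Helper596_Q.LDefs

/-!
# Stability in terms of the automorphism group
-/

set_option autoImplicit false

namespace Pool.Agent.Helper596_Q

open FirstOrder FirstOrder.Language

theorem stab_of_stable (L : FirstOrder.Language.{0, 0}) (M : Type) [Countable M] [L.Structure M]
    (G : Subgroup (Equiv.Perm M)) (hG : ∀ g : M ≃[L] M, g.toEquiv ∈ G)
    (hG' : ∀ g ∈ G, ∃ g' : M ≃[L] M, ∀ x, g' x = g x)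
    (ol : ∀ n : ℕ, ∃ S : Finset (Fin n → M), ∀ v : Fin n → M, ∃ s ∈ S, ∃ a ∈ G,
      ∀ i, a (s i) = v i)
    (hst : ∀ (k l : ℕ) (φ : L.Formula (Fin k ⊕ Fin l)), ¬ ∃ (a : ℕ → Fin k → M)
      (b : ℕ → Fin l → M), ∀ i j, φ.Realize (Sum.elim (a i) (b j)) ↔ i ≤ j) :
    Stab (osysM G ol) := by
  classical
  have hol : ∀ n : ℕ, ∃ S : Finset (Fin n → M), ∀ v : Fin n → M, ∃ s ∈ S, ∃ g : M ≃[L] M,
      ∀ i, g (s i) = v i := by
    intro n
    obtain ⟨S, hS⟩ := ol n
    refine ⟨S, fun v => ?_⟩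
    obtain ⟨s, hs, a, ha, h⟩ := hS v
    obtain ⟨g, hg⟩ := hG' a ha
    exact ⟨s, hs, g, fun i => by rw [hg]; exact h i⟩
  rintro P Q ⟨F, hF⟩ ⟨F', hF'⟩ X hX ⟨a, c, hac⟩
  let f : Fin F.card → M := fun i => (F.equivFin.symm i : F)
  let f' : Fin F'.card → M := fun i => (F'.equivFin.symm i : F')
  have hf : ∀ g h : ↥G, (∀ i, (g : Equiv.Perm M) (f i) = (h : Equiv.Perm M) (f i)) →
      g⁻¹ * h ∈ P := by
    intro g h hgh
    apply hF
    intro x hx
    obtain ⟨i, hi⟩ : ∃ i, f i = x := ⟨F.equivFin ⟨x, hx⟩, by simp [f]⟩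
    rw [← hi, mul_smul, inv_smul_eq_iff]
    exact (hgh i).symm
  have hf' : ∀ g h : ↥G, (∀ i, (g : Equiv.Perm M) (f' i) = (h : Equiv.Perm M) (f' i)) →
      g⁻¹ * h ∈ Q := by
    intro g h hgh
    apply hF'
    intro x hx
    obtain ⟨i, hi⟩ : ∃ i, f' i = x := ⟨F'.equivFin ⟨x, hx⟩, by simp [f']⟩
    rw [← hi, mul_smul, inv_smul_eq_iff]
    exact (hgh i).symm
  let s : Set (Fin (F.card + F'.card) → M) := {v | ∃ g h : ↥G, g⁻¹ * h ∈ X ∧
    v = Fin.append (fun i => (g : Equiv.Perm M) (f i)) (fun i => (h : Equiv.Perm M) (f' i))}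
  have hs : Set.Definable (∅ : Set M) L s := by
    apply definable_of_invariant hol
    rintro g _ ⟨u, w, huw, rfl⟩
    refine ⟨⟨g.toEquiv, hG g⟩ * u, ⟨g.toEquiv, hG g⟩ * w, ?_, ?_⟩
    · have : (⟨g.toEquiv, hG g⟩ * u)⁻¹ * (⟨g.toEquiv, hG g⟩ * w) = u⁻¹ * w := by group
      rw [this]
      exact huw
    · funext i
      refine Fin.addCases (fun i => ?_) (fun i => ?_) i
      · rw [Fin.append_left, Fin.append_left]
        rfl
      · rw [Fin.append_right, Fin.append_right]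
        rfl
  have hs2 := hs.preimage_comp (fun i : Fin (F.card + F'.card) => finSumFinEquiv.symm i)
  rw [Set.empty_definable_iff] at hs2
  obtain ⟨φ, hφ⟩ := hs2
  refine hst _ _ φ ⟨fun i j => (a i : Equiv.Perm M) (f j), fun i j => (c i : Equiv.Perm M) (f' j),
    fun i j => ?_⟩
  rw [← hac i j]
  have h1 : φ.Realize (Sum.elim (fun t => (a i : Equiv.Perm M) (f t))
      (fun t => (c j : Equiv.Perm M) (f' t))) ↔
      (Sum.elim (fun t => (a i : Equiv.Perm M) (f t))
      (fun t => (c j : Equiv.Perm M) (f' t))) ∈ Set.ofPred φ.Realize := Iff.rfl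
  rw [h1, ← hφ]
  show (Sum.elim (fun t => (a i : Equiv.Perm M) (f t))
      (fun t => (c j : Equiv.Perm M) (f' t))) ∘ finSumFinEquiv.symm ∈ s ↔ _
  constructor
  · rintro ⟨g, h, hgh, e⟩
    have e1 : ∀ t, (a i : Equiv.Perm M) (f t) = (g : Equiv.Perm M) (f t) := by
      intro t
      have := congrFun e (Fin.castAdd _ t)
      rw [Fin.append_left] at this
      simpa using this
    have e2 : ∀ t, (h : Equiv.Perm M) (f' t) = (c j : Equiv.Perm M) (f' t) := by
      intro t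
      have := congrFun e (Fin.natAdd _ t)
      rw [Fin.append_right] at this
      symm
      simpa using this
    have := hX _ (hf _ _ e1) _ hgh _ (hf' _ _ e2)
    have e3 : (a i)⁻¹ * g * (g⁻¹ * h) * (h⁻¹ * c j) = (a i)⁻¹ * c j := by group
    rw [e3] at this
    exact this
  · intro h
    refine ⟨a i, c j, h, ?_⟩
    funext t
    refine Fin.addCases (fun t => ?_) (fun t => ?_) t
    · rw [Fin.append_left]
      simp
    · rw [Fin.append_right]
      simp

end Pool.Agent.Helper596_Q
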