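import Mathlib
import Pool.Agent.Helper596_Q.Fin
import Pool.Agent.Helper596_Q.Supp
import Pool.Agent.Helper596_Q.RN
import Pool.Agent.Helper596_Q.F0
import Pool.Agent.Helper596_Q.A5
import Pool.Agent.Helper596_Q.RSysOf
import Pool.Agent.Helper596_Q.B2
import Pool.Agent.Helper596_Q.StabOf
import Pool.Agent.Helper596_Q.L2
import Pool.Agent.Helper596_Q.L3b
import Pool.Agent.Helper596_Q.L7
import Pool.Agent.Helper596_Q.S2
import Pool.Agent.Helper596_Q.S3
import Pool.Agent.Helper596_Q.Final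

/-!
# Stable structures with a compatible action of the automorphism group of the rational order
-/

set_option autoImplicit false

namespace Pool.Agent.Helper596_Q

open FirstOrder FirstOrder.Language

theorem exists_wsysE_of_stable (L : FirstOrder.Language.{0, 0}) [L.IsRelational] (M : Type)
    [Countable M] [L.Structure M] [MulAction (ℚ ≃o ℚ) M] (S : QAct M)
    (hact : ∀ (σ : ℚ ≃o ℚ) (n : ℕ) (R : L.Relations n) (v : Fin n → M),
      Structure.RelMap R v ↔ Structure.RelMap R (fun t => σ • v t))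
    (horb : ∀ n : ℕ, ∃ S : Finset (Fin n → M), ∀ v : Fin n → M, ∃ s ∈ S,
      ∃ σ : ℚ ≃o ℚ, ∀ i, σ • (s i) = v i)
    (hst : ∀ (k l : ℕ) (φ : L.Formula (Fin k ⊕ Fin l)), ¬ ∃ (a : ℕ → Fin k → M)
      (b : ℕ → Fin l → M), ∀ i j, φ.Realize (Sum.elim (a i) (b j)) ↔ i ≤ j) :
    ∃ (X : Type) (_ : MulAction ↥(AutL L M) X) (_ : WSysE ↥(AutL L M) X) (i : M → X),
      Function.Injective i ∧ ∀ (a : ↥(AutL L M)) (x : M), i (a • x) = a • i x := by
  classical
  have hA : ∀ σ : ℚ ≃o ℚ, MulAction.toPerm σ ∈ AutL L M := fun σ n R x => hact σ n R x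
  have ol : ∀ n : ℕ, ∃ S : Finset (Fin n → M), ∀ v : Fin n → M, ∃ s ∈ S, ∃ a ∈ AutL L M,
      ∀ i, a (s i) = v i := by
    intro n
    obtain ⟨T, hT⟩ := horb n
    refine ⟨T, fun v => ?_⟩
    obtain ⟨s, hs, σ, hσ⟩ := hT v
    exact ⟨s, hs, MulAction.toPerm σ, hA σ, hσ⟩
  have hStab : Stab (osysM (AutL L M) ol) :=
    stab_of_stable L M (AutL L M) mem_of_equiv (fun g hg => equiv_of_mem hg) ol hst
  have hFR : FR (osysM (AutL L M) ol) :=
    fr_of_rkM (AutL L M) ol (S.k + 1) (rkM_le S (AutL L M) hA ol hStab)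
  let R : RSys ↥(AutL L M) := rsysOf (osysM (AutL L M) ol) hFR
  have hopn : ∀ V : Subgroup ↥(AutL L M), R.Opn V ↔ ∃ F : Finset M, stb ↥(AutL L M) F ≤ V :=
    fun V => Iff.rfl
  obtain ⟨E, hE⟩ := exists_least_open S (AutL L M) hA ol autL_clo
  have hbd : ∀ V, R.Opn V → ∃ κ : ℕ, ∀ g : ↥(AutL L M), ∃ W : Finset ℚ,
      W.card ≤ κ ∧ Lab (phiG (AutL L M) hA) W (cj g V) := by
    intro V hV
    obtain ⟨F, hF⟩ := (hopn V).1 hV
    refine ⟨F.card * S.k, fun g => ⟨F.biUnion (fun x => S.supp (g • x)), ?_, ?_⟩⟩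
    · exact Finset.card_biUnion_le_card_mul _ _ _ (fun x _ => S.card_le _)
    · intro σ hσ
      rw [mem_cj]
      apply hF
      intro x hx
      rw [mul_smul, mul_smul, inv_smul_eq_iff, phiG_smul]
      exact S.fix σ (g • x) (fun q hq => hσ q (Finset.mem_biUnion.2 ⟨x, hx, hq⟩))
  have hT : Triv R := triv_of_labels R hStab (phiG (AutL L M) hA) hbd E hE
  have hOB : OB R := ⟨hT, fun P Q hP hQ => one_based R hT P Q hP hQ⟩
  have horb' : ∃ T : Finset M, ∀ x : M, ∃ t ∈ T, ∃ a : ↥(AutL L M), a • t = x := by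
    obtain ⟨S, hS⟩ := ol 1
    refine ⟨S.image (fun s => s 0), fun x => ?_⟩
    obtain ⟨s, hs, a, ha, h⟩ := hS (fun _ => x)
    exact ⟨s 0, Finset.mem_image_of_mem _ hs, ⟨a, ha⟩, h 0⟩
  obtain ⟨LS⟩ := exists_lsysP R hOB hopn horb'
  exact exists_wsysE LS

end Pool.Agent.Helper596_Q
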