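import Mathlib
import Pool.Agent.Helper596_Q.LDefs

/-!
# Relabelling by arbitrary injective words: definitions
-/

set_option autoImplicit false

namespace Pool.Agent.Helper596_Q

/-- `g` acts on the points whose support is contained in a finite subset of `V` like elements
of `A` which act on the labels like `u`. -/
def LTm (A : Type) {X : Type} [Group A] [MulAction A X] (supp : X → Finset ℚ) (V : Set ℚ)
    (u : ℚ → ℚ) (g : X → X) : Prop :=
  ∀ W : Finset ℚ, (W : Set ℚ) ⊆ V → ∃ a : A, TT supp W u a ∧ ∀ x, supp x ⊆ W → g x = a • x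

/-- The automorphisms of the rational order act locally like elements of `A`, and respect the
supports. -/
structure HComp (A : Type) {X : Type} [Group A] [MulAction A X] [MulAction (ℚ ≃o ℚ) X]
    (supp : X → Finset ℚ) : Prop where
  loc : ∀ (σ : ℚ ≃o ℚ) (F : Finset X), ∃ a : A, ∀ x ∈ F, σ • x = a • x
  fix : ∀ (σ : ℚ ≃o ℚ) (x : X), (∀ q ∈ supp x, σ q = q) → σ • x = x
  supp_smul : ∀ (σ : ℚ ≃o ℚ) (x : X), supp (σ • x) = (supp x).image σ

/-- `w` on the negative rationals, the identity on the others. -/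
def uu (w : ℚ → ℚ) (q : ℚ) : ℚ := if q < 0 then w q else q

/-- The nonnegative rationals. -/
def ZZ : Set ℚ := {q | 0 ≤ q}

/-- `σ` fixes the nonnegative rationals. -/
def HN (σ : ℚ ≃o ℚ) : Prop := ∀ q : ℚ, 0 ≤ q → σ q = q

/-- `V` consists of negative rationals and `w` maps them injectively to negative rationals. -/
def GW (V : Finset ℚ) (w : ℚ → ℚ) : Prop :=
  (∀ q ∈ V, q < 0) ∧ (∀ q ∈ V, w q < 0) ∧ Set.InjOn w (V : Set ℚ)

/-- A coherent family of relabellings for sets of `n` labels. -/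
structure Good (A : Type) {X : Type} [Group A] [MulAction A X] [MulAction (ℚ ≃o ℚ) X]
    (supp : X → Finset ℚ) (n : ℕ) (Φ : Finset ℚ → (ℚ → ℚ) → X → X) : Prop where
  g1 : ∀ (V : Finset ℚ) (w : ℚ → ℚ), V.card = n → GW V w →
    LTm A supp ((V : Set ℚ) ∪ ZZ) (uu w) (Φ V w)
  g2 : ∀ (V : Finset ℚ) (w : ℚ → ℚ), V.card = n + 1 → GW V w → ∀ q ∈ V, ∀ q' ∈ V, q ≠ q' →
    ∀ x, (supp x : Set ℚ) ⊆ (((V.erase q).erase q' : Finset ℚ) : Set ℚ) ∪ ZZ →
      Φ (V.erase q) w x = Φ (V.erase q') w x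
  g3 : ∀ (V : Finset ℚ) (w : ℚ → ℚ) (σ : ℚ ≃o ℚ), V.card = n → (∀ q ∈ V, q < 0) →
    GW (V.image σ) w → HN σ → ∀ x, (supp x : Set ℚ) ⊆ (V : Set ℚ) ∪ ZZ →
      Φ (V.image σ) w (σ • x) = Φ V (w ∘ σ) x
  g4 : ∀ (V : Finset ℚ) (w w' : ℚ → ℚ), V.card = n → (∀ q ∈ V, w q = w' q) → Φ V w = Φ V w'

end Pool.Agent.Helper596_Q
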