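import Mathlib
import Pool.Agent.Helper596_Q.TDefs

/-!
# Extension of partial relabellings from faces
-/

set_option autoImplicit false

namespace Pool.Agent.Helper596_Q

theorem TT.mono {A X : Type} [Group A] [MulAction A X] {supp : X → Finset ℚ} {W W' : Finset ℚ}
    {u : ℚ → ℚ} {a : A} (h : TT supp W u a) (hW : W' ⊆ W) (hu : Set.InjOn u (W : Set ℚ)) :
    TT supp W' u a := by
  refine ⟨fun x hx => h.1 x (hx.trans hW), ?_⟩
  intro y hy
  obtain ⟨x, hx, hxy⟩ := h.2 y (hy.trans (Finset.image_subset_image hW))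
  refine ⟨x, ?_, hxy⟩
  have h1 : supp y = (supp x).image u := by rw [← hxy]; exact h.1 x hx
  intro q hq
  have h2 : u q ∈ supp y := by rw [h1]; exact Finset.mem_image_of_mem u hq
  obtain ⟨q', hq', he⟩ := Finset.mem_image.1 (hy h2)
  have h3 := hu (hW hq') (hx hq) he
  rw [← h3]; exact hq'

theorem ext_faces_imginj {W s t : Finset ℚ} {u : ℚ → ℚ} (hu : Set.InjOn u (W : Set ℚ))
    (hs : s ⊆ W) (ht : t ⊆ W) (h : s.image u = t.image u) : s = t := by
  have key : ∀ {s t : Finset ℚ}, s ⊆ W → t ⊆ W → s.image u = t.image u → s ⊆ t := by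
    intro s t hs ht h q hq
    have h2 : u q ∈ t.image u := by rw [← h]; exact Finset.mem_image_of_mem u hq
    obtain ⟨q', hq', he⟩ := Finset.mem_image.1 h2
    have h3 := hu (ht hq') (hs hq) he
    rw [← h3]; exact hq'
  exact Finset.Subset.antisymm (key hs ht h) (key ht hs h.symm)

theorem ext_faces_aux {A X : Type} [Group A] [MulAction A X] (S : WSysE A X) (u : ℚ → ℚ)
    (g : ℚ → X → X) (n : ℕ) : ∀ (L : Finset ℚ) (Z : Set ℚ), L.card = n + 1 → Z.Infinite →
    (∀ l ∈ L, l ∉ Z) → Set.InjOn u ((L : Set ℚ) ∪ Z) →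
    (∀ l ∈ L, ∀ Z₀ : Finset ℚ, (Z₀ : Set ℚ) ⊆ Z → ∃ a : A, TT S.supp (L.erase l ∪ Z₀) u a ∧
      ∀ x, S.supp x ⊆ L.erase l ∪ Z₀ → g l x = a • x) →
    (∀ l ∈ L, ∀ l' ∈ L, l ≠ l' → ∀ Z₀ : Finset ℚ, (Z₀ : Set ℚ) ⊆ Z → ∀ x,
      S.supp x ⊆ (L.erase l).erase l' ∪ Z₀ → g l x = g l' x) → ∀ (Z₀ : Finset ℚ),
    (Z₀ : Set ℚ) ⊆ Z →
    ∃ a : A, TT S.supp (L ∪ Z₀) u a ∧
      ∀ l ∈ L, ∀ x, S.supp x ⊆ L.erase l ∪ Z₀ → g l x = a • x := by
  induction n with
  | zero =>
    intro L Z hc hZ hLZ hu h1 h2 Z₀ hZ₀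
    obtain ⟨l, rfl⟩ := Finset.card_eq_one.1 hc
    obtain ⟨a, ha, hg⟩ := h1 l (Finset.mem_singleton_self l) Z₀ hZ₀
    have hinj : Set.InjOn u ((({l} : Finset ℚ) ∪ Z₀ : Finset ℚ) : Set ℚ) := by
      refine hu.mono ?_
      rw [Finset.coe_union]
      exact Set.union_subset_union_right _ hZ₀
    obtain ⟨b, hb, hba⟩ := S.ext ({l} ∪ Z₀) (({l} : Finset ℚ).erase l ∪ Z₀) u a
      (Finset.union_subset_union_left (Finset.erase_subset _ _)) hinj ha
    refine ⟨b, hb, ?_⟩
    intro l' hl' x hx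
    rw [Finset.mem_singleton] at hl'
    subst hl'
    rw [hg x hx, hba x hx]
  | succ n ih =>
    intro L Z hc hZ hLZ hu h1 h2 Z₀ hZ₀
    have hLne : L.Nonempty := by
      rw [← Finset.card_pos, hc]; omega
    obtain ⟨l₀, hl₀⟩ := hLne
    have hl₀Z : l₀ ∉ Z := hLZ l₀ hl₀
    have hsubZ : ∀ Z₀' : Finset ℚ, (Z₀' : Set ℚ) ⊆ insert l₀ Z → ((Z₀'.erase l₀ : Finset ℚ) : Set ℚ) ⊆ Z := by
      intro Z₀' h q hq
      have hq' := Finset.mem_erase.1 (Finset.mem_coe.1 hq)
      rcases h (Finset.mem_coe.2 hq'.2) with h3 | h3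
      · exact absurd h3 hq'.1
      · exact h3
    have IH := ih (L.erase l₀) (insert l₀ Z) (by rw [Finset.card_erase_of_mem hl₀, hc]; omega)
      (hZ.mono (Set.subset_insert _ _))
      (by
        intro l hl h3
        have hl' := Finset.mem_erase.1 hl
        rcases h3 with h3 | h3
        · exact hl'.1 h3
        · exact hLZ l hl'.2 h3)
      (by
        refine hu.mono ?_
        intro q hq
        rcases hq with hq | hq
        · exact Or.inl (Finset.mem_coe.2 (Finset.mem_of_mem_erase (Finset.mem_coe.1 hq)))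
        · rcases hq with hq | hq
          · exact Or.inl (by rw [hq]; exact Finset.mem_coe.2 hl₀)
          · exact Or.inr hq)
      (by
        intro l hl Z₀' hZ₀'
        have hl' := Finset.mem_erase.1 hl
        obtain ⟨a, ha, hg⟩ := h1 l hl'.2 (Z₀'.erase l₀) (hsubZ Z₀' hZ₀')
        have hsub : (L.erase l₀).erase l ∪ Z₀' ⊆ L.erase l ∪ Z₀'.erase l₀ := by
          intro q hq
          rcases Finset.mem_union.1 hq with hq | hq
          · have h3 := Finset.mem_erase.1 hq
            have h4 := Finset.mem_erase.1 h3.2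
            exact Finset.mem_union_left _ (Finset.mem_erase.2 ⟨h3.1, h4.2⟩)
          · by_cases h3 : q = l₀
            · exact Finset.mem_union_left _ (Finset.mem_erase.2 ⟨by rw [h3]; exact hl'.1.symm, by rw [h3]; exact hl₀⟩)
            · exact Finset.mem_union_right _ (Finset.mem_erase.2 ⟨h3, hq⟩)
        refine ⟨a, ha.mono hsub ?_, fun x hx => hg x (hx.trans hsub)⟩
        refine hu.mono ?_
        rw [Finset.coe_union]
        exact Set.union_subset_union (Finset.coe_subset.2 (Finset.erase_subset _ _)) (hsubZ Z₀' hZ₀'))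
      (by
        intro l hl l' hl' hne Z₀' hZ₀' x hx
        have h3 := Finset.mem_erase.1 hl
        have h3' := Finset.mem_erase.1 hl'
        refine h2 l h3.2 l' h3'.2 hne (Z₀'.erase l₀) (hsubZ Z₀' hZ₀') x (hx.trans ?_)
        intro q hq
        rcases Finset.mem_union.1 hq with hq | hq
        · have h4 := Finset.mem_erase.1 hq
          have h5 := Finset.mem_erase.1 h4.2
          have h6 := Finset.mem_erase.1 h5.2
          exact Finset.mem_union_left _ (Finset.mem_erase.2 ⟨h4.1, Finset.mem_erase.2 ⟨h5.1, h6.2⟩⟩)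
        · by_cases h4 : q = l₀
          · refine Finset.mem_union_left _ (Finset.mem_erase.2 ⟨?_, Finset.mem_erase.2 ⟨?_, ?_⟩⟩)
            · rw [h4]; exact h3'.1.symm
            · rw [h4]; exact h3.1.symm
            · rw [h4]; exact hl₀
          · exact Finset.mem_union_right _ (Finset.mem_erase.2 ⟨h4, hq⟩))
    obtain ⟨z, hzZ, hz₀⟩ := hZ.exists_notMem_finset Z₀
    obtain ⟨a', ha', hga'⟩ := IH (insert l₀ (insert z Z₀)) (by
      rw [Finset.coe_insert, Finset.coe_insert]
      exact Set.insert_subset_insert (Set.insert_subset hzZ hZ₀))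
    have hzZ₀ : ((insert z Z₀ : Finset ℚ) : Set ℚ) ⊆ Z := by
      rw [Finset.coe_insert]
      exact Set.insert_subset hzZ hZ₀
    obtain ⟨b, hb, hgb⟩ := h1 l₀ hl₀ (insert z Z₀) hzZ₀
    have hbig : Set.InjOn u ((L.erase l₀ ∪ insert l₀ (insert z Z₀) : Finset ℚ) : Set ℚ) := by
      refine hu.mono ?_
      intro q hq
      rw [Finset.mem_coe, Finset.mem_union, Finset.mem_insert] at hq
      rcases hq with hq | hq | hq
      · exact Or.inl (Finset.mem_coe.2 (Finset.mem_of_mem_erase hq))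
      · exact Or.inl (by rw [hq]; exact Finset.mem_coe.2 hl₀)
      · exact Or.inr (hzZ₀ (Finset.mem_coe.2 hq))
    have hsub1 : L.erase l₀ ∪ insert z Z₀ ⊆ L.erase l₀ ∪ insert l₀ (insert z Z₀) :=
      Finset.union_subset_union_right (Finset.subset_insert _ _)
    have hi : ∀ x, S.supp x ⊆ L.erase l₀ ∪ insert z Z₀ → S.supp ((a'⁻¹ * b) • x) = S.supp x := by
      intro x hx
      have e1 := hb.1 x hx
      obtain ⟨x', hx', hx'e⟩ := ha'.2 (b • x) (by
        rw [e1]; exact Finset.image_subset_image (hx.trans hsub1))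
      have e2 : (a'⁻¹ * b) • x = x' := by
        rw [mul_smul, ← hx'e, inv_smul_smul]
      rw [e2]
      have e3 := ha'.1 x' hx'
      rw [hx'e, e1] at e3
      exact (ext_faces_imginj hbig (hx.trans hsub1) hx' e3).symm
    have hii : ∀ l ∈ L.erase l₀, ∀ x, S.supp x ⊆ (L.erase l₀).erase l ∪ insert z Z₀ →
        (a'⁻¹ * b) • x = x := by
      intro l hl x hx
      have hl' := Finset.mem_erase.1 hl
      have e1 : g l₀ x = g l x := h2 l₀ hl₀ l hl'.2 hl'.1.symm (insert z Z₀) hzZ₀ x hx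
      have e2 : g l x = a' • x := hga' l hl x
        (hx.trans (Finset.union_subset_union_right (Finset.subset_insert _ _)))
      have e3 : g l₀ x = b • x := hgb x
        (hx.trans (Finset.union_subset_union_left (Finset.erase_subset _ _)))
      rw [mul_smul, ← e3, e1, e2, inv_smul_smul]
    have hl₀S : l₀ ∉ L.erase l₀ ∪ Z₀ := by
      intro h
      rcases Finset.mem_union.1 h with h | h
      · exact (Finset.mem_erase.1 h).1 rfl
      · exact hl₀Z (hZ₀ (Finset.mem_coe.2 h))
    have hzS : z ∉ L.erase l₀ ∪ Z₀ := by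
      intro h
      rcases Finset.mem_union.1 h with h | h
      · exact hLZ z (Finset.mem_of_mem_erase h) hzZ
      · exact hz₀ h
    obtain ⟨v, hv⟩ : ∃ v : ℚ → ℚ, v = fun q => if q = l₀ then z else q := ⟨_, rfl⟩
    have hv0 : v l₀ = z := by rw [hv]; simp
    have hv1 : ∀ q, q ≠ l₀ → v q = q := by
      intro q hq
      rw [hv]; simp [hq]
    have hv2 : ∀ q ∈ L.erase l₀ ∪ Z₀, v q = q := by
      intro q hq
      exact hv1 q (fun h => hl₀S (h ▸ hq))
    have himg : ∀ s : Finset ℚ, s ⊆ L.erase l₀ ∪ Z₀ → s.image v = s := by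
      intro s hs
      calc s.image v = s.image id := Finset.image_congr (fun q hq => hv2 q (hs (Finset.mem_coe.1 hq)))
        _ = s := Finset.image_id
    have hTT1 : TT S.supp (L.erase l₀ ∪ Z₀) v (1 : A) := by
      refine ⟨fun x hx => by rw [one_smul, himg _ hx], ?_⟩
      intro y hy
      rw [himg _ (Finset.Subset.refl _)] at hy
      exact ⟨y, hy, one_smul _ _⟩
    have hvinj : Set.InjOn v ((insert l₀ (L.erase l₀ ∪ Z₀) : Finset ℚ) : Set ℚ) := by
      intro q hq q' hq' he
      rw [Finset.mem_coe, Finset.mem_insert] at hq hq'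
      rcases hq with hq | hq
      · rcases hq' with hq' | hq'
        · rw [hq, hq']
        · rw [hq, hv0, hv2 q' hq'] at he
          exact absurd (he ▸ hq') hzS
      · rcases hq' with hq' | hq'
        · rw [hq', hv0, hv2 q hq] at he
          exact absurd (he ▸ hq) hzS
        · rw [hv2 q hq, hv2 q' hq'] at he
          exact he
    obtain ⟨s, hs, hs1⟩ := S.ext (insert l₀ (L.erase l₀ ∪ Z₀)) (L.erase l₀ ∪ Z₀) v 1
      (Finset.subset_insert _ _) hvinj hTT1
    have hLS : insert l₀ (L.erase l₀ ∪ Z₀) = L ∪ Z₀ := by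
      rw [← Finset.insert_union, Finset.insert_erase hl₀]
    rw [hLS] at hs hvinj
    have hvimg : (L ∪ Z₀).image v ⊆ L.erase l₀ ∪ insert z Z₀ := by
      intro q hq
      obtain ⟨q', hq', he⟩ := Finset.mem_image.1 hq
      by_cases h3 : q' = l₀
      · rw [h3, hv0] at he
        rw [← he]
        exact Finset.mem_union_right _ (Finset.mem_insert_self _ _)
      · rw [hv1 q' h3] at he
        rw [← he]
        rcases Finset.mem_union.1 hq' with h4 | h4
        · exact Finset.mem_union_left _ (Finset.mem_erase.2 ⟨h3, h4⟩)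
        · exact Finset.mem_union_right _ (Finset.mem_insert_of_mem h4)
    obtain ⟨k, hk⟩ : ∃ k : A, k = a'⁻¹ * b := ⟨_, rfl⟩
    rw [← hk] at hi hii
    have hiii : ∀ x, S.supp x ⊆ L ∪ Z₀ → S.supp ((s⁻¹ * k * s) • x) = S.supp x := by
      intro x hx
      have e1 := hs.1 x hx
      have e2 : S.supp (s • x) ⊆ L.erase l₀ ∪ insert z Z₀ := by
        rw [e1]; exact (Finset.image_subset_image hx).trans hvimg
      have e3 := hi (s • x) e2
      obtain ⟨x'', hx'', hxe⟩ := hs.2 (k • s • x) (by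
        rw [e3, e1]; exact Finset.image_subset_image hx)
      have e4 : (s⁻¹ * k * s) • x = x'' := by
        rw [mul_smul, mul_smul, ← hxe, inv_smul_smul]
      rw [e4]
      have e5 := hs.1 x'' hx''
      rw [hxe, e3, e1] at e5
      exact (ext_faces_imginj hvinj hx hx'' e5).symm
    have hsub2 : L ∪ Z₀ ⊆ L.erase l₀ ∪ insert l₀ (insert z Z₀) := by
      intro q hq
      rcases Finset.mem_union.1 hq with h3 | h3
      · by_cases h4 : q = l₀
        · rw [h4]; exact Finset.mem_union_right _ (Finset.mem_insert_self _ _)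
        · exact Finset.mem_union_left _ (Finset.mem_erase.2 ⟨h4, h3⟩)
      · exact Finset.mem_union_right _ (Finset.mem_insert_of_mem (Finset.mem_insert_of_mem h3))
    obtain ⟨p, hp⟩ : ∃ p : A, p = s⁻¹ * k * s := ⟨_, rfl⟩
    rw [← hp] at hiii
    refine ⟨a' * p, ⟨?_, ?_⟩, ?_⟩
    · intro x hx
      have e1 := hiii x hx
      have e2 : S.supp (p • x) ⊆ L.erase l₀ ∪ insert l₀ (insert z Z₀) := by
        rw [e1]; exact hx.trans hsub2
      rw [mul_smul, ha'.1 _ e2, e1]
    · intro y hy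
      obtain ⟨x₁, hx₁, hxy⟩ := (ha'.mono hsub2 hbig).2 y hy
      have hmaps : Set.MapsTo (fun x => p • x) {x | S.supp x ⊆ L ∪ Z₀} {x | S.supp x ⊆ L ∪ Z₀} := by
        intro x hx
        change S.supp (p • x) ⊆ L ∪ Z₀
        rw [hiii x hx]
        exact hx
      have hinj : Set.InjOn (fun x => p • x) {x | S.supp x ⊆ L ∪ Z₀} :=
        (MulAction.injective p).injOn
      have hbij := ((S.fin (L ∪ Z₀)).injOn_iff_bijOn_of_mapsTo hmaps).1 hinj
      obtain ⟨x, hx, hxe⟩ := hbij.surjOn hx₁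
      refine ⟨x, hx, ?_⟩
      have hxe' : p • x = x₁ := hxe
      rw [mul_smul, hxe', hxy]
    · intro l hl x hx
      by_cases h3 : l = l₀
      · subst h3
        have e1 : s • x = x := by rw [hs1 x hx, one_smul]
        have e0 : S.supp x ⊆ L.erase l ∪ insert z Z₀ :=
          hx.trans (Finset.union_subset_union_right (Finset.subset_insert _ _))
        have e2 := hi x e0
        have e3 : s • (k • x) = k • x := by
          rw [hs1 (k • x) (by rw [e2]; exact hx), one_smul]
        have e4 : p • x = k • x := by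
          rw [hp, mul_smul, mul_smul, e1]
          exact inv_smul_eq_iff.2 e3.symm
        rw [hgb x e0, mul_smul, e4, hk, mul_smul, smul_inv_smul]
      · have hl' : l ∈ L.erase l₀ := Finset.mem_erase.2 ⟨h3, hl⟩
        have hxL : S.supp x ⊆ L ∪ Z₀ :=
          hx.trans (Finset.union_subset_union_left (Finset.erase_subset _ _))
        have e1 : S.supp (s • x) ⊆ (L.erase l₀).erase l ∪ insert z Z₀ := by
          rw [hs.1 x hxL]
          intro q hq
          obtain ⟨q', hq', he⟩ := Finset.mem_image.1 hq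
          by_cases h4 : q' = l₀
          · rw [h4, hv0] at he
            rw [← he]
            exact Finset.mem_union_right _ (Finset.mem_insert_self _ _)
          · rw [hv1 q' h4] at he
            rw [← he]
            rcases Finset.mem_union.1 (hx hq') with h5 | h5
            · have h6 := Finset.mem_erase.1 h5
              exact Finset.mem_union_left _ (Finset.mem_erase.2 ⟨h6.1, Finset.mem_erase.2 ⟨h4, h6.2⟩⟩)
            · exact Finset.mem_union_right _ (Finset.mem_insert_of_mem h5)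
        have e2 := hii l hl' (s • x) e1
        have e3 : p • x = x := by
          rw [hp, mul_smul, mul_smul, e2, inv_smul_smul]
        rw [mul_smul, e3]
        refine hga' l hl' x ?_
        intro q hq
        rcases Finset.mem_union.1 (hx hq) with h5 | h5
        · have h6 := Finset.mem_erase.1 h5
          by_cases h4 : q = l₀
          · rw [h4]; exact Finset.mem_union_right _ (Finset.mem_insert_self _ _)
          · exact Finset.mem_union_left _ (Finset.mem_erase.2 ⟨h6.1, Finset.mem_erase.2 ⟨h4, h6.2⟩⟩)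
        · exact Finset.mem_union_right _ (Finset.mem_insert_of_mem (Finset.mem_insert_of_mem h5))

theorem ext_faces {A X : Type} [Group A] [MulAction A X] (S : WSysE A X) (u : ℚ → ℚ)
    (L : Finset ℚ) (Z : Set ℚ) (hL : L.Nonempty) (hZ : Z.Infinite) (hLZ : ∀ l ∈ L, l ∉ Z)
    (hu : Set.InjOn u ((L : Set ℚ) ∪ Z)) (g : ℚ → X → X)
    (h1 : ∀ l ∈ L, ∀ Z₀ : Finset ℚ, (Z₀ : Set ℚ) ⊆ Z → ∃ a : A, TT S.supp (L.erase l ∪ Z₀) u a ∧
      ∀ x, S.supp x ⊆ L.erase l ∪ Z₀ → g l x = a • x)
    (h2 : ∀ l ∈ L, ∀ l' ∈ L, l ≠ l' → ∀ Z₀ : Finset ℚ, (Z₀ : Set ℚ) ⊆ Z → ∀ x,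
      S.supp x ⊆ (L.erase l).erase l' ∪ Z₀ → g l x = g l' x) (Z₀ : Finset ℚ)
    (hZ₀ : (Z₀ : Set ℚ) ⊆ Z) :
    ∃ a : A, TT S.supp (L ∪ Z₀) u a ∧
      ∀ l ∈ L, ∀ x, S.supp x ⊆ L.erase l ∪ Z₀ → g l x = a • x := by
  have hc : 0 < L.card := Finset.card_pos.2 hL
  exact ext_faces_aux S u g (L.card - 1) L Z (by omega) hZ hLZ hu h1 h2 Z₀ hZ₀

end Pool.Agent.Helper596_Q
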