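import Mathlib
import Pool.Agent.Helper596_Q.TDefs
import Pool.Agent.Helper596_Q.T1

/-!
# Limits of relabellings
-/

set_option autoImplicit false

namespace Pool.Agent.Helper596_Q


theorem ext_faces_lim {A X : Type} [Group A] [MulAction A X] (S : WSysE A X) (u : ℚ → ℚ)
    (L : Finset ℚ) (Z : Set ℚ) (hL : L.Nonempty) (hZ : Z.Infinite) (hLZ : ∀ l ∈ L, l ∉ Z)
    (hu : Set.InjOn u ((L : Set ℚ) ∪ Z)) (g : ℚ → X → X)
    (h1 : ∀ l ∈ L, LTm A S.supp (((L.erase l : Finset ℚ) : Set ℚ) ∪ Z) u (g l))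
    (h2 : ∀ l ∈ L, ∀ l' ∈ L, l ≠ l' → ∀ x,
      (S.supp x : Set ℚ) ⊆ (((L.erase l).erase l' : Finset ℚ) : Set ℚ) ∪ Z → g l x = g l' x) :
    ∃ G : X → X, LTm A S.supp ((L : Set ℚ) ∪ Z) u G ∧
      ∀ l ∈ L, ∀ x, (S.supp x : Set ℚ) ⊆ ((L.erase l : Finset ℚ) : Set ℚ) ∪ Z → g l x = G x := by
  classical
  let U : Ultrafilter (Finset ℚ) := Ultrafilter.of Filter.atTop
  have hU : ∀ T₀ : Finset ℚ, ∀ᶠ T in (U : Filter (Finset ℚ)), T₀ ⊆ T := fun T₀ =>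
    Ultrafilter.of_le Filter.atTop (Filter.mem_atTop T₀)
  let Z₀ : Finset ℚ → Finset ℚ := fun T => T.filter (· ∈ Z)
  have hZ₀ : ∀ T, ((Z₀ T : Finset ℚ) : Set ℚ) ⊆ Z := by
    intro T q hq
    exact (Finset.mem_filter.1 (Finset.mem_coe.1 hq)).2
  have h1' : ∀ l ∈ L, ∀ Z₀ : Finset ℚ, (Z₀ : Set ℚ) ⊆ Z → ∃ a : A, TT S.supp (L.erase l ∪ Z₀) u a ∧
      ∀ x, S.supp x ⊆ L.erase l ∪ Z₀ → g l x = a • x := by
    intro l hl Z₁ hZ₁
    refine h1 l hl (L.erase l ∪ Z₁) ?_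
    rw [Finset.coe_union]
    exact Set.union_subset_union_right _ hZ₁
  have h2' : ∀ l ∈ L, ∀ l' ∈ L, l ≠ l' → ∀ Z₀ : Finset ℚ, (Z₀ : Set ℚ) ⊆ Z → ∀ x,
      S.supp x ⊆ (L.erase l).erase l' ∪ Z₀ → g l x = g l' x := by
    intro l hl l' hl' hne Z₁ hZ₁ x hx
    refine h2 l hl l' hl' hne x ?_
    have hx' : (S.supp x : Set ℚ) ⊆ (((L.erase l).erase l' ∪ Z₁ : Finset ℚ) : Set ℚ) := Finset.coe_subset.2 hx
    rw [Finset.coe_union] at hx'
    exact hx'.trans (Set.union_subset_union_right _ hZ₁)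
  choose a ha1 ha2 using fun T => ext_faces S u L Z hL hZ hLZ hu g h1' h2' (Z₀ T) (hZ₀ T)
  have hsub : ∀ (W T : Finset ℚ) (L' : Finset ℚ), (W : Set ℚ) ⊆ (L' : Set ℚ) ∪ Z → W ⊆ T → W ⊆ L' ∪ Z₀ T := by
    intro W T L' hW hWT q hq
    rcases hW (Finset.mem_coe.2 hq) with h | h
    · exact Finset.mem_union_left _ (Finset.mem_coe.1 h)
    · exact Finset.mem_union_right _ (Finset.mem_filter.2 ⟨hWT hq, h⟩)
  have hlim : ∀ x, (S.supp x : Set ℚ) ⊆ (L : Set ℚ) ∪ Z →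
      ∃ y, ∀ᶠ T in (U : Filter (Finset ℚ)), a T • x = y := by
    intro x hx
    have h3 : ∀ᶠ T in (U : Filter (Finset ℚ)), ∃ y ∈ {y | S.supp y ⊆ (S.supp x).image u}, a T • x = y := by
      filter_upwards [hU (S.supp x)] with T hT
      refine ⟨a T • x, ?_, rfl⟩
      show S.supp (a T • x) ⊆ (S.supp x).image u
      rw [(ha1 T).1 x (hsub _ T L hx hT)]
    obtain ⟨y, -, hy⟩ := (Ultrafilter.eventually_exists_mem_iff (S.fin ((S.supp x).image u))).1 h3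
    exact ⟨y, hy⟩
  let G : X → X := fun x => if h : (S.supp x : Set ℚ) ⊆ (L : Set ℚ) ∪ Z then Classical.choose (hlim x h) else x
  have hG : ∀ x, (S.supp x : Set ℚ) ⊆ (L : Set ℚ) ∪ Z → ∀ᶠ T in (U : Filter (Finset ℚ)), a T • x = G x := by
    intro x hx
    have : G x = Classical.choose (hlim x hx) := dif_pos hx
    rw [this]
    exact Classical.choose_spec (hlim x hx)
  refine ⟨G, ?_, ?_⟩
  · intro W hW
    have h3 : ∀ᶠ T in (U : Filter (Finset ℚ)), ∀ x ∈ {x | S.supp x ⊆ W}, a T • x = G x := by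
      rw [Filter.eventually_all_finite (S.fin W)]
      intro x hx
      exact hG x ((Finset.coe_subset.2 hx).trans hW)
    obtain ⟨T, hT1, hT2⟩ := (h3.and (hU W)).exists
    refine ⟨a T, TT.mono (ha1 T) (hsub W T L hW hT2) (hu.mono ?_), fun x hx => (hT1 x hx).symm⟩
    rw [Finset.coe_union]
    exact Set.union_subset_union_right _ (hZ₀ T)
  · intro l hl x hx
    have hx' : (S.supp x : Set ℚ) ⊆ (L : Set ℚ) ∪ Z := by
      refine hx.trans (Set.union_subset_union_left _ ?_)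
      exact Finset.coe_subset.2 (Finset.erase_subset _ _)
    obtain ⟨T, hT1, hT2⟩ := ((hG x hx').and (hU (S.supp x))).exists
    rw [← hT1]
    exact ha2 T l hl x (hsub _ T _ hx hT2)

end Pool.Agent.Helper596_Q
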