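import Mathlib
import Pool.Agent.Helper596_Q.TDefs
import Pool.Agent.Helper596_Q.Ext
import Pool.Agent.Helper596_Q.T2

/-!
# Coherent relabellings: the step
-/

set_option autoImplicit false

namespace Pool.Agent.Helper596_Q


theorem exists_neg_ext (V : Finset ℚ) (f : ℚ → ℚ) (hV : ∀ q ∈ V, q < 0) (hf : ∀ q ∈ V, f q < 0)
    (hm : StrictMonoOn f (V : Set ℚ)) : ∃ σ : ℚ ≃o ℚ, HN σ ∧ ∀ q ∈ V, σ q = f q := by
  classical
  obtain ⟨τ, hτ⟩ := exists_ext (insert 0 V) (fun q => if q = 0 then 0 else f q) (by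
    intro q hq q' hq' hlt
    rw [Finset.mem_coe, Finset.mem_insert] at hq hq'
    show (if q = 0 then 0 else f q) < (if q' = 0 then 0 else f q')
    rcases hq' with rfl | hq'
    · have hq0 : q ≠ 0 := ne_of_lt hlt
      rw [if_neg hq0, if_pos rfl]
      exact hf q (hq.resolve_left hq0)
    · have h1 := hV q' hq'
      have hq0 : q ≠ 0 := ne_of_lt (lt_trans hlt h1)
      rw [if_neg hq0, if_neg (ne_of_lt h1)]
      exact hm (hq.resolve_left hq0) hq' hlt)
  have hτ0 : τ 0 = 0 := by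
    have := hτ 0 (Finset.mem_insert_self _ _)
    simpa using this
  have hmono : StrictMono (fun q : ℚ => if q < 0 then τ q else q) := by
    intro q q' hlt
    show (if q < 0 then τ q else q) < (if q' < 0 then τ q' else q')
    by_cases h1 : q' < 0
    · rw [if_pos h1, if_pos (lt_trans hlt h1)]
      exact τ.strictMono hlt
    · rw [if_neg h1]
      by_cases h2 : q < 0
      · rw [if_pos h2]
        have h3 : τ q < τ 0 := τ.strictMono h2
        rw [hτ0] at h3
        exact lt_of_lt_of_le h3 (not_lt.1 h1)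
      · rw [if_neg h2]
        exact hlt
  have hsurj : Function.Surjective (fun q : ℚ => if q < 0 then τ q else q) := by
    intro y
    by_cases hy : y < 0
    · refine ⟨τ.symm y, ?_⟩
      have h1 : τ.symm y < 0 := by
        rw [← τ.lt_iff_lt, hτ0, τ.apply_symm_apply]
        exact hy
      show (if τ.symm y < 0 then τ (τ.symm y) else τ.symm y) = y
      rw [if_pos h1, τ.apply_symm_apply]
    · exact ⟨y, if_neg hy⟩
  refine ⟨hmono.orderIsoOfSurjective _ hsurj, ?_, ?_⟩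
  · intro q hq
    show (if q < 0 then τ q else q) = q
    rw [if_neg (not_lt.2 hq)]
  · intro q hq
    show (if q < 0 then τ q else q) = f q
    rw [if_pos (hV q hq), hτ q (Finset.mem_insert_of_mem hq)]
    show (if q = 0 then 0 else f q) = f q
    rw [if_neg (ne_of_lt (hV q hq))]

theorem good_zero {A X : Type} [Group A] [MulAction A X] [MulAction (ℚ ≃o ℚ) X] (S : WSysE A X)
    (hH : HComp A S.supp) : Good A S.supp 0 (fun _ _ x => x) := by
  refine ⟨?_, ?_, ?_, ?_⟩
  · intro V w hV _ W hW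
    rw [Finset.card_eq_zero] at hV
    subst hV
    have hid : ∀ q ∈ W, uu w q = q := by
      intro q hq
      have h1 := hW (Finset.mem_coe.2 hq)
      rw [Finset.coe_empty, Set.empty_union] at h1
      exact if_neg (not_lt.2 h1)
    have himg : ∀ F : Finset ℚ, F ⊆ W → F.image (uu w) = F := by
      intro F hF
      ext q
      rw [Finset.mem_image]
      constructor
      · rintro ⟨p, hp, rfl⟩
        rw [hid p (hF hp)]
        exact hp
      · intro hq
        exact ⟨q, hq, hid q (hF hq)⟩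
    refine ⟨1, ⟨?_, ?_⟩, ?_⟩
    · intro x hx
      rw [one_smul, himg _ hx]
    · intro y hy
      rw [himg W (le_refl _)] at hy
      exact ⟨y, hy, one_smul _ _⟩
    · intro x _
      rw [one_smul]
  · intro V w hV _ q hq q' hq' hne
    exfalso
    rw [zero_add, Finset.card_eq_one] at hV
    obtain ⟨a, rfl⟩ := hV
    rw [Finset.mem_singleton] at hq hq'
    exact hne (hq.trans hq'.symm)
  · intro V w σ hV _ _ hσ x hx
    rw [Finset.card_eq_zero] at hV
    subst hV
    refine hH.fix σ x (fun q hq => hσ q ?_)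
    have h1 := hx (Finset.mem_coe.2 hq)
    rw [Finset.coe_empty, Set.empty_union] at h1
    exact h1
  · intro V w w' _ _
    rfl

section aux

variable {A X : Type} [Group A] [MulAction A X] [MulAction (ℚ ≃o ℚ) X]

theorem gsF1 (S : WSysE A X) (hH : HComp A S.supp) (σ σ' : ℚ ≃o ℚ) (x : X)
    (h : ∀ q ∈ S.supp x, σ q = σ' q) : σ • x = σ' • x := by
  have h1 : (σ'⁻¹ * σ) • x = x := hH.fix _ x (fun q hq => by
    show σ'.symm (σ q) = q
    rw [h q hq, σ'.symm_apply_apply])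
  rw [mul_smul, inv_smul_eq_iff] at h1
  exact h1

theorem gsF2 (S : WSysE A X) (hH : HComp A S.supp) (σ : ℚ ≃o ℚ) (W : Finset ℚ) :
    ∃ a : A, TT S.supp W σ a ∧ ∀ x, S.supp x ⊆ W → σ • x = a • x := by
  obtain ⟨a, ha⟩ := hH.loc σ (S.fin W).toFinset
  have ha' : ∀ x, S.supp x ⊆ W → σ • x = a • x := fun x hx =>
    ha x (by rw [Set.Finite.mem_toFinset]; exact hx)
  refine ⟨a, ⟨?_, ?_⟩, ha'⟩
  · intro x hx
    rw [← ha' x hx]
    exact hH.supp_smul σ x
  · intro y hy
    have h1 : S.supp (σ⁻¹ • y) ⊆ W := by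
      rw [hH.supp_smul]
      intro q hq
      rw [Finset.mem_image] at hq
      obtain ⟨p, hp, rfl⟩ := hq
      obtain ⟨r, hr, hrp⟩ := Finset.mem_image.1 (hy hp)
      have : (σ⁻¹ : ℚ ≃o ℚ) p = r := by
        show σ.symm p = r
        rw [← hrp, σ.symm_apply_apply]
      rw [this]
      exact hr
    exact ⟨σ⁻¹ • y, h1, by rw [← ha' _ h1, smul_inv_smul]⟩

theorem gsF3 {supp : X → Finset ℚ} {W : Finset ℚ} {u v : ℚ → ℚ} {a b : A}
    (h1 : TT supp W u a) (h2 : TT supp (W.image u) v b) : TT supp W (v ∘ u) (b * a) := by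
  constructor
  · intro x hx
    have h3 := h1.1 x hx
    have h4 : supp (a • x) ⊆ W.image u := by
      rw [h3]
      exact Finset.image_subset_image hx
    rw [mul_smul, h2.1 _ h4, h3, Finset.image_image]
  · intro y hy
    rw [← Finset.image_image] at hy
    obtain ⟨x', hx', rfl⟩ := h2.2 y hy
    obtain ⟨x, hx, rfl⟩ := h1.2 x' hx'
    exact ⟨x, hx, mul_smul _ _ _⟩

theorem gsTTc {supp : X → Finset ℚ} {W : Finset ℚ} {u v : ℚ → ℚ} {a : A}
    (h1 : TT supp W u a) (h : ∀ q ∈ W, u q = v q) : TT supp W v a := by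
  have himg : ∀ F : Finset ℚ, F ⊆ W → F.image v = F.image u := by
    intro F hF
    exact Finset.image_congr (fun q hq => (h q (hF hq)).symm)
  constructor
  · intro x hx
    rw [himg _ hx]
    exact h1.1 x hx
  · intro y hy
    rw [himg W (le_refl _)] at hy
    exact h1.2 y hy

theorem gsHNlt {σ : ℚ ≃o ℚ} (h : HN σ) (q : ℚ) : σ q < 0 ↔ q < 0 := by
  have h0 : σ 0 = 0 := h 0 (le_refl _)
  constructor
  · intro hq
    rw [← h0, σ.lt_iff_lt] at hq
    exact hq
  · intro hq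
    rw [← h0, σ.lt_iff_lt]
    exact hq

theorem gsHNinv {σ : ℚ ≃o ℚ} (h : HN σ) : HN σ⁻¹ := by
  intro q hq
  show σ.symm q = q
  rw [σ.symm_apply_eq]
  exact (h q hq).symm

theorem gsHNmul {σ τ : ℚ ≃o ℚ} (h : HN σ) (h' : HN τ) : HN (σ * τ) := by
  intro q hq
  show σ (τ q) = q
  rw [h' q hq, h q hq]

/-- the standard set of negative rationals -/
def gsP (n : ℕ) : Finset ℚ := (Finset.range (n + 1)).image (fun i : ℕ => -((i : ℚ) + 1))

theorem gsP_card (n : ℕ) : (gsP n).card = n + 1 := by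
  unfold gsP
  rw [Finset.card_image_of_injective, Finset.card_range]
  intro i j h
  have : (i : ℚ) = j := by
    have h2 : -((i : ℚ) + 1) = -((j : ℚ) + 1) := h
    linarith
  exact_mod_cast this

theorem gsP_neg (n : ℕ) : ∀ q ∈ gsP n, q < 0 := by
  intro q hq
  unfold gsP at hq
  rw [Finset.mem_image] at hq
  obtain ⟨i, _, rfl⟩ := hq
  have : (0 : ℚ) ≤ i := Nat.cast_nonneg i
  linarith

theorem gs_exists (n : ℕ) (V : Finset ℚ) (hV : V.card = n + 1) (hneg : ∀ q ∈ V, q < 0) :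
    ∃ σ : ℚ ≃o ℚ, HN σ ∧ (gsP n).image σ = V := by
  classical
  let f : ℚ → ℚ := fun q => if h : q ∈ gsP n then
    V.orderEmbOfFin hV (((gsP n).orderIsoOfFin (gsP_card n)).symm ⟨q, h⟩) else 0
  have hf : ∀ q (h : q ∈ gsP n), f q =
      V.orderEmbOfFin hV (((gsP n).orderIsoOfFin (gsP_card n)).symm ⟨q, h⟩) := by
    intro q h
    exact dif_pos h
  have hfV : ∀ q ∈ gsP n, f q ∈ V := by
    intro q h
    rw [hf q h]
    exact Finset.orderEmbOfFin_mem _ _ _
  obtain ⟨σ, h1, h2⟩ := exists_neg_ext (gsP n) f (gsP_neg n) (fun q h => hneg _ (hfV q h)) (by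
    intro q hq q' hq' hlt
    rw [Finset.mem_coe] at hq hq'
    rw [hf q hq, hf q' hq']
    rw [(V.orderEmbOfFin hV).lt_iff_lt, OrderIso.lt_iff_lt]
    exact hlt)
  refine ⟨σ, h1, ?_⟩
  apply Finset.eq_of_subset_of_card_le
  · intro q hq
    rw [Finset.mem_image] at hq
    obtain ⟨p, hp, rfl⟩ := hq
    rw [h2 p hp]
    exact hfV p hp
  · rw [Finset.card_image_of_injective _ σ.injective, gsP_card, hV]

theorem gs_unique (n : ℕ) (σ σ' : ℚ ≃o ℚ) (h : (gsP n).image σ = (gsP n).image σ') :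
    ∀ q ∈ gsP n, σ q = σ' q := by
  classical
  intro q hq
  have hc : ((gsP n).image σ).card = n + 1 := by
    rw [Finset.card_image_of_injective _ σ.injective, gsP_card]
  have e1 : (fun i => σ ((gsP n).orderEmbOfFin (gsP_card n) i)) =
      ((gsP n).image σ).orderEmbOfFin hc := by
    apply Finset.orderEmbOfFin_unique
    · intro i
      exact Finset.mem_image_of_mem _ (Finset.orderEmbOfFin_mem _ _ _)
    · intro i j hij
      exact σ.strictMono (((gsP n).orderEmbOfFin (gsP_card n)).strictMono hij)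
  have e2 : (fun i => σ' ((gsP n).orderEmbOfFin (gsP_card n) i)) =
      ((gsP n).image σ).orderEmbOfFin hc := by
    apply Finset.orderEmbOfFin_unique
    · intro i
      rw [h]
      exact Finset.mem_image_of_mem _ (Finset.orderEmbOfFin_mem _ _ _)
    · intro i j hij
      exact σ'.strictMono (((gsP n).orderEmbOfFin (gsP_card n)).strictMono hij)
  have e3 : q ∈ Set.range ((gsP n).orderEmbOfFin (gsP_card n)) := by
    rw [Finset.range_orderEmbOfFin]
    exact hq
  obtain ⟨i, rfl⟩ := e3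
  have := congrFun (e1.trans e2.symm) i
  exact this

/-- `w` on `P`, zero elsewhere -/
def gsTr (n : ℕ) (w : ℚ → ℚ) (q : ℚ) : ℚ := if q ∈ gsP n then w q else 0

theorem gsTr_eq (n : ℕ) (w : ℚ → ℚ) (q : ℚ) (h : q ∈ gsP n) : gsTr n w q = w q := if_pos h

theorem gsTr_congr (n : ℕ) (w w' : ℚ → ℚ) (h : ∀ q ∈ gsP n, w q = w' q) :
    gsTr n w = gsTr n w' := by
  funext q
  unfold gsTr
  by_cases hq : q ∈ gsP n
  · rw [if_pos hq, if_pos hq, h q hq]
  · rw [if_neg hq, if_neg hq]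

theorem gsZ : Set.Infinite ZZ := by
  apply Set.infinite_of_injective_forall_mem (f := fun n : ℕ => (n : ℚ)) (Nat.cast_injective)
  intro n
  show (0 : ℚ) ≤ n
  exact Nat.cast_nonneg n

theorem gsGW_mono {V V' : Finset ℚ} {w : ℚ → ℚ} (h : GW V w) (hs : V' ⊆ V) : GW V' w :=
  ⟨fun q hq => h.1 q (hs hq), fun q hq => h.2.1 q (hs hq), fun q hq q' hq' e =>
    h.2.2 (Finset.mem_coe.2 (hs (Finset.mem_coe.1 hq))) (Finset.mem_coe.2 (hs (Finset.mem_coe.1 hq'))) e⟩

theorem gs_G (S : WSysE A X) (n : ℕ) (Φ : Finset ℚ → (ℚ → ℚ) → X → X) (h : Good A S.supp n Φ)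
    (w : ℚ → ℚ) (hw : GW (gsP n) w) :
    ∃ G : X → X, LTm A S.supp (((gsP n : Finset ℚ) : Set ℚ) ∪ ZZ) (uu w) G ∧
      ∀ l ∈ gsP n, ∀ x, (S.supp x : Set ℚ) ⊆ (((gsP n).erase l : Finset ℚ) : Set ℚ) ∪ ZZ →
        Φ ((gsP n).erase l) w x = G x := by
  have hne : (gsP n).Nonempty := by
    rw [← Finset.card_pos, gsP_card]
    omega
  refine ext_faces_lim S (uu w) (gsP n) ZZ hne gsZ ?_ ?_ (fun l => Φ ((gsP n).erase l) w) ?_ ?_
  · intro l hl hz
    exact absurd (gsP_neg n l hl) (not_lt.2 hz)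
  · have hpos : ∀ q ∈ gsP n, uu w q = w q := fun q hq => if_pos (gsP_neg n q hq)
    have hz : ∀ q ∈ ZZ, uu w q = q := fun q hq => if_neg (not_lt.2 hq)
    intro q hq q' hq' e
    rcases hq with hq | hq
    · rcases hq' with hq' | hq'
      · rw [Finset.mem_coe] at hq hq'
        rw [hpos q hq, hpos q' hq'] at e
        exact hw.2.2 hq hq' e
      · exfalso
        rw [Finset.mem_coe] at hq
        rw [hpos q hq, hz q' hq'] at e
        have h1 := hw.2.1 q hq
        have h2 : (0 : ℚ) ≤ q' := hq'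
        linarith
    · rcases hq' with hq' | hq'
      · exfalso
        rw [Finset.mem_coe] at hq'
        rw [hz q hq, hpos q' hq'] at e
        have h1 := hw.2.1 q' hq'
        have h2 : (0 : ℚ) ≤ q := hq
        linarith
      · rw [hz q hq, hz q' hq'] at e
        exact e
  · intro l hl
    refine h.g1 _ w ?_ (gsGW_mono hw (Finset.erase_subset _ _))
    rw [Finset.card_erase_of_mem hl, gsP_card]
    omega
  · intro l hl l' hl' hne x hx
    exact h.g2 (gsP n) w (gsP_card n) hw l hl l' hl' hne x hx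

end aux

theorem good_step {A X : Type} [Group A] [MulAction A X] [MulAction (ℚ ≃o ℚ) X] (S : WSysE A X)
    (hH : HComp A S.supp) (n : ℕ) (Φ : Finset ℚ → (ℚ → ℚ) → X → X) (h : Good A S.supp n Φ) :
    ∃ Φ' : Finset ℚ → (ℚ → ℚ) → X → X, Good A S.supp (n + 1) Φ' ∧
      ∀ (V : Finset ℚ) (w : ℚ → ℚ), V.card = n + 1 → GW V w → ∀ q ∈ V, ∀ x,
        (S.supp x : Set ℚ) ⊆ ((V.erase q : Finset ℚ) : Set ℚ) ∪ ZZ →
          Φ' V w x = Φ (V.erase q) w x := by
  classical
  let s : Finset ℚ → (ℚ ≃o ℚ) := fun V =>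
    if hV : V.card = n + 1 ∧ ∀ q ∈ V, q < 0 then (gs_exists n V hV.1 hV.2).choose else 1
  have hs : ∀ V : Finset ℚ, V.card = n + 1 → (∀ q ∈ V, q < 0) → HN (s V) ∧ (gsP n).image (s V) = V := by
    intro V h1 h2
    have e : s V = (gs_exists n V h1 h2).choose := dif_pos ⟨h1, h2⟩
    rw [e]
    exact (gs_exists n V h1 h2).choose_spec
  let G : (ℚ → ℚ) → X → X := fun w => if hw : GW (gsP n) w then (gs_G S n Φ h w hw).choose else id
  have hG : ∀ w, GW (gsP n) w → LTm A S.supp (((gsP n : Finset ℚ) : Set ℚ) ∪ ZZ) (uu w) (G w) ∧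
      ∀ l ∈ gsP n, ∀ x, (S.supp x : Set ℚ) ⊆ (((gsP n).erase l : Finset ℚ) : Set ℚ) ∪ ZZ →
        Φ ((gsP n).erase l) w x = G w x := by
    intro w hw
    have e : G w = (gs_G S n Φ h w hw).choose := dif_pos hw
    rw [e]
    exact (gs_G S n Φ h w hw).choose_spec
  let Φ' : Finset ℚ → (ℚ → ℚ) → X → X := fun V w x =>
    if V.card = n + 1 ∧ ∀ q ∈ V, q < 0 then G (gsTr n (w ∘ s V)) ((s V)⁻¹ • x) else x
  have hΦ : ∀ V : Finset ℚ, V.card = n + 1 → (∀ q ∈ V, q < 0) → ∀ w x,
      Φ' V w x = G (gsTr n (w ∘ s V)) ((s V)⁻¹ • x) := by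
    intro V h1 h2 w x
    exact if_pos ⟨h1, h2⟩
  -- membership facts
  have hsm : ∀ V : Finset ℚ, V.card = n + 1 → (∀ q ∈ V, q < 0) → ∀ p ∈ gsP n, s V p ∈ V := by
    intro V h1 h2 p hp
    have := Finset.mem_image_of_mem (s V) hp
    rwa [(hs V h1 h2).2] at this
  have hsi : ∀ V : Finset ℚ, V.card = n + 1 → (∀ q ∈ V, q < 0) → ∀ q ∈ V,
      ((s V)⁻¹ : ℚ ≃o ℚ) q ∈ gsP n := by
    intro V h1 h2 q hq
    have h3 : q ∈ (gsP n).image (s V) := by rw [(hs V h1 h2).2]; exact hq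
    obtain ⟨p, hp, rfl⟩ := Finset.mem_image.1 h3
    have : ((s V)⁻¹ : ℚ ≃o ℚ) (s V p) = p := (s V).symm_apply_apply p
    rw [this]
    exact hp
  have hsinv : ∀ V q, s V (((s V)⁻¹ : ℚ ≃o ℚ) q) = q := fun V q => (s V).apply_symm_apply q
  have hGW : ∀ V : Finset ℚ, V.card = n + 1 → ∀ w, GW V w → GW (gsP n) (gsTr n (w ∘ s V)) := by
    intro V h1 w hw
    refine ⟨gsP_neg n, ?_, ?_⟩
    · intro q hq
      rw [gsTr_eq n _ q hq]
      exact hw.2.1 _ (hsm V h1 hw.1 q hq)
    · intro q hq q' hq' e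
      rw [Finset.mem_coe] at hq hq'
      rw [gsTr_eq n _ q hq, gsTr_eq n _ q' hq'] at e
      exact (s V).injective (hw.2.2 (hsm V h1 hw.1 q hq) (hsm V h1 hw.1 q' hq') e)
  -- supports of the translates
  have hsub : ∀ V : Finset ℚ, V.card = n + 1 → (∀ q ∈ V, q < 0) → ∀ F : Finset ℚ,
      (F : Set ℚ) ⊆ (V : Set ℚ) ∪ ZZ →
      ((F.image ((s V)⁻¹ : ℚ ≃o ℚ) : Finset ℚ) : Set ℚ) ⊆ ((gsP n : Finset ℚ) : Set ℚ) ∪ ZZ := by
    intro V h1 h2 F hF q hq
    rw [Finset.mem_coe, Finset.mem_image] at hq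
    obtain ⟨p, hp, rfl⟩ := hq
    rcases hF (Finset.mem_coe.2 hp) with h3 | h3
    · left
      exact hsi V h1 h2 p h3
    · right
      rw [gsHNinv (hs V h1 h2).1 p h3]
      exact h3
  -- the relation
  have hR : ∀ (V : Finset ℚ) (w : ℚ → ℚ), V.card = n + 1 → GW V w → ∀ q ∈ V, ∀ x,
        (S.supp x : Set ℚ) ⊆ ((V.erase q : Finset ℚ) : Set ℚ) ∪ ZZ →
          Φ' V w x = Φ (V.erase q) w x := by
    intro V w h1 hw q hq x hx
    have h2 := hw.1
    set l := ((s V)⁻¹ : ℚ ≃o ℚ) q with hl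
    have hlP : l ∈ gsP n := hsi V h1 h2 q hq
    have hsl : s V l = q := hsinv V q
    have himg : ((gsP n).erase l).image (s V) = V.erase q := by
      rw [Finset.image_erase (s V).injective, (hs V h1 h2).2, hsl]
    have hy : (S.supp ((s V)⁻¹ • x) : Set ℚ) ⊆ (((gsP n).erase l : Finset ℚ) : Set ℚ) ∪ ZZ := by
      rw [hH.supp_smul]
      intro p hp
      rw [Finset.mem_coe, Finset.mem_image] at hp
      obtain ⟨r, hr, rfl⟩ := hp
      rcases hx (Finset.mem_coe.2 hr) with h3 | h3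
      · left
        rw [Finset.mem_coe, Finset.mem_erase] at h3
        rw [Finset.mem_coe, Finset.mem_erase]
        refine ⟨?_, hsi V h1 h2 r h3.2⟩
        intro e
        exact h3.1 (((s V)⁻¹ : ℚ ≃o ℚ).injective e)
      · right
        rw [gsHNinv (hs V h1 h2).1 r h3]
        exact h3
    have hcard : ((gsP n).erase l).card = n := by
      rw [Finset.card_erase_of_mem hlP, gsP_card]
      omega
    rw [hΦ V h1 h2, ← (hG _ (hGW V h1 w hw)).2 l hlP _ hy,
      h.g4 ((gsP n).erase l) (gsTr n (w ∘ s V)) (w ∘ s V) hcard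
        (fun p hp => gsTr_eq n _ p (Finset.mem_of_mem_erase hp)),
      ← h.g3 ((gsP n).erase l) w (s V) hcard
        (fun p hp => gsP_neg n p (Finset.mem_of_mem_erase hp))
        (by rw [himg]; exact gsGW_mono hw (Finset.erase_subset _ _)) (hs V h1 h2).1 _ hy,
      himg, smul_inv_smul]
  refine ⟨Φ', ⟨?_, ?_, ?_, ?_⟩, hR⟩
  · -- g1
    intro V w h1 hw W hW
    have h2 := hw.1
    obtain ⟨a₁, ha₁, ha₁'⟩ := gsF2 S hH ((s V)⁻¹ : ℚ ≃o ℚ) W
    obtain ⟨a₂, ha₂, ha₂'⟩ := (hG _ (hGW V h1 w hw)).1 (W.image ((s V)⁻¹ : ℚ ≃o ℚ))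
      (hsub V h1 h2 W hW)
    refine ⟨a₂ * a₁, gsTTc (gsF3 ha₁ ha₂) ?_, ?_⟩
    · intro q hq
      show uu (gsTr n (w ∘ s V)) (((s V)⁻¹ : ℚ ≃o ℚ) q) = uu w q
      rcases hW (Finset.mem_coe.2 hq) with h3 | h3
      · have h4 := hsi V h1 h2 q h3
        unfold uu
        rw [if_pos (gsP_neg n _ h4), if_pos (h2 q h3), gsTr_eq n _ _ h4]
        show w (s V _) = w q
        rw [hsinv]
      · rw [gsHNinv (hs V h1 h2).1 q h3]
        have h5 : ¬ q < 0 := not_lt.2 h3
        unfold uu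
        rw [if_neg h5, if_neg h5]
    · intro x hx
      rw [hΦ V h1 h2, mul_smul, ← ha₁' x hx]
      apply ha₂'
      rw [hH.supp_smul]
      exact Finset.image_subset_image hx
  · -- g2
    intro V w hV hw q hq q' hq' hne x hx
    have hc : (V.erase q).card = n + 1 := by
      rw [Finset.card_erase_of_mem hq, hV]
      omega
    have hc' : (V.erase q').card = n + 1 := by
      rw [Finset.card_erase_of_mem hq', hV]
      omega
    have e : (V.erase q').erase q = (V.erase q).erase q' := Finset.erase_right_comm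
    rw [hR (V.erase q) w hc (gsGW_mono hw (Finset.erase_subset _ _)) q'
        (Finset.mem_erase.2 ⟨hne.symm, hq'⟩) x hx,
      hR (V.erase q') w hc' (gsGW_mono hw (Finset.erase_subset _ _)) q
        (Finset.mem_erase.2 ⟨hne, hq⟩) x (by rw [e]; exact hx), e]
  · -- g3
    intro V w σ h1 h2 hw hσ x hx
    have h1' : (V.image σ).card = n + 1 := by
      rw [Finset.card_image_of_injective _ σ.injective, h1]
    have h2' := hw.1
    have hag : ∀ p ∈ gsP n, s (V.image σ) p = σ (s V p) := by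
      have := gs_unique n (s (V.image σ)) (σ * s V) (by
        rw [(hs _ h1' h2').2]
        conv_lhs => rw [← (hs V h1 h2).2]
        rw [Finset.image_image]
        rfl)
      exact this
    rw [hΦ _ h1' h2', hΦ V h1 h2]
    have e1 : gsTr n (w ∘ s (V.image σ)) = gsTr n ((w ∘ σ) ∘ s V) := by
      apply gsTr_congr
      intro p hp
      show w (s (V.image σ) p) = w (σ (s V p))
      rw [hag p hp]
    have e2 : (s (V.image σ))⁻¹ • σ • x = (s V)⁻¹ • x := by
      rw [← mul_smul]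
      apply gsF1 S hH
      intro q hq
      show (s (V.image σ)).symm (σ q) = (s V).symm q
      rcases hx (Finset.mem_coe.2 hq) with h3 | h3
      · have h4 : q ∈ (gsP n).image (s V) := by rw [(hs V h1 h2).2]; exact h3
        obtain ⟨p, hp, rfl⟩ := Finset.mem_image.1 h4
        rw [← hag p hp, OrderIso.symm_apply_apply, OrderIso.symm_apply_apply]
      · have h5 : (s V).symm q = q := gsHNinv (hs V h1 h2).1 q h3
        have h6 : (s (V.image σ)).symm q = q := gsHNinv (hs _ h1' h2').1 q h3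
        rw [hσ q h3, h5, h6]
    rw [e1, e2]
  · -- g4
    intro V w w' h1 hww
    funext x
    by_cases h2 : ∀ q ∈ V, q < 0
    · rw [hΦ V h1 h2, hΦ V h1 h2]
      have e1 : gsTr n (w ∘ s V) = gsTr n (w' ∘ s V) := by
        apply gsTr_congr
        intro p hp
        exact hww _ (hsm V h1 h2 p hp)
      rw [e1]
    · have e1 : Φ' V w x = x := if_neg (fun hh => h2 hh.2)
      have e2 : Φ' V w' x = x := if_neg (fun hh => h2 hh.2)
      rw [e1, e2]

end Pool.Agent.Helper596_Q
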