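import Mathlib
import Pool.Agent.Helper596_Q.TDefs
import Pool.Agent.Helper596_Q.Ext
import Pool.Agent.Helper596_Q.T3

/-!
# Coherent relabellings
-/

set_option autoImplicit false

namespace Pool.Agent.Helper596_Q


/-- the recursive construction -/
noncomputable def t4F {A X : Type} [Group A] [MulAction A X] [MulAction (ℚ ≃o ℚ) X]
    (S : WSysE A X) (hH : HComp A S.supp) :
    (n : ℕ) → {Φ : Finset ℚ → (ℚ → ℚ) → X → X // Good A S.supp n Φ}
  | 0 => ⟨fun _ _ x => x, good_zero S hH⟩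
  | n + 1 => ⟨(good_step S hH n (t4F S hH n).1 (t4F S hH n).2).choose,
      (good_step S hH n (t4F S hH n).1 (t4F S hH n).2).choose_spec.1⟩

theorem t4F_step {A X : Type} [Group A] [MulAction A X] [MulAction (ℚ ≃o ℚ) X]
    (S : WSysE A X) (hH : HComp A S.supp) (n : ℕ) (V : Finset ℚ) (w : ℚ → ℚ)
    (hV : V.card = n + 1) (hw : GW V w) (q : ℚ) (hq : q ∈ V) (x : X)
    (hx : (S.supp x : Set ℚ) ⊆ ((V.erase q : Finset ℚ) : Set ℚ) ∪ ZZ) :
    (t4F S hH (n + 1)).1 V w x = (t4F S hH n).1 (V.erase q) w x :=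
  (good_step S hH n (t4F S hH n).1 (t4F S hH n).2).choose_spec.2 V w hV hw q hq x hx

theorem GW.mono_t4 {V V' : Finset ℚ} {w : ℚ → ℚ} (h : GW V w) (hV : V' ⊆ V) : GW V' w :=
  ⟨fun q hq => h.1 q (hV hq), fun q hq => h.2.1 q (hV hq),
    h.2.2.mono (Finset.coe_subset.2 hV)⟩

theorem exists_phi {A X : Type} [Group A] [MulAction A X] [MulAction (ℚ ≃o ℚ) X] (S : WSysE A X)
    (hH : HComp A S.supp) : ∃ Φ : Finset ℚ → (ℚ → ℚ) → X → X,
      (∀ V w, GW V w → ∃ a : A, ∀ x, S.supp x ⊆ V → Φ V w x = a • x) ∧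
      (∀ V w, GW V w → ∀ V' ⊆ V, ∀ x, S.supp x ⊆ V' → Φ V' w x = Φ V w x) ∧
      (∀ V w (σ : ℚ ≃o ℚ), (∀ q ∈ V, q < 0) → GW (V.image σ) w → ∀ x, S.supp x ⊆ V →
        Φ (V.image σ) w (σ • x) = Φ V (w ∘ σ) x) ∧
      (∀ (V : Finset ℚ) (w w' : ℚ → ℚ), (∀ q ∈ V, w q = w' q) → Φ V w = Φ V w') := by
  refine ⟨fun V => (t4F S hH V.card).1 V, ?_, ?_, ?_, ?_⟩
  · intro V w hw
    obtain ⟨a, -, ha⟩ := (t4F S hH V.card).2.g1 V w rfl hw V Set.subset_union_left
    exact ⟨a, ha⟩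
  · intro V w hw V' hV' x hx
    show (t4F S hH V'.card).1 V' w x = (t4F S hH V.card).1 V w x
    induction hn : V.card generalizing V with
    | zero =>
      have h1 : V = ∅ := Finset.card_eq_zero.1 hn
      subst h1
      have h2 : V' = ∅ := Finset.subset_empty.1 hV'
      rw [h2]
      rfl
    | succ n ih =>
      by_cases hVV : V' = V
      · rw [hVV, hn]
      · obtain ⟨q, hqV, hqV'⟩ := Finset.exists_of_ssubset (Finset.ssubset_iff_subset_ne.2 ⟨hV', hVV⟩)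
        have h1 : V' ⊆ V.erase q := fun y hy =>
          Finset.mem_erase.2 ⟨fun h => hqV' (h ▸ hy), hV' hy⟩
        have h2 : (V.erase q).card = n := by
          rw [Finset.card_erase_of_mem hqV, hn]
          rfl
        have h3 := ih (V.erase q) (hw.mono_t4 (Finset.erase_subset _ _)) h1 h2
        have h4 := t4F_step S hH n V w hn hw q hqV x (fun y hy =>
          Or.inl (Finset.mem_coe.2 (h1 (hx (Finset.mem_coe.1 hy)))))
        rw [h4]
        exact h3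
  · intro V w σ hV hw x hx
    obtain ⟨σ', h1, h2⟩ := exists_neg_ext V σ hV
      (fun q hq => hw.1 _ (Finset.mem_image_of_mem σ hq)) (fun a _ b _ hab => σ.strictMono hab)
    have h3 : V.image σ = V.image σ' := Finset.image_congr fun q hq => (h2 q hq).symm
    have h4 : σ • x = σ' • x := by
      have h5 : (σ'⁻¹ * σ) • x = x := hH.fix _ x (fun q hq => by
        show σ'⁻¹ (σ q) = q
        rw [← h2 q (hx hq)]
        exact σ'.symm_apply_apply q)
      calc σ • x = σ' • ((σ'⁻¹ * σ) • x) := by rw [← mul_smul, mul_inv_cancel_left]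
        _ = σ' • x := by rw [h5]
    have h6 : (V.image σ').card = V.card := Finset.card_image_of_injective _ σ'.injective
    have h7 := (t4F S hH V.card).2.g3 V w σ' rfl hV (h3 ▸ hw) h1 x
      (fun y hy => Or.inl (Finset.mem_coe.2 (hx (Finset.mem_coe.1 hy))))
    have h8 := (t4F S hH V.card).2.g4 V (w ∘ σ') (w ∘ σ) rfl (fun q hq => by
      show w (σ' q) = w (σ q)
      rw [h2 q hq])
    show (t4F S hH (V.image σ).card).1 (V.image σ) w (σ • x) = (t4F S hH V.card).1 V (w ∘ σ) x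
    rw [h3, h6, h4, h7, h8]
  · intro V w w' h
    exact (t4F S hH V.card).2.g4 V w w' rfl h

theorem exists_phi_M {A X M : Type} [Group A] [MulAction A X] [MulAction A M]
    [MulAction (ℚ ≃o ℚ) X] (S : WSysE A X) (hH : HComp A S.supp) (i : M → X)
    (hi : Function.Injective i) (hiA : ∀ (a : A) (m : M), i (a • m) = a • i m) :
    ∃ (act : MulAction (ℚ ≃o ℚ) M) (supp : M → Finset ℚ) (Ψ : Finset ℚ → (ℚ → ℚ) → M → M),
      (∀ W : Finset ℚ, {m | supp m ⊆ W}.Finite) ∧ (∃ k : ℕ, ∀ m, (supp m).card ≤ k) ∧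
      (∀ (σ : ℚ ≃o ℚ) (F : Finset M), ∃ a : A, ∀ m ∈ F, act.toSMul.smul σ m = a • m) ∧
      (∀ (σ : ℚ ≃o ℚ) (m : M), (∀ q ∈ supp m, σ q = q) → act.toSMul.smul σ m = m) ∧
      (∀ (σ : ℚ ≃o ℚ) (m : M), supp (act.toSMul.smul σ m) = (supp m).image σ) ∧
      (∀ V w, GW V w → ∃ a : A, ∀ m, supp m ⊆ V → Ψ V w m = a • m) ∧
      (∀ V w, GW V w → ∀ V' ⊆ V, ∀ m, supp m ⊆ V' → Ψ V' w m = Ψ V w m) ∧
      (∀ V w (σ : ℚ ≃o ℚ), (∀ q ∈ V, q < 0) → GW (V.image σ) w → ∀ m, supp m ⊆ V →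
        Ψ (V.image σ) w (act.toSMul.smul σ m) = Ψ V (w ∘ σ) m) ∧
      (∀ (V : Finset ℚ) (w w' : ℚ → ℚ), (∀ q ∈ V, w q = w' q) → Ψ V w = Ψ V w') := by
  classical
  obtain ⟨Φ, p1, p2, p3, p4⟩ := exists_phi S hH
  have hex : ∀ (σ : ℚ ≃o ℚ) (m : M), ∃ m' : M, i m' = σ • i m := by
    intro σ m
    obtain ⟨a, ha⟩ := hH.loc σ {i m}
    exact ⟨a • m, by rw [hiA, ha (i m) (Finset.mem_singleton_self _)]⟩
  choose s hs using hex
  let act : MulAction (ℚ ≃o ℚ) M :=
    { smul := s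
      one_smul := fun m => hi (by
        show i (s 1 m) = i m
        rw [hs, one_smul])
      mul_smul := fun σ τ m => hi (by
        show i (s (σ * τ) m) = i (s σ (s τ m))
        rw [hs, hs, hs, mul_smul]) }
  let Ψ : Finset ℚ → (ℚ → ℚ) → M → M := fun V w m =>
    if h : ∃ m' : M, i m' = Φ V w (i m) then h.choose else m
  have hΨ : ∀ V w, GW V w → ∀ m, S.supp (i m) ⊆ V → i (Ψ V w m) = Φ V w (i m) := by
    intro V w hw m hm
    obtain ⟨a, ha⟩ := p1 V w hw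
    have h : ∃ m' : M, i m' = Φ V w (i m) := ⟨a • m, by rw [hiA, ha (i m) hm]⟩
    show i (if h : ∃ m' : M, i m' = Φ V w (i m) then h.choose else m) = _
    rw [dif_pos h]
    exact h.choose_spec
  refine ⟨act, fun m => S.supp (i m), Ψ, ?_, ?_, ?_, ?_, ?_, ?_, ?_, ?_, ?_⟩
  · intro W
    exact (S.fin W).preimage hi.injOn
  · obtain ⟨k, hk⟩ := S.bdd
    exact ⟨k, fun m => hk (i m)⟩
  · intro σ F
    obtain ⟨a, ha⟩ := hH.loc σ (F.image i)
    refine ⟨a, fun m hm => hi ?_⟩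
    show i (s σ m) = i (a • m)
    rw [hs, hiA, ha (i m) (Finset.mem_image_of_mem i hm)]
  · intro σ m h
    apply hi
    show i (s σ m) = i m
    rw [hs, hH.fix σ (i m) h]
  · intro σ m
    show S.supp (i (s σ m)) = (S.supp (i m)).image σ
    rw [hs, hH.supp_smul]
  · intro V w hw
    obtain ⟨a, ha⟩ := p1 V w hw
    refine ⟨a, fun m hm => hi ?_⟩
    rw [hΨ V w hw m hm, hiA, ha (i m) hm]
  · intro V w hw V' hV' m hm
    apply hi
    rw [hΨ V' w (hw.mono_t4 hV') m hm, hΨ V w hw m (hm.trans hV')]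
    exact p2 V w hw V' hV' (i m) hm
  · intro V w σ hV hw m hm
    apply hi
    have hw' : GW V (w ∘ σ) := by
      refine ⟨hV, fun q hq => hw.2.1 _ (Finset.mem_image_of_mem σ hq), ?_⟩
      intro q hq q' hq' h
      exact σ.injective (hw.2.2 (Finset.mem_coe.2 (Finset.mem_image_of_mem σ hq))
        (Finset.mem_coe.2 (Finset.mem_image_of_mem σ hq')) h)
    have hm' : S.supp (i (s σ m)) ⊆ V.image σ := by
      rw [hs, hH.supp_smul]
      exact Finset.image_subset_image hm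
    show i (Ψ (V.image σ) w (s σ m)) = i (Ψ V (w ∘ σ) m)
    rw [hΨ _ w hw _ hm', hΨ V _ hw' m hm, hs]
    exact p3 V w σ hV hw (i m) hm
  · intro V w w' h
    funext m
    show (if h : ∃ m' : M, i m' = Φ V w (i m) then h.choose else m) =
      (if h : ∃ m' : M, i m' = Φ V w' (i m) then h.choose else m)
    simp only [p4 V w w' h]

end Pool.Agent.Helper596_Q
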