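import Mathlib
import Pool.Agent.Helper596_Q.RN

/-!
# Structures on words are interpretable over equality
-/

set_option autoImplicit false

namespace Pool.Agent.Helper596_Q

open FirstOrder FirstOrder.Language

theorem empty_definable {ι : Type} [Finite ι] (s : Set (ι → ℕ))
    (hs : ∀ (g : Equiv.Perm ℕ), ∀ x ∈ s, (fun i => g (x i)) ∈ s) :
    @Set.Definable ℕ (∅ : Set ℕ) Language.empty Language.emptyStructure ι s := by
  classical
  let _ : Language.empty.Structure ℕ := Language.emptyStructure
  obtain ⟨n, ⟨e⟩⟩ := Finite.exists_equiv_fin ι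
  have key : Set.Definable (∅ : Set ℕ) Language.empty {x : Fin n → ℕ | (fun i => x (e i)) ∈ s} := by
    refine definable_of_invariant (fun m => ?_) n _ ?_
    · refine ⟨Fintype.piFinset (fun _ => Finset.range m), fun v => ?_⟩
      -- the range of `v`
      set F : Finset ℕ := Finset.univ.image v with hF
      have hcard : F.card ≤ m := by
        refine le_trans Finset.card_image_le ?_
        simp
      let f := F.equivFin
      have hpre := Equiv.Perm.isMultiplyPretransitive ℕ F.card
      let x : Fin F.card ↪ ℕ := ⟨fun i => (i : ℕ), Fin.val_injective⟩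
      let y : Fin F.card ↪ ℕ := ⟨fun i => ((f.symm i : F) : ℕ), fun a b hab =>
        f.symm.injective (Subtype.ext hab)⟩
      obtain ⟨g, hg⟩ := hpre.exists_smul_eq x y
      have hmem : ∀ i, v i ∈ F := fun i => Finset.mem_image_of_mem _ (Finset.mem_univ _)
      refine ⟨fun i => ((f ⟨v i, hmem i⟩ : Fin F.card) : ℕ), ?_, ?_⟩
      · rw [Fintype.mem_piFinset]
        intro i
        rw [Finset.mem_range]
        exact lt_of_lt_of_le (f ⟨v i, hmem i⟩).2 hcard
      · refine ⟨{ toEquiv := g
                  map_fun' := fun f _ => isEmptyElim f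
                  map_rel' := fun r _ => isEmptyElim r }, fun i => ?_⟩
        have h1 := DFunLike.congr_fun hg (f ⟨v i, hmem i⟩)
        have h2 : y (f ⟨v i, hmem i⟩) = v i := by
          show ((f.symm (f ⟨v i, hmem i⟩) : F) : ℕ) = v i
          rw [Equiv.symm_apply_apply]
        rw [h2] at h1
        exact h1
    · intro g x hx
      exact hs g.toEquiv _ hx
  have h2 := Set.Definable.preimage_comp (e.symm : Fin n → ι) key
  have h3 : s = (fun g : ι → ℕ => g ∘ e.symm) ⁻¹' {x : Fin n → ℕ | (fun i => x (e i)) ∈ s} := by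
    ext z
    simp
  rw [h3]
  exact h2

/-- the codes of the elements of `Fin r × (Fin K ↪ ℕ)` -/
def codeSet (r K : ℕ) : Set (Option (Fin r) ⊕ Fin K → ℕ) :=
  {z | (∃! t : Fin r, z (Sum.inl (some t)) = z (Sum.inl none)) ∧
    Function.Injective (fun j : Fin K => z (Sum.inr j))}

open Classical in
/-- the element with a given code -/
noncomputable def decode (r K : ℕ) (hr : 0 < r) (z : Option (Fin r) ⊕ Fin K → ℕ) :
    Fin r × (Fin K ↪ ℕ) :=
  if h : z ∈ codeSet r K then (h.1.choose, ⟨fun j : Fin K => z (Sum.inr j), h.2⟩)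
  else (⟨0, hr⟩, ⟨fun j => (j : ℕ), Fin.val_injective⟩)

theorem codeSet_perm {r K : ℕ} (g : Equiv.Perm ℕ) {z : Option (Fin r) ⊕ Fin K → ℕ}
    (hz : z ∈ codeSet r K) : (fun i => g (z i)) ∈ codeSet r K := by
  refine ⟨?_, ?_⟩
  · obtain ⟨t, ht, hu⟩ := hz.1
    refine ⟨t, congrArg g ht, fun t' ht' => hu t' (g.injective ht')⟩
  · intro a b hab
    exact hz.2 (g.injective hab)

theorem decode_fst_iff {r K : ℕ} (hr : 0 < r) {z : Option (Fin r) ⊕ Fin K → ℕ}
    (hz : z ∈ codeSet r K) (t : Fin r) :
    (decode r K hr z).1 = t ↔ z (Sum.inl (some t)) = z (Sum.inl none) := by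
  have h1 : (decode r K hr z).1 = hz.1.choose := by
    unfold decode
    rw [dif_pos hz]
  rw [h1]
  have h2 := hz.1.choose_spec
  constructor
  · intro h
    rw [← h]
    exact h2.1
  · intro h
    exact (h2.2 t h).symm

theorem decode_snd {r K : ℕ} (hr : 0 < r) {z : Option (Fin r) ⊕ Fin K → ℕ}
    (hz : z ∈ codeSet r K) (j : Fin K) :
    (decode r K hr z).2 j = z (Sum.inr j) := by
  unfold decode
  rw [dif_pos hz]
  rfl

theorem decode_perm {r K : ℕ} (hr : 0 < r) (g : Equiv.Perm ℕ) {z : Option (Fin r) ⊕ Fin K → ℕ}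
    (hz : z ∈ codeSet r K) :
    decode r K hr (fun i => g (z i)) =
      ((decode r K hr z).1, (decode r K hr z).2.trans g.toEmbedding) := by
  have hz' := codeSet_perm g hz
  refine Prod.ext ?_ ?_
  · rw [decode_fst_iff hr hz']
    exact congrArg g ((decode_fst_iff hr hz _).1 rfl)
  · refine DFunLike.ext _ _ (fun j => ?_)
    rw [decode_snd hr hz']
    show g (z (Sum.inr j)) = g ((decode r K hr z).2 j)
    rw [decode_snd hr hz]

theorem decode_surj {r K : ℕ} (hr : 0 < r) (m : Fin r × (Fin K ↪ ℕ)) :
    ∃ z ∈ codeSet r K, decode r K hr z = m := by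
  classical
  let z : Option (Fin r) ⊕ Fin K → ℕ :=
    Sum.elim (fun o => match o with
      | none => 0
      | some t => if t = m.1 then 0 else 1) (fun j => m.2 j)
  have hz : z ∈ codeSet r K := by
    refine ⟨⟨m.1, ?_, ?_⟩, ?_⟩
    · show (if m.1 = m.1 then 0 else 1) = 0
      rw [if_pos rfl]
    · intro t ht
      have ht' : (if t = m.1 then 0 else 1) = 0 := ht
      by_contra hne
      rw [if_neg hne] at ht'
      exact one_ne_zero ht'
    · intro a b hab
      exact m.2.injective hab
  refine ⟨z, hz, Prod.ext ?_ ?_⟩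
  · rw [decode_fst_iff hr hz]
    show (if m.1 = m.1 then 0 else 1) = 0
    rw [if_pos rfl]
  · refine DFunLike.ext _ _ (fun j => ?_)
    rw [decode_snd hr hz]
    rfl

theorem interp_words (L : FirstOrder.Language.{0, 0}) [L.IsRelational] (r K : ℕ) (hr : 0 < r)
    [L.Structure (Fin r × (Fin K ↪ ℕ))]
    (hinv : ∀ (n : ℕ) (R : L.Relations n) (v : Fin n → Fin r × (Fin K ↪ ℕ)) (s : Equiv.Perm ℕ),
      Structure.RelMap R v →
      Structure.RelMap R (fun t => ((v t).1, (v t).2.trans s.toEmbedding))) :
    ∃ (d : ℕ) (D : Set (Fin d → ℕ)) (π : (Fin d → ℕ) → Fin r × (Fin K ↪ ℕ)),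
    @Set.Definable ℕ (∅ : Set ℕ) Language.empty Language.emptyStructure _ D ∧
    (∀ m, ∃ x ∈ D, π x = m) ∧
    @Set.Definable ℕ (∅ : Set ℕ) Language.empty Language.emptyStructure _
      {p : Fin 2 × Fin d → ℕ | (∀ i, (fun j => p (i, j)) ∈ D) ∧
        π (fun j => p (0, j)) = π (fun j => p (1, j))} ∧
    (∀ (n : ℕ) (R : L.Relations n),
      @Set.Definable ℕ (∅ : Set ℕ) Language.empty Language.emptyStructure _
      {p : Fin n × Fin d → ℕ | (∀ i, (fun j => p (i, j)) ∈ D) ∧
        Structure.RelMap R (fun i => π (fun j => p (i, j)))}) ∧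
    (∀ (n : ℕ) (f : L.Functions n),
      @Set.Definable ℕ (∅ : Set ℕ) Language.empty Language.emptyStructure _
      {p : Fin (n + 1) × Fin d → ℕ | (∀ i, (fun j => p (i, j)) ∈ D) ∧
        Structure.funMap f (fun i : Fin n => π (fun j => p (i.castSucc, j))) =
          π (fun j => p (Fin.last n, j))}) := by
  classical
  obtain ⟨d, ⟨e⟩⟩ := Finite.exists_equiv_fin (Option (Fin r) ⊕ Fin K)
  have hD : ∀ (g : Equiv.Perm ℕ) (x : Fin d → ℕ), (fun i => x (e i)) ∈ codeSet r K →
      (fun i => g (x (e i))) ∈ codeSet r K := fun g x hx => codeSet_perm g hx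
  refine ⟨d, {x | (fun i => x (e i)) ∈ codeSet r K}, fun x => decode r K hr (fun i => x (e i)),
    ?_, ?_, ?_, ?_, ?_⟩
  · refine empty_definable _ (fun g x hx => hD g x hx)
  · intro m
    obtain ⟨z, hz, hm⟩ := decode_surj hr m
    have hze : (fun i => (fun k : Fin d => z (e.symm k)) (e i)) = z := by
      funext i
      show z (e.symm (e i)) = z i
      rw [Equiv.symm_apply_apply]
    refine ⟨fun k => z (e.symm k), ?_, ?_⟩
    · show (fun i => (fun k : Fin d => z (e.symm k)) (e i)) ∈ codeSet r K
      rw [hze]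
      exact hz
    · show decode r K hr (fun i => (fun k : Fin d => z (e.symm k)) (e i)) = m
      rw [hze]
      exact hm
  · refine empty_definable _ (fun g x hx => ⟨fun i => hD g (fun j => x (i, j)) (hx.1 i), ?_⟩)
    have h := hx.2
    have hx0 : (fun i => x (0, e i)) ∈ codeSet r K := hx.1 0
    have hx1 : (fun i => x (1, e i)) ∈ codeSet r K := hx.1 1
    have h0 := decode_perm hr g hx0
    have h1 := decode_perm hr g hx1
    refine Eq.trans h0 (Eq.trans ?_ h1.symm)
    have h' : decode r K hr (fun i => x (0, e i)) = decode r K hr (fun i => x (1, e i)) := h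
    show ((decode r K hr (fun i => x (0, e i))).1,
      (decode r K hr (fun i => x (0, e i))).2.trans g.toEmbedding) =
      ((decode r K hr (fun i => x (1, e i))).1,
      (decode r K hr (fun i => x (1, e i))).2.trans g.toEmbedding)
    rw [h']
  · intro n R
    refine empty_definable _ (fun g x hx => ⟨fun i => hD g (fun j => x (i, j)) (hx.1 i), ?_⟩)
    have h2 := hinv n R _ g hx.2
    have h3 : (fun i : Fin n => decode r K hr (fun k => g (x (i, e k)))) =
        (fun t => ((decode r K hr (fun k => x (t, e k))).1,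
          (decode r K hr (fun k => x (t, e k))).2.trans g.toEmbedding)) := by
      funext t
      have hxt : (fun i => x (t, e i)) ∈ codeSet r K := hx.1 t
      exact decode_perm hr g hxt
    show Structure.RelMap R (fun i : Fin n => decode r K hr (fun k => g (x (i, e k))))
    rw [h3]
    exact h2
  · intro n f
    exact isEmptyElim f

end Pool.Agent.Helper596_Q
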