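import Mathlib
import Pool.Agent.Helper596_Q.TDefs
import Pool.Agent.Helper596_Q.Ext

/-!
# The homomorphically equivalent structure
-/

set_option autoImplicit false

namespace Pool.Agent.Helper596_Q

open FirstOrder FirstOrder.Language

theorem exists_words (L : FirstOrder.Language.{0, 0}) [L.IsRelational] (M : Type) [Nonempty M]
    [L.Structure M] (A : Type) [Group A] [MulAction A M]
    (hA : ∀ (a : A) (n : ℕ) (R : L.Relations n) (v : Fin n → M),
      Structure.RelMap R v ↔ Structure.RelMap R (fun t => a • v t))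
    [MulAction (ℚ ≃o ℚ) M]
    (hact : ∀ (σ : ℚ ≃o ℚ) (n : ℕ) (R : L.Relations n) (v : Fin n → M),
      Structure.RelMap R v ↔ Structure.RelMap R (fun t => σ • v t))
    (supp : M → Finset ℚ) (Ψ : Finset ℚ → (ℚ → ℚ) → M → M)
    (hfin : ∀ W : Finset ℚ, {m | supp m ⊆ W}.Finite) (hbdd : ∃ k : ℕ, ∀ m, (supp m).card ≤ k)
    (hsupp : ∀ (σ : ℚ ≃o ℚ) (m : M), supp (σ • m) = (supp m).image σ)
    (h1 : ∀ V w, GW V w → ∃ a : A, ∀ m, supp m ⊆ V → Ψ V w m = a • m)
    (h2 : ∀ V w, GW V w → ∀ V' ⊆ V, ∀ m, supp m ⊆ V' → Ψ V' w m = Ψ V w m)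
    (h3 : ∀ V w (σ : ℚ ≃o ℚ), (∀ q ∈ V, q < 0) → GW (V.image σ) w → ∀ m, supp m ⊆ V →
      Ψ (V.image σ) w (σ • m) = Ψ V (w ∘ σ) m)
    (h4 : ∀ (V : Finset ℚ) (w w' : ℚ → ℚ), (∀ q ∈ V, w q = w' q) → Ψ V w = Ψ V w') :
    ∃ (r K : ℕ) (_ : L.Structure (Fin r × (Fin K ↪ ℕ))), 0 < r ∧
      (∀ (n : ℕ) (R : L.Relations n) (v : Fin n → Fin r × (Fin K ↪ ℕ)) (s : Equiv.Perm ℕ),
        Structure.RelMap R v →
        Structure.RelMap R (fun t => ((v t).1, (v t).2.trans s.toEmbedding))) ∧
      Nonempty (M →[L] (Fin r × (Fin K ↪ ℕ))) ∧ Nonempty ((Fin r × (Fin K ↪ ℕ)) →[L] M) := by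
  classical
  obtain ⟨K, hK⟩ := hbdd
  set pos : Fin K → ℚ := fun j => (j : ℚ) - K with hpos
  have hposlt : ∀ j j', pos j < pos j' ↔ j < j' := by
    intro j j'
    simp only [hpos]
    rw [sub_lt_sub_iff_right, Nat.cast_lt, Fin.lt_def]
  have hposinj : Function.Injective pos := by
    intro j j' h
    rcases lt_trichotomy j j' with h5 | h5 | h5
    · exact absurd h (((hposlt j j').2 h5).ne)
    · exact h5
    · exact absurd h.symm (((hposlt j' j).2 h5).ne)
  have hposneg : ∀ j, pos j < 0 := by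
    intro j
    simp only [hpos]
    have : ((j : ℕ) : ℚ) < (K : ℚ) := by exact_mod_cast j.2
    linarith
  set P : Finset ℚ := Finset.univ.image pos with hP
  have hPneg : ∀ q ∈ P, q < 0 := by
    intro q hq
    obtain ⟨j, _, rfl⟩ := Finset.mem_image.1 hq
    exact hposneg j
  set S : Finset M := (hfin P).toFinset with hS
  set r := S.card with hr
  set xs : Fin r → M := fun i => ((S.equivFin.symm i : S) : M) with hxs
  have hxsP : ∀ t, supp (xs t) ⊆ P := by
    intro t
    exact (Set.Finite.mem_toFinset (hfin P)).1 (S.equivFin.symm t).2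
  have hcov : ∀ m : M, ∃ t : Fin r, ∃ σ : ℚ ≃o ℚ, σ • xs t = m := by
    intro m
    obtain ⟨τ, hτ⟩ := exists_ext' (Finset.univ : Finset (Fin (supp m).card))
      (fun i => (supp m).orderEmbOfFin rfl i) (fun i => pos (Fin.castLE (hK m) i)) (by
        intro a _ b _
        rw [OrderEmbedding.lt_iff_lt, hposlt]
        rfl)
    have h5 : supp (τ • m) ⊆ P := by
      rw [hsupp]
      intro q hq
      obtain ⟨q', hq', rfl⟩ := Finset.mem_image.1 hq
      have h6 : q' ∈ Set.range ((supp m).orderEmbOfFin rfl) := by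
        rw [Finset.range_orderEmbOfFin]
        exact hq'
      obtain ⟨i, rfl⟩ := h6
      rw [hτ i (Finset.mem_univ _)]
      exact Finset.mem_image_of_mem _ (Finset.mem_univ _)
    have h6 : τ • m ∈ S := by
      rw [hS, Set.Finite.mem_toFinset]
      exact h5
    refine ⟨S.equivFin ⟨τ • m, h6⟩, τ⁻¹, ?_⟩
    have h7 : xs (S.equivFin ⟨τ • m, h6⟩) = τ • m := by
      simp only [hxs, Equiv.symm_apply_apply]
    rw [h7, inv_smul_smul]
  choose tt sg hsg using hcov
  obtain ⟨m0⟩ := (inferInstance : Nonempty M)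
  have hr0 : 0 < r := lt_of_le_of_lt (Nat.zero_le _) (tt m0).2
  let instN : L.Structure (Fin r × (Fin K ↪ ℕ)) :=
    { funMap := fun {n} f => isEmptyElim f
      RelMap := fun {n} R v => ∃ (f : ℚ → ℕ) (σ : Fin n → (ℚ ≃o ℚ)), Function.Injective f ∧
        (∀ t j, (v t).2 j = f (σ t (pos j))) ∧ Structure.RelMap R (fun t => σ t • xs (v t).1) }
  refine ⟨r, K, instN, hr0, ?_, ?_, ?_⟩
  · rintro n R v s ⟨f, σ, hf, h5, hR⟩
    refine ⟨fun q => s (f q), σ, s.injective.comp hf, ?_, hR⟩
    intro t j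
    show s ((v t).2 j) = s (f (σ t (pos j)))
    rw [h5]
  · obtain ⟨f0, hf0⟩ : ∃ f0 : ℚ → ℕ, Function.Injective f0 :=
      ⟨Encodable.encode, Encodable.encode_injective⟩
    refine ⟨{ toFun := fun m => (tt m, ⟨fun j => f0 (sg m (pos j)),
                fun j j' h => hposinj ((sg m).injective (hf0 h))⟩)
              map_fun' := fun {n} f => isEmptyElim f
              map_rel' := ?_ }⟩
    intro n R v hv
    refine ⟨f0, fun t => sg (v t), hf0, fun t j => rfl, ?_⟩
    have h5 : (fun t => sg (v t) • xs ((((fun m => (tt m, (⟨fun j => f0 (sg m (pos j)),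
        fun j j' h => hposinj ((sg m).injective (hf0 h))⟩ : Fin K ↪ ℕ))) ∘ v : Fin n → _) t).1)) = v := by
      funext t
      exact hsg (v t)
    rw [h5]
    exact hv
  · set e : ℕ → ℚ := fun n => -((n : ℚ) + 1) with he
    have hee : Function.Injective e := by
      intro a b h
      simp only [he, neg_inj, add_left_inj, Nat.cast_inj] at h
      exact h
    have heneg : ∀ n, e n < 0 := by
      intro n
      simp only [he]
      have : (0 : ℚ) ≤ (n : ℚ) := Nat.cast_nonneg n
      linarith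
    set w : (Fin K ↪ ℕ) → ℚ → ℚ := fun y q => if h : ∃ j, pos j = q then e (y h.choose) else 0 with hw
    have hwv : ∀ y j, w y (pos j) = e (y j) := by
      intro y j
      have h5 : ∃ j', pos j' = pos j := ⟨j, rfl⟩
      simp only [hw]
      rw [dif_pos h5]
      have h6 := hposinj h5.choose_spec
      rw [h6]
    refine ⟨{ toFun := fun p => Ψ P (w p.2) (xs p.1)
              map_fun' := fun {n} f => isEmptyElim f
              map_rel' := ?_ }⟩
    rintro n R v ⟨f, σ, hf, h5, hR⟩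
    obtain ⟨B, hB⟩ := (Set.finite_range (fun p : Fin n × Fin K => σ p.1 (pos p.2))).bddAbove
    have hB' : ∀ t j, σ t (pos j) ≤ B := fun t j => hB ⟨(t, j), rfl⟩
    set ρ : ℚ ≃o ℚ := OrderIso.addRight (-(B + 1)) with hρ
    have hρv : ∀ q, ρ q = q + -(B + 1) := fun q => rfl
    let g : Fin n → (ℚ ≃o ℚ) := fun t => ρ * σ t
    set V : Finset ℚ := Finset.univ.biUnion (fun t : Fin n => P.image (g t)) with hV
    set w' : ℚ → ℚ := fun q => e (f (ρ.symm q)) with hw'
    have hgneg : ∀ t, ∀ q ∈ P.image (g t), q < 0 := by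
      intro t q hq
      obtain ⟨q', hq', rfl⟩ := Finset.mem_image.1 hq
      obtain ⟨j, _, rfl⟩ := Finset.mem_image.1 hq'
      show ρ (σ t (pos j)) < 0
      rw [hρv]
      have := hB' t j
      linarith
    have hw'inj : Function.Injective w' := by
      intro q q' h
      exact ρ.symm.injective (hf (hee h))
    have hGW : GW V w' := by
      refine ⟨?_, fun q _ => heneg _, hw'inj.injOn⟩
      intro q hq
      obtain ⟨t, _, ht⟩ := Finset.mem_biUnion.1 hq
      exact hgneg t q ht
    obtain ⟨a, ha⟩ := h1 V w' hGW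
    have hkey : ∀ t, Ψ P (w (v t).2) (xs (v t).1) = a • ρ • σ t • xs (v t).1 := by
      intro t
      have e1 : Ψ P (w (v t).2) = Ψ P (w' ∘ (g t)) := by
        refine h4 P _ _ ?_
        intro q hq
        obtain ⟨j, _, rfl⟩ := Finset.mem_image.1 hq
        rw [hwv]
        show e ((v t).2 j) = e (f (ρ.symm (ρ (σ t (pos j)))))
        rw [h5, OrderIso.symm_apply_apply]
      have e2 := h3 P w' (g t) hPneg
        ⟨hgneg t, fun q _ => heneg _, hw'inj.injOn⟩ (xs (v t).1) (hxsP _)
      have hsub : P.image (g t) ⊆ V := by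
        intro q hq
        exact Finset.mem_biUnion.2 ⟨t, Finset.mem_univ _, hq⟩
      have hs : supp (g t • xs (v t).1) ⊆ P.image (g t) := by
        rw [hsupp]
        exact Finset.image_subset_image (hxsP _)
      have e3 := h2 V w' hGW (P.image (g t)) hsub (g t • xs (v t).1) hs
      have e4 := ha (g t • xs (v t).1) (hs.trans hsub)
      rw [e1, ← e2, e3, e4]
      show a • (ρ * σ t) • xs (v t).1 = _
      rw [mul_smul]
    have h6 : (fun t => a • ρ • σ t • xs (v t).1) =
        ((fun p : Fin r × (Fin K ↪ ℕ) => Ψ P (w p.2) (xs p.1)) ∘ v) := by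
      funext t
      exact (hkey t).symm
    rw [← h6, ← hA a n R (fun t => ρ • σ t • xs (v t).1), ← hact ρ n R (fun t => σ t • xs (v t).1)]
    exact hR

end Pool.Agent.Helper596_Q
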