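import Mathlib
import Pool.Agent.Helper596_Q.Lach1
import Pool.Agent.Helper596_Q.E3
import Pool.Agent.Helper596_Q.T4
import Pool.Agent.Helper596_Q.U1
import Pool.Agent.Helper596_Q.U2

/-!
# The homomorphically equivalent structure
-/

set_option autoImplicit false

namespace Pool.Agent.Helper596_Q

open FirstOrder FirstOrder.Language

theorem relMap_smul {L : FirstOrder.Language.{0, 0}} {M : Type} [L.Structure M]
    (a : ↥(AutL L M)) (n : ℕ) (R : L.Relations n) (v : Fin n → M) :
    Structure.RelMap R v ↔ Structure.RelMap R (fun t => a • v t) := a.2 n R v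

theorem exists_words_of_wsysE (L : FirstOrder.Language.{0, 0}) [L.IsRelational] (M : Type)
    [Nonempty M] [L.Structure M] (X : Type) [MulAction ↥(AutL L M) X]
    (S : WSysE ↥(AutL L M) X) (i : M → X) (hi : Function.Injective i)
    (hiA : ∀ (a : ↥(AutL L M)) (x : M), i (a • x) = a • i x) :
    ∃ (r K : ℕ) (_ : L.Structure (Fin r × (Fin K ↪ ℕ))), 0 < r ∧
      (∀ (n : ℕ) (R : L.Relations n) (v : Fin n → Fin r × (Fin K ↪ ℕ)) (s : Equiv.Perm ℕ),
        Structure.RelMap R v →
        Structure.RelMap R (fun t => ((v t).1, (v t).2.trans s.toEmbedding))) ∧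
      Nonempty (M →[L] (Fin r × (Fin K ↪ ℕ))) ∧ Nonempty ((Fin r × (Fin K ↪ ℕ)) →[L] M) := by
  classical
  obtain ⟨actX, hX1, hX2, hX3⟩ := exists_act_supp S.toWSys
  letI := actX
  have hH : HComp ↥(AutL L M) S.supp := ⟨hX1, hX2, hX3⟩
  obtain ⟨act, supp, Ψ, c1, c2, c3, c4, c5, c6, c7, c8, c9⟩ := exists_phi_M S hH i hi hiA
  letI := act
  refine exists_words L M ↥(AutL L M) (fun a n R v => relMap_smul a n R v) ?_ supp Ψ c1 c2 c5
    c6 c7 c8 c9
  intro σ n R v
  obtain ⟨a, ha⟩ := c3 σ (Finset.univ.image v)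
  rw [relMap_smul a n R v]
  have : (fun t => a • v t) = (fun t => σ • v t) := by
    funext t
    exact (ha (v t) (Finset.mem_image_of_mem _ (Finset.mem_univ _))).symm
  rw [this]

end Pool.Agent.Helper596_Q
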