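import Mathlib
import Pool.Agent.Helper596_Q.RN
import Pool.Agent.Helper596_Q.Ext
import Pool.Agent.Helper596_Q.Pair
import Pool.Agent.Helper596_Q.FDefs

/-!
# The example is interpretable in the rational order
-/

set_option autoImplicit false

namespace Pool.Agent.Helper596_Q

open FirstOrder FirstOrder.Language

theorem order_definable_fin (n : ℕ) (s : Set (Fin n → ℚ))
    (hs : ∀ (σ : ℚ ≃o ℚ), ∀ x ∈ s, (fun i => σ (x i)) ∈ s) :
    @Set.Definable ℚ (∅ : Set ℚ) Language.order (orderStructure ℚ) (Fin n) s := by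
  classical
  let _ : Language.order.Structure ℚ := orderStructure ℚ
  have : Language.order.OrderedStructure ℚ := ⟨fun _ => Iff.rfl⟩
  refine definable_of_invariant (L := Language.order) (M := ℚ) ?_ n s ?_
  · intro n
    refine ⟨(Fintype.piFinset fun _ : Fin n => std n), fun v => ?_⟩
    obtain ⟨σ, hσ⟩ := exists_into_std (Finset.univ.image v) n
      (Finset.card_image_le.trans (by simp))
    refine ⟨fun i => σ (v i), ?_, StrongHomClass.toEquiv σ.symm, fun i => ?_⟩
    · rw [Fintype.mem_piFinset]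
      intro i
      exact hσ _ (Finset.mem_image_of_mem _ (Finset.mem_univ _))
    · exact σ.symm_apply_apply (v i)
  · intro g x hx
    have h : ∀ a b : ℚ, g a ≤ g b ↔ a ≤ b := by
      intro a b
      have h := g.map_rel (leSymb : Language.order.Relations 2) ![a, b]
      rw [relMap_leSymb, relMap_leSymb] at h
      exact h
    exact hs { toEquiv := g.toEquiv, map_rel_iff' := fun {a b} => h a b } x hx

theorem order_definable {ι : Type} [Finite ι] (s : Set (ι → ℚ))
    (hs : ∀ (σ : ℚ ≃o ℚ), ∀ x ∈ s, (fun i => σ (x i)) ∈ s) :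
    @Set.Definable ℚ (∅ : Set ℚ) Language.order (orderStructure ℚ) ι s := by
  obtain ⟨n, ⟨e⟩⟩ := Finite.exists_equiv_fin ι
  let _ : Language.order.Structure ℚ := orderStructure ℚ
  have h1 := order_definable_fin n {y : Fin n → ℚ | (fun i => y (e i)) ∈ s}
    (fun σ x hx => hs σ _ hx)
  have h2 := Set.Definable.preimage_comp (e.symm) h1
  have h3 : ((fun g : ι → ℚ => g ∘ e.symm) ⁻¹' {y : Fin n → ℚ | (fun i => y (e i)) ∈ s}) = s := by
    ext g
    show (fun i => g (e.symm (e i))) ∈ s ↔ g ∈ s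
    have : (fun i => g (e.symm (e i))) = g := by
      funext i
      rw [e.symm_apply_apply]
    rw [this]
  rw [h3] at h2
  exact h2

/-- the code of a quintuple -/
noncomputable def cc (x : Fin 5 → ℚ) : ℕ :=
  (if x 2 < x 0 then 4 else 0) + (if x 3 < x 0 then 2 else 0) + (if x 4 < x 0 then 1 else 0)

/-- the interpretation of a quintuple -/
noncomputable def pi5 (x : Fin 5 → ℚ) : MF :=
  if cc x = 0 then MF.lab (x 0)
  else if h : x 0 < x 1 then
    (if cc x ≤ 4 then MF.edge (x 0) (x 1) h (cc x : ZMod 4) else MF.bool (decide (cc x = 5)))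
  else MF.bool (decide (cc x = 5))

/-- the action of an automorphism of the rational order -/
def act (σ : ℚ ≃o ℚ) : MF → MF
  | MF.lab q => MF.lab (σ q)
  | MF.edge a b h k => MF.edge (σ a) (σ b) (σ.strictMono h) k
  | MF.bool b => MF.bool b

theorem act_inj (σ : ℚ ≃o ℚ) (x y : MF) : act σ x = act σ y ↔ x = y := by
  cases x <;> cases y <;> simp [act]

theorem act_ff (σ : ℚ ≃o ℚ) (x y : MF) : act σ (ff x y) = ff (act σ x) (act σ y) := by
  cases x <;> cases y <;> simp [act, ff]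

theorem act_pp (σ : ℚ ≃o ℚ) (x y z : MF) : pp (act σ x) (act σ y) (act σ z) ↔ pp x y z := by
  constructor
  · rintro ⟨a, b, h, k, hz, hxy⟩
    obtain ⟨a, rfl⟩ := σ.surjective a
    obtain ⟨b, rfl⟩ := σ.surjective b
    have h' : a < b := σ.lt_iff_lt.1 h
    refine ⟨a, b, h', k, (act_inj σ _ _).1 hz, ?_⟩
    rcases hxy with ⟨hk, h1, h2⟩ | ⟨hk, h1, h2⟩
    · exact Or.inl ⟨hk, (act_inj σ _ _).1 h1, (act_inj σ _ _).1 h2⟩
    · exact Or.inr ⟨hk, (act_inj σ _ _).1 h1, (act_inj σ _ _).1 h2⟩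
  · rintro ⟨a, b, h, k, rfl, hxy⟩
    refine ⟨σ a, σ b, σ.strictMono h, k, rfl, ?_⟩
    rcases hxy with ⟨hk, rfl, rfl⟩ | ⟨hk, rfl, rfl⟩
    · exact Or.inl ⟨hk, rfl, rfl⟩
    · exact Or.inr ⟨hk, rfl, rfl⟩

theorem cc_map (σ : ℚ ≃o ℚ) (x : Fin 5 → ℚ) : cc (fun i => σ (x i)) = cc x := by
  simp only [cc, σ.lt_iff_lt]

theorem pi5_map (σ : ℚ ≃o ℚ) (x : Fin 5 → ℚ) : pi5 (fun i => σ (x i)) = act σ (pi5 x) := by
  unfold pi5
  rw [cc_map]
  by_cases h0 : cc x = 0
  · rw [if_pos h0, if_pos h0]; rfl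
  · rw [if_neg h0, if_neg h0]
    by_cases h1 : x 0 < x 1
    · rw [dif_pos h1, dif_pos (σ.strictMono h1)]
      by_cases h4 : cc x ≤ 4
      · rw [if_pos h4, if_pos h4]; rfl
      · rw [if_neg h4, if_neg h4]; rfl
    · rw [dif_neg h1, dif_neg (fun h => h1 (σ.lt_iff_lt.1 h))]; rfl

theorem pi5_surj (m : MF) : ∃ x : Fin 5 → ℚ, x 0 < x 1 ∧ pi5 x = m := by
  cases m with
  | lab q => exact ⟨![q, q + 1, q, q, q], by simp, by simp [pi5, cc]⟩
  | edge a b h k =>
    obtain ⟨c, hc1, hc4, hck, hcc⟩ : ∃ c : ℕ, c ≠ 0 ∧ c ≤ 4 ∧ ((c : ℕ) : ZMod 4) = k ∧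
        ∃ u v w : ℚ, (if u < a then 4 else 0) + (if v < a then 2 else 0) +
          (if w < a then 1 else 0) = c := by
      have hk : ∀ k : ZMod 4, k = ((4 : ℕ) : ZMod 4) ∨ k = ((1 : ℕ) : ZMod 4) ∨
          k = ((2 : ℕ) : ZMod 4) ∨ k = ((3 : ℕ) : ZMod 4) := by decide
      rcases hk k with rfl | rfl | rfl | rfl
      · exact ⟨4, by norm_num, by norm_num, rfl, a - 1, a, a, by simp⟩
      · exact ⟨1, by norm_num, by norm_num, rfl, a, a, a - 1, by simp⟩
      · exact ⟨2, by norm_num, by norm_num, rfl, a, a - 1, a, by simp⟩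
      · exact ⟨3, by norm_num, by norm_num, rfl, a, a - 1, a - 1, by simp⟩
    obtain ⟨u, v, w, huvw⟩ := hcc
    have hc : cc ![a, b, u, v, w] = c := huvw
    refine ⟨![a, b, u, v, w], h, ?_⟩
    unfold pi5
    rw [hc, if_neg hc1, dif_pos (show (![a, b, u, v, w] : Fin 5 → ℚ) 0 < ![a, b, u, v, w] 1 from h),
      if_pos hc4, hck]
    rfl
  | bool b =>
    cases b with
    | true =>
      have hc : cc ![0, 1, -1, 0, -1] = 5 := by
        show (if (-1 : ℚ) < 0 then 4 else 0) + (if (0 : ℚ) < 0 then 2 else 0) +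
          (if (-1 : ℚ) < 0 then 1 else 0) = 5
        norm_num
      refine ⟨![0, 1, -1, 0, -1], by simp, ?_⟩
      unfold pi5
      rw [hc]
      simp
    | false =>
      have hc : cc ![0, 1, -1, -1, 0] = 6 := by
        show (if (-1 : ℚ) < 0 then 4 else 0) + (if (-1 : ℚ) < 0 then 2 else 0) +
          (if (0 : ℚ) < 0 then 1 else 0) = 6
        norm_num
      refine ⟨![0, 1, -1, -1, 0], by simp, ?_⟩
      unfold pi5
      rw [hc]
      simp

theorem interp_MF :
    ∃ (d : ℕ) (D : Set (Fin d → ℚ)) (π : (Fin d → ℚ) → MF),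
    @Set.Definable ℚ (∅ : Set ℚ) Language.order (orderStructure ℚ) _ D ∧
    (∀ m, ∃ x ∈ D, π x = m) ∧
    @Set.Definable ℚ (∅ : Set ℚ) Language.order (orderStructure ℚ) _
      {p : Fin 2 × Fin d → ℚ | (∀ i, (fun j => p (i, j)) ∈ D) ∧
        π (fun j => p (0, j)) = π (fun j => p (1, j))} ∧
    (∀ (n : ℕ) (R : LF.Relations n),
      @Set.Definable ℚ (∅ : Set ℚ) Language.order (orderStructure ℚ) _
      {p : Fin n × Fin d → ℚ | (∀ i, (fun j => p (i, j)) ∈ D) ∧
        Structure.RelMap R (fun i => π (fun j => p (i, j)))}) ∧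
    (∀ (n : ℕ) (f : LF.Functions n),
      @Set.Definable ℚ (∅ : Set ℚ) Language.order (orderStructure ℚ) _
      {p : Fin (n + 1) × Fin d → ℚ | (∀ i, (fun j => p (i, j)) ∈ D) ∧
        Structure.funMap f (fun i : Fin n => π (fun j => p (i.castSucc, j))) =
          π (fun j => p (Fin.last n, j))}) := by
  have hD : ∀ (σ : ℚ ≃o ℚ) (x : Fin 5 → ℚ), x 0 < x 1 → σ (x 0) < σ (x 1) :=
    fun σ x h => σ.strictMono h
  refine ⟨5, {x | x 0 < x 1}, pi5, ?_, ?_, ?_, ?_, ?_⟩
  · exact order_definable _ (fun σ x hx => σ.strictMono hx)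
  · intro m
    obtain ⟨x, h1, h2⟩ := pi5_surj m
    exact ⟨x, h1, h2⟩
  · refine order_definable _ (fun σ x hx => ⟨fun i => σ.strictMono (hx.1 i), ?_⟩)
    have h := hx.2
    show pi5 (fun j => σ (x (0, j))) = pi5 (fun j => σ (x (1, j)))
    rw [pi5_map σ (fun j => x (0, j)), pi5_map σ (fun j => x (1, j)), h]
  · intro n R
    refine order_definable _ (fun σ x hx => ⟨fun i => σ.strictMono (hx.1 i), ?_⟩)
    have h := hx.2
    cases R with
    | p =>
      have h' : pp (pi5 fun j => x (0, j)) (pi5 fun j => x (1, j)) (pi5 fun j => x (2, j)) := h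
      show pp (pi5 fun j => σ (x (0, j))) (pi5 fun j => σ (x (1, j))) (pi5 fun j => σ (x (2, j)))
      rw [pi5_map σ (fun j => x (0, j)), pi5_map σ (fun j => x (1, j)),
        pi5_map σ (fun j => x (2, j)), act_pp]
      exact h'
  · intro n f'
    refine order_definable _ (fun σ x hx => ⟨fun i => σ.strictMono (hx.1 i), ?_⟩)
    have h := hx.2
    cases f' with
    | f =>
      have h' : ff (pi5 fun j => x (0, j)) (pi5 fun j => x (1, j)) = pi5 (fun j => x (2, j)) := h
      show ff (pi5 fun j => σ (x (0, j))) (pi5 fun j => σ (x (1, j))) = pi5 (fun j => σ (x (2, j)))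
      rw [pi5_map σ (fun j => x (0, j)), pi5_map σ (fun j => x (1, j)),
        pi5_map σ (fun j => x (2, j)), ← act_ff, h']

end Pool.Agent.Helper596_Q
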