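import Mathlib
import Pool.Agent.Helper596_Q.FDefs

/-!
# Automorphisms of the example
-/

set_option autoImplicit false

namespace Pool.Agent.Helper596_Q

open FirstOrder FirstOrder.Language

/-- The type of an element. -/
def ty : MF → Fin 2 ⊕ (ZMod 4 ⊕ Bool)
  | MF.lab _ => Sum.inl 0
  | MF.edge _ _ _ k => Sum.inr (Sum.inl k)
  | MF.bool b => Sum.inr (Sum.inr b)

/-- The labels of an element. -/
def lb : MF → Fin 2 → ℚ
  | MF.lab q, _ => q
  | MF.edge a b _ _, c => if c = 0 then a else b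
  | MF.bool _, _ => 0

theorem exists_perm_extending {κ : Type} [Finite κ] (u v : κ → ℚ)
    (h : ∀ a b, u a = u b ↔ v a = v b) : ∃ τ : Equiv.Perm ℚ, ∀ a, τ (u a) = v a := by
  classical
  have hu : (Set.range u).Finite := Set.finite_range u
  have hv : (Set.range v).Finite := Set.finite_range v
  let f : {q // q ∈ Set.range u} → {q // q ∈ Set.range v} :=
    fun s => ⟨v s.2.choose, ⟨_, rfl⟩⟩
  have hf : ∀ a, f ⟨u a, ⟨a, rfl⟩⟩ = ⟨v a, ⟨a, rfl⟩⟩ := by
    intro a
    apply Subtype.ext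
    have hs : u (⟨a, rfl⟩ : u a ∈ Set.range u).choose = u a :=
      (⟨a, rfl⟩ : u a ∈ Set.range u).choose_spec
    exact (h _ _).1 hs
  have hbij : Function.Bijective f := by
    constructor
    · rintro ⟨_, a, rfl⟩ ⟨_, b, rfl⟩ hab
      rw [hf, hf] at hab
      apply Subtype.ext
      exact (h a b).2 (congrArg Subtype.val hab)
    · rintro ⟨_, a, rfl⟩
      exact ⟨⟨u a, ⟨a, rfl⟩⟩, hf a⟩
  let e := Equiv.ofBijective f hbij
  haveI i1 : Infinite {q // ¬ q ∈ Set.range u} := by
    have := hu.infinite_compl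
    exact this.to_subtype
  haveI i2 : Infinite {q // ¬ q ∈ Set.range v} := by
    have := hv.infinite_compl
    exact this.to_subtype
  obtain ⟨e'⟩ := nonempty_equiv_of_countable (α := {q // ¬ q ∈ Set.range u})
    (β := {q // ¬ q ∈ Set.range v})
  refine ⟨Equiv.subtypeCongr e e', ?_⟩
  intro a
  have hm : u a ∈ Set.range u := ⟨a, rfl⟩
  have : Equiv.subtypeCongr e e' (u a) = e ⟨u a, hm⟩ := by
    simp only [Equiv.subtypeCongr, Equiv.trans_apply]
    rw [Equiv.sumCompl_symm_apply_of_pos hm]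
    simp
  rw [this]
  exact congrArg Subtype.val (hf a)

/-- The action of a permutation of the labels, shifting the reversed edges by `δ`. -/
def GG (τ : Equiv.Perm ℚ) (δ : ZMod 4) : MF → MF
  | MF.lab q => MF.lab (τ q)
  | MF.bool b => MF.bool b
  | MF.edge a b h k => if h' : τ a < τ b then MF.edge (τ a) (τ b) h' k
      else MF.edge (τ b) (τ a)
        (lt_of_le_of_ne (not_lt.1 h') (fun e => (ne_of_lt h) (τ.injective e.symm))) (k + δ)

theorem GG_lab (τ : Equiv.Perm ℚ) (δ : ZMod 4) (q : ℚ) : GG τ δ (MF.lab q) = MF.lab (τ q) := rfl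

theorem GG_bool (τ : Equiv.Perm ℚ) (δ : ZMod 4) (b : Bool) : GG τ δ (MF.bool b) = MF.bool b := rfl

theorem GG_edge_lt (τ : Equiv.Perm ℚ) (δ : ZMod 4) {a b : ℚ} (h : a < b) (k : ZMod 4)
    (h' : τ a < τ b) : GG τ δ (MF.edge a b h k) = MF.edge (τ a) (τ b) h' k := by
  simp only [GG, dif_pos h']

theorem GG_edge_gt (τ : Equiv.Perm ℚ) (δ : ZMod 4) {a b : ℚ} (h : a < b) (k : ZMod 4)
    (h' : τ b < τ a) : GG τ δ (MF.edge a b h k) = MF.edge (τ b) (τ a) h' (k + δ) := by
  simp only [GG, dif_neg (not_lt.2 h'.le)]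

theorem tau_cases (τ : Equiv.Perm ℚ) {a b : ℚ} (h : a < b) : τ a < τ b ∨ τ b < τ a :=
  lt_or_gt_of_ne (fun e => (ne_of_lt h) (τ.injective e))

theorem GG_inv (τ σ : Equiv.Perm ℚ) (hσ : ∀ q, σ (τ q) = q) (δ : ZMod 4) (z : MF) :
    GG σ (-δ) (GG τ δ z) = z := by
  cases z with
  | lab q => simp [GG_lab, hσ]
  | bool b => rfl
  | edge a b h k =>
    rcases tau_cases τ h with h' | h'
    · rw [GG_edge_lt τ δ h k h']
      rw [GG_edge_lt σ (-δ) h' k (by rw [hσ, hσ]; exact h)]
      simp only [hσ]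
    · rw [GG_edge_gt τ δ h k h']
      rw [GG_edge_gt σ (-δ) h' (k + δ) (by rw [hσ, hσ]; exact h)]
      simp only [hσ]
      rw [add_neg_cancel_right]

theorem GG_ff (τ : Equiv.Perm ℚ) (δ : ZMod 4) (z w : MF) :
    ff (GG τ δ z) (GG τ δ w) = GG τ δ (ff z w) := by
  cases z with
  | lab q =>
    cases w with
    | lab q' => rfl
    | bool b => rfl
    | edge a b h k =>
      rcases tau_cases τ h with h' | h'
      · rw [GG_edge_lt τ δ h k h']; rfl
      · rw [GG_edge_gt τ δ h k h']; rfl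
  | bool b =>
    cases w with
    | lab q' => rfl
    | bool b => rfl
    | edge a b h k =>
      rcases tau_cases τ h with h' | h'
      · rw [GG_edge_lt τ δ h k h']; rfl
      · rw [GG_edge_gt τ δ h k h']; rfl
  | edge a b h k =>
    cases w with
    | lab q' =>
      rcases tau_cases τ h with h' | h'
      · rw [GG_edge_lt τ δ h k h']; rfl
      · rw [GG_edge_gt τ δ h k h']; rfl
    | bool b =>
      rcases tau_cases τ h with h' | h'
      · rw [GG_edge_lt τ δ h k h']; rfl
      · rw [GG_edge_gt τ δ h k h']; rfl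
    | edge a' b' g k' =>
      rcases tau_cases τ h with h' | h' <;> rcases tau_cases τ g with g' | g'
      · rw [GG_edge_lt τ δ h k h', GG_edge_lt τ δ g k' g']
        simp only [ff, GG_bool, MF.bool.injEq, decide_eq_decide, τ.injective.eq_iff]
      · rw [GG_edge_lt τ δ h k h', GG_edge_gt τ δ g k' g']
        simp only [ff, GG_bool, MF.bool.injEq, decide_eq_decide, τ.injective.eq_iff]
        constructor
        · rintro ⟨rfl, rfl, -⟩
          exact absurd h (lt_asymm g)
        · rintro ⟨rfl, rfl, -⟩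
          exact absurd h' (lt_asymm g')
      · rw [GG_edge_gt τ δ h k h', GG_edge_lt τ δ g k' g']
        simp only [ff, GG_bool, MF.bool.injEq, decide_eq_decide, τ.injective.eq_iff]
        constructor
        · rintro ⟨rfl, rfl, -⟩
          exact absurd h (lt_asymm g)
        · rintro ⟨rfl, rfl, -⟩
          exact absurd h' (lt_asymm g')
      · rw [GG_edge_gt τ δ h k h', GG_edge_gt τ δ g k' g']
        simp only [ff, GG_bool, MF.bool.injEq, decide_eq_decide, τ.injective.eq_iff]
        constructor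
        · rintro ⟨h1, h2, h3⟩
          refine ⟨h2, h1, ?_⟩
          have : k' + δ = k + 1 + δ := by rw [h3]; ring
          exact add_right_cancel this
        · rintro ⟨h1, h2, h3⟩
          refine ⟨h2, h1, ?_⟩
          rw [h3]; ring

theorem GG_pp (τ : Equiv.Perm ℚ) (δ : ZMod 4) (hδ : δ = 1 ∨ δ = -1) {x y z : MF}
    (h : pp x y z) : pp (GG τ δ x) (GG τ δ y) (GG τ δ z) := by
  obtain ⟨a, b, hab, k, rfl, h⟩ := h
  have hk1 : (k = 0 ∨ k = 2) → (k + δ = 1 ∨ k + δ = 3) := by
    rintro (rfl | rfl) <;> rcases hδ with rfl | rfl <;> decide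
  have hk2 : (k = 1 ∨ k = 3) → (k + δ = 0 ∨ k + δ = 2) := by
    rintro (rfl | rfl) <;> rcases hδ with rfl | rfl <;> decide
  rcases tau_cases τ hab with h' | h'
  · rw [GG_edge_lt τ δ hab k h']
    refine ⟨τ a, τ b, h', k, rfl, ?_⟩
    rcases h with ⟨hk, rfl, rfl⟩ | ⟨hk, rfl, rfl⟩
    · exact Or.inl ⟨hk, rfl, rfl⟩
    · exact Or.inr ⟨hk, rfl, rfl⟩
  · rw [GG_edge_gt τ δ hab k h']
    refine ⟨τ b, τ a, h', k + δ, rfl, ?_⟩
    rcases h with ⟨hk, rfl, rfl⟩ | ⟨hk, rfl, rfl⟩
    · exact Or.inr ⟨hk1 hk, rfl, rfl⟩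
    · exact Or.inl ⟨hk2 hk, rfl, rfl⟩

/-- The automorphism of `MF` induced by a permutation of the labels. -/
def autG (τ : Equiv.Perm ℚ) : MF ≃[LF] MF where
  toFun := GG τ 1
  invFun := GG τ.symm (-1)
  left_inv := fun z => GG_inv τ τ.symm (fun q => τ.symm_apply_apply q) 1 z
  right_inv := fun z => by
    have := GG_inv τ.symm τ (fun q => τ.apply_symm_apply q) (-1) z
    rwa [neg_neg] at this
  map_fun' := fun {n} f v => by
    cases f with
    | f => exact (GG_ff τ 1 (v 0) (v 1)).symm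
  map_rel' := fun {n} r v => by
    cases r with
    | p =>
      constructor
      · intro h
        have h1 : pp (GG τ 1 (v 0)) (GG τ 1 (v 1)) (GG τ 1 (v 2)) := h
        have h2 := GG_pp τ.symm (-1) (Or.inr rfl) h1
        rw [GG_inv τ τ.symm (fun q => τ.symm_apply_apply q) 1,
          GG_inv τ τ.symm (fun q => τ.symm_apply_apply q) 1,
          GG_inv τ τ.symm (fun q => τ.symm_apply_apply q) 1] at h2
        exact h2
      · intro h
        have h1 : pp (v 0) (v 1) (v 2) := h
        exact GG_pp τ 1 (Or.inl rfl) h1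

theorem exists_aut_MF {ι : Type} [Finite ι] (x y : ι → MF) (hty : ∀ i, ty (x i) = ty (y i))
    (hlb : ∀ i c i' c', lb (x i) c = lb (x i') c' ↔ lb (y i) c = lb (y i') c') :
    ∃ g : MF ≃[LF] MF, ∀ i, g (x i) = y i := by
  obtain ⟨τ, hτ⟩ := exists_perm_extending (κ := ι × Fin 2) (fun p => lb (x p.1) p.2)
    (fun p => lb (y p.1) p.2) (fun a b => hlb a.1 a.2 b.1 b.2)
  refine ⟨autG τ, fun i => ?_⟩
  have h0 : τ (lb (x i) 0) = lb (y i) 0 := hτ (i, 0)
  have h1 : τ (lb (x i) 1) = lb (y i) 1 := hτ (i, 1)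
  have ht := hty i
  change GG τ 1 (x i) = y i
  generalize x i = X at *
  generalize y i = Y at *
  cases X with
  | lab q =>
    cases Y with
    | lab q' => simp only [lb] at h0; rw [GG_lab, h0]
    | bool b => simp [ty] at ht
    | edge a b h k => simp [ty] at ht
  | bool b =>
    cases Y with
    | lab q' => simp [ty] at ht
    | bool b' => simp only [ty, Sum.inr.injEq] at ht; rw [GG_bool, ht]
    | edge a b h k => simp [ty] at ht
  | edge a b h k =>
    cases Y with
    | lab q' => simp [ty] at ht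
    | bool b' => simp [ty] at ht
    | edge a' b' h' k' =>
      simp only [ty, Sum.inr.injEq, Sum.inl.injEq] at ht
      subst ht
      have e0 : τ a = a' := by simpa [lb] using h0
      have e1 : τ b = b' := by simpa [lb] using h1
      subst e0 e1
      exact GG_edge_lt τ 1 h k h'

end Pool.Agent.Helper596_Q

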