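import Mathlib
import Pool.Agent.H330.Ramsey
import Pool.Agent.Helper596_Q.FDefs
import Pool.Agent.Helper596_Q.V2

/-!
# Stability of the example
-/

set_option autoImplicit false

namespace Pool.Agent.Helper596_Q

open FirstOrder FirstOrder.Language


/-- The finite set of possible data of a pair. -/
abbrev V3Col (k l : ℕ) : Type :=
  (Fin k → Fin 2 ⊕ (ZMod 4 ⊕ Bool)) × (Fin l → Fin 2 ⊕ (ZMod 4 ⊕ Bool)) ×
    (Fin k → Fin 2 → Fin k → Fin 2 → Prop) ×
    (Fin l → Fin 2 → Fin l → Fin 2 → Prop) × (Fin k → Fin 2 → Fin l → Fin 2 → Prop) ×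
    (Fin k → Fin 2 → Fin l → Fin 2 → Prop)

/-- There are only finitely many data. -/
theorem finite_V3Col (k l : ℕ) : Finite (V3Col k l) := by
  have h4 : Finite (ZMod 4) := inferInstanceAs (Finite (Fin 4))
  have hT : Finite (Fin 2 ⊕ (ZMod 4 ⊕ Bool)) := inferInstance
  have hP : Finite Prop := inferInstance
  have hR (m m' : ℕ) : Finite (Fin m → Fin 2 → Fin m' → Fin 2 → Prop) := inferInstance
  have h1 : Finite (Fin k → Fin 2 ⊕ (ZMod 4 ⊕ Bool)) := inferInstance
  have h2 : Finite (Fin l → Fin 2 ⊕ (ZMod 4 ⊕ Bool)) := inferInstance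
  exact @Finite.instProd _ _ h1 (@Finite.instProd _ _ h2 (@Finite.instProd _ _ (hR _ _)
    (@Finite.instProd _ _ (hR _ _) (@Finite.instProd _ _ (hR _ _) (hR _ _)))))


theorem stable_MF (k l : ℕ) (φ : LF.Formula (Fin k ⊕ Fin l)) : ∃ n : ℕ,
    ¬ ∃ (a : Fin n → Fin k → MF) (b : Fin n → Fin l → MF),
      ∀ i j, φ.Realize (Sum.elim (a i) (b j)) ↔ i ≤ j := by
  classical
  by_contra hcon
  push Not at hcon
  choose a b hab using hcon
  -- total versions
  let A : ℕ → ℕ → Fin k → MF := fun n i => if h : i < n then a n ⟨i, h⟩ else fun _ => MF.lab 0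
  let B : ℕ → ℕ → Fin l → MF := fun n i => if h : i < n then b n ⟨i, h⟩ else fun _ => MF.lab 0
  have hAB : ∀ n i j : ℕ, i < n → j < n →
      (φ.Realize (Sum.elim (A n i) (B n j)) ↔ i ≤ j) := by
    intro n i j hi hj
    simp only [A, B, dif_pos hi, dif_pos hj]
    rw [hab n ⟨i, hi⟩ ⟨j, hj⟩]
    exact Fin.mk_le_mk
  -- colours
  let col : ℕ → ℕ → ℕ → V3Col k l := fun n i j =>
    (fun u => ty (A n i u), fun v => ty (B n i v),
      fun u c u' c' => lb (A n i u) c = lb (A n i u') c',
      fun v c v' c' => lb (B n i v) c = lb (B n i v') c',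
      fun u c v c' => lb (A n i u) c = lb (B n j v) c',
      fun u c v c' => lb (A n j u) c = lb (B n i v) c')
  have hfin : Finite (V3Col k l) := finite_V3Col k l
  have hC : ∀ i j : ℕ, ∃ c : V3Col k l, ∀ᶠ n in (Filter.hyperfilter ℕ : Filter ℕ), col n i j = c := by
    intro i j
    obtain ⟨c, hc⟩ := Ultrafilter.eq_pure_of_finite
      ((Filter.hyperfilter ℕ).map (fun n => col n i j))
    refine ⟨c, ?_⟩
    have : ({c} : Set (V3Col k l)) ∈ (Filter.hyperfilter ℕ).map (fun n => col n i j) := by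
      rw [hc]; exact Ultrafilter.mem_pure.2 rfl
    exact this
  choose C hC using hC
  obtain ⟨H, c, hH, hc⟩ := Pool.Agent.H330.infinite_ramsey (A := ℕ) (C := V3Col k l) 2
    (fun s => if h : s.Nonempty then C (s.min' h) (s.max' h) else C 0 0)
  have hpair : ∀ i ∈ H, ∀ j ∈ H, i < j → C i j = c := by
    intro i hi j hj hij
    have h1 := hc {i, j} (Finset.card_pair hij.ne) (by
      intro x hx
      simp only [Finset.coe_insert, Finset.coe_singleton, Set.mem_insert_iff,
        Set.mem_singleton_iff] at hx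
      rcases hx with rfl | rfl
      · exact hi
      · exact hj)
    have hne : ({i, j} : Finset ℕ).Nonempty := ⟨i, by simp⟩
    rw [dif_pos hne] at h1
    have hmin : ({i, j} : Finset ℕ).min' hne = i := by
      apply le_antisymm
      · exact Finset.min'_le _ _ (by simp)
      · apply Finset.le_min'
        intro y hy
        simp only [Finset.mem_insert, Finset.mem_singleton] at hy
        rcases hy with rfl | rfl <;> omega
    have hmax : ({i, j} : Finset ℕ).max' hne = j := by
      apply le_antisymm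
      · apply Finset.max'_le
        intro y hy
        simp only [Finset.mem_insert, Finset.mem_singleton] at hy
        rcases hy with rfl | rfl <;> omega
      · exact Finset.le_max' _ _ (by simp)
    rw [hmin, hmax] at h1
    exact h1
  obtain ⟨i₀, h0⟩ := hH.nonempty
  obtain ⟨i₁, h1, h01⟩ := hH.exists_gt i₀
  obtain ⟨i₂, h2, h12⟩ := hH.exists_gt i₁
  obtain ⟨i₃, h3, h23⟩ := hH.exists_gt i₂
  have hev : ∀ i ∈ H, ∀ j ∈ H, i < j →
      ∀ᶠ n in (Filter.hyperfilter ℕ : Filter ℕ), col n i j = c := by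
    intro i hi j hj hij
    have := hC i j
    rw [hpair i hi j hj hij] at this
    exact this
  have hlarge : ∀ᶠ n in (Filter.hyperfilter ℕ : Filter ℕ), i₃ < n := by
    have h := Filter.eventually_gt_atTop i₃
    rw [← Nat.cofinite_eq_atTop] at h
    exact Filter.hyperfilter_le_cofinite h
  obtain ⟨n, hn, e01, e02, e03, e12, e13, e23⟩ := (hlarge.and ((hev i₀ h0 i₁ h1 h01).and
    ((hev i₀ h0 i₂ h2 (h01.trans h12)).and ((hev i₀ h0 i₃ h3 ((h01.trans h12).trans h23)).and
    ((hev i₁ h1 i₂ h2 h12).and ((hev i₁ h1 i₃ h3 (h12.trans h23)).and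
    (hev i₂ h2 i₃ h3 h23))))))).exists
  -- unpack the equalities
  have unpack : ∀ i j i' j' : ℕ, col n i j = c → col n i' j' = c →
      (∀ u, ty (A n i u) = ty (A n i' u)) ∧ (∀ v, ty (B n i v) = ty (B n i' v)) ∧
      (∀ u c u' c', (lb (A n i u) c = lb (A n i u') c' ↔ lb (A n i' u) c = lb (A n i' u') c')) ∧
      (∀ v c v' c', (lb (B n i v) c = lb (B n i v') c' ↔ lb (B n i' v) c = lb (B n i' v') c')) ∧
      (∀ u c v c', (lb (A n i u) c = lb (B n j v) c' ↔ lb (A n i' u) c = lb (B n j' v) c')) ∧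
      (∀ u c v c', (lb (A n j u) c = lb (B n i v) c' ↔ lb (A n j' u) c = lb (B n i' v) c')) := by
    intro i j i' j' h h'
    have h'' := h.trans h'.symm
    have g1 := congrArg (fun p : V3Col k l => p.1) h''
    have g2 := congrArg (fun p : V3Col k l => p.2.1) h''
    have g3 := congrArg (fun p : V3Col k l => p.2.2.1) h''
    have g4 := congrArg (fun p : V3Col k l => p.2.2.2.1) h''
    have g5 := congrArg (fun p : V3Col k l => p.2.2.2.2.1) h''
    have g6 := congrArg (fun p : V3Col k l => p.2.2.2.2.2) h''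
    refine ⟨fun u => congrFun g1 u, fun v => congrFun g2 v, fun u c u' c' => ?_,
      fun u c u' c' => ?_, fun u c u' c' => ?_, fun u c u' c' => ?_⟩
    · exact iff_of_eq (congrFun (congrFun (congrFun (congrFun g3 u) c) u') c')
    · exact iff_of_eq (congrFun (congrFun (congrFun (congrFun g4 u) c) u') c')
    · exact iff_of_eq (congrFun (congrFun (congrFun (congrFun g5 u) c) u') c')
    · exact iff_of_eq (congrFun (congrFun (congrFun (congrFun g6 u) c) u') c')
  obtain ⟨tA, tB, lA, lB, -, -⟩ := unpack i₁ i₂ i₂ i₃ e12 e23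
  have key : ∀ u c v c', lb (A n i₁ u) c = lb (B n i₂ v) c' ↔ lb (A n i₂ u) c = lb (B n i₁ v) c' := by
    intro u c v c'
    have p01 := (unpack i₁ i₂ i₀ i₁ e12 e01).2.2.2.2
    have p02 := (unpack i₁ i₂ i₀ i₂ e12 e02).2.2.2.2
    have p03 := (unpack i₁ i₂ i₀ i₃ e12 e03).2.2.2.2
    have p13 := (unpack i₁ i₂ i₁ i₃ e12 e13).2.2.2.2
    have p23 := (unpack i₁ i₂ i₂ i₃ e12 e23).2.2.2.2
    constructor
    · intro h
      have q01 := (p01.1 u c v c').1 h
      have q02 := (p02.1 u c v c').1 h
      have q03 := (p03.1 u c v c').1 h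
      have q13 := (p13.1 u c v c').1 h
      have q23 := (p23.1 u c v c').1 h
      exact q23.trans (q03.symm.trans q01)
    · intro h
      have q01 := (p01.2 u c v c').1 h
      have q02 := (p02.2 u c v c').1 h
      have q03 := (p03.2 u c v c').1 h
      have q13 := (p13.2 u c v c').1 h
      have q23 := (p23.2 u c v c').1 h
      exact q01.trans (q03.symm.trans q23)
  obtain ⟨g, hg⟩ := exists_aut_MF (Sum.elim (A n i₁) (B n i₂)) (Sum.elim (A n i₂) (B n i₁))
    (by
      rintro (u | v)
      · exact tA u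
      · exact (tB v).symm)
    (by
      rintro (u | v) c (u' | v') c'
      · exact lA u c u' c'
      · exact key u c v' c'
      · simp only [Sum.elim_inl, Sum.elim_inr]
        exact ⟨fun h => ((key u' c' v c).1 h.symm).symm, fun h => ((key u' c' v c).2 h.symm).symm⟩
      · exact (lB v c v' c').symm)
  have hcomp : (g ∘ Sum.elim (A n i₁) (B n i₂)) = Sum.elim (A n i₂) (B n i₁) := funext hg
  have hr := StrongHomClass.realize_formula g φ (v := Sum.elim (A n i₁) (B n i₂))
  rw [hcomp] at hr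
  have hr1 := (hAB n i₁ i₂ (by omega) (by omega)).2 h12.le
  have hr2 := (hAB n i₂ i₁ (by omega) (by omega)).1 (hr.2 hr1)
  omega

end Pool.Agent.Helper596_Q
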