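import Mathlib
import Pool.Agent.H330.Ramsey

/-!
# Swapping involutions
-/

set_option autoImplicit false

namespace Pool.Agent.Helper596_Q

/-- permutation exchanging two families -/
theorem exists_swaps_perm {ι : Type*} (A B : ι → ℕ) (h1 : ∀ c c', A c = A c' ↔ B c = B c')
    (h2 : ∀ c c', A c ≠ B c') : ∃ τ : Equiv.Perm ℕ, τ * τ = 1 ∧ (∀ c, τ (A c) = B c) ∧
      ∀ p, τ p ≠ p → (∃ c, A c = p) ∨ (∃ c, B c = p) := by
  classical
  obtain ⟨f, hf⟩ : ∃ f : ℕ → ℕ, f = fun p => if h : ∃ c, A c = p then B h.choose else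
      if h : ∃ c, B c = p then A h.choose else p := ⟨_, rfl⟩
  have fA : ∀ c, f (A c) = B c := by
    intro c
    have h : ∃ c', A c' = A c := ⟨c, rfl⟩
    rw [hf]
    simp only [h, dif_pos]
    exact (h1 _ _).mp h.choose_spec
  have fB : ∀ c, f (B c) = A c := by
    intro c
    have h : ¬ ∃ c', A c' = B c := fun ⟨c', hc'⟩ => h2 c' c hc'
    have h' : ∃ c', B c' = B c := ⟨c, rfl⟩
    rw [hf]
    simp only [h, h', dif_pos]
    exact (h1 _ _).mpr h'.choose_spec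
  have fO : ∀ p, (¬ ∃ c, A c = p) → (¬ ∃ c, B c = p) → f p = p := by
    intro p h h'
    rw [hf]
    simp only [h, h', dif_neg, not_false_eq_true]
  have hinv : Function.Involutive f := by
    intro p
    by_cases h : ∃ c, A c = p
    · obtain ⟨c, rfl⟩ := h
      rw [fA, fB]
    · by_cases h' : ∃ c, B c = p
      · obtain ⟨c, rfl⟩ := h'
        rw [fB, fA]
      · rw [fO p h h', fO p h h']
  refine ⟨hinv.toPerm, ?_, fA, ?_⟩
  · ext p
    exact hinv p
  · intro p hp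
    by_contra hcon
    push Not at hcon
    exact hp (fO p (fun ⟨c, hc⟩ => hcon.1 c hc) (fun ⟨c, hc⟩ => hcon.2 c hc))

/-- Ramsey for increasing 4-tuples -/
theorem exists_swaps_ramsey {D : Type} [Finite D] [Inhabited D] (col : (Fin 4 → ℕ) → D) :
    ∃ (e : ℕ → ℕ) (r : D), StrictMono e ∧
      ∀ i j k l, i < j → j < k → k < l → col ![e i, e j, e k, e l] = r := by
  classical
  obtain ⟨H, r, hH, hr⟩ := Pool.Agent.H330.infinite_ramsey (A := ℕ) 4
    (fun s : Finset ℕ => if h : s.card = 4 then col (s.orderEmbOfFin h) else default)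
  refine ⟨Nat.nth (· ∈ H), r, Nat.nth_strictMono hH, ?_⟩
  intro i j k l hij hjk hkl
  obtain ⟨e, he⟩ : ∃ e : ℕ → ℕ, e = Nat.nth (· ∈ H) := ⟨_, rfl⟩
  have hmono : StrictMono e := by rw [he]; exact Nat.nth_strictMono hH
  have hmem : ∀ n, e n ∈ H := fun n => by rw [he]; exact Nat.nth_mem_of_infinite hH n
  rw [← he]
  have a1 := hmono hij
  have a2 := hmono hjk
  have a3 := hmono hkl
  obtain ⟨s, hs⟩ : ∃ s : Finset ℕ, s = {e i, e j, e k, e l} := ⟨_, rfl⟩
  have hcard : s.card = 4 := by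
    rw [hs, Finset.card_insert_of_notMem, Finset.card_insert_of_notMem,
      Finset.card_insert_of_notMem, Finset.card_singleton]
    · simp; omega
    · simp; omega
    · simp; omega
  have hsub : (↑s : Set ℕ) ⊆ H := by
    intro a ha
    rw [hs] at ha
    simp at ha
    rcases ha with rfl | rfl | rfl | rfl <;> exact hmem _
  have h1 := hr s hcard hsub
  rw [dif_pos hcard] at h1
  have h2 : (![e i, e j, e k, e l] : Fin 4 → ℕ) = s.orderEmbOfFin hcard := by
    apply Finset.orderEmbOfFin_unique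
    · intro x
      rw [hs]
      fin_cases x <;> simp
    · intro a b hab
      fin_cases a <;> fin_cases b <;> simp at hab ⊢ <;> omega
  rw [h2]
  exact h1

theorem exists_swaps (C : Finset ℕ) (d : ℕ) (y : ℕ → Fin d → ℕ) (z : ℕ → ℕ → Fin d → ℕ) :
    ∃ (e : ℕ → ℕ) (τ : ℕ → Equiv.Perm ℕ), StrictMono e ∧ (∀ t, τ t * τ t = 1) ∧
      (∀ t c, τ t (y (e (2 * t)) c) = y (e (2 * t + 1)) c) ∧
      (∀ t, ∀ γ ∈ C, τ t γ = γ) ∧
      (∀ s t, s ≠ t → ∀ p, τ s p ≠ p → τ t p = p) ∧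
      (∀ s t, s ≠ t → ∀ c, τ t (z (e (2 * s)) (e (2 * s + 1)) c) =
        z (e (2 * s)) (e (2 * s + 1)) c) := by
  classical
  obtain ⟨F, hF⟩ : ∃ F : (Fin 4 → ℕ) → Fin 6 → Fin d → ℕ, F = fun g =>
    ![y (g 0), y (g 1), z (g 0) (g 1), y (g 2), y (g 3), z (g 2) (g 3)] := ⟨_, rfl⟩
  obtain ⟨e, r, he, hr⟩ := exists_swaps_ramsey
    (D := (Fin 6 → Fin d → Fin 6 → Fin d → Prop) × (Fin 6 → Fin d → C → Prop))
    (fun g => (fun s c s' c' => F g s c = F g s' c', fun s c γ => F g s c = γ))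
  obtain ⟨Y, hY⟩ : ∃ Y : ℕ → Fin d → ℕ, Y = fun n => y (e n) := ⟨_, rfl⟩
  obtain ⟨Z, hZ⟩ : ∃ Z : ℕ → ℕ → Fin d → ℕ, Z = fun m n => z (e m) (e n) := ⟨_, rfl⟩
  have hom : ∀ i j k l, i < j → j < k → k < l → ∀ (s s' : Fin 6) (c c' : Fin d),
      (F ![e i, e j, e k, e l] s c = F ![e i, e j, e k, e l] s' c') =
      (F ![e 0, e 1, e 2, e 3] s c = F ![e 0, e 1, e 2, e 3] s' c') := by
    intro i j k l hij hjk hkl s s' c c'
    have h1 := hr i j k l hij hjk hkl
    have h2 := hr 0 1 2 3 (by norm_num) (by norm_num) (by norm_num)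
    rw [← h2] at h1
    exact congrFun (congrFun (congrFun (congrFun (congrArg Prod.fst h1) s) c) s') c'
  have hom2 : ∀ i j k l, i < j → j < k → k < l → ∀ (s : Fin 6) (c : Fin d) (γ : C),
      (F ![e i, e j, e k, e l] s c = γ) = (F ![e 0, e 1, e 2, e 3] s c = γ) := by
    intro i j k l hij hjk hkl s c γ
    have h1 := hr i j k l hij hjk hkl
    have h2 := hr 0 1 2 3 (by norm_num) (by norm_num) (by norm_num)
    rw [← h2] at h1
    exact congrFun (congrFun (congrFun (congrArg Prod.snd h1) s) c) γ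
  have p1 : ∀ i j, i < j → ∀ c c', (Y i c = Y j c' ↔ Y 0 c = Y 1 c') := by
    intro i j hij c c'
    have h := hom i j (j + 1) (j + 2) hij (by omega) (by omega) 0 1 c c'
    rw [hF] at h
    rw [hY]
    exact Iff.of_eq h
  have p2 : ∀ i c c', (Y i c = Y i c' ↔ Y 0 c = Y 0 c') := by
    intro i c c'
    have h := hom i (i + 1) (i + 2) (i + 3) (by omega) (by omega) (by omega) 0 0 c c'
    rw [hF] at h
    rw [hY]
    exact Iff.of_eq h
  have p3 : ∀ i j k, i < j → j < k → ∀ c c', (Z i j c = Y k c' ↔ Z 0 1 c = Y 2 c') := by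
    intro i j k hij hjk c c'
    have h := hom i j k (k + 1) hij hjk (by omega) 2 3 c c'
    rw [hF] at h
    rw [hY, hZ]
    exact Iff.of_eq h
  have p4 : ∀ j k l, 1 ≤ j → j < k → k < l → ∀ c c', (Z k l c = Y j c' ↔ Z 2 3 c = Y 1 c') := by
    intro j k l hj hjk hkl c c'
    have h := hom 0 j k l (by omega) hjk hkl 5 1 c c'
    rw [hF] at h
    rw [hY, hZ]
    exact Iff.of_eq h
  have p5 : ∀ i c, ∀ γ ∈ C, (Y i c = γ ↔ Y 0 c = γ) := by
    intro i c γ hγ
    have h := hom2 i (i + 1) (i + 2) (i + 3) (by omega) (by omega) (by omega) 0 c ⟨γ, hγ⟩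
    rw [hF] at h
    rw [hY]
    exact Iff.of_eq h
  have f1 : ∀ c, Y 0 c ≠ Y 1 c → ∀ i j, i ≠ j → ∀ c', Y i c ≠ Y j c' := by
    intro c hc i j hij c' heq
    rcases lt_or_gt_of_ne hij with h | h
    · have h1 := (p1 i j h c c').mp heq
      have h2 := (p1 0 2 (by norm_num) c c').mpr h1
      have h3 := (p1 1 2 (by norm_num) c c').mpr h1
      exact hc (h2.trans h3.symm)
    · have h1 := (p1 j i h c' c).mp heq.symm
      have h2 := (p1 0 2 (by norm_num) c' c).mpr h1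
      have h3 : Y 1 c = Y 2 c := h1.symm.trans h2
      exact hc ((p1 1 2 (by norm_num) c c).mp h3)
  have f2 : ∀ c, Y 0 c ≠ Y 1 c → ∀ i, ∀ γ ∈ C, Y i c ≠ γ := by
    intro c hc i γ hγ heq
    have h1 := (p5 i c γ hγ).mp heq
    have h2 := (p5 1 c γ hγ).mpr h1
    exact hc (h1.trans h2.symm)
  have f3 : ∀ c', Y 0 c' ≠ Y 1 c' → ∀ i j k, i < j → j < k → ∀ c, Z i j c ≠ Y k c' := by
    intro c' hc' i j k hij hjk c heq
    have h1 := (p3 i j k hij hjk c c').mp heq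
    have h2 := (p3 0 1 3 (by norm_num) (by norm_num) c c').mpr h1
    exact hc' ((p1 2 3 (by norm_num) c' c').mp (h1.symm.trans h2))
  have f4 : ∀ c', Y 0 c' ≠ Y 1 c' → ∀ j k l, 1 ≤ j → j < k → k < l → ∀ c, Z k l c ≠ Y j c' := by
    intro c' hc' j k l hj hjk hkl c heq
    have h1 := (p4 j k l hj hjk hkl c c').mp heq
    have h2 := (p4 1 3 4 (by norm_num) (by norm_num) (by norm_num) c c').mpr h1
    have h3 := (p4 2 3 4 (by norm_num) (by norm_num) (by norm_num) c c').mpr h1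
    exact hc' ((p1 1 2 (by norm_num) c' c').mp (h2.symm.trans h3))
  have hτ : ∀ t : ℕ, ∃ τ : Equiv.Perm ℕ, τ * τ = 1 ∧
      (∀ c, Y 0 c ≠ Y 1 c → τ (Y (2 * t + 2) c) = Y (2 * t + 3) c) ∧
      ∀ p, τ p ≠ p → ∃ j c, (j = 2 * t + 2 ∨ j = 2 * t + 3) ∧ Y 0 c ≠ Y 1 c ∧ Y j c = p := by
    intro t
    obtain ⟨τ, h1, h2, h3⟩ := exists_swaps_perm
      (fun c : {c : Fin d // Y 0 c ≠ Y 1 c} => Y (2 * t + 2) c.1)
      (fun c : {c : Fin d // Y 0 c ≠ Y 1 c} => Y (2 * t + 3) c.1)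
      (fun c c' => (p2 _ _ _).trans (p2 _ _ _).symm)
      (fun c c' => f1 c.1 c.2 _ _ (by omega) c'.1)
    refine ⟨τ, h1, fun c hc => h2 ⟨c, hc⟩, fun p hp => ?_⟩
    rcases h3 p hp with ⟨c, hc⟩ | ⟨c, hc⟩
    · exact ⟨_, c.1, Or.inl rfl, c.2, hc⟩
    · exact ⟨_, c.1, Or.inr rfl, c.2, hc⟩
  choose τ t1 t2 t3 using hτ
  refine ⟨fun n => e (n + 2), τ, ?_, t1, ?_, ?_, ?_, ?_⟩
  · intro a b hab
    exact he (by omega)
  · intro t c
    have hgoal : τ t (Y (2 * t + 2) c) = Y (2 * t + 3) c := by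
      by_cases hc : Y 0 c = Y 1 c
      · have hcon : ∀ i j, i < j → Y i c = Y j c := fun i j hij => (p1 i j hij c c).mpr hc
        rw [← hcon (2 * t + 2) (2 * t + 3) (by omega)]
        by_contra hne
        obtain ⟨j, c', hj, hc', heq⟩ := t3 t _ hne
        rcases hj with rfl | rfl
        · rw [hcon (2 * t + 2) (2 * t + 3) (by omega)] at heq
          exact f1 c' hc' _ _ (by omega) c heq
        · exact f1 c' hc' _ _ (by omega) c heq
      · exact t2 t c hc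
    rw [hY] at hgoal
    exact hgoal
  · intro t γ hγ
    by_contra hne
    obtain ⟨j, c', hj, hc', heq⟩ := t3 t _ hne
    exact f2 c' hc' j γ hγ heq
  · intro s t hst p hp
    by_contra hne
    obtain ⟨j, c', hj, hc', heq⟩ := t3 t _ hne
    obtain ⟨j2, c2, hj2, hc2, heq2⟩ := t3 s _ hp
    exact f1 c' hc' j j2 (by omega) c2 (heq.trans heq2.symm)
  · intro s t hst c
    have hgoal : τ t (Z (2 * s + 2) (2 * s + 3) c) = Z (2 * s + 2) (2 * s + 3) c := by
      by_contra hne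
      obtain ⟨j, c', hj, hc', heq⟩ := t3 t _ hne
      rcases lt_or_gt_of_ne hst with h | h
      · exact f3 c' hc' (2 * s + 2) (2 * s + 3) j (by omega) (by omega) c heq.symm
      · exact f4 c' hc' j (2 * s + 2) (2 * s + 3) (by omega) (by omega) (by omega) c heq.symm
    rw [hZ] at hgoal
    exact hgoal

end Pool.Agent.Helper596_Q
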