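import Mathlib
import Pool.Agent.Helper596_Q.FDefs
import Pool.Agent.Helper596_Q.V4

/-!
# The example is not homomorphically equivalent to a structure over equality
-/

set_option autoImplicit false

namespace Pool.Agent.Helper596_Q

open FirstOrder FirstOrder.Language


/-- The set `s` is definable in the empty language with parameters in `C`. -/
def V5_EDef {α : Type} (C : Finset ℕ) (s : Set (α → ℕ)) : Prop :=
  @Set.Definable ℕ (C : Set ℕ) Language.empty Language.emptyStructure α s

theorem V5_EDef.inv {α : Type} {C : Finset ℕ} {s : Set (α → ℕ)} (h : V5_EDef C s)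
    (σ : Equiv.Perm ℕ) (hσ : ∀ c ∈ C, σ c = c) (x : α → ℕ) :
    x ∈ s ↔ (fun i => σ (x i)) ∈ s := by
  let _ : Language.empty.Structure ℕ := Language.emptyStructure
  have h' : Set.Definable (C : Set ℕ) Language.empty s := h
  rw [Set.definable_iff_exists_formula_sum] at h'
  obtain ⟨φ, rfl⟩ := h'
  let e' : ℕ ≃[Language.empty] ℕ :=
    { toEquiv := σ, map_fun' := fun f => isEmptyElim f, map_rel' := fun r => isEmptyElim r }
  have h1 := StrongHomClass.realize_formula e' φ
    (v := Sum.elim (fun c : (C : Set ℕ) => (c : ℕ)) x)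
  have h2 : (e' : ℕ → ℕ) ∘ Sum.elim (fun c : (C : Set ℕ) => (c : ℕ)) x =
      Sum.elim (fun c : (C : Set ℕ) => (c : ℕ)) (fun i => σ (x i)) := by
    funext t
    rcases t with c | i
    · exact hσ c c.2
    · rfl
  rw [h2] at h1
  exact h1.symm

theorem V5_vec2 {A B : Type} (f : A → B) (a b : A) : (fun i => f ((![a, b] : Fin 2 → A) i)) =
    ![f a, f b] := by
  funext i; fin_cases i <;> rfl

theorem V5_vec3 {A B : Type} (f : A → B) (a b c : A) :
    (fun i => f ((![a, b, c] : Fin 3 → A) i)) = ![f a, f b, f c] := by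
  funext i; fin_cases i <;> rfl


theorem no_equality_MF (C : Finset ℕ) (N : Type) [LF.Structure N] (d : ℕ) (D : Set (Fin d → ℕ))
    (π : (Fin d → ℕ) → N)
    (hD : @Set.Definable ℕ (C : Set ℕ) Language.empty Language.emptyStructure _ D)
    (hsurj : ∀ m, ∃ x ∈ D, π x = m)
    (hker : @Set.Definable ℕ (C : Set ℕ) Language.empty Language.emptyStructure _
      {p : Fin 2 × Fin d → ℕ | (∀ i, (fun j => p (i, j)) ∈ D) ∧
        π (fun j => p (0, j)) = π (fun j => p (1, j))})
    (hrel : ∀ (n : ℕ) (R : LF.Relations n),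
      @Set.Definable ℕ (C : Set ℕ) Language.empty Language.emptyStructure _
      {p : Fin n × Fin d → ℕ | (∀ i, (fun j => p (i, j)) ∈ D) ∧
        Structure.RelMap R (fun i => π (fun j => p (i, j)))})
    (hfun : ∀ (n : ℕ) (f : LF.Functions n),
      @Set.Definable ℕ (C : Set ℕ) Language.empty Language.emptyStructure _
      {p : Fin (n + 1) × Fin d → ℕ | (∀ i, (fun j => p (i, j)) ∈ D) ∧
        Structure.funMap f (fun i : Fin n => π (fun j => p (i.castSucc, j))) =
          π (fun j => p (Fin.last n, j))})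
    (h : MF →[LF] N) (g : N →[LF] MF) : False := by
  classical
  choose x hxD hx using hsurj
  have e0 : ∀ m : N, π (fun j => x m j) = m := hx
  -- the action
  let sm : Equiv.Perm ℕ → N → N := fun s m => π (fun j => s (x m j))
  have A7 : ∀ s : Equiv.Perm ℕ, (∀ c ∈ C, s c = c) → ∀ v ∈ D, (fun j => s (v j)) ∈ D :=
    fun s hs v hv => (V5_EDef.inv hD s hs v).1 hv
  have A1 : ∀ s : Equiv.Perm ℕ, (∀ c ∈ C, s c = c) → ∀ v ∈ D,
      sm s (π v) = π (fun j => s (v j)) := by
    intro s hs v hv
    have h1 : (fun p : Fin 2 × Fin d => if p.1 = 0 then x (π v) p.2 else v p.2) ∈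
        {p : Fin 2 × Fin d → ℕ | (∀ i, (fun j => p (i, j)) ∈ D) ∧
          π (fun j => p (0, j)) = π (fun j => p (1, j))} := by
      refine ⟨fun i => ?_, ?_⟩
      · by_cases hi : i = 0
        · subst hi
          simpa using hxD (π v)
        · simpa [hi] using hv
      · simpa using hx (π v)
    have h2 := ((V5_EDef.inv hker s hs _).1 h1).2
    simpa using h2
  have A2 : ∀ s s' : Equiv.Perm ℕ, (∀ c ∈ C, s c = c) → (∀ c ∈ C, s' c = c) → ∀ m,
      sm s (sm s' m) = sm (s * s') m := fun s s' hs hs' m => A1 s hs _ (A7 s' hs' _ (hxD m))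
  have A3 : ∀ m, sm 1 m = m := hx
  have A4 : ∀ s : Equiv.Perm ℕ, (∀ c ∈ C, s c = c) → ∀ (n : ℕ) (f : LF.Functions n) (v : Fin n → N),
      sm s (Structure.funMap f v) = Structure.funMap f (fun i => sm s (v i)) := by
    intro s hs n f v
    have h1 : (fun p : Fin (n + 1) × Fin d =>
        x ((Fin.snoc v (Structure.funMap f v) : Fin (n + 1) → N) p.1) p.2) ∈
        {p : Fin (n + 1) × Fin d → ℕ |
          (∀ i, (fun j => p (i, j)) ∈ D) ∧
            Structure.funMap f (fun i : Fin n => π (fun j => p (i.castSucc, j))) =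
              π (fun j => p (Fin.last n, j))} := by
      refine ⟨fun i => hxD ((Fin.snoc v (Structure.funMap f v) : Fin (n + 1) → N) i), ?_⟩
      simp only [Fin.snoc_castSucc, Fin.snoc_last]
      simp only [e0]
    have h2 := ((V5_EDef.inv (hfun n f) s hs _).1 h1).2
    simp only [Fin.snoc_castSucc, Fin.snoc_last] at h2
    exact h2.symm
  have A5 : ∀ s : Equiv.Perm ℕ, (∀ c ∈ C, s c = c) → ∀ (n : ℕ) (R : LF.Relations n) (v : Fin n → N),
      Structure.RelMap R v → Structure.RelMap R (fun i => sm s (v i)) := by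
    intro s hs n R v hR
    have h1 := V5_EDef.inv (hrel n R) s hs (fun p : Fin n × Fin d => x (v p.1) p.2)
    exact (h1.1 ⟨fun i => hxD (v i), by simp only [e0]; exact hR⟩).2
  have A6 : ∀ (s : Equiv.Perm ℕ) (m : N), (∀ c, s (x m c) = x m c) → sm s m = m := by
    intro s m hs
    show π (fun j => s (x m j)) = m
    simp only [hs]
    exact e0 m
  -- the function of `N`
  let f : N → N → N := fun u v => Structure.funMap (L := LF) (M := N) (FunS.f : LF.Functions 2) ![u, v]
  have f_sm : ∀ s : Equiv.Perm ℕ, (∀ c ∈ C, s c = c) → ∀ u v, sm s (f u v) = f (sm s u) (sm s v) := by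
    intro s hs u v
    have := A4 s hs 2 (FunS.f : LF.Functions 2) ![u, v]
    rw [V5_vec2 (sm s)] at this
    exact this
  have f_g : ∀ u v, g (f u v) = ff (g u) (g v) := by
    intro u v
    exact g.map_fun (FunS.f : LF.Functions 2) ![u, v]
  -- the swaps
  obtain ⟨e, τ, he, hτ2, hτy, hτC, hτd, hτz⟩ := exists_swaps C d (fun n => x (h (MF.lab (n : ℚ))))
    (fun i j => if hij : (i : ℚ) < (j : ℚ) then x (h (MF.edge i j hij 0)) else x (h (MF.lab 0)))
  have hlt : ∀ t : ℕ, ((e (2 * t) : ℕ) : ℚ) < ((e (2 * t + 1) : ℕ) : ℚ) := by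
    intro t
    exact_mod_cast he (Nat.lt_succ_self _)
  let a : ℕ → MF := fun t => MF.lab (e (2 * t) : ℚ)
  let b : ℕ → MF := fun t => MF.lab (e (2 * t + 1) : ℚ)
  let ε : ℕ → MF := fun t => MF.edge _ _ (hlt t) 0
  let E : ℕ → N := fun t => h (ε t)
  let E' : ℕ → N := fun t => sm (τ t) (E t)
  have H1 : ∀ t, sm (τ t) (h (a t)) = h (b t) := by
    intro t
    show π (fun j => τ t (x (h (a t)) j)) = h (b t)
    have : (fun j => τ t (x (h (a t)) j)) = fun j => x (h (b t)) j := by
      funext j; exact hτy t j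
    rw [this]; exact e0 _
  have Hinv : ∀ t m, sm (τ t) (sm (τ t) m) = m := by
    intro t m
    rw [A2 _ _ (hτC t) (hτC t), hτ2, A3]
  have H2 : ∀ t, sm (τ t) (h (b t)) = h (a t) := by
    intro t
    rw [← H1, Hinv]
  have P1 : ∀ t, Structure.RelMap (L := LF) (M := N) (RelS.p : LF.Relations 3) ![h (a t), h (b t), E t] := by
    intro t
    have h1 : Structure.RelMap (L := LF) (M := MF) (RelS.p : LF.Relations 3) ![a t, b t, ε t] := pp_edge _ _ (hlt t)
    have h2 := h.map_rel (RelS.p : LF.Relations 3) _ h1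
    have h3 : (h : MF → N) ∘ ![a t, b t, ε t] = ![h (a t), h (b t), E t] := V5_vec3 h _ _ _
    rwa [h3] at h2
  have P2 : ∀ t, Structure.RelMap (L := LF) (M := N) (RelS.p : LF.Relations 3) ![h (b t), h (a t), E' t] := by
    intro t
    have h1 := A5 (τ t) (hτC t) 3 (RelS.p : LF.Relations 3) _ (P1 t)
    rw [V5_vec3 (sm (τ t)), H1, H2] at h1
    exact h1
  have G1 : ∀ t, pp (g (h (a t))) (g (h (b t))) (g (E t)) := by
    intro t
    exact g.map_rel (RelS.p : LF.Relations 3) _ (P1 t)
  have G2 : ∀ t, pp (g (h (b t))) (g (h (a t))) (g (E' t)) := by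
    intro t
    exact g.map_rel (RelS.p : LF.Relations 3) _ (P2 t)
  have G3 : ∀ t, ∃ β : Bool, ff (g (E t)) (g (E' t)) = MF.bool β ∧
      ff (g (E' t)) (g (E t)) = MF.bool (!β) := fun t => pp_opposite (G1 t) (G2 t)
  choose β hβ hβ' using G3
  let v : ℕ → N := fun t => f (E t) (E' t)
  have gv : ∀ t, g (v t) = MF.bool (β t) := fun t => (f_g _ _).trans (hβ t)
  have gv' : ∀ t, g (sm (τ t) (v t)) = MF.bool (!(β t)) := by
    intro t
    have : sm (τ t) (v t) = f (E' t) (E t) := by
      show sm (τ t) (f (E t) (E' t)) = _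
      rw [f_sm _ (hτC t)]
      show f (E' t) (sm (τ t) (sm (τ t) (E t))) = _
      rw [Hinv]
    rw [this, f_g, hβ']
  have vE : ∀ s t, s ≠ t → sm (τ t) (E s) = E s := by
    intro s t hst
    refine A6 _ _ fun c => ?_
    have := hτz s t hst c
    rw [dif_pos (hlt s)] at this
    exact this
  have vE' : ∀ s t, s ≠ t → sm (τ t) (E' s) = E' s := by
    intro s t hst
    have hcomm : τ t * τ s = τ s * τ t := by
      have hdis : Equiv.Perm.Disjoint (τ t) (τ s) := by
        intro p
        by_cases hp : τ t p = p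
        · exact Or.inl hp
        · exact Or.inr (hτd t s (Ne.symm hst) p hp)
      exact hdis.commute.eq
    show sm (τ t) (sm (τ s) (E s)) = sm (τ s) (E s)
    rw [A2 _ _ (hτC t) (hτC s), hcomm, ← A2 _ _ (hτC s) (hτC t), vE s t hst]
  have vv : ∀ s t, s ≠ t → sm (τ t) (v s) = v s := by
    intro s t hst
    show sm (τ t) (f (E s) (E' s)) = f (E s) (E' s)
    rw [f_sm _ (hτC t), vE s t hst, vE' s t hst]
  -- the words
  let W : ℕ → N := fun j => Nat.rec (v 0) (fun j w => f w (v (j + 1))) j
  let B : ℕ → Bool := fun j => Nat.rec (β 0) (fun j w => xor w (β (j + 1))) j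
  have W0 : W 0 = v 0 := rfl
  have WS : ∀ j, W (j + 1) = f (W j) (v (j + 1)) := fun _ => rfl
  have B0 : B 0 = β 0 := rfl
  have BS : ∀ j, B (j + 1) = xor (B j) (β (j + 1)) := fun _ => rfl
  have gW : ∀ j, g (W j) = MF.bool (B j) := by
    intro j
    induction j with
    | zero => rw [W0, B0, gv]
    | succ j ih => rw [WS, BS, f_g, ih, gv]; rfl
  have W1 : ∀ j t, j < t → sm (τ t) (W j) = W j := by
    intro j
    induction j with
    | zero => intro t ht; rw [W0, vv 0 t (by omega)]
    | succ j ih =>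
      intro t ht
      rw [WS, f_sm _ (hτC t), ih t (by omega), vv (j + 1) t (by omega)]
  have W2 : ∀ j t, t ≤ j → g (sm (τ t) (W j)) = MF.bool (!(B j)) := by
    intro j
    induction j with
    | zero =>
      intro t ht
      obtain rfl : t = 0 := by omega
      rw [W0, B0, gv']
    | succ j ih =>
      intro t ht
      rw [WS, BS, f_sm _ (hτC t), f_g]
      rcases Nat.lt_or_ge j t with hjt | hjt
      · obtain rfl : t = j + 1 := by omega
        rw [W1 j (j + 1) (by omega), gW, gv']
        show MF.bool (xor (B j) (!(β (j + 1)))) = _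
        cases B j <;> cases β (j + 1) <;> rfl
      · rw [ih t hjt, vv (j + 1) t (by omega), gv]
        show MF.bool (xor (!(B j)) (β (j + 1))) = _
        cases B j <;> cases β (j + 1) <;> rfl
  have W3 : ∀ t : Fin (d + 1), ∃ c : Fin d, τ t (x (W d) c) ≠ x (W d) c := by
    intro t
    by_contra hc
    push Not at hc
    have h1 := A6 (τ t) (W d) hc
    have h2 := W2 d t (by have := t.2; omega)
    rw [h1, gW, MF.bool.injEq] at h2
    cases hB : B d <;> simp [hB] at h2
  choose c hc using W3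
  obtain ⟨s, t, hst, hcc⟩ := Fintype.exists_ne_map_eq_of_card_lt c (by simp)
  have h1 := hτd s t (by intro h0; exact hst (Fin.ext h0)) _ (hc s)
  rw [hcc] at h1
  exact hc t h1

end Pool.Agent.Helper596_Q
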